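import Pool.Agent.Lib.Pda3a14.Ball

/-!
# Combable groups: finite groups, products, abelian groups
-/

namespace Pda3a14

theorem InBall.map {Q Q' : Type*} [Group Q] [Group Q'] [DecidableEq Q'] {S : Finset Q}
    {S' : Finset Q'} (f : Q →* Q') (hf : ∀ s ∈ S, f s ∈ S') {n : ℕ} {g : Q}
    (h : InBall S n g) : InBall S' n (f g) := by
  obtain ⟨l, h1, h2, h3⟩ := h
  refine ⟨l.map f, by simpa using h1, ?_, by rw [← h3, map_list_prod]⟩
  intro s hs
  rw [List.mem_map] at hs
  obtain ⟨a, ha, rfl⟩ := hs
  rcases h2 a ha with h | h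
  · left; exact hf a h
  · right; rw [← map_inv]; exact hf _ h

theorem Combable.of_mulEquiv {Q Q' : Type*} [Group Q] [Group Q'] (e : Q ≃* Q')
    (h : Combable Q) : Combable Q' := by
  classical
  obtain ⟨S, C, c, hgen, h0, hend, hstep, hfel⟩ := h
  refine ⟨S.image e, C, fun q t => e (c (e.symm q) t), ?_, ?_, ?_, ?_, ?_⟩
  · have h1 := congrArg (Subgroup.map e.toMonoidHom) hgen
    rw [MonoidHom.map_closure, Subgroup.map_top_of_surjective _ e.surjective] at h1
    rw [Finset.coe_image]
    exact h1
  · intro q
    simp [h0]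
  · intro q n t hq ht
    have h1 : InBall S n (e.symm q) := hq.map e.symm.toMonoidHom (by
      intro s hs
      rw [Finset.mem_image] at hs
      obtain ⟨a, ha, rfl⟩ := hs
      simpa using ha)
    simp only
    rw [hend _ n t h1 ht, e.apply_symm_apply]
  · intro q t
    have h1 := (hstep (e.symm q) t).map (S' := S.image e) e.toMonoidHom (by
      intro s hs
      exact Finset.mem_image_of_mem _ hs)
    simpa using h1
  · intro q s hs t
    rw [Finset.mem_image] at hs
    obtain ⟨a, ha, rfl⟩ := hs
    have h1 := (hfel (e.symm q) a ha t).map (S' := S.image e) e.toMonoidHom (by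
      intro s hs
      exact Finset.mem_image_of_mem _ hs)
    simpa using h1

theorem Combable.prod {Q Q' : Type*} [Group Q] [Group Q'] (h : Combable Q) (h' : Combable Q') :
    Combable (Q × Q') := by
  classical
  obtain ⟨S, C, c, hgen, h0, hend, hstep, hfel⟩ := h
  obtain ⟨S', C', c', hgen', h0', hend', hstep', hfel'⟩ := h'
  set T : Finset (Q × Q') := (S.image fun s => (s, (1 : Q'))) ∪ (S'.image fun s => ((1 : Q), s))
    with hT
  have hl : ∀ s ∈ S, MonoidHom.inl Q Q' s ∈ T := by
    intro s hs
    rw [hT, Finset.mem_union]; left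
    exact Finset.mem_image_of_mem _ hs
  have hr : ∀ s ∈ S', MonoidHom.inr Q Q' s ∈ T := by
    intro s hs
    rw [hT, Finset.mem_union]; right
    exact Finset.mem_image_of_mem _ hs
  have hball : ∀ (m m' : ℕ) (x : Q) (x' : Q'), InBall S m x → InBall S' m' x' →
      InBall T (m + m') (x, x') := by
    intro m m' x x' hx hx'
    have h1 := (hx.map (MonoidHom.inl Q Q') hl).mul (hx'.map (MonoidHom.inr Q Q') hr)
    simpa using h1
  have hfst : ∀ (n : ℕ) (x : Q × Q'), InBall T n x → InBall S n x.1 ∧ InBall S' n x.2 := by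
    rintro n x ⟨l, h1, h2, rfl⟩
    clear h0 h0'
    suffices h : InBall S l.length l.prod.1 ∧ InBall S' l.length l.prod.2 from
      ⟨h.1.mono h1, h.2.mono h1⟩
    clear h1
    induction l with
    | nil => exact ⟨InBall.one, InBall.one⟩
    | cons a l ih =>
      obtain ⟨i1, i2⟩ := ih fun s hs => h2 s (by simp [hs])
      rw [List.prod_cons, List.length_cons, add_comm]
      have ha : InBall S 1 a.1 ∧ InBall S' 1 a.2 := by
        rcases h2 a (by simp) with h | h
        · rw [hT, Finset.mem_union, Finset.mem_image, Finset.mem_image] at h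
          rcases h with ⟨s, hs, e⟩ | ⟨s, hs, e⟩
          · rw [← e]; exact ⟨InBall.of_mem hs, InBall.one.mono (by omega)⟩
          · rw [← e]; exact ⟨InBall.one.mono (by omega), InBall.of_mem hs⟩
        · rw [hT, Finset.mem_union, Finset.mem_image, Finset.mem_image] at h
          rcases h with ⟨s, hs, e⟩ | ⟨s, hs, e⟩
          · have e2 : a = (s, (1 : Q'))⁻¹ := by rw [e, inv_inv]
            rw [e2]
            exact ⟨(InBall.of_mem hs).inv, by simpa using (InBall.one (S := S')).mono (by omega)⟩
          · have e2 : a = ((1 : Q), s)⁻¹ := by rw [e, inv_inv]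
            rw [e2]
            exact ⟨by simpa using (InBall.one (S := S)).mono (by omega), (InBall.of_mem hs).inv⟩
      exact ⟨ha.1.mul i1, ha.2.mul i2⟩
  refine ⟨T, C + C', fun q t => (c q.1 t, c' q.2 t), ?_, ?_, ?_, ?_, ?_⟩
  · rw [eq_top_iff]
    rintro ⟨x, x'⟩ _
    obtain ⟨n, hn⟩ := exists_inBall hgen x
    obtain ⟨n', hn'⟩ := exists_inBall hgen' x'
    obtain ⟨l, _, h2, h3⟩ := hball n n' x x' hn hn'
    rw [← h3]
    apply Subgroup.list_prod_mem
    intro s hs
    rcases h2 s hs with h | h
    · exact Subgroup.subset_closure h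
    · have := inv_mem (Subgroup.subset_closure (k := (T : Set (Q × Q'))) h)
      rwa [inv_inv] at this
  · intro q; simp [h0, h0']
  · intro q n t hq ht
    obtain ⟨i1, i2⟩ := hfst n q hq
    have t1 : C * (n + 1) ≤ t := (Nat.mul_le_mul_right _ (by omega)).trans ht
    have t2 : C' * (n + 1) ≤ t := (Nat.mul_le_mul_right _ (by omega)).trans ht
    simp only
    rw [hend _ n t i1 t1, hend' _ n t i2 t2]
  · intro q t
    exact hball _ _ _ _ (hstep q.1 t) (hstep' q.2 t)
  · intro q s hs t
    rw [hT, Finset.mem_union, Finset.mem_image, Finset.mem_image] at hs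
    rcases hs with ⟨s, hs, rfl⟩ | ⟨s, hs, rfl⟩
    · have h1 := hball _ _ _ _ (hfel q.1 s hs t) ((InBall.one (S := S')).mono (Nat.zero_le C'))
      simpa using h1
    · have h1 := hball _ _ _ _ ((InBall.one (S := S)).mono (Nat.zero_le C)) (hfel' q.2 s hs t)
      simpa using h1

theorem Combable.of_finite (Q : Type*) [Group Q] [Finite Q] : Combable Q := by
  classical
  have := Fintype.ofFinite Q
  refine ⟨Finset.univ, 1, fun q t => if t = 0 then 1 else q, ?_, ?_, ?_, ?_, ?_⟩
  · simp
  · intro q; simp
  · intro q n t _ ht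
    have : t ≠ 0 := by omega
    simp [this]
  · intro q t
    exact InBall.of_mem (Finset.mem_univ _)
  · intro q s _ t
    exact InBall.of_mem (Finset.mem_univ _)

section Int

variable {ι : Type} [Fintype ι]

/-- The clamp of `n` to `[-t, t]`. -/
def clamp (n : ℤ) (t : ℕ) : ℤ := max (-t) (min t n)

theorem inBall_single [DecidableEq ι] (i : ι) (n : ℤ) :
    InBall (Finset.univ.image fun i : ι => Pi.mulSingle (M := fun _ => Multiplicative ℤ) i
      (Multiplicative.ofAdd (1 : ℤ))) n.natAbs
      (Pi.mulSingle (M := fun _ => Multiplicative ℤ) i (Multiplicative.ofAdd n)) := by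
  set e : ι → Multiplicative ℤ := Pi.mulSingle i (Multiplicative.ofAdd (1 : ℤ)) with he
  have h1 : ∀ k : ℕ, InBall (Finset.univ.image fun i : ι =>
      Pi.mulSingle (M := fun _ => Multiplicative ℤ) i (Multiplicative.ofAdd (1 : ℤ))) k
      (e ^ k) := by
    intro k
    refine ⟨List.replicate k e, by simp, ?_, by simp⟩
    intro s hs
    left
    rw [List.eq_of_mem_replicate hs]
    exact Finset.mem_image_of_mem _ (Finset.mem_univ _)
  have h2 : Pi.mulSingle (M := fun _ => Multiplicative ℤ) i (Multiplicative.ofAdd n) = e ^ n := by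
    rw [he, ← Pi.mulSingle_zpow, ← ofAdd_zsmul]
    simp
  rw [h2]
  rcases Int.natAbs_eq n with hn | hn
  · have := h1 n.natAbs
    rw [← zpow_natCast, ← hn] at this
    exact this
  · have := (h1 n.natAbs).inv
    rw [← zpow_natCast, ← zpow_neg, ← hn] at this
    exact this

theorem combable_int : Combable (ι → Multiplicative ℤ) := by
  classical
  set T : Finset (ι → Multiplicative ℤ) := Finset.univ.image fun i : ι =>
      Pi.mulSingle (M := fun _ => Multiplicative ℤ) i (Multiplicative.ofAdd (1 : ℤ)) with hT
  have hball : ∀ (m : ℕ) (f : ι → Multiplicative ℤ),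
      (∀ i, (Multiplicative.toAdd (f i)).natAbs ≤ m) → InBall T (Fintype.card ι * m) f := by
    intro m f hf
    have h1 : ∀ s : Finset ι, InBall T (s.card * m)
        (∏ i ∈ s, Pi.mulSingle (M := fun _ => Multiplicative ℤ) i (f i)) := by
      intro s
      induction s using Finset.induction_on with
      | empty => simpa using (InBall.one (S := T))
      | insert a s ha ih =>
        rw [Finset.prod_insert ha, Finset.card_insert_of_notMem ha, add_mul, one_mul, add_comm]
        exact ((inBall_single a (Multiplicative.toAdd (f a))).mono (hf a)).mul ih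
    have h2 := h1 Finset.univ
    rw [Finset.univ_prod_mulSingle] at h2
    exact h2
  have hcoord : ∀ (n : ℕ) (f : ι → Multiplicative ℤ), InBall T n f →
      ∀ i, (Multiplicative.toAdd (f i)).natAbs ≤ n := by
    rintro n f ⟨l, h1, h2, rfl⟩ i
    suffices h : (Multiplicative.toAdd (l.prod i)).natAbs ≤ l.length from h.trans h1
    clear h1
    induction l with
    | nil => simp
    | cons a l ih =>
      have i1 := ih fun s hs => h2 s (by simp [hs])
      have ha : (Multiplicative.toAdd (a i)).natAbs ≤ 1 := by
        have key : ∀ b : ι → Multiplicative ℤ, b ∈ T → (Multiplicative.toAdd (b i)).natAbs ≤ 1 := by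
          intro b hb
          rw [hT, Finset.mem_image] at hb
          obtain ⟨j, _, rfl⟩ := hb
          by_cases hij : i = j
          · subst hij; simp
          · rw [Pi.mulSingle_eq_of_ne hij]; simp
        rcases h2 a (by simp) with h | h
        · exact key a h
        · have := key a⁻¹ h
          simpa using this
      rw [List.prod_cons, List.length_cons, Pi.mul_apply, toAdd_mul]
      have := Int.natAbs_add_le (Multiplicative.toAdd (a i)) (Multiplicative.toAdd (l.prod i))
      omega
  refine ⟨T, Fintype.card ι + 1, fun f t i => Multiplicative.ofAdd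
    (clamp (Multiplicative.toAdd (f i)) t), ?_, ?_, ?_, ?_, ?_⟩
  · rw [eq_top_iff]
    intro f _
    obtain ⟨m, hm⟩ : ∃ m, ∀ i, (Multiplicative.toAdd (f i)).natAbs ≤ m := by
      refine ⟨∑ i, (Multiplicative.toAdd (f i)).natAbs, fun i => ?_⟩
      exact Finset.single_le_sum (f := fun i => (Multiplicative.toAdd (f i)).natAbs)
        (fun _ _ => Nat.zero_le _) (Finset.mem_univ i)
    obtain ⟨l, _, h2, h3⟩ := hball m f hm
    rw [← h3]
    apply Subgroup.list_prod_mem
    intro s hs
    rcases h2 s hs with h | h
    · exact Subgroup.subset_closure h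
    · have := inv_mem (Subgroup.subset_closure (k := (T : Set (ι → Multiplicative ℤ))) h)
      rwa [inv_inv] at this
  · intro f
    funext i
    simp [clamp]
  · intro f n t hf ht
    funext i
    have h1 := hcoord n f hf i
    have h2 : n ≤ t := by
      have : 1 * (n + 1) ≤ (Fintype.card ι + 1) * (n + 1) := Nat.mul_le_mul_right _ (by omega)
      omega
    have h3 : clamp (Multiplicative.toAdd (f i)) t = Multiplicative.toAdd (f i) := by
      unfold clamp; omega
    simp only [h3, ofAdd_toAdd]
  · intro f t
    apply InBall.mono (hball 1 _ _) (by omega)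
    intro i
    simp only [Pi.mul_apply, Pi.inv_apply, toAdd_mul, toAdd_inv, toAdd_ofAdd]
    unfold clamp
    push_cast
    omega
  · intro f s hs t
    apply InBall.mono (hball 1 _ _) (by omega)
    intro i
    have h1 := hcoord 1 s (InBall.of_mem hs) i
    simp only [Pi.mul_apply, Pi.inv_apply, toAdd_mul, toAdd_inv, toAdd_ofAdd]
    unfold clamp
    omega

end Int

theorem combable_of_comm (Q : Type*) [CommGroup Q] [Group.FG Q] : Combable Q := by
  obtain ⟨ι, j, _, _, p, hp, e, ⟨φ⟩⟩ := CommGroup.equiv_free_prod_prod_multiplicative_zmod Q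
  apply Combable.of_mulEquiv φ.symm
  apply Combable.prod combable_int
  have : ∀ i, NeZero (p i ^ e i) := fun i => ⟨pow_ne_zero _ (hp i).ne_zero⟩
  have h2 : ∀ i, Finite (Multiplicative (ZMod (p i ^ e i))) := fun i => inferInstance
  exact Combable.of_finite _

end Pda3a14
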