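import Mathlib

/-!
# Areas of words and the bi-invariant area metric
-/

namespace Pda3a14

variable {α : Type*}

/-- `AreaLE R m w`: the element `w` of the free group is a product of at most `m` conjugates of
elements of `R` and of their inverses. -/
def AreaLE (R : Set (FreeGroup α)) (m : ℕ) (w : FreeGroup α) : Prop :=
  ∃ l : List (FreeGroup α × FreeGroup α), l.length ≤ m ∧ (∀ p ∈ l, p.2 ∈ R ∨ p.2⁻¹ ∈ R) ∧
    w = (l.map fun p => p.1 * p.2 * p.1⁻¹).prod

variable {R : Set (FreeGroup α)} {m n k : ℕ} {u v w x y u' v' : FreeGroup α}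

theorem AreaLE.mono (h : AreaLE R m w) (hmn : m ≤ n) : AreaLE R n w := by
  obtain ⟨l, h1, h2, h3⟩ := h
  exact ⟨l, h1.trans hmn, h2, h3⟩

theorem AreaLE.one : AreaLE R 0 (1 : FreeGroup α) := ⟨[], by simp, by simp, by simp⟩

theorem AreaLE.mul (hu : AreaLE R m u) (hv : AreaLE R n v) : AreaLE R (m + n) (u * v) := by
  obtain ⟨l, h1, h2, h3⟩ := hu
  obtain ⟨l', h1', h2', h3'⟩ := hv
  refine ⟨l ++ l', by simp; omega, ?_, ?_⟩
  · intro p hp
    rcases List.mem_append.1 hp with h | h
    · exact h2 p h
    · exact h2' p h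
  · rw [List.map_append, List.prod_append, ← h3, ← h3']

theorem AreaLE.inv (hu : AreaLE R m u) : AreaLE R m u⁻¹ := by
  obtain ⟨l, h1, h2, h3⟩ := hu
  refine ⟨(l.map fun p => (p.1, p.2⁻¹)).reverse, by simpa using h1, ?_, ?_⟩
  · intro p hp
    rw [List.mem_reverse, List.mem_map] at hp
    obtain ⟨p', hp', rfl⟩ := hp
    rcases h2 p' hp' with h | h
    · right; simpa using h
    · left; simpa using h
  · rw [h3]
    clear h1 h2 h3
    induction l with
    | nil => simp
    | cons a l ih =>
      simp only [List.map_cons, List.prod_cons, mul_inv_rev, List.reverse_cons, List.map_append,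
        List.prod_append, List.map_nil, List.prod_nil, inv_inv, mul_one]
      rw [ih]
      simp only [mul_assoc]

theorem AreaLE.conj (hu : AreaLE R m u) (x : FreeGroup α) : AreaLE R m (x * u * x⁻¹) := by
  obtain ⟨l, h1, h2, h3⟩ := hu
  refine ⟨l.map fun p => (x * p.1, p.2), by simpa using h1, ?_, ?_⟩
  · intro p hp
    rw [List.mem_map] at hp
    obtain ⟨p', hp', rfl⟩ := hp
    exact h2 p' hp'
  · rw [h3]
    clear h1 h2 h3
    induction l with
    | nil => simp
    | cons a l ih =>
      simp only [List.map_cons, List.prod_cons]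
      rw [← ih]
      group

theorem AreaLE.of_mem (h : w ∈ R) : AreaLE R 1 w :=
  ⟨[(1, w)], by simp, by simp [h], by simp⟩

theorem AreaLE.list_prod {l : List (FreeGroup α)} (h : ∀ w ∈ l, AreaLE R m w) :
    AreaLE R (l.length * m) l.prod := by
  induction l with
  | nil => simpa using (AreaLE.one (R := R))
  | cons a l ih =>
    rw [List.prod_cons, List.length_cons, add_mul, one_mul, add_comm]
    exact (h a (by simp)).mul (ih fun w hw => h w (by simp [hw]))

/-- A homomorphism which maps the relators to words of area at most `K` multiplies areas by at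
most `K`. -/
theorem AreaLE.map {β : Type*} {R' : Set (FreeGroup β)} {K : ℕ} (f : FreeGroup α →* FreeGroup β)
    (hf : ∀ r ∈ R, AreaLE R' K (f r)) (hu : AreaLE R m u) : AreaLE R' (m * K) (f u) := by
  obtain ⟨l, h1, h2, h3⟩ := hu
  have h : AreaLE R' ((l.map fun p => f (p.1 * p.2 * p.1⁻¹)).length * K)
      (l.map fun p => f (p.1 * p.2 * p.1⁻¹)).prod := by
    apply AreaLE.list_prod
    intro w hw
    rw [List.mem_map] at hw
    obtain ⟨p, hp, rfl⟩ := hw
    rw [map_mul, map_mul, map_inv]
    apply AreaLE.conj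
    rcases h2 p hp with h | h
    · exact hf _ h
    · have := (hf _ h).inv
      rwa [map_inv, inv_inv] at this
  have e : f u = (l.map fun p => f (p.1 * p.2 * p.1⁻¹)).prod := by
    rw [h3, map_list_prod, List.map_map]
    rfl
  rw [e]
  refine h.mono ?_
  rw [List.length_map]
  exact Nat.mul_le_mul_right _ h1

theorem exists_areaLE (h : w ∈ Subgroup.normalClosure R) : ∃ m, AreaLE R m w := by
  induction h using Subgroup.closure_induction with
  | mem x hx =>
    rw [Group.mem_conjugatesOfSet_iff] at hx
    obtain ⟨a, ha, hax⟩ := hx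
    rw [isConj_iff] at hax
    obtain ⟨c, rfl⟩ := hax
    exact ⟨1, (AreaLE.of_mem ha).conj c⟩
  | one => exact ⟨0, AreaLE.one⟩
  | mul x y _ _ hx hy =>
    obtain ⟨m, hm⟩ := hx
    obtain ⟨n, hn⟩ := hy
    exact ⟨m + n, hm.mul hn⟩
  | inv x _ hx =>
    obtain ⟨m, hm⟩ := hx
    exact ⟨m, hm.inv⟩

/-- The area distance of two words. -/
def Near (R : Set (FreeGroup α)) (m : ℕ) (u v : FreeGroup α) : Prop := AreaLE R m (u * v⁻¹)

theorem Near.mono (h : Near R m u v) (hmn : m ≤ n) : Near R n u v := AreaLE.mono h hmn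

theorem Near.refl (u : FreeGroup α) : Near R 0 u u := by
  unfold Near; rw [mul_inv_cancel]; exact AreaLE.one

theorem Near.of_eq (h : u = v) : Near R 0 u v := h ▸ Near.refl u

theorem Near.symm (h : Near R m u v) : Near R m v u := by
  unfold Near at *
  have := h.inv
  rwa [mul_inv_rev, inv_inv] at this

theorem Near.trans (h : Near R m u v) (h' : Near R n v w) : Near R (m + n) u w := by
  unfold Near at *
  have := AreaLE.mul h h'
  have e : u * v⁻¹ * (v * w⁻¹) = u * w⁻¹ := by group
  rwa [e] at this

theorem Near.mul (h : Near R m u v) (h' : Near R n u' v') : Near R (m + n) (u * u') (v * v') := by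
  unfold Near at *
  have := AreaLE.mul (h'.conj u) h
  have e : u * (u' * v'⁻¹) * u⁻¹ * (u * v⁻¹) = u * u' * (v * v')⁻¹ := by group
  rw [e] at this
  rwa [add_comm] at this

theorem Near.mul_left (x : FreeGroup α) (h : Near R m u v) : Near R m (x * u) (x * v) := by
  have := (Near.refl (R := R) x).mul h
  rwa [zero_add] at this

theorem Near.mul_right (h : Near R m u v) (x : FreeGroup α) : Near R m (u * x) (v * x) := by
  have := h.mul (Near.refl (R := R) x)
  rwa [add_zero] at this

theorem Near.inv (h : Near R m u v) : Near R m u⁻¹ v⁻¹ := by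
  have h1 := (h.mul_left u⁻¹).mul_right v⁻¹
  have e1 : u⁻¹ * u * v⁻¹ = v⁻¹ := by group
  have e2 : u⁻¹ * v * v⁻¹ = u⁻¹ := by group
  rw [e1, e2] at h1
  exact h1.symm

theorem Near.conj (h : Near R m u v) (x : FreeGroup α) :
    Near R m (x * u * x⁻¹) (x * v * x⁻¹) := (h.mul_left x).mul_right x⁻¹

theorem Near.map {K : ℕ} (f : FreeGroup α →* FreeGroup α)
    (hf : ∀ r ∈ R, AreaLE R K (f r)) (h : Near R m u v) : Near R (m * K) (f u) (f v) := by
  unfold Near at *
  have := AreaLE.map f hf h
  rwa [map_mul, map_inv] at this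

theorem Near.area_left (h : Near R m u v) (hv : AreaLE R n v) : AreaLE R (m + n) u := by
  have := AreaLE.mul h hv
  rwa [inv_mul_cancel_right] at this

/-- Two homomorphisms which are close on the letters are close on all words. -/
theorem near_hom [DecidableEq α] {E : ℕ} (f g : FreeGroup α →* FreeGroup α)
    (h : ∀ a, Near R E (f (FreeGroup.of a)) (g (FreeGroup.of a))) (v : FreeGroup α) :
    Near R (v.toWord.length * E) (f v) (g v) := by
  have key : ∀ L : List (α × Bool), Near R (L.length * E) (f (FreeGroup.mk L))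
      (g (FreeGroup.mk L)) := by
    intro L
    induction L with
    | nil =>
      have : (FreeGroup.mk [] : FreeGroup α) = 1 := rfl
      rw [this, map_one, map_one]
      simpa using (Near.refl (R := R) (1 : FreeGroup α))
    | cons a L ih =>
      have e : (FreeGroup.mk (a :: L) : FreeGroup α) = FreeGroup.mk [a] * FreeGroup.mk L := by
        rw [FreeGroup.mul_mk]; rfl
      rw [e, map_mul, map_mul, List.length_cons, add_mul, one_mul, add_comm]
      apply Near.mul _ ih
      obtain ⟨a, b⟩ := a
      cases b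
      · have e2 : (FreeGroup.mk [(a, false)] : FreeGroup α) = (FreeGroup.of a)⁻¹ := by
          simp [FreeGroup.of, FreeGroup.inv_mk, FreeGroup.invRev]
        rw [e2, map_inv, map_inv]
        exact (h a).inv
      · exact h a
  have := key v.toWord
  rwa [FreeGroup.mk_toWord] at this

end Pda3a14
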