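import Pool.Agent.Lib.Pda3a14.Defs

/-!
# Balls and normalised combings
-/

namespace Pda3a14

variable {Q : Type*} [Group Q] {S : Finset Q} {m n : ℕ} {g h : Q}

theorem InBall.mono (hg : InBall S m g) (h : m ≤ n) : InBall S n g := by
  obtain ⟨l, h1, h2, h3⟩ := hg
  exact ⟨l, h1.trans h, h2, h3⟩

theorem InBall.one : InBall S 0 (1 : Q) := ⟨[], by simp, by simp, by simp⟩

theorem InBall.mul (hg : InBall S m g) (hh : InBall S n h) : InBall S (m + n) (g * h) := by
  obtain ⟨l, h1, h2, h3⟩ := hg
  obtain ⟨l', h1', h2', h3'⟩ := hh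
  refine ⟨l ++ l', by simp; omega, ?_, by rw [List.prod_append, h3, h3']⟩
  intro s hs
  rcases List.mem_append.1 hs with h | h
  · exact h2 s h
  · exact h2' s h

theorem InBall.inv (hg : InBall S m g) : InBall S m g⁻¹ := by
  obtain ⟨l, h1, h2, h3⟩ := hg
  refine ⟨(l.map fun s => s⁻¹).reverse, by simpa using h1, ?_, ?_⟩
  · intro s hs
    rw [List.mem_reverse, List.mem_map] at hs
    obtain ⟨s', hs', rfl⟩ := hs
    rcases h2 s' hs' with h | h
    · right; simpa using h
    · left; exact h
  · rw [← h3, List.prod_inv_reverse]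

theorem InBall.of_mem (h : g ∈ S) : InBall S 1 g := ⟨[g], by simp, by simp [h], by simp⟩

theorem InBall.list {l : List Q} (h : ∀ s ∈ l, InBall S m s) : InBall S (l.length * m) l.prod := by
  induction l with
  | nil => simpa using (InBall.one (S := S))
  | cons a l ih =>
    rw [List.prod_cons, List.length_cons, add_mul, one_mul, add_comm]
    exact (h a (by simp)).mul (ih fun s hs => h s (by simp [hs]))

theorem exists_inBall (hS : Subgroup.closure (S : Set Q) = ⊤) (g : Q) : ∃ n, InBall S n g := by
  have hg : g ∈ Subgroup.closure (S : Set Q) := by rw [hS]; trivial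
  induction hg using Subgroup.closure_induction with
  | mem x hx => exact ⟨1, InBall.of_mem hx⟩
  | one => exact ⟨0, InBall.one⟩
  | mul x y _ _ hx hy =>
    obtain ⟨m, hm⟩ := hx
    obtain ⟨n, hn⟩ := hy
    exact ⟨m + n, hm.mul hn⟩
  | inv x _ hx =>
    obtain ⟨m, hm⟩ := hx
    exact ⟨m, hm.inv⟩

theorem exists_inBall_finite (hS : Subgroup.closure (S : Set Q) = ⊤) (F : Set Q)
    (hF : F.Finite) : ∃ n, ∀ g ∈ F, InBall S n g := by
  choose n hn using exists_inBall hS
  obtain ⟨M, hM⟩ := (hF.image n).bddAbove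
  exact ⟨M, fun g hg => (hn g).mono (hM ⟨g, hg, rfl⟩)⟩

theorem finite_ball (S : Finset Q) (n : ℕ) : {g | InBall S n g}.Finite := by
  classical
  induction n with
  | zero =>
    apply (Set.finite_singleton (1 : Q)).subset
    rintro g ⟨l, h1, _, h3⟩
    have : l = [] := List.eq_nil_of_length_eq_zero (by omega)
    subst this
    simpa using h3.symm
  | succ n ih =>
    have hf : ((fun p : Q × Q => p.1 * p.2) '' (((S : Set Q) ∪ (S : Set Q)⁻¹) ×ˢ
        {g | InBall S n g})).Finite :=
      ((S.finite_toSet.union S.finite_toSet.inv).prod ih).image _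
    apply (ih.union hf).subset
    rintro g ⟨l, h1, h2, h3⟩
    cases l with
    | nil => left; exact ⟨[], by simp, by simp, h3⟩
    | cons a l =>
      right
      refine ⟨(a, l.prod), ⟨?_, ⟨l, by simpa using h1, fun s hs => h2 s (by simp [hs]), rfl⟩⟩, ?_⟩
      · rcases h2 a (by simp) with h | h
        · left; exact h
        · right; simpa using h
      · simpa using h3

/-- A normalised combing. -/
structure NCombing (Q : Type*) [Group Q] where
  c : Q → ℕ → Q
  zero : ∀ q, c q 0 = 1
  one : ∀ t, c 1 t = 1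
  S : Set Q
  fin : S.Finite
  step : ∀ q t, (c q t)⁻¹ * c q (t + 1) ∈ S
  fel : ∀ F : Set Q, F.Finite → ∃ C : Set Q, C.Finite ∧
      ∀ q, ∀ b ∈ F, ∀ t, (c q t)⁻¹ * c (q * b) t ∈ C
  len : ∀ F : Set Q, F.Finite → ∃ C : ℕ, ∀ l : List Q, (∀ s ∈ l, s ∈ F) → ∀ t,
    C * (l.length + 1) ≤ t → c l.prod t = l.prod

theorem Combable.exists_normalised (h : Combable Q) : Nonempty (NCombing Q) := by
  classical
  obtain ⟨S, C, c, hgen, h0, hend, hstep, hfel⟩ := h
  -- fellow travelling for all elements of a ball
  have hfel' : ∀ q s, (s ∈ S ∨ s⁻¹ ∈ S) → ∀ t, InBall S C ((c q t)⁻¹ * c (q * s) t) := by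
    intro q s hs t
    rcases hs with hs | hs
    · exact hfel q s hs t
    · have := (hfel (q * s) s⁻¹ hs t).inv
      rw [mul_inv_cancel_right, mul_inv_rev, inv_inv] at this
      exact this
  have hfel2 : ∀ (l : List Q) q, (∀ s ∈ l, s ∈ S ∨ s⁻¹ ∈ S) → ∀ t,
      InBall S (l.length * C) ((c q t)⁻¹ * c (q * l.prod) t) := by
    intro l
    induction l with
    | nil =>
      intro q _ t
      rw [List.prod_nil, mul_one, inv_mul_cancel]
      exact InBall.one.mono (Nat.zero_le _)
    | cons a l ih =>
      intro q hl t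
      have h1 := hfel' q a (hl a (by simp)) t
      have h2 := ih (q * a) (fun s hs => hl s (by simp [hs])) t
      have h3 := h1.mul h2
      rw [List.prod_cons, List.length_cons]
      have e : (c q t)⁻¹ * c (q * a) t * ((c (q * a) t)⁻¹ * c (q * a * l.prod) t) =
          (c q t)⁻¹ * c (q * (a * l.prod)) t := by
        rw [← mul_assoc q a l.prod]; group
      rw [e] at h3
      exact h3.mono (by ring_nf; omega)
  have hfel3 : ∀ n q b, InBall S n b → ∀ t, InBall S (n * C) ((c q t)⁻¹ * c (q * b) t) := by
    rintro n q b ⟨l, h1, h2, rfl⟩ t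
    exact (hfel2 l q h2 t).mono (Nat.mul_le_mul_right _ h1)
  have hvals : ∀ F : Set Q, F.Finite → {x | ∃ b ∈ F, ∃ t, x = c b t}.Finite := by
    intro F hF
    obtain ⟨n, hn⟩ := exists_inBall_finite hgen F hF
    apply ((hF.prod (Set.finite_Iio (C * (n + 1)))).image (fun p => c p.1 p.2)).union hF |>.subset
    rintro x ⟨b, hb, t, rfl⟩
    by_cases ht : t < C * (n + 1)
    · left; exact ⟨(b, t), ⟨hb, ht⟩, rfl⟩
    · right
      rw [hend b n t (hn b hb) (not_lt.1 ht)]
      exact hb
  refine ⟨⟨fun q t => if q = 1 then 1 else c q t, ?_, ?_, {g | InBall S C g}, finite_ball S C,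
    ?_, ?_, ?_⟩⟩
  · intro q
    by_cases hq : q = 1
    · simp [hq]
    · simp [hq, h0]
  · intro t; simp
  · intro q t
    by_cases hq : q = 1
    · simp only [hq, if_true, inv_one, one_mul]
      exact InBall.one.mono (Nat.zero_le _)
    · simp only [hq, if_false]
      exact hstep q t
  · intro F hF
    obtain ⟨n, hn⟩ := exists_inBall_finite hgen F hF
    refine ⟨{g | InBall S (n * C) g} ∪ {x | ∃ b ∈ F, ∃ t, x = c b t} ∪
      {x | ∃ b ∈ F⁻¹, ∃ t, x = c b t}⁻¹, ?_, ?_⟩
    · exact ((finite_ball S _).union (hvals F hF)).union ((hvals F⁻¹ hF.inv).inv)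
    · intro q b hb t
      by_cases hq : q = 1
      · by_cases hqb : q * b = 1
        · simp only [hq, hqb, if_true]
          left; left
          rw [hq] at hqb
          simp only [hqb, if_true, inv_one, mul_one]
          exact InBall.one.mono (Nat.zero_le _)
        · left; right
          refine ⟨b, hb, t, ?_⟩
          rw [hq, one_mul] at hqb
          simp [hq, hqb]
      · by_cases hqb : q * b = 1
        · right
          rw [Set.mem_inv]
          refine ⟨q, ?_, t, ?_⟩
          · rw [Set.mem_inv]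
            have : q⁻¹ = b := by rw [inv_eq_iff_mul_eq_one]; exact hqb
            rw [this]; exact hb
          · simp [hq, hqb]
        · left; left
          simp only [hq, hqb, if_false]
          exact hfel3 n q b (hn b hb) t
  · intro F hF
    obtain ⟨n, hn⟩ := exists_inBall_finite hgen F hF
    refine ⟨C * (n + 1), ?_⟩
    intro l hl t ht
    by_cases hq : l.prod = 1
    · simp [hq]
    · simp only [hq, if_false]
      have h1 : InBall S (l.length * n) l.prod := InBall.list fun s hs => hn s (hl s hs)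
      apply hend _ _ _ h1
      refine le_trans ?_ ht
      calc C * (l.length * n + 1) ≤ C * ((n + 1) * (l.length + 1)) := by
            apply Nat.mul_le_mul_left
            nlinarith
        _ = C * (n + 1) * (l.length + 1) := by ring

end Pda3a14
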