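import Pool.Agent.Lib.Pda3a14.Ball

/-!
# CAT(0) groups are combable
-/

namespace Pda3a14

section Geometry

variable {X : Type*} [MetricSpace X]

theorem IsCATZero.two_geodesics (hX : IsCATZero X) {p y z : X} {γ γ' : ℝ → X}
    (h : IsGeodesic γ p y) (h' : IsGeodesic γ' p z) {t : ℝ} (ht : t ∈ Set.Icc (0 : ℝ) 1) :
    dist (γ t) (γ' t) ≤ t * dist y z := by
  have h1 := hX.comparison z p y γ h t ht
  have h2 := hX.comparison (γ t) p z γ' h' t ht
  have h3 : dist (γ t) p = t * dist p y := by
    rw [← h.1, h.2.2 t ht 0 (by simp), sub_zero, abs_of_nonneg ht.1, h.1]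
  rw [h3] at h2
  rw [dist_comm z (γ t)] at h1
  rw [dist_comm z p, dist_comm z y] at h1
  have h4 : dist (γ t) (γ' t) ^ 2 ≤ (t * dist y z) ^ 2 := by
    have h5 : t * dist (γ t) z ^ 2 ≤ t * ((1 - t) * dist p z ^ 2 + t * dist y z ^ 2 -
        t * (1 - t) * dist p y ^ 2) := mul_le_mul_of_nonneg_left h1 ht.1
    nlinarith
  exact le_of_sq_le_sq h4 (mul_nonneg ht.1 dist_nonneg)

theorem min_div_bound {a b t D : ℝ} (ha : 0 ≤ a) (hb : 0 ≤ b) (ht : 0 ≤ t)
    (hD : |a - b| ≤ D) : b * |min (t / a) 1 - min (t / b) 1| ≤ D := by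
  have hD0 : 0 ≤ D := (abs_nonneg _).trans hD
  have h1 := (abs_le.1 hD).1
  have h2 := (abs_le.1 hD).2
  rcases hb.eq_or_lt with hb0 | hb0
  · rw [← hb0, zero_mul]; exact hD0
  rcases ha.eq_or_lt with ha0 | ha0
  · rw [← ha0, div_zero, min_eq_left zero_le_one, zero_sub, abs_neg,
      abs_of_nonneg (le_min (div_nonneg ht hb) zero_le_one)]
    calc b * min (t / b) 1 ≤ b * 1 := mul_le_mul_of_nonneg_left (min_le_right _ _) hb
      _ ≤ D := by rw [mul_one]; linarith
  rw [← abs_of_pos hb0, ← abs_mul, abs_of_pos hb0, abs_le]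
  rcases le_total t a with hta | hta
  · rw [min_eq_left ((div_le_one ha0).2 hta)]
    rcases le_total t b with htb | htb
    · rw [min_eq_left ((div_le_one hb0).2 htb)]
      have e : b * (t / a - t / b) = t / a * (b - a) := by field_simp
      rw [e]
      have h3 : 0 ≤ t / a := div_nonneg ht ha
      have h4 : t / a ≤ 1 := (div_le_one ha0).2 hta
      constructor
      · nlinarith
      · nlinarith
    · rw [min_eq_right ((one_le_div hb0).2 htb)]
      have e : b * (t / a - 1) = - (b / a * (a - t)) := by field_simp; ring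
      rw [e]
      have h3 : 0 ≤ b / a := div_nonneg hb ha
      have h4 : b / a ≤ 1 := (div_le_one ha0).2 (htb.trans hta)
      constructor
      · nlinarith
      · nlinarith
  · rw [min_eq_right ((one_le_div ha0).2 hta)]
    rcases le_total t b with htb | htb
    · rw [min_eq_left ((div_le_one hb0).2 htb)]
      have e : b * (1 - t / b) = b - t := by field_simp
      rw [e]
      constructor <;> linarith
    · rw [min_eq_right ((one_le_div hb0).2 htb), sub_self, mul_zero]
      constructor <;> linarith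

/-- The point at arclength `t` of a geodesic of length `a`. -/
noncomputable def pt (γ : ℝ → X) (a t : ℝ) : X := γ (min (t / a) 1)

theorem min_mem {a t : ℝ} (ha : 0 ≤ a) (ht : 0 ≤ t) : min (t / a) 1 ∈ Set.Icc (0 : ℝ) 1 :=
  ⟨le_min (div_nonneg ht ha) zero_le_one, min_le_right _ _⟩

theorem IsCATZero.fellow (hX : IsCATZero X) {p y z : X} {γ γ' : ℝ → X}
    (h : IsGeodesic γ p y) (h' : IsGeodesic γ' p z) {t : ℝ} (ht : 0 ≤ t) :
    dist (pt γ (dist p y) t) (pt γ' (dist p z) t) ≤ 2 * dist y z := by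
  have h1 := hX.two_geodesics h h' (min_mem (dist_nonneg (x := p) (y := y)) ht)
  have h2 := h'.2.2 _ (min_mem (dist_nonneg (x := p) (y := y)) ht) _
    (min_mem (dist_nonneg (x := p) (y := z)) ht)
  have h3 : |dist p y - dist p z| ≤ dist y z := by
    have := abs_dist_sub_le y z p
    rwa [dist_comm y p, dist_comm z p] at this
  have h4 := min_div_bound (dist_nonneg (x := p) (y := y)) (dist_nonneg (x := p) (y := z)) ht h3
  have h5 := dist_triangle (pt γ (dist p y) t) (γ' (min (t / dist p y) 1))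
    (pt γ' (dist p z) t)
  have h6 : dist (pt γ (dist p y) t) (γ' (min (t / dist p y) 1)) ≤ dist y z := by
    refine h1.trans ?_
    calc min (t / dist p y) 1 * dist y z ≤ 1 * dist y z :=
          mul_le_mul_of_nonneg_right (min_le_right _ _) dist_nonneg
      _ = dist y z := one_mul _
  have h7 : dist (γ' (min (t / dist p y) 1)) (pt γ' (dist p z) t) ≤ dist y z := by
    unfold pt
    rw [h2, mul_comm]
    exact h4
  linarith

theorem IsGeodesic.pt_step {p y : X} {γ : ℝ → X} (h : IsGeodesic γ p y) {t : ℝ} (ht : 0 ≤ t) :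
    dist (pt γ (dist p y) t) (pt γ (dist p y) (t + 1)) ≤ 1 := by
  have ha : 0 ≤ dist p y := dist_nonneg
  unfold pt
  rw [h.2.2 _ (min_mem ha ht) _ (min_mem ha (by linarith))]
  rcases ha.eq_or_lt with h0 | h0
  · rw [← h0]; simp
  · have h1 : |min (t / dist p y) 1 - min ((t + 1) / dist p y) 1| ≤
        |t / dist p y - (t + 1) / dist p y| := by
      have := abs_min_sub_min_le_max (t / dist p y) 1 ((t + 1) / dist p y) 1
      rw [sub_self, abs_zero, max_eq_left (abs_nonneg _)] at this
      exact this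
    have h2 : |t / dist p y - (t + 1) / dist p y| = 1 / dist p y := by
      rw [← sub_div, show t - (t + 1) = -1 by ring, neg_div, abs_neg,
        abs_of_nonneg (div_nonneg zero_le_one ha)]
    rw [h2] at h1
    calc _ ≤ 1 / dist p y * dist p y := mul_le_mul_of_nonneg_right h1 ha
      _ = 1 := by field_simp

theorem IsGeodesic.pt_zero {p y : X} {γ : ℝ → X} (h : IsGeodesic γ p y) :
    pt γ (dist p y) 0 = p := by
  unfold pt
  rw [zero_div, min_eq_left zero_le_one, h.1]

theorem IsGeodesic.pt_end {p y : X} {γ : ℝ → X} (h : IsGeodesic γ p y) {t : ℝ}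
    (ht : dist p y ≤ t) : pt γ (dist p y) t = y := by
  have ha : 0 ≤ dist p y := dist_nonneg
  rcases ha.eq_or_lt with h0 | h0
  · unfold pt
    have e : p = y := dist_eq_zero.1 h0.symm
    rw [← h0, div_zero, min_eq_left zero_le_one, h.1, e]
  · unfold pt
    rw [min_eq_right ((one_le_div h0).2 ht), h.2.1]

end Geometry

theorem CATZeroGroup.combable {G : Type*} [Group G] (h : CATZeroGroup G) : Combable G := by
  classical
  obtain ⟨X, _, _, hX, hiso, hfin, K, hK, hcov⟩ := h
  obtain ⟨x0⟩ := hX.nonempty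
  obtain ⟨R0, hR0⟩ := hK.isBounded.subset_closedBall x0
  set R := max R0 0 with hR
  have hRnn : 0 ≤ R := le_max_right _ _
  have hdisp : ∀ g h : G, dist (g • x0) (h • x0) = dist x0 ((g⁻¹ * h) • x0) := by
    intro g h
    rw [← hiso g⁻¹ (g • x0) (h • x0), smul_smul, smul_smul, inv_mul_cancel, one_smul]
  have hnear : ∀ x : X, ∃ g : G, dist x (g • x0) ≤ R := by
    intro x
    obtain ⟨g, hg⟩ := hcov x
    refine ⟨g⁻¹, ?_⟩
    have h1 : dist (g • x) x0 ≤ R0 := hR0 hg
    rw [← hiso g x (g⁻¹ • x0), smul_smul, mul_inv_cancel, one_smul]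
    exact h1.trans (le_max_left _ _)
  choose γ hγ using fun g : G => hX.geodesic x0 (g • x0)
  choose nr hnr using hnear
  set c : G → ℕ → G := fun g t => if t = 0 then 1 else
    if dist x0 (g • x0) ≤ (t : ℝ) then g else nr (pt (γ g) (dist x0 (g • x0)) t) with hc
  have hcpt : ∀ g t, dist (pt (γ g) (dist x0 (g • x0)) (t : ℕ)) (c g t • x0) ≤ R := by
    intro g t
    simp only [hc]
    by_cases ht : t = 0
    · subst ht
      rw [if_pos rfl, Nat.cast_zero, (hγ g).pt_zero, one_smul, dist_self]
      exact hRnn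
    · rw [if_neg ht]
      by_cases ht2 : dist x0 (g • x0) ≤ (t : ℝ)
      · rw [if_pos ht2, (hγ g).pt_end ht2, dist_self]
        exact hRnn
      · rw [if_neg ht2]
        exact hnr _
  set S0 : Set G := {g : G | dist x0 (g • x0) ≤ 2 * R + 1} with hS0
  have hS0f : S0.Finite := hfin x0 _
  set S : Finset G := hS0f.toFinset with hS
  have hstep : ∀ g t, (c g t)⁻¹ * c g (t + 1) ∈ S := by
    intro g t
    rw [hS, Set.Finite.mem_toFinset, hS0, Set.mem_ofPred_eq, ← hdisp]
    have h1 := hcpt g t
    rw [dist_comm] at h1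
    have h2 := hcpt g (t + 1)
    have h3 := (hγ g).pt_step (t := (t : ℝ)) (Nat.cast_nonneg t)
    push_cast at h2
    have h4 := dist_triangle4 (c g t • x0) (pt (γ g) (dist x0 (g • x0)) t)
      (pt (γ g) (dist x0 (g • x0)) (t + 1)) (c g (t + 1) • x0)
    linarith
  have hend0 : ∀ g t, dist x0 (g • x0) ≤ (t : ℕ) → c g t = g ∨ (t = 0 ∧ c g t = 1) := by
    intro g t ht
    simp only [hc]
    by_cases ht0 : t = 0
    · right; exact ⟨ht0, by simp [ht0]⟩
    · left; rw [if_neg ht0, if_pos ht]
  have hend1 : ∀ g t, dist x0 (g • x0) ≤ (t : ℕ) → 1 ≤ t → c g t = g := by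
    intro g t ht h1
    rcases hend0 g t ht with h | ⟨h, _⟩
    · exact h
    · omega
  have hmem : ∀ g t, c g t ∈ Subgroup.closure (S : Set G) := by
    intro g t
    induction t with
    | zero => simp only [hc, if_true]; exact one_mem _
    | succ t ih =>
      have := mul_mem ih (Subgroup.subset_closure (hstep g t))
      rwa [mul_inv_cancel_left] at this
  have hgen : Subgroup.closure (S : Set G) = ⊤ := by
    rw [eq_top_iff]
    intro g _
    obtain ⟨t, ht⟩ := exists_nat_ge (dist x0 (g • x0))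
    rw [← hend1 g (t + 1) (ht.trans (by push_cast; linarith)) (by omega)]
    exact hmem g (t + 1)
  -- displacement is bounded by word length
  have hlist : ∀ l : List G, (∀ s ∈ l, s ∈ S ∨ s⁻¹ ∈ S) →
      dist x0 (l.prod • x0) ≤ l.length * (2 * R + 1) := by
    intro l
    induction l with
    | nil => intro _; simp
    | cons a l ih =>
      intro hl
      have h1 : dist x0 (a • x0) ≤ 2 * R + 1 := by
        rcases hl a (by simp) with h | h
        · rw [hS, Set.Finite.mem_toFinset] at h
          exact h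
        · rw [hS, Set.Finite.mem_toFinset] at h
          have h2 : dist x0 (a⁻¹ • x0) ≤ 2 * R + 1 := h
          rw [← hiso a x0 (a⁻¹ • x0), smul_smul, mul_inv_cancel, one_smul, dist_comm] at h2
          exact h2
      have h2 := ih fun s hs => hl s (by simp [hs])
      rw [List.prod_cons, List.length_cons, mul_smul]
      have h3 := dist_triangle x0 (a • x0) (a • l.prod • x0)
      rw [hiso] at h3
      push_cast
      linarith
  set D := 2 * R + 1 with hD
  have hDnn : 0 ≤ D := by positivity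
  obtain ⟨C1, hC1⟩ := exists_inBall_finite hgen {g : G | dist x0 (g • x0) ≤ 2 * R + 2 * D}
    (hfin x0 _)
  obtain ⟨C2, hC2⟩ := exists_nat_ge D
  refine ⟨S, C1 + C2 + 1, c, hgen, fun q => by simp [hc], ?_, ?_, ?_⟩
  · rintro q n t ⟨l, h1, h2, rfl⟩ ht
    have h3 := hlist l h2
    have h4 : (l.length : ℝ) ≤ n := by exact_mod_cast h1
    have h5 : ((C2 * (n + 1) : ℕ) : ℝ) ≤ t := by
      have : C2 * (n + 1) ≤ t := le_trans (Nat.mul_le_mul_right _ (by omega)) ht
      exact_mod_cast this
    push_cast at h5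
    apply hend1
    · refine h3.trans (le_trans ?_ h5)
      have h6 : (0 : ℝ) ≤ C2 := Nat.cast_nonneg _
      calc (l.length : ℝ) * D ≤ n * C2 := mul_le_mul h4 hC2 hDnn (Nat.cast_nonneg _)
        _ ≤ C2 * (n + 1) := by nlinarith
    · have : 1 * 1 ≤ (C1 + C2 + 1) * (n + 1) := Nat.mul_le_mul (by omega) (by omega)
      omega
  · intro q t
    exact (InBall.of_mem (hstep q t)).mono (by omega)
  · intro q s hs t
    apply (hC1 _ _).mono (by omega)
    rw [Set.mem_ofPred_eq, ← hdisp]
    have h1 := hcpt q t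
    rw [dist_comm] at h1
    have h2 := hcpt (q * s) t
    have h3 := hX.fellow (hγ q) (hγ (q * s)) (t := (t : ℝ)) (Nat.cast_nonneg t)
    have h4 : dist (q • x0) ((q * s) • x0) ≤ D := by
      rw [hdisp, inv_mul_cancel_left]
      rw [hS, Set.Finite.mem_toFinset] at hs
      exact hs
    have h5 := dist_triangle4 (c q t • x0) (pt (γ q) (dist x0 (q • x0)) t)
      (pt (γ (q * s)) (dist x0 ((q * s) • x0)) t) (c (q * s) t • x0)
    linarith

end Pda3a14
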