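import Pool.Agent.Lib.Pda3a14.Ladder

/-!
# Pushed edges
-/

set_option linter.unusedSectionVars false

namespace Pda3a14

namespace Push

variable {G : Type*} [Group G] {α : Type*} [Fintype α] [DecidableEq α] (P : Push G α)

attribute [local instance] Push.normal

/-- The pushed edge from `g` to `g * b`. -/
noncomputable def Om (c : P.Q → ℕ → P.Q) (N : ℕ) (g b : G) : FreeGroup α :=
  P.T c (g : P.Q) N (P.wd (b * (P.con c (g : P.Q) ((g * b : G) : P.Q) N)⁻¹)) *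
    P.Z c (g : P.Q) ((g * b : G) : P.Q) N

variable {c : P.Q → ℕ → P.Q}

theorem con_self (q : P.Q) (i : ℕ) : P.con c q q i = 1 := by
  unfold con
  rw [inv_mul_cancel, P.lam_one]

theorem Z_self (q : P.Q) (i : ℕ) : P.Z c q q i = 1 := by
  induction i with
  | zero => rfl
  | succ i ih =>
    have e : P.kap c q q i = 1 := by
      unfold kap
      rw [P.con_self, P.con_self]
      group
    simp only [Z, ih, e, P.wd_one, map_one, mul_one]

theorem Om_one (N : ℕ) (g : G) : P.Om c N g 1 = 1 := by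
  unfold Om
  rw [mul_one, P.con_self, P.Z_self, inv_one, one_mul, P.wd_one, map_one, one_mul]

theorem exists_tri (F C : Set G) (hF : F.Finite) (hC : C.Finite) :
    ∃ m, ∀ b ∈ F, ∀ b' ∈ F, ∀ x ∈ C, ∀ x' ∈ C, ∀ x'' ∈ C, b * x⁻¹ ∈ P.π.range →
      b' * x'⁻¹ ∈ P.π.range → x * x' * x''⁻¹ ∈ P.π.range → b * b' * x''⁻¹ ∈ P.π.range →
      Near P.R m (P.wd (b * x⁻¹) * P.lift x (P.wd (b' * x'⁻¹)) * P.wd (x * x' * x''⁻¹))
        (P.wd (b * b' * x''⁻¹)) := by
  obtain ⟨m, hm⟩ := P.exists_near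
    {i : (G × G) × (G × G × G) | (i.1.1 ∈ F ∧ i.1.2 ∈ F) ∧
      (i.2.1 ∈ C ∧ i.2.2.1 ∈ C ∧ i.2.2.2 ∈ C) ∧ i.1.1 * i.2.1⁻¹ ∈ P.π.range ∧
      i.1.2 * i.2.2.1⁻¹ ∈ P.π.range ∧ i.2.1 * i.2.2.1 * i.2.2.2⁻¹ ∈ P.π.range ∧
      i.1.1 * i.1.2 * i.2.2.2⁻¹ ∈ P.π.range}
    (by
      apply ((hF.prod hF).prod (hC.prod (hC.prod hC))).subset
      rintro ⟨⟨b, b'⟩, ⟨x, x', x''⟩⟩ ⟨h1, h2, _⟩
      exact ⟨h1, h2⟩)
    (fun i => P.wd (i.1.1 * i.2.1⁻¹) * P.lift i.2.1 (P.wd (i.1.2 * i.2.2.1⁻¹)) *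
      P.wd (i.2.1 * i.2.2.1 * i.2.2.2⁻¹))
    (fun i => P.wd (i.1.1 * i.1.2 * i.2.2.2⁻¹))
    (by
      rintro ⟨⟨b, b'⟩, ⟨x, x', x''⟩⟩ ⟨_, _, h1, h2, h3, h4⟩
      simp only at h1 h2 h3 h4 ⊢
      simp only [map_mul, P.π_lift, P.π_wd h1, P.π_wd h2, P.π_wd h3, P.π_wd h4]
      group)
  exact ⟨m, fun b hb b' hb' x hx x' hx' x'' hx'' h1 h2 h3 h4 =>
    hm ((b, b'), (x, x', x'')) ⟨⟨hb, hb'⟩, ⟨hx, hx', hx''⟩, h1, h2, h3, h4⟩⟩

theorem mem_range_of {b x : G} (h : (x : P.Q) = (b : P.Q)) : b * x⁻¹ ∈ P.π.range := by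
  rw [← QuotientGroup.eq_one_iff, QuotientGroup.mk_mul, QuotientGroup.mk_inv, h, mul_inv_cancel]

/-- **Pushing edges.** -/
theorem exists_push (h0 : ∀ q, c q 0 = 1) (h1 : ∀ t, c 1 t = 1) (S : Set P.Q) (hS : S.Finite)
    (hstep : ∀ q t, (c q t)⁻¹ * c q (t + 1) ∈ S)
    (hfel : ∀ F : Set P.Q, F.Finite → ∃ C : Set P.Q, C.Finite ∧
      ∀ q, ∀ b ∈ F, ∀ t, (c q t)⁻¹ * c (q * b) t ∈ C)
    (F : Set G) (hF : F.Finite) :
    ∃ D B : ℕ, 1 ≤ B ∧ ∀ N : ℕ,
      (∀ g b b' : G, b ∈ F → b' ∈ F → b * b' ∈ F → c (g : P.Q) N = (g : P.Q) →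
        c ((g * b : G) : P.Q) N = ((g * b : G) : P.Q) →
        c ((g * b * b' : G) : P.Q) N = ((g * b * b' : G) : P.Q) →
        Near P.R (D * B ^ N) (P.Om c N g b * P.Om c N (g * b) b') (P.Om c N g (b * b'))) ∧
      (∀ h ∈ P.π.range, ∀ a : α,
        Near P.R (D * B ^ N) (P.Om c N h (P.π (FreeGroup.of a))) (FreeGroup.of a)) ∧
      (∀ g : G, P.Om c N g 1 = 1) := by
  obtain ⟨C0, hC0, hfel0⟩ := hfel ((fun g : G => (g : P.Q)) '' F) (hF.image _)
  set C : Set G := P.lam '' C0 with hCdef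
  set L : Set G := P.lam '' S with hLdef
  have hCf : C.Finite := hC0.image _
  have hLf : L.Finite := hS.image _
  have hlet : ∀ q i, P.letter c q i ∈ L := fun q i => ⟨_, hstep q i, rfl⟩
  obtain ⟨K, hK⟩ := P.exists_area_lift L hLf
  obtain ⟨L1, hL1⟩ := exists_len (L ×ˢ (Set.univ : Set α)) (hLf.prod Set.finite_univ)
    (fun i => P.lift i.1 (FreeGroup.of i.2))
  obtain ⟨c0, hc0⟩ := P.exists_near (Set.univ : Set α) Set.finite_univ
    (fun a => FreeGroup.of a) (fun a => P.lift 1 (FreeGroup.of a)) (by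
      intro a _
      rw [P.π_lift]; simp)
  obtain ⟨cs, hcs⟩ := P.exists_step L C hLf hCf
  obtain ⟨L2, hL2⟩ := exists_len ((L ×ˢ L) ×ˢ (C ×ˢ C)) ((hLf.prod hLf).prod (hCf.prod hCf))
    (fun i => P.wd (i.1.1 * i.2.2 * i.1.2⁻¹ * i.2.1⁻¹))
  obtain ⟨c3, hc3⟩ := P.exists_step3 L C hLf hCf
  obtain ⟨L3, hL3⟩ := exists_len (F ×ˢ C) (hF.prod hCf) (fun i => P.wd (i.1 * i.2⁻¹))
  obtain ⟨c4, hc4⟩ := P.exists_tri F C hF hCf
  obtain ⟨c5, hc5⟩ := P.exists_near (Set.univ : Set α) Set.finite_univ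
    (fun a => P.wd (P.π (FreeGroup.of a))) (fun a => FreeGroup.of a) (by
      intro a _
      rw [P.π_wd ⟨_, rfl⟩])
  set c1 := c0 + cs with hc1
  set B := K + L1 + 2 with hB
  have hB1 : K ≤ B := by omega
  have hB2 : L1 + 1 ≤ B := by omega
  have hB3 : 2 ≤ B := by omega
  have hB4 : 1 ≤ B := by omega
  have hconj : ∀ q q' : P.Q, (∀ i, P.con c q q' i ∈ C) → ∀ i, ∀ a : α,
      Near P.R (c1 * B ^ i)
      (P.Z c q q' i * P.T c q' i (FreeGroup.of a) * (P.Z c q q' i)⁻¹)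
      (P.T c q i (P.lift (P.con c q q' i) (FreeGroup.of a))) := by
    intro q q' hqq
    exact P.ladder_conj hK hlet h0 (fun l hl a => hL1 (l, a) ⟨hl, Set.mem_univ a⟩) hB1 hB2
      (fun a => (hc0 a (Set.mem_univ a)).mono (by omega))
      (fun l hl l' hl' x hx x' hx' h a => (hcs l hl l' hl' x hx x' hx' h a).mono (by omega))
      q q' hqq
  refine ⟨L3 * c1 + (L2 * c1 + c3) + c4 + c5 + c0, B, hB4, fun N => ⟨?_, ?_, P.Om_one N⟩⟩
  · intro g b b' hb hb' hbb' e1 e2 e3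
    set q : P.Q := (g : P.Q) with hq
    set q' : P.Q := ((g * b : G) : P.Q) with hq'
    set q'' : P.Q := ((g * b * b' : G) : P.Q) with hq''
    have eq' : q' = q * (b : P.Q) := by rw [hq', hq, QuotientGroup.mk_mul]
    have eq'' : q'' = q' * (b' : P.Q) := by rw [hq'', hq', QuotientGroup.mk_mul]
    have eq''' : q'' = q * ((b * b' : G) : P.Q) := by
      rw [eq'', eq', QuotientGroup.mk_mul, mul_assoc]
    have hC1 : ∀ i, P.con c q q' i ∈ C := by
      intro i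
      rw [eq']
      exact ⟨_, hfel0 q (b : P.Q) ⟨b, hb, rfl⟩ i, rfl⟩
    have hC2 : ∀ i, P.con c q' q'' i ∈ C := by
      intro i
      rw [eq'']
      exact ⟨_, hfel0 q' (b' : P.Q) ⟨b', hb', rfl⟩ i, rfl⟩
    have hC3 : ∀ i, P.con c q q'' i ∈ C := by
      intro i
      rw [eq''']
      exact ⟨_, hfel0 q ((b * b' : G) : P.Q) ⟨b * b', hbb', rfl⟩ i, rfl⟩
    have m1 : b * (P.con c q q' N)⁻¹ ∈ P.π.range := by
      apply P.mem_range_of
      unfold con
      rw [P.mk_lam, e1, e2, eq']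
      group
    have m2 : b' * (P.con c q' q'' N)⁻¹ ∈ P.π.range := by
      apply P.mem_range_of
      unfold con
      rw [P.mk_lam, e2, e3, eq'']
      group
    have m3 : b * b' * (P.con c q q'' N)⁻¹ ∈ P.π.range := by
      apply P.mem_range_of
      unfold con
      rw [P.mk_lam, e1, e3, eq''']
      group
    have n1 := near_hom (R := P.R) (E := c1 * B ^ N)
      ((MulAut.conj (P.Z c q q' N)).toMonoidHom.comp (P.T c q' N))
      ((P.T c q N).comp (P.lift (P.con c q q' N)))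
      (by
        intro a
        simpa using hconj q q' hC1 N a) (P.wd (b' * (P.con c q' q'' N)⁻¹))
    have n2 : Near P.R (L3 * (c1 * B ^ N))
        (P.Z c q q' N * P.T c q' N (P.wd (b' * (P.con c q' q'' N)⁻¹)) * (P.Z c q q' N)⁻¹)
        (P.T c q N (P.lift (P.con c q q' N) (P.wd (b' * (P.con c q' q'' N)⁻¹)))) := by
      have := n1.mono (Nat.mul_le_mul_right (c1 * B ^ N)
        (hL3 (b', P.con c q' q'' N) ⟨hb', hC2 N⟩))
      simpa using this
    have n3 := (n2.mul_left (P.T c q N (P.wd (b * (P.con c q q' N)⁻¹)))).mul_right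
      (P.Z c q q' N * P.Z c q' q'' N)
    have n4 := (P.ladder_three hK hlet h0
      (fun l hl l' hl' x hx x' hx' => hL2 ((l, l'), (x, x')) ⟨⟨hl, hl'⟩, ⟨hx, hx'⟩⟩)
      hB1 hB3 hc3 q q' q'' hC1 hC2 hC3 (hconj q q' hC1) N).mul_left
      (P.T c q N (P.wd (b * (P.con c q q' N)⁻¹)) *
        P.T c q N (P.lift (P.con c q q' N) (P.wd (b' * (P.con c q' q'' N)⁻¹))))
    have n5 := (P.T_area hK hlet q N (hc4 b hb b' hb' _ (hC1 N) _ (hC2 N) _ (hC3 N) m1 m2
      (P.con_mem q q' q'' N) m3)).mul_right (P.Z c q q'' N)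
    have n34 := n3.trans (w := P.T c q N (P.wd (b * (P.con c q q' N)⁻¹)) *
        P.T c q N (P.lift (P.con c q q' N) (P.wd (b' * (P.con c q' q'' N)⁻¹))) *
        (P.T c q N (P.wd (P.con c q q' N * P.con c q' q'' N * (P.con c q q'' N)⁻¹)) *
          P.Z c q q'' N)) (n := (L2 * c1 + c3) * B ^ N) n4
    have n345 := n34.trans (w := P.T c q N (P.wd (b * b' * (P.con c q q'' N)⁻¹)) *
      P.Z c q q'' N) (n := c4 * K ^ N) (by
        have e : P.T c q N (P.wd (b * (P.con c q q' N)⁻¹)) *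
          P.T c q N (P.lift (P.con c q q' N) (P.wd (b' * (P.con c q' q'' N)⁻¹))) *
          (P.T c q N (P.wd (P.con c q q' N * P.con c q' q'' N * (P.con c q q'' N)⁻¹)) *
            P.Z c q q'' N) = P.T c q N (P.wd (b * (P.con c q q' N)⁻¹) *
            P.lift (P.con c q q' N) (P.wd (b' * (P.con c q' q'' N)⁻¹)) *
            P.wd (P.con c q q' N * P.con c q' q'' N * (P.con c q q'' N)⁻¹)) *
            P.Z c q q'' N := by
          simp only [map_mul, mul_assoc]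
        rw [e]
        exact n5)
    have hKB : K ^ N ≤ B ^ N := Nat.pow_le_pow_left hB1 N
    have n6 := n345.mono (n := (L3 * c1 + (L2 * c1 + c3) + c4 + c5 + c0) * B ^ N) (by
      calc L3 * (c1 * B ^ N) + (L2 * c1 + c3) * B ^ N + c4 * K ^ N ≤
          L3 * (c1 * B ^ N) + (L2 * c1 + c3) * B ^ N + c4 * B ^ N := by gcongr
        _ = (L3 * c1 + (L2 * c1 + c3) + c4) * B ^ N := by ring
        _ ≤ (L3 * c1 + (L2 * c1 + c3) + c4 + c5 + c0) * B ^ N :=
          Nat.mul_le_mul_right _ (by omega))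
    have e4 : P.T c q N (P.wd (b * (P.con c q q' N)⁻¹)) *
        (P.Z c q q' N * P.T c q' N (P.wd (b' * (P.con c q' q'' N)⁻¹)) * (P.Z c q q' N)⁻¹) *
        (P.Z c q q' N * P.Z c q' q'' N) = P.Om c N g b * P.Om c N (g * b) b' := by
      unfold Om
      rw [← hq, ← hq', ← hq'']
      group
    have e5 : P.T c q N (P.wd (b * b' * (P.con c q q'' N)⁻¹)) * P.Z c q q'' N =
        P.Om c N g (b * b') := by
      unfold Om
      rw [← hq, ← mul_assoc g b b', ← hq'']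
    rw [e4, e5] at n6
    exact n6
  · intro h hh a
    have hh1 : (h : P.Q) = 1 := (QuotientGroup.eq_one_iff h).2 hh
    have hh2 : ((h * P.π (FreeGroup.of a) : G) : P.Q) = 1 :=
      (QuotientGroup.eq_one_iff _).2 (mul_mem hh ⟨_, rfl⟩)
    have e1 : P.Om c N h (P.π (FreeGroup.of a)) =
        P.T c 1 N (P.wd (P.π (FreeGroup.of a))) := by
      unfold Om
      rw [hh1, hh2, P.con_self, P.Z_self, inv_one, mul_one, mul_one]
    rw [e1]
    have n1 := P.T_area hK hlet 1 N (hc5 a (Set.mem_univ a))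
    have hlet1 : ∀ i, P.letter c 1 i = 1 := by
      intro i
      unfold letter
      rw [h1, h1, inv_one, one_mul, P.lam_one]
    have n2 : ∀ i, Near P.R (c0 * B ^ i) (P.T c 1 i (FreeGroup.of a)) (FreeGroup.of a) := by
      intro i
      induction i with
      | zero => exact (Near.refl _).mono (Nat.zero_le _)
      | succ i ih =>
        have n3 := (P.T_area hK hlet 1 i (hc0 a (Set.mem_univ a))).symm
        have e2 : P.T c 1 (i + 1) (FreeGroup.of a) =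
            P.T c 1 i (P.lift 1 (FreeGroup.of a)) := by
          simp only [T, MonoidHom.comp_apply, hlet1]
        rw [e2]
        apply (n3.trans ih).mono
        have hKB : K ^ i ≤ B ^ i := Nat.pow_le_pow_left hB1 i
        calc c0 * K ^ i + c0 * B ^ i ≤ c0 * B ^ i + c0 * B ^ i := by gcongr
          _ = c0 * B ^ i * 2 := by ring
          _ ≤ c0 * B ^ i * B := Nat.mul_le_mul_left _ hB3
          _ = c0 * B ^ (i + 1) := by ring
    apply (n1.trans (n2 N)).mono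
    have hKB : K ^ N ≤ B ^ N := Nat.pow_le_pow_left hB1 N
    calc c5 * K ^ N + c0 * B ^ N ≤ c5 * B ^ N + c0 * B ^ N := by gcongr
      _ = (c5 + c0) * B ^ N := by ring
      _ ≤ (L3 * c1 + (L2 * c1 + c3) + c4 + c5 + c0) * B ^ N :=
          Nat.mul_le_mul_right _ (by omega)

end Push

end Pda3a14
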