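import Pool.Agent.Lib.Pda3a14.Ball
import Pool.Agent.Lib.Pda3a14.Edge

/-!
# Filling loops of the normal subgroup by columns
-/

set_option linter.unusedSectionVars false

open scoped Pointwise

namespace Pda3a14

namespace Push

variable {G : Type*} [Group G] {α : Type*} [Fintype α] [DecidableEq α] (P : Push G α)

attribute [local instance] Push.normal

/-- The group element of a letter. -/
def ltr (x : α × Bool) : G := P.π (FreeGroup.mk [x])

theorem π_mk (L : List (α × Bool)) : P.π (FreeGroup.mk L) = (L.map P.ltr).prod := by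
  induction L with
  | nil =>
    have : (FreeGroup.mk [] : FreeGroup α) = 1 := rfl
    rw [this, map_one]; simp
  | cons a L ih =>
    have e : (FreeGroup.mk (a :: L) : FreeGroup α) = FreeGroup.mk [a] * FreeGroup.mk L := by
      rw [FreeGroup.mul_mk]; rfl
    rw [e, map_mul, ih, List.map_cons, List.prod_cons]
    rfl

theorem ltr_mem (x : α × Bool) : P.ltr x ∈ P.π.range := ⟨_, rfl⟩

theorem ltr_true (a : α) : P.ltr (a, true) = P.π (FreeGroup.of a) := rfl

theorem mk_false (a : α) : (FreeGroup.mk [(a, false)] : FreeGroup α) = (FreeGroup.of a)⁻¹ := by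
  simp [FreeGroup.of, FreeGroup.inv_mk, FreeGroup.invRev]

theorem ltr_false (a : α) : P.ltr (a, false) = (P.π (FreeGroup.of a))⁻¹ := by
  unfold ltr
  rw [mk_false, map_inv]

/-- The pushed column. -/
noncomputable def V (c : P.Q → ℕ → P.Q) (N : ℕ) (u : ℕ → G) : ℕ → FreeGroup α
  | 0 => 1
  | i + 1 => V c N u i * P.Om c N (u i) ((u i)⁻¹ * u (i + 1))

theorem column {c : P.Q → ℕ → P.Q} {N M m : ℕ} {F : Set G}
    (hone : ∀ g : G, P.Om c N g 1 = 1)
    (htri : ∀ g b b' : G, b ∈ F → b' ∈ F → b * b' ∈ F → c (g : P.Q) N = (g : P.Q) →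
        c ((g * b : G) : P.Q) N = ((g * b : G) : P.Q) →
        c ((g * b * b' : G) : P.Q) N = ((g * b * b' : G) : P.Q) →
        Near P.R m (P.Om c N g b * P.Om c N (g * b) b') (P.Om c N g (b * b')))
    (u u' : ℕ → G) (h0 : u 0 = u' 0)
    (hN : ∀ i, i ≤ M → c ((u i : G) : P.Q) N = ((u i : G) : P.Q))
    (hN' : ∀ i, i ≤ M → c ((u' i : G) : P.Q) N = ((u' i : G) : P.Q))
    (hstep : ∀ i, i < M → (u i)⁻¹ * u (i + 1) ∈ F)
    (hstep' : ∀ i, i < M → (u' i)⁻¹ * u' (i + 1) ∈ F)
    (hhor : ∀ i, i ≤ M → (u i)⁻¹ * u' i ∈ F)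
    (hdiag : ∀ i, i < M → (u i)⁻¹ * u' (i + 1) ∈ F) (i : ℕ) (hi : i ≤ M) :
    Near P.R (i * (2 * m)) (P.V c N u i * P.Om c N (u i) ((u i)⁻¹ * u' i))
      (P.V c N u' i) := by
  induction i with
  | zero =>
    rw [h0, inv_mul_cancel, hone]
    simpa [V] using (Near.refl (R := P.R) (1 : FreeGroup α))
  | succ i ih =>
    have ih' := ih (by omega)
    have t1 := htri (u i) ((u i)⁻¹ * u (i + 1)) ((u (i + 1))⁻¹ * u' (i + 1))
      (hstep i hi) (hhor (i + 1) hi) (by
        have e : (u i)⁻¹ * u (i + 1) * ((u (i + 1))⁻¹ * u' (i + 1)) =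
          (u i)⁻¹ * u' (i + 1) := by group
        rw [e]; exact hdiag i hi) (hN i (by omega)) (by
        rw [mul_inv_cancel_left]; exact hN (i + 1) hi) (by
        rw [mul_inv_cancel_left, mul_inv_cancel_left]; exact hN' (i + 1) hi)
    have t2 := htri (u i) ((u i)⁻¹ * u' i) ((u' i)⁻¹ * u' (i + 1))
      (hhor i (by omega)) (hstep' i hi) (by
        have e : (u i)⁻¹ * u' i * ((u' i)⁻¹ * u' (i + 1)) =
          (u i)⁻¹ * u' (i + 1) := by group
        rw [e]; exact hdiag i hi) (hN i (by omega)) (by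
        rw [mul_inv_cancel_left]; exact hN' i (by omega)) (by
        rw [mul_inv_cancel_left, mul_inv_cancel_left]; exact hN' (i + 1) hi)
    have e1 : (u i)⁻¹ * u (i + 1) * ((u (i + 1))⁻¹ * u' (i + 1)) =
          (u i)⁻¹ * u' (i + 1) := by group
    have e2 : (u i)⁻¹ * u' i * ((u' i)⁻¹ * u' (i + 1)) =
          (u i)⁻¹ * u' (i + 1) := by group
    rw [e1, mul_inv_cancel_left] at t1
    rw [e2, mul_inv_cancel_left] at t2
    have t3 := (t1.trans t2.symm).mul_left (P.V c N u i)
    have t4 := ih'.mul_right (P.Om c N (u' i) ((u' i)⁻¹ * u' (i + 1)))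
    rw [mul_assoc] at t4
    have t5 := (t3.trans t4).mono (n := (i + 1) * (2 * m)) (by ring_nf; omega)
    simp only [V]
    rw [mul_assoc]
    exact t5

/-- **Exponential filling.** -/
theorem exists_exp_area (K : NCombing G) (q : NCombing P.Q) :
    ∃ A : ℕ, ∀ w : FreeGroup α, P.π w = 1 → AreaLE P.R (A ^ (w.norm + 1)) w := by
  classical
  set F1 : Set G := Set.range P.ltr with hF1
  have hF1f : F1.Finite := Set.finite_range _
  obtain ⟨C1, hC1f, hC1⟩ := K.fel F1 hF1f
  set F : Set G := (((K.S ∪ C1) ∪ (C1 * K.S)) ∪ F1) ∪ {1} with hF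
  have hFf : F.Finite :=
    (((K.fin.union hC1f).union (hC1f.mul K.fin)).union hF1f).union (Set.finite_singleton 1)
  obtain ⟨D, B, hB, hpush⟩ := P.exists_push q.zero q.one q.S q.fin q.step q.fel F hFf
  obtain ⟨C2, hC2⟩ := K.len F1 hF1f
  obtain ⟨C3, hC3⟩ := q.len ((fun g : G => (g : P.Q)) '' K.S) (K.fin.image _)
  have hpath : ∀ g i, ∃ l : List P.Q, l.length = i ∧
      (∀ s ∈ l, s ∈ (fun g : G => (g : P.Q)) '' K.S) ∧ l.prod = ((K.c g i : G) : P.Q) := by
    intro g i
    induction i with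
    | zero => exact ⟨[], rfl, by simp, by rw [K.zero]; rfl⟩
    | succ i ih =>
      obtain ⟨l, h1, h2, h3⟩ := ih
      refine ⟨l ++ [(((K.c g i)⁻¹ * K.c g (i + 1) : G) : P.Q)], by simp [h1], ?_, ?_⟩
      · intro s hs
        rcases List.mem_append.1 hs with h | h
        · exact h2 s h
        · rw [List.mem_singleton] at h
          exact ⟨_, K.step g i, h.symm⟩
      · rw [List.prod_append, List.prod_singleton, h3, ← QuotientGroup.mk_mul,
          mul_inv_cancel_left]
  -- the main estimate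
  have main : ∀ n M N : ℕ, C2 * (n + 1) ≤ M → C3 * (M + 1) ≤ N → ∀ L L0 : List (α × Bool),
      L0.length + L.length ≤ n →
      Near P.R (L.length * ((2 * M + 2) * (D * B ^ N)))
        (P.V q.c N (K.c (P.π (FreeGroup.mk L0))) M * FreeGroup.mk L)
        (P.V q.c N (K.c (P.π (FreeGroup.mk (L0 ++ L)))) M) := by
    intro n M N hM hN
    obtain ⟨htri, hof, hone⟩ := hpush N
    have hdN : ∀ g i, i ≤ M → q.c ((K.c g i : G) : P.Q) N = ((K.c g i : G) : P.Q) := by
      intro g i hi
      obtain ⟨l, h1, h2, h3⟩ := hpath g i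
      rw [← h3]
      apply hC3 l h2
      rw [h1]
      refine le_trans ?_ hN
      exact Nat.mul_le_mul_left _ (by omega)
    have hq1 : ∀ h ∈ P.π.range, q.c (h : P.Q) N = (h : P.Q) := by
      intro h hh
      have hh1 : (h : P.Q) = 1 := (QuotientGroup.eq_one_iff h).2 hh
      rw [hh1, q.one]
    have hend : ∀ L0 : List (α × Bool), L0.length ≤ n →
        K.c (P.π (FreeGroup.mk L0)) M = P.π (FreeGroup.mk L0) := by
      intro L0 hL0
      rw [P.π_mk]
      apply hC2
      · intro s hs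
        rw [List.mem_map] at hs
        obtain ⟨x, _, rfl⟩ := hs
        exact ⟨x, rfl⟩
      · rw [List.length_map]
        refine le_trans ?_ hM
        exact Nat.mul_le_mul_left _ (by omega)
    have hletter : ∀ h ∈ P.π.range, ∀ x : α × Bool,
        Near P.R (2 * (D * B ^ N)) (P.Om q.c N h (P.ltr x)) (FreeGroup.mk [x]) := by
      intro h hh x
      obtain ⟨a, b⟩ := x
      cases b
      · have h1 := htri h (P.ltr (a, false)) (P.ltr (a, true)) (by
            left; right; exact ⟨_, rfl⟩) (by left; right; exact ⟨_, rfl⟩) (by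
            rw [P.ltr_true, P.ltr_false, inv_mul_cancel]; right; rfl)
          (hq1 _ hh) (hq1 _ (mul_mem hh (P.ltr_mem _)))
          (hq1 _ (mul_mem (mul_mem hh (P.ltr_mem _)) (P.ltr_mem _)))
        have e : P.ltr (a, false) * P.ltr (a, true) = 1 := by
          rw [P.ltr_true, P.ltr_false, inv_mul_cancel]
        rw [e, hone] at h1
        have h2 := hof (h * P.ltr (a, false)) (mul_mem hh (P.ltr_mem _)) a
        rw [← P.ltr_true] at h2
        have h3 := h1.mul h2.inv
        rw [mul_inv_cancel_right, one_mul] at h3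
        rw [mk_false]
        exact h3.mono (by omega)
      · exact (hof h hh a).mono (by omega)
    have hone' : ∀ L0 : List (α × Bool), L0.length + 1 ≤ n → ∀ x : α × Bool,
        Near P.R ((2 * M + 2) * (D * B ^ N))
          (P.V q.c N (K.c (P.π (FreeGroup.mk L0))) M * FreeGroup.mk [x])
          (P.V q.c N (K.c (P.π (FreeGroup.mk (L0 ++ [x])))) M) := by
      intro L0 hL0 x
      have eg : P.π (FreeGroup.mk (L0 ++ [x])) = P.π (FreeGroup.mk L0) * P.ltr x := by
        rw [P.π_mk, P.π_mk]; simp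
      have hcol := P.column hone htri (K.c (P.π (FreeGroup.mk L0)))
        (K.c (P.π (FreeGroup.mk (L0 ++ [x])))) (by rw [K.zero, K.zero])
        (hdN _) (hdN _) (fun i _ => by
          left; left; left; left; exact K.step _ i) (fun i _ => by
          left; left; left; left; exact K.step _ i)
        (fun i _ => by
          left; left; left; right
          rw [eg]
          exact hC1 _ _ ⟨x, rfl⟩ i)
        (fun i _ => by
          left; left; right
          rw [Set.mem_mul]
          refine ⟨_, hC1 (P.π (FreeGroup.mk L0)) (P.ltr x) ⟨x, rfl⟩ i, _,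
            K.step (P.π (FreeGroup.mk (L0 ++ [x]))) i, ?_⟩
          rw [eg]
          group) M le_rfl
      rw [hend L0 (by omega), hend (L0 ++ [x]) (by simp; omega)] at hcol
      have e2 : (P.π (FreeGroup.mk L0))⁻¹ * P.π (FreeGroup.mk (L0 ++ [x])) = P.ltr x := by
        rw [eg, inv_mul_cancel_left]
      rw [e2] at hcol
      have h3 := ((hletter (P.π (FreeGroup.mk L0)) ⟨_, rfl⟩ x).symm.mul_left
        (P.V q.c N (K.c (P.π (FreeGroup.mk L0))) M)).trans hcol
      apply h3.mono
      apply le_of_eq; ring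
    intro L
    induction L with
    | nil =>
      intro L0 _
      rw [List.append_nil]
      have : (FreeGroup.mk [] : FreeGroup α) = 1 := rfl
      rw [this, mul_one]
      exact (Near.refl _).mono (Nat.zero_le _)
    | cons x L ih =>
      intro L0 hL
      rw [List.length_cons] at hL
      have e : (FreeGroup.mk (x :: L) : FreeGroup α) = FreeGroup.mk [x] * FreeGroup.mk L := by
        rw [FreeGroup.mul_mk]; rfl
      have e2 : L0 ++ x :: L = (L0 ++ [x]) ++ L := by simp
      rw [e, e2, ← mul_assoc (P.V q.c N (K.c (P.π (FreeGroup.mk L0))) M)]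
      have h1 := (hone' L0 (by omega) x).mul_right (FreeGroup.mk L)
      have h2 := ih (L0 ++ [x]) (by simp; omega)
      apply (h1.trans h2).mono
      rw [List.length_cons]
      apply le_of_eq; ring
  refine ⟨(2 * ((2 * (C2 + 1)) * (D + 1))) * B ^ (C3 * (C2 + 1)), fun w hw => ?_⟩
  set n := w.norm with hn
  set M := C2 * (n + 1) with hM
  set N := C3 * (M + 1) with hN
  have h1 := main n M N le_rfl le_rfl w.toWord [] (by simp [hn, FreeGroup.norm])
  have e0 : (FreeGroup.mk [] : FreeGroup α) = 1 := rfl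
  rw [List.nil_append, FreeGroup.mk_toWord, e0, map_one, hw] at h1
  have h2 : AreaLE P.R (n * ((2 * M + 2) * (D * B ^ N))) w := by
    unfold Near at h1
    have h3 := AreaLE.conj h1 (P.V q.c N (K.c 1) M)⁻¹
    have e : (P.V q.c N (K.c 1) M)⁻¹ * (P.V q.c N (K.c 1) M * w * (P.V q.c N (K.c 1) M)⁻¹) *
        ((P.V q.c N (K.c 1) M)⁻¹)⁻¹ = w := by group
    rwa [e] at h3
  apply h2.mono
  -- arithmetic
  have hn2 : n ≤ 2 ^ (n + 1) := le_of_lt (lt_of_lt_of_le Nat.lt_two_pow_self
    (Nat.pow_le_pow_right (by norm_num) (by omega)))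
  have hn3 : n + 1 ≤ 2 ^ (n + 1) := le_of_lt Nat.lt_two_pow_self
  have hM2 : 2 * M + 2 ≤ (2 * (C2 + 1)) ^ (n + 1) := by
    have h3 : 2 * M + 2 ≤ 2 * ((C2 + 1) * (n + 1)) := by rw [hM]; ring_nf; nlinarith
    have h4 : 2 * ((C2 + 1) * (n + 1)) ≤ (2 * (C2 + 1)) * 2 ^ n := by
      have : n + 1 ≤ 2 ^ n := Nat.lt_two_pow_self
      calc 2 * ((C2 + 1) * (n + 1)) = (2 * (C2 + 1)) * (n + 1) := by ring
        _ ≤ (2 * (C2 + 1)) * 2 ^ n := Nat.mul_le_mul_left _ this
    have h5 : (2 * (C2 + 1)) * 2 ^ n ≤ (2 * (C2 + 1)) * (2 * (C2 + 1)) ^ n := by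
      apply Nat.mul_le_mul_left
      exact Nat.pow_le_pow_left (by omega) n
    rw [pow_succ, mul_comm ((2 * (C2 + 1)) ^ n)]
    omega
  have hD2 : D ≤ (D + 1) ^ (n + 1) := by
    calc D ≤ D + 1 := by omega
      _ = (D + 1) ^ 1 := (pow_one _).symm
      _ ≤ (D + 1) ^ (n + 1) := Nat.pow_le_pow_right (by omega) (by omega)
  have hB2 : B ^ N ≤ (B ^ (C3 * (C2 + 1))) ^ (n + 1) := by
    rw [← pow_mul]
    apply Nat.pow_le_pow_right hB
    rw [hN, hM]
    calc C3 * (C2 * (n + 1) + 1) ≤ C3 * ((C2 + 1) * (n + 1)) := by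
          apply Nat.mul_le_mul_left; ring_nf; nlinarith
      _ = C3 * (C2 + 1) * (n + 1) := by ring
  calc n * ((2 * M + 2) * (D * B ^ N)) ≤ 2 ^ (n + 1) * ((2 * (C2 + 1)) ^ (n + 1) *
        ((D + 1) ^ (n + 1) * (B ^ (C3 * (C2 + 1))) ^ (n + 1))) := by gcongr
    _ = ((2 * ((2 * (C2 + 1)) * (D + 1))) * B ^ (C3 * (C2 + 1))) ^ (n + 1) := by
        simp only [mul_pow]; ring

end Push

end Pda3a14
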