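import Pool.Agent.Lib.Pda3a14.Area

/-!
# Definitions: finite presentations, Dehn functions, combable groups, CAT(0) groups,
hyperbolic groups
-/

namespace Pda3a14

/-- A finite presentation of the group `H`. -/
structure FinPres (H : Type*) [Group H] where
  /-- number of generators -/
  n : ℕ
  /-- the generators -/
  π : FreeGroup (Fin n) →* H
  /-- the relators -/
  R : Finset (FreeGroup (Fin n))
  surj : Function.Surjective π
  ker : π.ker = Subgroup.normalClosure (R : Set (FreeGroup (Fin n)))

/-- The area of a word: the least number of conjugates of relators and their inverses whose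
product is the word. -/
noncomputable def FinPres.area {H : Type*} [Group H] (P : FinPres H)
    (w : FreeGroup (Fin P.n)) : ℕ :=
  sInf {m | AreaLE (P.R : Set (FreeGroup (Fin P.n))) m w}

/-- The Dehn function of a finite presentation. -/
noncomputable def FinPres.dehn {H : Type*} [Group H] (P : FinPres H) (x : ℕ) : ℕ :=
  sSup {m | ∃ w : FreeGroup (Fin P.n), w.norm ≤ x ∧ P.π w = 1 ∧ P.area w = m}

/-- `f ⪯ g`. -/
def Preceq (f : ℕ → ℝ) (g : ℝ → ℝ) : Prop :=
  ∃ C : ℝ, 0 < C ∧ ∀ x : ℕ, f x ≤ C * g (C * x + C) + C * x + C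

/-- `g` is a product of at most `n` elements of `S` and their inverses. -/
def InBall {Q : Type*} [Group Q] (S : Finset Q) (n : ℕ) (g : Q) : Prop :=
  ∃ l : List Q, l.length ≤ n ∧ (∀ s ∈ l, s ∈ S ∨ s⁻¹ ∈ S) ∧ l.prod = g

/-- `Q` is *combable*: there are a finite generating set `S`, a constant `C` and for every `q`
a path `c q 0 = 1, c q 1, c q 2, ...` with steps of length at most `C`, which has arrived at `q`
(and stays there) at all times `≥ C (|q| + 1)`, such that the paths of two elements which differ
by a generator are at distance at most `C` at every time. -/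
def Combable (Q : Type*) [Group Q] : Prop :=
  ∃ (S : Finset Q) (C : ℕ) (c : Q → ℕ → Q),
    Subgroup.closure (S : Set Q) = ⊤ ∧
    (∀ q, c q 0 = 1) ∧
    (∀ q n t, InBall S n q → C * (n + 1) ≤ t → c q t = q) ∧
    (∀ q t, InBall S C ((c q t)⁻¹ * c q (t + 1))) ∧
    (∀ q, ∀ s ∈ S, ∀ t, InBall S C ((c q t)⁻¹ * c (q * s) t))

/-- The curve `γ` (on `[0,1]`) is a geodesic, parametrised proportionally to arc length,
from `y` to `z`. -/
def IsGeodesic {X : Type*} [MetricSpace X] (γ : ℝ → X) (y z : X) : Prop :=
  γ 0 = y ∧ γ 1 = z ∧ ∀ s ∈ Set.Icc (0 : ℝ) 1, ∀ t ∈ Set.Icc (0 : ℝ) 1,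
    dist (γ s) (γ t) = |s - t| * dist y z

/-- `X` is a CAT(0) space: a geodesic space in which the distance from a vertex of a geodesic
triangle to a point of the opposite side is at most the Euclidean comparison distance. -/
structure IsCATZero (X : Type*) [MetricSpace X] : Prop where
  nonempty : Nonempty X
  geodesic : ∀ y z : X, ∃ γ : ℝ → X, IsGeodesic γ y z
  comparison : ∀ (p y z : X) (γ : ℝ → X), IsGeodesic γ y z → ∀ t ∈ Set.Icc (0 : ℝ) 1,
    dist p (γ t) ^ 2 ≤ (1 - t) * dist p y ^ 2 + t * dist p z ^ 2 - t * (1 - t) * dist y z ^ 2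

/-- `G` is a CAT(0) group: it acts by isometries, properly discontinuously and cocompactly on
a CAT(0) space. -/
def CATZeroGroup (G : Type*) [Group G] : Prop :=
  ∃ (X : Type) (_ : MetricSpace X) (_ : MulAction G X), IsCATZero X ∧
    (∀ (g : G) (x y : X), dist (g • x) (g • y) = dist x y) ∧
    (∀ (x : X) (r : ℝ), {g : G | dist x (g • x) ≤ r}.Finite) ∧
    (∃ K : Set X, IsCompact K ∧ ∀ x : X, ∃ g : G, g • x ∈ K)

/-- The word length of `g` with respect to `S`. -/
noncomputable def wordLength {Q : Type*} [Group Q] (S : Finset Q) (g : Q) : ℕ :=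
  sInf {n | InBall S n g}

/-- The word metric. -/
noncomputable def wordDist {Q : Type*} [Group Q] (S : Finset Q) (x y : Q) : ℕ :=
  wordLength S (x⁻¹ * y)

/-- `G` is a hyperbolic group: it has a finite generating set whose word metric satisfies
Gromov's four point condition. -/
def HyperbolicGroup (G : Type*) [Group G] : Prop :=
  ∃ (S : Finset G) (δ : ℕ), Subgroup.closure (S : Set G) = ⊤ ∧ ∀ x y z w : G,
    wordDist S x z + wordDist S y w ≤
      max (wordDist S x y + wordDist S z w) (wordDist S x w + wordDist S y z) + δ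

end Pda3a14
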