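import Pool.Agent.Lib.Pda3a14.SDehn

/-!
# Length functions, tame exponential distortion, exponential fillings
-/

namespace Pda3a14

open MulAction

/-- A length function on a group. -/
structure IsLen {G : Type*} [Group G] (ν : G → ℕ) : Prop where
  one : ν 1 = 0
  inv : ∀ g, ν g⁻¹ = ν g
  mul : ∀ g h, ν (g * h) ≤ ν g + ν h

/-- The subgroup `E` has a finite generating set such that every `e ∈ E` of length at most `n` is a
product of at most `C ^ (n + 1)` generators and inverses with all partial products of length at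
most `C * (n + 1)`. -/
def TameExp {G : Type*} [Group G] (ν : G → ℕ) (E : Subgroup G) : Prop :=
  ∃ (T : Finset G) (C : ℕ), Subgroup.closure (T : Set G) = E ∧ ∀ n, ∀ e ∈ E, ν e ≤ n →
    ∃ l : List G, l.length ≤ C ^ (n + 1) ∧ (∀ s ∈ l, s ∈ T ∨ s⁻¹ ∈ T) ∧ l.prod = e ∧
      ∀ k, ν (l.take k).prod ≤ C * (n + 1)

/-- All partial values of the word `L` have length at most `r`. -/
def PB {G : Type*} [Group G] {n : ℕ} (ν : G → ℕ) (π : FreeGroup (Fin n) →* G) (r : ℕ)
    (L : List (Fin n × Bool)) : Prop :=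
  ∀ k, ν (π (FreeGroup.mk (L.take k))) ≤ r

/-- Words of length at most `ℓ` which represent `1` and stay in the ball of radius `r` have area at
most `(ℓ + 1) ^ d * C ^ (r + 1)`. -/
def ExpFill {G : Type*} [Group G] {n : ℕ} (ν : G → ℕ) (π : FreeGroup (Fin n) →* G)
    (R : Set (FreeGroup (Fin n))) (d C : ℕ) : Prop :=
  ∀ (ℓ r : ℕ) (L : List (Fin n × Bool)), L.length ≤ ℓ → PB ν π r L → π (FreeGroup.mk L) = 1 →
    AreaLE R ((ℓ + 1) ^ d * C ^ (r + 1)) (FreeGroup.mk L)

section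

variable {G : Type*} [Group G] {n : ℕ} {ν : G → ℕ} {π : FreeGroup (Fin n) →* G} {r s : ℕ}
  {L L' : List (Fin n × Bool)}

theorem PB.mono (h : PB ν π r L) (hrs : r ≤ s) : PB ν π s L := fun k => (h k).trans hrs

theorem PB.nil (hν : IsLen ν) : PB ν π r [] := by
  intro k
  rw [List.take_nil]
  have : (FreeGroup.mk [] : FreeGroup (Fin n)) = 1 := rfl
  rw [this, map_one, hν.one]
  exact Nat.zero_le _

theorem PB.full (h : PB ν π r L) : ν (π (FreeGroup.mk L)) ≤ r := by
  have := h L.length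
  rwa [List.take_length] at this

theorem PB.append (hν : IsLen ν) {a : ℕ} (h : PB ν π r L) (ha : ν (π (FreeGroup.mk L)) ≤ a)
    (h' : PB ν π s L') : PB ν π (max r (a + s)) (L ++ L') := by
  intro k
  rw [List.take_append, ← FreeGroup.mul_mk, map_mul]
  rcases Nat.le_total k L.length with hk | hk
  · have h1 : L'.take (k - L.length) = [] := by
      rw [Nat.sub_eq_zero_of_le hk, List.take_zero]
    have h2 : (FreeGroup.mk [] : FreeGroup (Fin n)) = 1 := rfl
    rw [h1, h2, map_one, mul_one]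
    exact (h k).trans (le_max_left _ _)
  · rw [List.take_of_length_le hk]
    exact (hν.mul _ _).trans ((Nat.add_le_add ha (h' _)).trans (le_max_right _ _))

theorem PB.bigon (h : PB ν π r L) (h' : PB ν π r L')
    (he : π (FreeGroup.mk L) = π (FreeGroup.mk L')) :
    PB ν π r (L ++ FreeGroup.invRev L') := by
  intro k
  rw [List.take_append, ← FreeGroup.mul_mk, map_mul]
  rcases Nat.le_total k L.length with hk | hk
  · have h1 : (FreeGroup.invRev L').take (k - L.length) = [] := by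
      rw [Nat.sub_eq_zero_of_le hk, List.take_zero]
    have h2 : (FreeGroup.mk [] : FreeGroup (Fin n)) = 1 := rfl
    rw [h1, h2, map_one, mul_one]
    exact h k
  · rw [List.take_of_length_le hk]
    set j := k - L.length
    have h3 : (FreeGroup.invRev L').take j = FreeGroup.invRev (L'.drop (L'.length - j)) := by
      unfold FreeGroup.invRev
      rw [List.take_reverse, List.length_map, List.map_drop]
    rw [h3, ← FreeGroup.inv_mk, map_inv, he]
    have h4 : π (FreeGroup.mk L') = π (FreeGroup.mk (L'.take (L'.length - j))) *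
        π (FreeGroup.mk (L'.drop (L'.length - j))) := by
      rw [← map_mul, FreeGroup.mul_mk, List.take_append_drop]
    rw [h4, mul_inv_cancel_right]
    exact h' _

end

/-- Data of a finitely presented group acting on a tree, with a length function. -/
structure EData (G V : Type*) [Group G] [MulAction G V] where
  H : Subgroup G
  P : SPres H
  Q : ∀ o : V, SPres (H ⊓ stabilizer G o)
  φ : ∀ o : V, FreeGroup (Fin (Q o).n) →* FreeGroup (Fin P.n)
  hφ : ∀ o z, P.π (φ o z) = (Q o).π z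
  X : Set V
  Xfin : X.Finite
  sep : ∀ o ∈ X, ∀ o' ∈ X, ∀ h ∈ H, h • o = o' → o = o'
  B : Set (FreeGroup (Fin P.n))
  Bfin : B.Finite
  T : SimpleGraph V
  adj : ∀ (g : G) (x y : V), T.Adj x y → T.Adj (g • x) (g • y)
  d : V → V → V
  d1 : ∀ x p, T.Adj x p → d x p = p
  d3 : ∀ x p q, p ≠ x → q ≠ x → T.Adj p q → d x p = d x q
  ν : G → ℕ
  len : IsLen ν
  tame : ∀ x y, T.Adj x y → TameExp ν (H ⊓ stabilizer G x ⊓ stabilizer G y)

namespace EData

variable {G : Type*} [Group G] {V : Type*} [MulAction G V] (A : EData G V)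

/-- the relators as a set -/
abbrev R : Set (FreeGroup (Fin A.P.n)) := (A.P.R : Set (FreeGroup (Fin A.P.n)))

/-- States. -/
abbrev St : Type _ := FreeGroup (Fin A.P.n) × V

/-- The position of a state. -/
def pos (a : A.St) : V := A.P.π a.1 • a.2

/-- Steps. -/
def Step (a b : A.St) : Prop :=
  a.2 ∈ A.X ∧ b.2 ∈ A.X ∧ a.1⁻¹ * b.1 ∈ A.B ∧ (A.pos a = A.pos b ∨ A.T.Adj (A.pos a) (A.pos b))

/-- Uniform constants. -/
structure Consts (K : ℕ) : Prop where
  k1 : ∀ o ∈ A.X, ∀ r ∈ ((A.Q o).R : Set (FreeGroup (Fin (A.Q o).n))), AreaLE A.R K (A.φ o r)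
  k2 : ∀ o ∈ A.X, ∀ β ∈ A.B, A.P.π β ∈ stabilizer G o →
    ∃ k, k.length ≤ K ∧ PB A.ν (A.Q o).π K k ∧ Near A.R K β (A.φ o (FreeGroup.mk k))
  k3 : ∀ o ∈ A.X, ∀ o' ∈ A.X, ∀ β ∈ A.B, A.T.Adj o (A.P.π β • o') →
    ∀ N, ∀ e ∈ A.H ⊓ stabilizer G o', A.ν e ≤ N →
      A.P.π β * e * (A.P.π β)⁻¹ ∈ stabilizer G o →
      ∃ a b, (A.Q o').π (FreeGroup.mk a) = e ∧ a.length ≤ K ^ (N + 1) ∧ b.length ≤ K ^ (N + 1) ∧
        PB A.ν (A.Q o').π (K * (N + 1)) a ∧ PB A.ν (A.Q o).π (K * (N + 1)) b ∧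
        Near A.R (K ^ (N + 1)) (β * A.φ o' (FreeGroup.mk a) * β⁻¹) (A.φ o (FreeGroup.mk b))
  k4 : ∀ o ∈ A.X, ∀ o' ∈ A.X, ∀ β ∈ A.B, ∀ β' ∈ A.B, ∀ k ∈ A.H ⊓ stabilizer G o',
    A.P.π β * k * A.P.π β' ∈ stabilizer G o →
    ∃ k0 κ, k0.length ≤ K ∧ κ.length ≤ K ∧ PB A.ν (A.Q o').π K k0 ∧ PB A.ν (A.Q o).π K κ ∧
      Near A.R K (β * A.φ o' (FreeGroup.mk k0) * β') (A.φ o (FreeGroup.mk κ))

/-- Steps inside the ball of radius `r`. -/
def RStep (r : ℕ) (a b : A.St) : Prop := A.Step a b ∧ A.ν (A.P.π a.1) ≤ r ∧ A.ν (A.P.π b.1) ≤ r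

/-- Paths of states inside the ball of radius `r`. -/
inductive PRel (r : ℕ) : ℕ → A.St → A.St → Prop
  | refl (a : A.St) : A.ν (A.P.π a.1) ≤ r → PRel r 0 a a
  | snoc {n : ℕ} {a b c : A.St} : PRel r n a b → A.RStep r b c → PRel r (n + 1) a c

end EData

end Pda3a14
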