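import Pool.Agent.Lib.Pda3a14.SConst
import Pool.Agent.Lib.Pda3a14.EDefs

/-!
# Constants for tame exponential distortion (module EConst)

Template: `TData.exists_consts` and `const_edge` in SConst.lean (same structure, with lists and the
partial value bounds `PB`). For `k3`: let `E = H ⊓ Stab o' ⊓ Stab (β⁻¹ o)` (`A.tame _ _ hadj.symm`),
generators `T`, constant `C`. Every `t ∈ T ∪ T⁻¹` gets lists `a_t`, `b_t` with values `t`,
`β t β⁻¹`, lengths, `PB` and `Near` constant at most `M`. For `e` with `ν e ≤ N` take the list `l` of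
`TameExp` and `a = l.flatMap a_t`, `b = l.flatMap b_t`: length `≤ C ^ (N + 1) * M`, `Near` constant the
same, and every partial value of `a` is `(l.take j).prod * (partial value of some a_t)`, of length
`≤ C (N + 1) + M` (prove by induction on `l` from the right: `PB.append`); for `b` the partial
values are `β (l.take j).prod β⁻¹ * (partial value of b_t)`, of length
`≤ 2 ν(π β) + C (N + 1) + M`. Everything is at most `K ^ (N + 1)`, `K * (N + 1)` for
`K = C * (M + 1) + M + 2 ν(π β) + 1` or larger (finitely many `β, o, o'`: `exists_uniform`; the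
properties are monotone in `K`).
-/

namespace Pda3a14

open MulAction

variable {G : Type*} [Group G] {V : Type*} [MulAction G V]

/-- every word has bounded partial values -/
theorem exists_PB {n : ℕ} (ν : G → ℕ) (π : FreeGroup (Fin n) →* G) (L : List (Fin n × Bool)) :
    ∃ r, PB ν π r L := by
  refine ⟨(Finset.range (L.length + 1)).sup fun k => ν (π (FreeGroup.mk (L.take k))), fun k => ?_⟩
  rcases Nat.le_total k L.length with hk | hk
  · exact Finset.le_sup (f := fun k => ν (π (FreeGroup.mk (L.take k))))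
      (Finset.mem_range.2 (Nat.lt_succ_of_le hk))
  · have h1 : L.take k = L.take L.length := by
      rw [List.take_of_length_le hk, List.take_length]
    rw [h1]
    exact Finset.le_sup (f := fun k => ν (π (FreeGroup.mk (L.take k))))
      (Finset.mem_range.2 (Nat.lt_succ_self _))

/-- a word for an element of a presented subgroup, as a list -/
theorem SPres.exists_list {H : Subgroup G} (P : SPres H) {h : G} (hh : h ∈ H) :
    ∃ L, P.π (FreeGroup.mk L) = h := by
  obtain ⟨w, hw⟩ := P.exists_word hh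
  exact ⟨w.toWord, by rw [FreeGroup.mk_toWord, hw]⟩

theorem const_edgeE {ν : G → ℕ} (hν : IsLen ν) {H : Subgroup G} (P : SPres H) {o o' : V}
    (Q : SPres (H ⊓ stabilizer G o)) (Q' : SPres (H ⊓ stabilizer G o'))
    (φ : FreeGroup (Fin Q.n) →* FreeGroup (Fin P.n))
    (φ' : FreeGroup (Fin Q'.n) →* FreeGroup (Fin P.n)) (hφ : ∀ z, P.π (φ z) = Q.π z)
    (hφ' : ∀ z, P.π (φ' z) = Q'.π z) (β : FreeGroup (Fin P.n)) (E : Subgroup G)
    (hE1 : E ≤ H ⊓ stabilizer G o') (hE2 : ∀ e ∈ E, P.π β * e * (P.π β)⁻¹ ∈ stabilizer G o)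
    (hU : TameExp ν E) :
    ∃ K, ∀ N, ∀ e ∈ E, ν e ≤ N →
      ∃ a b, Q'.π (FreeGroup.mk a) = e ∧ a.length ≤ K ^ (N + 1) ∧ b.length ≤ K ^ (N + 1) ∧
        PB ν Q'.π (K * (N + 1)) a ∧ PB ν Q.π (K * (N + 1)) b ∧
        Near (P.R : Set (FreeGroup (Fin P.n))) (K ^ (N + 1)) (β * φ' (FreeGroup.mk a) * β⁻¹)
          (φ (FreeGroup.mk b)) := by
  obtain ⟨T, C, hT, hc⟩ := hU
  have hTE : ∀ t ∈ ((T : Set G) ∪ (T : Set G)⁻¹), t ∈ E := by
    intro t ht
    rcases ht with ht | ht
    · rw [← hT]; exact Subgroup.subset_closure ht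
    · have : t⁻¹ ∈ E := by rw [← hT]; exact Subgroup.subset_closure ht
      simpa using E.inv_mem this
  obtain ⟨M, hM⟩ := exists_uniform (s := (T : Set G) ∪ (T : Set G)⁻¹)
    (T.finite_toSet.union T.finite_toSet.inv)
    (fun t m => ∃ a b, Q'.π (FreeGroup.mk a) = t ∧
      Q.π (FreeGroup.mk b) = P.π β * t * (P.π β)⁻¹ ∧ a.length ≤ m ∧ b.length ≤ m ∧
      PB ν Q'.π m a ∧ PB ν Q.π m b ∧
      Near (P.R : Set (FreeGroup (Fin P.n))) m (β * φ' (FreeGroup.mk a) * β⁻¹)
        (φ (FreeGroup.mk b)))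
    (by
      rintro t m n hmn ⟨a, b, h1, h2, h3, h4, h5, h6, h7⟩
      exact ⟨a, b, h1, h2, h3.trans hmn, h4.trans hmn, h5.mono hmn, h6.mono hmn, h7.mono hmn⟩)
    (by
      intro t ht
      have htE := hTE t ht
      obtain ⟨a, ha⟩ := Q'.exists_list (hE1 htE)
      have hb1 : P.π β * t * (P.π β)⁻¹ ∈ H ⊓ stabilizer G o := by
        refine ⟨?_, hE2 t htE⟩
        exact H.mul_mem (H.mul_mem (P.π_mem β) (hE1 htE).1) (H.inv_mem (P.π_mem β))
      obtain ⟨b, hb⟩ := Q.exists_list hb1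
      have e : P.π (β * φ' (FreeGroup.mk a) * β⁻¹) = P.π (φ (FreeGroup.mk b)) := by
        rw [map_mul, map_mul, map_inv, hφ', hφ, ha, hb]
      obtain ⟨m, hm⟩ := P.near_of_eq e
      obtain ⟨ra, hra⟩ := exists_PB ν Q'.π a
      obtain ⟨rb, hrb⟩ := exists_PB ν Q.π b
      exact ⟨a.length + b.length + m + ra + rb, a, b, ha, hb, by omega, by omega,
        hra.mono (by omega), hrb.mono (by omega), hm.mono (by omega)⟩)
  have key : ∀ (D : ℕ) (l : List G), (∀ s ∈ l, s ∈ T ∨ s⁻¹ ∈ T) →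
      (∀ k, ν (l.take k).prod ≤ D) →
      ∃ a b, Q'.π (FreeGroup.mk a) = l.prod ∧
        Q.π (FreeGroup.mk b) = P.π β * l.prod * (P.π β)⁻¹ ∧
        a.length ≤ l.length * M ∧ b.length ≤ l.length * M ∧
        PB ν Q'.π (D + M) a ∧ PB ν Q.π (2 * ν (P.π β) + D + M) b ∧
        Near (P.R : Set (FreeGroup (Fin P.n))) (l.length * M) (β * φ' (FreeGroup.mk a) * β⁻¹)
          (φ (FreeGroup.mk b)) := by
    intro D l
    induction l using List.reverseRecOn with
    | nil =>
      intro _ _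
      have h0 : (FreeGroup.mk [] : FreeGroup (Fin Q'.n)) = 1 := rfl
      have h0' : (FreeGroup.mk [] : FreeGroup (Fin Q.n)) = 1 := rfl
      refine ⟨[], [], by rw [h0, map_one, List.prod_nil], by
        rw [h0', map_one, List.prod_nil]; group, by simp, by simp, PB.nil hν, PB.nil hν, ?_⟩
      have : β * φ' (FreeGroup.mk []) * β⁻¹ = φ (FreeGroup.mk []) := by
        rw [h0, h0', map_one, map_one]; group
      rw [this]
      exact (Near.refl _).mono (Nat.zero_le _)
    | append_singleton l t ih =>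
      intro hl hD
      have hD' : ∀ k, ν (l.take k).prod ≤ D := by
        intro k
        have h1 : l.take k = (l ++ [t]).take (min k l.length) := by
          rw [List.take_append_of_le_length (min_le_right _ _)]
          rcases Nat.le_total k l.length with hk | hk
          · rw [min_eq_left hk]
          · rw [min_eq_right hk, List.take_length, List.take_of_length_le hk]
        rw [h1]
        exact hD _
      obtain ⟨a, b, h1, h2, h3, h4, h5, h6, h7⟩ :=
        ih (fun s hs => hl s (List.mem_append_left _ hs)) hD'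
      have ht : t ∈ ((T : Set G) ∪ (T : Set G)⁻¹) := by
        rcases hl t (by simp) with h | h
        · left; exact h
        · right; exact h
      obtain ⟨a', b', h1', h2', h3', h4', h5', h6', h7'⟩ := hM t ht
      have hDl : ν l.prod ≤ D := by
        have := hD' l.length
        rwa [List.take_length] at this
      refine ⟨a ++ a', b ++ b', ?_, ?_, ?_, ?_, ?_, ?_, ?_⟩
      · rw [← FreeGroup.mul_mk, map_mul, h1, h1', List.prod_append, List.prod_singleton]
      · rw [← FreeGroup.mul_mk, map_mul, h2, h2', List.prod_append, List.prod_singleton]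
        group
      · rw [List.length_append, List.length_append, List.length_singleton, add_mul, one_mul]
        omega
      · rw [List.length_append, List.length_append, List.length_singleton, add_mul, one_mul]
        omega
      · have := PB.append hν h5 (a := D) (by rw [h1]; exact hDl) h5'
        rwa [max_self] at this
      · have hb : ν (Q.π (FreeGroup.mk b)) ≤ 2 * ν (P.π β) + D := by
          rw [h2]
          have e1 := hν.mul (P.π β * l.prod) (P.π β)⁻¹
          have e2 := hν.mul (P.π β) l.prod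
          rw [hν.inv] at e1
          omega
        have := PB.append hν h6 hb h6'
        rwa [max_self] at this
      · have h8 := h7.mul h7'
        have e1 : β * φ' (FreeGroup.mk a) * β⁻¹ * (β * φ' (FreeGroup.mk a') * β⁻¹) =
            β * φ' (FreeGroup.mk (a ++ a')) * β⁻¹ := by
          rw [← FreeGroup.mul_mk, map_mul]; group
        rw [e1, ← map_mul, FreeGroup.mul_mk] at h8
        apply h8.mono
        rw [List.length_append, List.length_singleton, add_mul, one_mul]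
  refine ⟨C * (M + 1) + C + M + 2 * ν (P.π β) + 1, fun N e he hN => ?_⟩
  obtain ⟨l, hl1, hl2, hl3, hl4⟩ := hc N e he hN
  obtain ⟨a, b, h1, h2, h3, h4, h5, h6, h7⟩ := key (C * (N + 1)) l hl2 hl4
  have hpow : l.length * M ≤ (C * (M + 1) + C + M + 2 * ν (P.π β) + 1) ^ (N + 1) := by
    calc l.length * M ≤ C ^ (N + 1) * M := Nat.mul_le_mul_right _ hl1
      _ ≤ C ^ (N + 1) * (M + 1) ^ (N + 1) := by
          apply Nat.mul_le_mul_left
          exact (Nat.le_succ M).trans (Nat.le_self_pow (Nat.succ_ne_zero N) _)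
      _ = (C * (M + 1)) ^ (N + 1) := by rw [mul_pow]
      _ ≤ _ := Nat.pow_le_pow_left (by omega) _
  have hlin : 2 * ν (P.π β) + C * (N + 1) + M ≤
      (C * (M + 1) + C + M + 2 * ν (P.π β) + 1) * (N + 1) := by
    have e1 : (C * (M + 1) + C + M + 2 * ν (P.π β) + 1) * (N + 1) =
        (C * (M + 1) + 1) * (N + 1) + C * (N + 1) + M * (N + 1) + 2 * ν (P.π β) * (N + 1) := by
      ring
    have e2 : M ≤ M * (N + 1) := Nat.le_mul_of_pos_right _ (Nat.succ_pos _)
    have e3 : 2 * ν (P.π β) ≤ 2 * ν (P.π β) * (N + 1) :=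
      Nat.le_mul_of_pos_right _ (Nat.succ_pos _)
    omega
  exact ⟨a, b, h1.trans hl3, h3.trans hpow, h4.trans hpow, h5.mono (by omega),
    h6.mono hlin, h7.mono hpow⟩

namespace EData

variable (A : EData G V)

theorem exists_consts : ∃ K, A.Consts K := by
  -- k1
  obtain ⟨K1, hK1⟩ := exists_uniform A.Xfin
    (fun o K => ∀ r ∈ ((A.Q o).R : Set (FreeGroup (Fin (A.Q o).n))), AreaLE A.R K (A.φ o r))
    (fun o m n hmn h r hr => (h r hr).mono hmn)
    (by
      intro o _
      apply exists_uniform (A.Q o).R.finite_toSet (fun r K => AreaLE A.R K (A.φ o r))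
        (fun r m n hmn h => h.mono hmn)
      intro r hr
      have h1 : (A.Q o).π r = 1 := by
        rw [← MonoidHom.mem_ker, (A.Q o).ker]
        exact Subgroup.subset_normalClosure hr
      have h2 : A.P.π (A.φ o r) = A.P.π 1 := by rw [A.hφ, h1, map_one]
      obtain ⟨m, hm⟩ := A.P.near_of_eq h2
      refine ⟨m, ?_⟩
      simpa [Near] using hm)
  -- k2
  obtain ⟨K2, hK2⟩ := exists_uniform (A.Xfin.prod A.Bfin)
    (fun i K => A.P.π i.2 ∈ stabilizer G i.1 → ∃ k : List (Fin (A.Q i.1).n × Bool),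
      k.length ≤ K ∧ PB A.ν (A.Q i.1).π K k ∧ Near A.R K i.2 (A.φ i.1 (FreeGroup.mk k)))
    (by
      rintro i m n hmn h hi
      obtain ⟨k, h1, h2, h3⟩ := h hi
      exact ⟨k, h1.trans hmn, h2.mono hmn, h3.mono hmn⟩)
    (by
      rintro ⟨o, β⟩ _
      by_cases h : A.P.π β ∈ stabilizer G o
      · obtain ⟨k, hk⟩ := (A.Q o).exists_list (h := A.P.π β) ⟨A.P.π_mem β, h⟩
        have e : A.P.π β = A.P.π (A.φ o (FreeGroup.mk k)) := by rw [A.hφ, hk]
        obtain ⟨m, hm⟩ := A.P.near_of_eq e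
        obtain ⟨r, hr⟩ := exists_PB A.ν (A.Q o).π k
        exact ⟨k.length + m + r, fun _ => ⟨k, by dsimp only; omega, hr.mono (by omega),
          hm.mono (by omega)⟩⟩
      · exact ⟨0, fun h' => absurd h' h⟩)
  -- k3
  obtain ⟨K3, hK3⟩ := exists_uniform (A.Xfin.prod (A.Xfin.prod A.Bfin))
    (fun i K => A.T.Adj i.1 (A.P.π i.2.2 • i.2.1) →
      ∀ N, ∀ e ∈ A.H ⊓ stabilizer G i.2.1, A.ν e ≤ N →
      A.P.π i.2.2 * e * (A.P.π i.2.2)⁻¹ ∈ stabilizer G i.1 →
      ∃ a b, (A.Q i.2.1).π (FreeGroup.mk a) = e ∧ a.length ≤ K ^ (N + 1) ∧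
        b.length ≤ K ^ (N + 1) ∧ PB A.ν (A.Q i.2.1).π (K * (N + 1)) a ∧
        PB A.ν (A.Q i.1).π (K * (N + 1)) b ∧
        Near A.R (K ^ (N + 1)) (i.2.2 * A.φ i.2.1 (FreeGroup.mk a) * i.2.2⁻¹)
          (A.φ i.1 (FreeGroup.mk b)))
    (by
      rintro i m n hmn h hi N e he h1 h2
      obtain ⟨a, b, h3, h4, h5, h6, h7, h8⟩ := h hi N e he h1 h2
      have e1 := Nat.mul_le_mul_right (N + 1) hmn
      have e2 := Nat.pow_le_pow_left hmn (N + 1)
      exact ⟨a, b, h3, h4.trans e2, h5.trans e2, h6.mono e1, h7.mono e1, h8.mono e2⟩)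
    (by
      rintro ⟨o, o', β⟩ _
      by_cases h : A.T.Adj o (A.P.π β • o')
      · have hadj : A.T.Adj ((A.P.π β)⁻¹ • o) o' := by
          have := A.adj (A.P.π β)⁻¹ _ _ h
          rwa [inv_smul_smul] at this
        obtain ⟨K, hK⟩ := const_edgeE A.len A.P (A.Q o) (A.Q o') (A.φ o) (A.φ o') (A.hφ o)
          (A.hφ o') β
          (A.H ⊓ stabilizer G o' ⊓ stabilizer G ((A.P.π β)⁻¹ • o)) inf_le_left
          (by
            intro e he
            have h2 : e • ((A.P.π β)⁻¹ • o) = (A.P.π β)⁻¹ • o := he.2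
            rw [mem_stabilizer_iff, mul_smul, mul_smul, h2, smul_inv_smul])
          (A.tame _ _ hadj.symm)
        refine ⟨K, fun _ N e he h1 h2 => ?_⟩
        apply hK N e _ h1
        refine ⟨he, ?_⟩
        change e • ((A.P.π β)⁻¹ • o) = (A.P.π β)⁻¹ • o
        have h3 : (A.P.π β * e * (A.P.π β)⁻¹) • o = o := h2
        rw [mul_smul, mul_smul] at h3
        rw [eq_inv_smul_iff]
        exact h3
      · exact ⟨0, fun h' => absurd h' h⟩)
  -- k4
  obtain ⟨K4, hK4⟩ := exists_uniform (A.Xfin.prod (A.Xfin.prod (A.Bfin.prod A.Bfin)))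
    (fun i K => ∀ k ∈ A.H ⊓ stabilizer G i.2.1,
      A.P.π i.2.2.1 * k * A.P.π i.2.2.2 ∈ stabilizer G i.1 →
      ∃ (k0 : List (Fin (A.Q i.2.1).n × Bool)) (κ : List (Fin (A.Q i.1).n × Bool)),
        k0.length ≤ K ∧ κ.length ≤ K ∧ PB A.ν (A.Q i.2.1).π K k0 ∧ PB A.ν (A.Q i.1).π K κ ∧
        Near A.R K (i.2.2.1 * A.φ i.2.1 (FreeGroup.mk k0) * i.2.2.2)
          (A.φ i.1 (FreeGroup.mk κ)))
    (by
      rintro i m n hmn h k hk h1
      obtain ⟨k0, κ, h2, h3, h4, h5, h6⟩ := h k hk h1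
      exact ⟨k0, κ, h2.trans hmn, h3.trans hmn, h4.mono hmn, h5.mono hmn, h6.mono hmn⟩)
    (by
      rintro ⟨o, o', β, β'⟩ _
      by_cases h : ∃ k ∈ A.H ⊓ stabilizer G o', A.P.π β * k * A.P.π β' ∈ stabilizer G o
      · obtain ⟨k, hk, h1⟩ := h
        obtain ⟨k0, hk0⟩ := (A.Q o').exists_list hk
        have h2 : A.P.π β * k * A.P.π β' ∈ A.H ⊓ stabilizer G o :=
          ⟨A.H.mul_mem (A.H.mul_mem (A.P.π_mem β) hk.1) (A.P.π_mem β'), h1⟩
        obtain ⟨κ, hκ⟩ := (A.Q o).exists_list h2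
        have e : A.P.π (β * A.φ o' (FreeGroup.mk k0) * β') = A.P.π (A.φ o (FreeGroup.mk κ)) := by
          rw [map_mul, map_mul, A.hφ, A.hφ, hk0, hκ]
        obtain ⟨m, hm⟩ := A.P.near_of_eq e
        obtain ⟨r0, hr0⟩ := exists_PB A.ν (A.Q o').π k0
        obtain ⟨r1, hr1⟩ := exists_PB A.ν (A.Q o).π κ
        exact ⟨k0.length + κ.length + m + r0 + r1, fun _ _ _ =>
          ⟨k0, κ, by dsimp only; omega, by dsimp only; omega, hr0.mono (by omega),
            hr1.mono (by omega), hm.mono (by omega)⟩⟩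
      · exact ⟨0, fun k hk h1 => absurd ⟨k, hk, h1⟩ h⟩)
  refine ⟨K1 + K2 + K3 + K4, ⟨?_, ?_, ?_, ?_⟩⟩
  · intro o ho r hr
    exact (hK1 o ho r hr).mono (by omega)
  · intro o ho β hβ h
    obtain ⟨k, h1, h2, h3⟩ := hK2 (o, β) ⟨ho, hβ⟩ h
    exact ⟨k, by omega, h2.mono (by omega), h3.mono (by omega)⟩
  · intro o ho o' ho' β hβ h N e he h1 h2
    obtain ⟨a, b, h3, h4, h5, h6, h7, h8⟩ := hK3 (o, o', β) ⟨ho, ho', hβ⟩ h N e he h1 h2
    have hle : K3 ≤ K1 + K2 + K3 + K4 := by omega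
    have e1 : K3 * (N + 1) ≤ (K1 + K2 + K3 + K4) * (N + 1) := Nat.mul_le_mul_right _ hle
    have e2 : K3 ^ (N + 1) ≤ (K1 + K2 + K3 + K4) ^ (N + 1) := Nat.pow_le_pow_left hle _
    exact ⟨a, b, h3, h4.trans e2, h5.trans e2, h6.mono e1, h7.mono e1, h8.mono e2⟩
  · intro o ho o' ho' β hβ β' hβ' k hk h1
    obtain ⟨k0, κ, h2, h3, h4, h5, h6⟩ := hK4 (o, o', β, β') ⟨ho, ho', hβ, hβ'⟩ k hk h1
    exact ⟨k0, κ, by omega, by omega, h4.mono (by omega), h5.mono (by omega),
      h6.mono (by omega)⟩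

end EData

end Pda3a14
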