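import Pool.Agent.Lib.Pda3a14.EDefs

/-!
# Filling closed paths (tame exponential version)
-/

namespace Pda3a14

open MulAction

namespace EData

variable {G : Type*} [Group G] {V : Type*} [MulAction G V] (A : EData G V)

theorem sep_pos {a b : A.St} (ha : a.2 ∈ A.X) (hb : b.2 ∈ A.X) (h : A.pos a = A.pos b) :
    a.2 = b.2 := by
  apply A.sep _ ha _ hb ((A.P.π b.1)⁻¹ * A.P.π a.1)
    (A.H.mul_mem (A.H.inv_mem (A.P.π_mem _)) (A.P.π_mem _))
  unfold pos at h
  rw [mul_smul, h, inv_smul_smul]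

theorem exists_last {q : V} (f : ℕ → V) (i j : ℕ) (hij : i < j) (hi : f i = q) :
    ∃ l, i ≤ l ∧ l < j ∧ f l = q ∧ ∀ m, l < m → m < j → f m ≠ q := by
  induction j with
  | zero => omega
  | succ j ih =>
    by_cases h : f j = q
    · exact ⟨j, by omega, by omega, h, fun m h1 h2 => by omega⟩
    · have hlt : i < j := by
        rcases Nat.lt_or_ge i j with h2 | h2
        · exact h2
        · have : i = j := by omega
          rw [this] at hi
          exact absurd hi h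
      obtain ⟨l, h1, h2, h3, h4⟩ := ih hlt
      refine ⟨l, h1, by omega, h3, fun m hm1 hm2 => ?_⟩
      by_cases hm : m = j
      · rw [hm]; exact h
      · exact h4 m hm1 (by omega)

theorem dir_const {q : V} (u : ℕ → A.St) (N : ℕ) (hu : ∀ j < N, A.Step (u j) (u (j + 1)))
    (l j : ℕ) (hj : j ≤ N) (hne : ∀ m, l < m → m < j → A.pos (u m) ≠ q) :
    ∀ n, l + 1 + n < j → A.d q (A.pos (u (l + 1))) = A.d q (A.pos (u (l + 1 + n))) := by
  intro n
  induction n with
  | zero => intro _; rfl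
  | succ n ih =>
    intro h
    rw [ih (by omega)]
    rcases (hu (l + 1 + n) (by omega)).2.2.2 with h1 | h1
    · rw [h1]; rfl
    · exact A.d3 q _ _ (hne _ (by omega) (by omega)) (hne _ (by omega) (by omega)) h1

/-- An excursion over an edge. -/
theorem excursion {K : ℕ} (hK : A.Consts K) (D : ℕ → ℕ → ℕ)
    (hD : ∀ o ∈ A.X, ∀ (ℓ r : ℕ) (L : List (Fin (A.Q o).n × Bool)), L.length ≤ ℓ →
      PB A.ν (A.Q o).π r L → (A.Q o).π (FreeGroup.mk L) = 1 →
      AreaLE ((A.Q o).R : Set (FreeGroup (Fin (A.Q o).n))) (D ℓ r) (FreeGroup.mk L))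
    {o o' : V} (ho : o ∈ A.X) (ho' : o' ∈ A.X) {β β' w : FreeGroup (Fin A.P.n)} (hβ : β ∈ A.B)
    (hβ' : β' ∈ A.B) {v2 : List (Fin (A.Q o').n × Bool)} {m2 : ℕ}
    (hn2 : Near A.R m2 w (A.φ o' (FreeGroup.mk v2)))
    (hfix : A.P.π β * A.P.π w * A.P.π β' ∈ stabilizer G o)
    (hadj : A.T.Adj o (A.P.π β • o')) {n b L R : ℕ} (hwn : A.ν (A.P.π w) ≤ n)
    (hv2 : v2.length ≤ b) (hpb : PB A.ν (A.Q o').π R v2)
    (hL : b + (K ^ (n + K + 1) + K) ≤ L) (hR : K * (n + K + 1) + K ≤ R) :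
    ∃ z : List (Fin (A.Q o).n × Bool), z.length ≤ K ^ (n + K + 1) + K ∧
      PB A.ν (A.Q o).π (K * (n + K + 1) + K) z ∧
      Near A.R (m2 + D L R * K + (K ^ (n + K + 1) + K)) (β * w * β')
        (A.φ o (FreeGroup.mk z)) := by
  have hν := A.len
  have hwπ : A.P.π w = (A.Q o').π (FreeGroup.mk v2) := by
    rw [A.P.near_π hn2, A.hφ]
  have hk : A.P.π w ∈ A.H ⊓ stabilizer G o' := by
    rw [hwπ]; exact (A.Q o').π_mem _
  obtain ⟨k0, κ, hk1, hk2, hk3, hk4, hk5⟩ := hK.k4 o ho o' ho' β hβ β' hβ' _ hk hfix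
  have hκ : A.P.π β * (A.Q o').π (FreeGroup.mk k0) * A.P.π β' ∈ stabilizer G o := by
    have := A.P.near_π hk5
    rw [map_mul, map_mul, A.hφ, A.hφ] at this
    rw [this]
    exact ((A.Q o).π_mem _).2
  -- the edge element
  set e := A.P.π w * ((A.Q o').π (FreeGroup.mk k0))⁻¹ with he
  have hen : A.ν e ≤ n + K := by
    have h1 := hν.mul (A.P.π w) ((A.Q o').π (FreeGroup.mk k0))⁻¹
    rw [hν.inv, ← he] at h1
    have h2 := hk3.full
    omega
  have he1 : e ∈ A.H ⊓ stabilizer G o' :=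
    Subgroup.mul_mem _ hk (Subgroup.inv_mem _ ((A.Q o').π_mem _))
  have he2 : A.P.π β * e * (A.P.π β)⁻¹ ∈ stabilizer G o := by
    have h1 := Subgroup.mul_mem _ hfix (Subgroup.inv_mem _ hκ)
    have e2 : A.P.π β * A.P.π w * A.P.π β' *
        (A.P.π β * (A.Q o').π (FreeGroup.mk k0) * A.P.π β')⁻¹ =
        A.P.π β * e * (A.P.π β)⁻¹ := by
      rw [he]; group
    rwa [e2] at h1
  obtain ⟨a', b', ha1, ha2, hb2, ha3, hb3, hab⟩ :=
    hK.k3 o ho o' ho' β hβ hadj (n + K) e he1 hen he2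
  have hpow : n + K + 1 = n + K + 1 := rfl
  -- compare in the vertex group
  have hval : (A.Q o').π (FreeGroup.mk v2) = (A.Q o').π (FreeGroup.mk (a' ++ k0)) := by
    rw [← FreeGroup.mul_mk, map_mul, ha1, he, ← hwπ, inv_mul_cancel_right]
  have hpb2 : PB A.ν (A.Q o').π R (a' ++ k0) := by
    have h1 := ha3.append hν ha3.full hk3
    apply h1.mono
    apply max_le <;> omega
  have hloop := hpb.bigon hpb2 hval
  have hlen : (v2 ++ FreeGroup.invRev (a' ++ k0)).length ≤ L := by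
    rw [List.length_append, FreeGroup.invRev_length, List.length_append]
    omega
  have hz1 : (A.Q o').π (FreeGroup.mk (v2 ++ FreeGroup.invRev (a' ++ k0))) = 1 := by
    rw [← FreeGroup.mul_mk, ← FreeGroup.inv_mk, map_mul, map_inv, hval, mul_inv_cancel]
  have harea := hD o' ho' L R _ hlen hloop hz1
  have hnear0 : Near ((A.Q o').R : Set (FreeGroup (Fin (A.Q o').n))) (D L R)
      (FreeGroup.mk v2) (FreeGroup.mk (a' ++ k0)) := by
    unfold Near
    rwa [FreeGroup.inv_mk, FreeGroup.mul_mk]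
  have hnear1 := Near.map' (A.φ o') (hK.k1 o' ho') hnear0
  have s1 : Near A.R m2 (β * w * β') (β * A.φ o' (FreeGroup.mk v2) * β') :=
    (hn2.mul_left β).mul_right β'
  have s2 := (hnear1.mul_left β).mul_right β'
  have s3 := hab.mul hk5
  have e3 : β * A.φ o' (FreeGroup.mk a') * β⁻¹ * (β * A.φ o' (FreeGroup.mk k0) * β') =
      β * A.φ o' (FreeGroup.mk (a' ++ k0)) * β' := by
    rw [← FreeGroup.mul_mk, map_mul]; group
  rw [e3, ← map_mul, FreeGroup.mul_mk] at s3
  refine ⟨b' ++ κ, ?_, ?_, (s1.trans s2).trans s3⟩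
  · rw [List.length_append]; omega
  · have h1 := hb3.append hν hb3.full hk4
    apply h1.mono
    apply max_le <;> omega

theorem fill {K : ℕ} (hK : A.Consts K) (D : ℕ → ℕ → ℕ)
    (hD : ∀ o ∈ A.X, ∀ (ℓ r : ℕ) (L : List (Fin (A.Q o).n × Bool)), L.length ≤ ℓ →
      PB A.ν (A.Q o).π r L → (A.Q o).π (FreeGroup.mk L) = 1 →
      AreaLE ((A.Q o).R : Set (FreeGroup (Fin (A.Q o).n))) (D ℓ r) (FreeGroup.mk L))
    (u : ℕ → A.St) (N : ℕ) (hu : ∀ j < N, A.Step (u j) (u (j + 1))) (n : ℕ)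
    (hn : ∀ i j, i ≤ N → j ≤ N → A.ν (A.P.π ((u i).1⁻¹ * (u j).1)) ≤ n)
    (Λ R M : ℕ) (hΛ : Λ = K ^ (n + K + 1) + K) (hR : R = n + (K * (n + K + 1) + K))
    (hM : M = D ((N + 1) * Λ) R * K + Λ) :
    ∀ m i, i + m ≤ N → A.pos (u i) = A.pos (u (i + m)) → (u i).2 ∈ A.X →
      ∃ v : List (Fin (A.Q (u i).2).n × Bool), v.length ≤ m * Λ ∧ PB A.ν (A.Q (u i).2).π R v ∧
        Near A.R (m * M) ((u i).1⁻¹ * (u (i + m)).1) (A.φ (u i).2 (FreeGroup.mk v)) := by
  have hν := A.len
  intro m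
  induction m using Nat.strong_induction_on with
  | _ m ih =>
  intro i hin hpos hX
  obtain _ | m := m
  · refine ⟨[], by simp, PB.nil hν, ?_⟩
    have e0 : (FreeGroup.mk [] : FreeGroup (Fin (A.Q (u i).2).n)) = 1 := rfl
    have : (u i).1⁻¹ * (u (i + 0)).1 = A.φ (u i).2 (FreeGroup.mk []) := by
      rw [e0, map_one, Nat.add_zero, inv_mul_cancel]
    rw [this]
    exact (Near.refl _).mono (Nat.zero_le _)
  obtain ⟨hX1, hX2, hB, hstep⟩ := hu (i + m) (by omega)
  have hKΛ : K ≤ Λ := by omega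
  have hKM : K ≤ M := by omega
  rcases hstep with hs | hs
  · -- the last step does not move
    obtain ⟨v', hv1, hv3, hv2⟩ := ih m (by omega) i (by omega) (by rw [hpos, hs]; rfl) hX
    have ho : (u i).2 = (u (i + m)).2 := A.sep_pos hX hX1 (by rw [hpos, hs]; rfl)
    have ho' : (u i).2 = (u (i + m + 1)).2 := A.sep_pos hX hX2 (by rw [hpos]; rfl)
    obtain ⟨k, hk1, hk3, hk2⟩ := hK.k2 (u i).2 hX _ hB (by
      rw [mem_stabilizer_iff, map_mul, map_inv, mul_smul]
      unfold pos at hs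
      rw [← ho, ← ho'] at hs
      rw [← hs, inv_smul_smul])
    refine ⟨v' ++ k, ?_, ?_, ?_⟩
    · rw [List.length_append, Nat.succ_mul]; omega
    · have hval : A.ν ((A.Q (u i).2).π (FreeGroup.mk v')) ≤ n := by
        rw [← A.hφ, ← A.P.near_π hv2]
        exact hn i (i + m) (by omega) (by omega)
      have h1 := hv3.append hν hval hk3
      apply h1.mono
      apply max_le <;> omega
    · have h := hv2.mul hk2
      have e : (u i).1⁻¹ * (u (i + m)).1 * ((u (i + m)).1⁻¹ * (u (i + m + 1)).1) =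
          (u i).1⁻¹ * (u (i + (m + 1))).1 := by rw [← add_assoc]; group
      rw [e, ← map_mul, FreeGroup.mul_mk] at h
      apply h.mono
      rw [Nat.succ_mul]; omega
  · -- an excursion
    have hne1 : A.pos (u (i + m)) ≠ A.pos (u i) := by
      intro h
      rw [h, hpos] at hs
      exact hs.ne rfl
    obtain ⟨l, hl1, hl2, hl3, hl4⟩ := exists_last (q := A.pos (u i)) (fun m => A.pos (u m)) i
      (i + (m + 1)) (by omega) rfl
    obtain ⟨a, rfl⟩ := Nat.exists_eq_add_of_le hl1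
    have hla : a < m := by
      rcases Nat.lt_or_ge a m with h | h
      · exact h
      · have : a = m := by omega
        rw [this] at hl3
        exact absurd hl3 hne1
    obtain ⟨c, rfl⟩ : ∃ c, m = a + 1 + c := ⟨m - a - 1, by omega⟩
    obtain ⟨hY1, hY2, hB1, hstep1⟩ := hu (i + a) (by omega)
    have hadj1 : A.T.Adj (A.pos (u (i + a))) (A.pos (u (i + a + 1))) := by
      rcases hstep1 with h | h
      · exact absurd (h.symm.trans hl3) (hl4 (i + a + 1) (by omega) (by omega))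
      · exact h
    have hend : A.pos (u (i + a + 1)) = A.pos (u (i + a + 1 + c)) := by
      have h1 := A.dir_const (q := A.pos (u i)) u N hu (i + a) (i + (a + 1 + c + 1)) hin hl4 c
        (by omega)
      have h2 : A.d (A.pos (u i)) (A.pos (u (i + a + 1))) = A.pos (u (i + a + 1)) :=
        A.d1 _ _ (hl3 ▸ hadj1)
      have h3 : A.d (A.pos (u i)) (A.pos (u (i + a + 1 + c))) = A.pos (u (i + a + 1 + c)) := by
        apply A.d1
        rw [hpos]
        have e : i + (a + 1 + c) = i + a + 1 + c := by omega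
        rw [e] at hs
        have e2 : i + (a + 1 + c + 1) = i + a + 1 + c + 1 := by omega
        rw [e2]
        exact hs.symm
      rw [← h2, h1, h3]
    obtain ⟨v1, hv1, hp1, hn1⟩ := ih a (by omega) i (by omega) hl3.symm hX
    obtain ⟨v2, hv2, hp2, hn2⟩ := ih c (by omega) (i + a + 1) (by omega) hend hY2
    have e3 : i + (a + 1 + c) = i + a + 1 + c := by omega
    have e4 : i + (a + 1 + c + 1) = i + a + 1 + c + 1 := by omega
    rw [e3] at hX1 hX2 hB hs
    rw [e4] at hpos ⊢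
    have ho1 : (u i).2 = (u (i + a)).2 := A.sep_pos hX hY1 hl3.symm
    have ho2 : (u i).2 = (u (i + a + 1 + c + 1)).2 := A.sep_pos hX hX2 hpos
    have hfix : A.P.π ((u (i + a)).1⁻¹ * (u (i + a + 1)).1) *
        A.P.π ((u (i + a + 1)).1⁻¹ * (u (i + a + 1 + c)).1) *
        A.P.π ((u (i + a + 1 + c)).1⁻¹ * (u (i + a + 1 + c + 1)).1) ∈
        stabilizer G (u i).2 := by
      rw [mem_stabilizer_iff, ← map_mul, ← map_mul]
      have e : (u (i + a)).1⁻¹ * (u (i + a + 1)).1 * ((u (i + a + 1)).1⁻¹ *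
          (u (i + a + 1 + c)).1) * ((u (i + a + 1 + c)).1⁻¹ * (u (i + a + 1 + c + 1)).1) =
          (u (i + a)).1⁻¹ * (u (i + a + 1 + c + 1)).1 := by
        group
      rw [e, map_mul, map_inv, mul_smul, inv_smul_eq_iff]
      have h1 : A.pos (u (i + a + 1 + c + 1)) = A.pos (u (i + a)) := hpos.symm.trans hl3.symm
      unfold pos at h1
      rw [← ho1, ← ho2] at h1
      exact h1
    have hadj2 : A.T.Adj (u i).2
        (A.P.π ((u (i + a)).1⁻¹ * (u (i + a + 1)).1) • (u (i + a + 1)).2) := by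
      have h1 := A.adj (A.P.π (u (i + a)).1)⁻¹ _ _ hadj1
      unfold pos at h1
      rw [inv_smul_smul, ← ho1] at h1
      rw [map_mul, map_inv, mul_smul]
      exact h1
    have hwn := hn (i + a + 1) (i + a + 1 + c) (by omega) (by omega)
    have hlenN : c * Λ + (K ^ (n + K + 1) + K) ≤ (N + 1) * Λ := by
      have h1 : (c + 1) * Λ ≤ (N + 1) * Λ := Nat.mul_le_mul_right _ (by omega)
      have h2 : (c + 1) * Λ = c * Λ + Λ := by ring
      omega
    obtain ⟨z, hz1, hz3, hz2⟩ := A.excursion hK D hD hX hY2 hB1 hB hn2 hfix hadj2 hwn hv2 hp2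
      hlenN (by omega)
    refine ⟨v1 ++ z, ?_, ?_, ?_⟩
    · have h3 : (a + 1 + c + 1) * Λ = a * Λ + c * Λ + 2 * Λ := by ring
      rw [List.length_append]
      omega
    · have hval : A.ν ((A.Q (u i).2).π (FreeGroup.mk v1)) ≤ n := by
        rw [← A.hφ, ← A.P.near_π hn1]
        exact hn i (i + a) (by omega) (by omega)
      have h1 := hp1.append hν hval hz3
      apply h1.mono
      apply max_le <;> omega
    · have h1 := hn1.mul hz2
      have e : (u i).1⁻¹ * (u (i + a)).1 * ((u (i + a)).1⁻¹ * (u (i + a + 1)).1 *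
          ((u (i + a + 1)).1⁻¹ * (u (i + a + 1 + c)).1) *
          ((u (i + a + 1 + c)).1⁻¹ * (u (i + a + 1 + c + 1)).1)) =
          (u i).1⁻¹ * (u (i + a + 1 + c + 1)).1 := by
        group
      rw [e, ← map_mul, FreeGroup.mul_mk] at h1
      apply h1.mono
      have h2 : (a + 1 + c + 1) * M = a * M + c * M + 2 * M := by ring
      omega

end EData

end Pda3a14
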