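import Pool.Agent.Lib.Pda3a14.SBuild
import Pool.Agent.Lib.Pda3a14.EConst
import Pool.Agent.Lib.Pda3a14.EFill

/-!
# Words give paths; fillings in a group acting on a tree (module EBuild)

Templates: SPath.lean (`PRel`, `area_of_paths`) and SBuild.lean (`tree_area`, `exists_rep`), with
the radius `r` in `EData.PRel`.
-/

namespace Pda3a14

open MulAction

variable {G : Type*} [Group G] {V : Type*} [MulAction G V]

namespace EData

variable {A : EData G V} {r s : ℕ}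

theorem PRel.first {n : ℕ} {a b : A.St} (h : A.PRel r n a b) : A.ν (A.P.π a.1) ≤ r := by
  induction h with
  | refl a h => exact h
  | snoc _ _ ih => exact ih

theorem PRel.trans {m n : ℕ} {a b c : A.St} (h : A.PRel r m a b) (h' : A.PRel r n b c) :
    A.PRel r (m + n) a c := by
  induction h' with
  | refl b _ => exact h
  | snoc _ hs ih => exact (ih h).snoc hs

theorem RStep.symm (hB : ∀ β ∈ A.B, β⁻¹ ∈ A.B) {a b : A.St} (hs : A.RStep r a b) :
    A.RStep r b a := by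
  refine ⟨⟨hs.1.2.1, hs.1.1, ?_, ?_⟩, hs.2.2, hs.2.1⟩
  · have := hB _ hs.1.2.2.1
    rwa [mul_inv_rev, inv_inv] at this
  · rcases hs.1.2.2.2 with h | h
    · left; exact h.symm
    · right; exact h.symm

theorem PRel.symm (hB : ∀ β ∈ A.B, β⁻¹ ∈ A.B) {n : ℕ} {a b : A.St} (h : A.PRel r n a b) :
    A.PRel r n b a := by
  induction h with
  | refl a h => exact PRel.refl a h
  | @snoc n a b c _ hs ih =>
    have h1 : A.PRel r 1 c b := (PRel.refl c hs.2.2).snoc (hs.symm hB)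
    have := h1.trans ih
    rwa [add_comm] at this

theorem PRel.exists_fun {n : ℕ} {a b : A.St} (h : A.PRel r n a b) :
    ∃ u : ℕ → A.St, u 0 = a ∧ u n = b ∧ (∀ j < n, A.Step (u j) (u (j + 1))) ∧
      ∀ j ≤ n, A.ν (A.P.π (u j).1) ≤ r := by
  induction h with
  | refl a h => exact ⟨fun _ => a, rfl, rfl, fun j hj => by omega, fun _ _ => h⟩
  | @snoc n a b c _ hs ih =>
    obtain ⟨u, h0, h1, h2, h3⟩ := ih
    refine ⟨fun j => if j ≤ n then u j else c, ?_, ?_, ?_, ?_⟩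
    · simp [h0]
    · simp
    · intro j hj
      by_cases hjn : j = n
      · subst hjn
        simp only [le_refl, if_true]
        have : ¬ (j + 1 ≤ j) := by omega
        simp only [this, if_false]
        rw [h1]; exact hs.1
      · have h3 : j ≤ n := by omega
        have h4 : j + 1 ≤ n := by omega
        simp only [h3, h4, if_true]
        exact h2 j (by omega)
    · intro j hj
      by_cases hjn : j ≤ n
      · simp only [hjn, if_true]
        exact h3 j hjn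
      · simp only [hjn, if_false]
        exact hs.2.2

variable (A)

/-- The path of a word which stays in the ball of radius `r`. -/
theorem path_of_word {Λ c0 : ℕ} (hB : ∀ β ∈ A.B, β⁻¹ ∈ A.B) (v0 : V)
    (τ : FreeGroup (Fin A.P.n)) (hτ : A.ν (A.P.π τ) ≤ c0)
    (hpath : ∀ (r : ℕ) (i : Fin A.P.n) (f : FreeGroup (Fin A.P.n)), A.ν (A.P.π f) ≤ r →
      A.ν (A.P.π (f * FreeGroup.of i)) ≤ r → ∃ n ≤ Λ,
      A.PRel (r + c0) n (f * τ, v0) (f * FreeGroup.of i * τ, v0)) (r : ℕ) :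
    ∀ L : List (Fin A.P.n × Bool), ∀ f : FreeGroup (Fin A.P.n),
      (∀ k, A.ν (A.P.π (f * FreeGroup.mk (L.take k))) ≤ r) → ∃ n ≤ Λ * L.length,
      A.PRel (r + c0) n (f * τ, v0) (f * FreeGroup.mk L * τ, v0) := by
  intro L
  induction L with
  | nil =>
    intro f hf
    refine ⟨0, by simp, ?_⟩
    have e : (FreeGroup.mk [] : FreeGroup (Fin A.P.n)) = 1 := rfl
    have h0 := hf 0
    rw [List.take_zero] at h0
    rw [e, mul_one] at h0 ⊢
    apply PRel.refl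
    change A.ν (A.P.π (f * τ)) ≤ r + c0
    rw [map_mul]
    exact (A.len.mul _ _).trans (Nat.add_le_add h0 hτ)
  | cons a L ih =>
    intro f hf
    have e : ∀ L' : List (Fin A.P.n × Bool), (FreeGroup.mk (a :: L') : FreeGroup (Fin A.P.n)) =
        FreeGroup.mk [a] * FreeGroup.mk L' := by
      intro L'
      rw [FreeGroup.mul_mk]; rfl
    have hf0 : A.ν (A.P.π f) ≤ r := by
      have h0 := hf 0
      rw [List.take_zero] at h0
      have e1 : (FreeGroup.mk [] : FreeGroup (Fin A.P.n)) = 1 := rfl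
      rwa [e1, mul_one] at h0
    have hf1 : A.ν (A.P.π (f * FreeGroup.mk [a])) ≤ r := by
      have h0 := hf 1
      rwa [List.take_succ_cons, List.take_zero] at h0
    obtain ⟨n2, hn2, hp2⟩ := ih (f * FreeGroup.mk [a]) (fun k => by
      have h0 := hf (k + 1)
      rwa [List.take_succ_cons, e, ← mul_assoc] at h0)
    have h1 : ∃ n ≤ Λ, A.PRel (r + c0) n (f * τ, v0) (f * FreeGroup.mk [a] * τ, v0) := by
      obtain ⟨a, b⟩ := a
      cases b
      · have e2 : (FreeGroup.mk [(a, false)] : FreeGroup (Fin A.P.n)) =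
            (FreeGroup.of a)⁻¹ := by
          simp [FreeGroup.of, FreeGroup.inv_mk, FreeGroup.invRev]
        rw [e2] at hf1
        obtain ⟨n, hn, hp⟩ := hpath r a (f * (FreeGroup.of a)⁻¹) hf1
          (by rwa [inv_mul_cancel_right])
        rw [inv_mul_cancel_right] at hp
        rw [e2]
        exact ⟨n, hn, hp.symm hB⟩
      · exact hpath r a f hf0 hf1
    obtain ⟨n1, hn1, hp1⟩ := h1
    refine ⟨n1 + n2, ?_, ?_⟩
    · rw [List.length_cons, Nat.mul_succ]; omega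
    · rw [e, ← mul_assoc f]
      exact hp1.trans hp2

/-- Words in a data set which is adapted to the base vertex. -/
theorem fill_of_paths {Λ0 c0 : ℕ} (hB : ∀ β ∈ A.B, β⁻¹ ∈ A.B) (v0 : V)
    (τ : FreeGroup (Fin A.P.n)) (hτ : A.ν (A.P.π τ) ≤ c0) (hv0 : v0 ∈ A.X)
    (hpath : ∀ (r : ℕ) (i : Fin A.P.n) (f : FreeGroup (Fin A.P.n)), A.ν (A.P.π f) ≤ r →
      A.ν (A.P.π (f * FreeGroup.of i)) ≤ r → ∃ n ≤ Λ0,
      A.PRel (r + c0) n (f * τ, v0) (f * FreeGroup.of i * τ, v0)) :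
    ∃ c : ℕ, ∀ D : ℕ → ℕ → ℕ,
      (∀ a b a' b', a ≤ a' → b ≤ b' → D a b ≤ D a' b') →
      (∀ o ∈ A.X, ∀ (ℓ r : ℕ) (L : List (Fin (A.Q o).n × Bool)), L.length ≤ ℓ →
        PB A.ν (A.Q o).π r L → (A.Q o).π (FreeGroup.mk L) = 1 →
        AreaLE ((A.Q o).R : Set (FreeGroup (Fin (A.Q o).n))) (D ℓ r) (FreeGroup.mk L)) →
      ∀ (ℓ r : ℕ) (L : List (Fin A.P.n × Bool)), L.length ≤ ℓ → PB A.ν A.P.π r L →
        A.P.π (FreeGroup.mk L) = 1 →
        AreaLE A.R
          (c * (ℓ + 1) * (D (c ^ (r + 1) * (ℓ + 1)) (c * (r + 1)) + c ^ (r + 1)))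
          (FreeGroup.mk L) := by
  obtain ⟨K, hK⟩ := A.exists_consts
  set c1 := (K + 2) ^ (2 * c0 + K + 2) with hc1
  set c2 := 2 + 2 * c0 + (K * (2 + 2 * c0 + K + 1) + K) with hc2
  have hc1pos : 1 ≤ c1 := Nat.one_le_iff_ne_zero.2 (by positivity)
  refine ⟨(Λ0 + 1) * (K + 1) * c1 * (c2 + 1), fun D hmono hD ℓ r L hL hPB h1 => ?_⟩
  obtain ⟨N, hN, hp⟩ := A.path_of_word hB v0 τ hτ hpath r L 1
    (fun k => by rw [one_mul]; exact hPB k)
  rw [one_mul, one_mul] at hp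
  obtain ⟨u, hu0, huN, hu, hur⟩ := hp.exists_fun
  have hNℓ : N ≤ Λ0 * ℓ := hN.trans (Nat.mul_le_mul_left _ hL)
  set n := 2 * (r + c0) with hn
  set Λ := K ^ (n + K + 1) + K with hΛ
  set R := n + (K * (n + K + 1) + K) with hR
  set M := D ((N + 1) * Λ) R * K + Λ with hM
  have hnn : ∀ i j, i ≤ N → j ≤ N → A.ν (A.P.π ((u i).1⁻¹ * (u j).1)) ≤ n := by
    intro i j hi hj
    rw [map_mul, map_inv]
    have i1 := A.len.mul (A.P.π (u i).1)⁻¹ (A.P.π (u j).1)
    rw [A.len.inv] at i1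
    have i2 := hur i hi
    have i3 := hur j hj
    omega
  have hpos : A.pos (u 0) = A.pos (u (0 + N)) := by
    rw [zero_add, hu0, huN]
    unfold pos
    simp [h1]
  have hX0 : (u 0).2 ∈ A.X := by rw [hu0]; exact hv0
  obtain ⟨v, hv1, hvR, hv2⟩ := A.fill hK D hD u N hu n hnn Λ R M hΛ hR hM N 0 (by omega) hpos hX0
  rw [zero_add] at hv2
  have hπ : (A.Q (u 0).2).π (FreeGroup.mk v) = 1 := by
    rw [← A.hφ, ← A.P.near_π hv2, hu0, huN]
    simp [h1]
  have hvL : v.length ≤ (N + 1) * Λ := hv1.trans (Nat.mul_le_mul_right _ (by omega))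
  have ha1 : AreaLE A.R (D ((N + 1) * Λ) R * K) (A.φ (u 0).2 (FreeGroup.mk v)) :=
    AreaLE.map _ (hK.k1 _ hX0) (hD _ hX0 _ R v hvL hvR hπ)
  have ha2 := hv2.area_left ha1
  rw [hu0, huN] at ha2
  have ha3 := ha2.conj τ
  have e : τ * (((τ, v0) : A.St).1⁻¹ * ((FreeGroup.mk L * τ, v0) : A.St).1) * τ⁻¹ =
      FreeGroup.mk L := by
    change τ * (τ⁻¹ * (FreeGroup.mk L * τ)) * τ⁻¹ = FreeGroup.mk L
    group
  rw [e] at ha3
  apply ha3.mono
  -- arithmetic
  set c := (Λ0 + 1) * (K + 1) * c1 * (c2 + 1) with hc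
  have hΛ1 : Λ ≤ c1 ^ (r + 1) := by
    have i1 : K ^ (n + K + 1) ≤ (K + 2) ^ (n + K + 1) := Nat.pow_le_pow_left (by omega) _
    have i2 : K ≤ (K + 2) ^ (n + K + 1) :=
      (show K ≤ (K + 2) ^ 1 by rw [pow_one]; omega).trans (Nat.pow_le_pow_right (by omega) (by omega))
    have i3 : 2 * (K + 2) ^ (n + K + 1) ≤ (K + 2) ^ (n + K + 2) := by
      rw [pow_succ (K + 2) (n + K + 1), mul_comm]
      exact Nat.mul_le_mul_left _ (by omega)
    have i4 : n + K + 2 ≤ (2 * c0 + K + 2) * (r + 1) := by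
      have : (2 * c0 + K + 2) * (r + 1) = (n + K + 2) + (2 * c0 + K) * r := by rw [hn]; ring
      omega
    calc Λ ≤ 2 * (K + 2) ^ (n + K + 1) := by omega
      _ ≤ (K + 2) ^ (n + K + 2) := i3
      _ ≤ (K + 2) ^ ((2 * c0 + K + 2) * (r + 1)) := Nat.pow_le_pow_right (by omega) i4
      _ = c1 ^ (r + 1) := by rw [hc1, pow_mul]
  have hR1 : R ≤ c2 * (r + 1) := by
    have : c2 * (r + 1) = R + ((2 * c0 + K * (2 * c0 + K + 1) + K) * r + (2 + 2 * K)) := by
      rw [hR, hc2, hn]; ring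
    omega
  have hc2c : c2 ≤ c := by
    have i1 : 1 ≤ (Λ0 + 1) * (K + 1) * c1 := Nat.one_le_iff_ne_zero.2 (by positivity)
    have i2 : 1 * (c2 + 1) ≤ c := Nat.mul_le_mul_right _ i1
    omega
  have hc1c : (Λ0 + 1) * c1 ≤ c := by
    have i1 : 1 ≤ (K + 1) * (c2 + 1) := Nat.one_le_iff_ne_zero.2 (by positivity)
    have i2 : (Λ0 + 1) * c1 * 1 ≤ (Λ0 + 1) * c1 * ((K + 1) * (c2 + 1)) :=
      Nat.mul_le_mul_left _ i1
    have i3 : c = (Λ0 + 1) * c1 * ((K + 1) * (c2 + 1)) := by rw [hc]; ring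
    omega
  have hKc : (Λ0 + 1) * (K + 1) ≤ c := by
    have i1 : 1 ≤ c1 * (c2 + 1) := Nat.one_le_iff_ne_zero.2 (by positivity)
    have i2 : (Λ0 + 1) * (K + 1) * 1 ≤ (Λ0 + 1) * (K + 1) * (c1 * (c2 + 1)) :=
      Nat.mul_le_mul_left _ i1
    have i3 : c = (Λ0 + 1) * (K + 1) * (c1 * (c2 + 1)) := by rw [hc]; ring
    omega
  have hcpow : (Λ0 + 1) * c1 ^ (r + 1) ≤ c ^ (r + 1) := by
    calc (Λ0 + 1) * c1 ^ (r + 1) ≤ (Λ0 + 1) ^ (r + 1) * c1 ^ (r + 1) := by
          apply Nat.mul_le_mul_right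
          calc Λ0 + 1 = (Λ0 + 1) ^ 1 := (pow_one _).symm
            _ ≤ (Λ0 + 1) ^ (r + 1) := Nat.pow_le_pow_right (by omega) (by omega)
      _ = ((Λ0 + 1) * c1) ^ (r + 1) := (mul_pow _ _ _).symm
      _ ≤ c ^ (r + 1) := Nat.pow_le_pow_left hc1c _
  have hNY : N + 1 ≤ (Λ0 + 1) * (ℓ + 1) := by
    have : (Λ0 + 1) * (ℓ + 1) = Λ0 * ℓ + Λ0 + ℓ + 1 := by ring
    omega
  have hA1 : (N + 1) * Λ ≤ c ^ (r + 1) * (ℓ + 1) := by
    calc (N + 1) * Λ ≤ ((Λ0 + 1) * (ℓ + 1)) * c1 ^ (r + 1) := Nat.mul_le_mul hNY hΛ1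
      _ = (Λ0 + 1) * c1 ^ (r + 1) * (ℓ + 1) := by ring
      _ ≤ c ^ (r + 1) * (ℓ + 1) := Nat.mul_le_mul_right _ hcpow
  have hA2 : R ≤ c * (r + 1) := hR1.trans (Nat.mul_le_mul_right _ hc2c)
  have hDD : D ((N + 1) * Λ) R ≤ D (c ^ (r + 1) * (ℓ + 1)) (c * (r + 1)) := hmono _ _ _ _ hA1 hA2
  set DD := D (c ^ (r + 1) * (ℓ + 1)) (c * (r + 1)) with hDDdef
  have hΛc : Λ ≤ c ^ (r + 1) := by
    have i1 : 1 * c1 ^ (r + 1) ≤ (Λ0 + 1) * c1 ^ (r + 1) := Nat.mul_le_mul_right _ (by omega)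
    omega
  have hMM : D ((N + 1) * Λ) R * K ≤ M := by omega
  have hMY : M ≤ (K + 1) * (DD + c ^ (r + 1)) := by
    have i1 : D ((N + 1) * Λ) R * K ≤ DD * K := Nat.mul_le_mul_right _ hDD
    have i2 : (K + 1) * (DD + c ^ (r + 1)) = DD * K + c ^ (r + 1) + (DD + K * c ^ (r + 1)) := by
      ring
    omega
  calc N * M + D ((N + 1) * Λ) R * K ≤ N * M + M := by omega
    _ = (N + 1) * M := by ring
    _ ≤ ((Λ0 + 1) * (ℓ + 1)) * ((K + 1) * (DD + c ^ (r + 1))) := Nat.mul_le_mul hNY hMY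
    _ = (Λ0 + 1) * (K + 1) * ((ℓ + 1) * (DD + c ^ (r + 1))) := by ring
    _ ≤ c * ((ℓ + 1) * (DD + c ^ (r + 1))) := Nat.mul_le_mul_right _ hKc
    _ = c * (ℓ + 1) * (DD + c ^ (r + 1)) := by ring

end EData

theorem etree_fill (T : SimpleGraph V) (hT : T.IsTree)
    (hadj : ∀ (g : G) (x y : V), T.Adj x y → T.Adj (g • x) (g • y))
    (d : V → V → V) (hd1 : ∀ x p, T.Adj x p → d x p = p)
    (hd3 : ∀ x p q, p ≠ x → q ≠ x → T.Adj p q → d x p = d x q)
    (ν : G → ℕ) (hν : IsLen ν) (H : Subgroup G)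
    (tame : ∀ x y, T.Adj x y → TameExp ν (H ⊓ stabilizer G x ⊓ stabilizer G y)) (P : SPres H)
    (Q : ∀ o : V, SPres (H ⊓ stabilizer G o)) :
    ∃ X : Set V, X.Finite ∧ ∃ c : ℕ, ∀ D : ℕ → ℕ → ℕ,
      (∀ a b a' b', a ≤ a' → b ≤ b' → D a b ≤ D a' b') →
      (∀ o ∈ X, ∀ (ℓ r : ℕ) (L : List (Fin (Q o).n × Bool)), L.length ≤ ℓ →
        PB ν (Q o).π r L → (Q o).π (FreeGroup.mk L) = 1 →
        AreaLE ((Q o).R : Set (FreeGroup (Fin (Q o).n))) (D ℓ r) (FreeGroup.mk L)) →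
      ∀ (ℓ r : ℕ) (L : List (Fin P.n × Bool)), L.length ≤ ℓ → PB ν P.π r L →
        P.π (FreeGroup.mk L) = 1 →
        AreaLE (P.R : Set (FreeGroup (Fin P.n)))
          (c * (ℓ + 1) * (D (c ^ (r + 1) * (ℓ + 1)) (c * (r + 1)) + c ^ (r + 1)))
          (FreeGroup.mk L) := by
  classical
  obtain ⟨v0⟩ : Nonempty V := hT.1.nonempty
  obtain ⟨rep, hrep1, hrep2⟩ := exists_rep (V := V) H
  have hτ : ∀ z, ∃ w : FreeGroup (Fin P.n), P.π w • rep z = z := by
    intro z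
    obtain ⟨h, hh, hz⟩ := hrep1 z
    obtain ⟨w, hw⟩ := P.exists_word hh
    exact ⟨w, by rw [hw]; exact hz⟩
  choose τ hτ using hτ
  choose φ hφ using fun o : V => P.exists_lift (Q o) inf_le_left
  have hW : ∀ i : Fin P.n, ∃ W : T.Walk v0 (P.π (FreeGroup.of i) • v0), True := by
    intro i
    obtain ⟨W⟩ := hT.1.preconnected v0 (P.π (FreeGroup.of i) • v0)
    exact ⟨W, trivial⟩
  choose W _ using hW
  let Z : Set V := insert v0 (⋃ i : Fin P.n, (fun j => (W i).getVert j) '' Set.Iic (W i).length)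
  have hZ : Z.Finite := by
    apply Set.Finite.insert
    apply Set.finite_iUnion
    intro i
    exact (Set.finite_Iic _).image _
  have hZi : ∀ (i : Fin P.n) (j : ℕ), j ≤ (W i).length → (W i).getVert j ∈ Z := by
    intro i j hj
    right
    rw [Set.mem_iUnion]
    exact ⟨i, j, hj, rfl⟩
  let B0 : Set (FreeGroup (Fin P.n)) := ((fun p : V × V => (τ p.1)⁻¹ * τ p.2) '' (Z ×ˢ Z)) ∪
    Set.range (fun i : Fin P.n => (τ (P.π (FreeGroup.of i) • v0))⁻¹ * FreeGroup.of i * τ v0)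
  have hB0 : B0.Finite := ((hZ.prod hZ).image _).union (Set.finite_range _)
  let A : EData G V := {
    H := H
    P := P
    Q := Q
    φ := φ
    hφ := hφ
    X := rep '' Z
    Xfin := hZ.image _
    sep := by
      rintro _ ⟨a, _, rfl⟩ _ ⟨b, _, rfl⟩ h hh he
      have hrr : ∀ z, rep (rep z) = rep z := by
        intro z
        obtain ⟨k, hk, hz⟩ := hrep1 z
        have := hrep2 (rep z) k hk
        rw [hz] at this
        exact this.symm
      have := hrep2 (rep a) h hh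
      rw [he, hrr, hrr] at this
      exact this.symm
    B := B0 ∪ B0⁻¹
    Bfin := hB0.union hB0.inv
    T := T
    adj := hadj
    d := d
    d1 := hd1
    d3 := hd3
    ν := ν
    len := hν
    tame := tame }
  have hAB : ∀ β ∈ A.B, β⁻¹ ∈ A.B := by
    intro β hβ
    rcases hβ with h | h
    · right; rwa [Set.mem_inv, inv_inv]
    · left; exact h
  obtain ⟨Λ, hΛ⟩ := exists_uniform (Set.finite_univ (α := Fin P.n))
    (fun i m => (W i).length + 1 ≤ m) (fun i m n hmn h => h.trans hmn)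
    (fun i _ => ⟨(W i).length + 1, le_rfl⟩)
  obtain ⟨c0, hc0⟩ := exists_uniform hZ
    (fun z m => ν (P.π (τ z)) ≤ m) (fun i m n hmn h => h.trans hmn)
    (fun z _ => ⟨ν (P.π (τ z)), le_rfl⟩)
  have hball : ∀ (r : ℕ) (f : FreeGroup (Fin P.n)) (z : V), ν (P.π f) ≤ r → z ∈ Z →
      ν (P.π (f * τ z)) ≤ r + c0 := by
    intro r f z hf hz
    rw [map_mul]
    exact (hν.mul _ _).trans (Nat.add_le_add hf (hc0 z hz))
  have hpos : ∀ (f : FreeGroup (Fin P.n)) (z : V), A.pos (f * τ z, rep z) = P.π f • z := by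
    intro f z
    change P.π (f * τ z) • rep z = _
    rw [map_mul, mul_smul, hτ]
  have hpath : ∀ (r : ℕ) (i : Fin A.P.n) (f : FreeGroup (Fin A.P.n)), A.ν (A.P.π f) ≤ r →
      A.ν (A.P.π (f * FreeGroup.of i)) ≤ r → ∃ n ≤ Λ,
      A.PRel (r + c0) n (f * τ v0, rep v0) (f * FreeGroup.of i * τ v0, rep v0) := by
    intro r i f hf hfi
    have h1 : ∀ j, j ≤ (W i).length →
        A.PRel (r + c0) j (f * τ v0, rep v0)
          (f * τ ((W i).getVert j), rep ((W i).getVert j)) := by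
      intro j
      induction j with
      | zero =>
        intro _
        rw [SimpleGraph.Walk.getVert_zero]
        exact EData.PRel.refl _ (hball r f v0 hf (Set.mem_insert _ _))
      | succ j ih =>
        intro hj
        refine (ih (by omega)).snoc ⟨⟨⟨_, hZi i j (by omega), rfl⟩, ⟨_, hZi i (j + 1) hj, rfl⟩,
          ?_, ?_⟩, hball r f _ hf (hZi i j (by omega)), hball r f _ hf (hZi i (j + 1) hj)⟩
        · left; left
          refine ⟨((W i).getVert j, (W i).getVert (j + 1)), ⟨hZi i j (by omega), hZi i _ hj⟩, ?_⟩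
          change (τ ((W i).getVert j))⁻¹ * τ ((W i).getVert (j + 1)) =
            (f * τ ((W i).getVert j))⁻¹ * (f * τ ((W i).getVert (j + 1)))
          group
        · right
          rw [hpos, hpos]
          exact hadj _ _ _ ((W i).adj_getVert_succ (by omega))
    have h2 := h1 _ le_rfl
    rw [SimpleGraph.Walk.getVert_length] at h2
    have hr : rep (P.π (FreeGroup.of i) • v0) = rep v0 := hrep2 _ _ (P.π_mem _)
    have hz1 : P.π (FreeGroup.of i) • v0 ∈ Z := by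
      have := hZi i _ le_rfl
      rwa [SimpleGraph.Walk.getVert_length] at this
    refine ⟨(W i).length + 1, hΛ i trivial, h2.snoc ⟨⟨?_, ?_, ?_, ?_⟩, ?_, ?_⟩⟩
    · exact ⟨_, hz1, rfl⟩
    · exact ⟨v0, Set.mem_insert _ _, rfl⟩
    · left; right
      refine ⟨i, ?_⟩
      change (τ (P.π (FreeGroup.of i) • v0))⁻¹ * FreeGroup.of i * τ v0 =
        (f * τ (P.π (FreeGroup.of i) • v0))⁻¹ * (f * FreeGroup.of i * τ v0)
      group
    · left
      rw [hpos]
      have := hpos (f * FreeGroup.of i) v0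
      change A.pos (f * FreeGroup.of i * τ v0, rep v0) = _ at this
      rw [this, map_mul, mul_smul]
    · exact hball r f _ hf hz1
    · exact hball r (f * FreeGroup.of i) v0 hfi (Set.mem_insert _ _)
  obtain ⟨c, hc⟩ := A.fill_of_paths hAB (rep v0) (τ v0) (hc0 v0 (Set.mem_insert _ _))
    ⟨v0, Set.mem_insert _ _, rfl⟩ hpath
  exact ⟨rep '' Z, hZ.image _, c, hc⟩

end Pda3a14
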