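import Pool.Agent.Lib.Pda3a14.Defs

/-!
# Finite index subgroups of finitely presented groups are finitely presented (module SFiS)

## Paper proof

`F = FreeGroup (Fin P.n)`, `F₀ = A.comap P.π`, of finite index in `F`. `F₀` is free
(Nielsen-Schreier, `subgroupIsFreeOfIsFree`) and finitely generated (Schreier,
`Subgroup.fg_of_index_ne_zero`), hence free on a finite set: if a free group on `X` is generated by a
finite set, only finitely many letters occur in it, and a further letter `x` would give a nontrivial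
homomorphism to `ℤ` killing all generators. So there is `FreeGroup (Fin m) ≃* F₀`, and
`FreeGroup (Fin m) → F₀ → A` is onto. Its kernel corresponds to `N = P.π.ker ≤ F₀`, the normal
closure in `F` of `P.R`; `N` is the normal closure IN `F₀` of the finite set
`{t r t⁻¹ | t ∈ (transversal of F₀ in F), r ∈ P.R}` (every conjugate `x r x⁻¹`, `x = y t` with
`y ∈ F₀`).
-/

namespace Pda3a14

namespace SFiSAux

/-- A finitely generated free group is finitely presented. -/
theorem free_pres {G0 : Type*} [Group G0] [IsFreeGroup G0] (hfg : Group.FG G0) :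
    ∃ (k : ℕ) (φ : FreeGroup (Fin k) →* G0), Function.Surjective φ ∧
      φ.ker.IsFinitelyNormallyGenerated := by
  obtain ⟨α, hα, φ0, hφ0⟩ := Group.fg_iff_exists_freeGroup_hom_surjective_finite.1 hfg
  obtain ⟨k, ⟨e⟩⟩ := Finite.exists_equiv_fin α
  obtain ⟨φ, hφ⟩ : ∃ φ : FreeGroup (Fin k) →* G0, Function.Surjective φ :=
    ⟨φ0.comp (FreeGroup.freeGroupCongr e).symm.toMonoidHom,
      hφ0.comp (FreeGroup.freeGroupCongr e).symm.surjective⟩
  have hex : ∀ y, ∃ x, φ x = y := hφ
  choose s hs using hex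
  obtain ⟨σ, hσ0⟩ : ∃ σ : G0 →* FreeGroup (Fin k),
      ∀ a, σ (IsFreeGroup.of a) = s (IsFreeGroup.of a) :=
    ⟨IsFreeGroup.lift (fun x => s (IsFreeGroup.of x)), fun a => IsFreeGroup.lift_of _ a⟩
  have hσ : ∀ y, φ (σ y) = y := by
    have h1 : φ.comp σ = MonoidHom.id G0 := IsFreeGroup.ext_hom (fun a => by
      rw [MonoidHom.comp_apply, hσ0, hs, MonoidHom.id_apply])
    intro y
    exact DFunLike.congr_fun h1 y
  refine ⟨k, φ, hφ, Set.range (fun i : Fin k =>
    FreeGroup.of i * (σ (φ (FreeGroup.of i)))⁻¹), Set.finite_range _, ?_⟩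
  apply le_antisymm
  · apply Subgroup.normalClosure_le_normal
    rintro _ ⟨i, rfl⟩
    rw [SetLike.mem_coe, MonoidHom.mem_ker, map_mul, map_inv, hσ, mul_inv_cancel]
  · intro w hw
    have key : (QuotientGroup.mk' (Subgroup.normalClosure (Set.range (fun i : Fin k =>
        FreeGroup.of i * (σ (φ (FreeGroup.of i)))⁻¹)))) =
        (QuotientGroup.mk' (Subgroup.normalClosure (Set.range (fun i : Fin k =>
        FreeGroup.of i * (σ (φ (FreeGroup.of i)))⁻¹)))).comp (σ.comp φ) := by
      apply FreeGroup.ext_hom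
      intro i
      rw [MonoidHom.comp_apply, MonoidHom.comp_apply, QuotientGroup.mk'_apply,
        QuotientGroup.mk'_apply, QuotientGroup.eq_iff_div_mem, div_eq_mul_inv]
      exact Subgroup.subset_normalClosure ⟨i, rfl⟩
    have h1 := DFunLike.congr_fun key w
    have hw' : φ w = 1 := hw
    rw [MonoidHom.comp_apply, MonoidHom.comp_apply, hw', map_one, map_one,
      QuotientGroup.mk'_apply] at h1
    exact (QuotientGroup.eq_one_iff w).1 h1

/-- The kernel of the restriction to the preimage of a finite index subgroup. -/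
theorem ker_fng {F K : Type*} [Group F] [Group K] (π : F →* K) (hπ : Function.Surjective π)
    (A : Subgroup K) (hA : A.FiniteIndex) (hk : π.ker.IsFinitelyNormallyGenerated) :
    (π.subgroupComap A).ker.IsFinitelyNormallyGenerated := by
  obtain ⟨R, hR, hRk⟩ := hk
  have hFi : (A.comap π).FiniteIndex :=
    ⟨by rw [Subgroup.index_comap_of_surjective A hπ]; exact hA.index_ne_zero⟩
  have hfq : Finite (F ⧸ A.comap π) := inferInstance
  have hRker : ∀ r ∈ R, π r = 1 := fun r hr => by
    have h1 : r ∈ π.ker := by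
      rw [← hRk]
      exact Subgroup.subset_normalClosure hr
    exact h1
  have hmem : ∀ (t : F) (r : R), t * r.1 * t⁻¹ ∈ A.comap π := by
    intro t r
    rw [Subgroup.mem_comap, map_mul, map_mul, hRker r.1 r.2, map_inv, mul_one, mul_inv_cancel]
    exact A.one_mem
  have hfR : Finite R := hR
  refine ⟨Set.range (fun p : (F ⧸ A.comap π) × R =>
    (⟨(Quotient.out p.1)⁻¹ * p.2.1 * ((Quotient.out p.1)⁻¹)⁻¹, hmem _ _⟩ : A.comap π)),
    Set.finite_range _, ?_⟩
  apply le_antisymm
  · apply Subgroup.normalClosure_le_normal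
    rintro _ ⟨p, rfl⟩
    rw [SetLike.mem_coe, MonoidHom.mem_ker]
    apply Subtype.ext
    show π ((Quotient.out p.1)⁻¹ * p.2.1 * ((Quotient.out p.1)⁻¹)⁻¹) = 1
    rw [map_mul, map_mul, hRker p.2.1 p.2.2, map_inv, map_inv, map_inv, mul_one, mul_inv_cancel]
  · intro x hx
    have hx1 : x.1 ∈ π.ker := by
      rw [MonoidHom.mem_ker] at hx ⊢
      exact congrArg Subtype.val hx
    rw [← hRk] at hx1
    have hle : Subgroup.normalClosure R ≤ (Subgroup.normalClosure
        (Set.range (fun p : (F ⧸ A.comap π) × R =>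
          (⟨(Quotient.out p.1)⁻¹ * p.2.1 * ((Quotient.out p.1)⁻¹)⁻¹, hmem _ _⟩ :
            A.comap π)))).map (A.comap π).subtype := by
      rw [Subgroup.normalClosure, Subgroup.closure_le]
      intro z hz
      obtain ⟨r, hr, hc⟩ := Group.mem_conjugatesOfSet_iff.1 hz
      obtain ⟨c, hc⟩ := isConj_iff.1 hc
      have h1 : ((Quotient.out (QuotientGroup.mk c⁻¹ : F ⧸ A.comap π) : F) : F ⧸ A.comap π) =
          ((c⁻¹ : F) : F ⧸ A.comap π) := Quotient.out_eq' _
      have h2 := QuotientGroup.eq.1 h1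
      generalize hq : (QuotientGroup.mk c⁻¹ : F ⧸ A.comap π) = q at h1 h2
      have h3 : c * ((Quotient.out q)⁻¹)⁻¹ ∈ A.comap π := by
        have h4 := (A.comap π).inv_mem h2
        rw [mul_inv_rev, inv_inv] at h4
        exact h4
      have hN : (⟨(Quotient.out q)⁻¹ * r * ((Quotient.out q)⁻¹)⁻¹, hmem _ ⟨r, hr⟩⟩ : A.comap π) ∈
          Subgroup.normalClosure (Set.range (fun p : (F ⧸ A.comap π) × R =>
          (⟨(Quotient.out p.1)⁻¹ * p.2.1 * ((Quotient.out p.1)⁻¹)⁻¹, hmem _ _⟩ :
            A.comap π))) := Subgroup.subset_normalClosure ⟨(q, ⟨r, hr⟩), rfl⟩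
      refine ⟨_, Subgroup.normalClosure_normal.conj_mem _ hN ⟨_, h3⟩, ?_⟩
      show c * ((Quotient.out q)⁻¹)⁻¹ * ((Quotient.out q)⁻¹ * r * ((Quotient.out q)⁻¹)⁻¹) *
        (c * ((Quotient.out q)⁻¹)⁻¹)⁻¹ = z
      rw [← hc]
      group
    obtain ⟨y, hy, hyx⟩ := hle hx1
    have h5 : y = x := Subtype.ext hyx
    rw [← h5]
    exact hy

end SFiSAux

theorem finPres_subgroup {K : Type*} [Group K] (P : FinPres K) (A : Subgroup K)
    (hA : A.FiniteIndex) : Nonempty (FinPres A) := by
  classical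
  have hFi : (A.comap P.π).FiniteIndex :=
    ⟨by rw [Subgroup.index_comap_of_surjective A P.surj]; exact hA.index_ne_zero⟩
  have hfg : Group.FG (A.comap P.π) := inferInstance
  obtain ⟨k, φ, hφ, hφk⟩ := SFiSAux.free_pres hfg
  have hf := SFiSAux.ker_fng P.π P.surj A hA ⟨P.R, P.R.finite_toSet, P.ker.symm⟩
  have hfs : Function.Surjective (P.π.subgroupComap A) :=
    P.π.subgroupComap_surjective_of_surjective A P.surj
  obtain ⟨S, hS, hSk⟩ := hf.comap hφ hφk
  exact ⟨{
    n := k
    π := (P.π.subgroupComap A).comp φ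
    R := hS.toFinset
    surj := hfs.comp hφ
    ker := by rw [← MonoidHom.comap_ker, ← hSk, hS.coe_toFinset] }⟩

end Pda3a14
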