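import Pool.Agent.Lib.Pda3a14.SDehn

/-!
# The Dehn function of a group with a subgroup of finite index (module SFiU)

## Paper proof

`F = FreeGroup (Fin P.n)`, `φ : FreeGroup (Fin Q.n) → F` a lift of `A → K` (words), `K'` a bound for
the areas of the `φ(r)`, `r ∈ Q.R`. Choose for every left coset `q ∈ K ⧸ A` a word `t_q` whose value
lies in `q`, with `t_{q₀} = 1` for the coset `q₀` of `1`. For every letter `y^±` and every `q` there
is a word `w_{y,q}` of `FreeGroup (Fin Q.n)` with `y t_q = t_{q'} φ(w_{y,q})` in `K`, `q' = y q`; all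
these finitely many equalities have area at most `K'` (`Near`), and the lengths of the `w_{y,q}` are
at most `K'`. Moving the letters of `w` one after the other through (from the right) gives
`w = w t_{q₀} ~ t_{q₁} φ(v)` with `v.norm ≤ K' |w|`, area `≤ K' |w|` (`Near`, Area.lean). If `w = 1`
in `K` then `q₁ = q₀`, `v = 1` in `A`, so `φ(v)` has area at most `K' * Q.dehn (K' |w|)`
(`FinPres.areaLE_dehn` in SDehn; `FinPres.dehn_le` in Final gives the upper bound for `P.dehn`).
-/

namespace Pda3a14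

theorem FinPres.near_of_eq' {K : Type*} [Group K] (P : FinPres K) {u v : FreeGroup (Fin P.n)}
    (h : P.π u = P.π v) : ∃ m, Near (P.R : Set (FreeGroup (Fin P.n))) m u v := by
  apply exists_areaLE
  rw [← P.ker, MonoidHom.mem_ker, map_mul, map_inv, h, mul_inv_cancel]

/-- Lift of the inclusion of a subgroup to words. -/
theorem FinPres.exists_lift' {K : Type*} [Group K] (P : FinPres K) {A : Subgroup K}
    (Q : FinPres A) :
    ∃ φ : FreeGroup (Fin Q.n) →* FreeGroup (Fin P.n), ∀ z, P.π (φ z) = (Q.π z : K) := by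
  have h : ∀ i, ∃ w, P.π w = (Q.π (FreeGroup.of i) : K) := fun i => P.surj _
  choose f hf using h
  refine ⟨FreeGroup.lift f, fun z => ?_⟩
  have : P.π.comp (FreeGroup.lift f) = A.subtype.comp Q.π := by
    ext i
    simp [hf]
  exact DFunLike.congr_fun this z

/-- Words for the left cosets, the word of the coset of `1` being `1`. -/
theorem FinPres.exists_transversal {K : Type*} [Group K] (P : FinPres K) (A : Subgroup K) :
    ∃ t : K ⧸ A → FreeGroup (Fin P.n), (∀ q, (QuotientGroup.mk (P.π (t q)) : K ⧸ A) = q) ∧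
      t (QuotientGroup.mk 1) = 1 := by
  classical
  have h : ∀ q : K ⧸ A, ∃ w : FreeGroup (Fin P.n), (QuotientGroup.mk (P.π w) : K ⧸ A) = q := by
    intro q
    obtain ⟨k, rfl⟩ := QuotientGroup.mk_surjective q
    obtain ⟨w, rfl⟩ := P.surj k
    exact ⟨w, rfl⟩
  choose t ht using h
  refine ⟨fun q => if q = QuotientGroup.mk 1 then 1 else t q, fun q => ?_, by simp⟩
  by_cases hq : q = QuotientGroup.mk 1
  · simp [hq]
  · simp [hq, ht]

theorem dehn_finiteIndex {K : Type*} [Group K] (P : FinPres K) (A : Subgroup K)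
    (hA : A.FiniteIndex) (Q : FinPres A) :
    ∃ C : ℕ, ∀ x, P.dehn x ≤ C * (Q.dehn (C * x) + x) := by
  classical
  have hfinq : Finite (K ⧸ A) := Subgroup.finite_quotient_of_finiteIndex
  obtain ⟨φ, hφ⟩ := P.exists_lift' Q
  obtain ⟨t, ht, ht1⟩ := P.exists_transversal A
  -- the areas of the images of the relators
  obtain ⟨K1, hK1⟩ : ∃ K1, ∀ r ∈ (Q.R : Set (FreeGroup (Fin Q.n))),
      AreaLE (P.R : Set (FreeGroup (Fin P.n))) K1 (φ r) := by
    apply exists_uniform (Finset.finite_toSet Q.R)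
      (fun r m => AreaLE (P.R : Set (FreeGroup (Fin P.n))) m (φ r))
      (fun r m n hmn h => h.mono hmn)
    intro r hr
    apply exists_areaLE
    rw [← P.ker, MonoidHom.mem_ker, hφ]
    have : Q.π r = 1 := by
      rw [← MonoidHom.mem_ker, Q.ker]
      exact Subgroup.subset_normalClosure hr
    rw [this]
    rfl
  -- moving a letter through
  obtain ⟨K2, hK2⟩ : ∃ K2, ∀ i ∈ (Set.univ : Set ((Fin P.n × Bool) × (K ⧸ A))),
      ∃ (v : FreeGroup (Fin Q.n)) (q' : K ⧸ A), v.norm ≤ K2 ∧
        P.π (FreeGroup.mk [i.1] * t i.2) = P.π (t q' * φ v) ∧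
        Near (P.R : Set (FreeGroup (Fin P.n))) K2 (FreeGroup.mk [i.1] * t i.2) (t q' * φ v) := by
    apply exists_uniform Set.finite_univ
      (fun (i : (Fin P.n × Bool) × (K ⧸ A)) m => ∃ (v : FreeGroup (Fin Q.n)) (q' : K ⧸ A),
        v.norm ≤ m ∧ P.π (FreeGroup.mk [i.1] * t i.2) = P.π (t q' * φ v) ∧
        Near (P.R : Set (FreeGroup (Fin P.n))) m (FreeGroup.mk [i.1] * t i.2) (t q' * φ v))
    · rintro i m n hmn ⟨v, q', h1, h2, h3⟩
      exact ⟨v, q', h1.trans hmn, h2, h3.mono hmn⟩
    · rintro ⟨a, q⟩ _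
      set g : K := P.π (FreeGroup.mk [a] * t q) with hg
      have hmem : (P.π (t (QuotientGroup.mk g)))⁻¹ * g ∈ A := by
        rw [← QuotientGroup.eq]
        exact ht _
      obtain ⟨v, hv⟩ := Q.surj ⟨_, hmem⟩
      have heq : P.π (FreeGroup.mk [a] * t q) = P.π (t (QuotientGroup.mk g) * φ v) := by
        rw [map_mul P.π (t _), hφ, hv, ← hg]
        show g = P.π (t (QuotientGroup.mk g)) * ((P.π (t (QuotientGroup.mk g)))⁻¹ * g)
        rw [mul_inv_cancel_left]
      obtain ⟨m, hm⟩ := P.near_of_eq' heq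
      exact ⟨max v.norm m, v, QuotientGroup.mk g, le_max_left _ _, heq, hm.mono (le_max_right _ _)⟩
  have key : ∀ L : List (Fin P.n × Bool), ∃ (v : FreeGroup (Fin Q.n)) (q' : K ⧸ A),
      v.norm ≤ L.length * K2 ∧ P.π (FreeGroup.mk L) = P.π (t q' * φ v) ∧
      Near (P.R : Set (FreeGroup (Fin P.n))) (L.length * K2) (FreeGroup.mk L) (t q' * φ v) := by
    intro L
    induction L with
    | nil =>
      refine ⟨1, QuotientGroup.mk 1, by simp, ?_, ?_⟩
      · rw [ht1, map_one φ, mul_one]; rfl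
      · rw [ht1, map_one φ, mul_one]
        have : (FreeGroup.mk [] : FreeGroup (Fin P.n)) = 1 := rfl
        rw [this]
        exact (Near.refl _).mono (Nat.zero_le _)
    | cons a L ih =>
      obtain ⟨v, q, h1, h2, h3⟩ := ih
      obtain ⟨w, q', h4, h5, h6⟩ := hK2 (a, q) (Set.mem_univ _)
      have e : (FreeGroup.mk (a :: L) : FreeGroup (Fin P.n)) = FreeGroup.mk [a] * FreeGroup.mk L := by
        rw [FreeGroup.mul_mk]; rfl
      have e2 : t q' * φ (w * v) = t q' * φ w * φ v := by
        rw [map_mul, mul_assoc]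
      refine ⟨w * v, q', ?_, ?_, ?_⟩
      · calc (w * v).norm ≤ w.norm + v.norm := FreeGroup.norm_mul_le w v
          _ ≤ (a :: L).length * K2 := by
            rw [List.length_cons, Nat.add_mul, Nat.one_mul]
            omega
      · rw [e, map_mul, h2, map_mul P.π (t q) (φ v), e2, map_mul P.π _ (φ v), ← h5, map_mul P.π _ (t q)]
        group
      · rw [e, e2, List.length_cons, Nat.add_mul, Nat.one_mul]
        have h7 := h3.mul_left (FreeGroup.mk [a])
        have h8 := h6.mul_right (φ v)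
        rw [mul_assoc] at h8
        exact h7.trans h8
  refine ⟨max K1 K2, fun x => ?_⟩
  set C := max K1 K2 with hC
  apply P.dehn_le
  intro w hw h1
  obtain ⟨v, q, h2, h3, h4⟩ := key w.toWord
  rw [FreeGroup.mk_toWord] at h3 h4
  have hlen : w.toWord.length ≤ x := hw
  have hbound : w.toWord.length * K2 ≤ C * x := by
    calc w.toWord.length * K2 ≤ x * C := Nat.mul_le_mul hlen (le_max_right _ _)
      _ = C * x := Nat.mul_comm _ _
  rw [h1, map_mul, hφ] at h3
  have hq : q = QuotientGroup.mk 1 := by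
    rw [← ht q, QuotientGroup.eq]
    have : (P.π (t q))⁻¹ = (Q.π v : K) := by
      rw [inv_eq_iff_mul_eq_one, ← h3]
    rw [this, mul_one]
    exact (Q.π v).2
  rw [hq, ht1, map_one, one_mul] at h3
  rw [hq, ht1, one_mul] at h4
  have hv1 : Q.π v = 1 := Subtype.ext h3.symm
  have h5 := Q.areaLE_dehn (x := C * x) (h2.trans hbound) hv1
  have h6 := AreaLE.map φ hK1 h5
  have h7 := h4.area_left h6
  refine h7.mono ?_
  have h8 : Q.dehn (C * x) * K1 ≤ C * Q.dehn (C * x) := by
    rw [Nat.mul_comm]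
    exact Nat.mul_le_mul_right _ (le_max_left _ _)
  rw [Nat.mul_add]
  omega

end Pda3a14
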