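import Pool.Agent.Lib.Pda3a14.EConst
import Pool.Agent.Lib.Pda3a14.SFiS
import Pool.Agent.Lib.Pda3a14.SFiU

/-!
# Exponential fillings and subgroups of finite index
-/

namespace Pda3a14

variable {G : Type*} [Group G]

theorem num_virt {K1 K2 C d ℓ r m : ℕ} (hm : m ≤ ℓ) :
    m * K2 + (ℓ * K2 + 1) ^ d * C ^ (r + K2 + 1) * K1 ≤
      (ℓ + 1) ^ (d + 1) *
        ((K2 + 1) ^ d * (K1 + 1) * (C + 1) ^ (K2 + 1) + (K2 + 1)) ^ (r + 1) := by
  set Z := (K2 + 1) ^ d * (K1 + 1) * (C + 1) ^ (K2 + 1) with hZ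
  have h1 : (ℓ * K2 + 1) ^ d ≤ (K2 + 1) ^ d * (ℓ + 1) ^ d := by
    rw [← mul_pow]
    apply Nat.pow_le_pow_left
    have : (K2 + 1) * (ℓ + 1) = ℓ * K2 + 1 + (ℓ + K2) := by ring
    omega
  have h2 : C ^ (r + K2 + 1) ≤ ((C + 1) ^ (K2 + 1)) ^ (r + 1) := by
    rw [← pow_mul]
    refine (Nat.pow_le_pow_left (by omega : C ≤ C + 1) _).trans
      (Nat.pow_le_pow_right (by omega) ?_)
    have : (K2 + 1) * (r + 1) = r + K2 + 1 + K2 * r := by ring
    omega
  have hone : ∀ a : ℕ, a + 1 ≤ (a + 1) ^ (r + 1) := by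
    intro a
    calc a + 1 = (a + 1) ^ 1 := (pow_one _).symm
      _ ≤ (a + 1) ^ (r + 1) := Nat.pow_le_pow_right (by omega) (by omega)
  have h3 : (K2 + 1) ^ d ≤ ((K2 + 1) ^ d) ^ (r + 1) := by
    calc (K2 + 1) ^ d = ((K2 + 1) ^ d) ^ 1 := (pow_one _).symm
      _ ≤ _ := Nat.pow_le_pow_right (Nat.one_le_pow _ _ (by omega)) (by omega)
  have h4 : (ℓ * K2 + 1) ^ d * C ^ (r + K2 + 1) * K1 ≤ (ℓ + 1) ^ d * Z ^ (r + 1) := by
    calc (ℓ * K2 + 1) ^ d * C ^ (r + K2 + 1) * K1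
        ≤ (((K2 + 1) ^ d) ^ (r + 1) * (ℓ + 1) ^ d) * ((C + 1) ^ (K2 + 1)) ^ (r + 1) *
            (K1 + 1) ^ (r + 1) :=
          Nat.mul_le_mul (Nat.mul_le_mul (h1.trans (Nat.mul_le_mul_right _ h3)) h2)
            ((Nat.le_succ _).trans (hone _))
      _ = (ℓ + 1) ^ d * Z ^ (r + 1) := by rw [hZ, mul_pow, mul_pow]; ring
  have h5 : (ℓ + 1) ^ d * Z ^ (r + 1) ≤ (ℓ + 1) ^ (d + 1) * Z ^ (r + 1) :=
    Nat.mul_le_mul_right _ (Nat.pow_le_pow_right (by omega) (by omega))
  have h6 : m * K2 ≤ (ℓ + 1) ^ (d + 1) * (K2 + 1) ^ (r + 1) := by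
    apply Nat.mul_le_mul
    · calc m ≤ ℓ + 1 := by omega
        _ = (ℓ + 1) ^ 1 := (pow_one _).symm
        _ ≤ _ := Nat.pow_le_pow_right (by omega) (by omega)
    · exact (Nat.le_succ _).trans (hone _)
  have h7 : Z ^ (r + 1) + (K2 + 1) ^ (r + 1) ≤ (Z + (K2 + 1)) ^ (r + 1) := by
    have i1 : Z ^ r ≤ (Z + (K2 + 1)) ^ r := Nat.pow_le_pow_left (by omega) _
    have i2 : (K2 + 1) ^ r ≤ (Z + (K2 + 1)) ^ r := Nat.pow_le_pow_left (by omega) _
    calc Z ^ (r + 1) + (K2 + 1) ^ (r + 1) = Z ^ r * Z + (K2 + 1) ^ r * (K2 + 1) := by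
          rw [pow_succ, pow_succ]
      _ ≤ (Z + (K2 + 1)) ^ r * Z + (Z + (K2 + 1)) ^ r * (K2 + 1) :=
          Nat.add_le_add (Nat.mul_le_mul_right _ i1) (Nat.mul_le_mul_right _ i2)
      _ = (Z + (K2 + 1)) ^ (r + 1) := by rw [pow_succ]; ring
  calc m * K2 + (ℓ * K2 + 1) ^ d * C ^ (r + K2 + 1) * K1
      ≤ (ℓ + 1) ^ (d + 1) * (K2 + 1) ^ (r + 1) + (ℓ + 1) ^ (d + 1) * Z ^ (r + 1) :=
        Nat.add_le_add h6 (h4.trans h5)
    _ = (ℓ + 1) ^ (d + 1) * (Z ^ (r + 1) + (K2 + 1) ^ (r + 1)) := by ring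
    _ ≤ _ := Nat.mul_le_mul_left _ h7

theorem expFill_finiteIndex {ν : G → ℕ} (hν : IsLen ν) {H A : Subgroup G} (hAH : A ≤ H)
    (hfi : (A.subgroupOf H).FiniteIndex) (P : SPres H) (Q : SPres A) {d C : ℕ}
    (h : ExpFill ν Q.π (Q.R : Set (FreeGroup (Fin Q.n))) d C) :
    ∃ d' C' : ℕ, ExpFill ν P.π (P.R : Set (FreeGroup (Fin P.n))) d' C' := by
  classical
  have hfinq : Finite (H ⧸ A.subgroupOf H) := Subgroup.finite_quotient_of_finiteIndex
  obtain ⟨φ, hφ⟩ := P.exists_lift Q hAH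
  obtain ⟨t, ht, ht1⟩ : ∃ t : H ⧸ A.subgroupOf H → FreeGroup (Fin P.n),
      (∀ q, (QuotientGroup.mk (P.toFinPres.π (t q)) : H ⧸ A.subgroupOf H) = q) ∧
      t (QuotientGroup.mk 1) = 1 := P.toFinPres.exists_transversal (A.subgroupOf H)
  have hnil : ∀ n : ℕ, (FreeGroup.mk [] : FreeGroup (Fin n)) = 1 := fun _ => rfl
  obtain ⟨K1, hK1⟩ : ∃ K1, ∀ r ∈ (Q.R : Set (FreeGroup (Fin Q.n))),
      AreaLE (P.R : Set (FreeGroup (Fin P.n))) K1 (φ r) := by
    apply exists_uniform (Finset.finite_toSet Q.R)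
      (fun r m => AreaLE (P.R : Set (FreeGroup (Fin P.n))) m (φ r))
      (fun r m n hmn h => h.mono hmn)
    intro r hr
    apply exists_areaLE
    rw [← P.ker, MonoidHom.mem_ker, hφ, ← MonoidHom.mem_ker, Q.ker]
    exact Subgroup.subset_normalClosure hr
  obtain ⟨K2, hK2⟩ : ∃ K2, ∀ i ∈ (Set.univ : Set ((Fin P.n × Bool) × (H ⧸ A.subgroupOf H))),
      ∃ (v : List (Fin Q.n × Bool)) (q' : H ⧸ A.subgroupOf H), v.length ≤ K2 ∧
        P.π (FreeGroup.mk [i.1] * t i.2) = P.π (t q') * Q.π (FreeGroup.mk v) ∧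
        (∀ k, ν (P.π (t q') * Q.π (FreeGroup.mk (v.take k))) ≤ K2) ∧
        Near (P.R : Set (FreeGroup (Fin P.n))) K2 (FreeGroup.mk [i.1] * t i.2)
          (t q' * φ (FreeGroup.mk v)) := by
    apply exists_uniform Set.finite_univ
      (fun (i : (Fin P.n × Bool) × (H ⧸ A.subgroupOf H)) m =>
        ∃ (v : List (Fin Q.n × Bool)) (q' : H ⧸ A.subgroupOf H), v.length ≤ m ∧
        P.π (FreeGroup.mk [i.1] * t i.2) = P.π (t q') * Q.π (FreeGroup.mk v) ∧
        (∀ k, ν (P.π (t q') * Q.π (FreeGroup.mk (v.take k))) ≤ m) ∧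
        Near (P.R : Set (FreeGroup (Fin P.n))) m (FreeGroup.mk [i.1] * t i.2)
          (t q' * φ (FreeGroup.mk v)))
    · rintro i m n hmn ⟨v, q', h1, h2, h3, h4⟩
      exact ⟨v, q', h1.trans hmn, h2, fun k => (h3 k).trans hmn, h4.mono hmn⟩
    · rintro ⟨a, q⟩ _
      let g : H := P.toFinPres.π (FreeGroup.mk [a] * t q)
      have hmem : (P.toFinPres.π (t (QuotientGroup.mk g)))⁻¹ * g ∈ A.subgroupOf H := by
        rw [← QuotientGroup.eq]
        exact ht _
      have hmem' : (P.π (t (QuotientGroup.mk g)))⁻¹ * P.π (FreeGroup.mk [a] * t q) ∈ A := hmem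
      obtain ⟨w, hw⟩ := Q.exists_word hmem'
      have hv : Q.π (FreeGroup.mk w.toWord) =
          (P.π (t (QuotientGroup.mk g)))⁻¹ * P.π (FreeGroup.mk [a] * t q) := by
        rw [FreeGroup.mk_toWord]; exact hw
      have heq : P.π (FreeGroup.mk [a] * t q) =
          P.π (t (QuotientGroup.mk g)) * Q.π (FreeGroup.mk w.toWord) := by
        rw [hv, mul_inv_cancel_left]
      have heq' : P.π (FreeGroup.mk [a] * t q) =
          P.π (t (QuotientGroup.mk g) * φ (FreeGroup.mk w.toWord)) := by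
        rw [map_mul P.π (t (QuotientGroup.mk g)), hφ]; exact heq
      obtain ⟨m, hm⟩ := P.near_of_eq heq'
      obtain ⟨r, hr⟩ := exists_PB ν Q.π w.toWord
      refine ⟨max (max w.toWord.length m) (ν (P.π (t (QuotientGroup.mk g))) + r), w.toWord,
        QuotientGroup.mk g, ?_, heq, fun k => ?_, ?_⟩
      · exact (le_max_left _ _).trans (le_max_left _ _)
      · exact ((hν.mul _ _).trans (Nat.add_le_add_left (hr k) _)).trans (le_max_right _ _)
      · exact hm.mono ((le_max_right _ _).trans (le_max_left _ _))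
  have key : ∀ L : List (Fin P.n × Bool), ∃ (v : List (Fin Q.n × Bool))
      (q' : H ⧸ A.subgroupOf H),
      v.length ≤ L.length * K2 ∧ P.π (FreeGroup.mk L) = P.π (t q') * Q.π (FreeGroup.mk v) ∧
      (∀ (g : G) (r : ℕ), (∀ k, ν (g * P.π (FreeGroup.mk (L.take k))) ≤ r) →
        ∀ k, ν (g * (P.π (t q') * Q.π (FreeGroup.mk (v.take k)))) ≤ r + K2) ∧
      Near (P.R : Set (FreeGroup (Fin P.n))) (L.length * K2) (FreeGroup.mk L)
        (t q' * φ (FreeGroup.mk v)) := by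
    intro L
    induction L with
    | nil =>
      refine ⟨[], QuotientGroup.mk 1, by simp, ?_, ?_, ?_⟩
      · rw [ht1, hnil, hnil, map_one, map_one, mul_one]
      · intro g r hr k
        rw [ht1, List.take_nil, hnil, map_one, map_one, mul_one, mul_one]
        have h0 := hr 0
        rw [List.take_zero, hnil, map_one, mul_one] at h0
        omega
      · rw [ht1, hnil, hnil, map_one φ, mul_one]
        exact (Near.refl _).mono (Nat.zero_le _)
    | cons a L ih =>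
      obtain ⟨v, q, h1, h2, h3, h4⟩ := ih
      obtain ⟨w, q', h5, h6, h7, h8⟩ := hK2 (a, q) (Set.mem_univ _)
      have e : ∀ L' : List (Fin P.n × Bool), (FreeGroup.mk (a :: L') : FreeGroup (Fin P.n)) =
          FreeGroup.mk [a] * FreeGroup.mk L' := by
        intro L'
        rw [FreeGroup.mul_mk]; rfl
      have e3 : P.π (FreeGroup.mk [a]) * P.π (t q) = P.π (t q') * Q.π (FreeGroup.mk w) := by
        rw [← map_mul]; exact h6
      refine ⟨w ++ v, q', ?_, ?_, ?_, ?_⟩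
      · rw [List.length_append, List.length_cons, Nat.add_mul, Nat.one_mul]
        have : w.length ≤ K2 := h5
        omega
      · rw [e, map_mul, h2, ← FreeGroup.mul_mk, map_mul, ← mul_assoc, e3, mul_assoc]
      · intro g r hr k
        rw [List.take_append, ← FreeGroup.mul_mk, map_mul]
        rcases Nat.le_total k w.length with hk | hk
        · have h9 : v.take (k - w.length) = [] := by
            rw [Nat.sub_eq_zero_of_le hk, List.take_zero]
          rw [h9, hnil, map_one, mul_one]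
          have h0 := hr 0
          rw [List.take_zero, hnil, map_one, mul_one] at h0
          exact (hν.mul _ _).trans (Nat.add_le_add h0 (h7 k))
        · rw [List.take_of_length_le hk, ← mul_assoc (P.π (t q')), ← e3]
          have h10 := h3 (g * P.π (FreeGroup.mk [a])) r (by
            intro j
            have h11 := hr (j + 1)
            rwa [List.take_succ_cons, e, map_mul, ← mul_assoc] at h11) (k - w.length)
          have h12 : g * (P.π (FreeGroup.mk [a]) * P.π (t q) *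
              Q.π (FreeGroup.mk (v.take (k - w.length)))) =
              g * P.π (FreeGroup.mk [a]) * (P.π (t q) *
              Q.π (FreeGroup.mk (v.take (k - w.length)))) := by
            simp only [mul_assoc]
          rw [h12]
          exact h10
      · rw [e, ← FreeGroup.mul_mk, map_mul φ, ← mul_assoc, List.length_cons, Nat.add_mul,
          Nat.one_mul]
        have h9 := h4.mul_left (FreeGroup.mk [a])
        have h10 : Near (P.R : Set (FreeGroup (Fin P.n))) K2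
            (FreeGroup.mk [a] * t q * φ (FreeGroup.mk v))
            (t q' * φ (FreeGroup.mk w) * φ (FreeGroup.mk v)) := h8.mul_right _
        rw [mul_assoc (FreeGroup.mk [a])] at h10
        exact h9.trans h10
  refine ⟨d + 1, (K2 + 1) ^ d * (K1 + 1) * (C + 1) ^ (K2 + 1) + (K2 + 1), ?_⟩
  intro ℓ r L hL hPB hL1
  obtain ⟨v, q, h1, h2, h3, h4⟩ := key L
  rw [hL1] at h2
  have hq : q = QuotientGroup.mk 1 := by
    rw [← ht q, QuotientGroup.eq, mul_one]
    have h5 : (P.π (t q))⁻¹ = Q.π (FreeGroup.mk v) := by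
      rw [inv_eq_iff_mul_eq_one, ← h2]
    have h6 : (P.π (t q))⁻¹ ∈ A := by
      rw [h5]
      exact Q.π_mem _
    exact h6
  rw [hq, ht1] at h2 h3 h4
  rw [map_one, one_mul] at h2
  rw [one_mul] at h4
  have hPBv : PB ν Q.π (r + K2) v := by
    intro k
    have h5 := h3 1 r (by intro k; rw [one_mul]; exact hPB k) k
    rwa [map_one, one_mul, one_mul] at h5
  have h5 := h (ℓ * K2) (r + K2) v (h1.trans (Nat.mul_le_mul_right _ hL)) hPBv h2.symm
  have h6 := AreaLE.map φ hK1 h5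
  have h7 := h4.area_left h6
  exact h7.mono (num_virt hL)

end Pda3a14
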