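import Pool.Agent.Lib.Pda3a14.SStrong
import Pool.Agent.Lib.Pda3a14.SFiS
import Pool.Agent.Lib.Pda3a14.SFiU

/-!
# Passing to groups which contain a given group as a subgroup of finite index
-/

namespace Pda3a14

open MulAction

/-- If all finitely presented subgroups of the finite index subgroup `G₀` have polynomially bounded
Dehn functions, so have all finitely presented subgroups of `G`. -/
theorem poly_virtual {G : Type*} [Group G] (G₀ : Subgroup G) (h0 : G₀.FiniteIndex)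
    (h : ∀ K ≤ G₀, ∀ P : FinPres K, ∃ d : ℕ, Preceq (fun x => (P.dehn x : ℝ)) (fun x => x ^ d))
    (H : Subgroup G) (P : FinPres H) :
    ∃ d : ℕ, Preceq (fun x => (P.dehn x : ℝ)) (fun x => x ^ d) := by
  have hfi : (G₀.subgroupOf H).FiniteIndex := inferInstance
  obtain ⟨Q⟩ := finPres_subgroup P (G₀.subgroupOf H) hfi
  obtain ⟨C, hC⟩ := dehn_finiteIndex P (G₀.subgroupOf H) hfi Q
  let e : (G₀.subgroupOf H) ≃* ((G₀.subgroupOf H).map H.subtype) :=
    Subgroup.equivMapOfInjective _ H.subtype H.subtype_injective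
  obtain ⟨d, hd⟩ := h ((G₀.subgroupOf H).map H.subtype) (by
    rintro _ ⟨x, hx, rfl⟩
    exact hx) (Q.ofEquiv e)
  rw [FinPres.ofEquiv_dehn] at hd
  obtain ⟨E, hE⟩ := poly_nat_bound hd
  refine ⟨d + 1, poly_of_nat_bound (E := C * (E * (C + 1) ^ (d + 1) + 1)) (fun x => ?_)⟩
  refine (hC x).trans ?_
  have h1 : Q.dehn (C * x) ≤ E * (C + 1) ^ (d + 1) * (x + 1) ^ (d + 1) := by
    refine (hE (C * x)).trans ?_
    rw [mul_assoc, ← mul_pow]
    apply Nat.mul_le_mul_left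
    apply Nat.pow_le_pow_left
    have : (C + 1) * (x + 1) = C * x + 1 + (C + x) := by ring
    omega
  have h2 : x ≤ 1 * (x + 1) ^ (d + 1) := by
    rw [one_mul]
    calc x ≤ x + 1 := by omega
      _ = (x + 1) ^ 1 := (pow_one _).symm
      _ ≤ (x + 1) ^ (d + 1) := Nat.pow_le_pow_right (by omega) (by omega)
  calc C * (Q.dehn (C * x) + x)
      ≤ C * (E * (C + 1) ^ (d + 1) * (x + 1) ^ (d + 1) + 1 * (x + 1) ^ (d + 1)) :=
        Nat.mul_le_mul_left _ (Nat.add_le_add h1 h2)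
    _ = C * (E * (C + 1) ^ (d + 1) + 1) * (x + 1) ^ (d + 1) := by ring

theorem exp_virtual {G : Type*} [Group G] (G₀ : Subgroup G) (h0 : G₀.FiniteIndex)
    (h : ∀ K ≤ G₀, ∀ P : FinPres K, Preceq (fun x => (P.dehn x : ℝ)) Real.exp)
    (H : Subgroup G) (P : FinPres H) : Preceq (fun x => (P.dehn x : ℝ)) Real.exp := by
  have hfi : (G₀.subgroupOf H).FiniteIndex := inferInstance
  obtain ⟨Q⟩ := finPres_subgroup P (G₀.subgroupOf H) hfi
  obtain ⟨C, hC⟩ := dehn_finiteIndex P (G₀.subgroupOf H) hfi Q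
  let e : (G₀.subgroupOf H) ≃* ((G₀.subgroupOf H).map H.subtype) :=
    Subgroup.equivMapOfInjective _ H.subtype H.subtype_injective
  have hd := h ((G₀.subgroupOf H).map H.subtype) (by
    rintro _ ⟨x, hx, rfl⟩
    exact hx) (Q.ofEquiv e)
  rw [FinPres.ofEquiv_dehn] at hd
  obtain ⟨A, hA⟩ := exp_nat_bound hd
  refine exp_of_nat_bound (A := (C + 1) * ((A + 1) ^ (C + 1) * 2)) (fun x => ?_)
  refine (hC x).trans ?_
  have h1 : Q.dehn (C * x) ≤ ((A + 1) ^ (C + 1)) ^ (x + 1) := by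
    refine (hA (C * x)).trans ?_
    rw [← pow_mul]
    refine (Nat.pow_le_pow_left (by omega : A ≤ A + 1) _).trans
      (Nat.pow_le_pow_right (by omega) ?_)
    have : (C + 1) * (x + 1) = C * x + 1 + (C + x) := by ring
    omega
  have h2 : x + 1 ≤ 2 ^ (x + 1) := (Nat.lt_two_pow_self (n := x + 1)).le
  have h3 : 1 ≤ ((A + 1) ^ (C + 1)) ^ (x + 1) := Nat.one_le_pow _ _ (Nat.pos_of_ne_zero (by positivity))
  have h4 : Q.dehn (C * x) + x ≤ ((A + 1) ^ (C + 1)) ^ (x + 1) * 2 ^ (x + 1) := by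
    have h5 : ((A + 1) ^ (C + 1)) ^ (x + 1) * (x + 1) ≤
        ((A + 1) ^ (C + 1)) ^ (x + 1) * 2 ^ (x + 1) := Nat.mul_le_mul_left _ h2
    have h6 : ((A + 1) ^ (C + 1)) ^ (x + 1) + x ≤ ((A + 1) ^ (C + 1)) ^ (x + 1) * (x + 1) := by
      rw [mul_add, mul_one]
      have : 1 * x ≤ ((A + 1) ^ (C + 1)) ^ (x + 1) * x := Nat.mul_le_mul_right _ h3
      omega
    omega
  have h7 : C ≤ (C + 1) ^ (x + 1) := by
    calc C ≤ C + 1 := by omega
      _ = (C + 1) ^ 1 := (pow_one _).symm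
      _ ≤ (C + 1) ^ (x + 1) := Nat.pow_le_pow_right (by omega) (by omega)
  calc C * (Q.dehn (C * x) + x)
      ≤ (C + 1) ^ (x + 1) * (((A + 1) ^ (C + 1)) ^ (x + 1) * 2 ^ (x + 1)) :=
        Nat.mul_le_mul h7 h4
    _ = ((C + 1) * ((A + 1) ^ (C + 1) * 2)) ^ (x + 1) := by rw [mul_pow, mul_pow]

end Pda3a14
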