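import Pool.Agent.Lib.Pda3a14.EBuild
import Pool.Agent.Lib.Pda3a14.EVirt
import Pool.Agent.Lib.Pda3a14.SVirtual

/-!
# Hierarchies with tamely exponentially distorted edge groups
-/

namespace Pda3a14

open MulAction

/-- The vertex groups of a finitely presented group acting on a tree with finitely presented edge
groups are finitely presented. -/
theorem vertex_fp {G : Type*} [Group G] {V : Type*} [MulAction G V] (T : SimpleGraph V)
    (hT : T.IsTree) (hadj : ∀ (g : G) (x y : V), T.Adj x y → T.Adj (g • x) (g • y))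
    (H : Subgroup G)
    (hE : ∀ x y, T.Adj x y →
      Nonempty (FinPres (H ⊓ stabilizer G x ⊓ stabilizer G y : Subgroup G))) (P : SPres H)
    (o : V) : Nonempty (SPres (H ⊓ stabilizer G o)) := by
  obtain ⟨d, h1, h2, h3⟩ := exists_dir T hT
  apply fp_of_dir H o (d o) ?_ _ (closure_good T hT hadj d h1 h3 H o) ?_ ?_ ?_ P
  · intro k _ hk p hp
    have := dir_equiv T hT hadj d h1 h3 k o p hp
    rwa [hk] at this
  · intro s hs
    exact hs.1
  · intro s hs g hg h4 h5
    exact hs.2 g hg h4 h5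
  · intro g _ hgo
    obtain ⟨P'⟩ := hE o (d o (g • o)) (h2 o _ hgo)
    exact ⟨P'.toSPres⟩

theorem num_efill {c d C : ℕ} (ℓ r : ℕ) :
    c * (ℓ + 1) * ((c ^ (r + 1) * (ℓ + 1) + 1) ^ d * C ^ (c * (r + 1) + 1) + c ^ (r + 1)) ≤
      (ℓ + 1) ^ (d + 1) *
        ((c + 1) * ((c + 1) ^ d * (C + 1) ^ (c + 1) + (c + 1))) ^ (r + 1) := by
  set Z := (c + 1) ^ d * (C + 1) ^ (c + 1) with hZ
  have h1 : c ^ (r + 1) * (ℓ + 1) + 1 ≤ (c + 1) ^ (r + 1) * (ℓ + 1) := by
    have i1 : c ^ (r + 1) + 1 ≤ (c + 1) ^ (r + 1) := by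
      have := Nat.pow_lt_pow_left (Nat.lt_succ_self c) (Nat.succ_ne_zero r)
      exact this
    have i2 : (c ^ (r + 1) + 1) * (ℓ + 1) ≤ (c + 1) ^ (r + 1) * (ℓ + 1) :=
      Nat.mul_le_mul_right _ i1
    have i3 : (c ^ (r + 1) + 1) * (ℓ + 1) = c ^ (r + 1) * (ℓ + 1) + (ℓ + 1) := by ring
    omega
  have h2 : (c ^ (r + 1) * (ℓ + 1) + 1) ^ d ≤ ((c + 1) ^ d) ^ (r + 1) * (ℓ + 1) ^ d := by
    calc (c ^ (r + 1) * (ℓ + 1) + 1) ^ d ≤ ((c + 1) ^ (r + 1) * (ℓ + 1)) ^ d :=
          Nat.pow_le_pow_left h1 _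
      _ = ((c + 1) ^ d) ^ (r + 1) * (ℓ + 1) ^ d := by
          rw [mul_pow, ← pow_mul, ← pow_mul, mul_comm (r + 1) d]
  have h3 : C ^ (c * (r + 1) + 1) ≤ ((C + 1) ^ (c + 1)) ^ (r + 1) := by
    rw [← pow_mul]
    refine (Nat.pow_le_pow_left (by omega : C ≤ C + 1) _).trans
      (Nat.pow_le_pow_right (by omega) ?_)
    have : (c + 1) * (r + 1) = c * (r + 1) + 1 + r := by ring
    omega
  have h4 : (c ^ (r + 1) * (ℓ + 1) + 1) ^ d * C ^ (c * (r + 1) + 1) ≤
      Z ^ (r + 1) * (ℓ + 1) ^ d := by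
    calc _ ≤ (((c + 1) ^ d) ^ (r + 1) * (ℓ + 1) ^ d) * ((C + 1) ^ (c + 1)) ^ (r + 1) :=
          Nat.mul_le_mul h2 h3
      _ = Z ^ (r + 1) * (ℓ + 1) ^ d := by rw [hZ, mul_pow]; ring
  have h5 : c ^ (r + 1) ≤ (c + 1) ^ (r + 1) * (ℓ + 1) ^ d := by
    have i1 : c ^ (r + 1) ≤ (c + 1) ^ (r + 1) := Nat.pow_le_pow_left (by omega) _
    have i2 : 1 ≤ (ℓ + 1) ^ d := Nat.one_le_pow _ _ (by omega)
    calc c ^ (r + 1) ≤ (c + 1) ^ (r + 1) * 1 := by omega
      _ ≤ _ := Nat.mul_le_mul_left _ i2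
  have h6 : Z ^ (r + 1) + (c + 1) ^ (r + 1) ≤ (Z + (c + 1)) ^ (r + 1) := by
    have i1 : Z ^ r ≤ (Z + (c + 1)) ^ r := Nat.pow_le_pow_left (by omega) _
    have i2 : (c + 1) ^ r ≤ (Z + (c + 1)) ^ r := Nat.pow_le_pow_left (by omega) _
    calc Z ^ (r + 1) + (c + 1) ^ (r + 1) = Z ^ r * Z + (c + 1) ^ r * (c + 1) := by
          rw [pow_succ, pow_succ]
      _ ≤ (Z + (c + 1)) ^ r * Z + (Z + (c + 1)) ^ r * (c + 1) :=
          Nat.add_le_add (Nat.mul_le_mul_right _ i1) (Nat.mul_le_mul_right _ i2)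
      _ = (Z + (c + 1)) ^ (r + 1) := by rw [pow_succ]; ring
  have h7 : c ≤ (c + 1) ^ (r + 1) := by
    calc c ≤ c + 1 := by omega
      _ = (c + 1) ^ 1 := (pow_one _).symm
      _ ≤ (c + 1) ^ (r + 1) := Nat.pow_le_pow_right (by omega) (by omega)
  calc c * (ℓ + 1) * ((c ^ (r + 1) * (ℓ + 1) + 1) ^ d * C ^ (c * (r + 1) + 1) + c ^ (r + 1))
      ≤ (c + 1) ^ (r + 1) * (ℓ + 1) *
          (Z ^ (r + 1) * (ℓ + 1) ^ d + (c + 1) ^ (r + 1) * (ℓ + 1) ^ d) :=
        Nat.mul_le_mul (Nat.mul_le_mul_right _ h7) (Nat.add_le_add h4 h5)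
    _ = (c + 1) ^ (r + 1) * (ℓ + 1) * ((ℓ + 1) ^ d * (Z ^ (r + 1) + (c + 1) ^ (r + 1))) := by
        ring
    _ ≤ (c + 1) ^ (r + 1) * (ℓ + 1) * ((ℓ + 1) ^ d * (Z + (c + 1)) ^ (r + 1)) :=
        Nat.mul_le_mul_left _ (Nat.mul_le_mul_left _ h6)
    _ = _ := by rw [mul_pow]; ring

theorem TameExp.comap {Γ G : Type*} [Group Γ] [Group G] {ν : G → ℕ} (ι : Γ →* G)
    (hι : Function.Injective ι) (E : Subgroup Γ) (h : TameExp ν (E.map ι)) :
    TameExp (fun γ => ν (ι γ)) E := by
  classical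
  obtain ⟨T, C, hT, hC⟩ := h
  have hTE : ∀ t ∈ T, ∃ e ∈ E, ι e = t := by
    intro t ht
    have : t ∈ E.map ι := by rw [← hT]; exact Subgroup.subset_closure ht
    exact this
  let T' : Finset Γ := T.preimage ι hι.injOn
  have hT' : ∀ t : Γ, t ∈ T' ↔ ι t ∈ T := fun t => Finset.mem_preimage
  refine ⟨T', C, ?_, ?_⟩
  · have h1 : (Subgroup.closure (T' : Set Γ)).map ι = E.map ι := by
      rw [MonoidHom.map_closure, ← hT]
      congr 1
      ext t
      constructor
      · rintro ⟨t', ht', rfl⟩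
        exact (hT' t').1 ht'
      · intro ht
        obtain ⟨e, _, rfl⟩ := hTE t ht
        exact ⟨e, (hT' _).2 ht, rfl⟩
    exact Subgroup.map_injective hι h1
  · intro n e he hn
    obtain ⟨l, h1, h2, h3, h4⟩ := hC n (ι e) ⟨e, he, rfl⟩ hn
    have key : ∀ l : List G, (∀ s ∈ l, s ∈ T ∨ s⁻¹ ∈ T) → ∃ l' : List Γ, l'.map ι = l ∧
        (∀ s ∈ l', s ∈ T' ∨ s⁻¹ ∈ T') := by
      intro l
      induction l with
      | nil => intro _; exact ⟨[], rfl, by simp⟩
      | cons a l ih =>
        intro hl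
        obtain ⟨l', k1, k2⟩ := ih (fun s hs => hl s (by simp [hs]))
        have ha : ∃ a' : Γ, ι a' = a := by
          rcases hl a (by simp) with h | h
          · obtain ⟨e, _, he⟩ := hTE _ h
            exact ⟨e, he⟩
          · obtain ⟨e, _, he⟩ := hTE _ h
            exact ⟨e⁻¹, by rw [map_inv, he, inv_inv]⟩
        obtain ⟨a', rfl⟩ := ha
        refine ⟨a' :: l', by simp [k1], ?_⟩
        intro s hs
        rcases List.mem_cons.1 hs with rfl | h
        · rcases hl (ι s) (by simp) with h | h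
          · left; exact (hT' _).2 h
          · right
            rw [hT', map_inv]
            exact h
        · exact k2 s h
    obtain ⟨l', k1, k2⟩ := key l h2
    subst k1
    refine ⟨l', by simpa using h1, k2, ?_, ?_⟩
    · apply hι
      rw [map_list_prod]
      exact h3
    · intro k
      have h5 := h4 k
      rw [← List.map_take, ← map_list_prod] at h5
      exact h5

/-- Hierarchies (inside `G`, with the length function `ν`): groups all of whose finitely presented
subgroups have polynomially bounded Dehn functions; groups acting on a tree such that every finitely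
generated subgroup of an edge group is finitely presented and tamely exponentially distorted with
respect to `ν`, with vertex groups in the class; groups with a subgroup of finite index in the
class. -/
inductive ExpClass (G : Type) [Group G] (ν : G → ℕ) : Subgroup G → Prop
  | base (K : Subgroup G) : (∀ K' ≤ K, ∀ P : FinPres K', ∃ d : ℕ,
      Preceq (fun x => (P.dehn x : ℝ)) (fun x => x ^ d)) → ExpClass G ν K
  | tree (K : Subgroup G) (V : Type) (j : MulAction K V) (T : SimpleGraph V) : T.IsTree →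
      (∀ (g : K) (x y : V), T.Adj x y → T.Adj (g • x) (g • y)) →
      (∀ x y : V, T.Adj x y → ∀ E ≤ stabilizer K x ⊓ stabilizer K y, E.FG →
        Nonempty (FinPres E) ∧ TameExp ν (E.map K.subtype)) →
      (∀ x : V, ExpClass G ν ((stabilizer K x).map K.subtype)) → ExpClass G ν K
  | virt (K K' : Subgroup G) : K' ≤ K → (K'.subgroupOf K).FiniteIndex → ExpClass G ν K' →
      ExpClass G ν K

/-- Transport of a presentation along an injective homomorphism. -/
def SPres.mapInj {Γ G : Type*} [Group Γ] [Group G] {H : Subgroup Γ} (P : SPres H) (ι : Γ →* G)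
    (hι : Function.Injective ι) : SPres (H.map ι) where
  n := P.n
  π := ι.comp P.π
  R := P.R
  range_eq := by rw [← MonoidHom.map_range, P.range_eq]
  ker := by rw [← P.ker, MonoidHom.ker_comp_of_injective _ _ hι]

theorem ExpClass.expFill {G : Type} [Group G] {ν : G → ℕ} (hν : IsLen ν) {K : Subgroup G}
    (h : ExpClass G ν K) : ∀ H ≤ K, ∀ P : SPres H, ∃ d C : ℕ,
      ExpFill ν P.π (P.R : Set (FreeGroup (Fin P.n))) d C := by
  classical
  induction h with
  | base K hK =>
    intro H hH P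
    obtain ⟨d, hd⟩ := hK H hH P.toFinPres
    obtain ⟨E, hE⟩ := poly_nat_bound hd
    refine ⟨d + 1, E + 1, ?_⟩
    intro ℓ r L hL _ h1
    have h2 : AreaLE (P.R : Set (FreeGroup (Fin P.n))) (P.toFinPres.dehn ℓ)
        (FreeGroup.mk L) := by
      apply P.toFinPres.areaLE_dehn
      · exact FreeGroup.norm_mk_le.trans hL
      · exact Subtype.ext h1
    apply h2.mono
    refine (hE ℓ).trans ?_
    rw [mul_comm]
    apply Nat.mul_le_mul_left
    calc E ≤ E + 1 := by omega
      _ = (E + 1) ^ 1 := (pow_one _).symm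
      _ ≤ (E + 1) ^ (r + 1) := Nat.pow_le_pow_right (by omega) (by omega)
  | tree K V j T hT hadj hE _ ih =>
    intro H hH P
    -- the acting group
    let H' : Subgroup K := H.subgroupOf K
    let e1 : H' ≃* H := Subgroup.subgroupOfEquivOfLe hH
    let P1 : FinPres H' := P.toFinPres.ofEquiv e1.symm
    obtain ⟨V', inst, T', ϕ, hT', hadj', hϕ, hϕadj, hfg⟩ := exists_resolution P1 T hT
      (fun h x y hxy => hadj (h : K) x y hxy)
    let ι : H' →* G := K.subtype.comp H'.subtype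
    have hι : Function.Injective ι := K.subtype_injective.comp H'.subtype_injective
    have hst : ∀ x : V', ∀ h ∈ stabilizer H' x, (h : K) ∈ stabilizer K (ϕ x) := by
      intro x h hh
      have h1 := hϕ h x
      have h2 : h • x = x := hh
      rw [h2] at h1
      exact h1.symm
    have hedge : ∀ x y : V', T'.Adj x y →
        Nonempty (FinPres (⊤ ⊓ stabilizer H' x ⊓ stabilizer H' y : Subgroup H')) ∧
        TameExp (fun γ => ν (ι γ)) (⊤ ⊓ stabilizer H' x ⊓ stabilizer H' y : Subgroup H') := by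
      intro x y hxy
      rw [top_inf_eq]
      set E := stabilizer H' x ⊓ stabilizer H' y with hEdef
      have hK : E.map H'.subtype ≤ stabilizer K (ϕ x) ⊓ stabilizer K (ϕ y) := by
        rintro _ ⟨e, he, rfl⟩
        exact ⟨hst x e he.1, hst y e he.2⟩
      have hKfg : (E.map H'.subtype).FG := by
        obtain ⟨S, hS⟩ := hfg x y hxy
        exact ⟨S.image H'.subtype, by rw [Finset.coe_image, ← MonoidHom.map_closure, hS]⟩
      obtain ⟨⟨P'⟩, hU⟩ := hE _ _ (hϕadj x y hxy) _ hK hKfg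
      refine ⟨⟨P'.ofEquiv (Subgroup.equivMapOfInjective E H'.subtype
        H'.subtype_injective).symm⟩, ?_⟩
      apply TameExp.comap ι hι
      rwa [Subgroup.map_map] at hU
    have hν' : IsLen (fun γ : H' => ν (ι γ)) :=
      ⟨by rw [map_one, hν.one], fun g => by rw [map_inv, hν.inv],
        fun g h => by rw [map_mul]; exact hν.mul _ _⟩
    let P2 : SPres (⊤ : Subgroup H') := (P1.ofEquiv Subgroup.topEquiv.symm).toSPres
    have hfp : ∀ o : V', Nonempty (SPres (⊤ ⊓ stabilizer H' o)) :=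
      vertex_fp T' hT' hadj' ⊤ (fun x y hxy => (hedge x y hxy).1) P2
    let Q := fun o : V' => (hfp o).some
    obtain ⟨d', h1, h2, h3⟩ := exists_dir T' hT'
    obtain ⟨X, hX, c, hc⟩ := etree_fill T' hT' hadj' d' h1 h3 (fun γ : H' => ν (ι γ)) hν' ⊤
      (fun x y hxy => (hedge x y hxy).2) P2 Q
    have hQ : ∀ o : V', ∃ d C : ℕ, ExpFill ν (((Q o).mapInj ι hι).π)
        ((((Q o).mapInj ι hι).R : Finset _) : Set _) d C := by
      intro o
      apply ih (ϕ o)
      rintro _ ⟨γ, hγ, rfl⟩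
      exact ⟨(γ : K), hst o γ hγ.2, rfl⟩
    choose dd CC hdC using hQ
    let d := ∑ o ∈ hX.toFinset, dd o
    let C := 1 + ∑ o ∈ hX.toFinset, CC o
    have hdo : ∀ o ∈ X, dd o ≤ d := fun o ho =>
      Finset.single_le_sum (f := dd) (fun _ _ => Nat.zero_le _) (hX.mem_toFinset.2 ho)
    have hCo : ∀ o ∈ X, CC o ≤ C := fun o ho =>
      (Finset.single_le_sum (f := CC) (fun _ _ => Nat.zero_le _)
        (hX.mem_toFinset.2 ho)).trans (Nat.le_add_left _ _)
    refine ⟨d + 1, (c + 1) * ((c + 1) ^ d * (C + 1) ^ (c + 1) + (c + 1)), ?_⟩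
    intro ℓ r L hL hPB hL1
    have hmain := hc (fun ℓ r => (ℓ + 1) ^ d * C ^ (r + 1))
      (by
        intro a b a' b' ha hb
        exact Nat.mul_le_mul (Nat.pow_le_pow_left (by omega) _)
          (Nat.pow_le_pow_right (by omega) (by omega)))
      (by
        intro o ho ℓ r L hL hPB hL1
        have h4 := hdC o ℓ r L hL hPB (by
          change ι ((Q o).π (FreeGroup.mk L)) = 1
          rw [hL1, map_one])
        apply h4.mono
        exact Nat.mul_le_mul (Nat.pow_le_pow_right (by omega) (hdo o ho))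
          (Nat.pow_le_pow_left (hCo o ho) _))
      ℓ r L hL
      (by
        intro k
        exact hPB k)
      (by
        have h5 : P.toFinPres.π (FreeGroup.mk L) = 1 := Subtype.ext hL1
        have h6 : P2.π (FreeGroup.mk L) = (e1.symm (P.toFinPres.π (FreeGroup.mk L))) := rfl
        rw [h6, h5, map_one])
    apply hmain.mono
    exact num_efill ℓ r
  | virt K K' _ hfi _ ih =>
    intro H hH P
    have hA : (K'.subgroupOf H).FiniteIndex := by
      have h1 : K'.relIndex K ≠ 0 := hfi.index_ne_zero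
      have h2 : K'.relIndex H ≠ 0 := mt (Subgroup.relIndex_eq_zero_of_le_right hH) h1
      exact ⟨h2⟩
    obtain ⟨Q⟩ := finPres_subgroup P.toFinPres (K'.subgroupOf H) hA
    let e : (K'.subgroupOf H) ≃* ((K'.subgroupOf H).map H.subtype) :=
      Subgroup.equivMapOfInjective _ H.subtype H.subtype_injective
    let Q' : SPres ((K'.subgroupOf H).map H.subtype) := (Q.ofEquiv e).toSPres
    have h1 : (K'.subgroupOf H).map H.subtype ≤ K' := by
      rintro _ ⟨x, hx, rfl⟩
      exact hx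
    have h2 : (K'.subgroupOf H).map H.subtype ≤ H := by
      rintro _ ⟨x, _, rfl⟩
      exact x.2
    have h3 : (((K'.subgroupOf H).map H.subtype).subgroupOf H).FiniteIndex := by
      have h4 : ((K'.subgroupOf H).map H.subtype).subgroupOf H = K'.subgroupOf H :=
        Subgroup.comap_map_eq_self_of_injective H.subtype_injective _
      rw [h4]
      exact hA
    obtain ⟨d, C, hdC⟩ := ih _ h1 Q'
    exact expFill_finiteIndex hν h2 h3 P Q' hdC

end Pda3a14
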