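import Pool.Agent.Lib.Pda3a14.HypPoly
import Pool.Agent.Lib.Pda3a14.Cat
import Pool.Agent.Lib.Pda3a14.Abel

/-!
# Final form
-/

namespace Pda3a14

variable {G : Type*} [Group G]

theorem FinPres.range_eq {H : Subgroup G} (P : FinPres H) : (H.subtype.comp P.π).range = H := by
  rw [← MonoidHom.map_range, MonoidHom.range_eq_top_of_surjective _ P.surj,
    ← MonoidHom.range_eq_map, H.range_subtype]

/-- The presentation of a normal subgroup as push data. -/
def FinPres.push {H : Subgroup G} [hN : H.Normal] (P : FinPres H) : Push G (Fin P.n) where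
  π := H.subtype.comp P.π
  R := (P.R : Set (FreeGroup (Fin P.n)))
  fin := P.R.finite_toSet
  ker := by
    rw [← P.ker, MonoidHom.ker_comp_of_injective _ _ H.subtype_injective]
  normal := by
    rw [P.range_eq]; exact hN

theorem FinPres.push_π {H : Subgroup G} [H.Normal] (P : FinPres H) (w : FreeGroup (Fin P.n)) :
    P.push.π w = 1 ↔ P.π w = 1 := by
  change ((P.π w : H) : G) = 1 ↔ _
  simp

theorem FinPres.push_comb {H : Subgroup G} [H.Normal] (P : FinPres H) (h : Combable (G ⧸ H)) :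
    letI := P.push.normal
    Combable (G ⧸ P.push.π.range) :=
  letI := P.push.normal
  h.of_mulEquiv (QuotientGroup.quotientMulEquivOfEq P.range_eq.symm)

theorem FinPres.dehn_le {H : Type*} [Group H] (P : FinPres H) {x b : ℕ}
    (h : ∀ w : FreeGroup (Fin P.n), w.norm ≤ x → P.π w = 1 →
      AreaLE (P.R : Set (FreeGroup (Fin P.n))) b w) : P.dehn x ≤ b := by
  unfold FinPres.dehn
  apply csSup_le
  · exact ⟨_, 1, by simp, map_one _, rfl⟩
  · rintro m ⟨w, h1, h2, rfl⟩
    exact Nat.sInf_le (h w h1 h2)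

theorem exp_bound {H : Subgroup G} [H.Normal] (hG : Combable G) (hQ : Combable (G ⧸ H))
    (P : FinPres H) : Preceq (fun x => (P.dehn x : ℝ)) Real.exp := by
  obtain ⟨K⟩ := hG.exists_normalised
  have := P.push.normal
  obtain ⟨q⟩ := (P.push_comb hQ).exists_normalised
  obtain ⟨A, hA⟩ := P.push.exists_exp_area K q
  have hd : ∀ x, P.dehn x ≤ (A + 1) ^ (x + 1) := by
    intro x
    apply P.dehn_le
    intro w hw h1
    apply (hA w ((P.push_π w).2 h1)).mono
    calc A ^ (w.norm + 1) ≤ (A + 1) ^ (w.norm + 1) := Nat.pow_le_pow_left (by omega) _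
      _ ≤ (A + 1) ^ (x + 1) := Nat.pow_le_pow_right (by omega) (by omega)
  refine ⟨max 1 (Real.log (A + 1)), by positivity, fun x => ?_⟩
  set C := max 1 (Real.log (A + 1)) with hC
  have hC1 : 1 ≤ C := le_max_left _ _
  have hC2 : Real.log (A + 1) ≤ C := le_max_right _ _
  have hx : (0 : ℝ) ≤ x := Nat.cast_nonneg x
  have h1 : ((P.dehn x : ℕ) : ℝ) ≤ ((A : ℝ) + 1) ^ (x + 1) := by
    exact_mod_cast hd x
  have h2 : ((A : ℝ) + 1) ^ (x + 1) ≤ Real.exp (C * x + C) := by
    have hpos : (0 : ℝ) < (A : ℝ) + 1 := by positivity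
    rw [← Real.exp_log hpos, ← Real.exp_nat_mul]
    apply Real.exp_le_exp.2
    push_cast
    nlinarith
  have h3 : Real.exp (C * x + C) ≤ C * Real.exp (C * x + C) := by
    have := Real.exp_pos (C * x + C)
    nlinarith
  have h4 : 0 ≤ C * (x : ℝ) := by positivity
  simp only
  linarith

theorem poly_bound {H : Subgroup G} [H.Normal] (hG : HyperbolicGroup G)
    (hQ : Combable (G ⧸ H)) (P : FinPres H) :
    ∃ d : ℕ, Preceq (fun x => (P.dehn x : ℝ)) (fun x => x ^ d) := by
  have := P.push.normal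
  obtain ⟨q⟩ := (P.push_comb hQ).exists_normalised
  obtain ⟨E, e, hE⟩ := P.push.exists_poly_area hG q
  refine ⟨e, (E : ℝ) + 1, by positivity, fun x => ?_⟩
  have hd : P.dehn x ≤ E * (x + 1) ^ e := by
    apply P.dehn_le
    intro w hw h1
    apply (hE w ((P.push_π w).2 h1)).mono
    apply Nat.mul_le_mul_left
    exact Nat.pow_le_pow_left (by omega) _
  have h1 : ((P.dehn x : ℕ) : ℝ) ≤ (E : ℝ) * ((x : ℝ) + 1) ^ e := by exact_mod_cast hd
  have hx : (0 : ℝ) ≤ x := Nat.cast_nonneg x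
  have hE0 : (0 : ℝ) ≤ E := Nat.cast_nonneg E
  have h2 : ((x : ℝ) + 1) ^ e ≤ (((E : ℝ) + 1) * x + ((E : ℝ) + 1)) ^ e := by
    apply pow_le_pow_left₀ (by positivity)
    nlinarith
  have h3 : (0 : ℝ) ≤ (((E : ℝ) + 1) * x + ((E : ℝ) + 1)) ^ e := by positivity
  have h4 : (0 : ℝ) ≤ ((E : ℝ) + 1) * x + ((E : ℝ) + 1) := by positivity
  simp only
  calc ((P.dehn x : ℕ) : ℝ) ≤ (E : ℝ) * ((x : ℝ) + 1) ^ e := h1
    _ ≤ (E : ℝ) * (((E : ℝ) + 1) * x + ((E : ℝ) + 1)) ^ e := mul_le_mul_of_nonneg_left h2 hE0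
    _ ≤ ((E : ℝ) + 1) * (((E : ℝ) + 1) * x + ((E : ℝ) + 1)) ^ e := by nlinarith
    _ ≤ _ := by linarith

theorem Combable.fg {Q : Type*} [Group Q] (h : Combable Q) : Group.FG Q := by
  obtain ⟨S, _, _, hgen, _⟩ := h
  exact ⟨⟨S, hgen⟩⟩

/-- A quotient of a combable group which is abelian, CAT(0), hyperbolic or combable is
combable. -/
theorem combable_quotient {G : Type} [Group G] (hG : Combable G) (H : Subgroup G) [H.Normal]
    (hQ : (∀ a b : G ⧸ H, a * b = b * a) ∨ CATZeroGroup (G ⧸ H) ∨ HyperbolicGroup (G ⧸ H) ∨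
      Combable (G ⧸ H)) : Combable (G ⧸ H) := by
  rcases hQ with h | h | h | h
  · have := hG.fg
    letI : CommGroup (G ⧸ H) := { (inferInstance : Group (G ⧸ H)) with mul_comm := h }
    have hfg : Group.FG (G ⧸ H) := inferInstance
    exact combable_of_comm (G ⧸ H)
  · exact h.combable
  · exact h.combable
  · exact h

end Pda3a14
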