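import Pool.Agent.Lib.Pda3a14.Word
import Pool.Agent.Lib.Pda3a14.Column

/-!
# Polynomial filling in hyperbolic groups
-/

set_option linter.unusedSectionVars false

namespace Pda3a14

namespace Push

variable {G : Type*} [Group G] {α : Type*} [Fintype α] [DecidableEq α] (P : Push G α)

attribute [local instance] Push.normal

/-- `g` is at distance at most `k` from the subgroup. -/
def Dep (S : Finset G) (k : ℕ) (g : G) : Prop := ∃ h ∈ P.π.range, wordDist S h g ≤ k

variable {P}

theorem Dep.mono {S : Finset G} {k k' : ℕ} {g : G} (h : P.Dep S k g) (hk : k ≤ k') :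
    P.Dep S k' g := by
  obtain ⟨x, h1, h2⟩ := h
  exact ⟨x, h1, h2.trans hk⟩

theorem Dep.near {S : Finset G} (hS : Subgroup.closure (S : Set G) = ⊤) {k m : ℕ} {g g' : G}
    (h : P.Dep S k g) (hd : wordDist S g' g ≤ m) : P.Dep S (k + m) g' := by
  obtain ⟨x, h1, h2⟩ := h
  refine ⟨x, h1, ?_⟩
  have h3 := wordDist_triangle hS x g g'
  rw [wordDist_comm hS g g'] at h3
  omega

theorem Dep.of_mem {S : Finset G} {g : G} (h : g ∈ P.π.range) : P.Dep S 0 g :=
  ⟨g, h, by rw [wordDist_self]⟩

variable (P)

/-- Data for filling at a fixed time `N`. -/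
structure Fill (S : Finset G) (c : P.Q → ℕ → P.Q) (N m Λ K : ℕ) : Prop where
  tri : ∀ g b b' : G, wordLength S b ≤ Λ → wordLength S b' ≤ Λ → wordLength S (b * b') ≤ Λ →
        c (g : P.Q) N = (g : P.Q) →
        c ((g * b : G) : P.Q) N = ((g * b : G) : P.Q) →
        c ((g * b * b' : G) : P.Q) N = ((g * b * b' : G) : P.Q) →
        Near P.R m (P.Om c N g b * P.Om c N (g * b) b') (P.Om c N g (b * b'))
  one : ∀ g : G, P.Om c N g 1 = 1
  letter : ∀ h ∈ P.π.range, ∀ x : α × Bool,
        Near P.R (2 * m) (P.Om c N h (P.ltr x)) (FreeGroup.mk [x])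
  time : ∀ g : G, P.Dep S K g → c (g : P.Q) N = (g : P.Q)

theorem exists_fill {S : Finset G} (hS : Subgroup.closure (S : Set G) = ⊤) (q : NCombing P.Q)
    (Λ : ℕ) (hΛ : ∀ x : α × Bool, wordLength S (P.ltr x) ≤ Λ) :
    ∃ D B C : ℕ, 1 ≤ B ∧ ∀ K N : ℕ, C * (K + 1) ≤ N →
      P.Fill S q.c N (D * B ^ N) Λ K := by
  classical
  have hFf : {g : G | wordLength S g ≤ Λ}.Finite := by
    apply (finite_ball S Λ).subset
    intro g hg
    exact (inBall_iff hS).2 hg
  obtain ⟨D, B, hB, hpush⟩ := P.exists_push q.zero q.one q.S q.fin q.step q.fel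
    {g : G | wordLength S g ≤ Λ} hFf
  obtain ⟨C, hC⟩ := q.len ((fun g : G => (g : P.Q)) '' ((S : Set G) ∪ (S : Set G)⁻¹))
    ((S.finite_toSet.union S.finite_toSet.inv).image _)
  refine ⟨D, B, C, hB, fun K N hN => ?_⟩
  obtain ⟨htri, hof, hone⟩ := hpush N
  have hq1 : ∀ h ∈ P.π.range, q.c (h : P.Q) N = (h : P.Q) := by
    intro h hh
    have hh1 : (h : P.Q) = 1 := (QuotientGroup.eq_one_iff h).2 hh
    rw [hh1, q.one]
  refine ⟨fun g b b' h1 h2 h3 => htri g b b' h1 h2 h3, hone, ?_, ?_⟩
  · intro h hh x
    obtain ⟨a, b⟩ := x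
    cases b
    · have e : P.ltr (a, false) * P.ltr (a, true) = 1 := by
        rw [P.ltr_true, P.ltr_false, inv_mul_cancel]
      have h1 := htri h (P.ltr (a, false)) (P.ltr (a, true)) (hΛ _) (hΛ _) (by
          rw [e, Set.mem_ofPred_eq, wordLength_one]; omega)
        (hq1 _ hh) (hq1 _ (mul_mem hh (P.ltr_mem _)))
        (hq1 _ (mul_mem (mul_mem hh (P.ltr_mem _)) (P.ltr_mem _)))
      rw [e, hone] at h1
      have h2 := hof (h * P.ltr (a, false)) (mul_mem hh (P.ltr_mem _)) a
      rw [← P.ltr_true] at h2
      have h3 := h1.mul h2.inv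
      rw [mul_inv_cancel_right, one_mul] at h3
      rw [mk_false]
      exact h3.mono (by omega)
    · exact (hof h hh a).mono (by omega)
  · rintro g ⟨h, hh, hd⟩
    obtain ⟨l, h1, h2, h3⟩ := (inBall_iff hS).2 (show wordLength S (h⁻¹ * g) ≤ K from hd)
    have e : (g : P.Q) = (l.map fun s : G => (s : P.Q)).prod := by
      have e1 : g = h * l.prod := by rw [h3, mul_inv_cancel_left]
      rw [e1, QuotientGroup.mk_mul, (QuotientGroup.eq_one_iff h).2 hh, one_mul]
      have := map_list_prod (QuotientGroup.mk' P.π.range) l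
      exact this
    rw [e]
    apply hC
    · intro s hs
      rw [List.mem_map] at hs
      obtain ⟨s', hs', rfl⟩ := hs
      refine ⟨s', ?_, rfl⟩
      rcases h2 s' hs' with h | h
      · left; exact h
      · right; simpa using h
    · rw [List.length_map]
      refine le_trans ?_ hN
      exact Nat.mul_le_mul_left _ (by omega)

variable {P}
variable {S : Finset G} {c : P.Q → ℕ → P.Q} {N m Λ K : ℕ}

theorem V_stable (hF : P.Fill S c N m Λ K) (hS : Subgroup.closure (S : Set G) = ⊤) (x y : G)
    (M : ℕ) (hM : wordDist S x y ≤ M) :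
    P.V c N (geo S x y) M = P.V c N (geo S x y) (wordDist S x y) := by
  induction M, hM using Nat.le_induction with
  | base => rfl
  | succ M hM ih =>
    simp only [V]
    rw [geo_end hS hM, geo_end hS (hM.trans (Nat.le_succ _)), inv_mul_cancel, hF.one, mul_one, ih]

theorem wl (hS : Subgroup.closure (S : Set G) = ⊤) (x y : G) :
    wordLength S (x⁻¹ * y) = wordDist S x y := rfl

theorem cone (hF : P.Fill S c N m Λ K) (hS : Subgroup.closure (S : Set G) = ⊤) {δ : ℕ}
    (h4 : FourPoint S δ) (hΛ : 2 * δ + 4 ≤ Λ) (x y z : G) {k M : ℕ} (hk : k + 2 * δ ≤ K)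
    (hM : wordDist S x y + wordDist S y z ≤ M)
    (hxy : ∀ i, P.Dep S k (geo S x y i)) (hyz : ∀ i, P.Dep S k (geo S y z i)) (i : ℕ)
    (hi : i ≤ wordDist S y z) :
    Near P.R (i * (M * (2 * m)))
      (P.V c N (geo S x y) (wordDist S x y) * P.V c N (geo S y z) i)
      (P.V c N (geo S x (geo S y z i)) (wordDist S x (geo S y z i))) := by
  have hdep : ∀ i ≤ wordDist S y z, ∀ j, P.Dep S K (geo S x (geo S y z i) j) := by
    intro i hi j
    rcases le_total j (wordDist S x (geo S y z i)) with hj | hj
    · rcases slim hS h4 x y z i hi j hj with ⟨k', _, h2⟩ | ⟨k', _, h2⟩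
      · exact ((hxy k').near hS h2).mono hk
      · exact ((hyz k').near hS h2).mono hk
    · rw [geo_end hS hj]
      exact (hyz i).mono (by omega)
  induction i with
  | zero =>
    rw [geo_zero]
    simpa [V] using (Near.refl (R := P.R) (P.V c N (geo S x y) (wordDist S x y)))
  | succ i ih =>
    have ih' := ih (by omega)
    set w := geo S y z i with hw
    set w' := geo S y z (i + 1) with hw'
    have hww : wordDist S w w' ≤ 1 := by
      have := geo_le hS y z (i := i) (j := i + 1) (by omega)
      rw [← hw, ← hw'] at this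
      omega
    have d1 : wordDist S x w ≤ M := by
      have h1 := wordDist_triangle hS x y w
      have h2 := geo_dist_left hS y z (i := i) (by omega)
      rw [← hw] at h2
      omega
    have d2 : wordDist S x w' ≤ M := by
      have h1 := wordDist_triangle hS x y w'
      have h2 := geo_dist_left hS y z (i := i + 1) (by omega)
      rw [← hw'] at h2
      omega
    have hcol := P.column (F := {g : G | wordLength S g ≤ Λ}) hF.one
      (fun g b b' h1 h2 h3 => hF.tri g b b' h1 h2 h3) (geo S x w) (geo S x w')
      (by rw [geo_zero, geo_zero])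
      (fun j _ => hF.time _ (hdep i (by omega) j)) (fun j _ => hF.time _ (hdep (i + 1) hi j))
      (fun j _ => by
        have := geo_le hS x w (i := j) (j := j + 1) (by omega)
        rw [Set.mem_ofPred_eq, wl hS]
        omega)
      (fun j _ => by
        have := geo_le hS x w' (i := j) (j := j + 1) (by omega)
        rw [Set.mem_ofPred_eq, wl hS]
        omega)
      (fun j _ => by
        have := fellow hS h4 x w w' hww j
        rw [Set.mem_ofPred_eq, wl hS]
        omega)
      (fun j _ => by
        have h1 := fellow hS h4 x w w' hww j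
        have h2 := geo_le hS x w' (i := j) (j := j + 1) (by omega)
        have h3 := wordDist_triangle hS (geo S x w j) (geo S x w' j) (geo S x w' (j + 1))
        rw [Set.mem_ofPred_eq, wl hS]
        omega) M le_rfl
    rw [geo_end hS d1, geo_end hS d2, V_stable hF hS x w M d1, V_stable hF hS x w' M d2] at hcol
    have h1 := (ih'.mul_right (P.Om c N w (w⁻¹ * w'))).trans hcol
    rw [mul_assoc] at h1
    simp only [V]
    apply h1.mono
    apply le_of_eq; ring

theorem triangle (hF : P.Fill S c N m Λ K) (hS : Subgroup.closure (S : Set G) = ⊤) {δ : ℕ}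
    (h4 : FourPoint S δ) (hΛ : 2 * δ + 4 ≤ Λ) (x y z : G) {k M : ℕ} (hk : k + 2 * δ ≤ K)
    (hM : wordDist S x y + wordDist S y z ≤ M)
    (hxy : ∀ i, P.Dep S k (geo S x y i)) (hyz : ∀ i, P.Dep S k (geo S y z i)) :
    Near P.R (M * (M * (2 * m)))
      (P.V c N (geo S x y) (wordDist S x y) * P.V c N (geo S y z) (wordDist S y z))
      (P.V c N (geo S x z) (wordDist S x z)) := by
  have h := cone hF hS h4 hΛ x y z hk hM hxy hyz (wordDist S y z) le_rfl
  rw [geo_end hS le_rfl] at h
  exact h.mono (Nat.mul_le_mul_right _ (by omega))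

theorem short (hF : P.Fill S c N m Λ K) (hS : Subgroup.closure (S : Set G) = ⊤) (x y : G)
    (hxy : wordDist S x y ≤ Λ) (hx : x ∈ P.π.range) (hK : Λ ≤ K) (i : ℕ)
    (hi : i ≤ wordDist S x y) :
    Near P.R (i * m) (P.V c N (geo S x y) i) (P.Om c N x (x⁻¹ * geo S x y i)) := by
  have hdep : ∀ i ≤ wordDist S x y, P.Dep S K (geo S x y i) := by
    intro i hi
    refine ⟨x, hx, ?_⟩
    rw [geo_dist_left hS x y hi]; omega
  induction i with
  | zero =>
    rw [geo_zero, inv_mul_cancel, hF.one]
    simpa [V] using (Near.refl (R := P.R) (1 : FreeGroup α))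
  | succ i ih =>
    have ih' := (ih (by omega)).mul_right
      (P.Om c N (geo S x y i) ((geo S x y i)⁻¹ * geo S x y (i + 1)))
    have e : x⁻¹ * geo S x y i * ((geo S x y i)⁻¹ * geo S x y (i + 1)) =
        x⁻¹ * geo S x y (i + 1) := by group
    have t := hF.tri x (x⁻¹ * geo S x y i) ((geo S x y i)⁻¹ * geo S x y (i + 1))
      (by rw [wl hS, geo_dist_left hS x y (by omega)]; omega)
      (by
        rw [wl hS]
        have := geo_le hS x y (i := i) (j := i + 1) (by omega)
        omega)
      (by rw [e, wl hS, geo_dist_left hS x y hi]; omega)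
      (hF.time _ ((Dep.of_mem hx).mono (Nat.zero_le _)))
      (by rw [mul_inv_cancel_left]; exact hF.time _ (hdep i (by omega)))
      (by rw [mul_inv_cancel_left, mul_inv_cancel_left]; exact hF.time _ (hdep (i + 1) hi))
    rw [e, mul_inv_cancel_left] at t
    simp only [V]
    apply (ih'.trans t).mono
    apply le_of_eq; ring

/-- The dyadic filling. -/
theorem dyadic (hF : P.Fill S c N m Λ K) (hS : Subgroup.closure (S : Set G) = ⊤) {δ : ℕ}
    (h4 : FourPoint S δ) (hΛ : 2 * δ + 4 ≤ Λ) (hl : ∀ x : α × Bool, wordLength S (P.ltr x) ≤ Λ)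
    (L : List (α × Bool)) {lmax : ℕ} (hK : 2 * δ * lmax + Λ ≤ K) (l : ℕ) (hll : l ≤ lmax) :
    ∀ i j, i ≤ j → j ≤ L.length → j - i ≤ 2 ^ l →
      (∀ t, P.Dep S (2 * δ * l + Λ) (geo S (P.π (FreeGroup.mk (L.take i)))
        (P.π (FreeGroup.mk (L.take j))) t)) ∧
      Near P.R (2 ^ l * ((Λ + 2) * m) +
          (2 ^ l - 1) * ((Λ * L.length) * ((Λ * L.length) * (2 * m))))
        (P.V c N (geo S (P.π (FreeGroup.mk (L.take i))) (P.π (FreeGroup.mk (L.take j))))
          (wordDist S (P.π (FreeGroup.mk (L.take i))) (P.π (FreeGroup.mk (L.take j)))))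
        (FreeGroup.mk ((L.take j).drop i)) := by
  have hdist : ∀ i j, i ≤ j → wordDist S (P.π (FreeGroup.mk (L.take i)))
      (P.π (FreeGroup.mk (L.take j))) ≤ Λ * (j - i) := by
    intro i j hij
    induction j, hij using Nat.le_induction with
    | base => rw [wordDist_self]; omega
    | succ j hij ih =>
      have h1 := wordDist_triangle hS (P.π (FreeGroup.mk (L.take i)))
        (P.π (FreeGroup.mk (L.take j))) (P.π (FreeGroup.mk (L.take (j + 1))))
      have h2 : wordDist S (P.π (FreeGroup.mk (L.take j)))
          (P.π (FreeGroup.mk (L.take (j + 1)))) ≤ Λ := by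
        by_cases hj : j < L.length
        · rw [List.take_succ_eq_append_getElem hj, P.π_mk, P.π_mk, List.map_append,
            List.prod_append]
          simp only [List.map_cons, List.map_nil, List.prod_cons, List.prod_nil, mul_one]
          unfold wordDist
          rw [inv_mul_cancel_left]
          exact hl _
        · rw [List.take_of_length_le (by omega), List.take_of_length_le (by omega),
            wordDist_self]
          omega
      have h3 : Λ * (j + 1 - i) = Λ * (j - i) + Λ := by
        rw [show j + 1 - i = (j - i) + 1 by omega]; ring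
      omega
  induction l with
  | zero =>
    intro i j hij hj h1
    rw [pow_zero] at h1
    set p := P.π (FreeGroup.mk (L.take i)) with hp
    set p' := P.π (FreeGroup.mk (L.take j)) with hp'
    have hd : wordDist S p p' ≤ Λ := by
      have := hdist i j hij
      rw [← hp, ← hp'] at this
      refine this.trans ?_
      calc Λ * (j - i) ≤ Λ * 1 := Nat.mul_le_mul_left _ h1
        _ = Λ := mul_one _
    have hpm : p ∈ P.π.range := ⟨_, rfl⟩
    have hpm' : p' ∈ P.π.range := ⟨_, rfl⟩
    refine ⟨?_, ?_⟩
    · intro t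
      rcases le_total t (wordDist S p p') with ht | ht
      · refine ⟨p, hpm, ?_⟩
        rw [geo_dist_left hS p p' ht]; omega
      · rw [geo_end hS ht]
        exact (Dep.of_mem hpm').mono (Nat.zero_le _)
    · rcases (show j = i ∨ j = i + 1 by omega) with h2 | h2
      · have e : p' = p := by rw [hp, hp', h2]
        rw [e, wordDist_self, h2]
        have e2 : (L.take i).drop i = [] := by
          apply List.drop_eq_nil_of_le; simp
        rw [e2]
        exact (Near.refl (R := P.R) (1 : FreeGroup α)).mono (Nat.zero_le _)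
      · have hi : i < L.length := by omega
        have e2 : (L.take j).drop i = [L[i]] := by
          rw [h2, List.take_succ_eq_append_getElem hi, List.drop_append_of_le_length (by
            rw [List.length_take]; omega), List.drop_eq_nil_of_le (by simp), List.nil_append]
        have e3 : p⁻¹ * p' = P.ltr (L[i]) := by
          rw [hp, hp', h2, List.take_succ_eq_append_getElem hi, P.π_mk, P.π_mk, List.map_append,
            List.prod_append]
          simp
        have s1 := short hF hS p p' hd hpm (by omega) (wordDist S p p') le_rfl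
        rw [geo_end hS le_rfl, e3] at s1
        have s2 := s1.trans (hF.letter p hpm (L[i]))
        rw [e2]
        apply s2.mono
        have : wordDist S p p' * m ≤ Λ * m := Nat.mul_le_mul_right _ hd
        rw [pow_zero, Nat.sub_self, zero_mul, add_zero, one_mul, add_mul]
        omega
  | succ l ih =>
    have ih' := ih (by omega)
    intro i j hij hj h1
    set mid := min (i + 2 ^ l) j with hmid
    have hm1 : i ≤ mid := by omega
    have hm2 : mid ≤ j := by omega
    have hm3 : mid - i ≤ 2 ^ l := by omega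
    have hm4 : j - mid ≤ 2 ^ l := by
      rw [pow_succ] at h1; omega
    obtain ⟨a1, a2⟩ := ih' i mid hm1 (by omega) hm3
    obtain ⟨b1, b2⟩ := ih' mid j hm2 hj hm4
    set x := P.π (FreeGroup.mk (L.take i)) with hx
    set y := P.π (FreeGroup.mk (L.take mid)) with hy
    set z := P.π (FreeGroup.mk (L.take j)) with hz
    have hd1 := hdist i mid hm1
    have hd2 := hdist mid j hm2
    rw [← hx, ← hy] at hd1
    rw [← hy, ← hz] at hd2
    have hll' : 2 * δ * (l + 1) ≤ 2 * δ * lmax := Nat.mul_le_mul_left _ hll
    have hMle : wordDist S x y + wordDist S y z ≤ Λ * L.length := by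
      have : Λ * (mid - i) + Λ * (j - mid) ≤ Λ * L.length := by
        rw [← Nat.mul_add]
        exact Nat.mul_le_mul_left _ (by omega)
      omega
    have tri := triangle hF hS h4 hΛ x y z (k := 2 * δ * l + Λ) (by
      have : 2 * δ * (l + 1) = 2 * δ * l + 2 * δ := by ring
      omega) hMle a1 b1
    refine ⟨?_, ?_⟩
    · intro t
      rcases le_total t (wordDist S x z) with ht | ht
      · have e : geo S y z (wordDist S y z) = z := geo_end hS le_rfl
        have hs := slim hS h4 x y z (wordDist S y z) le_rfl t (by rw [e]; exact ht)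
        rw [e] at hs
        have e5 : 2 * δ * (l + 1) + Λ = (2 * δ * l + Λ) + 2 * δ := by ring
        rw [e5]
        rcases hs with ⟨k', _, h2⟩ | ⟨k', _, h2⟩
        · exact (a1 k').near hS h2
        · exact (b1 k').near hS h2
      · rw [geo_end hS ht]
        exact (Dep.of_mem ⟨_, rfl⟩).mono (Nat.zero_le _)
    · have e6 : (L.take j).drop i = (L.take mid).drop i ++ (L.take j).drop mid := by
        have h3 : L.take j = L.take mid ++ (L.take j).drop mid := by
          conv_lhs => rw [← List.take_append_drop mid (L.take j)]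
          rw [List.take_take, min_eq_left hm2]
        conv_lhs => rw [h3, List.drop_append_of_le_length (by
          rw [List.length_take]; omega)]
      have e7 : FreeGroup.mk ((L.take j).drop i) =
          FreeGroup.mk ((L.take mid).drop i) * FreeGroup.mk ((L.take j).drop mid) := by
        rw [e6, FreeGroup.mul_mk]
      rw [e7]
      have h5 := tri.symm.trans (a2.mul b2)
      apply h5.mono
      have h6 : 1 ≤ 2 ^ l := Nat.one_le_two_pow
      obtain ⟨r, hr⟩ : ∃ r, 2 ^ l = r + 1 := ⟨2 ^ l - 1, by omega⟩
      have h7 : 2 ^ (l + 1) - 1 = 2 * r + 1 := by rw [pow_succ]; omega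
      rw [h7, hr, Nat.add_sub_cancel, pow_succ, hr]
      apply le_of_eq; ring

end Push

end Pda3a14
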