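import Pool.Agent.Lib.Pda3a14.HypFill

/-!
# The polynomial bound
-/

set_option linter.unusedSectionVars false

namespace Pda3a14

namespace Push

variable {G : Type*} [Group G] {α : Type*} [Fintype α] [DecidableEq α] (P : Push G α)

attribute [local instance] Push.normal

/-- **Polynomial filling.** -/
theorem exists_poly_area (hG : HyperbolicGroup G) (q : NCombing P.Q) :
    ∃ E e : ℕ, ∀ w : FreeGroup α, P.π w = 1 → AreaLE P.R (E * (w.norm + 1) ^ e) w := by
  classical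
  obtain ⟨S, δ, hS, h4⟩ := hG
  obtain ⟨lam, hlam⟩ := (Set.finite_range fun x : α × Bool => wordLength S (P.ltr x)).bddAbove
  set Λ := lam + (2 * δ + 4) with hΛ
  have hl : ∀ x : α × Bool, wordLength S (P.ltr x) ≤ Λ := fun x =>
    (hlam ⟨x, rfl⟩).trans (by omega)
  obtain ⟨D, B, C, hB, hfill⟩ := P.exists_fill hS q Λ hl
  set a := 2 * δ * C with ha
  set b := C * (Λ + 1) with hb
  refine ⟨2 * ((Λ + 2) + Λ * (Λ * 2)) * D * B ^ b * 2 ^ (a * B), 3 + a * B, fun w hw => ?_⟩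
  set n := w.norm with hn
  set l := Nat.clog 2 (n + 1) with hlog
  have hl1 : n + 1 ≤ 2 ^ l := Nat.le_pow_clog (by norm_num) _
  have hl2 : 2 ^ l ≤ 2 * (n + 1) := by
    rcases Nat.eq_zero_or_pos n with h0 | h0
    · rw [hlog, h0]
      simp
    · have h1 : 1 < n + 1 := by omega
      have h2 := Nat.pow_pred_clog_lt_self (b := 2) (by norm_num) h1
      have h3 : 0 < l := Nat.clog_pos (by norm_num) (by omega)
      have h4 : 2 ^ l = 2 ^ (l - 1) * 2 := by
        rw [← pow_succ]; congr 1; omega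
      rw [h4]
      have h5 : Nat.pred (Nat.clog 2 (n + 1)) = l - 1 := rfl
      rw [h5] at h2
      omega
  set K := 2 * δ * l + Λ with hK
  set N := C * (K + 1) with hN
  have hF := hfill K N le_rfl
  have hd := (dyadic hF hS h4 (by omega) hl w.toWord (lmax := l) le_rfl l le_rfl 0
    w.toWord.length (by omega) le_rfl (by
      rw [Nat.sub_zero]
      have : w.toWord.length = n := rfl
      omega)).2
  have e0 : (FreeGroup.mk [] : FreeGroup α) = 1 := rfl
  have e1 : P.π (FreeGroup.mk (w.toWord.take 0)) = 1 := by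
    rw [List.take_zero, e0, map_one]
  have e2 : P.π (FreeGroup.mk (w.toWord.take w.toWord.length)) = 1 := by
    rw [List.take_length, FreeGroup.mk_toWord, hw]
  rw [e1, e2, wordDist_self, List.take_length, List.drop_zero, FreeGroup.mk_toWord] at hd
  have h5 : AreaLE P.R (2 ^ l * ((Λ + 2) * (D * B ^ N)) +
      (2 ^ l - 1) * ((Λ * w.toWord.length) * ((Λ * w.toWord.length) * (2 * (D * B ^ N))))) w := by
    have h6 := hd.symm
    unfold Near at h6
    simpa [V] using h6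
  apply h5.mono
  have hlen : w.toWord.length = n := rfl
  rw [hlen]
  have hBN : B ^ N ≤ 2 ^ (a * B) * (n + 1) ^ (a * B) * B ^ b := by
    have h7 : N = a * l + b := by rw [hN, hK, ha, hb]; ring
    rw [h7, pow_add]
    apply Nat.mul_le_mul_right
    calc B ^ (a * l) ≤ (2 ^ B) ^ (a * l) := Nat.pow_le_pow_left Nat.lt_two_pow_self.le _
      _ = (2 ^ l) ^ (a * B) := by rw [← pow_mul, ← pow_mul]; congr 1; ring
      _ ≤ (2 * (n + 1)) ^ (a * B) := Nat.pow_le_pow_left hl2 _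
      _ = 2 ^ (a * B) * (n + 1) ^ (a * B) := by rw [mul_pow]
  have hn1 : 1 ≤ n + 1 := by omega
  calc 2 ^ l * ((Λ + 2) * (D * B ^ N)) +
      (2 ^ l - 1) * ((Λ * n) * ((Λ * n) * (2 * (D * B ^ N))))
      ≤ (2 * (n + 1)) * ((Λ + 2) * (D * B ^ N)) +
      (2 * (n + 1)) * ((Λ * (n + 1)) * ((Λ * (n + 1)) * (2 * (D * B ^ N)))) := by
        have : 2 ^ l - 1 ≤ 2 * (n + 1) := by omega
        gcongr <;> omega
    _ ≤ (2 * (n + 1)) * ((Λ + 2) * (D * B ^ N)) * (n + 1) ^ 2 +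
      (2 * (n + 1)) * ((Λ * (n + 1)) * ((Λ * (n + 1)) * (2 * (D * B ^ N)))) := by
        have : (2 * (n + 1)) * ((Λ + 2) * (D * B ^ N)) * 1 ≤
          (2 * (n + 1)) * ((Λ + 2) * (D * B ^ N)) * (n + 1) ^ 2 :=
          Nat.mul_le_mul_left _ (Nat.one_le_pow _ _ hn1)
        omega
    _ = 2 * ((Λ + 2) + Λ * (Λ * 2)) * D * (n + 1) ^ 3 * B ^ N := by ring
    _ ≤ 2 * ((Λ + 2) + Λ * (Λ * 2)) * D * (n + 1) ^ 3 *
        (2 ^ (a * B) * (n + 1) ^ (a * B) * B ^ b) := Nat.mul_le_mul_left _ hBN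
    _ = 2 * ((Λ + 2) + Λ * (Λ * 2)) * D * B ^ b * 2 ^ (a * B) * (n + 1) ^ (3 + a * B) := by
        rw [pow_add]; ring

end Push

end Pda3a14
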