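import Pool.Agent.Lib.Pda3a14.Push

/-!
# Ladders of pushed paths
-/

set_option linter.unusedSectionVars false

namespace Pda3a14

namespace Push

variable {G : Type*} [Group G] {α : Type*} [Fintype α] [DecidableEq α] (P : Push G α)

attribute [local instance] Push.normal

variable {c : P.Q → ℕ → P.Q}

theorem π_T (q : P.Q) (i : ℕ) : ∀ v, P.π (P.T c q i v) = P.X c q i * P.π v * (P.X c q i)⁻¹ := by
  induction i with
  | zero => intro v; simp [T, X]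
  | succ i ih =>
    intro v
    simp only [T, X, MonoidHom.comp_apply]
    rw [ih, P.π_lift]
    group

/-- One step of the comparison of two conjugations. -/
theorem exists_step (L C : Set G) (hL : L.Finite) (hC : C.Finite) :
    ∃ m, ∀ l ∈ L, ∀ l' ∈ L, ∀ x ∈ C, ∀ x' ∈ C, l * x' * l'⁻¹ * x⁻¹ ∈ P.π.range → ∀ a : α,
      Near P.R m (P.wd (l * x' * l'⁻¹ * x⁻¹) * P.lift x (P.lift l' (FreeGroup.of a)) *
        (P.wd (l * x' * l'⁻¹ * x⁻¹))⁻¹) (P.lift l (P.lift x' (FreeGroup.of a))) := by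
  obtain ⟨m, hm⟩ := P.exists_near
    {i : (G × G) × (G × G) × α | i.1.1 ∈ L ∧ i.1.2 ∈ L ∧ i.2.1.1 ∈ C ∧ i.2.1.2 ∈ C ∧
      i.1.1 * i.2.1.2 * i.1.2⁻¹ * i.2.1.1⁻¹ ∈ P.π.range}
    (by
      apply ((hL.prod hL).prod ((hC.prod hC).prod (Set.finite_univ (α := α)))).subset
      rintro ⟨⟨l, l'⟩, ⟨x, x'⟩, a⟩ ⟨h1, h2, h3, h4, _⟩
      exact ⟨⟨h1, h2⟩, ⟨h3, h4⟩, Set.mem_univ a⟩)
    (fun i => P.wd (i.1.1 * i.2.1.2 * i.1.2⁻¹ * i.2.1.1⁻¹) *
      P.lift i.2.1.1 (P.lift i.1.2 (FreeGroup.of i.2.2)) *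
        (P.wd (i.1.1 * i.2.1.2 * i.1.2⁻¹ * i.2.1.1⁻¹))⁻¹)
    (fun i => P.lift i.1.1 (P.lift i.2.1.2 (FreeGroup.of i.2.2)))
    (by
      rintro ⟨⟨l, l'⟩, ⟨x, x'⟩, a⟩ ⟨h1, h2, h3, h4, h5⟩
      simp only at h5 ⊢
      simp only [map_mul, map_inv, P.π_lift, P.π_wd h5]
      group)
  exact ⟨m, fun l hl l' hl' x hx x' hx' h a => hm ((l, l'), (x, x'), a) ⟨hl, hl', hx, hx', h⟩⟩

/-- The comparison of the two conjugations along a ladder. -/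
theorem ladder_conj {L C : Set G} {K B L1 c1 : ℕ}
    (hK : ∀ l ∈ L, ∀ r ∈ P.R, AreaLE P.R K (P.lift l r))
    (hL : ∀ q i, P.letter c q i ∈ L) (h0 : ∀ q, c q 0 = 1)
    (hL1 : ∀ l ∈ L, ∀ a : α, (P.lift l (FreeGroup.of a)).toWord.length ≤ L1)
    (hB1 : K ≤ B) (hB2 : L1 + 1 ≤ B)
    (hc0 : ∀ a : α, Near P.R c1 (FreeGroup.of a) (P.lift 1 (FreeGroup.of a)))
    (hc1 : ∀ l ∈ L, ∀ l' ∈ L, ∀ x ∈ C, ∀ x' ∈ C, l * x' * l'⁻¹ * x⁻¹ ∈ P.π.range → ∀ a : α,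
      Near P.R c1 (P.wd (l * x' * l'⁻¹ * x⁻¹) * P.lift x (P.lift l' (FreeGroup.of a)) *
        (P.wd (l * x' * l'⁻¹ * x⁻¹))⁻¹) (P.lift l (P.lift x' (FreeGroup.of a))))
    (q q' : P.Q) (hC : ∀ i, P.con c q q' i ∈ C) (i : ℕ) :
    ∀ a : α, Near P.R (c1 * B ^ i)
      (P.Z c q q' i * P.T c q' i (FreeGroup.of a) * (P.Z c q q' i)⁻¹)
      (P.T c q i (P.lift (P.con c q q' i) (FreeGroup.of a))) := by
  induction i with
  | zero =>
    intro a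
    have e : P.con c q q' 0 = 1 := by
      unfold con
      rw [h0, h0, inv_one, one_mul, P.lam_one]
    rw [e]
    simpa [Z, T] using hc0 a
  | succ i ih =>
    intro a
    have h1 := near_hom (R := P.R) (E := c1 * B ^ i)
      ((MulAut.conj (P.Z c q q' i)).toMonoidHom.comp (P.T c q' i))
      ((P.T c q i).comp (P.lift (P.con c q q' i)))
      (by
        intro a
        simpa using ih a)
      (P.lift (P.letter c q' i) (FreeGroup.of a))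
    have h2 : Near P.R (L1 * (c1 * B ^ i))
        (P.Z c q q' i * P.T c q' i (P.lift (P.letter c q' i) (FreeGroup.of a)) *
          (P.Z c q q' i)⁻¹)
        (P.T c q i (P.lift (P.con c q q' i) (P.lift (P.letter c q' i) (FreeGroup.of a)))) := by
      have := h1.mono (Nat.mul_le_mul_right (c1 * B ^ i) (hL1 _ (hL q' i) a))
      simpa using this
    have h3 := h2.conj (P.T c q i (P.wd (P.kap c q q' i)))
    have h4 := P.T_area hK hL q i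
      (hc1 _ (hL q i) _ (hL q' i) _ (hC i) _ (hC (i + 1)) (P.kap_mem q q' i) a)
    have h5 := h3.trans (v := _) (w := P.T c q i (P.lift (P.letter c q i)
      (P.lift (P.con c q q' (i + 1)) (FreeGroup.of a)))) (n := c1 * K ^ i) (by
        have e : P.T c q i (P.wd (P.kap c q q' i)) *
            P.T c q i (P.lift (P.con c q q' i) (P.lift (P.letter c q' i) (FreeGroup.of a))) *
            (P.T c q i (P.wd (P.kap c q q' i)))⁻¹ =
            P.T c q i (P.wd (P.kap c q q' i) *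
              P.lift (P.con c q q' i) (P.lift (P.letter c q' i) (FreeGroup.of a)) *
              (P.wd (P.kap c q q' i))⁻¹) := by
          simp only [map_mul, map_inv]
        rw [e]
        exact h4)
    have h6 : L1 * (c1 * B ^ i) + c1 * K ^ i ≤ c1 * B ^ (i + 1) := by
      have h7 : K ^ i ≤ B ^ i := Nat.pow_le_pow_left hB1 i
      calc L1 * (c1 * B ^ i) + c1 * K ^ i ≤ L1 * (c1 * B ^ i) + c1 * B ^ i := by gcongr
        _ = c1 * B ^ i * (L1 + 1) := by ring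
        _ ≤ c1 * B ^ i * B := Nat.mul_le_mul_left _ hB2
        _ = c1 * B ^ (i + 1) := by ring
    have h8 := h5.mono h6
    have e2 : P.T c q i (P.wd (P.kap c q q' i)) *
        (P.Z c q q' i * P.T c q' i (P.lift (P.letter c q' i) (FreeGroup.of a)) *
          (P.Z c q q' i)⁻¹) * (P.T c q i (P.wd (P.kap c q q' i)))⁻¹ =
        P.Z c q q' (i + 1) * P.T c q' (i + 1) (FreeGroup.of a) * (P.Z c q q' (i + 1))⁻¹ := by
      simp only [Z, T, MonoidHom.comp_apply]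
      group
    rw [e2] at h8
    exact h8

/-- One step of the comparison of three ladders. -/
theorem exists_step3 (L C : Set G) (hL : L.Finite) (hC : C.Finite) :
    ∃ m, ∀ l ∈ L, ∀ l' ∈ L, ∀ l'' ∈ L, ∀ x ∈ C, ∀ x' ∈ C, ∀ x'' ∈ C, ∀ y ∈ C, ∀ y' ∈ C,
      ∀ y'' ∈ C, l * y * l'⁻¹ * x⁻¹ ∈ P.π.range → l' * y' * l''⁻¹ * x'⁻¹ ∈ P.π.range →
      l * y'' * l''⁻¹ * x''⁻¹ ∈ P.π.range → x * x' * x''⁻¹ ∈ P.π.range →
      y * y' * y''⁻¹ ∈ P.π.range →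
      Near P.R m (P.wd (l * y * l'⁻¹ * x⁻¹) * P.lift x (P.wd (l' * y' * l''⁻¹ * x'⁻¹)) *
        P.wd (x * x' * x''⁻¹))
        (P.lift l (P.wd (y * y' * y''⁻¹)) * P.wd (l * y'' * l''⁻¹ * x''⁻¹)) := by
  obtain ⟨m, hm⟩ := P.exists_near
    {i : (G × G × G) × (G × G × G) × (G × G × G) |
      (i.1.1 ∈ L ∧ i.1.2.1 ∈ L ∧ i.1.2.2 ∈ L) ∧
      (i.2.1.1 ∈ C ∧ i.2.1.2.1 ∈ C ∧ i.2.1.2.2 ∈ C) ∧
      (i.2.2.1 ∈ C ∧ i.2.2.2.1 ∈ C ∧ i.2.2.2.2 ∈ C) ∧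
      i.1.1 * i.2.2.1 * i.1.2.1⁻¹ * i.2.1.1⁻¹ ∈ P.π.range ∧
      i.1.2.1 * i.2.2.2.1 * i.1.2.2⁻¹ * i.2.1.2.1⁻¹ ∈ P.π.range ∧
      i.1.1 * i.2.2.2.2 * i.1.2.2⁻¹ * i.2.1.2.2⁻¹ ∈ P.π.range ∧
      i.2.1.1 * i.2.1.2.1 * i.2.1.2.2⁻¹ ∈ P.π.range ∧
      i.2.2.1 * i.2.2.2.1 * i.2.2.2.2⁻¹ ∈ P.π.range}
    (by
      apply ((hL.prod (hL.prod hL)).prod ((hC.prod (hC.prod hC)).prod
        (hC.prod (hC.prod hC)))).subset
      rintro ⟨⟨l, l', l''⟩, ⟨x, x', x''⟩, ⟨y, y', y''⟩⟩ ⟨h1, h2, h3, _⟩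
      exact ⟨h1, h2, h3⟩)
    (fun i => P.wd (i.1.1 * i.2.2.1 * i.1.2.1⁻¹ * i.2.1.1⁻¹) *
      P.lift i.2.1.1 (P.wd (i.1.2.1 * i.2.2.2.1 * i.1.2.2⁻¹ * i.2.1.2.1⁻¹)) *
      P.wd (i.2.1.1 * i.2.1.2.1 * i.2.1.2.2⁻¹))
    (fun i => P.lift i.1.1 (P.wd (i.2.2.1 * i.2.2.2.1 * i.2.2.2.2⁻¹)) *
      P.wd (i.1.1 * i.2.2.2.2 * i.1.2.2⁻¹ * i.2.1.2.2⁻¹))
    (by
      rintro ⟨⟨l, l', l''⟩, ⟨x, x', x''⟩, ⟨y, y', y''⟩⟩ ⟨_, _, _, h1, h2, h3, h4, h5⟩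
      simp only at h1 h2 h3 h4 h5 ⊢
      simp only [map_mul, P.π_lift, P.π_wd h1, P.π_wd h2, P.π_wd h3, P.π_wd h4, P.π_wd h5]
      group)
  exact ⟨m, fun l hl l' hl' l'' hl'' x hx x' hx' x'' hx'' y hy y' hy' y'' hy'' h1 h2 h3 h4 h5 =>
    hm ((l, l', l''), (x, x', x''), (y, y', y''))
      ⟨⟨hl, hl', hl''⟩, ⟨hx, hx', hx''⟩, ⟨hy, hy', hy''⟩, h1, h2, h3, h4, h5⟩⟩

theorem con_mem (q q' q'' : P.Q) (i : ℕ) :
    P.con c q q' i * P.con c q' q'' i * (P.con c q q'' i)⁻¹ ∈ P.π.range := by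
  rw [← QuotientGroup.eq_one_iff]
  simp only [con, QuotientGroup.mk_mul, QuotientGroup.mk_inv, P.mk_lam]
  group

/-- The comparison of three ladders. -/
theorem ladder_three {L C : Set G} {K B L2 c1 c3 : ℕ}
    (hK : ∀ l ∈ L, ∀ r ∈ P.R, AreaLE P.R K (P.lift l r))
    (hL : ∀ q i, P.letter c q i ∈ L) (h0 : ∀ q, c q 0 = 1)
    (hL2 : ∀ l ∈ L, ∀ l' ∈ L, ∀ x ∈ C, ∀ x' ∈ C,
      (P.wd (l * x' * l'⁻¹ * x⁻¹)).toWord.length ≤ L2)
    (hB1 : K ≤ B) (hB2 : 2 ≤ B)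
    (hc3 : ∀ l ∈ L, ∀ l' ∈ L, ∀ l'' ∈ L, ∀ x ∈ C, ∀ x' ∈ C, ∀ x'' ∈ C, ∀ y ∈ C, ∀ y' ∈ C,
      ∀ y'' ∈ C, l * y * l'⁻¹ * x⁻¹ ∈ P.π.range → l' * y' * l''⁻¹ * x'⁻¹ ∈ P.π.range →
      l * y'' * l''⁻¹ * x''⁻¹ ∈ P.π.range → x * x' * x''⁻¹ ∈ P.π.range →
      y * y' * y''⁻¹ ∈ P.π.range →
      Near P.R c3 (P.wd (l * y * l'⁻¹ * x⁻¹) * P.lift x (P.wd (l' * y' * l''⁻¹ * x'⁻¹)) *
        P.wd (x * x' * x''⁻¹))
        (P.lift l (P.wd (y * y' * y''⁻¹)) * P.wd (l * y'' * l''⁻¹ * x''⁻¹)))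
    (q q' q'' : P.Q) (hC : ∀ i, P.con c q q' i ∈ C) (hC' : ∀ i, P.con c q' q'' i ∈ C)
    (hC'' : ∀ i, P.con c q q'' i ∈ C)
    (hconj : ∀ i, ∀ a : α, Near P.R (c1 * B ^ i)
      (P.Z c q q' i * P.T c q' i (FreeGroup.of a) * (P.Z c q q' i)⁻¹)
      (P.T c q i (P.lift (P.con c q q' i) (FreeGroup.of a)))) (i : ℕ) :
    Near P.R ((L2 * c1 + c3) * B ^ i)
      (P.Z c q q' i * P.Z c q' q'' i)
      (P.T c q i (P.wd (P.con c q q' i * P.con c q' q'' i * (P.con c q q'' i)⁻¹)) *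
        P.Z c q q'' i) := by
  induction i with
  | zero =>
    have e : ∀ q q' : P.Q, P.con c q q' 0 = 1 := by
      intro q q'
      unfold con
      rw [h0, h0, inv_one, one_mul, P.lam_one]
    rw [e, e, e]
    apply Near.mono (Near.of_eq _) (Nat.zero_le _)
    simp [Z, T, P.wd_one]
  | succ i ih =>
    -- abbreviations
    set κ := P.wd (P.kap c q q' i) with hκ
    set κ' := P.wd (P.kap c q' q'' i) with hκ'
    set κ'' := P.wd (P.kap c q q'' i) with hκ''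
    have h1 := near_hom (R := P.R) (E := c1 * B ^ i)
      ((MulAut.conj (P.Z c q q' i)).toMonoidHom.comp (P.T c q' i))
      ((P.T c q i).comp (P.lift (P.con c q q' i)))
      (by
        intro a
        simpa using hconj i a) κ'
    have h2 : Near P.R (L2 * (c1 * B ^ i))
        (P.Z c q q' i * P.T c q' i κ' * (P.Z c q q' i)⁻¹)
        (P.T c q i (P.lift (P.con c q q' i) κ')) := by
      have := h1.mono (Nat.mul_le_mul_right (c1 * B ^ i)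
        (hL2 _ (hL q' i) _ (hL q'' i) _ (hC' i) _ (hC' (i + 1))))
      simpa using this
    have h3 := (h2.mul_left (P.T c q i κ)).mul_right (P.Z c q q' i * P.Z c q' q'' i)
    have h4 := ih.mul_left (P.T c q i κ * P.T c q i (P.lift (P.con c q q' i) κ'))
    have h5 := P.T_area hK hL q i
      (hc3 _ (hL q i) _ (hL q' i) _ (hL q'' i) _ (hC i) _ (hC' i) _ (hC'' i)
        _ (hC (i + 1)) _ (hC' (i + 1)) _ (hC'' (i + 1)) (P.kap_mem q q' i)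
        (P.kap_mem q' q'' i) (P.kap_mem q q'' i) (P.con_mem q q' q'' i)
        (P.con_mem q q' q'' (i + 1)))
    have h6 := h5.mul_right (P.Z c q q'' i)
    have h34 := h3.trans (w := P.T c q i κ * P.T c q i (P.lift (P.con c q q' i) κ') *
      (P.T c q i (P.wd (P.con c q q' i * P.con c q' q'' i * (P.con c q q'' i)⁻¹)) *
        P.Z c q q'' i)) (n := (L2 * c1 + c3) * B ^ i) h4
    have h346 := h34.trans (w := P.T c q i (P.lift (P.letter c q i)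
      (P.wd (P.con c q q' (i + 1) * P.con c q' q'' (i + 1) * (P.con c q q'' (i + 1))⁻¹)) *
        κ'') * P.Z c q q'' i) (n := c3 * K ^ i) (by
        have e : P.T c q i κ * P.T c q i (P.lift (P.con c q q' i) κ') *
          (P.T c q i (P.wd (P.con c q q' i * P.con c q' q'' i * (P.con c q q'' i)⁻¹)) *
          P.Z c q q'' i) = P.T c q i (κ * P.lift (P.con c q q' i) κ' *
          P.wd (P.con c q q' i * P.con c q' q'' i * (P.con c q q'' i)⁻¹)) * P.Z c q q'' i := by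
          simp only [map_mul, mul_assoc]
        rw [e]
        exact h6)
    have h7 : L2 * (c1 * B ^ i) + (L2 * c1 + c3) * B ^ i + c3 * K ^ i ≤
        (L2 * c1 + c3) * B ^ (i + 1) := by
      have h7 : K ^ i ≤ B ^ i := Nat.pow_le_pow_left hB1 i
      calc L2 * (c1 * B ^ i) + (L2 * c1 + c3) * B ^ i + c3 * K ^ i ≤
          L2 * (c1 * B ^ i) + (L2 * c1 + c3) * B ^ i + c3 * B ^ i := by gcongr
        _ = (L2 * c1 + c3) * B ^ i * 2 := by ring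
        _ ≤ (L2 * c1 + c3) * B ^ i * B := Nat.mul_le_mul_left _ hB2
        _ = (L2 * c1 + c3) * B ^ (i + 1) := by ring
    have h8 := h346.mono h7
    have e1 : P.T c q i κ * (P.Z c q q' i * P.T c q' i κ' * (P.Z c q q' i)⁻¹) *
        (P.Z c q q' i * P.Z c q' q'' i) = P.Z c q q' (i + 1) * P.Z c q' q'' (i + 1) := by
      simp only [Z, ← hκ, ← hκ']
      group
    have e2 : P.T c q i (P.lift (P.letter c q i)
      (P.wd (P.con c q q' (i + 1) * P.con c q' q'' (i + 1) * (P.con c q q'' (i + 1))⁻¹)) *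
        κ'') * P.Z c q q'' i = P.T c q (i + 1) (P.wd (P.con c q q' (i + 1) *
          P.con c q' q'' (i + 1) * (P.con c q q'' (i + 1))⁻¹)) * P.Z c q q'' (i + 1) := by
      simp only [Z, T, MonoidHom.comp_apply, map_mul, ← hκ'', mul_assoc]
    rw [e1, e2] at h8
    exact h8

end Push

end Pda3a14
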