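import Pool.Agent.Lib.Pda3a14.Area

/-!
# Pushing paths into a normal subgroup
-/

set_option linter.unusedSectionVars false

namespace Pda3a14

/-- A finite presentation of a normal subgroup (the range of `π`), seen in the big group. -/
structure Push (G : Type*) [Group G] (α : Type*) where
  π : FreeGroup α →* G
  R : Set (FreeGroup α)
  fin : R.Finite
  ker : π.ker = Subgroup.normalClosure R
  normal : π.range.Normal

namespace Push

variable {G : Type*} [Group G] {α : Type*} [Fintype α] [DecidableEq α] (P : Push G α)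

attribute [local instance] Push.normal

open Classical in
/-- A word for an element of the normal subgroup. -/
noncomputable def wd (g : G) : FreeGroup α :=
  if h : g ∈ P.π.range ∧ g ≠ 1 then h.1.choose else 1

theorem wd_one : P.wd 1 = 1 := by simp [wd]

theorem π_wd {g : G} (hg : g ∈ P.π.range) : P.π (P.wd g) = g := by
  unfold wd
  by_cases h : g = 1
  · subst h; simp
  · rw [dif_pos ⟨hg, h⟩]
    exact hg.choose_spec

/-- An endomorphism of the free group over the conjugation by `g`. -/
noncomputable def lift (g : G) : FreeGroup α →* FreeGroup α :=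
  FreeGroup.lift fun a => P.wd (g * P.π (FreeGroup.of a) * g⁻¹)

theorem conj_mem (g : G) {x : G} (hx : x ∈ P.π.range) : g * x * g⁻¹ ∈ P.π.range :=
  P.normal.conj_mem x hx g

theorem π_lift (g : G) (v : FreeGroup α) : P.π (P.lift g v) = g * P.π v * g⁻¹ := by
  have : P.π.comp (P.lift g) = (MulAut.conj g).toMonoidHom.comp P.π := by
    ext a
    simp only [MonoidHom.comp_apply, lift, FreeGroup.lift_apply_of]
    rw [P.π_wd (P.conj_mem g ⟨_, rfl⟩)]
    simp
  have h2 := DFunLike.congr_fun this v
  simpa using h2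

theorem near_of_eq {u v : FreeGroup α} (h : P.π u = P.π v) : ∃ m, Near P.R m u v := by
  apply exists_areaLE
  rw [← P.ker, MonoidHom.mem_ker, map_mul, map_inv, h, mul_inv_cancel]

theorem exists_near {ι : Type*} (s : Set ι) (hs : s.Finite) (u v : ι → FreeGroup α)
    (h : ∀ i ∈ s, P.π (u i) = P.π (v i)) : ∃ m, ∀ i ∈ s, Near P.R m (u i) (v i) := by
  have h2 : ∀ i, ∃ m, i ∈ s → Near P.R m (u i) (v i) := by
    intro i
    by_cases hi : i ∈ s
    · obtain ⟨m, hm⟩ := P.near_of_eq (h i hi)
      exact ⟨m, fun _ => hm⟩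
    · exact ⟨0, fun h => absurd h hi⟩
  choose m hm using h2
  obtain ⟨M, hM⟩ := (hs.image m).bddAbove
  exact ⟨M, fun i hi => (hm i hi).mono (hM ⟨i, hi, rfl⟩)⟩

theorem exists_len {ι : Type*} (s : Set ι) (hs : s.Finite) (u : ι → FreeGroup α) :
    ∃ m, ∀ i ∈ s, (u i).toWord.length ≤ m := by
  obtain ⟨M, hM⟩ := (hs.image fun i => (u i).toWord.length).bddAbove
  exact ⟨M, fun i hi => hM ⟨i, hi, rfl⟩⟩

theorem exists_area_lift (L : Set G) (hL : L.Finite) :
    ∃ K, ∀ l ∈ L, ∀ r ∈ P.R, AreaLE P.R K (P.lift l r) := by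
  obtain ⟨K, hK⟩ := P.exists_near (L ×ˢ P.R) (hL.prod P.fin) (fun i => P.lift i.1 i.2)
    (fun _ => 1) (by
      rintro ⟨l, r⟩ ⟨_, hr⟩
      have : P.π r = 1 := by
        rw [← MonoidHom.mem_ker, P.ker]
        exact Subgroup.subset_normalClosure hr
      rw [P.π_lift, this]
      simp)
  refine ⟨K, fun l hl r hr => ?_⟩
  have := hK (l, r) ⟨hl, hr⟩
  simpa [Near] using this

/-- The quotient. -/
abbrev Q : Type _ := G ⧸ P.π.range

open Classical in
/-- A lift of an element of the quotient. -/
noncomputable def lam (q : P.Q) : G := if q = 1 then 1 else q.out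

theorem lam_one : P.lam 1 = 1 := by simp [lam]

theorem mk_lam (q : P.Q) : ((P.lam q : G) : P.Q) = q := by
  unfold lam
  by_cases h : q = 1
  · rw [if_pos h, h]; rfl
  · rw [if_neg h]
    exact Quotient.out_eq' q

section

variable (c : P.Q → ℕ → P.Q)

/-- The `i`-th letter of the lifted path towards `q`. -/
noncomputable def letter (q : P.Q) (i : ℕ) : G := P.lam ((c q i)⁻¹ * c q (i + 1))

/-- The lifted path. -/
noncomputable def X (q : P.Q) : ℕ → G
  | 0 => 1
  | i + 1 => X q i * P.letter c q i

/-- The endomorphism over the conjugation by `X q i`. -/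
noncomputable def T (q : P.Q) : ℕ → (FreeGroup α →* FreeGroup α)
  | 0 => MonoidHom.id _
  | i + 1 => (T q i).comp (P.lift (P.letter c q i))

/-- The connector of two paths. -/
noncomputable def con (q q' : P.Q) (i : ℕ) : G := P.lam ((c q i)⁻¹ * c q' i)

/-- The elementary loops. -/
noncomputable def kap (q q' : P.Q) (i : ℕ) : G :=
  P.letter c q i * P.con c q q' (i + 1) * (P.letter c q' i)⁻¹ * (P.con c q q' i)⁻¹

/-- The pushed ladder. -/
noncomputable def Z (q q' : P.Q) : ℕ → FreeGroup α
  | 0 => 1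
  | i + 1 => P.T c q i (P.wd (P.kap c q q' i)) * Z q q' i

variable {c}

theorem kap_mem (q q' : P.Q) (i : ℕ) : P.kap c q q' i ∈ P.π.range := by
  rw [← QuotientGroup.eq_one_iff]
  simp only [kap, letter, con, QuotientGroup.mk_mul, QuotientGroup.mk_inv, P.mk_lam]
  group

theorem T_area {L : Set G} {K : ℕ} (hK : ∀ l ∈ L, ∀ r ∈ P.R, AreaLE P.R K (P.lift l r))
    (hL : ∀ q i, P.letter c q i ∈ L) (q : P.Q) (i : ℕ) :
    ∀ {m : ℕ} {u v : FreeGroup α}, Near P.R m u v →
      Near P.R (m * K ^ i) (P.T c q i u) (P.T c q i v) := by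
  induction i with
  | zero => intro m u v h; simpa [T] using h
  | succ i ih =>
    intro m u v h
    have h1 := h.map (P.lift (P.letter c q i)) (hK _ (hL q i))
    have h2 := ih h1
    have e : m * K ^ (i + 1) = m * K * K ^ i := by rw [pow_succ]; ring
    rw [e]
    exact h2

end

end Push

end Pda3a14
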