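import Pool.Agent.Lib.Pda3a14.RFlat

/-!
# Combings of abelian groups which are controlled in a quotient
-/

open scoped Pointwise

namespace Pda3a14

theorem finite_box {κ : Type*} [Fintype κ] (m : ℕ) :
    {u : κ → Multiplicative ℤ | ∀ j, (Multiplicative.toAdd (u j)).natAbs ≤ m}.Finite := by
  have h : ∀ _ : κ, {x : Multiplicative ℤ | (Multiplicative.toAdd x).natAbs ≤ m}.Finite := by
    intro _
    apply ((Set.finite_Icc (-(m : ℤ)) m).image Multiplicative.ofAdd).subset
    intro x hx
    refine ⟨Multiplicative.toAdd x, ?_, rfl⟩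
    have hx' : (Multiplicative.toAdd x).natAbs ≤ m := hx
    rw [Set.mem_Icc]; omega
  exact Set.Finite.pi' h

/-- The clamp in all coordinates. -/
def clampV {κ : Type*} (u : κ → Multiplicative ℤ) (t : ℕ) : κ → Multiplicative ℤ :=
  fun j => Multiplicative.ofAdd (clamp (Multiplicative.toAdd (u j)) t)

theorem exists_section {B : Type*} [CommGroup B] {κ : Type*} [Fintype κ]
    (v : B →* (κ → Multiplicative ℤ)) (hv : Function.Surjective v) :
    ∃ σ : (κ → Multiplicative ℤ) →* B, ∀ u, v (σ u) = u := by
  classical
  choose b hb using fun j => hv (Pi.mulSingle j (Multiplicative.ofAdd (1 : ℤ)))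
  refine ⟨{ toFun := fun u => ∏ j, b j ^ (Multiplicative.toAdd (u j)),
            map_one' := by simp, map_mul' := ?_ }, ?_⟩
  · intro u u'
    simp only [Pi.mul_apply, toAdd_mul, zpow_add, Finset.prod_mul_distrib]
  · intro u
    simp only [MonoidHom.coe_mk, OneHom.coe_mk, map_prod, map_zpow, hb]
    have h : ∀ j, (Pi.mulSingle j (Multiplicative.ofAdd (1 : ℤ)) : κ → Multiplicative ℤ) ^
        (Multiplicative.toAdd (u j)) = Pi.mulSingle j (u j) := by
      intro j
      rw [← Pi.mulSingle_zpow, ← ofAdd_zsmul]
      simp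
    simp only [h, Finset.univ_prod_mulSingle]

section Controlled

variable {B : Type*} [CommGroup B] [Group.FG B] {Q : Type*} [Group Q] {Sq : Finset Q}

theorem exists_controlled (hSq : Subgroup.closure (Sq : Set Q) = ⊤) (φ : B →* Q)
    {κ : Type*} [Fintype κ] (v : B →* (κ → Multiplicative ℤ)) (hv : Function.Surjective v)
    (hfin : (φ '' {b | v b = 1}).Finite) {Cv : ℕ}
    (hCv : ∀ b j, (Multiplicative.toAdd (v b j)).natAbs ≤ Cv * (wordLength Sq (φ b) + 1)) :
    ∃ (Kb : NCombing B) (Cc : ℕ), ∀ b t, wordLength Sq (φ (Kb.c b t)) ≤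
      Cc * (wordLength Sq (φ b) + 1) := by
  classical
  obtain ⟨σ, hσ⟩ := exists_section v hv
  set r : B →* v.ker :=
    { toFun := fun b => ⟨(σ (v b))⁻¹ * b, by
        rw [MonoidHom.mem_ker, map_mul, map_inv, hσ, inv_mul_cancel]⟩
      map_one' := by
        apply Subtype.ext
        simp
      map_mul' := by
        intro a b
        apply Subtype.ext
        change (σ (v (a * b)))⁻¹ * (a * b) = (σ (v a))⁻¹ * a * ((σ (v b))⁻¹ * b)
        rw [map_mul, map_mul, mul_inv, mul_mul_mul_comm] } with hr
  have hrv : ∀ b, ((r b : v.ker) : B) = (σ (v b))⁻¹ * b := fun b => rfl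
  have hrs : Function.Surjective r := by
    intro x
    refine ⟨x, ?_⟩
    apply Subtype.ext
    rw [hrv, MonoidHom.mem_ker.1 x.2, map_one, inv_one, one_mul]
  have hfg : Group.FG v.ker := Group.fg_of_surjective hrs
  obtain ⟨K1⟩ := (combable_of_comm v.ker).exists_normalised
  have hbox : ∀ m : ℕ, (σ '' {u : κ → Multiplicative ℤ |
      ∀ j, (Multiplicative.toAdd (u j)).natAbs ≤ m}).Finite := fun m => (finite_box m).image _
  have hbd : ∀ F : Set B, F.Finite → ∃ m : ℕ, ∀ b ∈ F, ∀ j,
      (Multiplicative.toAdd (v b j)).natAbs ≤ m := by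
    intro F hF
    obtain ⟨m, hm⟩ := (hF.image fun b => ∑ j, (Multiplicative.toAdd (v b j)).natAbs).bddAbove
    refine ⟨m, fun b hb j => ?_⟩
    refine le_trans ?_ (hm ⟨b, hb, rfl⟩)
    exact Finset.single_le_sum (f := fun j => (Multiplicative.toAdd (v b j)).natAbs)
      (fun _ _ => Nat.zero_le _) (Finset.mem_univ j)
  have hcl0 : ∀ u : κ → Multiplicative ℤ, clampV u 0 = 1 := by
    intro u
    funext j
    have : clamp (Multiplicative.toAdd (u j)) 0 = 0 := by unfold clamp; omega
    simp only [clampV, this, ofAdd_zero, Pi.one_apply]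
  have hcl1 : ∀ t : ℕ, clampV (1 : κ → Multiplicative ℤ) t = 1 := by
    intro t
    funext j
    have : clamp 0 t = 0 := by unfold clamp; omega
    simp only [clampV, this, ofAdd_zero, Pi.one_apply, toAdd_one]
  set c : B → ℕ → B := fun b t => σ (clampV (v b) t) * ((K1.c (r b) t : v.ker) : B) with hc
  have hdiff : ∀ (u u' : κ → Multiplicative ℤ) (k k' : v.ker),
      (σ u * (k : B))⁻¹ * (σ u' * (k' : B)) = σ (u⁻¹ * u') * ((k⁻¹ * k' : v.ker) : B) := by
    intro u u' k k'
    rw [mul_inv, mul_mul_mul_comm, map_mul, map_inv, Subgroup.coe_mul, Subgroup.coe_inv]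
  let Kb : NCombing B :=
    { c := c
      zero := by
        intro b
        simp only [hc]
        rw [hcl0, K1.zero, map_one]
        simp
      one := by
        intro t
        simp only [hc]
        rw [map_one, map_one, hcl1, K1.one, map_one]
        simp
      S := (σ '' {u : κ → Multiplicative ℤ | ∀ j, (Multiplicative.toAdd (u j)).natAbs ≤ 1}) *
        (Subtype.val '' K1.S)
      fin := (hbox 1).mul (K1.fin.image _)
      step := by
        intro b t
        simp only [hc]
        rw [hdiff]
        apply Set.mul_mem_mul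
        · refine ⟨_, ?_, rfl⟩
          intro j
          simp only [clampV, Pi.mul_apply, Pi.inv_apply, toAdd_mul, toAdd_inv, toAdd_ofAdd]
          unfold clamp
          push_cast
          omega
        · exact ⟨_, K1.step _ t, rfl⟩
      fel := by
        intro F hF
        obtain ⟨m, hm⟩ := hbd F hF
        obtain ⟨C1, hC1, hfel⟩ := K1.fel (r '' F) (hF.image _)
        refine ⟨(σ '' {u : κ → Multiplicative ℤ | ∀ j, (Multiplicative.toAdd (u j)).natAbs ≤ m}) *
          (Subtype.val '' C1), (hbox m).mul (hC1.image _), ?_⟩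
        intro q b hb t
        simp only [hc]
        rw [hdiff]
        apply Set.mul_mem_mul
        · refine ⟨_, ?_, rfl⟩
          intro j
          have h1 := hm b hb j
          rw [map_mul]
          simp only [clampV, Pi.mul_apply, Pi.inv_apply, toAdd_mul, toAdd_inv, toAdd_ofAdd]
          unfold clamp
          omega
        · refine ⟨_, ?_, rfl⟩
          rw [map_mul]
          exact hfel (r q) (r b) ⟨b, hb, rfl⟩ t
      len := by
        intro F hF
        obtain ⟨m, hm⟩ := hbd F hF
        obtain ⟨C1, hC1⟩ := K1.len (r '' F) (hF.image _)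
        refine ⟨C1 + m, ?_⟩
        intro l hl t ht
        have h1 : ∀ j, (Multiplicative.toAdd (v l.prod j)).natAbs ≤ l.length * m := by
          intro j
          clear ht
          induction l with
          | nil => simp
          | cons a l ih =>
            have i1 := ih fun s hs => hl s (by simp [hs])
            have i2 := hm a (hl a (by simp)) j
            rw [List.prod_cons, List.length_cons, map_mul, Pi.mul_apply, toAdd_mul]
            have i3 := Int.natAbs_add_le (Multiplicative.toAdd (v a j))
              (Multiplicative.toAdd (v l.prod j))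
            have i4 : (l.length + 1) * m = l.length * m + m := by ring
            omega
        have h2 : l.length * m ≤ t := by
          refine le_trans ?_ ht
          have : (C1 + m) * (l.length + 1) = C1 * (l.length + 1) + m + l.length * m := by ring
          omega
        have h3 : clampV (v l.prod) t = v l.prod := by
          funext j
          have h4 := h1 j
          have h5 : clamp (Multiplicative.toAdd (v l.prod j)) t =
              Multiplicative.toAdd (v l.prod j) := by
            unfold clamp; omega
          simp only [clampV, h5, ofAdd_toAdd]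
        have h6 : K1.c (r l.prod) t = r l.prod := by
          rw [map_list_prod]
          apply hC1
          · intro s hs
            rw [List.mem_map] at hs
            obtain ⟨a, ha, rfl⟩ := hs
            exact ⟨a, hl a ha, rfl⟩
          · rw [List.length_map]
            refine le_trans ?_ ht
            exact Nat.mul_le_mul_right _ (by omega)
        simp only [hc]
        rw [h3, h6, hrv, mul_inv_cancel_left] }
  -- the control
  obtain ⟨C2, hC2⟩ := (((finite_box (κ := κ) 1).image fun u => wordLength Sq (φ (σ u)))).bddAbove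
  obtain ⟨C3, hC3⟩ := (hfin.image fun q => wordLength Sq q).bddAbove
  have hlen : ∀ (u : κ → Multiplicative ℤ) (s : ℕ),
      wordLength Sq (φ (σ (clampV u s))) ≤ s * C2 := by
    intro u s
    induction s with
    | zero => rw [hcl0, map_one, map_one, wordLength_one]; omega
    | succ s ih =>
      have h1 : clampV u (s + 1) = clampV u s * ((clampV u s)⁻¹ * clampV u (s + 1)) := by
        rw [mul_inv_cancel_left]
      rw [h1, map_mul, map_mul]
      have h2 := wordLength_mul hSq (φ (σ (clampV u s)))
        (φ (σ ((clampV u s)⁻¹ * clampV u (s + 1))))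
      have h3 : wordLength Sq (φ (σ ((clampV u s)⁻¹ * clampV u (s + 1)))) ≤ C2 := by
        apply hC2
        refine ⟨_, ?_, rfl⟩
        intro j
        simp only [clampV, Pi.mul_apply, Pi.inv_apply, toAdd_mul, toAdd_inv, toAdd_ofAdd]
        unfold clamp
        push_cast
        omega
      have h4 : (s + 1) * C2 = s * C2 + C2 := by ring
      omega
  refine ⟨Kb, Cv * C2 + C3, fun b t => ?_⟩
  change wordLength Sq (φ (σ (clampV (v b) t) * ((K1.c (r b) t : v.ker) : B))) ≤ _
  set n := Cv * (wordLength Sq (φ b) + 1) with hn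
  have h1 : clampV (v b) t = clampV (v b) (min t n) := by
    funext j
    have h2 := hCv b j
    rw [← hn] at h2
    have h3 : clamp (Multiplicative.toAdd (v b j)) t =
        clamp (Multiplicative.toAdd (v b j)) (min t n) := by
      unfold clamp; omega
    simp only [clampV, h3]
  have h4 := hlen (v b) (min t n)
  rw [← h1] at h4
  have h5 : min t n * C2 ≤ n * C2 := Nat.mul_le_mul_right _ (min_le_right _ _)
  have h6 : wordLength Sq (φ ((K1.c (r b) t : v.ker) : B)) ≤ C3 := by
    apply hC3
    refine ⟨_, ⟨_, ?_, rfl⟩, rfl⟩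
    exact (K1.c (r b) t).2
  have h7 := wordLength_mul hSq (φ (σ (clampV (v b) t))) (φ ((K1.c (r b) t : v.ker) : B))
  rw [← map_mul] at h7
  have h8 : n * C2 + C3 ≤ (Cv * C2 + C3) * (wordLength Sq (φ b) + 1) := by
    have h9 : (Cv * C2 + C3) * (wordLength Sq (φ b) + 1) =
        n * C2 + C3 + C3 * wordLength Sq (φ b) := by rw [hn]; ring
    omega
  omega

end Controlled

theorem exists_coords (D : Type*) [CommGroup D] [Group.FG D] :
    ∃ (κ : Type) (_ : Fintype κ) (h : D →* (κ → Multiplicative ℤ)), Function.Surjective h ∧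
      {d | h d = 1}.Finite := by
  obtain ⟨j, κ, _, hκ, p, hp, e, ⟨φ⟩⟩ := CommGroup.equiv_free_prod_prod_multiplicative_zmod D
  have : ∀ i, NeZero (p i ^ e i) := fun i => ⟨pow_ne_zero _ (hp i).ne_zero⟩
  have h2 : ∀ i, Finite (Multiplicative (ZMod (p i ^ e i))) := fun i => inferInstance
  refine ⟨κ, hκ, (MonoidHom.fst _ _).comp φ.toMonoidHom, ?_, ?_⟩
  · intro u
    refine ⟨φ.symm (u, 1), ?_⟩
    simp
  · have hf : (Set.univ : Set ((i : j) → Multiplicative (ZMod (p i ^ e i)))).Finite :=
      Set.finite_univ
    apply ((hf.image fun y => φ.symm (1, y))).subset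
    intro d hd
    refine ⟨(φ d).2, trivial, ?_⟩
    have h3 : (φ d).1 = 1 := hd
    have h4 : ((1 : κ → Multiplicative ℤ), (φ d).2) = φ d := by rw [← h3]
    simp only
    rw [h4, MulEquiv.symm_apply_apply]

end Pda3a14
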