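import Pool.Agent.Lib.Pda3a14.RTrace
import Pool.Agent.Lib.Pda3a14.Area

/-!
# Filling bounded cells of moves
-/

namespace Pda3a14

open SimpleGraph

variable {G : Type*} [Group G] {ι : Type*} {α : Type*}

/-- The product of the pushed moves. -/
def Psi (mv : G → Option ι × G → FreeGroup α) : G → List (Option ι × G) → FreeGroup α
  | _, [] => 1
  | g, e :: W => mv g e * Psi mv (g * e.2) W

theorem Psi_append (mv : G → Option ι × G → FreeGroup α) (g : G) (W W' : List (Option ι × G)) :
    Psi mv g (W ++ W') = Psi mv g W * Psi mv (g * prd W) W' := by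
  induction W generalizing g with
  | nil => simp [Psi]
  | cons e W ih =>
    rw [List.cons_append]
    simp only [Psi, prd_cons]
    rw [ih, mul_assoc, mul_assoc]

/-- All vertices satisfy `Vs`. -/
def AllV (Vs : G → Prop) : G → List (Option ι × G) → Prop
  | g, [] => Vs g
  | g, e :: W => Vs g ∧ AllV Vs (g * e.2) W

theorem AllV.head {Vs : G → Prop} {g : G} {W : List (Option ι × G)} (h : AllV Vs g W) :
    Vs g := by
  cases W with
  | nil => exact h
  | cons e W => exact h.1

theorem allV_append {Vs : G → Prop} {g : G} {W W' : List (Option ι × G)} :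
    AllV Vs g (W ++ W') ↔ AllV Vs g W ∧ AllV Vs (g * prd W) W' := by
  induction W generalizing g with
  | nil =>
    simp only [List.nil_append, prd_nil, mul_one]
    exact ⟨fun h => ⟨h.head, h⟩, fun h => h.2⟩
  | cons e W ih =>
    rw [List.cons_append]
    simp only [AllV, prd_cons]
    rw [ih, mul_assoc]
    tauto

theorem AllV.last {Vs : G → Prop} {g : G} {W : List (Option ι × G)} (h : AllV Vs g W) :
    Vs (g * prd W) := by
  have := (allV_append (W := W) (W' := []) (Vs := Vs) (g := g)).1 (by rwa [List.append_nil])
  exact this.2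

theorem AllV.imp {Vs Vs' : G → Prop} (hV : ∀ v, Vs v → Vs' v) {g : G}
    {W : List (Option ι × G)} (h : AllV Vs g W) : AllV Vs' g W := by
  induction W generalizing g with
  | nil => exact hV g h
  | cons e W ih => exact ⟨hV g h.1, ih h.2⟩

/-- The inverse list of moves. -/
def winv (W : List (Option ι × G)) : List (Option ι × G) :=
  (W.map fun e => (e.1, e.2⁻¹)).reverse

theorem winv_cons (e : Option ι × G) (W : List (Option ι × G)) :
    winv (e :: W) = winv W ++ [(e.1, e.2⁻¹)] := by
  simp [winv]

theorem winv_length (W : List (Option ι × G)) : (winv W).length = W.length := by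
  simp [winv]

theorem prd_winv (W : List (Option ι × G)) : prd (winv W) = (prd W)⁻¹ := by
  induction W with
  | nil => simp [winv]
  | cons e W ih => rw [winv_cons, prd_append, ih]; simp

theorem AllV.winv {Vs : G → Prop} {g : G} {W : List (Option ι × G)} (h : AllV Vs g W) :
    AllV Vs (g * prd W) (winv W) := by
  induction W generalizing g with
  | nil => simpa [Pda3a14.winv, AllV] using h
  | cons e W ih =>
    rw [winv_cons, allV_append, prd_winv]
    have h1 := ih h.2
    simp only [prd_cons]
    rw [← mul_assoc]
    refine ⟨h1, ?_⟩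
    rw [mul_inv_cancel_right]
    refine ⟨h.2.head, ?_⟩
    simpa [AllV] using h.1

variable (S : Finset G) (A : ι → Subgroup G)

/-- The moves are admissible. -/
def Mok (lam : ℕ) (W : List (Option ι × G)) : Prop :=
  ∀ e ∈ W, (e.1 = none → wordLength S e.2 ≤ lam) ∧ ∀ i, e.1 = some i → e.2 ∈ A i

variable {S A}

theorem Mok.mono {lam lam' : ℕ} {W : List (Option ι × G)} (h : Mok S A lam W)
    (hl : lam ≤ lam') : Mok S A lam' W :=
  fun e he => ⟨fun h1 => ((h e he).1 h1).trans hl, (h e he).2⟩

theorem mok_append {lam : ℕ} {W W' : List (Option ι × G)} :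
    Mok S A lam (W ++ W') ↔ Mok S A lam W ∧ Mok S A lam W' := by
  unfold Mok
  constructor
  · intro h
    exact ⟨fun e he => h e (List.mem_append_left _ he),
      fun e he => h e (List.mem_append_right _ he)⟩
  · rintro ⟨h1, h2⟩ e he
    rcases List.mem_append.1 he with h | h
    · exact h1 e h
    · exact h2 e h

theorem mok_cons {lam : ℕ} {e : Option ι × G} {W : List (Option ι × G)} :
    Mok S A lam (e :: W) ↔ ((e.1 = none → wordLength S e.2 ≤ lam) ∧
      ∀ i, e.1 = some i → e.2 ∈ A i) ∧ Mok S A lam W := by
  unfold Mok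
  simp only [List.mem_cons, forall_eq_or_imp]

theorem mok_nil {lam : ℕ} : Mok S A lam [] := by
  intro e he; simp at he

theorem Mok.winv (hS : Subgroup.closure (S : Set G) = ⊤) {lam : ℕ} {W : List (Option ι × G)}
    (h : Mok S A lam W) : Mok S A lam (winv W) := by
  intro e he
  unfold Pda3a14.winv at he
  rw [List.mem_reverse, List.mem_map] at he
  obtain ⟨e', he', rfl⟩ := he
  refine ⟨fun h1 => ?_, fun i h1 => ?_⟩
  · simp only
    rw [wordLength_inv hS]
    exact (h e' he').1 h1
  · exact inv_mem ((h e' he').2 i h1)

/-- Data for filling: `mv g e` is the pushed move `e` at `g`. -/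
structure RFill (R : Set (FreeGroup α)) (S : Finset G) (A : ι → Subgroup G)
    (mv : G → Option ι × G → FreeGroup α) (ok : G → Prop) (m Λ J : ℕ) : Prop where
  tri : ∀ g b b' : G, wordLength S b ≤ Λ → wordLength S b' ≤ Λ → wordLength S (b * b') ≤ Λ →
    ok g → ok (g * b) → ok (g * b * b') →
    Near R m (mv g (none, b) * mv (g * b) (none, b')) (mv g (none, b * b'))
  one : ∀ g : G, mv g (none, 1) = 1
  flat : ∀ (i : ι) (g p p' : G), p ∈ A i → p' ∈ A i → wordLength S p ≤ J →
    wordLength S p' ≤ J → wordLength S (p * p') ≤ J → ok g → ok (g * p) → ok (g * p * p') →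
    Near R m (mv g (some i, p) * mv (g * p) (some i, p')) (mv g (some i, p * p'))
  flat_one : ∀ (i : ι) (g : G), mv g (some i, 1) = 1
  short : ∀ (i : ι) (g p : G), p ∈ A i → wordLength S p ≤ Λ → ok g → ok (g * p) →
    Near R m (mv g (some i, p)) (mv g (none, p))

variable {R : Set (FreeGroup α)} {mv : G → Option ι × G → FreeGroup α} {ok : G → Prop}
  {m Λ J : ℕ}

theorem short_path (hF : RFill R S A mv ok m Λ J) (hS : Subgroup.closure (S : Set G) = ⊤)
    {lam : ℕ} (W : List (Option ι × G)) (g : G)
    (hn : ∀ e ∈ W, e.1 = none) (hM : Mok S A lam W) (hV : AllV ok g W)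
    (hl : W.length * lam ≤ Λ) :
    wordLength S (prd W) ≤ W.length * lam ∧
      Near R (W.length * m) (Psi mv g W) (mv g (none, prd W)) := by
  induction W generalizing g with
  | nil =>
    simp only [prd_nil, List.length_nil, zero_mul, Psi]
    rw [wordLength_one, hF.one]
    exact ⟨le_rfl, Near.refl _⟩
  | cons e W ih =>
    rw [mok_cons] at hM
    have hl' : W.length * lam ≤ Λ := by
      refine le_trans ?_ hl
      rw [List.length_cons]
      exact Nat.mul_le_mul_right _ (by omega)
    obtain ⟨h1, h2⟩ := ih (g * e.2) (fun e' he' => hn e' (by simp [he'])) hM.2 hV.2 hl'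
    have he1 := hn e (by simp)
    have he2 := hM.1.1 he1
    have hlen : (e :: W).length * lam = W.length * lam + lam := by
      rw [List.length_cons]; ring
    rw [hlen] at hl ⊢
    have h3 := wordLength_mul hS e.2 (prd W)
    rw [prd_cons]
    refine ⟨by omega, ?_⟩
    obtain ⟨o, b⟩ := e
    simp only at he1 he2 h1 h2 h3 ⊢
    subst he1
    have h5 := hF.tri g b (prd W) (by omega) (by omega) (by omega) hV.head hV.2.head hV.2.last
    simp only [Psi]
    apply ((h2.mul_left (mv g (none, b))).trans h5).mono
    rw [List.length_cons]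
    apply le_of_eq; ring

/-- A path of moves which avoids a cone. -/
theorem conn_path (hS : Subgroup.closure (S : Set G) = ⊤) {lam : ℕ} (c : Σ i, G ⧸ A i)
    (W : List (Option ι × G)) (g : G) (hM : Mok S A lam W)
    (hc : ∀ W₁ i p W₂, W = W₁ ++ (some i, p) :: W₂ → cone A i (g * prd W₁) ≠ Sum.inr c) :
    Conn (coned S A) (Sum.inr c) (W.length * (lam + 2)) (Sum.inl g) (Sum.inl (g * prd W)) := by
  induction W generalizing g with
  | nil =>
    simp only [prd_nil, mul_one]
    exact (Conn.refl (by simp)).mono (Nat.zero_le _)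
  | cons e W ih =>
    rw [mok_cons] at hM
    have h1 := ih (g * e.2) hM.2 (by
      intro W₁ i p W₂ h
      have := hc (e :: W₁) i p W₂ (by rw [h, List.cons_append])
      rw [prd_cons, ← mul_assoc] at this
      exact this)
    have h2 : Conn (coned S A) (Sum.inr c) (lam + 2) (Sum.inl g) (Sum.inl (g * e.2)) := by
      obtain ⟨o, b⟩ := e
      rcases o with _ | i
      · apply (conn_word (A := A) hS c g (g * b)).mono
        unfold wordDist
        rw [inv_mul_cancel_left]
        have := hM.1.1 rfl
        simp only at this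
        omega
      · apply Conn.mono (conn_jump (i := i) (x := g) (y := g * b) ?_ ?_) (by omega)
        · rw [inv_mul_cancel_left]
          exact hM.1.2 i rfl
        · have := hc [] i b W rfl
          rwa [prd_nil, mul_one] at this
    rw [prd_cons, ← mul_assoc]
    apply (h2.trans h1).mono
    rw [List.length_cons]
    apply le_of_eq; ring

/-- The number of peripheral moves. -/
def np (W : List (Option ι × G)) : ℕ := (W.filter fun e => e.1.isSome).length

theorem np_append (W W' : List (Option ι × G)) : np (W ++ W') = np W + np W' := by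
  simp [np]

theorem np_cons_some (i : ι) (p : G) (W : List (Option ι × G)) :
    np ((some i, p) :: W) = np W + 1 := by
  simp [np]

theorem np_cons_none (p : G) (W : List (Option ι × G)) :
    np ((none, p) :: W) = np W := by
  simp [np]

theorem np_le (W : List (Option ι × G)) : np W ≤ W.length := List.length_filter_le _ _

theorem np_zero {W : List (Option ι × G)} (h : np W = 0) : ∀ e ∈ W, e.1 = none := by
  intro e he
  by_contra hcon
  have : e ∈ W.filter fun e => e.1.isSome := by
    rw [List.mem_filter]
    refine ⟨he, ?_⟩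
    rw [Option.isSome_iff_ne_none]
    exact hcon
  unfold np at h
  rw [List.length_eq_zero_iff] at h
  rw [h] at this
  simp at this

theorem exists_first_move {W : List (Option ι × G)} (h : 0 < np W) :
    ∃ W₁ i p W₂, W = W₁ ++ (some i, p) :: W₂ ∧ ∀ e ∈ W₁, e.1 = none := by
  induction W with
  | nil => simp [np] at h
  | cons e W ih =>
    obtain ⟨o, b⟩ := e
    rcases o with _ | i
    · rw [np_cons_none] at h
      obtain ⟨W₁, i, p, W₂, h1, h2⟩ := ih h
      refine ⟨(none, b) :: W₁, i, p, W₂, by rw [h1, List.cons_append], ?_⟩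
      intro e he
      rw [List.mem_cons] at he
      rcases he with rfl | he
      · rfl
      · exact h2 e he
    · exact ⟨[], i, b, W, rfl, by simp⟩

/-- The constants of the cell lemma. -/
def cc (L₀ : ℕ) : ℕ → ℕ
  | 0 => L₀
  | n + 1 => 2 * cc L₀ n + 4

theorem cc_mono (L₀ n : ℕ) : cc L₀ n ≤ cc L₀ (n + 1) := by
  simp only [cc]; omega

/-- The lengths of the ordinary moves in the cell lemma. -/
def lams (f : ℕ → ℕ) (L₀ lam : ℕ) : ℕ → ℕ
  | 0 => lam
  | n + 1 => max (lams f L₀ lam n) (f (L₀ * (lams f L₀ lam n + 2)))

theorem lams_mono (f : ℕ → ℕ) (L₀ lam : ℕ) {k n : ℕ} (h : k ≤ n) :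
    lams f L₀ lam k ≤ lams f L₀ lam n := by
  induction n, h using Nat.le_induction with
  | base => rfl
  | succ n _ ih => exact ih.trans (le_max_left _ _)

/-- **The cell lemma.** A bounded closed path of moves can be filled. -/
theorem cell (hF : RFill R S A mv ok m Λ J) (hS : Subgroup.closure (S : Set G) = ⊤)
    {f : ℕ → ℕ} (hiso : ∀ (L : ℕ) (i : ι) (a b : G), a⁻¹ * b ∈ A i →
      Conn (coned S A) (cone A i a) L (Sum.inl a) (Sum.inl b) → wordDist S a b ≤ f L)
    {L₀ lam n₀ : ℕ} (hΛ : L₀ * lams f L₀ lam n₀ ≤ Λ) (hΛ' : lams f L₀ lam n₀ ≤ Λ)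
    {Vs : G → Prop} (hVok : ∀ v, Vs v → ok v) (hVd : ∀ v w, Vs v → Vs w → wordDist S v w ≤ J)
    (n : ℕ) : ∀ k, n + k ≤ n₀ → ∀ (g : G) (W : List (Option ι × G)), np W ≤ n →
      W.length ≤ L₀ → Mok S A (lams f L₀ lam k) W → AllV Vs g W → prd W = 1 →
      Near R (cc L₀ n * m) (Psi mv g W) 1 := by
  have base : ∀ k, k ≤ n₀ → ∀ (g : G) (W : List (Option ι × G)), np W = 0 →
      W.length ≤ L₀ → Mok S A (lams f L₀ lam k) W → AllV Vs g W → prd W = 1 →
      Near R (L₀ * m) (Psi mv g W) 1 := by
    intro k hk g W hnp hlen hM hV hprd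
    have hle := lams_mono f L₀ lam hk
    have h1 := (short_path hF hS W g (np_zero hnp) hM (hV.imp hVok) (by
      calc W.length * lams f L₀ lam k ≤ L₀ * lams f L₀ lam n₀ := Nat.mul_le_mul hlen hle
        _ ≤ Λ := hΛ)).2
    rw [hprd, hF.one] at h1
    exact h1.mono (Nat.mul_le_mul_right _ hlen)
  induction n with
  | zero =>
    intro k hk g W hnp hlen hM hV hprd
    exact base k (by omega) g W (by omega) hlen hM hV hprd
  | succ n ih =>
    intro k hk g W hnp hlen hM hV hprd
    rcases Nat.eq_zero_or_pos (np W) with h0 | h0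
    · exact (ih k (by omega) g W (by omega) hlen hM hV hprd).mono
        (Nat.mul_le_mul_right _ (cc_mono _ _))
    obtain ⟨W₁, i, x, W', rfl, hW1⟩ := exists_first_move h0
    have hnp1 : np W₁ = 0 := by
      unfold np
      rw [List.length_eq_zero_iff, List.filter_eq_nil_iff]
      intro e he
      rw [hW1 e he]
      simp
    rw [np_append, np_cons_some, hnp1] at hnp
    rw [List.length_append, List.length_cons] at hlen
    rw [mok_append, mok_cons] at hM
    obtain ⟨hM1, hMx, hM'⟩ := hM
    have hx : x ∈ A i := hMx.2 i rfl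
    rw [allV_append] at hV
    obtain ⟨hV1, hV2⟩ := hV
    set a := g * prd W₁ with ha
    have hVa : Vs a := hV2.1
    have hVb' : AllV Vs (a * x) W' := hV2.2
    set b := a * x with hb
    have hVb : Vs b := hVb'.head
    have hPsi : Psi mv g (W₁ ++ (some i, x) :: W') =
        Psi mv g W₁ * (mv a (some i, x) * Psi mv b W') := by
      rw [Psi_append]; rfl
    have hwx : wordLength S x ≤ J := by
      have := hVd a b hVa hVb
      unfold wordDist at this
      rwa [hb, inv_mul_cancel_left] at this
    by_cases hrev : ∃ W₂ j y W₄, W' = W₂ ++ (some j, y) :: W₄ ∧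
        cone A j (b * prd W₂) = cone A i a
    · -- the cone is visited again
      obtain ⟨W₂, j, y, W₄, rfl, hcone⟩ := hrev
      have hji : j = i := by
        have := Sum.inr_injective hcone
        exact congrArg Sigma.fst this
      subst hji
      rw [np_append, np_cons_some] at hnp
      rw [List.length_append, List.length_cons] at hlen
      rw [mok_append, mok_cons] at hM'
      obtain ⟨hM2, hMy, hM4⟩ := hM'
      have hy : y ∈ A j := hMy.2 j rfl
      rw [allV_append] at hVb'
      obtain ⟨hV2', hV4'⟩ := hVb'
      set c := b * prd W₂ with hc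
      have hVc : Vs c := hV4'.1
      have hVd4 : AllV Vs (c * y) W₄ := hV4'.2
      have hVd' : Vs (c * y) := hVd4.head
      have hx2 : prd W₂ ∈ A j := by
        have h1 := (cone_eq_iff (A := A)).1 hcone.symm
        have e1 : prd W₂ = x⁻¹ * (a⁻¹ * c) := by rw [hc, hb]; group
        rw [e1]
        exact mul_mem (inv_mem hx) h1
      set x₂ := prd W₂ with hx₂
      have hw2 : wordLength S x₂ ≤ J := by
        have := hVd b c hVb hVc
        unfold wordDist at this
        rwa [hc, inv_mul_cancel_left] at this
      have hw2' : wordLength S x₂⁻¹ ≤ J := by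
        rw [wordLength_inv hS]; exact hw2
      have hwxx : wordLength S (x * x₂) ≤ J := by
        have := hVd a c hVa hVc
        unfold wordDist at this
        rwa [hc, hb, mul_assoc, inv_mul_cancel_left] at this
      have hwy : wordLength S y ≤ J := by
        have := hVd c (c * y) hVc hVd'
        unfold wordDist at this
        rwa [inv_mul_cancel_left] at this
      have hwxy : wordLength S (x * x₂ * y) ≤ J := by
        have := hVd a (c * y) hVa hVd'
        unfold wordDist at this
        rw [show a⁻¹ * (c * y) = x * x₂ * y by rw [hc, hb]; group] at this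
        exact this
      -- the inner loop
      have i1 : Near R (cc L₀ n * m) (Psi mv b W₂ * mv c (some j, x₂⁻¹)) 1 := by
        have := ih k (by omega) b (W₂ ++ [(some j, x₂⁻¹)])
          (by rw [np_append, np_cons_some]; simp [np] at hnp ⊢; omega)
          (by rw [List.length_append, List.length_singleton]; omega)
          (by
            rw [mok_append, mok_cons]
            refine ⟨hM2, ⟨fun h => by simp at h, ?_⟩, mok_nil⟩
            intro i' hi'
            simp only [Option.some.injEq] at hi'
            subst hi'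
            exact inv_mem hx2)
          (by
            rw [allV_append]
            refine ⟨hV2', ?_⟩
            simp only [AllV]
            rw [← hx₂, ← hc]
            refine ⟨hVc, ?_⟩
            rw [hc, mul_inv_cancel_right]
            exact hVb)
          (by rw [prd_append, prd_cons, prd_nil, mul_one, ← hx₂, mul_inv_cancel])
        rw [Psi_append] at this
        simpa [Psi] using this
      have i2 := hF.flat j b x₂ x₂⁻¹ hx2 (inv_mem hx2) hw2 hw2'
        (by rw [mul_inv_cancel, wordLength_one]; exact Nat.zero_le _) (hVok _ hVb)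
        (hVok _ hVc) (by rw [mul_inv_cancel_right]; exact hVok _ hVb)
      rw [mul_inv_cancel, hF.flat_one] at i2
      have i3 : Near R (cc L₀ n * m + m) (Psi mv b W₂) (mv b (some j, x₂)) := by
        have := (i1.trans i2.symm).mul_right (mv c (some j, x₂⁻¹))⁻¹
        rwa [mul_inv_cancel_right, ← hc, mul_inv_cancel_right] at this
      have i4 := hF.flat j a x x₂ hx hx2 hwx hw2 hwxx (hVok _ hVa) (hVok _ hVb) (hVok _ hVc)
      have i5 := hF.flat j a (x * x₂) y (mul_mem hx hx2) hy hwxx hwy hwxy (hVok _ hVa)
        (by rw [← mul_assoc, ← hb, ← hc]; exact hVok _ hVc)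
        (by rw [← mul_assoc, ← hb, ← hc]; exact hVok _ hVd')
      have i6 : Near R (cc L₀ n * m) (Psi mv g (W₁ ++ (some j, x * x₂ * y) :: W₄)) 1 := by
        apply ih k (by omega) g
        · rw [np_append, np_cons_some, hnp1]; omega
        · rw [List.length_append, List.length_cons]; omega
        · rw [mok_append, mok_cons]
          refine ⟨hM1, ⟨fun h => by simp at h, ?_⟩, hM4⟩
          intro i' hi'
          simp only [Option.some.injEq] at hi'
          subst hi'
          exact mul_mem (mul_mem hx hx2) hy
        · rw [allV_append]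
          refine ⟨hV1, hVa, ?_⟩
          simp only
          rw [show g * prd W₁ * (x * x₂ * y) = c * y by rw [hc, hb, ha]; group]
          exact hVd4
        · have := hprd
          rw [prd_append, prd_cons, prd_append, prd_cons] at this
          rw [prd_append, prd_cons]
          simp only at this ⊢
          rw [← this, hx₂]
          group
      rw [Psi_append] at i6
      simp only [Psi] at i6
      rw [← ha, show a * (x * x₂ * y) = c * y by rw [hc, hb]; group] at i6
      rw [hPsi, Psi_append]
      simp only [Psi]
      rw [← hx₂, ← hc]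
      have j1 : Near R (cc L₀ n * m + m)
          (Psi mv g W₁ * (mv a (some j, x) * (Psi mv b W₂ *
            (mv c (some j, y) * Psi mv (c * y) W₄))))
          (Psi mv g W₁ * (mv a (some j, x) * (mv b (some j, x₂) *
            (mv c (some j, y) * Psi mv (c * y) W₄)))) := by
        apply Near.mul_left
        apply Near.mul_left
        exact i3.mul_right _
      have j2 : Near R m
          (Psi mv g W₁ * (mv a (some j, x) * (mv b (some j, x₂) *
            (mv c (some j, y) * Psi mv (c * y) W₄))))
          (Psi mv g W₁ * (mv a (some j, x * x₂) *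
            (mv c (some j, y) * Psi mv (c * y) W₄))) := by
        apply Near.mul_left
        rw [← mul_assoc (mv a (some j, x))]
        exact i4.mul_right _
      have j3 : Near R m
          (Psi mv g W₁ * (mv a (some j, x * x₂) *
            (mv c (some j, y) * Psi mv (c * y) W₄)))
          (Psi mv g W₁ * (mv a (some j, x * x₂ * y) * Psi mv (c * y) W₄)) := by
        apply Near.mul_left
        rw [← mul_assoc (mv a (some j, x * x₂))]
        rw [← mul_assoc a x x₂, ← hb, ← hc] at i5
        exact i5.mul_right _
      apply (((j1.trans j2).trans j3).trans i6).mono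
      simp only [cc]
      ring_nf
      omega
    · -- isolated
      push Not at hrev
      have hconn1 : Conn (coned S A) (cone A i a) (W'.length * (lams f L₀ lam k + 2))
          (Sum.inl b) (Sum.inl (b * prd W')) :=
        conn_path hS ⟨i, (a : G ⧸ A i)⟩ W' b hM' (fun W₂ j y W₄ h => hrev W₂ j y W₄ h)
      have hconn2 : Conn (coned S A) (cone A i a) (W₁.length * (lams f L₀ lam k + 2))
          (Sum.inl g) (Sum.inl a) :=
        conn_path hS ⟨i, (a : G ⧸ A i)⟩ W₁ g hM1 (fun W₂ j y W₄ h => by
          have := hW1 (some j, y) (by rw [h]; simp)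
          simp at this)
      have hend : b * prd W' = g := by
        have := hprd
        rw [prd_append, prd_cons] at this
        simp only at this
        have e : b * prd W' = g * (prd W₁ * (x * prd W')) := by rw [hb, ha]; group
        rw [e, this, mul_one]
      rw [hend] at hconn1
      have hconn := (hconn1.trans hconn2).symm
      have hd := hiso (L₀ * (lams f L₀ lam k + 2)) i a b (by rw [hb, inv_mul_cancel_left]; exact hx)
        (hconn.mono (by
          rw [← Nat.add_mul]
          exact Nat.mul_le_mul_right _ (by omega)))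
      unfold wordDist at hd
      rw [hb, inv_mul_cancel_left] at hd
      have hxl : wordLength S x ≤ lams f L₀ lam (k + 1) := hd.trans (le_max_right _ _)
      have i1 := hF.short i a x hx (hxl.trans ((lams_mono f L₀ lam (by omega)).trans hΛ'))
        (hVok _ hVa) (hVok _ hVb)
      have i2 : Near R (cc L₀ n * m) (Psi mv g (W₁ ++ (none, x) :: W')) 1 := by
        apply ih (k + 1) (by omega) g
        · rw [np_append, np_cons_none, hnp1]; omega
        · rw [List.length_append, List.length_cons]; omega
        · rw [mok_append, mok_cons]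
          refine ⟨hM1.mono (lams_mono f L₀ lam (by omega)), ⟨fun _ => hxl, ?_⟩,
            hM'.mono (lams_mono f L₀ lam (by omega))⟩
          intro i' hi'
          simp at hi'
        · rw [allV_append]
          exact ⟨hV1, hVa, hV2.2⟩
        · have := hprd
          rw [prd_append, prd_cons] at this ⊢
          exact this
      rw [Psi_append] at i2
      simp only [Psi] at i2
      rw [← ha, ← hb] at i2
      rw [hPsi]
      have j1 := (i1.mul_right (Psi mv b W')).mul_left (Psi mv g W₁)
      apply (j1.trans i2).mono
      simp only [cc]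
      ring_nf
      omega

/-- Two bounded paths of moves with the same ends. -/
theorem cell_pair (hF : RFill R S A mv ok m Λ J) (hS : Subgroup.closure (S : Set G) = ⊤)
    {f : ℕ → ℕ} (hiso : ∀ (L : ℕ) (i : ι) (a b : G), a⁻¹ * b ∈ A i →
      Conn (coned S A) (cone A i a) L (Sum.inl a) (Sum.inl b) → wordDist S a b ≤ f L)
    {L₀ lam : ℕ} (hΛ : (L₀ + 1) * lams f L₀ lam L₀ ≤ Λ)
    {Vs : G → Prop} (hVok : ∀ v, Vs v → ok v) (hVd : ∀ v w, Vs v → Vs w → wordDist S v w ≤ J)
    (g : G) (W W' : List (Option ι × G)) (hlen : W.length + W'.length ≤ L₀)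
    (hlen' : W'.length + W'.length ≤ L₀)
    (hM : Mok S A lam W) (hM' : Mok S A lam W') (hV : AllV Vs g W) (hV' : AllV Vs g W')
    (hprd : prd W = prd W') :
    Near R (2 * (cc L₀ L₀ * m)) (Psi mv g W) (Psi mv g W') := by
  have hΛ1 : L₀ * lams f L₀ lam L₀ ≤ Λ := le_trans (Nat.mul_le_mul_right _ (by omega)) hΛ
  have hΛ2 : lams f L₀ lam L₀ ≤ Λ := by
    refine le_trans ?_ hΛ
    exact Nat.le_mul_of_pos_left _ (by omega)
  have h1 := cell hF hS hiso hΛ1 hΛ2 hVok hVd L₀ 0 (by omega) g (W ++ winv W')
    ((np_le _).trans (by rw [List.length_append, winv_length]; exact hlen))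
    (by rw [List.length_append, winv_length]; exact hlen)
    (by rw [mok_append]; exact ⟨hM, hM'.winv hS⟩)
    (by
      rw [allV_append]
      refine ⟨hV, ?_⟩
      rw [hprd]
      exact hV'.winv)
    (by rw [prd_append, prd_winv, hprd, mul_inv_cancel])
  have h2 := cell hF hS hiso hΛ1 hΛ2 hVok hVd L₀ 0 (by omega) (g * prd W') (winv W' ++ W')
    ((np_le _).trans (by rw [List.length_append, winv_length]; exact hlen'))
    (by rw [List.length_append, winv_length]; exact hlen')
    (by rw [mok_append]; exact ⟨hM'.winv hS, hM'⟩)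
    (by
      rw [allV_append]
      refine ⟨hV'.winv, ?_⟩
      rw [prd_winv, mul_inv_cancel_right]
      exact hV')
    (by rw [prd_append, prd_winv, inv_mul_cancel])
  rw [Psi_append, hprd] at h1
  rw [Psi_append, prd_winv, mul_inv_cancel_right] at h2
  have h3 := h1.mul_right (Psi mv g W')
  rw [one_mul, mul_assoc] at h3
  have h4 := h2.mul_left (Psi mv g W)
  rw [mul_one] at h4
  apply (h4.symm.trans h3).mono
  omega

end Pda3a14
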