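import Pool.Agent.Lib.Pda3a14.Ball

/-!
# Word metrics and geodesics; thin triangles
-/

namespace Pda3a14

variable {G : Type*} [Group G] {S : Finset G}

theorem inBall_wordLength (hS : Subgroup.closure (S : Set G) = ⊤) (g : G) :
    InBall S (wordLength S g) g := by
  have : (({n | InBall S n g} : Set ℕ)).Nonempty := exists_inBall hS g
  exact Nat.sInf_mem this

theorem wordLength_le {n : ℕ} {g : G} (h : InBall S n g) : wordLength S g ≤ n := Nat.sInf_le h

theorem inBall_iff (hS : Subgroup.closure (S : Set G) = ⊤) {n : ℕ} {g : G} :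
    InBall S n g ↔ wordLength S g ≤ n :=
  ⟨wordLength_le, fun h => (inBall_wordLength hS g).mono h⟩

theorem wordLength_one : wordLength S (1 : G) = 0 :=
  Nat.le_zero.1 (wordLength_le InBall.one)

theorem wordLength_inv (hS : Subgroup.closure (S : Set G) = ⊤) (g : G) :
    wordLength S g⁻¹ = wordLength S g := by
  apply le_antisymm
  · exact wordLength_le (inBall_wordLength hS g).inv
  · have := wordLength_le (inBall_wordLength hS g⁻¹).inv
    rwa [inv_inv] at this

theorem wordLength_mul (hS : Subgroup.closure (S : Set G) = ⊤) (g h : G) :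
    wordLength S (g * h) ≤ wordLength S g + wordLength S h :=
  wordLength_le ((inBall_wordLength hS g).mul (inBall_wordLength hS h))

theorem wordDist_self (x : G) : wordDist S x x = 0 := by
  unfold wordDist; rw [inv_mul_cancel, wordLength_one]

theorem wordDist_comm (hS : Subgroup.closure (S : Set G) = ⊤) (x y : G) :
    wordDist S x y = wordDist S y x := by
  unfold wordDist
  rw [← wordLength_inv hS, mul_inv_rev, inv_inv]

theorem wordDist_triangle (hS : Subgroup.closure (S : Set G) = ⊤) (x y z : G) :
    wordDist S x z ≤ wordDist S x y + wordDist S y z := by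
  unfold wordDist
  have := wordLength_mul hS (x⁻¹ * y) (y⁻¹ * z)
  rwa [show x⁻¹ * y * (y⁻¹ * z) = x⁻¹ * z by group] at this

theorem exists_word (hS : Subgroup.closure (S : Set G) = ⊤) (g : G) :
    ∃ l : List G, l.length = wordLength S g ∧ (∀ s ∈ l, s ∈ S ∨ s⁻¹ ∈ S) ∧ l.prod = g := by
  obtain ⟨l, h1, h2, h3⟩ := inBall_wordLength hS g
  exact ⟨l, le_antisymm h1 (wordLength_le ⟨l, le_rfl, h2, h3⟩), h2, h3⟩

open Classical in
/-- A geodesic word for `g`. -/
noncomputable def gw (S : Finset G) (g : G) : List G :=
  if h : ∃ l : List G, l.length = wordLength S g ∧ (∀ s ∈ l, s ∈ S ∨ s⁻¹ ∈ S) ∧ l.prod = g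
    then h.choose else []

theorem gw_spec (hS : Subgroup.closure (S : Set G) = ⊤) (g : G) :
    (gw S g).length = wordLength S g ∧ (∀ s ∈ gw S g, s ∈ S ∨ s⁻¹ ∈ S) ∧ (gw S g).prod = g := by
  unfold gw
  rw [dif_pos (exists_word hS g)]
  exact (exists_word hS g).choose_spec

/-- The geodesic from `x` to `y`. -/
noncomputable def geo (S : Finset G) (x y : G) (i : ℕ) : G := x * ((gw S (x⁻¹ * y)).take i).prod

theorem geo_zero (x y : G) : geo S x y 0 = x := by simp [geo]

theorem geo_end (hS : Subgroup.closure (S : Set G) = ⊤) {x y : G} {i : ℕ}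
    (hi : wordDist S x y ≤ i) : geo S x y i = y := by
  obtain ⟨h1, _, h3⟩ := gw_spec hS (x⁻¹ * y)
  unfold geo
  rw [List.take_of_length_le (by rw [h1]; exact hi), h3, mul_inv_cancel_left]

theorem geo_le (hS : Subgroup.closure (S : Set G) = ⊤) (x y : G) {i j : ℕ} (hij : i ≤ j) :
    wordDist S (geo S x y i) (geo S x y j) ≤ j - i := by
  obtain ⟨_, h2, _⟩ := gw_spec hS (x⁻¹ * y)
  apply wordLength_le
  refine ⟨((gw S (x⁻¹ * y)).take j).drop i, by simp; omega, ?_, ?_⟩
  · intro s hs
    exact h2 s (List.mem_of_mem_take (List.mem_of_mem_drop hs))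
  · unfold geo
    have h3 : ((gw S (x⁻¹ * y)).take j) = ((gw S (x⁻¹ * y)).take i) ++
        ((gw S (x⁻¹ * y)).take j).drop i := by
      conv_lhs => rw [← List.take_append_drop i ((gw S (x⁻¹ * y)).take j)]
      rw [List.take_take, min_eq_left hij]
    conv_rhs => rw [h3, List.prod_append]
    group

theorem geo_dist (hS : Subgroup.closure (S : Set G) = ⊤) (x y : G) {i j : ℕ} (hij : i ≤ j)
    (hj : j ≤ wordDist S x y) : wordDist S (geo S x y i) (geo S x y j) = j - i := by
  apply le_antisymm (geo_le hS x y hij)
  have h1 := geo_le hS x y (Nat.zero_le i)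
  have h2 := geo_le hS x y hj
  rw [geo_zero] at h1
  rw [geo_end hS le_rfl] at h2
  have h3 := wordDist_triangle hS x (geo S x y i) y
  have h4 := wordDist_triangle hS (geo S x y i) (geo S x y j) y
  omega

theorem geo_dist_left (hS : Subgroup.closure (S : Set G) = ⊤) (x y : G) {i : ℕ}
    (hi : i ≤ wordDist S x y) : wordDist S x (geo S x y i) = i := by
  have := geo_dist hS x y (Nat.zero_le i) hi
  rwa [geo_zero] at this

theorem geo_dist_right (hS : Subgroup.closure (S : Set G) = ⊤) (x y : G) {i : ℕ}
    (hi : i ≤ wordDist S x y) : wordDist S (geo S x y i) y = wordDist S x y - i := by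
  have := geo_dist hS x y hi le_rfl
  rwa [geo_end hS le_rfl] at this

/-- Gromov's four point condition. -/
def FourPoint (S : Finset G) (δ : ℕ) : Prop := ∀ x y z w : G,
    wordDist S x z + wordDist S y w ≤
      max (wordDist S x y + wordDist S z w) (wordDist S x w + wordDist S y z) + δ

theorem thin (hS : Subgroup.closure (S : Set G) = ⊤) {δ : ℕ} (h4 : FourPoint S δ)
    {x u v y w : G} {t : ℕ} (h1 : wordDist S x u = t) (h2 : wordDist S x v = t)
    (h3 : wordDist S x y = t + wordDist S v y) (h5 : wordDist S x w = t + wordDist S u w)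
    (h6 : 2 * t + wordDist S y w ≤ wordDist S x y + wordDist S x w) :
    wordDist S u v ≤ 2 * δ := by
  have a1 := h4 u w y x
  have a2 := h4 u y v x
  have c1 := wordDist_comm hS w x
  have c2 := wordDist_comm hS y x
  have c3 := wordDist_comm hS u x
  have c4 := wordDist_comm hS w y
  have c5 := wordDist_comm hS v x
  have c6 := wordDist_comm hS y v
  rw [c1, c2, c3, c4] at a1
  rw [c2, c3, c5, c6] at a2
  have m1 : max (wordDist S u w + wordDist S x y) (wordDist S x u + wordDist S y w) ≤
      wordDist S x w + wordDist S x y - t := by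
    apply max_le <;> omega
  have m2 : wordDist S u y ≤ wordDist S x y - t + δ := by omega
  have m3 : max (wordDist S u y + wordDist S x v) (wordDist S x u + wordDist S v y) ≤
      wordDist S x y + δ := by
    apply max_le <;> omega
  omega

/-- Slim triangles. -/
theorem slim (hS : Subgroup.closure (S : Set G) = ⊤) {δ : ℕ} (h4 : FourPoint S δ)
    (x y z : G) (i : ℕ) (hi : i ≤ wordDist S y z) (j : ℕ)
    (hj : j ≤ wordDist S x (geo S y z i)) :
    (∃ k ≤ wordDist S x y, wordDist S (geo S x (geo S y z i) j) (geo S x y k) ≤ 2 * δ) ∨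
    (∃ k ≤ i, wordDist S (geo S x (geo S y z i) j) (geo S y z k) ≤ 2 * δ) := by
  set w := geo S y z i with hw
  set u := geo S x w j with hu
  have e1 : wordDist S x u = j := geo_dist_left hS x w hj
  have e2 : wordDist S u w = wordDist S x w - j := geo_dist_right hS x w hj
  have e3 : wordDist S y w = i := geo_dist_left hS y z hi
  by_cases hc : 2 * j + wordDist S y w ≤ wordDist S x y + wordDist S x w
  · left
    have t1 := wordDist_triangle hS x y w
    have t3 := wordDist_triangle hS x w y
    have c4 := wordDist_comm hS w y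
    have hjy : j ≤ wordDist S x y := by omega
    refine ⟨j, hjy, ?_⟩
    apply thin hS h4 e1 (geo_dist_left hS x y hjy) (y := y) (w := w) ?_ ?_ hc
    · rw [geo_dist_right hS x y hjy]; omega
    · rw [e2]; omega
  · right
    have t1 := wordDist_triangle hS x y w
    have t3 := wordDist_triangle hS x w y
    have c1 := wordDist_comm hS w x
    have c2 := wordDist_comm hS w u
    have c4 := wordDist_comm hS w y
    have c5 := wordDist_comm hS y x
    set t := wordDist S x w - j with ht
    have hti : t ≤ i := by omega
    refine ⟨i - t, by omega, ?_⟩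
    have d1 : wordDist S (geo S y z (i - t)) w = t := by
      rw [hw, geo_dist hS y z (by omega) hi]; omega
    have d2 : wordDist S y (geo S y z (i - t)) = i - t := geo_dist_left hS y z (by omega)
    have c6 := wordDist_comm hS w (geo S y z (i - t))
    have c7 := wordDist_comm hS y (geo S y z (i - t))
    have c8 := wordDist_comm hS u x
    apply thin hS h4 (x := w) (t := t) (u := u) (v := geo S y z (i - t)) (y := y) (w := x)
    · omega
    · omega
    · omega
    · omega
    · omega

/-- Fellow travelling of geodesics with a common start. -/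
theorem fellow (hS : Subgroup.closure (S : Set G) = ⊤) {δ : ℕ} (h4 : FourPoint S δ)
    (x w w' : G) (h : wordDist S w w' ≤ 1) (i : ℕ) :
    wordDist S (geo S x w i) (geo S x w' i) ≤ 2 * δ + 3 := by
  have t1 := wordDist_triangle hS x w w'
  have t2 := wordDist_triangle hS x w' w
  have c1 := wordDist_comm hS w w'
  -- reduce to a time before both ends
  set m := min i (min (wordDist S x w) (wordDist S x w') - 1) with hm
  have hm1 : m ≤ i := by omega
  have hmin : min (wordDist S x w) (wordDist S x w') ≤ wordDist S x w := min_le_left _ _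
  have hmin' : min (wordDist S x w) (wordDist S x w') ≤ wordDist S x w' := min_le_right _ _
  have hm2 : m ≤ wordDist S x w := by omega
  have hm3 : m ≤ wordDist S x w' := by omega
  have key : wordDist S (geo S x w m) (geo S x w' m) ≤ 2 * δ := by
    by_cases hz : m = 0
    · rw [hz, geo_zero, geo_zero, wordDist_self]; omega
    apply thin hS h4 (x := x) (t := m) (y := w') (w := w)
    · exact geo_dist_left hS x w hm2
    · exact geo_dist_left hS x w' hm3
    · rw [geo_dist_right hS x w' hm3]; omega
    · rw [geo_dist_right hS x w hm2]; omega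
    · omega
  have a1 : wordDist S (geo S x w i) (geo S x w m) ≤ 2 ∧
      wordDist S (geo S x w' m) (geo S x w' i) ≤ 2 ∧
      wordDist S (geo S x w i) (geo S x w m) + wordDist S (geo S x w' m) (geo S x w' i) ≤ 3 := by
    set i1 := min i (wordDist S x w) with hi1
    set i2 := min i (wordDist S x w') with hi2
    have e1 : geo S x w i = geo S x w i1 := by
      rcases le_total i (wordDist S x w) with h | h
      · rw [hi1, min_eq_left h]
      · rw [hi1, min_eq_right h, geo_end hS h, geo_end hS le_rfl]
    have e2 : geo S x w' i = geo S x w' i2 := by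
      rcases le_total i (wordDist S x w') with h | h
      · rw [hi2, min_eq_left h]
      · rw [hi2, min_eq_right h, geo_end hS h, geo_end hS le_rfl]
    rw [e1, e2]
    have l1 := geo_le hS x w (i := m) (j := i1) (by omega)
    have l2 := geo_le hS x w' (i := m) (j := i2) (by omega)
    rw [wordDist_comm hS] at l1
    have n1 : i1 - m ≤ 2 := by omega
    have n2 : i2 - m ≤ 2 := by omega
    have n3 : i1 - m + (i2 - m) ≤ 3 := by omega
    omega
  have b1 := wordDist_triangle hS (geo S x w i) (geo S x w m) (geo S x w' i)
  have b2 := wordDist_triangle hS (geo S x w m) (geo S x w' m) (geo S x w' i)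
  omega

theorem HyperbolicGroup.combable (h : HyperbolicGroup G) : Combable G := by
  obtain ⟨S, δ, hS, h4⟩ := h
  refine ⟨S, 2 * δ + 3, fun g t => geo S 1 g t, hS, fun q => geo_zero 1 q, ?_, ?_, ?_⟩
  · intro q n t hq ht
    apply geo_end hS
    have h1 := wordLength_le hq
    unfold wordDist
    rw [inv_one, one_mul]
    have : 1 * (n + 1) ≤ (2 * δ + 3) * (n + 1) := Nat.mul_le_mul_right _ (by omega)
    omega
  · intro q t
    rw [inBall_iff hS]
    have := geo_le hS 1 q (i := t) (j := t + 1) (by omega)
    unfold wordDist at this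
    change wordLength S ((geo S 1 q t)⁻¹ * geo S 1 q (t + 1)) ≤ _
    omega
  · intro q s hs t
    rw [inBall_iff hS]
    apply fellow hS h4
    unfold wordDist
    rw [inv_mul_cancel_left]
    exact wordLength_le (InBall.of_mem hs)

end Pda3a14
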