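import Pool.Agent.Lib.Pda3a14.RGraph
import Pool.Agent.Lib.Pda3a14.Word

/-!
# The coned-off Cayley graph
-/

namespace Pda3a14

open SimpleGraph

variable {G : Type*} [Group G] {ι : Type*} {S : Finset G} {A : ι → Subgroup G}

/-- The cone vertex of the coset `g A i`. -/
abbrev cone (A : ι → Subgroup G) (i : ι) (g : G) : G ⊕ (Σ i, G ⧸ A i) :=
  Sum.inr ⟨i, (g : G ⧸ A i)⟩

theorem adj_cone (g : G) (i : ι) : (coned S A).Adj (Sum.inl g) (cone A i g) := rfl

theorem cone_eq {i : ι} {g h : G} (hgh : g⁻¹ * h ∈ A i) : cone A i g = cone A i h := by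
  unfold cone
  rw [(QuotientGroup.eq).2 hgh]

theorem cone_eq_iff {i : ι} {g h : G} : cone A i g = cone A i h ↔ g⁻¹ * h ∈ A i := by
  refine ⟨fun hh => ?_, cone_eq⟩
  unfold cone at hh
  have h1 := Sum.inr_injective hh
  simp only [Sigma.mk.injEq, heq_eq_eq, true_and] at h1
  exact (QuotientGroup.eq).1 h1

theorem cone_eq_of {i : ι} {g h : G} (hgh : (g : G ⧸ A i) = (h : G ⧸ A i)) :
    cone A i g = cone A i h := by
  unfold cone
  rw [hgh]

theorem exists_cone (c : Σ i, G ⧸ A i) : ∃ i g, (Sum.inr c : G ⊕ (Σ i, G ⧸ A i)) = cone A i g := by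
  obtain ⟨i, q⟩ := c
  obtain ⟨g, rfl⟩ := QuotientGroup.mk_surjective q
  exact ⟨i, g, rfl⟩

theorem adj_cone_right {i : ι} {g : G} {v : G ⊕ (Σ i, G ⧸ A i)}
    (h : (coned S A).Adj (cone A i g) v) : ∃ a : G, v = Sum.inl a ∧ cone A i g = cone A i a ∧
      g⁻¹ * a ∈ A i := by
  rcases v with a | c
  · refine ⟨a, rfl, ?_, ?_⟩
    · exact cone_eq_of (show (g : G ⧸ A i) = (a : G ⧸ A i) from Eq.symm h)
    · exact (QuotientGroup.eq).1 (show (g : G ⧸ A i) = (a : G ⧸ A i) from Eq.symm h)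
  · exact absurd h (by exact id)

theorem exists_walk_list (l : List G) (hl : ∀ s ∈ l, s ∈ S ∨ s⁻¹ ∈ S) (x : G) :
    ∃ w : (coned S A).Walk (Sum.inl x) (Sum.inl (x * l.prod)), w.length ≤ l.length ∧
      ∀ v ∈ w.support, ∃ g : G, v = Sum.inl g := by
  induction l generalizing x with
  | nil =>
    rw [List.prod_nil, mul_one]
    exact ⟨Walk.nil, by simp, by simp⟩
  | cons s l ih =>
    obtain ⟨w, h1, h2⟩ := ih (fun s hs => hl s (by simp [hs])) (x * s)
    rw [mul_assoc, ← List.prod_cons] at w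
    by_cases hs : s = 1
    · obtain ⟨w, h1, h2⟩ := ih (fun s hs => hl s (by simp [hs])) x
      rw [List.prod_cons, hs, one_mul]
      exact ⟨w, by rw [List.length_cons]; omega, h2⟩
    · have hadj : (coned S A).Adj (Sum.inl x) (Sum.inl (x * s)) := by
        refine ⟨fun h => hs (by simpa using h.symm), ?_⟩
        rcases hl s (by simp) with h | h
        · left; rw [inv_mul_cancel_left]; exact h
        · right; rw [mul_inv_rev, inv_mul_cancel_right]; exact h
      obtain ⟨w, h1, h2⟩ := ih (fun s hs => hl s (by simp [hs])) (x * s)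
      rw [List.prod_cons, ← mul_assoc]
      refine ⟨Walk.cons hadj w, by rw [Walk.length_cons, List.length_cons]; omega, ?_⟩
      intro v hv
      rw [Walk.support_cons, List.mem_cons] at hv
      rcases hv with rfl | hv
      · exact ⟨x, rfl⟩
      · exact h2 v hv

theorem exists_walk_word (hS : Subgroup.closure (S : Set G) = ⊤) (x y : G) :
    ∃ w : (coned S A).Walk (Sum.inl x) (Sum.inl y), w.length ≤ wordDist S x y ∧
      ∀ v ∈ w.support, ∃ g : G, v = Sum.inl g := by
  obtain ⟨l, h1, h2, h3⟩ := exists_word hS (x⁻¹ * y)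
  obtain ⟨w, h4, h5⟩ := exists_walk_list (A := A) l h2 x
  have e : x * l.prod = y := by rw [h3, mul_inv_cancel_left]
  rw [e] at w
  obtain ⟨w, h4, h5⟩ := exists_walk_list (A := A) l h2 x
  rw [h3, mul_inv_cancel_left] at w
  have key : ∀ z, z = y → (∃ w : (coned S A).Walk (Sum.inl x) (Sum.inl z),
      w.length ≤ wordDist S x y ∧ ∀ v ∈ w.support, ∃ g : G, v = Sum.inl g) →
      (∃ w : (coned S A).Walk (Sum.inl x) (Sum.inl y),
      w.length ≤ wordDist S x y ∧ ∀ v ∈ w.support, ∃ g : G, v = Sum.inl g) := by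
    rintro z rfl h; exact h
  refine key _ e ?_
  obtain ⟨w, h4, h5⟩ := exists_walk_list (A := A) l h2 x
  exact ⟨w, h4.trans h1.le, h5⟩

theorem conn_word (hS : Subgroup.closure (S : Set G) = ⊤) (c : Σ i, G ⧸ A i) (x y : G) :
    Conn (coned S A) (Sum.inr c) (wordDist S x y) (Sum.inl x) (Sum.inl y) := by
  obtain ⟨w, h1, h2⟩ := exists_walk_word (A := A) hS x y
  refine ⟨w, h1, fun h => ?_⟩
  obtain ⟨g, hg⟩ := h2 _ h
  simp at hg

theorem dist_le_word (hS : Subgroup.closure (S : Set G) = ⊤) (x y : G) :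
    (coned S A).dist (Sum.inl x) (Sum.inl y) ≤ wordDist S x y := by
  obtain ⟨w, h1, _⟩ := exists_walk_word (A := A) hS x y
  exact (SimpleGraph.dist_le w).trans h1

theorem coned_connected (hS : Subgroup.closure (S : Set G) = ⊤) : (coned S A).Connected := by
  have h1 : ∀ v : G ⊕ (Σ i, G ⧸ A i), (coned S A).Reachable (Sum.inl 1) v := by
    rintro (g | c)
    · obtain ⟨w, _⟩ := exists_walk_word (A := A) hS 1 g
      exact ⟨w⟩
    · obtain ⟨i, g, hc⟩ := exists_cone c
      obtain ⟨w, _⟩ := exists_walk_word (A := A) hS 1 g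
      rw [hc]
      exact Reachable.trans ⟨w⟩ (adj_cone g i).reachable
  haveI : Nonempty (G ⊕ (Σ i, G ⧸ A i)) := ⟨Sum.inl 1⟩
  exact ⟨fun u v => (h1 u).symm.trans (h1 v)⟩

/-- A passage through another cone. -/
theorem conn_jump {i : ι} {x y : G} (h : x⁻¹ * y ∈ A i) {c : Σ i, G ⧸ A i}
    (hc : cone A i x ≠ Sum.inr c) :
    Conn (coned S A) (Sum.inr c) 2 (Sum.inl x) (Sum.inl y) := by
  have h1 : Conn (coned S A) (Sum.inr c) 1 (Sum.inl x) (cone A i x) :=
    Conn.of_adj (adj_cone x i) (by simp) hc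
  have h2 : Conn (coned S A) (Sum.inr c) 1 (Sum.inl y) (cone A i y) :=
    Conn.of_adj (adj_cone y i) (by simp) (by rw [← cone_eq h]; exact hc)
  rw [← cone_eq h] at h2
  exact h1.trans h2.symm

theorem dist_jump (hS : Subgroup.closure (S : Set G) = ⊤) {i : ι} {x y : G}
    (h : x⁻¹ * y ∈ A i) : (coned S A).dist (Sum.inl x) (Sum.inl y) ≤ 2 := by
  have h1 : (coned S A).dist (Sum.inl x) (cone A i x) = 1 := dist_eq_one_iff_adj.2 (adj_cone x i)
  have h2 : (coned S A).dist (cone A i x) (Sum.inl y) = 1 := by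
    rw [cone_eq h, SimpleGraph.dist_comm]; exact dist_eq_one_iff_adj.2 (adj_cone y i)
  have := (coned_connected (A := A) hS).dist_triangle (u := Sum.inl x) (v := cone A i x)
    (w := Sum.inl y)
  omega

/-- Translations of the coned-off Cayley graph. -/
def trn (S : Finset G) (A : ι → Subgroup G) (g : G) : coned S A →g coned S A where
  toFun
    | Sum.inl h => Sum.inl (g * h)
    | Sum.inr c => Sum.inr ⟨c.1, g • c.2⟩
  map_rel' := by
    rintro (a | c) (b | d) h
    · refine ⟨fun h1 => h.1 (mul_left_cancel h1), ?_⟩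
      have e1 : (g * a)⁻¹ * (g * b) = a⁻¹ * b := by group
      have e2 : (g * b)⁻¹ * (g * a) = b⁻¹ * a := by group
      rw [e1, e2]; exact h.2
    · change ((g * a : G) : G ⧸ A d.1) = g • d.2
      rw [← show (a : G ⧸ A d.1) = d.2 from h]
      rfl
    · change ((g * b : G) : G ⧸ A c.1) = g • c.2
      rw [← show (b : G ⧸ A c.1) = c.2 from h]
      rfl
    · exact h

theorem trn_inl (g h : G) : trn S A g (Sum.inl h) = Sum.inl (g * h) := rfl

theorem trn_cone (g : G) (i : ι) (h : G) : trn S A g (cone A i h) = cone A i (g * h) := rfl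

theorem trn_inj (g : G) : Function.Injective (trn S A g) := by
  rintro (a | c) (b | d) h
  · have := Sum.inl_injective h
    rw [mul_left_cancel this]
  · exact absurd h (by simp [trn])
  · exact absurd h (by simp [trn])
  · obtain ⟨i, x, hc⟩ := exists_cone c
    obtain ⟨j, y, hd⟩ := exists_cone d
    rw [hc, hd] at h ⊢
    rw [trn_cone, trn_cone] at h
    have h1 := Sum.inr_injective h
    have h2 : i = j := congrArg Sigma.fst h1
    subst h2
    have h3 := (cone_eq_iff (A := A)).1 h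
    apply cone_eq
    have e : (g * x)⁻¹ * (g * y) = x⁻¹ * y := by group
    rwa [e] at h3

theorem Conn.trn {C x y : G ⊕ (Σ i, G ⧸ A i)} {L : ℕ} (h : Conn (coned S A) C L x y) (g : G) :
    Conn (coned S A) (Pda3a14.trn S A g C) L (Pda3a14.trn S A g x) (Pda3a14.trn S A g y) := by
  obtain ⟨w, h1, h2⟩ := h
  refine ⟨w.map (Pda3a14.trn S A g), by rw [Walk.length_map]; exact h1, ?_⟩
  rw [Walk.support_map, List.mem_map]
  rintro ⟨v, hv, e⟩
  rw [trn_inj g e] at hv
  exact h2 hv

/-- **Isolated cones**: two points of a coset which are joined by a short walk avoiding the cone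
vertex are close. -/
theorem exists_iso [Finite ι] (hf : IsFineGraph (coned S A)) (L : ℕ) :
    ∃ f : ℕ, ∀ (i : ι) (a b : G), a⁻¹ * b ∈ A i →
      Conn (coned S A) (cone A i a) L (Sum.inl a) (Sum.inl b) → wordDist S a b ≤ f := by
  classical
  set F : ι → ℕ → Set G := fun i n => {b : G | ∃ w : (coned S A).Walk (Sum.inl 1) (Sum.inl 1),
    (w.IsCycle ∧ w.length = n ∧ s(Sum.inl 1, cone A i 1) ∈ w.edges) ∧ w.getVert 2 = Sum.inl b}
    with hF
  have hFf : ∀ i n, (F i n).Finite := by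
    intro i n
    have h1 := (hf (Sum.inl 1) (cone A i 1) (adj_cone 1 i) n).image
      (fun w : (coned S A).Walk (Sum.inl 1) (Sum.inl 1) => w.getVert 2)
    have h2 := h1.preimage (f := (Sum.inl : G → G ⊕ (Σ i, G ⧸ A i)))
      (Sum.inl_injective.injOn)
    apply h2.subset
    rintro b ⟨w, h3, h4⟩
    exact ⟨w, h3, h4⟩
  have hU : (⋃ i, ⋃ n ∈ Set.Iic (L + 2), F i n).Finite :=
    Set.finite_iUnion fun i => (Set.finite_Iic _).biUnion fun n _ => hFf i n
  obtain ⟨f, hfb⟩ := (hU.image (wordLength S)).bddAbove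
  refine ⟨f, fun i a b hab hc => ?_⟩
  have h1 := hc.trn a⁻¹
  rw [trn_cone, trn_inl, trn_inl, inv_mul_cancel] at h1
  unfold wordDist
  set d := a⁻¹ * b with hd
  by_cases hd1 : d = 1
  · rw [hd1, wordLength_one]; exact Nat.zero_le _
  apply hfb
  refine ⟨d, ?_, rfl⟩
  obtain ⟨w, hw1, hw2⟩ := h1.symm
  have e1 : cone A i d = cone A i 1 := by
    apply cone_eq
    rw [mul_one]; exact inv_mem hab
  have adj1 : (coned S A).Adj (Sum.inl 1) (cone A i 1) := adj_cone 1 i
  have adj2 : (coned S A).Adj (cone A i 1) (Sum.inl d) := by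
    rw [← e1]; exact (adj_cone d i).symm
  set p := w.bypass with hp
  have hp1 : p.IsPath := w.bypass_isPath
  have hp2 : p.length ≤ L := w.length_bypass_le_length.trans hw1
  have hp3 : cone A i 1 ∉ p.support := fun h => hw2 (w.support_bypass_subset_support h)
  set q : (coned S A).Walk (Sum.inl 1) (Sum.inl 1) := Walk.cons adj1 (Walk.cons adj2 p) with hq
  rw [Set.mem_iUnion]
  refine ⟨i, ?_⟩
  rw [Set.mem_iUnion₂]
  refine ⟨q.length, ?_, q, ⟨?_, rfl, ?_⟩, ?_⟩
  · rw [Set.mem_Iic, hq, Walk.length_cons, Walk.length_cons]; omega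
  · rw [hq, Walk.cons_isCycle_iff]
    refine ⟨?_, ?_⟩
    · rw [Walk.cons_isPath_iff]
      exact ⟨hp1, hp3⟩
    · rw [Walk.edges_cons, List.mem_cons]
      rintro (h | h)
      · rw [Sym2.eq_iff] at h
        rcases h with ⟨h, _⟩ | ⟨h, _⟩
        · simp at h
        · exact hd1 (Sum.inl_injective h).symm
      · exact hp3 (p.snd_mem_support_of_mem_edges h)
  · rw [hq, Walk.edges_cons]
    exact List.mem_cons_self
  · rw [hq]
    rw [Walk.getVert_cons_succ, Walk.getVert_cons_succ, Walk.getVert_zero]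

end Pda3a14
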