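import Pool.Agent.Lib.Pda3a14.Defs

/-!
# Relatively hyperbolic groups (coned-off Cayley graph hyperbolic and fine)
-/

namespace Pda3a14

/-- The coned-off Cayley graph of `G` with respect to the finite set `S` and the subgroups `P i`:
the Cayley graph with an additional vertex for every left coset `g P i`, joined to the elements of
the coset. -/
def coned {G : Type*} [Group G] {ι : Type*} (S : Finset G) (P : ι → Subgroup G) :
    SimpleGraph (G ⊕ (Σ i, G ⧸ P i)) where
  Adj x y := match x, y with
    | Sum.inl g, Sum.inl h => g ≠ h ∧ (g⁻¹ * h ∈ S ∨ h⁻¹ * g ∈ S)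
    | Sum.inl g, Sum.inr c => (g : G ⧸ P c.1) = c.2
    | Sum.inr c, Sum.inl g => (g : G ⧸ P c.1) = c.2
    | Sum.inr _, Sum.inr _ => False
  symm := by
    constructor
    rintro (g | c) (h | d) hxy
    · exact ⟨hxy.1.symm, hxy.2.symm⟩
    · exact hxy
    · exact hxy
    · exact hxy
  loopless := by
    constructor
    rintro (g | c) hx
    · exact hx.1 rfl
    · exact hx

/-- Gromov hyperbolicity of a graph (four point condition). -/
def IsHyperbolicGraph {V : Type*} (Γ : SimpleGraph V) : Prop :=
  ∃ δ : ℕ, ∀ x y z w : V, Γ.dist x z + Γ.dist y w ≤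
    max (Γ.dist x y + Γ.dist z w) (Γ.dist x w + Γ.dist y z) + δ

/-- A graph is fine if every edge lies on only finitely many circuits of each length. -/
def IsFineGraph {V : Type*} (Γ : SimpleGraph V) : Prop :=
  ∀ u v : V, Γ.Adj u v → ∀ n : ℕ,
    {w : Γ.Walk u u | w.IsCycle ∧ w.length = n ∧ s(u, v) ∈ w.edges}.Finite

/-- `G` is hyperbolic relative to the finite family of subgroups `P i`: for some finite
generating set the coned-off Cayley graph is hyperbolic and fine. -/
def RelHyperbolic (G : Type*) [Group G] {ι : Type*} (P : ι → Subgroup G) : Prop :=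
  Finite ι ∧ ∃ S : Finset G, Subgroup.closure (S : Set G) = ⊤ ∧
    IsHyperbolicGraph (coned S P) ∧ IsFineGraph (coned S P)

/-- `D` is a finitely generated undistorted subgroup of the finitely generated group `Q`. -/
def Undistorted {Q : Type*} [Group Q] (D : Subgroup Q) : Prop :=
  ∃ (T S : Finset Q) (C : ℕ), Subgroup.closure (T : Set Q) = D ∧
    Subgroup.closure (S : Set Q) = ⊤ ∧ ∀ n, ∀ d ∈ D, InBall S n d → InBall T (C * n) d

end Pda3a14
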