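import Pool.Agent.Lib.Pda3a14.RAbel
import Pool.Agent.Lib.Pda3a14.RDefs

/-!
# Coordinates of abelian subgroups which are controlled in a quotient
-/

namespace Pda3a14

/-- Homomorphisms to the integers are Lipschitz. -/
theorem exists_lipschitz {Q : Type*} [Group Q] {Sq : Finset Q}
    (hSq : Subgroup.closure (Sq : Set Q) = ⊤) {κ : Type*} [Fintype κ]
    (χ : Q →* (κ → Multiplicative ℤ)) :
    ∃ C : ℕ, ∀ q j, (Multiplicative.toAdd (χ q j)).natAbs ≤ C * wordLength Sq q := by
  obtain ⟨m, hm⟩ := (Sq.finite_toSet.image fun b =>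
    ∑ j, (Multiplicative.toAdd (χ b j)).natAbs).bddAbove
  have hm' : ∀ s ∈ Sq, ∀ j, (Multiplicative.toAdd (χ s j)).natAbs ≤ m := by
    intro s hs j
    refine le_trans ?_ (hm ⟨s, hs, rfl⟩)
    exact Finset.single_le_sum (f := fun j => (Multiplicative.toAdd (χ s j)).natAbs)
      (fun _ _ => Nat.zero_le _) (Finset.mem_univ j)
  refine ⟨m, fun q j => ?_⟩
  obtain ⟨l, h1, h2, h3⟩ := (inBall_iff hSq).2 (le_refl (wordLength Sq q))
  rw [← h3] at h1 ⊢
  refine le_trans ?_ (Nat.mul_le_mul_left _ h1)
  clear h1 h3
  induction l with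
  | nil => simp
  | cons a l ih =>
    have i1 := ih fun s hs => h2 s (by simp [hs])
    have i2 : (Multiplicative.toAdd (χ a j)).natAbs ≤ m := by
      rcases h2 a (by simp) with h | h
      · exact hm' a h j
      · have := hm' _ h j
        rw [map_inv, Pi.inv_apply, toAdd_inv, Int.natAbs_neg] at this
        exact this
    rw [List.prod_cons, List.length_cons, map_mul, Pi.mul_apply, toAdd_mul]
    have i3 := Int.natAbs_add_le (Multiplicative.toAdd (χ a j))
      (Multiplicative.toAdd (χ l.prod j))
    have i4 : m * (l.length + 1) = m * l.length + m := by ring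
    omega

/-- Controlled coordinates in an abelian quotient. -/
theorem coords_of_comm {B : Type*} [CommGroup B] {Q : Type*} [CommGroup Q] [Group.FG Q]
    {Sq : Finset Q} (hSq : Subgroup.closure (Sq : Set Q) = ⊤) (φ : B →* Q) :
    ∃ (n : ℕ) (v : B →* (Fin n → Multiplicative ℤ)) (Cv : ℕ), Function.Surjective v ∧
      (φ '' {b | v b = 1}).Finite ∧
      ∀ b j, (Multiplicative.toAdd (v b j)).natAbs ≤ Cv * (wordLength Sq (φ b) + 1) := by
  classical
  obtain ⟨κ, _, h, hs, hfin⟩ := exists_coords Q
  -- the additive version of `h`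
  let ha : Additive Q →+ (κ → ℤ) :=
    { toFun := fun q j => Multiplicative.toAdd (h (Additive.toMul q) j)
      map_zero' := by funext j; simp
      map_add' := by intro a b; funext j; simp }
  let g : Additive B →ₗ[ℤ] (κ → ℤ) := (ha.comp (MonoidHom.toAdditive φ)).toIntLinearMap
  have hg : ∀ b : B, ∀ j, g (Additive.ofMul b) j = Multiplicative.toAdd (h (φ b) j) :=
    fun b j => rfl
  obtain ⟨n, snf⟩ := (LinearMap.range g).smithNormalForm (Pi.basisFun ℤ κ)
  let w : Additive B →ₗ[ℤ] (Fin n → ℤ) := (snf.bN.equivFun : _ →ₗ[ℤ] _).comp g.rangeRestrict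
  have hw : ∀ b j, w b j = snf.bN.repr (g.rangeRestrict b) j := by
    intro b j
    rfl
  let v : B →* (Fin n → Multiplicative ℤ) :=
    { toFun := fun b j => Multiplicative.ofAdd (w (Additive.ofMul b) j)
      map_one' := by funext j; simp
      map_mul' := by intro a b; funext j; simp }
  have hv : ∀ b j, v b j = Multiplicative.ofAdd (w (Additive.ofMul b) j) := fun _ _ => rfl
  -- the coordinates of the ambient basis
  let χ : Q →* (κ → Multiplicative ℤ) :=
    { toFun := fun q j => Multiplicative.ofAdd (snf.bM.repr (ha (Additive.ofMul q)) j)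
      map_one' := by funext j; simp
      map_mul' := by intro a b; funext j; simp }
  have hχ : ∀ q j, χ q j = Multiplicative.ofAdd (snf.bM.repr (ha (Additive.ofMul q)) j) :=
    fun _ _ => rfl
  obtain ⟨C, hC⟩ := exists_lipschitz hSq χ
  refine ⟨n, v, C, ?_, ?_, ?_⟩
  · intro u
    have h1 : Function.Surjective w := by
      intro y
      obtain ⟨x, hx⟩ := snf.bN.equivFun.surjective y
      obtain ⟨b, hb⟩ := g.surjective_rangeRestrict x
      exact ⟨b, by
        change snf.bN.equivFun (g.rangeRestrict b) = y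
        rw [hb, hx]⟩
    obtain ⟨b, hb⟩ := h1 fun j => Multiplicative.toAdd (u j)
    refine ⟨Additive.toMul b, ?_⟩
    funext j
    rw [hv]
    have : w (Additive.ofMul (Additive.toMul b)) j = Multiplicative.toAdd (u j) := by
      rw [ofMul_toMul, hb]
    rw [this]
    rfl
  · apply hfin.subset
    rintro _ ⟨b, hb, rfl⟩
    have h1 : w (Additive.ofMul b) = 0 := by
      funext j
      have h2 : v b j = 1 := by
        have := congrFun (show v b = 1 from hb) j
        rw [this]; rfl
      rw [hv] at h2
      exact h2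
    have h2 : g.rangeRestrict (Additive.ofMul b) = 0 := by
      have h3 : snf.bN.equivFun (g.rangeRestrict (Additive.ofMul b)) = 0 := h1
      exact (LinearEquiv.map_eq_zero_iff _).1 h3
    have h3 : g (Additive.ofMul b) = 0 := by
      have := congrArg Subtype.val h2
      exact this
    change h (φ b) = 1
    funext j
    have h4 : g (Additive.ofMul b) j = 0 := by rw [h3]; rfl
    rw [hg] at h4
    exact h4
  · intro b j
    have h1 := hC (φ b) (snf.f j)
    rw [hχ, toAdd_ofAdd] at h1
    rw [hv, toAdd_ofAdd, hw]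
    have h2 := snf.repr_apply_embedding_eq_repr_smul (m := g.rangeRestrict (Additive.ofMul b))
      (i := j)
    rw [map_smul] at h2
    have h3 : ((g.rangeRestrict (Additive.ofMul b) : LinearMap.range g) : κ → ℤ) =
        ha (Additive.ofMul (φ b)) := rfl
    rw [h3] at h2
    have ha0 : snf.a j ≠ 0 := by
      intro h0
      have h4 := snf.snf j
      rw [h0, zero_smul] at h4
      have h5 : snf.bN j = 0 := Subtype.ext h4
      exact snf.bN.ne_zero j h5
    rw [h2] at h1
    simp only [Finsupp.smul_apply, smul_eq_mul, Int.natAbs_mul] at h1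
    have h5 : 1 ≤ (snf.a j).natAbs := Nat.one_le_iff_ne_zero.2 (by rwa [Int.natAbs_ne_zero])
    have h6 : (snf.bN.repr (g.rangeRestrict (Additive.ofMul b)) j).natAbs ≤
        (snf.a j).natAbs * (snf.bN.repr (g.rangeRestrict (Additive.ofMul b)) j).natAbs :=
      Nat.le_mul_of_pos_left _ h5
    have h7 : C * wordLength Sq (φ b) ≤ C * (wordLength Sq (φ b) + 1) :=
      Nat.mul_le_mul_left _ (by omega)
    omega

/-- Controlled coordinates for an undistorted image. -/
theorem coords_of_undistorted {B : Type*} [CommGroup B] [Group.FG B] {Q : Type*} [Group Q]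
    {Sq : Finset Q} (hSq : Subgroup.closure (Sq : Set Q) = ⊤) (φ : B →* Q)
    (hund : Undistorted φ.range) :
    ∃ (n : ℕ) (v : B →* (Fin n → Multiplicative ℤ)) (Cv : ℕ), Function.Surjective v ∧
      (φ '' {b | v b = 1}).Finite ∧
      ∀ b j, (Multiplicative.toAdd (v b j)).natAbs ≤ Cv * (wordLength Sq (φ b) + 1) := by
  classical
  letI : CommGroup φ.range := { (inferInstance : Group φ.range) with
    mul_comm := by
      rintro ⟨_, a, rfl⟩ ⟨_, b, rfl⟩
      apply Subtype.ext
      change φ a * φ b = φ b * φ a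
      rw [← map_mul, ← map_mul, mul_comm] }
  have hfg : Group.FG φ.range := Group.fg_of_surjective φ.rangeRestrict_surjective
  obtain ⟨κ, _, h, hs, hfin⟩ := exists_coords φ.range
  obtain ⟨T, S', C, hT, hS', hd⟩ := hund
  have hTm : ∀ t ∈ T, t ∈ φ.range := by
    intro t ht
    rw [← hT]
    exact Subgroup.subset_closure ht
  -- generators of the other system
  obtain ⟨c0, hc0⟩ := exists_inBall_finite hS' (Sq : Set Q) Sq.finite_toSet
  -- the coordinates of the generators
  obtain ⟨m, hm⟩ := (T.attach.finite_toSet.image fun t : {t // t ∈ T} =>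
    ∑ j, (Multiplicative.toAdd (h ⟨t.1, hTm t.1 t.2⟩ j)).natAbs).bddAbove
  have hm' : ∀ t (ht : t ∈ T), ∀ j,
      (Multiplicative.toAdd (h ⟨t, hTm t ht⟩ j)).natAbs ≤ m := by
    intro t ht j
    refine le_trans ?_ (hm ⟨⟨t, ht⟩, by simp, rfl⟩)
    exact Finset.single_le_sum
      (f := fun j => (Multiplicative.toAdd (h ⟨t, hTm t ht⟩ j)).natAbs)
      (fun _ _ => Nat.zero_le _) (Finset.mem_univ j)
  let e := Fintype.equivFin κ
  let v : B →* (Fin (Fintype.card κ) → Multiplicative ℤ) :=
    { toFun := fun b j => h (φ.rangeRestrict b) (e.symm j)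
      map_one' := by funext j; simp
      map_mul' := by intro a b; funext j; simp }
  have hv : ∀ b j, v b j = h (φ.rangeRestrict b) (e.symm j) := fun _ _ => rfl
  refine ⟨Fintype.card κ, v, C * c0 * m, ?_, ?_, ?_⟩
  · intro u
    obtain ⟨d, hd⟩ := hs fun k => u (e k)
    obtain ⟨b, hb⟩ := φ.rangeRestrict_surjective d
    refine ⟨b, ?_⟩
    funext j
    rw [hv, hb, hd]
    simp
  · apply (hfin.image Subtype.val).subset
    rintro _ ⟨b, hb, rfl⟩
    refine ⟨φ.rangeRestrict b, ?_, rfl⟩
    change h (φ.rangeRestrict b) = 1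
    funext k
    have h1 := congrFun (show v b = 1 from hb) (e k)
    rw [hv, e.symm_apply_apply] at h1
    exact h1
  · intro b j
    rw [hv]
    obtain ⟨l, h1, h2, h3⟩ := (inBall_iff hSq).2 (le_refl (wordLength Sq (φ b)))
    have h4 : InBall S' (l.length * c0) (φ b) := by
      rw [← h3]
      apply InBall.list
      intro s hs
      rcases h2 s hs with h | h
      · exact hc0 s h
      · have := (hc0 _ h).inv
        rwa [inv_inv] at this
    obtain ⟨l', g1, g2, g3⟩ := hd _ (φ b) ⟨b, rfl⟩ h4
    -- the coordinates of a product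
    have key : ∀ (l' : List Q), (∀ s ∈ l', s ∈ T ∨ s⁻¹ ∈ T) → ∀ (hl : l'.prod ∈ φ.range) k,
        (Multiplicative.toAdd (h ⟨l'.prod, hl⟩ k)).natAbs ≤ l'.length * m := by
      intro l'
      induction l' with
      | nil =>
        intro _ hl k
        have e1 : (⟨([] : List Q).prod, hl⟩ : φ.range) = 1 := Subtype.ext rfl
        rw [e1, map_one]
        simp
      | cons a l' ih =>
        intro hl' hl k
        have ha : a ∈ φ.range := by
          rcases hl' a (by simp) with h | h
          · exact hTm a h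
          · have := inv_mem (hTm _ h)
            rwa [inv_inv] at this
        have hl2 : l'.prod ∈ φ.range := by
          have h5 := mul_mem (inv_mem ha) hl
          rwa [List.prod_cons, inv_mul_cancel_left] at h5
        have i1 := ih (fun s hs => hl' s (by simp [hs])) hl2 k
        have i2 : (Multiplicative.toAdd (h ⟨a, ha⟩ k)).natAbs ≤ m := by
          rcases hl' a (by simp) with h' | h'
          · exact hm' a h' k
          · have h5 := hm' _ h' k
            have e1 : (⟨a⁻¹, hTm _ h'⟩ : φ.range) = (⟨a, ha⟩ : φ.range)⁻¹ := Subtype.ext rfl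
            rw [e1, map_inv, Pi.inv_apply, toAdd_inv, Int.natAbs_neg] at h5
            exact h5
        have e2 : (⟨(a :: l').prod, hl⟩ : φ.range) = ⟨a, ha⟩ * ⟨l'.prod, hl2⟩ :=
          Subtype.ext (by simp)
        rw [e2, map_mul, Pi.mul_apply, toAdd_mul, List.length_cons]
        have i3 := Int.natAbs_add_le (Multiplicative.toAdd (h ⟨a, ha⟩ k))
          (Multiplicative.toAdd (h ⟨l'.prod, hl2⟩ k))
        have i4 : (l'.length + 1) * m = l'.length * m + m := by ring
        omega
    have h5 := key l' g2 (by rw [g3]; exact ⟨b, rfl⟩) (e.symm j)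
    have e3 : (⟨l'.prod, by rw [g3]; exact ⟨b, rfl⟩⟩ : φ.range) = φ.rangeRestrict b :=
      Subtype.ext g3
    rw [e3] at h5
    refine h5.trans ?_
    calc l'.length * m ≤ C * (l.length * c0) * m := Nat.mul_le_mul_right _ g1
      _ ≤ C * ((wordLength Sq (φ b) + 1) * c0) * m := by
          apply Nat.mul_le_mul_right
          apply Nat.mul_le_mul_left
          apply Nat.mul_le_mul_right
          omega
      _ = C * c0 * m * (wordLength Sq (φ b) + 1) := by ring

end Pda3a14
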