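import Pool.Agent.Lib.Pda3a14.RLadder
import Pool.Agent.Lib.Pda3a14.HypFill

/-!
# The dyadic filling in relatively hyperbolic groups
-/

set_option linter.unusedSectionVars false

namespace Pda3a14

open SimpleGraph

section Bounds

variable {G : Type*} [Group G] {ι : Type*} {S : Finset G} {A : ι → Subgroup G}

theorem vt_dist (hS : Subgroup.closure (S : Set G) = ⊤) {J₁ : ℕ} (x : G)
    (W : List (Option ι × G)) (hm : ∀ e ∈ W, wordLength S e.2 ≤ J₁) (k : ℕ)
    (hk : k ≤ W.length) : wordDist S x (vt x W k) ≤ k * J₁ := by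
  induction k with
  | zero => rw [vt_zero, wordDist_self]; omega
  | succ k ih =>
    have h1 := ih (by omega)
    have hget : W[k]? = some W[k] := List.getElem?_eq_getElem (by omega)
    have hv := vt_succ (x := x) hget
    have h2 := hm _ (List.getElem_mem (l := W) (n := k) (by omega))
    have h3 : wordDist S (vt x W k) (vt x W (k + 1)) = wordLength S (W[k]).2 := by
      rw [hv]; unfold wordDist; rw [inv_mul_cancel_left]
    have h4 := wordDist_triangle hS x (vt x W k) (vt x W (k + 1))
    have h5 : (k + 1) * J₁ = k * J₁ + J₁ := by ring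
    omega

theorem IsWd.mv_le (hS : Subgroup.closure (S : Set G) = ⊤) {F : ℕ}
    (hF : ∀ (i : ι) (e x x' a a' : G), First S A i e x a → First S A i e x' a' →
      wordDist S x x' ≤ 1 → wordDist S a a' ≤ F) {x y : G} {W : List (Option ι × G)}
    (h : IsWd S A x y W) {n : ℕ} (hn : wordDist S x y ≤ n) :
    ∀ e ∈ W, wordLength S e.2 ≤ F * (n + 1) + 1 := by
  intro e he
  rcases h.mv hS hF he with ⟨_, h1⟩ | ⟨i, _, _, h1⟩
  · omega
  · have : F * (wordDist S x y + 1) ≤ F * (n + 1) := Nat.mul_le_mul_left _ (by omega)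
    omega

theorem IsWd.mok (hS : Subgroup.closure (S : Set G) = ⊤) {F : ℕ}
    (hF : ∀ (i : ι) (e x x' a a' : G), First S A i e x a → First S A i e x' a' →
      wordDist S x x' ≤ 1 → wordDist S a a' ≤ F) {x y : G} {W : List (Option ι × G)}
    (h : IsWd S A x y W) {lam : ℕ} (hl : 1 ≤ lam) : Mok S A lam W := by
  intro e he
  rcases h.mv hS hF he with ⟨h0, h1⟩ | ⟨i, h0, h1, _⟩
  · exact ⟨fun _ => h1.trans hl, fun i hi => by rw [h0] at hi; simp at hi⟩
  · refine ⟨fun hi => by rw [h0] at hi; simp at hi, fun j hj => ?_⟩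
    rw [h0, Option.some.injEq] at hj
    rw [← hj]; exact h1

end Bounds

namespace Push

variable {G : Type*} [Group G] {α : Type*} [Fintype α] [DecidableEq α] {P : Push G α}
variable {ι : Type*} {S : Finset G} {A : ι → Subgroup G}
  {mv : G → Option ι × G → FreeGroup α} {m Λ J K : ℕ}

attribute [local instance] Push.normal

/-- **The dyadic filling.** -/
theorem rdyadic (hF : RFill P.R S A mv (P.Dep S K) m Λ J)
    (hlet : ∀ h ∈ P.π.range, ∀ x : α × Bool, Near P.R (2 * m) (mv h (none, P.ltr x))
      (FreeGroup.mk [x])) (hS : Subgroup.closure (S : Set G) = ⊤)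
    {f : ℕ → ℕ} (hiso : ∀ (L : ℕ) (i : ι) (a b : G), a⁻¹ * b ∈ A i →
      Conn (coned S A) (Pda3a14.cone A i a) L (Sum.inl a) (Sum.inl b) → wordDist S a b ≤ f L)
    {ν Λ₀ F : ℕ}
    (hν : ∀ (x y z : G) (Wp W₁ W₂ : List (Option ι × G)), IsWd S A x z Wp →
      IsWd S A x y W₁ → IsWd S A y z W₂ → ∀ k ≤ Wp.length,
      (∃ j ≤ W₁.length, wordDist S (vt x Wp k) (vt x W₁ j) ≤ ν) ∨
      (∃ j ≤ W₂.length, wordDist S (vt x Wp k) (vt y W₂ j) ≤ ν))
    (hfirst : ∀ (i : ι) (e x x' a a' : G), First S A i e x a → First S A i e x' a' →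
      wordDist S x x' ≤ 1 → wordDist S a a' ≤ F)
    (hl : ∀ x : α × Bool, wordLength S (P.ltr x) ≤ Λ₀)
    (hΛ : (4 * ν + 14 + 1) * lams f (4 * ν + 14) (ν + Λ₀ + 1) (4 * ν + 14) ≤ Λ)
    (hΛ' : (Λ₀ + 2 + 1) * lams f (Λ₀ + 2) (ν + Λ₀ + 1) (Λ₀ + 2) ≤ Λ)
    (L : List (α × Bool)) {n1 n2 Jm : ℕ} (hn1 : Λ₀ * L.length ≤ n1)
    (hn2 : n1 + n1 * (F * (n1 + 1) + 1) ≤ n2) (hJm : F * (n2 + 1) + 1 ≤ Jm)
    (hJ : 2 * ((4 * ν + 14) * (Jm + ν)) ≤ J)
    (hJ' : 2 * (Λ₀ * (F * (Λ₀ + 1) + 1) + Λ₀) ≤ J)
    {lmax : ℕ} (hK : Λ₀ * (F * (Λ₀ + 1) + 1) + ν * lmax ≤ K)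
    {Wc : G → G → List (Option ι × G)} (hWc : ∀ x y, IsWd S A x y (Wc x y))
    (l : ℕ) (hll : l ≤ lmax) :
    ∀ i j, i ≤ j → j ≤ L.length → j - i ≤ 2 ^ l →
      AllV (P.Dep S (Λ₀ * (F * (Λ₀ + 1) + 1) + ν * l)) (P.π (FreeGroup.mk (L.take i)))
        (Wc (P.π (FreeGroup.mk (L.take i))) (P.π (FreeGroup.mk (L.take j)))) ∧
      Near P.R (2 ^ l * ((2 * cc (Λ₀ + 2) (Λ₀ + 2) + 2) * m) +
          (2 ^ l - 1) * ((n2 + 1) * ((n2 + 1) * (2 * (cc (4 * ν + 14) (4 * ν + 14) * m)))))
        (Psi mv (P.π (FreeGroup.mk (L.take i))) (Wc (P.π (FreeGroup.mk (L.take i)))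
          (P.π (FreeGroup.mk (L.take j)))))
        (FreeGroup.mk ((L.take j).drop i)) := by
  have hMW : ∀ x y, Mok S A (ν + Λ₀ + 1) (Wc x y) :=
    fun x y => (hWc x y).mok hS hfirst (by omega)
  have hdist : ∀ i j, i ≤ j → wordDist S (P.π (FreeGroup.mk (L.take i)))
      (P.π (FreeGroup.mk (L.take j))) ≤ Λ₀ * (j - i) := by
    intro i j hij
    induction j, hij using Nat.le_induction with
    | base => rw [wordDist_self]; omega
    | succ j hij ih =>
      have h1 := wordDist_triangle hS (P.π (FreeGroup.mk (L.take i)))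
        (P.π (FreeGroup.mk (L.take j))) (P.π (FreeGroup.mk (L.take (j + 1))))
      have h2 : wordDist S (P.π (FreeGroup.mk (L.take j)))
          (P.π (FreeGroup.mk (L.take (j + 1)))) ≤ Λ₀ := by
        by_cases hj : j < L.length
        · rw [List.take_succ_eq_append_getElem hj, P.π_mk, P.π_mk, List.map_append,
            List.prod_append]
          simp only [List.map_cons, List.map_nil, List.prod_cons, List.prod_nil, mul_one]
          unfold wordDist
          rw [inv_mul_cancel_left]
          exact hl _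
        · rw [List.take_of_length_le (by omega), List.take_of_length_le (by omega),
            wordDist_self]
          omega
      have h3 : Λ₀ * (j + 1 - i) = Λ₀ * (j - i) + Λ₀ := by
        rw [show j + 1 - i = (j - i) + 1 by omega]; ring
      omega
  induction l with
  | zero =>
    intro i j hij hj h1
    rw [pow_zero] at h1
    set p := P.π (FreeGroup.mk (L.take i)) with hp
    set p' := P.π (FreeGroup.mk (L.take j)) with hp'
    have hd : wordDist S p p' ≤ Λ₀ := by
      have := hdist i j hij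
      rw [← hp, ← hp'] at this
      refine this.trans ?_
      calc Λ₀ * (j - i) ≤ Λ₀ * 1 := Nat.mul_le_mul_left _ h1
        _ = Λ₀ := mul_one _
    have hpm : p ∈ P.π.range := ⟨_, rfl⟩
    have hmvs := (hWc p p').mv_le hS hfirst hd
    have hlen : (Wc p p').length ≤ Λ₀ := ((hWc p p').length_le hS).trans hd
    have hvd : ∀ k ≤ (Wc p p').length, wordDist S p (vt p (Wc p p') k) ≤
        Λ₀ * (F * (Λ₀ + 1) + 1) := by
      intro k hk
      refine (vt_dist hS p _ hmvs k hk).trans ?_
      exact Nat.mul_le_mul_right _ (hk.trans hlen)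
    have hAV : AllV (P.Dep S (Λ₀ * (F * (Λ₀ + 1) + 1) + ν * 0)) p (Wc p p') := by
      rw [allV_iff]
      intro k hk
      exact ⟨p, hpm, (hvd k hk).trans (by omega)⟩
    refine ⟨hAV, ?_⟩
    rcases (show j = i ∨ j = i + 1 by omega) with h2 | h2
    · have e : p' = p := by rw [hp, hp', h2]
      have hnil : Wc p p' = [] := by
        have := (hWc p p').length_le hS
        rw [e, wordDist_self] at this
        rw [e]
        exact List.eq_nil_of_length_eq_zero (by omega)
      rw [hnil, h2]
      have e2 : (L.take i).drop i = [] := by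
        apply List.drop_eq_nil_of_le; simp
      rw [e2]
      exact (Near.refl (R := P.R) (1 : FreeGroup α)).mono (Nat.zero_le _)
    · have hi : i < L.length := by omega
      have e2 : (L.take j).drop i = [L[i]] := by
        rw [h2, List.take_succ_eq_append_getElem hi, List.drop_append_of_le_length (by
          rw [List.length_take]; omega), List.drop_eq_nil_of_le (by simp), List.nil_append]
      have e3 : p⁻¹ * p' = P.ltr (L[i]) := by
        rw [hp, hp', h2, List.take_succ_eq_append_getElem hi, P.π_mk, P.π_mk, List.map_append,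
          List.prod_append]
        simp
      have hpm' : p' ∈ P.π.range := ⟨_, rfl⟩
      have s1 := cell_pair hF hS hiso (L₀ := Λ₀ + 2) (lam := ν + Λ₀ + 1) hΛ'
        (Vs := fun v => P.Dep S K v ∧ wordDist S p v ≤ Λ₀ * (F * (Λ₀ + 1) + 1) + Λ₀)
        (fun v hv => hv.1)
        (fun v w hv hw => by
          have t1 := wordDist_triangle hS v p w
          have t2 := wordDist_comm hS v p
          have := hv.2
          have := hw.2
          omega) p (Wc p p') [(none, P.ltr (L[i]))]
        (by rw [List.length_singleton]; omega) (by rw [List.length_singleton]; omega)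
        (hMW p p')
        (by
          rw [mok_cons]
          exact ⟨⟨fun _ => (hl _).trans (by omega), fun i hi => by simp at hi⟩, mok_nil⟩)
        (by
          rw [allV_iff]
          intro k hk
          exact ⟨((allV_iff.1 hAV) k hk).mono (by
            have : ν * 0 ≤ ν * lmax := Nat.mul_le_mul_left _ (Nat.zero_le _)
            omega), (hvd k hk).trans (by omega)⟩)
        (by
          refine ⟨⟨(Dep.of_mem hpm).mono (Nat.zero_le _), by rw [wordDist_self]; omega⟩, ?_⟩
          simp only [AllV]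
          rw [← e3, mul_inv_cancel_left]
          exact ⟨(Dep.of_mem hpm').mono (Nat.zero_le _), by omega⟩)
        (by
          simp only [prd_cons, prd_nil, mul_one]
          rw [← e3, eq_inv_mul_iff_mul_eq]
          exact (hWc p p').prd)
      simp only [Psi, mul_one] at s1
      have s2 := s1.trans (hlet p hpm (L[i]))
      rw [e2]
      apply s2.mono
      rw [pow_zero, Nat.sub_self, zero_mul, add_zero, one_mul]
      apply le_of_eq; ring
  | succ l ih =>
    have ih' := ih (by omega)
    intro i j hij hj h1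
    set mid := min (i + 2 ^ l) j with hmid
    have hm1 : i ≤ mid := by omega
    have hm2 : mid ≤ j := by omega
    have hm3 : mid - i ≤ 2 ^ l := by omega
    have hm4 : j - mid ≤ 2 ^ l := by
      rw [pow_succ] at h1; omega
    obtain ⟨a1, a2⟩ := ih' i mid hm1 (by omega) hm3
    obtain ⟨b1, b2⟩ := ih' mid j hm2 hj hm4
    set x := P.π (FreeGroup.mk (L.take i)) with hx
    set y := P.π (FreeGroup.mk (L.take mid)) with hy
    set z := P.π (FreeGroup.mk (L.take j)) with hz
    have hd1 := hdist i mid hm1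
    have hd2 := hdist mid j hm2
    rw [← hx, ← hy] at hd1
    rw [← hy, ← hz] at hd2
    have hd1' : wordDist S x y ≤ n1 := by
      refine hd1.trans (le_trans (Nat.mul_le_mul_left _ (by omega)) hn1)
    have hd2' : wordDist S y z ≤ n1 := by
      refine hd2.trans (le_trans (Nat.mul_le_mul_left _ (by omega)) hn1)
    have hνl : ν * (l + 1) ≤ ν * lmax := Nat.mul_le_mul_left _ hll
    have hνl' : ν * (l + 1) = ν * l + ν := by ring
    have hmvyz := (hWc y z).mv_le hS hfirst hd2'
    have hlenyz : (Wc y z).length ≤ n1 := ((hWc y z).length_le hS).trans hd2'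
    have hF12 : F * (n1 + 1) ≤ F * (n2 + 1) := Nat.mul_le_mul_left _ (by omega)
    have hdxw : ∀ i ≤ (Wc y z).length, wordDist S x (vt y (Wc y z) i) ≤ n2 := by
      intro i hi
      have t1 := vt_dist hS y _ hmvyz i hi
      have t2 : i * (F * (n1 + 1) + 1) ≤ n1 * (F * (n1 + 1) + 1) :=
        Nat.mul_le_mul_right _ (hi.trans hlenyz)
      have t3 := wordDist_triangle hS x y (vt y (Wc y z) i)
      omega
    obtain ⟨_, tri⟩ := rtriangle hF hS hiso (ν := ν) (lam := ν + Λ₀ + 1) (Jm := Jm)
      (M := n2 + 1) (by omega) (by omega) hν hΛ hJ hWc hMW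
      (ok₀ := P.Dep S (Λ₀ * (F * (Λ₀ + 1) + 1) + ν * l))
      (fun u v hv hd => (hv.near hS hd).mono (by omega)) x y z a1 b1
      (fun i hi => by
        refine ⟨fun e he => ?_, ?_⟩
        · exact ((hWc x _).mv_le hS hfirst (hdxw i hi) e he).trans hJm
        · have := (hWc x (vt y (Wc y z) i)).length_le hS
          have := hdxw i hi
          omega)
      (fun e he => (hmvyz e he).trans (by omega)) (by omega)
    refine ⟨?_, ?_⟩
    · rw [allV_iff]
      intro k hk
      rcases hν x y z _ _ _ (hWc x z) (hWc x y) (hWc y z) k hk with ⟨j', hj', hd⟩ | ⟨j', hj', hd⟩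
      · exact (((allV_iff.1 a1) j' hj').near hS hd).mono (by omega)
      · exact (((allV_iff.1 b1) j' hj').near hS hd).mono (by omega)
    · have e6 : (L.take j).drop i = (L.take mid).drop i ++ (L.take j).drop mid := by
        have h3 : L.take j = L.take mid ++ (L.take j).drop mid := by
          conv_lhs => rw [← List.take_append_drop mid (L.take j)]
          rw [List.take_take, min_eq_left hm2]
        conv_lhs => rw [h3, List.drop_append_of_le_length (by
          rw [List.length_take]; omega)]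
      have e7 : FreeGroup.mk ((L.take j).drop i) =
          FreeGroup.mk ((L.take mid).drop i) * FreeGroup.mk ((L.take j).drop mid) := by
        rw [e6, FreeGroup.mul_mk]
      rw [e7]
      have h5 := tri.symm.trans (a2.mul b2)
      apply h5.mono
      have h6 : 1 ≤ 2 ^ l := Nat.one_le_two_pow
      obtain ⟨r, hr⟩ : ∃ r, 2 ^ l = r + 1 := ⟨2 ^ l - 1, by omega⟩
      have h7 : 2 ^ (l + 1) - 1 = 2 * r + 1 := by rw [pow_succ]; omega
      rw [h7, hr, Nat.add_sub_cancel, pow_succ, hr]
      apply le_of_eq; ring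

end Push

end Pda3a14
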