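import Pool.Agent.Lib.Pda3a14.RPoly
import Pool.Agent.Lib.Pda3a14.Final

/-!
# Final form for relatively hyperbolic groups
-/

namespace Pda3a14

section

variable {G : Type*} [Group G]

theorem cond_transport {N N' : Subgroup G} [N.Normal] [N'.Normal] (h : N' = N) {ι : Type*}
    {A : ι → Subgroup G} (hc : (∀ a b : G ⧸ N, a * b = b * a) ∨
      ∀ i, Undistorted ((A i).map (QuotientGroup.mk' N))) :
    (∀ a b : G ⧸ N', a * b = b * a) ∨ ∀ i, Undistorted ((A i).map (QuotientGroup.mk' N')) := by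
  subst h
  exact hc

theorem poly_bound_rel {H : Subgroup G} [H.Normal] {ι : Type*} {A : ι → Subgroup G}
    (hG : RelHyperbolic G A) (hab : ∀ i, ∀ x ∈ A i, ∀ y ∈ A i, x * y = y * x)
    (hA : (∀ a b : G ⧸ H, a * b = b * a) ∨ ∀ i, Undistorted ((A i).map (QuotientGroup.mk' H)))
    (hQ : Combable (G ⧸ H)) (P : FinPres H) :
    ∃ d : ℕ, Preceq (fun x => (P.dehn x : ℝ)) (fun x => x ^ d) := by
  have := P.push.normal
  have hr : P.push.π.range = H := P.range_eq
  obtain ⟨q⟩ := (P.push_comb hQ).exists_normalised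
  obtain ⟨E, e, hE⟩ := P.push.exists_poly_area_rel hG hab q (cond_transport hr hA)
  refine ⟨e, (E : ℝ) + 1, by positivity, fun x => ?_⟩
  have hd : P.dehn x ≤ E * (x + 1) ^ e := by
    apply P.dehn_le
    intro w hw h1
    apply (hE w ((P.push_π w).2 h1)).mono
    apply Nat.mul_le_mul_left
    exact Nat.pow_le_pow_left (by omega) _
  have h1 : ((P.dehn x : ℕ) : ℝ) ≤ (E : ℝ) * ((x : ℝ) + 1) ^ e := by exact_mod_cast hd
  have hx : (0 : ℝ) ≤ x := Nat.cast_nonneg x
  have hE0 : (0 : ℝ) ≤ E := Nat.cast_nonneg E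
  have h2 : ((x : ℝ) + 1) ^ e ≤ (((E : ℝ) + 1) * x + ((E : ℝ) + 1)) ^ e := by
    apply pow_le_pow_left₀ (by positivity)
    nlinarith
  have h3 : (0 : ℝ) ≤ (((E : ℝ) + 1) * x + ((E : ℝ) + 1)) ^ e := by positivity
  have h4 : (0 : ℝ) ≤ ((E : ℝ) + 1) * x + ((E : ℝ) + 1) := by positivity
  simp only
  calc ((P.dehn x : ℕ) : ℝ) ≤ (E : ℝ) * ((x : ℝ) + 1) ^ e := h1
    _ ≤ (E : ℝ) * (((E : ℝ) + 1) * x + ((E : ℝ) + 1)) ^ e := mul_le_mul_of_nonneg_left h2 hE0
    _ ≤ ((E : ℝ) + 1) * (((E : ℝ) + 1) * x + ((E : ℝ) + 1)) ^ e := by nlinarith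
    _ ≤ _ := by linarith

end

/-- A quotient of a finitely generated group which is abelian, CAT(0), hyperbolic or combable is
combable. -/
theorem combable_quotient_fg {G : Type} [Group G] (hG : Group.FG G) (H : Subgroup G) [H.Normal]
    (hQ : (∀ a b : G ⧸ H, a * b = b * a) ∨ CATZeroGroup (G ⧸ H) ∨ HyperbolicGroup (G ⧸ H) ∨
      Combable (G ⧸ H)) : Combable (G ⧸ H) := by
  rcases hQ with h | h | h | h
  · letI : CommGroup (G ⧸ H) := { (inferInstance : Group (G ⧸ H)) with mul_comm := h }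
    have hfg : Group.FG (G ⧸ H) := inferInstance
    exact combable_of_comm (G ⧸ H)
  · exact h.combable
  · exact h.combable
  · exact h

theorem RelHyperbolic.fg {G : Type*} [Group G] {ι : Type*} {A : ι → Subgroup G}
    (h : RelHyperbolic G A) : Group.FG G := by
  obtain ⟨_, S, hS, _⟩ := h
  exact ⟨⟨S, hS⟩⟩

end Pda3a14
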