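import Pool.Agent.Lib.Pda3a14.RCell
import Pool.Agent.Lib.Pda3a14.HypFill
import Pool.Agent.Lib.Pda3a14.Abel

/-!
# Pushing the peripheral subgroups
-/

set_option linter.unusedSectionVars false

open scoped Pointwise

namespace Pda3a14

theorem closure_image {G : Type*} [Group G] {S : Finset G}
    (hS : Subgroup.closure (S : Set G) = ⊤) (N : Subgroup G) [N.Normal] [DecidableEq (G ⧸ N)] :
    Subgroup.closure ((S.image fun g : G => (g : G ⧸ N) : Finset (G ⧸ N)) : Set (G ⧸ N)) = ⊤ := by
  have h1 := congrArg (Subgroup.map (QuotientGroup.mk' N)) hS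
  rw [MonoidHom.map_closure, Subgroup.map_top_of_surjective _ (QuotientGroup.mk'_surjective N)]
    at h1
  rw [Finset.coe_image]
  exact h1

namespace Push

variable {G : Type*} [Group G] {α : Type*} [Fintype α] [DecidableEq α] (P : Push G α)

attribute [local instance] Push.normal

open Classical in
/-- The image of the generating set in the quotient. -/
noncomputable def Sq (S : Finset G) : Finset P.Q := S.image fun g : G => (g : P.Q)

open Classical in
theorem closure_Sq {S : Finset G} (hS : Subgroup.closure (S : Set G) = ⊤) :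
    Subgroup.closure (P.Sq S : Set P.Q) = ⊤ := closure_image hS _

open Classical in
theorem inBall_mk {S : Finset G} {n : ℕ} {g : G} (h : InBall S n g) :
    InBall (P.Sq S) n (g : P.Q) :=
  h.map (QuotientGroup.mk' P.π.range) (fun _ hs => Finset.mem_image_of_mem _ hs)

open Classical in
theorem exists_lift {S : Finset G} (l : List P.Q) (hl : ∀ s ∈ l, s ∈ P.Sq S ∨ s⁻¹ ∈ P.Sq S) :
    ∃ x : G, InBall S l.length x ∧ (x : P.Q) = l.prod := by
  induction l with
  | nil => exact ⟨1, InBall.one, rfl⟩
  | cons s l ih =>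
    obtain ⟨x, h1, h2⟩ := ih fun s hs => hl s (by simp [hs])
    have h3 : ∃ y : G, InBall S 1 y ∧ (y : P.Q) = s := by
      rcases hl s (by simp) with h | h
      · unfold Sq at h
        rw [Finset.mem_image] at h
        obtain ⟨y, hy, rfl⟩ := h
        exact ⟨y, InBall.of_mem hy, rfl⟩
      · unfold Sq at h
        rw [Finset.mem_image] at h
        obtain ⟨y, hy, hy'⟩ := h
        refine ⟨y⁻¹, (InBall.of_mem hy).inv, ?_⟩
        rw [QuotientGroup.mk_inv, hy', inv_inv]
    obtain ⟨y, h4, h5⟩ := h3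
    refine ⟨y * x, ?_, ?_⟩
    · rw [List.length_cons, add_comm]
      exact h4.mul h1
    · rw [QuotientGroup.mk_mul, h5, h2, List.prod_cons]

/-- The depth is the length in the quotient. -/
theorem dep_iff {S : Finset G} (hS : Subgroup.closure (S : Set G) = ⊤) {k : ℕ} {g : G} :
    P.Dep S k g ↔ wordLength (P.Sq S) (g : P.Q) ≤ k := by
  constructor
  · rintro ⟨h, hh, hd⟩
    have h1 := P.inBall_mk ((inBall_iff hS).2 (show wordLength S (h⁻¹ * g) ≤ k from hd))
    rw [QuotientGroup.mk_mul, QuotientGroup.mk_inv, (QuotientGroup.eq_one_iff h).2 hh, inv_one,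
      one_mul] at h1
    exact wordLength_le h1
  · intro hk
    obtain ⟨l, h1, h2, h3⟩ := (inBall_iff (P.closure_Sq hS)).2 hk
    obtain ⟨x, h4, h5⟩ := P.exists_lift l h2
    refine ⟨g * x⁻¹, ?_, ?_⟩
    · rw [← QuotientGroup.eq_one_iff, QuotientGroup.mk_mul, QuotientGroup.mk_inv, h5, h3,
        mul_inv_cancel]
    · unfold wordDist
      rw [mul_inv_rev, inv_inv, inv_mul_cancel_right]
      exact wordLength_le (h4.mono h1)

/-- The path over `g` of the combing of a subgroup. -/
def pth {B : Subgroup G} (Kb : NCombing B) (g : G) (p : B) (t : ℕ) : G := g * (Kb.c p t : G)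

variable {P}
variable {S : Finset G} {c : P.Q → ℕ → P.Q} {N mF Λ' K' : ℕ}

theorem V_const (hF : P.Fill S c N mF Λ' K') (u : ℕ → G) {M₀ : ℕ} {y : G}
    (h : ∀ t, M₀ ≤ t → u t = y) {M : ℕ} (hM : M₀ ≤ M) : P.V c N u M = P.V c N u M₀ := by
  induction M, hM using Nat.le_induction with
  | base => rfl
  | succ M hM ih =>
    simp only [V]
    rw [h M hM, h (M + 1) (hM.trans (Nat.le_succ _)), inv_mul_cancel, hF.one, mul_one, ih]

/-- **Pushing the elements of an abelian subgroup.** -/
theorem exists_flat (hS : Subgroup.closure (S : Set G) = ⊤) (B : Subgroup G) (Kb : NCombing B)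
    {Cc FB : ℕ} (hctl : ∀ (b : B) (t : ℕ), wordLength (P.Sq S) (((Kb.c b t : B) : G) : P.Q) ≤
      Cc * (wordLength (P.Sq S) ((b : G) : P.Q) + 1))
    (hund : ∀ p ∈ B, ∃ l : List G, l.length ≤ wordLength S p ∧
      (∀ s ∈ l, s ∈ B ∧ wordLength S s ≤ FB) ∧ l.prod = p) (Λ : ℕ) :
    ∃ Λ' C₂ Ck : ℕ, ∀ (c : P.Q → ℕ → P.Q) (N mF K K' J M : ℕ), (P.Fill S c N mF Λ' K') →
      Ck * (K + 1) ≤ K' → Λ ≤ J → C₂ * (J + 1) ≤ M →
      (∀ g : G, P.V c N (pth Kb g 1) M = 1) ∧
      (∀ (g : G) (p : B), wordLength S (p : G) ≤ Λ → P.Dep S K g → P.Dep S K (g * p) →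
        Near P.R (C₂ * (Λ + 1) * mF) (P.V c N (pth Kb g p) M) (P.Om c N g p)) ∧
      (∀ (g : G) (p p' : B), wordLength S (p : G) ≤ J → wordLength S (p' : G) ≤ J →
        wordLength S ((p * p' : B) : G) ≤ J → P.Dep S K g → P.Dep S K (g * p) →
        P.Dep S K (g * p * p') →
        Near P.R (M * (C₂ * (J + M + 1) * (2 * mF)))
          (P.V c N (pth Kb g p) M * P.V c N (pth Kb (g * p) p') M)
          (P.V c N (pth Kb g (p * p')) M)) := by
  classical
  -- the finite set of generators of `B`
  set FT : Set B := {s : B | wordLength S (s : G) ≤ FB} ∪ Kb.S with hFT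
  have hFTf : FT.Finite := by
    apply Set.Finite.union _ Kb.fin
    have h1 : {g : G | wordLength S g ≤ FB}.Finite := by
      apply (finite_ball S FB).subset
      intro g hg
      exact (inBall_iff hS).2 hg
    exact h1.preimage (Subtype.val_injective.injOn)
  obtain ⟨C₂, hC₂⟩ := Kb.len FT hFTf
  obtain ⟨Cf, hCf, hfel⟩ := Kb.fel Kb.S Kb.fin
  -- a bound for the elements which occur
  obtain ⟨Λ₁, hΛ₁⟩ := (((hCf.mul Kb.fin).union (Kb.fin.union hCf)).image
    (fun b : B => wordLength S (b : G))).bddAbove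
  set M₀ := C₂ * (Λ + 1) with hM₀
  refine ⟨Λ + Λ₁ + M₀ * Λ₁, C₂, 1 + Cc * (2 + Cc * 3 + 1), ?_⟩
  intro c N mF K K' J M hF hK' hΛJ hM
  have hb1 : ∀ b : B, b ∈ Kb.S → wordLength S (b : G) ≤ Λ₁ := fun b hb =>
    hΛ₁ ⟨b, Or.inr (Or.inl hb), rfl⟩
  have hb2 : ∀ b : B, b ∈ Cf → wordLength S (b : G) ≤ Λ₁ := fun b hb =>
    hΛ₁ ⟨b, Or.inr (Or.inr hb), rfl⟩
  have hb3 : ∀ b : B, b ∈ Cf * Kb.S → wordLength S (b : G) ≤ Λ₁ := fun b hb =>
    hΛ₁ ⟨b, Or.inl hb, rfl⟩
  have hSq := P.closure_Sq hS
  -- lists
  have hlist : ∀ p : B, ∃ l : List B, l.length ≤ wordLength S (p : G) ∧ (∀ s ∈ l, s ∈ FT) ∧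
      l.prod = p := by
    intro p
    obtain ⟨l, h1, h2, h3⟩ := hund p p.2
    refine ⟨l.attach.map fun s => ⟨s.1, (h2 s.1 s.2).1⟩, by simpa using h1, ?_, ?_⟩
    · intro s hs
      rw [List.mem_map] at hs
      obtain ⟨s', _, rfl⟩ := hs
      exact Or.inl (h2 s'.1 s'.2).2
    · apply Subtype.ext
      rw [← h3]
      have := map_list_prod B.subtype (l.attach.map fun s => ⟨s.1, (h2 s.1 s.2).1⟩)
      rw [Subgroup.coe_subtype] at this
      rw [this, List.map_map]
      have e : (List.map ((fun x : B => (x : G)) ∘ fun s : {x // x ∈ l} =>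
          (⟨s.1, (h2 s.1 s.2).1⟩ : B)) l.attach) = l := by
        conv_rhs => rw [← List.attach_map_subtype_val l]
        rfl
      rw [e]
  have hcomb : ∀ (p : B) (j : ℕ), ∃ l : List B, l.length = j ∧ (∀ s ∈ l, s ∈ FT) ∧
      l.prod = Kb.c p j := by
    intro p j
    induction j with
    | zero => exact ⟨[], rfl, by simp, by rw [Kb.zero]; rfl⟩
    | succ j ih =>
      obtain ⟨l, h1, h2, h3⟩ := ih
      refine ⟨l ++ [(Kb.c p j)⁻¹ * Kb.c p (j + 1)], by simp [h1], ?_, ?_⟩
      · intro s hs
        rcases List.mem_append.1 hs with h | h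
        · exact h2 s h
        · rw [List.mem_singleton] at h
          rw [h]; exact Or.inr (Kb.step p j)
      · rw [List.prod_append, List.prod_singleton, h3, mul_inv_cancel_left]
  have hend : ∀ (p : B) (n t : ℕ), wordLength S (p : G) ≤ n → C₂ * (n + 1) ≤ t →
      Kb.c p t = p := by
    intro p n t hp ht
    obtain ⟨l, h1, h2, h3⟩ := hlist p
    rw [← h3]
    apply hC₂ l h2
    exact le_trans (Nat.mul_le_mul_left _ (by omega)) ht
  have hend2 : ∀ (p p' : B) (j t : ℕ), wordLength S (p : G) ≤ J → j ≤ M →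
      C₂ * (J + M + 1) ≤ t → Kb.c (p * Kb.c p' j) t = p * Kb.c p' j := by
    intro p p' j t hp hj ht
    obtain ⟨l, h1, h2, h3⟩ := hlist p
    obtain ⟨l', h1', h2', h3'⟩ := hcomb p' j
    rw [← h3, ← h3', ← List.prod_append]
    apply hC₂
    · intro s hs
      rcases List.mem_append.1 hs with h | h
      · exact h2 s h
      · exact h2' s h
    · rw [List.length_append]
      exact le_trans (Nat.mul_le_mul_left _ (by omega)) ht
  -- depths
  have hdiff : ∀ (g : G) (p : B), P.Dep S K g → P.Dep S K (g * p) →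
      wordLength (P.Sq S) ((p : G) : P.Q) ≤ 2 * K := by
    intro g p h1 h2
    rw [P.dep_iff hS] at h1 h2
    have h3 := wordLength_mul hSq ((g : G) : P.Q)⁻¹ ((g * p : G) : P.Q)
    rw [wordLength_inv hSq] at h3
    have e : ((g : G) : P.Q)⁻¹ * ((g * p : G) : P.Q) = ((p : G) : P.Q) := by
      rw [QuotientGroup.mk_mul, inv_mul_cancel_left]
    rw [e] at h3
    omega
  have hdep : ∀ (g : G) (y : B) (t : ℕ), P.Dep S K g →
      wordLength (P.Sq S) ((y : G) : P.Q) ≤ 2 * K + Cc * (2 * K + 1) →
      P.Dep S K' (pth Kb g y t) := by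
    intro g y t h1 h2
    rw [P.dep_iff hS] at h1 ⊢
    unfold pth
    have h3 := wordLength_mul hSq ((g : G) : P.Q) (((Kb.c y t : B) : G) : P.Q)
    rw [← QuotientGroup.mk_mul] at h3
    have h4 := hctl y t
    have h5 : Cc * (wordLength (P.Sq S) ((y : G) : P.Q) + 1) ≤
        Cc * (2 * K + Cc * (2 * K + 1) + 1) := Nat.mul_le_mul_left _ (by omega)
    have h6 : K + Cc * (2 * K + Cc * (2 * K + 1) + 1) ≤
        (1 + Cc * (2 + Cc * 3 + 1)) * (K + 1) := by
      have h7 : Cc * (2 * K + Cc * (2 * K + 1) + 1) ≤ Cc * ((2 + Cc * 3 + 1) * (K + 1)) := by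
        apply Nat.mul_le_mul_left
        have h8 : Cc * (2 * K + 1) ≤ Cc * (3 * (K + 1)) := Nat.mul_le_mul_left _ (by omega)
        have h9 : (2 + Cc * 3 + 1) * (K + 1) = 3 * (K + 1) + Cc * (3 * (K + 1)) := by ring
        omega
      have h10 : (1 + Cc * (2 + Cc * 3 + 1)) * (K + 1) =
          (K + 1) + Cc * ((2 + Cc * 3 + 1) * (K + 1)) := by ring
      omega
    omega
  have htime : ∀ (g : G) (y : B) (t : ℕ), P.Dep S K g →
      wordLength (P.Sq S) ((y : G) : P.Q) ≤ 2 * K + Cc * (2 * K + 1) →
      c ((pth Kb g y t : G) : P.Q) N = ((pth Kb g y t : G) : P.Q) := fun g y t h1 h2 =>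
    hF.time _ (hdep g y t h1 h2)
  have hstep : ∀ (g : G) (y : B) (t : ℕ), (pth Kb g y t)⁻¹ * pth Kb g y (t + 1) =
      (((Kb.c y t)⁻¹ * Kb.c y (t + 1) : B) : G) := by
    intro g y t
    unfold pth
    rw [Subgroup.coe_mul, Subgroup.coe_inv]
    group
  have hM₀M : M₀ ≤ M := le_trans (Nat.mul_le_mul_left _ (by omega)) hM
  refine ⟨?_, ?_, ?_⟩
  · -- the identity
    intro g
    have h1 := V_const hF (pth Kb g 1) (M₀ := 0) (y := g) (by
      intro t _
      unfold pth
      rw [Kb.one]; simp) (Nat.zero_le M)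
    rw [h1]
    rfl
  · -- short elements
    intro g p hp h1 h2
    have hq := hdiff g p h1 h2
    have e1 : P.V c N (pth Kb g p) M = P.V c N (pth Kb g p) M₀ := by
      apply V_const hF _ (y := g * p) _ hM₀M
      intro t ht
      unfold pth
      rw [hend p Λ t hp ht]
    rw [e1]
    have hlen : ∀ t, wordLength S ((Kb.c p t : B) : G) ≤ t * Λ₁ := by
      intro t
      induction t with
      | zero => rw [Kb.zero]; simp [wordLength_one]
      | succ t ih =>
        have h3 := wordLength_mul hS ((Kb.c p t : B) : G)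
          (((Kb.c p t)⁻¹ * Kb.c p (t + 1) : B) : G)
        rw [← Subgroup.coe_mul, mul_inv_cancel_left] at h3
        have h4 := hb1 _ (Kb.step p t)
        have h5 : (t + 1) * Λ₁ = t * Λ₁ + Λ₁ := by ring
        omega
    have hle : ∀ t ≤ M₀, t * Λ₁ ≤ M₀ * Λ₁ := fun t ht => Nat.mul_le_mul_right _ ht
    have key : ∀ t ≤ M₀, Near P.R (t * mF) (P.V c N (pth Kb g p) t)
        (P.Om c N g ((Kb.c p t : B) : G)) := by
      intro t
      induction t with
      | zero =>
        intro _
        rw [Kb.zero, Subgroup.coe_one, hF.one]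
        exact (Near.refl _).mono (Nat.zero_le _)
      | succ t ih =>
        intro ht
        have ih' := (ih (by omega)).mul_right (P.Om c N (pth Kb g p t)
          ((pth Kb g p t)⁻¹ * pth Kb g p (t + 1)))
        have hl1 := hlen t
        have hl2 := hlen (t + 1)
        have hl3 := hle t (by omega)
        have hl4 := hle (t + 1) ht
        have hl5 := hb1 _ (Kb.step p t)
        have h3 := hF.tri g ((Kb.c p t : B) : G) (((Kb.c p t)⁻¹ * Kb.c p (t + 1) : B) : G)
          (by omega) (by omega)
          (by rw [← Subgroup.coe_mul, mul_inv_cancel_left]; omega)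
          (by
            have := htime g p 0 h1 (by omega)
            unfold pth at this
            rwa [Kb.zero, Subgroup.coe_one, mul_one] at this)
          (htime g p t h1 (by omega))
          (by
            rw [mul_assoc, ← Subgroup.coe_mul, mul_inv_cancel_left]
            exact htime g p (t + 1) h1 (by omega))
        rw [← Subgroup.coe_mul, mul_inv_cancel_left] at h3
        simp only [V]
        rw [hstep] at ih' ⊢
        have e2 : g * ((Kb.c p t : B) : G) = pth Kb g p t := rfl
        rw [e2] at h3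
        apply (ih'.trans h3).mono
        apply le_of_eq; ring
    have h3 := key M₀ le_rfl
    rw [hend p Λ M₀ hp le_rfl] at h3
    exact h3
  · -- triangles
    intro g p p' hp hp' hpp h1 h2 h3
    have hq := hdiff g p h1 h2
    have hq' := hdiff (g * p) p' h2 h3
    set M' := C₂ * (J + M + 1) with hM'
    have hMM' : C₂ * (J + 1) ≤ M' := Nat.mul_le_mul_left _ (by omega)
    have hy : ∀ j, wordLength (P.Sq S) (((p * Kb.c p' j : B) : G) : P.Q) ≤
        2 * K + Cc * (2 * K + 1) := by
      intro j
      have h4 := wordLength_mul hSq ((p : G) : P.Q) (((Kb.c p' j : B) : G) : P.Q)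
      rw [← QuotientGroup.mk_mul, ← Subgroup.coe_mul] at h4
      have h5 := hctl p' j
      have h6 : Cc * (wordLength (P.Sq S) ((p' : G) : P.Q) + 1) ≤ Cc * (2 * K + 1) :=
        Nat.mul_le_mul_left _ (by omega)
      omega
    have key : ∀ j ≤ M, Near P.R (j * (M' * (2 * mF)))
        (P.V c N (pth Kb g p) M' * P.V c N (pth Kb (g * p) p') j)
        (P.V c N (pth Kb g (p * Kb.c p' j)) M') := by
      intro j
      induction j with
      | zero =>
        intro _
        rw [Kb.zero, mul_one]
        simpa [V] using (Near.refl (R := P.R) (P.V c N (pth Kb g p) M'))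
      | succ j ih =>
        intro hj
        have ih' := ih (by omega)
        set y := p * Kb.c p' j with hy1
        set y' := p * Kb.c p' (j + 1) with hy2
        have hyy : y' = y * ((Kb.c p' j)⁻¹ * Kb.c p' (j + 1)) := by
          rw [hy1, hy2, mul_assoc, mul_inv_cancel_left]
        have hhor : ∀ t, (Kb.c y t)⁻¹ * Kb.c y' t ∈ Cf := by
          intro t
          rw [hyy]
          exact hfel y _ (Kb.step p' j) t
        have e1 : ∀ t s, (pth Kb g y t)⁻¹ * pth Kb g y' s =
            (((Kb.c y t)⁻¹ * Kb.c y' s : B) : G) := by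
          intro t s
          unfold pth
          rw [Subgroup.coe_mul, Subgroup.coe_inv]
          group
        have hcol := P.column (F := {x : G | wordLength S x ≤ Λ + Λ₁ + M₀ * Λ₁}) hF.one
          (fun g b b' h1 h2 h3 => hF.tri g b b' h1 h2 h3) (pth Kb g y) (pth Kb g y')
          (by unfold pth; rw [Kb.zero, Kb.zero])
          (fun t (_ : t ≤ M') => htime g y t h1 (hy j))
          (fun t (_ : t ≤ M') => htime g y' t h1 (hy (j + 1)))
          (fun t _ => by
            rw [hstep, Set.mem_ofPred_eq]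
            have := hb1 _ (Kb.step y t)
            omega)
          (fun t _ => by
            rw [hstep, Set.mem_ofPred_eq]
            have := hb1 _ (Kb.step y' t)
            omega)
          (fun t _ => by
            rw [e1, Set.mem_ofPred_eq]
            have := hb2 _ (hhor t)
            omega)
          (fun t _ => by
            rw [e1, Set.mem_ofPred_eq]
            have h5 : (Kb.c y t)⁻¹ * Kb.c y' (t + 1) ∈ Cf * Kb.S := by
              rw [Set.mem_mul]
              exact ⟨_, hhor t, _, Kb.step y' t, by group⟩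
            have := hb3 _ h5
            omega) M' le_rfl
        have e2 : pth Kb g y M' = g * (y : G) := by
          unfold pth
          rw [hend2 p p' j M' hp (by omega) le_rfl]
        have e3 : (pth Kb g y M')⁻¹ * pth Kb g y' M' =
            (((Kb.c p' j)⁻¹ * Kb.c p' (j + 1) : B) : G) := by
          rw [e1, hend2 p p' j M' hp (by omega) le_rfl, hend2 p p' (j + 1) M' hp hj le_rfl,
            ← hy1, ← hy2, hyy, inv_mul_cancel_left]
        rw [e3, e2] at hcol
        have e4 : g * (y : G) = pth Kb (g * p) p' j := by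
          unfold pth
          rw [hy1, Subgroup.coe_mul, mul_assoc]
        rw [e4] at hcol
        simp only [V]
        rw [hstep, ← mul_assoc (P.V c N (pth Kb g p) M')]
        apply ((ih'.mul_right _).trans hcol).mono
        apply le_of_eq; ring
    have h5 := key M le_rfl
    have e5 : Kb.c p' M = p' := hend p' J M hp' hM
    rw [e5] at h5
    have e6 : P.V c N (pth Kb g p) M' = P.V c N (pth Kb g p) (C₂ * (J + 1)) := by
      apply V_const hF _ (y := g * p) _ hMM'
      intro t ht
      unfold pth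
      rw [hend p J t hp ht]
    have e7 : P.V c N (pth Kb g p) M = P.V c N (pth Kb g p) (C₂ * (J + 1)) := by
      apply V_const hF _ (y := g * p) _ hM
      intro t ht
      unfold pth
      rw [hend p J t hp ht]
    have e8 : P.V c N (pth Kb g (p * p')) M' = P.V c N (pth Kb g (p * p')) (C₂ * (J + 1)) := by
      apply V_const hF _ (y := g * ((p * p' : B) : G)) _ hMM'
      intro t ht
      unfold pth
      rw [hend (p * p') J t hpp ht]
    have e9 : P.V c N (pth Kb g (p * p')) M = P.V c N (pth Kb g (p * p')) (C₂ * (J + 1)) := by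
      apply V_const hF _ (y := g * ((p * p' : B) : G)) _ hM
      intro t ht
      unfold pth
      rw [hend (p * p') J t hpp ht]
    rw [e6, ← e7, e8, ← e9] at h5
    exact h5

end Push

end Pda3a14
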