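import Pool.Agent.Lib.Pda3a14.RDefs

/-!
# Geodesics in graphs, walks avoiding a vertex, thin triangles
-/

namespace Pda3a14

open SimpleGraph

variable {V : Type*} {Γ : SimpleGraph V}

/-- There is a walk of length at most `L` from `x` to `y` which avoids `C`. -/
def Conn (Γ : SimpleGraph V) (C : V) (L : ℕ) (x y : V) : Prop :=
  ∃ w : Γ.Walk x y, w.length ≤ L ∧ C ∉ w.support

theorem Conn.refl {C x : V} (h : x ≠ C) : Conn Γ C 0 x x :=
  ⟨Walk.nil, le_rfl, by simpa using h.symm⟩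

theorem Conn.symm {C x y : V} {L : ℕ} (h : Conn Γ C L x y) : Conn Γ C L y x := by
  obtain ⟨w, h1, h2⟩ := h
  exact ⟨w.reverse, by simpa using h1, by simpa using h2⟩

theorem Conn.trans {C x y z : V} {L L' : ℕ} (h : Conn Γ C L x y) (h' : Conn Γ C L' y z) :
    Conn Γ C (L + L') x z := by
  obtain ⟨w, h1, h2⟩ := h
  obtain ⟨w', h1', h2'⟩ := h'
  refine ⟨w.append w', by rw [Walk.length_append]; omega, ?_⟩
  rw [Walk.mem_support_append_iff]
  tauto

theorem Conn.mono {C x y : V} {L L' : ℕ} (h : Conn Γ C L x y) (hL : L ≤ L') :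
    Conn Γ C L' x y := by
  obtain ⟨w, h1, h2⟩ := h
  exact ⟨w, h1.trans hL, h2⟩

theorem Conn.ne_left {C x y : V} {L : ℕ} (h : Conn Γ C L x y) : x ≠ C := by
  obtain ⟨w, h1, h2⟩ := h
  rintro rfl
  exact h2 w.start_mem_support

theorem Conn.of_adj {C x y : V} (h : Γ.Adj x y) (hx : x ≠ C) (hy : y ≠ C) : Conn Γ C 1 x y :=
  ⟨Walk.cons h Walk.nil, by simp, by simp [hx.symm, hy.symm]⟩

theorem Conn.dist_le {C x y : V} {L : ℕ} (h : Conn Γ C L x y) : Γ.dist x y ≤ L := by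
  obtain ⟨w, h1, _⟩ := h
  exact (SimpleGraph.dist_le w).trans h1

theorem conn_dist (hΓ : Γ.Connected) {C x y : V} (h : Γ.dist x y < Γ.dist x C) :
    Conn Γ C (Γ.dist x y) x y := by
  classical
  obtain ⟨w, hw⟩ := hΓ.exists_walk_length_eq_dist x y
  refine ⟨w, hw.le, fun hC => ?_⟩
  have h1 := SimpleGraph.dist_le (w.takeUntil C hC)
  have h2 := w.length_takeUntil_le_length hC
  omega

/-- `γ` is a geodesic on `[0, m]`. -/
def IsGeo (Γ : SimpleGraph V) (γ : ℕ → V) (m : ℕ) : Prop :=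
  ∀ i j, i ≤ j → j ≤ m → Γ.dist (γ i) (γ j) = j - i

variable {γ : ℕ → V} {m : ℕ}

theorem IsGeo.adj (h : IsGeo Γ γ m) {i : ℕ} (hi : i < m) : Γ.Adj (γ i) (γ (i + 1)) := by
  rw [← dist_eq_one_iff_adj, h i (i + 1) (by omega) hi]; omega

theorem IsGeo.take (h : IsGeo Γ γ m) {n : ℕ} (hn : n ≤ m) : IsGeo Γ γ n :=
  fun i j hij hj => h i j hij (hj.trans hn)

theorem IsGeo.shift (h : IsGeo Γ γ m) {s n : ℕ} (hn : s + n ≤ m) :
    IsGeo Γ (fun t => γ (s + t)) n := by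
  intro i j hij hj
  simp only
  rw [h (s + i) (s + j) (by omega) (by omega)]
  omega

theorem IsGeo.rev (h : IsGeo Γ γ m) : IsGeo Γ (fun t => γ (m - t)) m := by
  intro i j hij hj
  simp only
  rw [SimpleGraph.dist_comm, h (m - j) (m - i) (by omega) (by omega)]
  omega

theorem IsGeo.inj (h : IsGeo Γ γ m) {i j : ℕ} (hi : i ≤ m) (hj : j ≤ m)
    (hij : γ i = γ j) : i = j := by
  rcases le_total i j with h1 | h1
  · have := h i j h1 hj
    rw [hij, SimpleGraph.dist_self] at this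
    omega
  · have := h j i h1 hi
    rw [hij, SimpleGraph.dist_self] at this
    omega

theorem IsGeo.dist (h : IsGeo Γ γ m) {i j : ℕ} (hi : i ≤ m) (hj : j ≤ m) :
    Γ.dist (γ i) (γ j) = (i - j) + (j - i) := by
  rcases le_total i j with h1 | h1
  · rw [h i j h1 hj]; omega
  · rw [SimpleGraph.dist_comm, h j i h1 hi]; omega

theorem IsGeo.conn (h : IsGeo Γ γ m) {C : V} {i j : ℕ} (hij : i ≤ j) (hj : j ≤ m)
    (hC : ∀ t, i ≤ t → t ≤ j → γ t ≠ C) : Conn Γ C (j - i) (γ i) (γ j) := by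
  induction j, hij using Nat.le_induction with
  | base =>
    rw [Nat.sub_self]
    exact Conn.refl (hC i le_rfl le_rfl)
  | succ j hij ih =>
    have h1 := ih (by omega) (fun t ht ht' => hC t ht (by omega))
    have h2 := Conn.of_adj (h.adj (i := j) (by omega)) (hC j hij (by omega))
      (hC (j + 1) (by omega) le_rfl)
    exact (h1.trans h2).mono (by omega)

theorem IsGeo.conn' (h : IsGeo Γ γ m) {C : V} {i j : ℕ} (hi : i ≤ m) (hj : j ≤ m)
    (hC : ∀ t, min i j ≤ t → t ≤ max i j → γ t ≠ C) :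
    Conn Γ C ((i - j) + (j - i)) (γ i) (γ j) := by
  rcases le_total i j with h1 | h1
  · rw [min_eq_left h1, max_eq_right h1] at hC
    exact (h.conn h1 hj hC).mono (by omega)
  · rw [min_eq_right h1, max_eq_left h1] at hC
    exact (h.conn h1 hi hC).symm.mono (by omega)

theorem exists_geo (hΓ : Γ.Connected) (x y : V) :
    ∃ γ : ℕ → V, γ 0 = x ∧ γ (Γ.dist x y) = y ∧ IsGeo Γ γ (Γ.dist x y) := by
  obtain ⟨w, hw⟩ := hΓ.exists_walk_length_eq_dist x y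
  refine ⟨w.getVert, w.getVert_zero, by rw [← hw]; exact w.getVert_length, ?_⟩
  have hle : ∀ i j, i ≤ j → j ≤ w.length → Γ.dist (w.getVert i) (w.getVert j) ≤ j - i := by
    intro i j hij
    induction j, hij using Nat.le_induction with
    | base => intro _; rw [SimpleGraph.dist_self]; omega
    | succ j hij ih =>
      intro hj
      have h1 := ih (by omega)
      have h2 : Γ.dist (w.getVert j) (w.getVert (j + 1)) = 1 :=
        dist_eq_one_iff_adj.2 (w.adj_getVert_succ (by omega))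
      have h3 := hΓ.dist_triangle (u := w.getVert i) (v := w.getVert j) (w := w.getVert (j + 1))
      omega
  intro i j hij hj
  rw [← hw] at hj
  apply le_antisymm (hle i j hij hj)
  have h1 := hle 0 i (Nat.zero_le _) (hij.trans hj)
  have h2 := hle j w.length hj le_rfl
  rw [w.getVert_zero] at h1
  rw [w.getVert_length] at h2
  have h3 := hΓ.dist_triangle (u := x) (v := w.getVert i) (w := y)
  have h4 := hΓ.dist_triangle (u := w.getVert i) (v := w.getVert j) (w := y)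
  omega

/-- The four point condition. -/
def FourPt (Γ : SimpleGraph V) (δ : ℕ) : Prop := ∀ x y z w : V,
    Γ.dist x z + Γ.dist y w ≤
      max (Γ.dist x y + Γ.dist z w) (Γ.dist x w + Γ.dist y z) + δ

theorem gthin {δ : ℕ} (h4 : FourPt Γ δ) {x u v y w : V} {t : ℕ} (h1 : Γ.dist x u = t)
    (h2 : Γ.dist x v = t)
    (h3 : Γ.dist x y = t + Γ.dist v y) (h5 : Γ.dist x w = t + Γ.dist u w)
    (h6 : 2 * t + Γ.dist y w ≤ Γ.dist x y + Γ.dist x w) :
    Γ.dist u v ≤ 2 * δ := by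
  have a1 := h4 u w y x
  have a2 := h4 u y v x
  have c1 := Γ.dist_comm (u := w) (v := x)
  have c2 := Γ.dist_comm (u := y) (v := x)
  have c3 := Γ.dist_comm (u := u) (v := x)
  have c4 := Γ.dist_comm (u := w) (v := y)
  have c5 := Γ.dist_comm (u := v) (v := x)
  have c6 := Γ.dist_comm (u := y) (v := v)
  rw [c1, c2, c3, c4] at a1
  rw [c2, c3, c5, c6] at a2
  have m1 : max (Γ.dist u w + Γ.dist x y) (Γ.dist x u + Γ.dist y w) ≤
      Γ.dist x w + Γ.dist x y - t := by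
    apply max_le <;> omega
  have m2 : Γ.dist u y ≤ Γ.dist x y - t + δ := by omega
  have m3 : max (Γ.dist u y + Γ.dist x v) (Γ.dist x u + Γ.dist v y) ≤
      Γ.dist x y + δ := by
    apply max_le <;> omega
  omega

/-- Two geodesics from the same point are close before the Gromov product. -/
theorem cross {δ : ℕ} (h4 : FourPt Γ δ) {γ₁ γ₂ : ℕ → V} {m₁ m₂ : ℕ} (h1 : IsGeo Γ γ₁ m₁)
    (h2 : IsGeo Γ γ₂ m₂) (h0 : γ₁ 0 = γ₂ 0) {τ₁ τ₂ t : ℕ} (ht1 : t ≤ τ₁) (hτ1 : τ₁ ≤ m₁)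
    (ht2 : t ≤ τ₂) (hτ2 : τ₂ ≤ m₂) (h : 2 * t + Γ.dist (γ₁ τ₁) (γ₂ τ₂) ≤ τ₁ + τ₂) :
    Γ.dist (γ₁ t) (γ₂ t) ≤ 2 * δ := by
  have c := Γ.dist_comm (u := γ₂ τ₂) (v := γ₁ τ₁)
  apply gthin h4 (x := γ₁ 0) (t := t) (y := γ₂ τ₂) (w := γ₁ τ₁)
  · rw [h1 0 t (Nat.zero_le _) (by omega)]; omega
  · rw [h0, h2 0 t (Nat.zero_le _) (by omega)]; omega
  · rw [h0, h2 0 τ₂ (Nat.zero_le _) hτ2, h2 t τ₂ ht2 hτ2]; omega
  · rw [h1 0 τ₁ (Nat.zero_le _) hτ1, h1 t τ₁ ht1 hτ1]; omega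
  · rw [h1 0 τ₁ (Nat.zero_le _) hτ1]
    rw [h0, h2 0 τ₂ (Nat.zero_le _) hτ2, c]; omega

/-- Slim triangles. -/
theorem gslim (hΓ : Γ.Connected) {δ : ℕ} (h4 : FourPt Γ δ) {p q₁ q₂ : ℕ → V} {m m₁ m₂ : ℕ}
    (hp : IsGeo Γ p m) (h1 : IsGeo Γ q₁ m₁) (h2 : IsGeo Γ q₂ m₂) (h0 : q₁ 0 = q₂ 0)
    (hx : q₁ m₁ = p 0) (hz : q₂ m₂ = p m) {i : ℕ} (hi : i ≤ m) :
    (∃ t ≤ m₁, Γ.dist (p i) (q₁ t) ≤ 2 * δ) ∨ (∃ t ≤ m₂, Γ.dist (p i) (q₂ t) ≤ 2 * δ) := by
  have e1 : Γ.dist (q₁ 0) (p 0) = m₁ := by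
    rw [← hx, h1 0 m₁ (Nat.zero_le _) le_rfl]; omega
  have e2 : Γ.dist (q₁ 0) (p m) = m₂ := by
    rw [← hz, h0, h2 0 m₂ (Nat.zero_le _) le_rfl]; omega
  have e3 : Γ.dist (p 0) (p m) = m := by rw [hp 0 m (Nat.zero_le _) le_rfl]; omega
  have t1 := hΓ.dist_triangle (u := p 0) (v := q₁ 0) (w := p m)
  have c1 := Γ.dist_comm (u := p 0) (v := q₁ 0)
  have t2 := hΓ.dist_triangle (u := q₁ 0) (v := p 0) (w := p m)
  have t3 := hΓ.dist_triangle (u := q₁ 0) (v := p m) (w := p 0)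
  have c2 := Γ.dist_comm (u := p m) (v := p 0)
  have c3 := Γ.dist_comm (u := p m) (v := q₁ 0)
  by_cases hc : 2 * i + m₂ ≤ m + m₁
  · left
    refine ⟨m₁ - i, by omega, ?_⟩
    have := cross h4 hp h1.rev (by rw [Nat.sub_zero, hx]) (τ₁ := m) (τ₂ := m₁) (t := i)
      hi le_rfl (by omega) le_rfl (by rw [Nat.sub_self]; omega)
    exact this
  · right
    refine ⟨m₂ - (m - i), by omega, ?_⟩
    have := cross h4 hp.rev h2.rev (by rw [Nat.sub_zero, Nat.sub_zero, hz]) (τ₁ := m)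
      (τ₂ := m₂) (t := m - i) (by omega) le_rfl (by omega) le_rfl (by
        rw [Nat.sub_self, Nat.sub_self, ← h0]; omega)
    rw [show m - (m - i) = i by omega] at this
    exact this

end Pda3a14
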