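import Pool.Agent.Lib.Pda3a14.RCell

/-!
# Ladders of geodesic words and filling of triangles
-/

namespace Pda3a14

open SimpleGraph

variable {G : Type*} [Group G] {ι : Type*} {α : Type*} {S : Finset G} {A : ι → Subgroup G}
variable {R : Set (FreeGroup α)} {mv : G → Option ι × G → FreeGroup α} {ok : G → Prop}
  {m Λ J : ℕ}

theorem allV_iff {Vs : G → Prop} {x : G} {W : List (Option ι × G)} :
    AllV Vs x W ↔ ∀ k ≤ W.length, Vs (vt x W k) := by
  induction W generalizing x with
  | nil =>
    simp only [AllV, List.length_nil, Nat.le_zero, forall_eq, vt_zero]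
  | cons e W ih =>
    simp only [AllV]
    rw [ih]
    constructor
    · rintro ⟨h1, h2⟩ k hk
      rcases k with _ | k
      · rw [vt_zero]; exact h1
      · have := h2 k (by rw [List.length_cons] at hk; omega)
        unfold vt at this ⊢
        rw [List.take_succ_cons, prd_cons, ← mul_assoc]
        exact this
    · intro h
      refine ⟨by have := h 0 (Nat.zero_le _); rwa [vt_zero] at this, fun k hk => ?_⟩
      have := h (k + 1) (by rw [List.length_cons]; omega)
      unfold vt at this ⊢
      rw [List.take_succ_cons, prd_cons, ← mul_assoc] at this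
      exact this

theorem allV_dist (hS : Subgroup.closure (S : Set G) = ⊤) {base : G} {J₁ : ℕ}
    (W : List (Option ι × G)) : ∀ (g : G) (d₀ : ℕ), wordDist S base g ≤ d₀ →
      (∀ e ∈ W, wordLength S e.2 ≤ J₁) → AllV ok g W →
      AllV (fun v => ok v ∧ wordDist S base v ≤ d₀ + W.length * J₁) g W := by
  induction W with
  | nil =>
    intro g d₀ hd _ hok
    exact ⟨hok, by simpa using hd⟩
  | cons e W ih =>
    intro g d₀ hd hm hok
    refine ⟨⟨hok.1, by omega⟩, ?_⟩
    have h1 : wordDist S base (g * e.2) ≤ d₀ + J₁ := by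
      have h2 := wordDist_triangle hS base g (g * e.2)
      have h3 : wordDist S g (g * e.2) = wordLength S e.2 := by
        unfold wordDist; rw [inv_mul_cancel_left]
      have h4 := hm e (by simp)
      omega
    apply (ih (g * e.2) (d₀ + J₁) h1 (fun e' he' => hm e' (by simp [he'])) hok.2).imp
    rintro v ⟨h2, h3⟩
    refine ⟨h2, h3.trans ?_⟩
    rw [List.length_cons]
    apply le_of_eq; ring


theorem dist_of_single {x y : G} {e : Option ι × G} (h : IsWd S A x y [e]) :
    (coned S A).dist (Sum.inl x) (Sum.inl y) ≤ 2 := by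
  obtain ⟨γ, T, tr⟩ := h
  have h1 := tr.geo 0 (T 1) (Nat.zero_le _) le_rfl
  have h2 := tr.first
  have h3 := tr.last
  simp only [List.length_singleton] at h3
  rw [h2, h3] at h1
  have h4 := (tr.step (k := 0) (by simp)).2
  rw [tr.zero] at h4
  simp only [zero_add] at h4
  omega

theorem index_plus (hS : Subgroup.closure (S : Set G) = ⊤) {x w w' : G}
    {Aw : List (Option ι × G)} {e : Option ι × G} (hA : IsWd S A x w Aw)
    (he : IsWd S A w w' [e]) {a b : ℕ} (hab : a ≤ b) (hb : b ≤ (Aw ++ [e]).length) :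
    b - a ≤ (coned S A).dist (Sum.inl (vt x (Aw ++ [e]) a)) (Sum.inl (vt x (Aw ++ [e]) b)) + 3 := by
  rw [List.length_append, List.length_singleton] at hb
  rcases Nat.lt_or_ge Aw.length b with h | h
  · rcases Nat.lt_or_ge Aw.length a with h' | h'
    · omega
    · have hb' : b = Aw.length + 1 := by omega
      have e1 : vt x (Aw ++ [e]) b = w' := by
        rw [vt_of_le (by simp; omega), prd_append, ← mul_assoc, hA.prd, he.prd]
      rw [e1, vt_append_left h']
      have h1 := hA.index h' le_rfl
      rw [hA.fin] at h1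
      have h2 := dist_of_single he
      have h3 := (coned_connected (A := A) hS).dist_triangle (u := Sum.inl (vt x Aw a))
        (v := Sum.inl w') (w := Sum.inl w)
      have h4 := (coned S A).dist_comm (u := Sum.inl w') (v := Sum.inl w)
      omega
  · rw [vt_append_left (by omega), vt_append_left h]
    have := hA.index hab h
    omega

theorem Psi_take_succ {x : G} {W : List (Option ι × G)} {k : ℕ} {e : Option ι × G}
    (h : W[k]? = some e) :
    Psi mv x (W.take (k + 1)) = Psi mv x (W.take k) * mv (vt x W k) e := by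
  rw [List.take_add_one, h, Option.toList_some, Psi_append]
  simp [Psi, vt]

/-- Sliding along a list of moves. -/
theorem slide (hF : RFill R S A mv ok m Λ J) (hS : Subgroup.closure (S : Set G) = ⊤)
    {f : ℕ → ℕ} (hiso : ∀ (L : ℕ) (i : ι) (a b : G), a⁻¹ * b ∈ A i →
      Conn (coned S A) (cone A i a) L (Sum.inl a) (Sum.inl b) → wordDist S a b ≤ f L)
    {ν lam Jm : ℕ} (hlam : ν ≤ lam)
    (hΛ : (4 * ν + 14 + 1) * lams f (4 * ν + 14) lam (4 * ν + 14) ≤ Λ)
    (hJ : 2 * ((4 * ν + 14) * (Jm + ν)) ≤ J)
    {x : G} {Ap : List (Option ι × G)} (hokA : AllV ok x Ap) (hMA : Mok S A lam Ap)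
    (hmA : ∀ e ∈ Ap, wordLength S e.2 ≤ Jm)
    (hind : ∀ a b, a ≤ b → b ≤ Ap.length → b - a ≤
      (coned S A).dist (Sum.inl (vt x Ap a)) (Sum.inl (vt x Ap b)) + 3)
    {b b' : G} (U : List (Option ι × G)) (hU : U.length ≤ 1) (hUb : b * prd U = b')
    (hUd : (coned S A).dist (Sum.inl b) (Sum.inl b') ≤ 2)
    (hMU : Mok S A lam U) (hmU : ∀ e ∈ U, wordLength S e.2 ≤ Jm) (hokU : AllV ok b U)
    {τ τ' : ℕ} (hτ : τ ≤ Ap.length) (hτ' : τ' ≤ Ap.length)
    (hb : wordDist S b (vt x Ap τ) ≤ ν) (hb' : wordDist S b' (vt x Ap τ') ≤ ν) :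
    Near R (2 * (cc (4 * ν + 14) (4 * ν + 14) * m))
      (Psi mv x (Ap.take τ) * (mv (vt x Ap τ) (none, (vt x Ap τ)⁻¹ * b) * Psi mv b U))
      (Psi mv x (Ap.take τ') * mv (vt x Ap τ') (none, (vt x Ap τ')⁻¹ * b')) := by
  set g := vt x Ap τ with hg
  set g' := vt x Ap τ' with hg'
  set L₀ := 4 * ν + 14 with hL₀
  have hΓ := coned_connected (A := A) hS
  have hgg : (coned S A).dist (Sum.inl g) (Sum.inl g') ≤ 2 * ν + 2 := by
    have t1 := hΓ.dist_triangle (u := Sum.inl g) (v := Sum.inl b) (w := Sum.inl g')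
    have t2 := hΓ.dist_triangle (u := Sum.inl b) (v := Sum.inl b') (w := Sum.inl g')
    have t3 := dist_le_word (A := A) hS b g
    have t4 := dist_le_word (A := A) hS b' g'
    have t5 := (coned S A).dist_comm (u := Sum.inl b) (v := Sum.inl g)
    omega
  have hgb : wordLength S (g⁻¹ * b) ≤ ν := by
    have := wordDist_comm hS b g
    unfold wordDist at this hb
    rw [← this]; exact hb
  have hgb' : wordLength S (g'⁻¹ * b') ≤ ν := by
    have := wordDist_comm hS b' g'
    unfold wordDist at this hb'
    rw [← this]; exact hb'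
  have hokb : ok b := hokU.head
  have hokb' : ok b' := by rw [← hUb]; exact hokU.last
  have hoktake : ∀ s t, s ≤ t → t ≤ Ap.length → AllV ok (vt x Ap s) ((Ap.take t).drop s) ∧
      Ap.take t = Ap.take s ++ (Ap.take t).drop s ∧
      vt x Ap s * prd ((Ap.take t).drop s) = vt x Ap t := by
    intro s t hst ht
    have e1 : Ap.take t = Ap.take s ++ (Ap.take t).drop s := by
      conv_lhs => rw [← List.take_append_drop s (Ap.take t)]
      rw [List.take_take, min_eq_left hst]
    have e2 : Ap = Ap.take s ++ ((Ap.take t).drop s ++ Ap.drop t) := by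
      rw [← List.append_assoc, ← e1, List.take_append_drop]
    have h1 := hokA
    rw [e2, allV_append, allV_append] at h1
    refine ⟨h1.2.1, e1, ?_⟩
    unfold vt
    conv_rhs => rw [e1, prd_append]
    rw [mul_assoc]
  have hokg : ok g := (allV_iff.1 hokA) τ hτ
  have hokg' : ok g' := (allV_iff.1 hokA) τ' hτ'
  have hmem : ∀ s t, ∀ e ∈ (Ap.take t).drop s, e ∈ Ap := by
    intro s t e he
    exact List.mem_of_mem_take (List.mem_of_mem_drop he)
  -- the set of vertices
  have hVd : ∀ base v w : G, (ok v ∧ wordDist S base v ≤ L₀ * (Jm + ν)) →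
      (ok w ∧ wordDist S base w ≤ L₀ * (Jm + ν)) → wordDist S v w ≤ J := by
    rintro base v w ⟨_, h1⟩ ⟨_, h2⟩
    have h3 := wordDist_triangle hS v base w
    have h4 := wordDist_comm hS v base
    omega
  have hAll : ∀ (base : G) (W : List (Option ι × G)), W.length ≤ L₀ →
      (∀ e ∈ W, wordLength S e.2 ≤ Jm + ν) → AllV ok base W →
      AllV (fun v => ok v ∧ wordDist S base v ≤ L₀ * (Jm + ν)) base W := by
    intro base W hW hm hok
    apply (allV_dist hS W base 0 (by rw [wordDist_self]) hm hok).imp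
    rintro v ⟨h1, h2⟩
    refine ⟨h1, h2.trans ?_⟩
    rw [zero_add]
    exact Nat.mul_le_mul_right _ hW
  have hpathU : AllV ok g ((none, g⁻¹ * b) :: U) := by
    refine ⟨hokg, ?_⟩
    simp only
    rw [mul_inv_cancel_left]
    exact hokU
  have hMpU : Mok S A lam ((none, g⁻¹ * b) :: U) := by
    rw [mok_cons]
    exact ⟨⟨fun _ => hgb.trans hlam, fun i hi => by simp at hi⟩, hMU⟩
  have hmpU : ∀ e ∈ ((none, g⁻¹ * b) : Option ι × G) :: U, wordLength S e.2 ≤ Jm + ν := by
    intro e he
    rw [List.mem_cons] at he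
    rcases he with rfl | he
    · simp only; omega
    · exact (hmU e he).trans (by omega)
  have hM1 : Mok S A lam [((none, g'⁻¹ * b') : Option ι × G)] := by
    rw [mok_cons]
    exact ⟨⟨fun _ => hgb'.trans hlam, fun i hi => by simp at hi⟩, mok_nil⟩
  have hV1 : AllV ok g' [((none, g'⁻¹ * b') : Option ι × G)] := by
    refine ⟨hokg', ?_⟩
    simp only [AllV]
    rw [mul_inv_cancel_left]; exact hokb'
  rcases le_total τ τ' with h | h
  · obtain ⟨s1, s2, s3⟩ := hoktake τ τ' h hτ'
    have hseg : ((Ap.take τ').drop τ).length ≤ 2 * ν + 5 := by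
      have := hind τ τ' h hτ'
      rw [← hg, ← hg'] at this
      simp only [List.length_drop, List.length_take]
      omega
    rw [← hg, ← hg'] at s3
    rw [← hg] at s1
    have key := cell_pair hF hS hiso (L₀ := L₀) (lam := lam) hΛ
      (Vs := fun v => ok v ∧ wordDist S g v ≤ L₀ * (Jm + ν)) (fun v hv => hv.1)
      (fun v w hv hw => hVd g v w hv hw) g ((none, g⁻¹ * b) :: U)
      ((Ap.take τ').drop τ ++ [(none, g'⁻¹ * b')])
      (by rw [List.length_cons, List.length_append, List.length_singleton]; omega)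
      (by rw [List.length_append, List.length_singleton]; omega)
      hMpU (by
        rw [mok_append]
        exact ⟨fun e he => hMA e (hmem _ _ e he), hM1⟩)
      (hAll g _ (by rw [List.length_cons]; omega) hmpU hpathU)
      (hAll g _ (by rw [List.length_append, List.length_singleton]; omega) (by
        intro e he
        rcases List.mem_append.1 he with he | he
        · exact (hmA e (hmem _ _ e he)).trans (by omega)
        · rw [List.mem_singleton] at he
          rw [he]; simp only; omega) (by
        rw [allV_append]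
        refine ⟨s1, ?_⟩
        rw [s3]
        exact hV1))
      (by
        rw [prd_cons, prd_append, prd_cons, prd_nil, mul_one]
        simp only
        have e1 : prd ((Ap.take τ').drop τ) = g⁻¹ * g' := by rw [← s3]; group
        rw [e1, mul_assoc, hUb]
        group)
    rw [Psi_append, s3] at key
    simp only [Psi, mul_one] at key
    rw [mul_inv_cancel_left] at key
    rw [s2, Psi_append]
    have e3 : x * prd (Ap.take τ) = g := rfl
    rw [e3, mul_assoc]
    exact key.mul_left _
  · obtain ⟨s1, s2, s3⟩ := hoktake τ' τ h hτ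
    have hseg : ((Ap.take τ).drop τ').length ≤ 2 * ν + 5 := by
      have := hind τ' τ h hτ
      rw [← hg, ← hg'] at this
      have c := (coned S A).dist_comm (u := Sum.inl g') (v := Sum.inl g)
      simp only [List.length_drop, List.length_take]
      omega
    rw [← hg, ← hg'] at s3
    rw [← hg'] at s1
    have key := cell_pair hF hS hiso (L₀ := L₀) (lam := lam) hΛ
      (Vs := fun v => ok v ∧ wordDist S g' v ≤ L₀ * (Jm + ν)) (fun v hv => hv.1)
      (fun v w hv hw => hVd g' v w hv hw) g' ((Ap.take τ).drop τ' ++ ((none, g⁻¹ * b) :: U))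
      [(none, g'⁻¹ * b')]
      (by rw [List.length_append, List.length_cons, List.length_singleton]; omega)
      (by rw [List.length_singleton]; omega)
      (by
        rw [mok_append]
        exact ⟨fun e he => hMA e (hmem _ _ e he), hMpU⟩) hM1
      (hAll g' _ (by rw [List.length_append, List.length_cons]; omega) (by
        intro e he
        rcases List.mem_append.1 he with he | he
        · exact (hmA e (hmem _ _ e he)).trans (by omega)
        · exact hmpU e he) (by
        rw [allV_append]
        refine ⟨s1, ?_⟩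
        rw [s3]
        exact hpathU))
      (hAll g' _ (by rw [List.length_singleton]; omega) (by
        intro e he
        rw [List.mem_singleton] at he
        rw [he]; simp only; omega) hV1)
      (by
        rw [prd_append, prd_cons, prd_cons, prd_nil, mul_one]
        simp only
        have e1 : prd ((Ap.take τ).drop τ') = g'⁻¹ * g := by rw [← s3]; group
        rw [e1, mul_assoc, mul_assoc g⁻¹, hUb]
        group)
    rw [Psi_append, s3] at key
    simp only [Psi, mul_one] at key
    rw [mul_inv_cancel_left] at key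
    rw [s2, Psi_append]
    have e3 : x * prd (Ap.take τ') = g' := rfl
    rw [e3, mul_assoc]
    exact key.mul_left _

/-- The ladder between the geodesic words to `w` and to `w'`. -/
theorem ladder (hF : RFill R S A mv ok m Λ J) (hS : Subgroup.closure (S : Set G) = ⊤)
    {f : ℕ → ℕ} (hiso : ∀ (L : ℕ) (i : ι) (a b : G), a⁻¹ * b ∈ A i →
      Conn (coned S A) (cone A i a) L (Sum.inl a) (Sum.inl b) → wordDist S a b ≤ f L)
    {ν lam Jm : ℕ} (hlam : ν ≤ lam)
    (hν : ∀ (x y z : G) (Wp W₁ W₂ : List (Option ι × G)), IsWd S A x z Wp →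
      IsWd S A x y W₁ → IsWd S A y z W₂ → ∀ k ≤ Wp.length,
      (∃ j ≤ W₁.length, wordDist S (vt x Wp k) (vt x W₁ j) ≤ ν) ∨
      (∃ j ≤ W₂.length, wordDist S (vt x Wp k) (vt y W₂ j) ≤ ν))
    (hΛ : (4 * ν + 14 + 1) * lams f (4 * ν + 14) lam (4 * ν + 14) ≤ Λ)
    (hJ : 2 * ((4 * ν + 14) * (Jm + ν)) ≤ J)
    {x w w' : G} {Aw Bw : List (Option ι × G)} {e : Option ι × G} (hA : IsWd S A x w Aw)
    (hB : IsWd S A x w' Bw) (he : IsWd S A w w' [e])
    (hokA : AllV ok x (Aw ++ [e])) (hokB : AllV ok x Bw)
    (hMA : Mok S A lam (Aw ++ [e])) (hMB : Mok S A lam Bw)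
    (hmA : ∀ e' ∈ Aw ++ [e], wordLength S e'.2 ≤ Jm) (hmB : ∀ e' ∈ Bw, wordLength S e'.2 ≤ Jm) :
    Near R ((Bw.length + 1) * (2 * (cc (4 * ν + 14) (4 * ν + 14) * m)))
      (Psi mv x Aw * mv w e) (Psi mv x Bw) := by
  set c := 2 * (cc (4 * ν + 14) (4 * ν + 14) * m) with hc
  set Ap := Aw ++ [e] with hAp
  have hApl : Ap.length = Aw.length + 1 := by simp [hAp]
  have hind : ∀ a b, a ≤ b → b ≤ Ap.length → b - a ≤
      (coned S A).dist (Sum.inl (vt x Ap a)) (Sum.inl (vt x Ap b)) + 3 :=
    fun a b hab hb => index_plus hS hA he hab hb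
  have hApend : vt x Ap Ap.length = w' := by
    rw [vt_of_le le_rfl, hAp, prd_append, ← mul_assoc, hA.prd, he.prd]
  -- closeness
  have hclose : ∀ k ≤ Bw.length, ∃ τ ≤ Ap.length, wordDist S (vt x Bw k) (vt x Ap τ) ≤ ν := by
    intro k hk
    rcases hν x w w' Bw Aw [e] hB hA he k hk with ⟨j, hj, hd⟩ | ⟨j, hj, hd⟩
    · refine ⟨j, by omega, ?_⟩
      rw [hAp, vt_append_left hj]; exact hd
    · simp only [List.length_singleton] at hj
      rcases Nat.le_one_iff_eq_zero_or_eq_one.1 hj with rfl | rfl
      · refine ⟨Aw.length, by omega, ?_⟩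
        rw [hAp, vt_append_left le_rfl, hA.fin]
        rwa [vt_zero] at hd
      · refine ⟨Ap.length, le_rfl, ?_⟩
        have e2 : vt w [e] 1 = w' := by
          rw [vt_of_le (by simp), he.prd]
        rw [hApend]
        rw [e2] at hd
        exact hd
  have main : ∀ k ≤ Bw.length, ∀ τ ≤ Ap.length, wordDist S (vt x Bw k) (vt x Ap τ) ≤ ν →
      Near R ((k + 1) * c) (Psi mv x (Bw.take k))
        (Psi mv x (Ap.take τ) * mv (vt x Ap τ) (none, (vt x Ap τ)⁻¹ * vt x Bw k)) := by
    intro k
    induction k with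
    | zero =>
      intro _ τ hτ hd
      rw [vt_zero] at hd ⊢
      have hokx : ok x := hokB.head
      have h1 := slide hF hS hiso hlam hΛ hJ hokA hMA hmA hind (b := x) (b' := x) []
        (by simp) (by simp) (by rw [SimpleGraph.dist_self]; omega) mok_nil (by simp) hokx
        (τ := 0) (τ' := τ) (Nat.zero_le _) hτ (by rw [vt_zero, wordDist_self]; omega) hd
      rw [vt_zero, inv_mul_cancel, hF.one] at h1
      simp only [Psi, List.take_zero, mul_one] at h1 ⊢
      exact h1.mono (by rw [hc]; omega)
    | succ k ih =>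
      intro hk τ' hτ' hd'
      obtain ⟨τ, hτ, hd⟩ := hclose k (by omega)
      have h1 := ih (by omega) τ hτ hd
      have hget : Bw[k]? = some Bw[k] := List.getElem?_eq_getElem (by omega)
      set e' := Bw[k] with he'
      have hmem : e' ∈ Bw := List.getElem_mem _
      have hsing := hB.single hget
      have hv := vt_succ (x := x) hget
      have h2 := slide hF hS hiso hlam hΛ hJ hokA hMA hmA hind (b := vt x Bw k)
        (b' := vt x Bw (k + 1)) [e'] (by simp) (by rw [hv]; simp) (dist_of_single hsing)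
        (fun e'' he'' => hMB e'' (by rw [List.mem_singleton] at he''; rw [he'']; exact hmem))
        (fun e'' he'' => hmB e'' (by rw [List.mem_singleton] at he''; rw [he'']; exact hmem))
        (by
          refine ⟨(allV_iff.1 hokB) k (by omega), ?_⟩
          simp only [AllV]
          rw [← hv]
          exact (allV_iff.1 hokB) (k + 1) hk) hτ hτ' hd hd'
      simp only [Psi, mul_one] at h2
      rw [← mul_assoc (Psi mv x (Ap.take τ))] at h2
      rw [Psi_take_succ hget]
      apply ((h1.mul_right (mv (vt x Bw k) e')).trans h2).mono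
      rw [← hc]
      apply le_of_eq; ring
  have hfin := main Bw.length le_rfl Ap.length le_rfl (by
    rw [hApend, hB.fin, wordDist_self]; exact Nat.zero_le _)
  rw [hApend, hB.fin, inv_mul_cancel, hF.one, mul_one, List.take_length, List.take_length] at hfin
  have e1 : Psi mv x Ap = Psi mv x Aw * mv w e := by
    rw [hAp, Psi_append, hA.prd]
    simp [Psi]
  rw [← e1]
  exact hfin.symm

/-- **Filling a triangle.** -/
theorem rtriangle (hF : RFill R S A mv ok m Λ J) (hS : Subgroup.closure (S : Set G) = ⊤)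
    {f : ℕ → ℕ} (hiso : ∀ (L : ℕ) (i : ι) (a b : G), a⁻¹ * b ∈ A i →
      Conn (coned S A) (cone A i a) L (Sum.inl a) (Sum.inl b) → wordDist S a b ≤ f L)
    {ν lam Jm M : ℕ} (hlam : ν ≤ lam) (hlam1 : 1 ≤ lam)
    (hν : ∀ (x y z : G) (Wp W₁ W₂ : List (Option ι × G)), IsWd S A x z Wp →
      IsWd S A x y W₁ → IsWd S A y z W₂ → ∀ k ≤ Wp.length,
      (∃ j ≤ W₁.length, wordDist S (vt x Wp k) (vt x W₁ j) ≤ ν) ∨
      (∃ j ≤ W₂.length, wordDist S (vt x Wp k) (vt y W₂ j) ≤ ν))
    (hΛ : (4 * ν + 14 + 1) * lams f (4 * ν + 14) lam (4 * ν + 14) ≤ Λ)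
    (hJ : 2 * ((4 * ν + 14) * (Jm + ν)) ≤ J)
    {Wc : G → G → List (Option ι × G)} (hWc : ∀ x y, IsWd S A x y (Wc x y))
    (hMW : ∀ x y, Mok S A lam (Wc x y))
    {ok₀ : G → Prop} (hok₀ : ∀ u v, ok₀ v → wordDist S u v ≤ ν → ok u)
    (x y z : G) (hxy : AllV ok₀ x (Wc x y)) (hyz : AllV ok₀ y (Wc y z))
    (hmv : ∀ i ≤ (Wc y z).length, (∀ e ∈ Wc x (vt y (Wc y z) i), wordLength S e.2 ≤ Jm) ∧
      (Wc x (vt y (Wc y z) i)).length + 1 ≤ M)
    (hmv' : ∀ e ∈ Wc y z, wordLength S e.2 ≤ Jm) (hM : (Wc y z).length ≤ M) :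
    AllV ok x (Wc x z) ∧
    Near R (M * (M * (2 * (cc (4 * ν + 14) (4 * ν + 14) * m))))
      (Psi mv x (Wc x y) * Psi mv y (Wc y z)) (Psi mv x (Wc x z)) := by
  set c := 2 * (cc (4 * ν + 14) (4 * ν + 14) * m) with hc
  have hok : ∀ i ≤ (Wc y z).length, AllV ok x (Wc x (vt y (Wc y z) i)) := by
    intro i hi
    rw [allV_iff]
    intro k hk
    have hsub := (hWc y z).sub (Nat.zero_le i) hi
    rw [vt_zero, List.drop_zero] at hsub
    rcases hν x y (vt y (Wc y z) i) _ _ _ (hWc x _) (hWc x y) hsub k hk with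
      ⟨j, hj, hd⟩ | ⟨j, hj, hd⟩
    · exact hok₀ _ _ ((allV_iff.1 hxy) j hj) hd
    · have hji : j ≤ i := by
        rw [List.length_take] at hj; omega
      rw [vt_take hji] at hd
      exact hok₀ _ _ ((allV_iff.1 hyz) j (by omega)) hd
  have hok' : ∀ i ≤ (Wc y z).length, ok (vt y (Wc y z) i) := by
    intro i hi
    exact hok₀ _ _ ((allV_iff.1 hyz) i hi) (by rw [wordDist_self]; exact Nat.zero_le _)
  have main : ∀ i ≤ (Wc y z).length, Near R (i * (M * c))
      (Psi mv x (Wc x y) * Psi mv y ((Wc y z).take i)) (Psi mv x (Wc x (vt y (Wc y z) i))) := by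
    intro i
    induction i with
    | zero =>
      intro _
      rw [vt_zero, List.take_zero]
      simp only [Psi, mul_one]
      exact (Near.refl _).mono (Nat.zero_le _)
    | succ i ih =>
      intro hi
      have h1 := ih (by omega)
      have hget : (Wc y z)[i]? = some (Wc y z)[i] := List.getElem?_eq_getElem (by omega)
      set e := (Wc y z)[i] with he
      have hmem : e ∈ Wc y z := List.getElem_mem _
      have hsing := (hWc y z).single hget
      have hv := vt_succ (x := y) hget
      have h2 := ladder hF hS hiso hlam hν hΛ hJ (hWc x (vt y (Wc y z) i))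
        (hWc x (vt y (Wc y z) (i + 1))) hsing
        (by
          rw [allV_append]
          refine ⟨hok i (by omega), ?_⟩
          rw [(hWc x _).prd]
          refine ⟨hok' i (by omega), ?_⟩
          simp only [AllV]
          rw [← hv]; exact hok' (i + 1) hi)
        (hok (i + 1) hi)
        (by
          rw [mok_append]
          refine ⟨hMW _ _, fun e' he' => ?_⟩
          rw [List.mem_singleton] at he'
          rw [he']
          exact hMW y z e hmem) (hMW _ _)
        (by
          intro e' he'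
          rcases List.mem_append.1 he' with h | h
          · exact (hmv i (by omega)).1 e' h
          · rw [List.mem_singleton] at h
            rw [h]; exact hmv' e hmem)
        (hmv (i + 1) hi).1
      rw [Psi_take_succ hget, ← mul_assoc (Psi mv x (Wc x y))]
      apply ((h1.mul_right (mv (vt y (Wc y z) i) e)).trans h2).mono
      have h3 := Nat.mul_le_mul_right c (hmv (i + 1) hi).2
      rw [← hc]
      calc i * (M * c) + ((Wc x (vt y (Wc y z) (i + 1))).length + 1) * c
          ≤ i * (M * c) + M * c := Nat.add_le_add_left h3 _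
        _ = (i + 1) * (M * c) := by ring
  have hend := main (Wc y z).length le_rfl
  have h5 := hok (Wc y z).length le_rfl
  rw [(hWc y z).fin] at hend h5
  rw [List.take_length] at hend
  exact ⟨h5, hend.mono (Nat.mul_le_mul_right _ hM)⟩

end Pda3a14
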