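import Pool.Agent.Lib.Pda3a14.RDyad
import Pool.Agent.Lib.Pda3a14.RCoord
import Pool.Agent.Lib.Pda3a14.HypPoly

/-!
# The polynomial bound in relatively hyperbolic groups
-/

set_option linter.unusedSectionVars false

namespace Pda3a14

open SimpleGraph

section PolyB

/-- Polynomially bounded functions. -/
def PolyB (f : ℕ → ℕ) : Prop := ∃ E e : ℕ, ∀ n, f n ≤ E * (n + 1) ^ e

theorem PolyB.const (c : ℕ) : PolyB fun _ => c := ⟨c, 0, fun n => by simp⟩

theorem PolyB.id : PolyB fun n => n := ⟨1, 1, fun n => by simp⟩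

theorem PolyB.mono {f g : ℕ → ℕ} (hg : PolyB g) (h : ∀ n, f n ≤ g n) : PolyB f := by
  obtain ⟨E, e, hE⟩ := hg
  exact ⟨E, e, fun n => (h n).trans (hE n)⟩

theorem PolyB.add {f g : ℕ → ℕ} (hf : PolyB f) (hg : PolyB g) : PolyB fun n => f n + g n := by
  obtain ⟨E, e, hE⟩ := hf
  obtain ⟨E', e', hE'⟩ := hg
  refine ⟨E + E', e + e', fun n => ?_⟩
  have h1 : (n + 1) ^ e ≤ (n + 1) ^ (e + e') := Nat.pow_le_pow_right (by omega) (by omega)
  have h2 : (n + 1) ^ e' ≤ (n + 1) ^ (e + e') := Nat.pow_le_pow_right (by omega) (by omega)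
  calc f n + g n ≤ E * (n + 1) ^ e + E' * (n + 1) ^ e' := Nat.add_le_add (hE n) (hE' n)
    _ ≤ E * (n + 1) ^ (e + e') + E' * (n + 1) ^ (e + e') :=
        Nat.add_le_add (Nat.mul_le_mul_left _ h1) (Nat.mul_le_mul_left _ h2)
    _ = (E + E') * (n + 1) ^ (e + e') := by ring

theorem PolyB.mul {f g : ℕ → ℕ} (hf : PolyB f) (hg : PolyB g) : PolyB fun n => f n * g n := by
  obtain ⟨E, e, hE⟩ := hf
  obtain ⟨E', e', hE'⟩ := hg
  refine ⟨E * E', e + e', fun n => ?_⟩
  calc f n * g n ≤ (E * (n + 1) ^ e) * (E' * (n + 1) ^ e') := Nat.mul_le_mul (hE n) (hE' n)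
    _ = E * E' * (n + 1) ^ (e + e') := by rw [pow_add]; ring

theorem two_pow_clog (n : ℕ) : 2 ^ Nat.clog 2 (n + 1) ≤ 2 * (n + 1) := by
  rcases Nat.eq_zero_or_pos n with h0 | h0
  · rw [h0]
    simp
  · have h1 : 1 < n + 1 := by omega
    have h2 := Nat.pow_pred_clog_lt_self (b := 2) (by norm_num) h1
    have h3 : 0 < Nat.clog 2 (n + 1) := Nat.clog_pos (by norm_num) (by omega)
    have h4 : 2 ^ Nat.clog 2 (n + 1) = 2 ^ (Nat.clog 2 (n + 1) - 1) * 2 := by
      rw [← pow_succ]; congr 1; omega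
    rw [h4]
    have h5 : Nat.pred (Nat.clog 2 (n + 1)) = Nat.clog 2 (n + 1) - 1 := rfl
    rw [h5] at h2
    omega

theorem PolyB.two_pow : PolyB fun n => 2 ^ Nat.clog 2 (n + 1) :=
  ⟨2, 1, fun n => by rw [pow_one]; exact two_pow_clog n⟩

theorem PolyB.exp (B a b : ℕ) : PolyB fun n => B ^ (a * Nat.clog 2 (n + 1) + b) := by
  refine ⟨2 ^ (a * B) * B ^ b, a * B, fun n => ?_⟩
  have hl2 := two_pow_clog n
  set l := Nat.clog 2 (n + 1) with hl
  change B ^ (a * l + b) ≤ _
  rw [pow_add]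
  calc B ^ (a * l) * B ^ b ≤ (2 ^ B) ^ (a * l) * B ^ b :=
        Nat.mul_le_mul_right _ (Nat.pow_le_pow_left Nat.lt_two_pow_self.le _)
    _ = (2 ^ l) ^ (a * B) * B ^ b := by rw [← pow_mul, ← pow_mul]; congr 2; ring
    _ ≤ (2 * (n + 1)) ^ (a * B) * B ^ b := Nat.mul_le_mul_right _ (Nat.pow_le_pow_left hl2 _)
    _ = 2 ^ (a * B) * B ^ b * (n + 1) ^ (a * B) := by rw [mul_pow]; ring

end PolyB

namespace Push

variable {G : Type*} [Group G] {α : Type*} [Fintype α] [DecidableEq α] (P : Push G α)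

attribute [local instance] Push.normal

variable {P} in
theorem Fill.mono {S : Finset G} {c : P.Q → ℕ → P.Q} {N m Λ Λ' K K' : ℕ}
    (h : P.Fill S c N m Λ K) (hΛ : Λ' ≤ Λ) (hK : K' ≤ K) : P.Fill S c N m Λ' K' where
  tri := fun g b b' h1 h2 h3 => h.tri g b b' (h1.trans hΛ) (h2.trans hΛ) (h3.trans hΛ)
  one := h.one
  letter := h.letter
  time := fun g hg => h.time g (hg.mono hK)

variable {ι : Type*} {A : ι → Subgroup G}

/-- Controlled combings of the peripheral subgroups. -/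
theorem exists_periph {S : Finset G} (hS : Subgroup.closure (S : Set G) = ⊤)
    (hab : ∀ i, ∀ x ∈ A i, ∀ y ∈ A i, x * y = y * x)
    (hQ : (∀ a b : P.Q, a * b = b * a) ∨
      ∀ i, Undistorted ((A i).map (QuotientGroup.mk' P.π.range)))
    {F : ℕ} (hund : ∀ i, ∀ p ∈ A i, ∃ l : List G, l.length ≤ wordLength S p ∧
      (∀ s ∈ l, s ∈ A i ∧ wordLength S s ≤ F) ∧ l.prod = p) (i : ι) :
    ∃ (Kb : NCombing (A i)) (Cc : ℕ), ∀ (b : A i) (t : ℕ),
      wordLength (P.Sq S) (((Kb.c b t : A i) : G) : P.Q) ≤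
        Cc * (wordLength (P.Sq S) ((b : G) : P.Q) + 1) := by
  classical
  have hSq := P.closure_Sq hS
  letI : CommGroup (A i) := { (inferInstance : Group (A i)) with
    mul_comm := by
      rintro ⟨a, ha⟩ ⟨b, hb⟩
      exact Subtype.ext (hab i a ha b hb) }
  have hfg : Group.FG (A i) := by
    rw [Group.fg_iff_subgroup_fg]
    have hfin : {g : G | g ∈ A i ∧ wordLength S g ≤ F}.Finite := by
      apply (finite_ball S F).subset
      rintro g ⟨_, hg⟩
      exact (inBall_iff hS).2 hg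
    refine ⟨hfin.toFinset, ?_⟩
    rw [Set.Finite.coe_toFinset]
    apply le_antisymm
    · rw [Subgroup.closure_le]
      rintro g ⟨hg, _⟩
      exact hg
    · intro p hp
      obtain ⟨l, _, h2, h3⟩ := hund i p hp
      rw [← h3]
      apply Subgroup.list_prod_mem
      intro s hs
      exact Subgroup.subset_closure (h2 s hs)
  set φ : A i →* P.Q := (QuotientGroup.mk' P.π.range).comp (A i).subtype with hφ
  have hφv : ∀ b : A i, φ b = ((b : G) : P.Q) := fun _ => rfl
  have hco : ∃ (n : ℕ) (v : A i →* (Fin n → Multiplicative ℤ)) (Cv : ℕ),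
      Function.Surjective v ∧ (φ '' {b | v b = 1}).Finite ∧
      ∀ b j, (Multiplicative.toAdd (v b j)).natAbs ≤ Cv * (wordLength (P.Sq S) (φ b) + 1) := by
    rcases hQ with hQ | hQ
    · letI : CommGroup P.Q := { (inferInstance : Group P.Q) with mul_comm := hQ }
      have hfgQ : Group.FG P.Q := ⟨⟨P.Sq S, hSq⟩⟩
      exact coords_of_comm hSq φ
    · have h1 : φ.range = (A i).map (QuotientGroup.mk' P.π.range) := by
        rw [hφ, MonoidHom.range_comp, Subgroup.range_subtype]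
      apply coords_of_undistorted hSq φ
      rw [h1]
      exact hQ i
  obtain ⟨n, v, Cv, hv, hfin, hCv⟩ := hco
  obtain ⟨Kb, Cc, h⟩ := exists_controlled hSq φ v hv hfin hCv
  exact ⟨Kb, Cc, fun b t => h b t⟩

/-- **Polynomial filling.** -/
theorem exists_poly_area_rel (hG : RelHyperbolic G A)
    (hab : ∀ i, ∀ x ∈ A i, ∀ y ∈ A i, x * y = y * x) (q : NCombing P.Q)
    (hQ : (∀ a b : P.Q, a * b = b * a) ∨
      ∀ i, Undistorted ((A i).map (QuotientGroup.mk' P.π.range))) :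
    ∃ E e : ℕ, ∀ w : FreeGroup α, P.π w = 1 → AreaLE P.R (E * (w.norm + 1) ^ e) w := by
  classical
  obtain ⟨hι, S, hS, ⟨δ, h4⟩, hf⟩ := hG
  have := Fintype.ofFinite ι
  have h4' : FourPt (coned S A) δ := h4
  obtain ⟨ν, hν⟩ := exists_wclose hS hf h4'
  obtain ⟨F, hfirst⟩ := exists_first hS hf h4'
  choose f hiso using fun L => exists_iso (S := S) hf L
  obtain ⟨Λ₀, hΛ₀⟩ := (Set.finite_range fun x : α × Bool => wordLength S (P.ltr x)).bddAbove
  have hl : ∀ x : α × Bool, wordLength S (P.ltr x) ≤ Λ₀ := fun x => hΛ₀ ⟨x, rfl⟩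
  have hund : ∀ i, ∀ p ∈ A i, ∃ l : List G, l.length ≤ wordLength S p ∧
      (∀ s ∈ l, s ∈ A i ∧ wordLength S s ≤ F) ∧ l.prod = p := fun i p hp =>
    exists_undist hS hfirst i p hp
  set Λ := (4 * ν + 14 + 1) * lams f (4 * ν + 14) (ν + Λ₀ + 1) (4 * ν + 14) +
    (Λ₀ + 2 + 1) * lams f (Λ₀ + 2) (ν + Λ₀ + 1) (Λ₀ + 2) + Λ₀ with hΛ
  choose Kb Cc hctl using fun i => P.exists_periph hS hab hQ hund i
  choose Λ' C₂ Ck hflat using fun i => exists_flat (P := P) hS (A i) (Kb i) (hctl i) (hund i) Λ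
  obtain ⟨Λm, hΛm⟩ := (Set.finite_range Λ').bddAbove
  obtain ⟨C₂m, hC₂m⟩ := (Set.finite_range C₂).bddAbove
  obtain ⟨Ckm, hCkm⟩ := (Set.finite_range Ck).bddAbove
  obtain ⟨D, B, C, hB, hfill⟩ := P.exists_fill hS q (Λm + Λ) (fun x => (hl x).trans (by omega))
  choose Wc hWc using fun x y : G => exists_isWd (S := S) (A := A) hS x y
  -- the functions of `n`
  set k0 := Λ₀ * (F * (Λ₀ + 1) + 1) with hk0
  set l : ℕ → ℕ := fun n => Nat.clog 2 (n + 1) with hldef
  set K : ℕ → ℕ := fun n => k0 + ν * l n with hKdef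
  set K' : ℕ → ℕ := fun n => Ckm * (K n + 1) + K n with hK'def
  set N : ℕ → ℕ := fun n => C * (K' n + 1) with hNdef
  set n1 : ℕ → ℕ := fun n => Λ₀ * n with hn1def
  set n2 : ℕ → ℕ := fun n => n1 n + n1 n * (F * (n1 n + 1) + 1) with hn2def
  set Jm : ℕ → ℕ := fun n => F * (n2 n + 1) + 1 with hJmdef
  set J : ℕ → ℕ := fun n => 2 * ((4 * ν + 14) * (Jm n + ν)) +
    (2 * (Λ₀ * (F * (Λ₀ + 1) + 1) + Λ₀) + Λ) with hJdef
  set M : ℕ → ℕ := fun n => C₂m * (J n + 1) with hMdef
  set mF : ℕ → ℕ := fun n => D * B ^ N n with hmFdef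
  set m : ℕ → ℕ := fun n =>
    (1 + C₂m * (Λ + 1) + M n * (C₂m * (J n + M n + 1) * 2)) * mF n with hmdef
  set T : ℕ → ℕ := fun n => 2 ^ l n * ((2 * cc (Λ₀ + 2) (Λ₀ + 2) + 2) * m n) +
    2 ^ l n * ((n2 n + 1) * ((n2 n + 1) * (2 * (cc (4 * ν + 14) (4 * ν + 14) * m n)))) with hTdef
  -- polynomial bounds
  have pn1 : PolyB n1 := (PolyB.const Λ₀).mul PolyB.id
  have pn2 : PolyB n2 := pn1.add (pn1.mul (((PolyB.const F).mul (pn1.add (PolyB.const 1))).add
    (PolyB.const 1)))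
  have pJm : PolyB Jm := ((PolyB.const F).mul (pn2.add (PolyB.const 1))).add (PolyB.const 1)
  have pJ : PolyB J := ((PolyB.const 2).mul ((PolyB.const (4 * ν + 14)).mul
    (pJm.add (PolyB.const ν)))).add (PolyB.const _)
  have pM : PolyB M := (PolyB.const C₂m).mul (pJ.add (PolyB.const 1))
  have pmF : PolyB mF := by
    apply (PolyB.const D).mul
    apply (PolyB.exp B (C * (Ckm + 1) * ν) (C * (Ckm * (k0 + 1) + k0 + 1))).mono
    intro n
    apply le_of_eq
    congr 1
    simp only [hNdef, hK'def, hKdef, hldef]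
    ring
  have pm : PolyB m := by
    apply PolyB.mul _ pmF
    exact (PolyB.const _).add (pM.mul (((PolyB.const C₂m).mul
      ((pJ.add pM).add (PolyB.const 1))).mul (PolyB.const 2)))
  have pT : PolyB T := by
    apply PolyB.add
    · exact PolyB.two_pow.mul ((PolyB.const _).mul pm)
    · apply PolyB.two_pow.mul
      apply (pn2.add (PolyB.const 1)).mul
      apply (pn2.add (PolyB.const 1)).mul
      exact (PolyB.const 2).mul ((PolyB.const _).mul pm)
  obtain ⟨E, e, hE⟩ := pT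
  refine ⟨E, e, fun w hw => ?_⟩
  apply AreaLE.mono _ (hE w.norm)
  set n := w.norm with hn
  -- filling data
  have hF0 : P.Fill S q.c (N n) (mF n) (Λm + Λ) (K' n) := hfill (K' n) (N n) le_rfl
  have hKK' : K n ≤ K' n := Nat.le_add_left _ _
  have hΛJ : Λ ≤ J n := by
    simp only [hJdef]; omega
  have hfl : ∀ i, _ := fun i => hflat i q.c (N n) (mF n) (K n) (K' n) (J n) (M n)
    (hF0.mono ((hΛm ⟨i, rfl⟩).trans (by omega)) le_rfl)
    (by
      have h1 : Ck i ≤ Ckm := hCkm ⟨i, rfl⟩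
      have h2 : Ck i * (K n + 1) ≤ Ckm * (K n + 1) := Nat.mul_le_mul_right _ h1
      simp only [hK'def]
      omega) hΛJ
    (by
      have h1 : C₂ i ≤ C₂m := hC₂m ⟨i, rfl⟩
      simp only [hMdef]
      exact Nat.mul_le_mul_right _ h1)
  set mv : G → Option ι × G → FreeGroup α := fun g e =>
    match e with
    | (none, b) => P.Om q.c (N n) g b
    | (some i, p) => if hp : p ∈ A i then P.V q.c (N n) (pth (Kb i) g ⟨p, hp⟩) (M n) else 1
    with hmv
  have hmv0 : ∀ g b, mv g (none, b) = P.Om q.c (N n) g b := fun _ _ => rfl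
  have hmv1 : ∀ g i p (hp : p ∈ A i), mv g (some i, p) =
      P.V q.c (N n) (pth (Kb i) g ⟨p, hp⟩) (M n) := fun g i p hp => dif_pos hp
  have hm1 : mF n ≤ m n := by
    simp only [hmdef]
    apply Nat.le_mul_of_pos_left
    omega
  have hRF : RFill P.R S A mv (P.Dep S (K n)) (m n) Λ (J n) := by
    constructor
    · intro g b b' h1 h2 h3 o1 o2 o3
      rw [hmv0, hmv0, hmv0]
      exact (hF0.tri g b b' (by omega) (by omega) (by omega) (hF0.time _ (o1.mono hKK'))
        (hF0.time _ (o2.mono hKK')) (hF0.time _ (o3.mono hKK'))).mono hm1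
    · intro g
      rw [hmv0]
      exact hF0.one g
    · intro i g p p' hp hp' h1 h2 h3 o1 o2 o3
      rw [hmv1 g i p hp, hmv1 (g * p) i p' hp', hmv1 g i (p * p') (mul_mem hp hp')]
      have h5 := (hfl i).2.2 g ⟨p, hp⟩ ⟨p', hp'⟩ h1 h2 h3 o1 o2 o3
      apply h5.mono
      have h6 : C₂ i ≤ C₂m := hC₂m ⟨i, rfl⟩
      calc M n * (C₂ i * (J n + M n + 1) * (2 * mF n))
          ≤ M n * (C₂m * (J n + M n + 1) * (2 * mF n)) := by
            apply Nat.mul_le_mul_left
            apply Nat.mul_le_mul_right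
            exact Nat.mul_le_mul_right _ h6
        _ = (M n * (C₂m * (J n + M n + 1) * 2)) * mF n := by ring
        _ ≤ m n := by
            simp only [hmdef]
            apply Nat.mul_le_mul_right
            omega
    · intro i g
      rw [hmv1 g i 1 (one_mem _)]
      exact (hfl i).1 g
    · intro i g p hp h1 o1 o2
      rw [hmv1 g i p hp, hmv0]
      have h5 := (hfl i).2.1 g ⟨p, hp⟩ h1 o1 o2
      apply h5.mono
      have h6 : C₂ i ≤ C₂m := hC₂m ⟨i, rfl⟩
      calc C₂ i * (Λ + 1) * mF n ≤ C₂m * (Λ + 1) * mF n := by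
            apply Nat.mul_le_mul_right
            exact Nat.mul_le_mul_right _ h6
        _ ≤ m n := by
            simp only [hmdef]
            apply Nat.mul_le_mul_right
            omega
  have hlet : ∀ h ∈ P.π.range, ∀ x : α × Bool, Near P.R (2 * m n) (mv h (none, P.ltr x))
      (FreeGroup.mk [x]) := by
    intro h hh x
    rw [hmv0]
    exact (hF0.letter h hh x).mono (by omega)
  have hlen : w.toWord.length = n := rfl
  have hll : n + 1 ≤ 2 ^ l n := Nat.le_pow_clog (by norm_num) _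
  have hd := (rdyadic hRF hlet hS hiso hν hfirst hl (by omega) (by omega) w.toWord
    (n1 := n1 n) (n2 := n2 n) (Jm := Jm n) (by rw [hlen]) le_rfl le_rfl
    (by simp only [hJdef]; omega) (by simp only [hJdef]; omega) (lmax := l n) le_rfl hWc
    (l n) le_rfl 0 w.toWord.length (by omega) le_rfl (by omega)).2
  have e0 : (FreeGroup.mk [] : FreeGroup α) = 1 := rfl
  have e1 : P.π (FreeGroup.mk (w.toWord.take 0)) = 1 := by
    rw [List.take_zero, e0, map_one]
  have e2 : P.π (FreeGroup.mk (w.toWord.take w.toWord.length)) = 1 := by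
    rw [List.take_length, FreeGroup.mk_toWord, hw]
  have hnil : Wc 1 1 = [] := by
    have := (hWc 1 1).length_le hS
    rw [wordDist_self] at this
    exact List.eq_nil_of_length_eq_zero (by omega)
  rw [e1, e2, hnil, List.take_length, List.drop_zero, FreeGroup.mk_toWord] at hd
  have h6 := hd.symm
  unfold Near at h6
  simp only [Psi, inv_one, mul_one] at h6
  apply h6.mono
  simp only [hTdef]
  have h7 : 2 ^ l n - 1 ≤ 2 ^ l n := Nat.sub_le _ _
  apply Nat.add_le_add_left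
  exact Nat.mul_le_mul_right _ h7

end Push

end Pda3a14
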