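import Pool.Agent.Lib.Pda3a14.RCone

/-!
# Projections to cosets: bounded jumps, undistorted peripheral subgroups
-/

namespace Pda3a14

open SimpleGraph

variable {G : Type*} [Group G] {ι : Type*} {S : Finset G} {A : ι → Subgroup G}

/-- `a` is the first vertex of a geodesic from the cone vertex of `e A i` to `w`. -/
def First (S : Finset G) (A : ι → Subgroup G) (i : ι) (e w a : G) : Prop :=
  ∃ (γ : ℕ → G ⊕ (Σ i, G ⧸ A i)) (m : ℕ), IsGeo (coned S A) γ m ∧ γ 0 = cone A i e ∧
    γ m = Sum.inl w ∧ γ 1 = Sum.inl a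

theorem First.mem {i : ι} {e w a : G} (h : First S A i e w a) :
    e⁻¹ * a ∈ A i ∧ cone A i e = cone A i a := by
  obtain ⟨γ, m, hγ, h0, hm, h1⟩ := h
  have hm0 : 0 < m := by
    rcases Nat.eq_zero_or_pos m with h | h
    · rw [h, h0] at hm; simp at hm
    · exact h
  have := hγ.adj hm0
  rw [h0] at this
  obtain ⟨a', h2, h3, h4⟩ := adj_cone_right this
  rw [zero_add, h1] at h2
  rw [Sum.inl_injective h2]
  exact ⟨h4, h3⟩

theorem exists_first_vertex (hS : Subgroup.closure (S : Set G) = ⊤) (i : ι) (e w : G) :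
    ∃ a, First S A i e w a := by
  obtain ⟨γ, h0, hm, hγ⟩ := exists_geo (coned_connected (A := A) hS) (cone A i e) (Sum.inl w)
  have hm0 : 0 < (coned S A).dist (cone A i e) (Sum.inl w) := by
    rw [Nat.pos_iff_ne_zero]
    intro h
    rw [(coned_connected (A := A) hS).dist_eq_zero_iff] at h
    simp at h
  have h1 := hγ.adj hm0
  rw [h0] at h1
  obtain ⟨a, h2, _⟩ := adj_cone_right h1
  exact ⟨a, γ, _, hγ, h0, hm, h2⟩

theorem First.eq_of_mem {i : ι} {e w a : G} (h : First S A i e w a) (hw : e⁻¹ * w ∈ A i) :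
    a = w := by
  obtain ⟨γ, m, hγ, h0, hm, h1⟩ := h
  have h2 : (coned S A).dist (cone A i e) (Sum.inl w) = 1 := by
    rw [cone_eq hw, SimpleGraph.dist_comm]
    exact dist_eq_one_iff_adj.2 (adj_cone w i)
  have h3 := hγ 0 m (Nat.zero_le _) le_rfl
  rw [h0, hm, h2] at h3
  have h4 : m = 1 := by omega
  rw [h4, h1] at hm
  exact Sum.inl_injective hm

theorem first_of_mem (hS : Subgroup.closure (S : Set G) = ⊤) {i : ι} {e w : G}
    (hw : e⁻¹ * w ∈ A i) : First S A i e w w := by
  obtain ⟨a, ha⟩ := exists_first_vertex (A := A) hS i e w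
  rw [ha.eq_of_mem hw] at ha
  exact ha

/-- Geodesics from a cone vertex to adjacent points have close first vertices. -/
theorem exists_first [Finite ι] (hS : Subgroup.closure (S : Set G) = ⊤)
    (hf : IsFineGraph (coned S A)) {δ : ℕ} (h4 : FourPt (coned S A) δ) :
    ∃ f : ℕ, ∀ (i : ι) (e x x' a a' : G), First S A i e x a → First S A i e x' a' →
      wordDist S x x' ≤ 1 → wordDist S a a' ≤ f := by
  obtain ⟨f, hfi⟩ := exists_iso hf (6 * δ + 6)
  refine ⟨f, fun i e x x' a a' h h' hxx => ?_⟩
  obtain ⟨m1, m2⟩ := h.mem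
  obtain ⟨m1', m2'⟩ := h'.mem
  obtain ⟨γ, m, hγ, h0, hm, h1⟩ := h
  obtain ⟨γ', m', hγ', h0', hm', h1'⟩ := h'
  have hxd : (coned S A).dist (Sum.inl x) (Sum.inl x') ≤ 1 := (dist_le_word hS x x').trans hxx
  have hconn := coned_connected (A := A) hS
  have d1 := hγ 0 m (Nat.zero_le _) le_rfl
  have d2 := hγ' 0 m' (Nat.zero_le _) le_rfl
  rw [h0, hm] at d1
  rw [h0', hm'] at d2
  have t1 := hconn.dist_triangle (u := cone A i e) (v := Sum.inl x) (w := Sum.inl x')
  have t2 := hconn.dist_triangle (u := cone A i e) (v := Sum.inl x') (w := Sum.inl x)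
  have c1 := (coned S A).dist_comm (u := Sum.inl x') (v := Sum.inl x)
  have hm0 : 0 < m := by
    rcases Nat.eq_zero_or_pos m with h | h
    · rw [h, h0] at hm; simp at hm
    · exact h
  have hm0' : 0 < m' := by
    rcases Nat.eq_zero_or_pos m' with h | h
    · rw [h, h0'] at hm'; simp at hm'
    · exact h
  have key : Conn (coned S A) (cone A i e) (6 * δ + 6) (Sum.inl a) (Sum.inl a') := by
    by_cases hc : 2 * δ + 2 ≤ m ∧ 2 * δ + 2 ≤ m'
    · obtain ⟨hc, hc'⟩ := hc
      have k1 : Conn (coned S A) (cone A i e) (2 * δ + 1 - 1) (γ 1) (γ (2 * δ + 1)) := by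
        apply hγ.conn (by omega) (by omega)
        intro t ht ht' h
        rw [← h0] at h
        have := hγ.inj (by omega) (Nat.zero_le _) h
        omega
      have k2 : Conn (coned S A) (cone A i e) (2 * δ + 1 - 1) (γ' 1) (γ' (2 * δ + 1)) := by
        apply hγ'.conn (by omega) (by omega)
        intro t ht ht' h
        rw [← h0'] at h
        have := hγ'.inj (by omega) (Nat.zero_le _) h
        omega
      have k3 : (coned S A).dist (γ (2 * δ + 1)) (γ' (2 * δ + 1)) ≤ 2 * δ := by
        apply cross h4 hγ hγ' (by rw [h0, h0']) (τ₁ := m) (τ₂ := m') (by omega) le_rfl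
          (by omega) le_rfl
        rw [hm, hm']
        omega
      have k4 : (coned S A).dist (γ (2 * δ + 1)) (cone A i e) = 2 * δ + 1 := by
        rw [← h0, SimpleGraph.dist_comm, hγ 0 _ (Nat.zero_le _) (by omega)]; omega
      have k5 := conn_dist hconn (C := cone A i e) (x := γ (2 * δ + 1)) (y := γ' (2 * δ + 1))
        (by omega)
      rw [h1] at k1
      rw [h1'] at k2
      exact ((k1.trans k5).trans k2.symm).mono (by omega)
    · have hmm : m ≤ 2 * δ + 2 ∧ m' ≤ 2 * δ + 2 := by
        rw [not_and_or] at hc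
        omega
      have k1 : Conn (coned S A) (cone A i e) (m - 1) (γ 1) (γ m) := by
        apply hγ.conn (by omega) (by omega)
        intro t ht ht' h
        rw [← h0] at h
        have := hγ.inj (by omega) (Nat.zero_le _) h
        omega
      have k2 : Conn (coned S A) (cone A i e) (m' - 1) (γ' 1) (γ' m') := by
        apply hγ'.conn (by omega) (by omega)
        intro t ht ht' h
        rw [← h0'] at h
        have := hγ'.inj (by omega) (Nat.zero_le _) h
        omega
      have k3 := conn_word (A := A) hS ⟨i, (e : G ⧸ A i)⟩ x x'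
      rw [h1, hm] at k1
      rw [h1', hm'] at k2
      exact ((k1.trans k3).trans k2.symm).mono (by omega)
  rw [m2] at key
  apply hfi i a a' ?_ key
  have e1 : a⁻¹ * a' = (e⁻¹ * a)⁻¹ * (e⁻¹ * a') := by group
  rw [e1]
  exact mul_mem (inv_mem m1) m1'

/-- The first vertices for the points of a path. -/
theorem First.chain (hS : Subgroup.closure (S : Set G) = ⊤) {f : ℕ}
    (hf : ∀ (i : ι) (e x x' a a' : G), First S A i e x a → First S A i e x' a' →
      wordDist S x x' ≤ 1 → wordDist S a a' ≤ f) {i : ι} {e x z a b : G}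
    (h : First S A i e x a) (h' : First S A i e z b) :
    wordDist S a b ≤ f * (wordDist S x z + 1) := by
  have key : ∀ k, ∀ c, First S A i e (geo S x z k) c → wordDist S a c ≤ f * (k + 1) := by
    intro k
    induction k with
    | zero =>
      intro c hc
      rw [geo_zero] at hc
      have := hf i e x x a c h hc (by rw [wordDist_self]; omega)
      omega
    | succ k ih =>
      intro c hc
      obtain ⟨d, hd⟩ := exists_first_vertex (A := A) hS i e (geo S x z k)
      have h1 := ih d hd
      have h2 := hf i e _ _ d c hd hc ((geo_le hS x z (Nat.le_succ k)).trans (by omega))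
      have h3 := wordDist_triangle hS a d c
      have h5 : f * (k + 1 + 1) = f * (k + 1) + f := by ring
      omega
  apply key
  rw [geo_end hS le_rfl]
  exact h'

/-- The peripheral subgroups are generated by short elements and undistorted. -/
theorem exists_undist (hS : Subgroup.closure (S : Set G) = ⊤) {f : ℕ}
    (hf : ∀ (i : ι) (e x x' a a' : G), First S A i e x a → First S A i e x' a' →
      wordDist S x x' ≤ 1 → wordDist S a a' ≤ f) (i : ι) (p : G) (hp : p ∈ A i) :
    ∃ l : List G, l.length ≤ wordLength S p ∧ (∀ s ∈ l, s ∈ A i ∧ wordLength S s ≤ f) ∧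
      l.prod = p := by
  have key : ∀ k, ∀ c, First S A i 1 (geo S 1 p k) c →
      ∃ l : List G, l.length ≤ k ∧ (∀ s ∈ l, s ∈ A i ∧ wordLength S s ≤ f) ∧ l.prod = c := by
    intro k
    induction k with
    | zero =>
      intro c hc
      rw [geo_zero] at hc
      have := hc.eq_of_mem (by rw [inv_one, one_mul]; exact one_mem _)
      exact ⟨[], by simp, by simp, by simp [this]⟩
    | succ k ih =>
      intro c hc
      obtain ⟨d, hd⟩ := exists_first_vertex (A := A) hS i 1 (geo S 1 p k)
      obtain ⟨l, h1, h2, h3⟩ := ih d hd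
      refine ⟨l ++ [d⁻¹ * c], by simp; omega, ?_, by simp [h3]⟩
      intro s hs
      rcases List.mem_append.1 hs with hs | hs
      · exact h2 s hs
      · rw [List.mem_singleton] at hs
        rw [hs]
        refine ⟨?_, ?_⟩
        · have m1 := hd.mem.1
          have m2 := hc.mem.1
          rw [inv_one, one_mul] at m1 m2
          exact mul_mem (inv_mem m1) m2
        · exact hf i 1 _ _ d c hd hc ((geo_le hS 1 p (Nat.le_succ k)).trans (by omega))
  have h1 : wordDist S 1 p = wordLength S p := by unfold wordDist; rw [inv_one, one_mul]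
  rw [← h1]
  apply key
  rw [geo_end hS le_rfl]
  apply first_of_mem hS
  rw [inv_one, one_mul]; exact hp

/-- Jumps of geodesics are bounded in terms of the distance of the end points. -/
theorem jump_le (hS : Subgroup.closure (S : Set G) = ⊤) {f : ℕ}
    (hf : ∀ (i : ι) (e x x' a a' : G), First S A i e x a → First S A i e x' a' →
      wordDist S x x' ≤ 1 → wordDist S a a' ≤ f) {p : ℕ → G ⊕ (Σ i, G ⧸ A i)} {m : ℕ}
    (hp : IsGeo (coned S A) p m) {x z : G} (h0 : p 0 = Sum.inl x) (hm : p m = Sum.inl z)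
    {j : ℕ} (hj : j + 2 ≤ m) {i : ι} {e a b : G} (ha : p j = Sum.inl a)
    (he : p (j + 1) = cone A i e) (hb : p (j + 2) = Sum.inl b) :
    wordDist S a b ≤ f * (wordDist S x z + 1) := by
  apply First.chain hS hf (i := i) (e := e)
  · refine ⟨fun t => p (j + 1 - t), j + 1, (hp.take (n := j + 1) (by omega)).rev, he, ?_, ?_⟩
    · simp only [Nat.sub_self]; exact h0
    · simpa using ha
  · refine ⟨fun t => p (j + 1 + t), m - (j + 1), hp.shift (by omega), he, ?_, hb⟩
    simp only
    rw [show j + 1 + (m - (j + 1)) = m by omega]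
    exact hm

end Pda3a14
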