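import Pool.Agent.Lib.Pda3a14.RProj

/-!
# Triangles in the coned-off Cayley graph are thin in the word metric
-/

namespace Pda3a14

open SimpleGraph

section Graph

variable {V : Type*} {Γ : SimpleGraph V}

/-- The vertex `v` is on one of the geodesics. -/
def OnQ (q₁ q₂ : ℕ → V) (m₁ m₂ : ℕ) (v : V) : Prop :=
  (∃ t ≤ m₁, q₁ t = v) ∨ (∃ t ≤ m₂, q₂ t = v)

theorem OnQ.swap {q₁ q₂ : ℕ → V} {m₁ m₂ : ℕ} {v : V} (h : OnQ q₁ q₂ m₁ m₂ v) :
    OnQ q₂ q₁ m₂ m₁ v := Or.symm h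

/-- Crossing from one geodesic to the other one, avoiding `E`. -/
theorem conn_cross (hΓ : Γ.Connected) {δ : ℕ} (h4 : FourPt Γ δ) {q₁ q₂ : ℕ → V} {m₁ m₂ : ℕ}
    (h1 : IsGeo Γ q₁ m₁) (h2 : IsGeo Γ q₂ m₂) (h0 : q₁ 0 = q₂ 0) {E : V} {B a₁ a₂ τ₁ τ₂ : ℕ}
    (hτ1 : τ₁ ≤ m₁) (hτ2 : τ₂ ≤ m₂) (hd : Γ.dist (q₁ τ₁) (q₂ τ₂) ≤ 2 * B)
    (hE : Γ.dist (q₁ τ₁) E ≤ B) (ha1 : a₁ ≤ τ₁) (ha2 : a₂ ≤ τ₂) (hb1 : τ₁ ≤ a₁ + 1)
    (hb2 : τ₂ ≤ a₂ + 1)
    (hE1 : ∀ t ≤ a₁, q₁ t ≠ E) (hE2 : ∀ t ≤ a₂, q₂ t ≠ E) :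
    Conn Γ E (6 * B + 6 * δ + 2) (q₁ a₁) (q₂ a₂) := by
  have t1 := hΓ.dist_triangle (u := q₁ 0) (v := q₁ τ₁) (w := q₂ τ₂)
  have t2 := hΓ.dist_triangle (u := q₁ 0) (v := q₂ τ₂) (w := q₁ τ₁)
  have c1 := Γ.dist_comm (u := q₂ τ₂) (v := q₁ τ₁)
  have d1 := h1 0 τ₁ (Nat.zero_le _) hτ1
  have d2 := h2 0 τ₂ (Nat.zero_le _) hτ2
  rw [← h0] at d2
  by_cases hc : B + 2 * δ + 1 ≤ min τ₁ τ₂
  · set t := min τ₁ τ₂ - (B + 2 * δ + 1) with ht
    have ht1 : t + (B + 2 * δ + 1) ≤ τ₁ := by omega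
    have ht2 : t + (B + 2 * δ + 1) ≤ τ₂ := by omega
    have k1 : Conn Γ E (a₁ - t) (q₁ t) (q₁ a₁) :=
      h1.conn (by omega) (by omega) (fun s _ hs => hE1 s hs)
    have k2 : Conn Γ E (a₂ - t) (q₂ t) (q₂ a₂) :=
      h2.conn (by omega) (by omega) (fun s _ hs => hE2 s hs)
    have k3 : Γ.dist (q₁ t) (q₂ t) ≤ 2 * δ :=
      cross h4 h1 h2 h0 (by omega) hτ1 (by omega) hτ2 (by omega)
    have k4 := h1 t τ₁ (by omega) hτ1
    have k5 := hΓ.dist_triangle (u := q₁ t) (v := E) (w := q₁ τ₁)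
    have c2 := Γ.dist_comm (u := E) (v := q₁ τ₁)
    have k6 := conn_dist hΓ (C := E) (x := q₁ t) (y := q₂ t) (by omega)
    exact ((k1.symm.trans k6).trans k2).mono (by omega)
  · have k1 : Conn Γ E a₁ (q₁ 0) (q₁ a₁) :=
      h1.conn (Nat.zero_le _) (by omega) (fun s _ hs => hE1 s hs)
    have k2 : Conn Γ E a₂ (q₂ 0) (q₂ a₂) :=
      h2.conn (Nat.zero_le _) (by omega) (fun s _ hs => hE2 s hs)
    rw [← h0] at k2
    exact (k1.symm.trans k2).mono (by omega)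

/-- Points of the two sides near a vertex which is not on the sides are connected. -/
theorem connQ (hΓ : Γ.Connected) {δ : ℕ} (h4 : FourPt Γ δ) {q₁ q₂ : ℕ → V} {m₁ m₂ : ℕ}
    (h1 : IsGeo Γ q₁ m₁) (h2 : IsGeo Γ q₂ m₂) (h0 : q₁ 0 = q₂ 0) {E : V} {B : ℕ}
    (hE : ¬ OnQ q₁ q₂ m₁ m₂ E) {v₁ v₂ : V} (hv1 : OnQ q₁ q₂ m₁ m₂ v₁)
    (hv2 : OnQ q₁ q₂ m₁ m₂ v₂) (hB1 : Γ.dist v₁ E ≤ B) (hB2 : Γ.dist v₂ E ≤ B) :
    Conn Γ E (6 * B + 6 * δ + 2) v₁ v₂ := by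
  have hd : Γ.dist v₁ v₂ ≤ 2 * B := by
    have := hΓ.dist_triangle (u := v₁) (v := E) (w := v₂)
    have c := Γ.dist_comm (u := E) (v := v₂)
    omega
  have hE1 : ∀ t ≤ m₁, q₁ t ≠ E := fun t ht h => hE (Or.inl ⟨t, ht, h⟩)
  have hE2 : ∀ t ≤ m₂, q₂ t ≠ E := fun t ht h => hE (Or.inr ⟨t, ht, h⟩)
  rcases hv1 with ⟨τ₁, hτ1, rfl⟩ | ⟨τ₁, hτ1, rfl⟩ <;>
    rcases hv2 with ⟨τ₂, hτ2, rfl⟩ | ⟨τ₂, hτ2, rfl⟩
  · rw [h1.dist hτ1 hτ2] at hd
    apply (h1.conn' hτ1 hτ2 (fun t _ ht => hE1 t (by omega))).mono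
    omega
  · exact conn_cross hΓ h4 h1 h2 h0 hτ1 hτ2 hd hB1 le_rfl le_rfl (by omega) (by omega)
      (fun t ht => hE1 t (by omega)) (fun t ht => hE2 t (by omega))
  · rw [SimpleGraph.dist_comm] at hd
    exact (conn_cross hΓ h4 h1 h2 h0 hτ2 hτ1 hd hB2 le_rfl le_rfl (by omega) (by omega)
      (fun t ht => hE1 t (by omega)) (fun t ht => hE2 t (by omega))).symm
  · rw [h2.dist hτ1 hτ2] at hd
    apply (h2.conn' hτ1 hτ2 (fun t _ ht => hE2 t (by omega))).mono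
    omega

theorem connQ_one (hΓ : Γ.Connected) {δ : ℕ} (h4 : FourPt Γ δ) {q₁ q₂ : ℕ → V} {m₁ m₂ : ℕ}
    (h1 : IsGeo Γ q₁ m₁) (h2 : IsGeo Γ q₂ m₂) (h0 : q₁ 0 = q₂ 0) {E : V} {B : ℕ}
    (hE : ∃ t ≤ m₁, q₁ t = E) (hy : q₁ 0 ≠ E) (hx : q₁ m₁ ≠ E) {v₁ : V}
    (hv1 : (∃ t ≤ m₁, q₁ t = v₁) ∨ ((∃ t ≤ m₂, q₂ t = v₁) ∧ ∀ t ≤ m₂, q₂ t ≠ E))
    (hne : v₁ ≠ E) (hB1 : Γ.dist v₁ E ≤ B) :
    ∃ g, OnQ q₁ q₂ m₁ m₂ g ∧ Γ.Adj E g ∧ Conn Γ E (6 * B + 6 * δ + 2) v₁ g := by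
  obtain ⟨τ, hτ, rfl⟩ := hE
  have hτ0 : τ ≠ 0 := by
    rintro rfl; exact hy rfl
  have hτm : τ ≠ m₁ := by
    rintro rfl; exact hx rfl
  have hadj1 : Γ.Adj (q₁ τ) (q₁ (τ - 1)) := by
    have := h1.adj (i := τ - 1) (by omega)
    rw [Nat.sub_add_cancel (by omega)] at this
    exact this.symm
  rcases hv1 with ⟨τ₁, hτ1, rfl⟩ | ⟨⟨τ₁, hτ1, rfl⟩, hE2⟩
  · rw [h1.dist hτ1 hτ] at hB1
    have hne' : τ₁ ≠ τ := by
      rintro rfl; exact hne rfl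
    rcases lt_or_gt_of_ne hne' with h | h
    · refine ⟨q₁ (τ - 1), Or.inl ⟨τ - 1, by omega, rfl⟩, hadj1, ?_⟩
      apply (h1.conn (C := q₁ τ) (i := τ₁) (j := τ - 1) (by omega) (by omega) ?_).mono (by omega)
      intro t _ ht h
      have := h1.inj (by omega) hτ h
      omega
    · refine ⟨q₁ (τ + 1), Or.inl ⟨τ + 1, by omega, rfl⟩, h1.adj (by omega), ?_⟩
      apply (h1.conn (C := q₁ τ) (i := τ + 1) (j := τ₁) (by omega) (by omega) ?_).symm.mono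
        (by omega)
      intro t ht _ h
      have := h1.inj (by omega) hτ h
      omega
  · refine ⟨q₁ (τ - 1), Or.inl ⟨τ - 1, by omega, rfl⟩, hadj1, ?_⟩
    rw [SimpleGraph.dist_comm] at hB1
    apply (conn_cross hΓ h4 h1 h2 h0 (E := q₁ τ) (B := B) (a₁ := τ - 1) (a₂ := τ₁) hτ hτ1
      (by omega) (by rw [SimpleGraph.dist_self]; omega) (by omega) le_rfl (by omega) (by omega)
      ?_ (fun t ht => hE2 t (by omega))).symm
    intro t ht h
    have := h1.inj (by omega) hτ h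
    omega

/-- A point of the sides near a vertex `E` of the sides is connected to a neighbour of `E`. -/
theorem connQ' (hΓ : Γ.Connected) {δ : ℕ} (h4 : FourPt Γ δ) {q₁ q₂ : ℕ → V} {m₁ m₂ : ℕ}
    (h1 : IsGeo Γ q₁ m₁) (h2 : IsGeo Γ q₂ m₂) (h0 : q₁ 0 = q₂ 0) {E : V} {B : ℕ}
    (hE : OnQ q₁ q₂ m₁ m₂ E) (hy : q₁ 0 ≠ E) (hx : q₁ m₁ ≠ E) (hz : q₂ m₂ ≠ E) {v₁ : V}
    (hv1 : OnQ q₁ q₂ m₁ m₂ v₁) (hne : v₁ ≠ E) (hB1 : Γ.dist v₁ E ≤ B) :
    ∃ g, OnQ q₁ q₂ m₁ m₂ g ∧ Γ.Adj E g ∧ Conn Γ E (6 * B + 6 * δ + 2) v₁ g := by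
  by_cases hE1 : ∃ t ≤ m₁, q₁ t = E
  · by_cases hE2 : ∃ t ≤ m₂, q₂ t = E
    · rcases hv1 with hv1 | hv1
      · exact connQ_one hΓ h4 h1 h2 h0 hE1 hy hx (Or.inl hv1) hne hB1
      · obtain ⟨g, g1, g2⟩ := connQ_one hΓ h4 h2 h1 h0.symm hE2 (by rw [← h0]; exact hy) hz
          (Or.inl hv1) hne hB1
        exact ⟨g, g1.swap, g2⟩
    · push Not at hE2
      rcases hv1 with hv1 | hv1
      · exact connQ_one hΓ h4 h1 h2 h0 hE1 hy hx (Or.inl hv1) hne hB1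
      · exact connQ_one hΓ h4 h1 h2 h0 hE1 hy hx (Or.inr ⟨hv1, hE2⟩) hne hB1
  · have hE2 : ∃ t ≤ m₂, q₂ t = E := by
      rcases hE with h | h
      · exact absurd h hE1
      · exact h
    push Not at hE1
    rcases hv1 with hv1 | hv1
    · obtain ⟨g, g1, g2⟩ := connQ_one hΓ h4 h2 h1 h0.symm hE2 (by rw [← h0]; exact hy) hz
          (Or.inr ⟨hv1, hE1⟩) hne hB1
      exact ⟨g, g1.swap, g2⟩
    · obtain ⟨g, g1, g2⟩ := connQ_one hΓ h4 h2 h1 h0.symm hE2 (by rw [← h0]; exact hy) hz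
          (Or.inl hv1) hne hB1
      exact ⟨g, g1.swap, g2⟩

/-- From a point of the third side one reaches the other sides avoiding `E`. -/
theorem reach_down (hΓ : Γ.Connected) {σ : ℕ} {p : ℕ → V} {m : ℕ} (hp : IsGeo Γ p m)
    {Q : V → Prop} (hs : ∀ i ≤ m, ∃ v, Q v ∧ Γ.dist (p i) v ≤ σ) (h0 : Q (p 0)) {E : V}
    {B j : ℕ} (hj : j ≤ m) (hE : ∀ t ≤ j, p t ≠ E) (hB : Γ.dist (p j) E ≤ B) :
    ∃ v, Q v ∧ Conn Γ E (B + 2 * σ + 1) (p j) v ∧ Γ.dist v E ≤ 2 * B + 2 * σ + 1 := by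
  have main : ∃ v, Q v ∧ Conn Γ E (B + 2 * σ + 1) (p j) v := by
    by_cases hc : B + σ + 1 ≤ j
    · obtain ⟨v, hv1, hv2⟩ := hs (j - (B + σ + 1)) (by omega)
      refine ⟨v, hv1, ?_⟩
      have k1 : Conn Γ E (j - (j - (B + σ + 1))) (p (j - (B + σ + 1))) (p j) :=
        hp.conn (by omega) hj (fun t _ ht => hE t ht)
      have k2 := hp (j - (B + σ + 1)) j (by omega) hj
      have k3 := hΓ.dist_triangle (u := p (j - (B + σ + 1))) (v := E) (w := p j)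
      have c := Γ.dist_comm (u := E) (v := p j)
      have k4 := conn_dist hΓ (C := E) (x := p (j - (B + σ + 1))) (y := v) (by omega)
      exact (k1.symm.trans k4).mono (by omega)
    · refine ⟨p 0, h0, ?_⟩
      have k1 : Conn Γ E (j - 0) (p 0) (p j) :=
        hp.conn (by omega) hj (fun t _ ht => hE t ht)
      exact k1.symm.mono (by omega)
  obtain ⟨v, hv, hc⟩ := main
  refine ⟨v, hv, hc, ?_⟩
  have h1 := hc.dist_le
  have h2 := hΓ.dist_triangle (u := v) (v := p j) (w := E)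
  have c := Γ.dist_comm (u := v) (v := p j)
  omega

theorem reach (hΓ : Γ.Connected) {σ : ℕ} {p : ℕ → V} {m : ℕ} (hp : IsGeo Γ p m)
    {Q : V → Prop} (hs : ∀ i ≤ m, ∃ v, Q v ∧ Γ.dist (p i) v ≤ σ) (h0 : Q (p 0)) (hm : Q (p m))
    {E : V} {B j : ℕ} (hj : j ≤ m) (hE : p j ≠ E) (hB : Γ.dist (p j) E ≤ B) :
    ∃ v, Q v ∧ Conn Γ E (B + 2 * σ + 1) (p j) v ∧ Γ.dist v E ≤ 2 * B + 2 * σ + 1 := by
  by_cases hc : ∀ t ≤ j, p t ≠ E
  · exact reach_down hΓ hp hs h0 hj hc hB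
  · push Not at hc
    obtain ⟨t, ht, hE'⟩ := hc
    have htj : t ≠ j := by
      rintro rfl; exact hE hE'
    have h1 := reach_down hΓ (p := fun s => p (m - s)) (m := m) hp.rev (Q := Q) (σ := σ)
      (fun i hi => hs (m - i) (by omega)) (by rw [Nat.sub_zero]; exact hm) (E := E) (B := B)
      (j := m - j) (by omega) (by
        intro s hs' h
        rw [← hE'] at h
        have := hp.inj (by omega) (by omega) h
        omega) (by
        rw [show m - (m - j) = j by omega]; exact hB)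
    rw [show m - (m - j) = j by omega] at h1
    exact h1

end Graph

variable {G : Type*} [Group G] {ι : Type*} {S : Finset G} {A : ι → Subgroup G}

theorem wordDist_adj {a b : G} (h : (coned S A).Adj (Sum.inl a) (Sum.inl b)) :
    wordDist S a b ≤ 1 := by
  unfold wordDist
  rcases h.2 with h | h
  · exact wordLength_le (InBall.of_mem h)
  · have := (InBall.of_mem h).inv
    rw [mul_inv_rev, inv_inv] at this
    exact wordLength_le this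

/-- **Triangles are thin in the word metric.** -/
theorem exists_close [Finite ι] (hS : Subgroup.closure (S : Set G) = ⊤)
    (hf : IsFineGraph (coned S A)) {δ : ℕ} (h4 : FourPt (coned S A) δ) :
    ∃ ν : ℕ, ∀ (p q₁ q₂ : ℕ → G ⊕ (Σ i, G ⧸ A i)) (m m₁ m₂ : ℕ) (x y z u : G),
      IsGeo (coned S A) p m → IsGeo (coned S A) q₁ m₁ → IsGeo (coned S A) q₂ m₂ →
      q₁ 0 = Sum.inl y → q₂ 0 = Sum.inl y → q₁ m₁ = Sum.inl x → p 0 = Sum.inl x →
      q₂ m₂ = Sum.inl z → p m = Sum.inl z → ∀ s ≤ m, p s = Sum.inl u →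
      ∃ g, OnQ q₁ q₂ m₁ m₂ (Sum.inl g) ∧ wordDist S u g ≤ ν := by
  classical
  obtain ⟨f, hfi⟩ := exists_iso hf ((2 * δ + 4 * δ + 1 + 2 * δ) +
    (6 * (4 * δ + 4 * δ + 1) + 6 * δ + 2) + 2 * δ)
  refine ⟨(2 * δ) * (f + 1) + f, fun p q₁ q₂ m m₁ m₂ x y z u hp h1 h2 hy1 hy2 hx1 hx hz1 hz
    s hs hu => ?_⟩
  have hΓ := coned_connected (A := A) hS
  have h0 : q₁ 0 = q₂ 0 := by rw [hy1, hy2]
  have hsl : ∀ i ≤ m, ∃ v, OnQ q₁ q₂ m₁ m₂ v ∧ (coned S A).dist (p i) v ≤ 2 * δ := by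
    intro i hi
    rcases gslim hΓ h4 hp h1 h2 h0 (by rw [hx1, hx]) (by rw [hz1, hz]) hi with
      ⟨t, ht, h⟩ | ⟨t, ht, h⟩
    · exact ⟨q₁ t, Or.inl ⟨t, ht, rfl⟩, h⟩
    · exact ⟨q₂ t, Or.inr ⟨t, ht, rfl⟩, h⟩
  have hQ0 : OnQ q₁ q₂ m₁ m₂ (p 0) := Or.inl ⟨m₁, le_rfl, by rw [hx1, hx]⟩
  have hQm : OnQ q₁ q₂ m₁ m₂ (p m) := Or.inr ⟨m₂, le_rfl, by rw [hz1, hz]⟩
  -- a nearest vertex of the sides
  have hex : ∃ k, ∃ v, OnQ q₁ q₂ m₁ m₂ v ∧ (coned S A).dist (Sum.inl u) v = k := by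
    obtain ⟨v, hv, _⟩ := hsl s hs
    exact ⟨_, v, hv, rfl⟩
  set k := Nat.find hex with hk
  obtain ⟨v, hv, hvk⟩ := Nat.find_spec hex
  rw [← hk] at hvk
  have hmin : ∀ w, OnQ q₁ q₂ m₁ m₂ w → k ≤ (coned S A).dist (Sum.inl u) w := by
    intro w hw
    exact Nat.find_min' hex ⟨w, hw, rfl⟩
  have hkσ : k ≤ 2 * δ := by
    obtain ⟨w, hw, hd⟩ := hsl s hs
    rw [hu] at hd
    exact (hmin w hw).trans hd
  obtain ⟨c, hc0, hck, hc⟩ := exists_geo hΓ (Sum.inl u) v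
  rw [hvk] at hck hc
  -- from `c (j - 1)` to the sides avoiding the cone `c j`
  have hback : ∀ j, 0 < j → j ≤ k → ∃ w, OnQ q₁ q₂ m₁ m₂ w ∧
      Conn (coned S A) (c j) (2 * δ + 4 * δ + 1 + 2 * δ) (c (j - 1)) w ∧
      (coned S A).dist w (c j) ≤ 4 * δ + 4 * δ + 1 := by
    intro j hj0 hjk
    have d1 := hc 0 j (Nat.zero_le _) hjk
    have hne : p s ≠ c j := by
      intro h
      rw [hu, ← hc0] at h
      rw [h, SimpleGraph.dist_self] at d1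
      omega
    rw [hc0, ← hu] at d1
    obtain ⟨w, hw1, hw2, hw3⟩ := reach hΓ hp hsl hQ0 hQm (E := c j) (B := 2 * δ) hs hne (by omega)
    refine ⟨w, hw1, ?_, hw3.trans (by omega)⟩
    have k1 : Conn (coned S A) (c j) (j - 1 - 0) (c 0) (c (j - 1)) := by
      apply hc.conn (Nat.zero_le _) (by omega)
      intro t _ ht h
      have := hc.inj (by omega) (by omega) h
      omega
    rw [hc0, ← hu] at k1
    exact (k1.symm.trans hw2).mono (by omega)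
  -- interior jumps are short
  have hjump : ∀ j a b, j + 2 ≤ k → c j = Sum.inl a → (∃ i e, c (j + 1) = cone A i e) →
      c (j + 2) = Sum.inl b → wordDist S a b ≤ f := by
    rintro j a b hj ha ⟨i, e, he⟩ hb
    have hnQ : ¬ OnQ q₁ q₂ m₁ m₂ (c (j + 1)) := by
      intro h
      have h3 := hmin _ h
      have h5 := hc 0 (j + 1) (Nat.zero_le _) (by omega)
      rw [hc0] at h5
      omega
    obtain ⟨w, hw1, hw2, hw3⟩ := hback (j + 1) (by omega) (by omega)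
    rw [Nat.add_sub_cancel] at hw2
    have d2 := hc (j + 1) k (by omega) le_rfl
    rw [hck, SimpleGraph.dist_comm] at d2
    have k1 := connQ hΓ h4 h1 h2 h0 hnQ hw1 hv hw3 (by omega)
    have k2 : Conn (coned S A) (c (j + 1)) (k - (j + 2)) (c (j + 2)) (c k) := by
      apply hc.conn (by omega) le_rfl
      intro t ht ht' h
      have := hc.inj (by omega) (by omega) h
      omega
    rw [hck] at k2
    have k3 := (hw2.trans k1).trans k2.symm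
    have adj1 : (coned S A).Adj (c (j + 1)) (c j) := (hc.adj (by omega)).symm
    have adj2 : (coned S A).Adj (c (j + 1)) (c (j + 2)) := hc.adj (by omega)
    rw [he] at adj1 adj2 k3
    obtain ⟨a', e1, e2, e3⟩ := adj_cone_right adj1
    obtain ⟨b', e1', e2', e3'⟩ := adj_cone_right adj2
    rw [ha] at e1 k3
    rw [hb] at e1' k3
    rw [← Sum.inl_injective e1] at e2 e3
    rw [← Sum.inl_injective e1'] at e2' e3'
    rw [e2] at k3
    apply hfi i a b ?_ (k3.mono (by omega))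
    have e4 : a⁻¹ * b = (e⁻¹ * a)⁻¹ * (e⁻¹ * b) := by group
    rw [e4]
    exact mul_mem (inv_mem e3) e3'
  -- all group elements on `c` are close
  have hall : ∀ j, j ≤ k → ∀ a, c j = Sum.inl a → wordDist S u a ≤ j * (f + 1) := by
    intro j
    induction j using Nat.strong_induction_on with
    | _ j ih =>
      intro hj a ha
      rcases Nat.eq_zero_or_pos j with h | h
      · rw [h, hc0] at ha
        rw [Sum.inl_injective ha, wordDist_self]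
        exact Nat.zero_le _
      obtain ⟨j, rfl⟩ : ∃ j', j = j' + 1 := ⟨j - 1, by omega⟩
      rcases hb : c j with b | d
      · have h3 := ih j (by omega) (by omega) b hb
        have hadj := hc.adj (i := j) (by omega)
        rw [hb, ha] at hadj
        have h5 := wordDist_adj hadj
        have h6 := wordDist_triangle hS u b a
        have h7 : (j + 1) * (f + 1) = j * (f + 1) + f + 1 := by ring
        omega
      · have hj0 : j ≠ 0 := by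
          rintro rfl
          rw [hc0] at hb; simp at hb
        obtain ⟨j, rfl⟩ : ∃ j', j = j' + 1 := ⟨j - 1, by omega⟩
        obtain ⟨i, e, he⟩ := exists_cone d
        rw [he] at hb
        have hadj := hc.adj (i := j) (by omega)
        rw [hb] at hadj
        obtain ⟨b', hb', _⟩ := adj_cone_right hadj.symm
        have h3 := ih j (by omega) (by omega) b' hb'
        have h5 := hjump j b' a (by omega) hb' ⟨i, e, hb⟩ ha
        have h6 := wordDist_triangle hS u b' a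
        have h7 : (j + 1 + 1) * (f + 1) = j * (f + 1) + f + f + 2 := by ring
        omega
  -- the end of `c`
  rcases hvv : v with g | d
  · refine ⟨g, by rw [← hvv]; exact hv, ?_⟩
    have h3 := hall k le_rfl g (by rw [hck, hvv])
    have h5 : k * (f + 1) ≤ 2 * δ * (f + 1) := Nat.mul_le_mul_right _ hkσ
    omega
  · obtain ⟨i, e, he⟩ := exists_cone d
    rw [he] at hvv
    have hk0 : k ≠ 0 := by
      intro h
      rw [h, hc0, hvv] at hck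
      simp at hck
    obtain ⟨w, hw1, hw2, hw3⟩ := hback k (by omega) le_rfl
    have hwne : w ≠ c k := hw2.symm.ne_left
    obtain ⟨g, g1, g2, g3⟩ := connQ' hΓ h4 h1 h2 h0 (E := c k) (by rw [hck]; exact hv)
      (by rw [hck, hy1, hvv]; simp) (by rw [hck, hx1, hvv]; simp)
      (by rw [hck, hz1, hvv]; simp) hw1 hwne hw3
    have k1 := hw2.trans g3
    have adj1 : (coned S A).Adj (c k) (c (k - 1)) := by
      have := hc.adj (i := k - 1) (by omega)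
      rw [Nat.sub_add_cancel (by omega)] at this
      exact this.symm
    rw [hck, hvv] at adj1 g2 k1
    obtain ⟨a, e1, e2, e3⟩ := adj_cone_right adj1
    obtain ⟨b, e1', e2', e3'⟩ := adj_cone_right g2
    rw [e1, e1', e2] at k1
    refine ⟨b, by rw [← e1']; exact g1, ?_⟩
    have h3 := hfi i a b (by
      have e4 : a⁻¹ * b = (e⁻¹ * a)⁻¹ * (e⁻¹ * b) := by group
      rw [e4]
      exact mul_mem (inv_mem e3) e3') (k1.mono (by omega))
    have h5 := hall (k - 1) (by omega) a e1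
    have h6 := wordDist_triangle hS u a b
    have h7 : (k - 1) * (f + 1) ≤ 2 * δ * (f + 1) := Nat.mul_le_mul_right _ (by omega)
    omega

end Pda3a14
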