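import Pool.Agent.Lib.Pda3a14.RSlim

/-!
# Words of geodesics of the coned-off Cayley graph
-/

namespace Pda3a14

open SimpleGraph

variable {G : Type*} [Group G] {ι : Type*}

/-- The product of a list of moves. -/
def prd (W : List (Option ι × G)) : G := (W.map Prod.snd).prod

@[simp] theorem prd_nil : prd ([] : List (Option ι × G)) = 1 := rfl

@[simp] theorem prd_cons (e : Option ι × G) (W : List (Option ι × G)) :
    prd (e :: W) = e.2 * prd W := by
  simp [prd]

@[simp] theorem prd_append (W W' : List (Option ι × G)) : prd (W ++ W') = prd W * prd W' := by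
  simp [prd]

/-- The `k`-th vertex of a list of moves. -/
def vt (x : G) (W : List (Option ι × G)) (k : ℕ) : G := x * prd (W.take k)

theorem vt_zero (x : G) (W : List (Option ι × G)) : vt x W 0 = x := by simp [vt]

theorem vt_succ {x : G} {W : List (Option ι × G)} {k : ℕ} {e : Option ι × G}
    (h : W[k]? = some e) : vt x W (k + 1) = vt x W k * e.2 := by
  unfold vt
  rw [List.take_add_one, h]
  simp [mul_assoc]

theorem vt_of_le {x : G} {W : List (Option ι × G)} {k : ℕ} (h : W.length ≤ k) :
    vt x W k = x * prd W := by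
  unfold vt
  rw [List.take_of_length_le h]

theorem vt_append_left {x : G} {W W' : List (Option ι × G)} {k : ℕ} (h : k ≤ W.length) :
    vt x (W ++ W') k = vt x W k := by
  unfold vt
  rw [List.take_append_of_le_length h]

theorem vt_take {x : G} {W : List (Option ι × G)} {k j : ℕ} (h : k ≤ j) :
    vt x (W.take j) k = vt x W k := by
  unfold vt
  rw [List.take_take, min_eq_left h]

theorem vt_drop {x : G} {W : List (Option ι × G)} {i k : ℕ} :
    vt (vt x W i) (W.drop i) k = vt x W (i + k) := by
  unfold vt
  rw [List.take_add, prd_append, mul_assoc]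

variable {S : Finset G} {A : ι → Subgroup G}

/-- `W` is the list of moves of the geodesic `γ` from `x` to `y`; `T` gives the times. -/
structure Trace (S : Finset G) (A : ι → Subgroup G) (γ : ℕ → G ⊕ (Σ i, G ⧸ A i)) (T : ℕ → ℕ)
    (x y : G) (W : List (Option ι × G)) : Prop where
  geo : IsGeo (coned S A) γ (T W.length)
  zero : T 0 = 0
  vert : ∀ k ≤ W.length, γ (T k) = Sum.inl (vt x W k)
  fin : vt x W W.length = y
  mv : ∀ k e, W[k]? = some e → (e.1 = none ∧ T (k + 1) = T k + 1) ∨
    ∃ i, e.1 = some i ∧ T (k + 1) = T k + 2 ∧ γ (T k + 1) = cone A i (vt x W k)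
  surj : ∀ t ≤ T W.length, ∀ u, γ t = Sum.inl u → ∃ k ≤ W.length, T k = t

/-- `W` is a geodesic list of moves from `x` to `y`. -/
def IsWd (S : Finset G) (A : ι → Subgroup G) (x y : G) (W : List (Option ι × G)) : Prop :=
  ∃ γ T, Trace S A γ T x y W

theorem exists_trace (m : ℕ) : ∀ (γ : ℕ → G ⊕ (Σ i, G ⧸ A i)) (x z : G),
    IsGeo (coned S A) γ m → γ 0 = Sum.inl x → γ m = Sum.inl z →
    ∃ W T, T W.length = m ∧ Trace S A γ T x z W := by
  induction m using Nat.strong_induction_on with
  | _ m ih =>
    intro γ x z hγ h0 hm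
    rcases Nat.eq_zero_or_pos m with rfl | hpos
    · rw [h0] at hm
      refine ⟨[], fun _ => 0, rfl, ⟨hγ, rfl, ?_, ?_, ?_, ?_⟩⟩
      · intro k _
        simp [vt, h0]
      · rw [List.length_nil, vt_zero]; exact Sum.inl_injective hm
      · intro k e h; simp at h
      · intro t ht u _
        exact ⟨0, le_rfl, by omega⟩
    -- append a move
    have step : ∀ (n : ℕ) (g : G) (o : Option ι), n < m → γ n = Sum.inl g →
        ((o = none ∧ m = n + 1) ∨ ∃ i, o = some i ∧ m = n + 2 ∧ γ (n + 1) = cone A i g) →
        (∀ t, n < t → t < m → ∀ u, γ t ≠ Sum.inl u) →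
        ∃ W T, T W.length = m ∧ Trace S A γ T x z W := by
      intro n g o hn hg ho hnot
      obtain ⟨W, T, hT, tr⟩ := ih n hn γ x g (hγ.take hn.le) h0 hg
      set W' : List (Option ι × G) := W ++ [(o, g⁻¹ * z)] with hW'
      have hlen : W'.length = W.length + 1 := by simp [hW']
      set T' : ℕ → ℕ := fun k => if k ≤ W.length then T k else m with hT'
      have hT1 : ∀ k ≤ W.length, T' k = T k := fun k hk => by simp [hT', hk]
      have hT2 : T' (W.length + 1) = m := by simp [hT']
      have hv : ∀ k ≤ W.length, vt x W' k = vt x W k := fun k hk => vt_append_left hk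
      have hg' : vt x W W.length = g := tr.fin
      have hlast : vt x W' (W.length + 1) = z := by
        rw [vt_of_le (by omega), hW', prd_append, ← mul_assoc, ← vt_of_le (x := x) le_rfl, hg']
        simp
      refine ⟨W', T', by rw [hlen]; exact hT2, ⟨?_, ?_, ?_, ?_, ?_, ?_⟩⟩
      · rw [hlen, hT2]; exact hγ
      · rw [hT1 0 (Nat.zero_le _)]; exact tr.zero
      · intro k hk
        rw [hlen] at hk
        rcases Nat.lt_or_ge W.length k with h | h
        · have : k = W.length + 1 := by omega
          rw [this, hT2, hlast]; exact hm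
        · rw [hT1 k h, hv k h]; exact tr.vert k h
      · rw [hlen]; exact hlast
      · intro k e he
        rcases lt_trichotomy k W.length with h | h | h
        · rw [hT1 k h.le, hT1 (k + 1) h, hv k h.le]
          apply tr.mv
          rw [hW', List.getElem?_append_left h] at he
          exact he
        · subst h
          rw [hT1 _ le_rfl, hT2, hv _ le_rfl, hg', hT]
          rw [hW', List.getElem?_append_right le_rfl] at he
          simp only [Nat.sub_self, List.length_cons, List.length_nil, zero_add, Nat.lt_one_iff,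
            getElem?_pos, List.getElem_cons_zero, Option.some.injEq] at he
          rw [← he]
          exact ho
        · rw [List.getElem?_eq_none (by omega)] at he
          simp at he
      · intro t ht u hu
        rw [hlen, hT2] at ht
        rcases Nat.lt_or_ge n t with h | h
        · rcases Nat.lt_or_ge t m with h' | h'
          · exact absurd hu (hnot t h h' u)
          · exact ⟨W.length + 1, by omega, by rw [hT2]; omega⟩
        · obtain ⟨k, hk, hk'⟩ := tr.surj t (by omega) u hu
          exact ⟨k, by omega, by rw [hT1 k hk]; exact hk'⟩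
    obtain ⟨n, rfl⟩ : ∃ n, m = n + 1 := ⟨m - 1, by omega⟩
    rcases hc : γ n with g | d
    · exact step n g none (by omega) hc (Or.inl ⟨rfl, rfl⟩) (by intro t h1 h2; omega)
    · have hn0 : n ≠ 0 := by
        rintro rfl
        rw [h0] at hc; simp at hc
      obtain ⟨n, rfl⟩ : ∃ n', n = n' + 1 := ⟨n - 1, by omega⟩
      obtain ⟨i, e, he⟩ := exists_cone d
      rw [he] at hc
      have hadj := hγ.adj (i := n) (by omega)
      rw [hc] at hadj
      obtain ⟨g, hg, hg2, _⟩ := adj_cone_right hadj.symm
      apply step n g (some i) (by omega) hg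
      · right
        exact ⟨i, rfl, rfl, by rw [hc]; exact hg2⟩
      · intro t h1 h2 u
        have : t = n + 1 := by omega
        rw [this, hc]; simp

theorem exists_isWd (hS : Subgroup.closure (S : Set G) = ⊤) (x y : G) :
    ∃ W, IsWd S A x y W := by
  obtain ⟨γ, h0, hm, hγ⟩ := exists_geo (coned_connected (A := A) hS) (Sum.inl x) (Sum.inl y)
  obtain ⟨W, T, _, tr⟩ := exists_trace _ γ x y hγ h0 hm
  exact ⟨W, γ, T, tr⟩

variable {γ : ℕ → G ⊕ (Σ i, G ⧸ A i)} {T : ℕ → ℕ} {x y z : G} {W : List (Option ι × G)}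

theorem Trace.step (tr : Trace S A γ T x y W) {k : ℕ} (hk : k < W.length) :
    T k + 1 ≤ T (k + 1) ∧ T (k + 1) ≤ T k + 2 := by
  have h : W[k]? = some W[k] := List.getElem?_eq_getElem hk
  rcases tr.mv k _ h with ⟨_, h⟩ | ⟨i, _, h, _⟩ <;> omega

theorem Trace.mono (tr : Trace S A γ T x y W) {j k : ℕ} (hjk : j ≤ k) (hk : k ≤ W.length) :
    T j + (k - j) ≤ T k := by
  induction k, hjk using Nat.le_induction with
  | base => omega
  | succ k hjk ih =>
    have h1 := ih (by omega)
    have h2 := (tr.step (k := k) (by omega)).1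
    omega

theorem Trace.last (tr : Trace S A γ T x y W) : γ (T W.length) = Sum.inl y := by
  rw [tr.vert _ le_rfl, tr.fin]

theorem Trace.first (tr : Trace S A γ T x y W) : γ 0 = Sum.inl x := by
  have := tr.vert 0 (Nat.zero_le _)
  rwa [tr.zero, vt_zero] at this

/-- Indices are controlled by distances. -/
theorem IsWd.index (h : IsWd S A x y W) {j k : ℕ} (hjk : j ≤ k) (hk : k ≤ W.length) :
    k - j ≤ (coned S A).dist (Sum.inl (vt x W j)) (Sum.inl (vt x W k)) := by
  obtain ⟨γ, T, tr⟩ := h
  have h1 := tr.mono hjk hk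
  have h2 := tr.mono hk le_rfl
  rw [← tr.vert j (by omega), ← tr.vert k hk, tr.geo _ _ (by omega) (by omega)]
  omega

theorem IsWd.fin (h : IsWd S A x y W) : vt x W W.length = y := by
  obtain ⟨γ, T, tr⟩ := h
  exact tr.fin

theorem IsWd.prd (h : IsWd S A x y W) : x * Pda3a14.prd W = y := by
  rw [← h.fin, vt_of_le le_rfl]

theorem IsWd.length_le (hS : Subgroup.closure (S : Set G) = ⊤) (h : IsWd S A x y W) :
    W.length ≤ wordDist S x y := by
  have h1 := h.index (Nat.zero_le _) le_rfl
  rw [vt_zero, h.fin] at h1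
  have := dist_le_word (A := A) hS x y
  omega

/-- Sub-words. -/
theorem IsWd.sub (h : IsWd S A x y W) {i j : ℕ} (hij : i ≤ j) (hj : j ≤ W.length) :
    IsWd S A (vt x W i) (vt x W j) ((W.take j).drop i) := by
  obtain ⟨γ, T, tr⟩ := h
  have hlen : ((W.take j).drop i).length = j - i := by simp; omega
  have hT := tr.mono hij hj
  have hTj := tr.mono hj le_rfl
  have hv : ∀ k ≤ j - i, vt (vt x W i) ((W.take j).drop i) k = vt x W (i + k) := by
    intro k hk
    rw [← vt_take (x := x) (W := W) hij, vt_drop, vt_take (by omega)]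
  refine ⟨fun t => γ (T i + t), fun k => T (i + k) - T i, ⟨?_, by simp, ?_, ?_, ?_, ?_⟩⟩
  · simp only [hlen]
    rw [show i + (j - i) = j by omega]
    exact tr.geo.shift (by omega)
  · intro k hk
    rw [hlen] at hk
    have := tr.mono (j := i) (k := i + k) (by omega) (by omega)
    rw [show T i + (T (i + k) - T i) = T (i + k) by omega, hv k hk]
    exact tr.vert _ (by omega)
  · rw [hlen, hv _ le_rfl]
    congr 1
    omega
  · intro k e he
    have hk : k < j - i := by
      rw [← hlen]
      by_contra hcon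
      rw [List.getElem?_eq_none (by omega)] at he
      simp at he
    have he' : W[i + k]? = some e := by
      rw [List.getElem?_drop, List.getElem?_take] at he
      split_ifs at he with h
      exact he
    have h1 := tr.mono (j := i) (k := i + k) (by omega) (by omega)
    rw [hv k (by omega)]
    rcases tr.mv _ _ he' with ⟨e1, e2⟩ | ⟨i', e1, e2, e3⟩
    · left
      refine ⟨e1, ?_⟩
      rw [← add_assoc, e2]; omega
    · right
      refine ⟨i', e1, ?_, ?_⟩
      · rw [← add_assoc, e2]; omega
      · rw [show T i + (T (i + k) - T i + 1) = T (i + k) + 1 by omega]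
        exact e3
  · intro t ht u hu
    rw [hlen] at ht
    rw [show i + (j - i) = j by omega] at ht
    obtain ⟨k, hk, hk'⟩ := tr.surj (T i + t) (by omega) u hu
    have hik : i ≤ k := by
      by_contra hcon
      have := tr.mono (j := k) (k := i) (by omega) (by omega)
      omega
    have hkj : k ≤ j := by
      by_contra hcon
      have := tr.mono (j := j) (k := k) (by omega) hk
      omega
    refine ⟨k - i, by rw [hlen]; omega, ?_⟩
    rw [show i + (k - i) = k by omega, hk']
    omega

theorem IsWd.single (h : IsWd S A x y W) {i : ℕ} {e : Option ι × G} (he : W[i]? = some e) :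
    IsWd S A (vt x W i) (vt x W (i + 1)) [e] := by
  have hi : i < W.length := by
    by_contra hcon
    rw [List.getElem?_eq_none (by omega)] at he
    simp at he
  have h1 := h.sub (i := i) (j := i + 1) (by omega) hi
  have h2 : (W.take (i + 1)).drop i = [e] := by
    rw [List.take_add_one, he, List.drop_append_of_le_length (by simp; omega),
      List.drop_eq_nil_of_le (by simp)]
    simp
  rwa [h2] at h1

/-- The moves of a geodesic word. -/
theorem IsWd.mv (hS : Subgroup.closure (S : Set G) = ⊤) {f : ℕ}
    (hf : ∀ (i : ι) (e x x' a a' : G), First S A i e x a → First S A i e x' a' →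
      wordDist S x x' ≤ 1 → wordDist S a a' ≤ f) (h : IsWd S A x y W)
    {e : Option ι × G} (he : e ∈ W) :
    (e.1 = none ∧ wordLength S e.2 ≤ 1) ∨
      ∃ i, e.1 = some i ∧ e.2 ∈ A i ∧ wordLength S e.2 ≤ f * (wordDist S x y + 1) := by
  obtain ⟨k, hk⟩ := List.mem_iff_getElem?.1 he
  have hklen : k < W.length := by
    by_contra hcon
    rw [List.getElem?_eq_none (by omega)] at hk
    simp at hk
  obtain ⟨γ, T, tr⟩ := h
  have hv := vt_succ (x := x) hk
  have hd : wordDist S (vt x W k) (vt x W (k + 1)) = wordLength S e.2 := by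
    rw [hv]; unfold wordDist; rw [inv_mul_cancel_left]
  have hT2 := tr.mono (j := k + 1) (k := W.length) (by omega) le_rfl
  have v1 := tr.vert k (by omega)
  have v2 := tr.vert (k + 1) (by omega)
  rcases tr.mv k e hk with ⟨e1, e2⟩ | ⟨i, e1, e2, e3⟩
  · left
    refine ⟨e1, ?_⟩
    rw [e2] at v2
    have hadj := tr.geo.adj (i := T k) (by omega)
    rw [v1, v2] at hadj
    have := wordDist_adj hadj
    rwa [hd] at this
  · right
    refine ⟨i, e1, ?_, ?_⟩
    · rw [e2] at v2
      have hadj := tr.geo.adj (i := T k + 1) (by omega)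
      rw [e3, show T k + 1 + 1 = T k + 2 by omega, v2] at hadj
      obtain ⟨a, h1, _, h3⟩ := adj_cone_right hadj
      rw [← Sum.inl_injective h1, hv, inv_mul_cancel_left] at h3
      exact h3
    · rw [← hd]
      rw [e2] at v2
      exact jump_le hS hf tr.geo tr.first tr.last (j := T k) (by omega) v1 e3 v2

/-- Closeness of the vertices of the third side to the vertices of the other sides. -/
theorem exists_wclose [Finite ι] (hS : Subgroup.closure (S : Set G) = ⊤)
    (hf : IsFineGraph (coned S A)) {δ : ℕ} (h4 : FourPt (coned S A) δ) :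
    ∃ ν : ℕ, ∀ (x y z : G) (Wp W₁ W₂ : List (Option ι × G)), IsWd S A x z Wp →
      IsWd S A x y W₁ → IsWd S A y z W₂ → ∀ k ≤ Wp.length,
      (∃ j ≤ W₁.length, wordDist S (vt x Wp k) (vt x W₁ j) ≤ ν) ∨
      (∃ j ≤ W₂.length, wordDist S (vt x Wp k) (vt y W₂ j) ≤ ν) := by
  obtain ⟨ν, hν⟩ := exists_close hS hf h4
  refine ⟨ν, fun x y z Wp W₁ W₂ hp h1 h2 k hk => ?_⟩
  obtain ⟨p, Tp, trp⟩ := hp
  obtain ⟨q₁, T₁, tr1⟩ := h1
  obtain ⟨q₂, T₂, tr2⟩ := h2
  obtain ⟨g, hg, hd⟩ := hν p (fun t => q₁ (T₁ W₁.length - t)) q₂ (Tp Wp.length) (T₁ W₁.length)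
    (T₂ W₂.length) x y z (vt x Wp k) trp.geo tr1.geo.rev tr2.geo
    (by simp only [Nat.sub_zero]; exact tr1.last) tr2.first
    (by simp only [Nat.sub_self]; exact tr1.first) trp.first tr2.last trp.last (Tp k)
    (by have := trp.mono hk le_rfl; omega) (trp.vert k hk)
  rcases hg with ⟨t, ht, hg⟩ | ⟨t, ht, hg⟩
  · left
    obtain ⟨j, hj, hj'⟩ := tr1.surj _ (Nat.sub_le _ _) g hg
    refine ⟨j, hj, ?_⟩
    have := tr1.vert j hj
    rw [hj', show q₁ (T₁ W₁.length - t) = Sum.inl g from hg] at this
    rw [← Sum.inl_injective this]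
    exact hd
  · right
    obtain ⟨j, hj, hj'⟩ := tr2.surj _ ht g hg
    refine ⟨j, hj, ?_⟩
    have := tr2.vert j hj
    rw [hj', hg] at this
    rw [← Sum.inl_injective this]
    exact hd

end Pda3a14
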