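import Pool.Agent.Lib.Pda3a14.Defs

/-!
# Finitely generated abelian groups (module SAb)

`finPres_of_comm`: a finitely generated abelian group `A` is finitely presented: let
`F = FreeGroup (Fin n) → A` be onto, `N₀` the normal closure of the commutators of the letters;
`F / N₀` is abelian and finitely generated, so the image of the kernel in it is finitely generated
(subgroups of finitely generated abelian groups are finitely generated: noetherian ℤ-modules), lift
generators.
`exists_lattice`: structure of finitely generated abelian groups (torsion subgroup finite, quotient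
free).
-/

namespace Pda3a14

namespace SAbAux

/-- Subgroups of finitely generated abelian groups are finitely generated. -/
theorem fg_sub {Q : Type*} [CommGroup Q] (hfg : Group.FG Q) (K : Subgroup Q) : K.FG := by
  rw [Subgroup.fg_iff_add_fg]
  haveI : Module.Finite ℤ (Additive Q) := by
    rw [Module.Finite.iff_addGroup_fg]
    exact GroupFG.iff_add_fg.mp hfg
  haveI : IsNoetherian ℤ (Additive Q) := inferInstance
  have h : (AddSubgroup.toIntSubmodule (Subgroup.toAddSubgroup K)).FG := IsNoetherian.noetherian _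
  rw [Submodule.fg_iff_addSubgroup_fg, AddSubgroup.toIntSubmodule_toAddSubgroup] at h
  exact h

end SAbAux

open SAbAux

theorem finPres_of_comm {A : Type*} [Group A] (hfg : Group.FG A) (hc : ∀ a b : A, a * b = b * a) :
    Nonempty (FinPres A) := by
  classical
  obtain ⟨α, hα, φ, hφ⟩ := Group.fg_iff_exists_freeGroup_hom_surjective_finite.mp hfg
  obtain ⟨n, ⟨e⟩⟩ := Finite.exists_equiv_fin α
  let π : FreeGroup (Fin n) →* A := φ.comp (FreeGroup.freeGroupCongr e).symm.toMonoidHom
  have hπ : Function.Surjective π := hφ.comp (FreeGroup.freeGroupCongr e).symm.surjective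
  let cm : Fin n × Fin n → FreeGroup (Fin n) := fun ij =>
    FreeGroup.of ij.1 * FreeGroup.of ij.2 * (FreeGroup.of ij.1)⁻¹ * (FreeGroup.of ij.2)⁻¹
  let C : Finset (FreeGroup (Fin n)) := Finset.univ.image cm
  let N : Subgroup (FreeGroup (Fin n)) := Subgroup.normalClosure (C : Set (FreeGroup (Fin n)))
  let mk : FreeGroup (Fin n) →* FreeGroup (Fin n) ⧸ N := QuotientGroup.mk' N
  have h0 : ∀ i j, Commute (mk (FreeGroup.of i)) (mk (FreeGroup.of j)) := by
    intro i j
    have hm : cm (i, j) ∈ N := Subgroup.subset_normalClosure (by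
      simp only [C, Finset.coe_image, Finset.coe_univ, Set.image_univ]
      exact ⟨(i, j), rfl⟩)
    have h1 : mk (cm (i, j)) = 1 := (QuotientGroup.eq_one_iff _).2 hm
    have h2 : mk (FreeGroup.of i) * mk (FreeGroup.of j) * (mk (FreeGroup.of i))⁻¹ *
        (mk (FreeGroup.of j))⁻¹ = 1 := by
      rw [← map_inv, ← map_inv, ← map_mul, ← map_mul, ← map_mul]
      exact h1
    show mk (FreeGroup.of i) * mk (FreeGroup.of j) = mk (FreeGroup.of j) * mk (FreeGroup.of i)
    have h3 := mul_inv_eq_one.1 h2
    exact mul_inv_eq_iff_eq_mul.1 h3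
  have h1 : ∀ i (g : FreeGroup (Fin n)), Commute (mk (FreeGroup.of i)) (mk g) := by
    intro i g
    induction g using FreeGroup.induction_on with
    | C1 => rw [map_one]; exact Commute.one_right _
    | of x => exact h0 i x
    | inv_of x ih => rw [map_inv]; exact ih.inv_right
    | mul x y hx hy => rw [map_mul]; exact hx.mul_right hy
  have h2 : ∀ (h g : FreeGroup (Fin n)), Commute (mk g) (mk h) := by
    intro h g
    induction g using FreeGroup.induction_on with
    | C1 => rw [map_one]; exact Commute.one_left _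
    | of x => exact h1 x h
    | inv_of x ih => rw [map_inv]; exact ih.inv_left
    | mul x y hx hy => rw [map_mul]; exact hx.mul_left hy
  have hcomm : ∀ a b : FreeGroup (Fin n) ⧸ N, a * b = b * a := by
    intro a b
    obtain ⟨a, rfl⟩ := QuotientGroup.mk'_surjective N a
    obtain ⟨b, rfl⟩ := QuotientGroup.mk'_surjective N b
    exact h2 b a
  letI : CommGroup (FreeGroup (Fin n) ⧸ N) :=
    { (inferInstance : Group (FreeGroup (Fin n) ⧸ N)) with mul_comm := hcomm }
  have hQ : Group.FG (FreeGroup (Fin n) ⧸ N) :=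
    Group.fg_of_surjective (f := mk) (QuotientGroup.mk'_surjective N)
  obtain ⟨S0, hS0⟩ := fg_sub hQ (π.ker.map mk)
  have hlift : ∀ s : FreeGroup (Fin n) ⧸ N, ∃ k : FreeGroup (Fin n), s ∈ S0 → k ∈ π.ker ∧ mk k = s := by
    intro s
    by_cases hs : s ∈ S0
    · have : s ∈ π.ker.map mk := by
        rw [← hS0]
        exact Subgroup.subset_closure hs
      obtain ⟨k, hk, hk'⟩ := this
      exact ⟨k, fun _ => ⟨hk, hk'⟩⟩
    · exact ⟨1, fun h => absurd h hs⟩
  choose g hg using hlift
  refine ⟨⟨n, π, C ∪ S0.image g, hπ, le_antisymm ?_ ?_⟩⟩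
  · intro k hk
    have hk' : mk k ∈ Subgroup.closure (S0 : Set (FreeGroup (Fin n) ⧸ N)) := by
      rw [hS0]
      exact ⟨k, hk, rfl⟩
    have hsub : (S0 : Set (FreeGroup (Fin n) ⧸ N)) ⊆
        mk '' (S0.image g : Finset (FreeGroup (Fin n))) := by
      intro s hs
      refine ⟨g s, ?_, (hg s hs).2⟩
      rw [Finset.mem_coe, Finset.mem_image]
      exact ⟨s, hs, rfl⟩
    have hk2 := Subgroup.closure_mono hsub hk'
    rw [← MonoidHom.map_closure] at hk2
    obtain ⟨t, ht, ht'⟩ := hk2
    have htN : t ∈ Subgroup.normalClosure ((C ∪ S0.image g : Finset (FreeGroup (Fin n))) :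
        Set (FreeGroup (Fin n))) := by
      have h3 : Subgroup.closure ((S0.image g : Finset (FreeGroup (Fin n))) :
          Set (FreeGroup (Fin n))) ≤ Subgroup.normalClosure
          ((C ∪ S0.image g : Finset (FreeGroup (Fin n))) : Set (FreeGroup (Fin n))) := by
        rw [Subgroup.closure_le]
        refine Set.Subset.trans ?_ Subgroup.subset_normalClosure
        rw [Finset.coe_union]
        exact Set.subset_union_right
      exact h3 ht
    have hd : t⁻¹ * k ∈ N := by
      rw [← QuotientGroup.eq]
      exact ht'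
    have hN : N ≤ Subgroup.normalClosure ((C ∪ S0.image g : Finset (FreeGroup (Fin n))) :
        Set (FreeGroup (Fin n))) := by
      apply Subgroup.normalClosure_mono
      rw [Finset.coe_union]
      exact Set.subset_union_left
    have := mul_mem htN (hN hd)
    rwa [mul_inv_cancel_left] at this
  · apply Subgroup.normalClosure_le_normal
    intro r hr
    rw [Finset.mem_coe, Finset.mem_union, Finset.mem_image, Finset.mem_image] at hr
    rcases hr with ⟨ij, -, rfl⟩ | ⟨s, hs, rfl⟩
    · show π (cm ij) = 1
      simp only [cm, map_mul, map_inv]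
      rw [hc (π (FreeGroup.of ij.1)) (π (FreeGroup.of ij.2))]
      group
    · exact (hg s hs).1

/-- A finitely generated abelian group is a product of a free abelian group of finite rank and a
finite group; multiplicative form. -/
theorem exists_lattice {A : Type*} [CommGroup A] (hfg : Group.FG A) :
    ∃ (k : ℕ) (e : Fin k → A) (F : Finset A), (∀ t ∈ F, ∃ n : ℕ, 0 < n ∧ t ^ n = 1) ∧
      (∀ a : Fin k → ℤ, a ≠ 0 → ∀ n : ℕ, 0 < n → (∏ i, e i ^ a i) ^ n ≠ 1) ∧
      ∀ x : A, ∃ a : Fin k → ℤ, ∃ t ∈ F, x = (∏ i, e i ^ a i) * t := by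
  classical
  obtain ⟨ι, j, fι, fj, p, hp, ex, ⟨φ⟩⟩ := @CommGroup.equiv_free_prod_prod_multiplicative_zmod A _ hfg
  haveI : ∀ i, NeZero (p i ^ ex i) := fun i => ⟨pow_ne_zero _ (hp i).ne_zero⟩
  haveI : ∀ i, Finite (Multiplicative (ZMod (p i ^ ex i))) := fun i =>
    Finite.of_equiv (ZMod (p i ^ ex i)) Multiplicative.ofAdd
  haveI : Finite ((i : ι) → Multiplicative (ZMod (p i ^ ex i))) := inferInstance
  letI : Fintype ((i : ι) → Multiplicative (ZMod (p i ^ ex i))) := Fintype.ofFinite _
  let ε : Fin (Fintype.card j) ≃ j := (Fintype.equivFin j).symm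
  let e : Fin (Fintype.card j) → A := fun i =>
    φ.symm (Pi.mulSingle (ε i) (Multiplicative.ofAdd (1 : ℤ)), 1)
  have key : ∀ a : Fin (Fintype.card j) → ℤ, φ (∏ i, e i ^ a i) =
      (fun m => Multiplicative.ofAdd (a (ε.symm m)), 1) := by
    intro a
    rw [map_prod]
    have h1 : ∀ i, φ (e i ^ a i) = ((Pi.mulSingle (ε i) (Multiplicative.ofAdd (a i)) :
        j → Multiplicative ℤ), 1) := by
      intro i
      rw [map_zpow, show φ (e i) = (Pi.mulSingle (ε i) (Multiplicative.ofAdd (1 : ℤ)), 1) from
        φ.apply_symm_apply _, Prod.pow_mk, one_zpow]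
      congr 1
      rw [← Pi.mulSingle_zpow]
      congr 1
      rw [← ofAdd_zsmul]
      simp
    rw [Finset.prod_congr rfl fun i _ => h1 i]
    refine Prod.ext ?_ ?_
    · rw [Prod.fst_prod]
      funext m
      rw [Finset.prod_apply, Finset.prod_eq_single (ε.symm m)]
      · simp
      · intro b _ hb
        simp only
        rw [Pi.mulSingle_eq_of_ne]
        intro h
        apply hb
        rw [h]
        simp
      · intro h
        exact absurd (Finset.mem_univ _) h
    · rw [Prod.snd_prod]
      simp
  refine ⟨Fintype.card j, e, Finset.univ.image fun t => φ.symm (1, t), ?_, ?_, ?_⟩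
  · intro t ht
    rw [Finset.mem_image] at ht
    obtain ⟨u, -, rfl⟩ := ht
    refine ⟨Nat.card ((i : ι) → Multiplicative (ZMod (p i ^ ex i))), Nat.card_pos, ?_⟩
    rw [← map_pow, Prod.pow_mk, one_pow, pow_card_eq_one']
    exact map_one _
  · intro a ha n hn h
    apply ha
    have h1 := congrArg φ h
    rw [map_pow, key, map_one, Prod.pow_mk] at h1
    have h2 := (Prod.ext_iff.1 h1).1
    funext i
    have h3 := congrFun h2 (ε i)
    simp only [Pi.pow_apply, Equiv.symm_apply_apply, Prod.fst_one, Pi.one_apply] at h3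
    rw [← ofAdd_nsmul, ofAdd_eq_one] at h3
    rcases smul_eq_zero.1 h3 with h4 | h4
    · omega
    · exact h4
  · intro x
    refine ⟨fun i => Multiplicative.toAdd ((φ x).1 (ε i)), φ.symm (1, (φ x).2), ?_, ?_⟩
    · rw [Finset.mem_image]
      exact ⟨(φ x).2, Finset.mem_univ _, rfl⟩
    · apply φ.injective
      rw [map_mul, key, φ.apply_symm_apply, Prod.mk_mul_mk, one_mul, mul_one]
      refine Prod.ext ?_ rfl
      funext m
      simp

/-- Subgroups of finitely generated abelian groups are finitely generated. -/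
theorem fg_of_le_comm {G : Type*} [Group G] {A K : Subgroup G} (hfg : A.FG)
    (hc : ∀ a ∈ A, ∀ b ∈ A, a * b = b * a) (hK : K ≤ A) : K.FG := by
  letI : CommGroup A :=
    { (inferInstance : Group A) with mul_comm := fun a b => Subtype.ext (hc a a.2 b b.2) }
  have h1 : Group.FG A := (Group.fg_iff_subgroup_fg A).2 hfg
  have h2 : (K.subgroupOf A).FG := fg_sub h1 _
  have h3 : (K.subgroupOf A).map A.subtype = K := by
    rw [Subgroup.subgroupOf_map_subtype]
    exact inf_eq_left.2 hK
  rw [← h3]
  obtain ⟨S, hS⟩ := h2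
  classical
  refine ⟨S.image A.subtype, ?_⟩
  rw [Finset.coe_image, ← MonoidHom.map_closure, hS]

end Pda3a14
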