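import Pool.Agent.Lib.Pda3a14.SRes

/-!
# Closed walks in trees are balanced (module SBal)

## Paper proof

Strong induction on the length of `L`. `L = []` is `Bal.nil`. Let `L = a :: L'`, `q₁ = hd a`,
adjacent to `q`. The walk `L'` goes from `q₁ ≠ q` to `q`; let `b` be its first letter with
`hd b = q`: `L' = L1 ++ b :: L2`, no letter of `L1` ends in `q` (`L1` may be empty). All vertices of
`L1` are `≠ q`, so the direction `d q` is constant along `L1` (`h3`); `tl b` is adjacent to `q`, so
`tl b = d q (tl b) = d q q₁ = q₁` (`h1`). So `L1` is a closed walk at `q₁`, `L2` is a closed walk at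
`q`, and `tl a = q = hd b = tl (rev b)`, `hd a = q₁ = tl b = hd (rev b)`.
-/

namespace Pda3a14

/-- the first return of a walk to its end `q` -/
theorem exists_first_return {V Y : Type*} (T : SimpleGraph V) (d : V → V → V)
    (h3 : ∀ x p q, p ≠ x → q ≠ x → T.Adj p q → d x p = d x q)
    (tl hd : Y → V) (q : V) (L : List Y) :
    ∀ p, IsW T tl hd p L q → p ≠ q → ∃ (L1 : List Y) (b : Y) (L2 : List Y),
      L = L1 ++ b :: L2 ∧ hd b = q ∧ IsW T tl hd p L1 (tl b) ∧ T.Adj (tl b) q ∧
      IsW T tl hd q L2 q ∧ d q p = d q (tl b) := by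
  induction L with
  | nil =>
    intro p hp hpq
    exact absurd hp hpq
  | cons y L' ih =>
    intro p hp hpq
    obtain ⟨e1, e2, e3⟩ := hp
    by_cases hy : hd y = q
    · refine ⟨[], y, L', rfl, hy, e1.symm, ?_, ?_, by rw [e1]⟩
      · rw [e1, ← hy]
        exact e2
      · rw [hy] at e3
        exact e3
    · obtain ⟨L1, b, L2, f1, f2, f3, f4, f5, f6⟩ := ih (hd y) e3 hy
      refine ⟨y :: L1, b, L2, by rw [f1]; rfl, f2, ⟨e1, e2, f3⟩, f4, f5, ?_⟩
      rw [h3 q p (hd y) hpq hy e2, f6]

theorem exists_bal {V Y : Type*} (T : SimpleGraph V) (d : V → V → V)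
    (h1 : ∀ x p, T.Adj x p → d x p = p)
    (h3 : ∀ x p q, p ≠ x → q ≠ x → T.Adj p q → d x p = d x q)
    (tl hd : Y → V) (rev : Y → Y) (hr1 : ∀ y, tl (rev y) = hd y) (hr2 : ∀ y, hd (rev y) = tl y)
    (L : List Y) (q : V) (hL : IsW T tl hd q L q) :
    ∃ P : List (Y × Y), Bal rev L P ∧ ∀ p ∈ P, tl p.1 = tl p.2 ∧ hd p.1 = hd p.2 := by
  obtain ⟨n, hn⟩ : ∃ n, L.length ≤ n := ⟨_, le_rfl⟩
  induction n generalizing L q with
  | zero =>
    have hnil : L = [] := List.length_eq_zero_iff.1 (Nat.le_zero.1 hn)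
    subst hnil
    exact ⟨[], Bal.nil, fun p hp => absurd hp (List.not_mem_nil)⟩
  | succ n ih =>
    cases L with
    | nil => exact ⟨[], Bal.nil, fun p hp => absurd hp (List.not_mem_nil)⟩
    | cons a L' =>
      obtain ⟨e1, e2, e3⟩ := hL
      have hne : hd a ≠ q := (T.ne_of_adj e2).symm
      obtain ⟨L1, b, L2, f1, f2, f3, f4, f5, f6⟩ :=
        exists_first_return T d h3 tl hd q L' (hd a) e3 hne
      have e4 : hd a = tl b := by
        rw [h1 q (hd a) e2, h1 q (tl b) f4.symm] at f6
        exact f6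
      rw [← e4] at f3
      have hlen : L1.length + L2.length + 1 ≤ n := by
        rw [f1, List.length_cons, List.length_append, List.length_cons] at hn
        omega
      obtain ⟨P1, g1, g2⟩ := ih L1 (hd a) f3 (by omega)
      obtain ⟨P2, g3, g4⟩ := ih L2 q f5 (by omega)
      subst f1
      refine ⟨(a, rev b) :: (P1 ++ P2), Bal.node g1 g3, ?_⟩
      intro p hp
      rcases List.mem_cons.1 hp with hp | hp
      · subst hp
        exact ⟨by rw [hr1, f2, e1], by rw [hr2, e4]⟩
      · rcases List.mem_append.1 hp with hp | hp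
        · exact g2 p hp
        · exact g4 p hp

end Pda3a14
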