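import Pool.Agent.Lib.Pda3a14.SPath

/-!
# The data of a finitely presented group acting on a tree
-/

namespace Pda3a14

open MulAction

variable {G : Type*} [Group G] {V : Type*} [MulAction G V]

/-- Representatives of the orbits. -/
theorem exists_rep (H : Subgroup G) : ∃ rep : V → V, (∀ z, ∃ h ∈ H, h • rep z = z) ∧
    ∀ z, ∀ h ∈ H, rep (h • z) = rep z := by
  let s : Setoid V := {
    r := fun a b => ∃ h ∈ H, h • a = b
    iseqv := {
      refl := fun a => ⟨1, H.one_mem, one_smul _ _⟩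
      symm := by
        rintro a b ⟨h, hh, rfl⟩
        exact ⟨h⁻¹, H.inv_mem hh, inv_smul_smul _ _⟩
      trans := by
        rintro a b c ⟨h, hh, rfl⟩ ⟨h', hh', rfl⟩
        exact ⟨h' * h, H.mul_mem hh' hh, mul_smul _ _ _⟩ } }
  refine ⟨fun z => (Quotient.mk s z).out, fun z => ?_, fun z h hh => ?_⟩
  · exact Quotient.exact (Quotient.out_eq (Quotient.mk s z))
  · have : Quotient.mk s (h • z) = Quotient.mk s z :=
      Quotient.sound ⟨h⁻¹, H.inv_mem hh, inv_smul_smul _ _⟩
    simp only [this]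

theorem tree_area (T : SimpleGraph V) (hT : T.IsTree)
    (hadj : ∀ (g : G) (x y : V), T.Adj x y → T.Adj (g • x) (g • y))
    (d : V → V → V) (hd1 : ∀ x p, T.Adj x p → d x p = p)
    (hd3 : ∀ x p q, p ≠ x → q ≠ x → T.Adj p q → d x p = d x q)
    (H : Subgroup G)
    (und : ∀ x y, T.Adj x y → Undistorted (H ⊓ stabilizer G x ⊓ stabilizer G y)) (P : SPres H) (Q : ∀ o : V, SPres (H ⊓ stabilizer G o)) :
    ∃ X : Set V, X.Finite ∧ ∃ C' : ℕ, ∀ D : ℕ → ℕ, Monotone D →
      (∀ o ∈ X, ∀ (m : ℕ) (z : FreeGroup (Fin (Q o).n)), z.norm ≤ m → (Q o).π z = 1 →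
        AreaLE ((Q o).R : Set (FreeGroup (Fin (Q o).n))) (D m) z) →
      ∀ (x : ℕ) (w : FreeGroup (Fin P.n)), w.norm ≤ x → P.π w = 1 →
        AreaLE (P.R : Set (FreeGroup (Fin P.n)))
          (C' * (x + 1) * (D (C' * (x + 1)) + C' * (x + 1))) w := by
  classical
  obtain ⟨v0⟩ : Nonempty V := hT.1.nonempty
  obtain ⟨rep, hrep1, hrep2⟩ := exists_rep (V := V) H
  have hτ : ∀ z, ∃ w : FreeGroup (Fin P.n), P.π w • rep z = z := by
    intro z
    obtain ⟨h, hh, hz⟩ := hrep1 z
    obtain ⟨w, hw⟩ := P.exists_word hh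
    exact ⟨w, by rw [hw]; exact hz⟩
  choose τ hτ using hτ
  choose φ hφ using fun o : V => P.exists_lift (Q o) inf_le_left
  have hW : ∀ i : Fin P.n, ∃ W : T.Walk v0 (P.π (FreeGroup.of i) • v0), True := by
    intro i
    obtain ⟨W⟩ := hT.1.preconnected v0 (P.π (FreeGroup.of i) • v0)
    exact ⟨W, trivial⟩
  choose W _ using hW
  let Z : Set V := insert v0 (⋃ i : Fin P.n, (fun j => (W i).getVert j) '' Set.Iic (W i).length)
  have hZ : Z.Finite := by
    apply Set.Finite.insert
    apply Set.finite_iUnion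
    intro i
    exact (Set.finite_Iic _).image _
  have hZi : ∀ (i : Fin P.n) (j : ℕ), j ≤ (W i).length → (W i).getVert j ∈ Z := by
    intro i j hj
    right
    rw [Set.mem_iUnion]
    exact ⟨i, j, hj, rfl⟩
  let B0 : Set (FreeGroup (Fin P.n)) := ((fun p : V × V => (τ p.1)⁻¹ * τ p.2) '' (Z ×ˢ Z)) ∪
    Set.range (fun i : Fin P.n => (τ (P.π (FreeGroup.of i) • v0))⁻¹ * FreeGroup.of i * τ v0)
  have hB0 : B0.Finite := ((hZ.prod hZ).image _).union (Set.finite_range _)
  let A : TData G V := {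
    H := H
    P := P
    Q := Q
    φ := φ
    hφ := hφ
    X := rep '' Z
    Xfin := hZ.image _
    sep := by
      rintro _ ⟨a, _, rfl⟩ _ ⟨b, _, rfl⟩ h hh he
      have hrr : ∀ z, rep (rep z) = rep z := by
        intro z
        obtain ⟨k, hk, hz⟩ := hrep1 z
        have := hrep2 (rep z) k hk
        rw [hz] at this
        exact this.symm
      have := hrep2 (rep a) h hh
      rw [he, hrr, hrr] at this
      exact this.symm
    B := B0 ∪ B0⁻¹
    Bfin := hB0.union hB0.inv
    T := T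
    adj := hadj
    d := d
    d1 := hd1
    d3 := hd3
    und := und }
  have hAB : ∀ β ∈ A.B, β⁻¹ ∈ A.B := by
    intro β hβ
    rcases hβ with h | h
    · right; rwa [Set.mem_inv, inv_inv]
    · left; exact h
  obtain ⟨Λ, hΛ⟩ := exists_uniform (Set.finite_univ (α := Fin P.n))
    (fun i m => (W i).length + 1 ≤ m) (fun i m n hmn h => h.trans hmn)
    (fun i _ => ⟨(W i).length + 1, le_rfl⟩)
  have hpos : ∀ (f : FreeGroup (Fin P.n)) (z : V), A.pos (f * τ z, rep z) = P.π f • z := by
    intro f z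
    change P.π (f * τ z) • rep z = _
    rw [map_mul, mul_smul, hτ]
  have hpath : ∀ (i : Fin A.P.n) (f : FreeGroup (Fin A.P.n)), ∃ n ≤ Λ,
      A.PRel n (f * τ v0, rep v0) (f * FreeGroup.of i * τ v0, rep v0) := by
    intro i f
    have h1 : ∀ j, j ≤ (W i).length →
        A.PRel j (f * τ v0, rep v0) (f * τ ((W i).getVert j), rep ((W i).getVert j)) := by
      intro j
      induction j with
      | zero =>
        intro _
        rw [SimpleGraph.Walk.getVert_zero]
        exact TData.PRel.refl _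
      | succ j ih =>
        intro hj
        refine (ih (by omega)).snoc ⟨⟨_, hZi i j (by omega), rfl⟩, ⟨_, hZi i (j + 1) hj, rfl⟩,
          ?_, ?_⟩
        · left; left
          refine ⟨((W i).getVert j, (W i).getVert (j + 1)), ⟨hZi i j (by omega), hZi i _ hj⟩, ?_⟩
          change (τ ((W i).getVert j))⁻¹ * τ ((W i).getVert (j + 1)) =
            (f * τ ((W i).getVert j))⁻¹ * (f * τ ((W i).getVert (j + 1)))
          group
        · right
          rw [hpos, hpos]
          exact hadj _ _ _ ((W i).adj_getVert_succ (by omega))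
    have h2 := h1 _ le_rfl
    rw [SimpleGraph.Walk.getVert_length] at h2
    have hr : rep (P.π (FreeGroup.of i) • v0) = rep v0 := hrep2 _ _ (P.π_mem _)
    refine ⟨(W i).length + 1, hΛ i trivial, h2.snoc ⟨?_, ?_, ?_, ?_⟩⟩
    · exact ⟨_, by
        have := hZi i _ le_rfl
        rwa [SimpleGraph.Walk.getVert_length] at this, rfl⟩
    · exact ⟨v0, Set.mem_insert _ _, rfl⟩
    · left; right
      refine ⟨i, ?_⟩
      change (τ (P.π (FreeGroup.of i) • v0))⁻¹ * FreeGroup.of i * τ v0 =
        (f * τ (P.π (FreeGroup.of i) • v0))⁻¹ * (f * FreeGroup.of i * τ v0)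
      group
    · left
      rw [hpos]
      have := hpos (f * FreeGroup.of i) v0
      change A.pos (f * FreeGroup.of i * τ v0, rep v0) = _ at this
      rw [this, map_mul, mul_smul]
  obtain ⟨C', hC'⟩ := A.area_of_paths hAB (rep v0) (τ v0) ⟨v0, Set.mem_insert _ _, rfl⟩ hpath
  exact ⟨rep '' Z, hZ.image _, C', hC'⟩

end Pda3a14
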