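import Pool.Agent.Lib.Pda3a14.Cat

/-!
# Translation lengths in CAT(0) groups (module SCat)

## Paper proof

Let `G` act on the CAT(0) space `X` as in `CATZeroGroup`, `f_g(x) = dist x (g • x)`.
(a) Midpoints: if `m` is the midpoint of a geodesic from `x` to `g x`, then `g m` is the midpoint of
the translated geodesic from `g x` to `g² x`, and `dist m (g m) ≤ dist x (g² x) / 2`: with
`P = dist x (g x) = dist (g x) (g² x)`, `R = dist x (g² x)`, the inequality `comparison` at `t = 1/2`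
gives `dist m (g m)² ≤ dist m (g x)²/2 + dist m (g² x)²/2 - P²/4` and
`dist (g² x) m² ≤ R²/2 + P²/2 - P²/4`, and `dist m (g x) = P/2`; so `dist m (g m)² ≤ R²/4`.
(b) So if `c ≤ f_g(y)` for ALL `y`, then `2 c ≤ f_{g²}(x)` for all `x`, and by induction
`2^k c ≤ f_{g^(2^k)}(x)` for all `x`.
(c) There is `c > 0` with `c ≤ f_g(y)` for all `y ∈ X` and all `g` of infinite order: otherwise
there are `g_i` of infinite order and `y_i` with `f_{g_i}(y_i) → 0`; translating (conjugating) we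
may assume `y_i ∈ K`, the compact set; then `g_i` lies in the finite set of `g` with
`dist x₀ (g x₀) ≤ 2 D + 1` (`D` a bound for `dist x₀ y`, `y ∈ K`), so one `g = g_i` occurs
infinitely often; a limit point `y ∈ K` of these `y_i` is fixed by `g`; all powers of `g` fix `y`,
so by properness `{g | dist y (g y) ≤ 0}` is finite and contains them: `g` has finite order.
(Or: for each of the finitely many `g` of infinite order in the finite set, the continuous function
`y ↦ dist y (g y)` has a positive minimum on `K`.)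
-/

namespace Pda3a14

namespace SCatAux

variable {G : Type*} [Group G] {X : Type*} [MetricSpace X] [MulAction G X]

/-- Midpoints. -/
theorem mid (hX : IsCATZero X) (hiso : ∀ (g : G) (x y : X), dist (g • x) (g • y) = dist x y)
    (g : G) (x : X) : ∃ m : X, dist m (g • m) ≤ dist x (g ^ 2 • x) / 2 := by
  obtain ⟨γ, hγ⟩ := hX.geodesic x (g • x)
  have hγ' : IsGeodesic (fun t => g • γ t) (g • x) (g • g • x) := by
    refine ⟨by simp only [hγ.1], by simp only [hγ.2.1], ?_⟩
    intro s hs t ht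
    rw [hiso, hiso]
    exact hγ.2.2 s hs t ht
  have ht : (1 / 2 : ℝ) ∈ Set.Icc (0 : ℝ) 1 := by constructor <;> norm_num
  have h1 := hX.comparison (γ (1 / 2)) (g • x) (g • g • x) _ hγ' (1 / 2) ht
  have h2 := hX.comparison (g • g • x) x (g • x) γ hγ (1 / 2) ht
  have h3 : dist (γ (1 / 2)) (g • x) = 1 / 2 * dist x (g • x) := by
    rw [← hγ.2.1, hγ.2.2 (1 / 2) ht 1 (by simp), hγ.2.1]
    norm_num
  have h4 : dist (g • g • x) (g • x) = dist x (g • x) := by
    rw [hiso, dist_comm]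
  have h5 : dist (g • x) (g • g • x) = dist x (g • x) := hiso _ _ _
  have h6 : g ^ 2 • x = g • g • x := by rw [pow_two, mul_smul]
  refine ⟨γ (1 / 2), ?_⟩
  rw [h6]
  rw [h4, dist_comm (g • g • x) (γ (1 / 2)), dist_comm (g • g • x) x] at h2
  rw [h3, h5] at h1
  have h7 : dist (γ (1 / 2)) (g • γ (1 / 2)) ^ 2 ≤ (dist x (g • g • x) / 2) ^ 2 := by
    nlinarith
  exact le_of_sq_le_sq h7 (by positivity)

theorem double (hX : IsCATZero X) (hiso : ∀ (g : G) (x y : X), dist (g • x) (g • y) = dist x y)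
    (g : G) (c : ℝ) (hc : ∀ y : X, c ≤ dist y (g • y)) (k : ℕ) :
    ∀ x : X, c * 2 ^ k ≤ dist x (g ^ 2 ^ k • x) := by
  induction k with
  | zero =>
    intro x
    rw [pow_zero, mul_one, pow_zero, pow_one]
    exact hc x
  | succ k ih =>
    intro x
    obtain ⟨m, hm⟩ := mid hX hiso (g ^ 2 ^ k) x
    have h1 := ih m
    rw [← pow_mul, ← pow_succ] at hm
    rw [pow_succ (2 : ℝ)]
    linarith

theorem no_fix (hfin : ∀ (x : X) (r : ℝ), {g : G | dist x (g • x) ≤ r}.Finite) {g : G}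
    (hg : ∀ n : ℕ, 0 < n → g ^ n ≠ 1) (y : X) : 0 < dist y (g • y) := by
  by_contra hneg
  have h0 : dist y (g • y) = 0 := le_antisymm (not_lt.1 hneg) dist_nonneg
  have h1 : g • y = y := (dist_eq_zero.1 h0).symm
  have h2 : ∀ n : ℕ, g ^ n • y = y := by
    intro n
    induction n with
    | zero => rw [pow_zero, one_smul]
    | succ n ih => rw [pow_succ, mul_smul, h1, ih]
  have h3 : Function.Injective fun n : ℕ => g ^ n := by
    rw [injective_pow_iff_not_isOfFinOrder, isOfFinOrder_iff_pow_eq_one]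
    rintro ⟨n, hn, hn'⟩
    exact hg n hn hn'
  apply Set.infinite_range_of_injective h3
  apply (hfin y 0).subset
  rintro _ ⟨n, rfl⟩
  change dist y (g ^ n • y) ≤ 0
  rw [h2, dist_self]

theorem exists_pos {ι : Type*} {S : Set ι} (hS : S.Finite) (f : ι → ℝ) (hf : ∀ i, 0 < f i) :
    ∃ c : ℝ, 0 < c ∧ ∀ i ∈ S, c ≤ f i := by
  rcases S.eq_empty_or_nonempty with rfl | hne
  · exact ⟨1, one_pos, fun i hi => absurd hi (Set.notMem_empty i)⟩
  · obtain ⟨i, hi, hmin⟩ := Set.exists_min_image S f hS hne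
    exact ⟨f i, hf i, hmin⟩

theorem lower (hiso : ∀ (g : G) (x y : X), dist (g • x) (g • y) = dist x y)
    (hfin : ∀ (x : X) (r : ℝ), {g : G | dist x (g • x) ≤ r}.Finite) (x0 : X)
    (K : Set X) (hK : IsCompact K) (hcov : ∀ x : X, ∃ g : G, g • x ∈ K) :
    ∃ c : ℝ, 0 < c ∧ ∀ g : G, (∀ n : ℕ, 0 < n → g ^ n ≠ 1) → ∀ y : X, c ≤ dist y (g • y) := by
  obtain ⟨R0, hR0⟩ := hK.isBounded.subset_closedBall x0
  have hex : ∀ g : G, ∃ c : ℝ, 0 < c ∧
      ((∀ n : ℕ, 0 < n → g ^ n ≠ 1) → ∀ y ∈ K, c ≤ dist y (g • y)) := by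
    intro g
    by_cases hg : ∀ n : ℕ, 0 < n → g ^ n ≠ 1
    · rcases K.eq_empty_or_nonempty with rfl | hne
      · exact ⟨1, one_pos, fun _ y hy => absurd hy (Set.notMem_empty y)⟩
      · have hcont : Continuous fun y : X => dist y (g • y) :=
          continuous_id.dist (Isometry.of_dist_eq (hiso g)).continuous
        obtain ⟨y, -, hy⟩ := hK.exists_isMinOn hne hcont.continuousOn
        exact ⟨dist y (g • y), no_fix hfin hg y, fun _ z hz => hy hz⟩
    · exact ⟨1, one_pos, fun h => absurd h hg⟩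
  choose f hf hf' using hex
  obtain ⟨c, hc, hc'⟩ := exists_pos (hfin x0 (2 * R0 + 1)) f hf
  refine ⟨min c 1, lt_min hc one_pos, ?_⟩
  intro g hg y
  obtain ⟨h, hy⟩ := hcov y
  have hg' : ∀ n : ℕ, 0 < n → (h * g * h⁻¹) ^ n ≠ 1 := by
    intro n hn h1
    apply hg n hn
    rw [conj_pow] at h1
    have h2 : g ^ n = h⁻¹ * (h * g ^ n * h⁻¹) * h := by group
    rw [h2, h1]
    group
  have hd : dist (h • y) ((h * g * h⁻¹) • h • y) = dist y (g • y) := by
    rw [smul_smul, inv_mul_cancel_right, mul_smul, hiso]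
  rw [← hd]
  by_cases h1 : 1 ≤ dist (h • y) ((h * g * h⁻¹) • h • y)
  · exact (min_le_right _ _).trans h1
  · push Not at h1
    have h2 : dist (h • y) x0 ≤ R0 := hR0 hy
    have h3 : h * g * h⁻¹ ∈ {g : G | dist x0 (g • x0) ≤ 2 * R0 + 1} := by
      change dist x0 ((h * g * h⁻¹) • x0) ≤ 2 * R0 + 1
      have h4 := dist_triangle4 x0 (h • y) ((h * g * h⁻¹) • h • y) ((h * g * h⁻¹) • x0)
      rw [hiso (h * g * h⁻¹)] at h4
      rw [dist_comm x0 (h • y)] at h4
      linarith
    exact (min_le_left _ _).trans ((hc' _ h3).trans (hf' _ hg' _ hy))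

end SCatAux

theorem cat_translation {G : Type*} [Group G] (h : CATZeroGroup G) :
    ∃ (X : Type) (_ : MetricSpace X) (_ : MulAction G X) (x0 : X) (c : ℝ), 0 < c ∧
      (∀ (g : G) (x y : X), dist (g • x) (g • y) = dist x y) ∧
      ∀ g : G, (∀ n : ℕ, 0 < n → g ^ n ≠ 1) → ∀ k : ℕ, c * 2 ^ k ≤ dist x0 (g ^ 2 ^ k • x0) := by
  obtain ⟨X, _, _, hX, hiso, hfin, K, hK, hcov⟩ := h
  obtain ⟨x0⟩ := hX.nonempty
  obtain ⟨c, hc, hc'⟩ := SCatAux.lower hiso hfin x0 K hK hcov
  exact ⟨X, inferInstance, inferInstance, x0, c, hc, hiso, fun g hg k =>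
    SCatAux.double hX hiso g c (hc' g hg) k x0⟩

/-- CAT(0) groups are finitely generated. -/
theorem cat_fg {G : Type*} [Group G] (h : CATZeroGroup G) : Group.FG G := by
  obtain ⟨S, -, -, hS, -⟩ := h.combable
  exact ⟨⟨S, hS⟩⟩

end Pda3a14
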