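import Pool.Agent.Lib.Pda3a14.SVirtual

/-!
# Hierarchies
-/

namespace Pda3a14

open MulAction

/-- The condition on the edge groups of an action of `G` on the tree `T`: every finitely generated
subgroup of an edge group is finitely presented and undistorted in `G`, or `G` is a CAT(0) group and
every edge group has a finitely generated abelian subgroup of finite index. -/
def TameEdges (G : Type) [Group G] {V : Type} [MulAction G V] (T : SimpleGraph V) : Prop :=
  (∀ x y : V, T.Adj x y → ∀ K ≤ stabilizer G x ⊓ stabilizer G y, K.FG →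
    Nonempty (FinPres K) ∧ Undistorted K) ∨
  (CATZeroGroup G ∧ ∀ x y : V, T.Adj x y → ∃ B ≤ stabilizer G x ⊓ stabilizer G y,
    B.relIndex (stabilizer G x ⊓ stabilizer G y) ≠ 0 ∧ B.FG ∧ ∀ a ∈ B, ∀ b ∈ B, a * b = b * a)

theorem TameEdges.edges {G : Type} [Group G] {V : Type} [MulAction G V] {T : SimpleGraph V}
    (h : TameEdges G T) : ∀ x y : V, T.Adj x y → ∀ K ≤ stabilizer G x ⊓ stabilizer G y, K.FG →
      Nonempty (FinPres K) ∧ Undistorted K := by
  rcases h with h | ⟨hG, hA⟩
  · exact h
  · exact edges_of_cat hG T hA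

/-- The smallest class of groups which contains the finite groups, every group with a subgroup of
finite index in the class, and every group which acts on a tree with tame edge groups and vertex
groups in the class. -/
inductive TreeClass : (G : Type) → Group G → Prop
  | finite (G : Type) (i : Group G) : Finite G → TreeClass G i
  | index (G : Type) (i : Group G) (G₀ : Subgroup G) : G₀.FiniteIndex →
      TreeClass G₀ inferInstance → TreeClass G i
  | tree (G V : Type) (i : Group G) (j : MulAction G V) (T : SimpleGraph V) : T.IsTree →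
      (∀ (g : G) (x y : V), T.Adj x y → T.Adj (g • x) (g • y)) → TameEdges G T →
      (∀ x : V, TreeClass (stabilizer G x) inferInstance) → TreeClass G i

theorem dehn_finite {H : Type*} [Group H] [Finite H] (P : FinPres H) :
    ∃ d : ℕ, Preceq (fun x => (P.dehn x : ℝ)) (fun x => x ^ d) := by
  classical
  let R : Set (FreeGroup (Fin P.n)) := (P.R : Set (FreeGroup (Fin P.n)))
  have hnear : ∀ u v : FreeGroup (Fin P.n), P.π u = P.π v → ∃ m, Near R m u v := by
    intro u v h
    apply exists_areaLE
    rw [← P.ker, MonoidHom.mem_ker, map_mul, map_inv, h, mul_inv_cancel]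
  have hu : ∀ h : H, ∃ u : FreeGroup (Fin P.n), P.π u = h ∧ (h = 1 → u = 1) := by
    intro h
    by_cases h1 : h = 1
    · exact ⟨1, by rw [map_one, h1], fun _ => rfl⟩
    · obtain ⟨u, hu⟩ := P.surj h
      exact ⟨u, hu, fun h' => absurd h' h1⟩
  choose u hu1 hu2 using hu
  obtain ⟨K, hK⟩ := exists_uniform (s := (Set.univ : Set (H × Fin P.n))) Set.finite_univ
    (fun p m => Near R m (u p.1 * FreeGroup.of p.2) (u (p.1 * P.π (FreeGroup.of p.2))))
    (fun p m n hmn h => h.mono hmn)
    (by
      rintro ⟨h, i⟩ _
      apply hnear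
      rw [map_mul, hu1, hu1])
  have key : ∀ (L : List (Fin P.n × Bool)) (h : H),
      Near R (L.length * K) (u h * FreeGroup.mk L) (u (h * P.π (FreeGroup.mk L))) := by
    intro L
    induction L with
    | nil =>
      intro h
      have e : (FreeGroup.mk [] : FreeGroup (Fin P.n)) = 1 := rfl
      rw [e, mul_one, map_one, mul_one]
      exact (Near.refl _).mono (Nat.zero_le _)
    | cons a L ih =>
      intro h
      have e : (FreeGroup.mk (a :: L) : FreeGroup (Fin P.n)) =
          FreeGroup.mk [a] * FreeGroup.mk L := by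
        rw [FreeGroup.mul_mk]; rfl
      have h1 : Near R K (u h * FreeGroup.mk [a]) (u (h * P.π (FreeGroup.mk [a]))) := by
        obtain ⟨a, b⟩ := a
        cases b
        · have e2 : (FreeGroup.mk [(a, false)] : FreeGroup (Fin P.n)) =
              (FreeGroup.of a)⁻¹ := by
            simp [FreeGroup.of, FreeGroup.inv_mk, FreeGroup.invRev]
          rw [e2, map_inv]
          have h2 := (hK (h * (P.π (FreeGroup.of a))⁻¹, a) trivial).mul_right (FreeGroup.of a)⁻¹
          simp only [mul_inv_cancel_right, inv_mul_cancel_right] at h2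
          exact h2.symm
        · exact hK (h, a) trivial
      have h2 := (h1.mul_right (FreeGroup.mk L)).trans (ih (h * P.π (FreeGroup.mk [a])))
      rw [e, ← mul_assoc, map_mul, ← mul_assoc]
      apply h2.mono
      rw [List.length_cons, Nat.succ_mul]
      omega
  refine ⟨1, poly_of_nat_bound (E := K) (e := 1) (fun x => ?_)⟩
  apply P.dehn_le
  intro w hw h1
  have h2 := key w.toWord 1
  rw [FreeGroup.mk_toWord, h1, mul_one, hu2 1 rfl, one_mul] at h2
  have h3 : AreaLE R (w.toWord.length * K) w := by
    simpa [Near] using h2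
  apply h3.mono
  rw [pow_one, mul_comm]
  apply Nat.mul_le_mul_left
  exact hw.trans (by omega)

theorem TreeClass.poly {G : Type} {i : Group G} (h : TreeClass G i) :
    ∀ (H : Subgroup G) (P : FinPres H),
      ∃ d : ℕ, Preceq (fun x => (P.dehn x : ℝ)) (fun x => x ^ d) := by
  induction h with
  | finite G i hf =>
    intro H P
    exact dehn_finite P
  | index G i G₀ h0 _ ih =>
    intro H P
    apply poly_virtual G₀ h0 ?_ H P
    intro K hK P'
    obtain ⟨d, hd⟩ := ih (K.subgroupOf G₀) (P'.ofEquiv (Subgroup.subgroupOfEquivOfLe hK).symm)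
    rw [FinPres.ofEquiv_dehn] at hd
    exact ⟨d, hd⟩
  | tree G V i j T hT hadj hE _ ih =>
    intro H P
    apply poly_strong T hT hadj hE.edges ?_ H P
    intro x K hK P'
    obtain ⟨d, hd⟩ := ih x (K.subgroupOf (stabilizer G x))
      (P'.ofEquiv (Subgroup.subgroupOfEquivOfLe hK).symm)
    rw [FinPres.ofEquiv_dehn] at hd
    exact ⟨d, hd⟩

end Pda3a14
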