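import Pool.Agent.Lib.Pda3a14.SDehn

/-!
# Constants
-/

namespace Pda3a14

open MulAction

variable {G : Type*} [Group G] {V : Type*} [MulAction G V]

theorem inBall_word {S : Finset G} {n : ℕ} (π : FreeGroup (Fin n) →* G) {c : ℕ}
    (hc : ∀ i, InBall S c (π (FreeGroup.of i))) (f : FreeGroup (Fin n)) :
    InBall S (f.norm * c) (π f) := by
  have key : ∀ L : List (Fin n × Bool), InBall S (L.length * c) (π (FreeGroup.mk L)) := by
    intro L
    induction L with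
    | nil =>
      have : (FreeGroup.mk [] : FreeGroup (Fin n)) = 1 := rfl
      rw [this, map_one]
      exact InBall.one.mono (Nat.zero_le _)
    | cons a L ih =>
      have e : (FreeGroup.mk (a :: L) : FreeGroup (Fin n)) =
          FreeGroup.mk [a] * FreeGroup.mk L := by
        rw [FreeGroup.mul_mk]; rfl
      rw [e, map_mul, List.length_cons, add_mul, one_mul, add_comm]
      apply InBall.mul _ ih
      obtain ⟨a, b⟩ := a
      cases b
      · have e2 : (FreeGroup.mk [(a, false)] : FreeGroup (Fin n)) = (FreeGroup.of a)⁻¹ := by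
          simp [FreeGroup.of, FreeGroup.inv_mk, FreeGroup.invRev]
        rw [e2, map_inv]
        exact (hc a).inv
      · exact hc a
  have := key f.toWord
  rwa [FreeGroup.mk_toWord] at this

theorem const_edge {H : Subgroup G} (P : SPres H) {o o' : V} (Q : SPres (H ⊓ stabilizer G o))
    (Q' : SPres (H ⊓ stabilizer G o')) (φ : FreeGroup (Fin Q.n) →* FreeGroup (Fin P.n))
    (φ' : FreeGroup (Fin Q'.n) →* FreeGroup (Fin P.n)) (hφ : ∀ z, P.π (φ z) = Q.π z)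
    (hφ' : ∀ z, P.π (φ' z) = Q'.π z) (β : FreeGroup (Fin P.n)) (E : Subgroup G)
    (hE1 : E ≤ H ⊓ stabilizer G o') (hE2 : ∀ e ∈ E, P.π β * e * (P.π β)⁻¹ ∈ stabilizer G o)
    (hU : Undistorted E) :
    ∃ K, ∀ N (f : FreeGroup (Fin P.n)), f.norm ≤ N → P.π f ∈ E →
      ∃ a b, Q'.π a = P.π f ∧ a.norm ≤ K * N ∧ b.norm ≤ K * N ∧
        Near (P.R : Set (FreeGroup (Fin P.n))) (K * N) (β * φ' a * β⁻¹) (φ b) := by
  obtain ⟨T, S, C, hT, hS, hc⟩ := hU
  obtain ⟨c, hcS⟩ := exists_inBall_finite hS (Set.range fun i => P.π (FreeGroup.of i))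
    (Set.finite_range _)
  have hcS' : ∀ i, InBall S c (P.π (FreeGroup.of i)) := fun i => hcS _ ⟨i, rfl⟩
  have hTE : ∀ t ∈ ((T : Set G) ∪ (T : Set G)⁻¹), t ∈ E := by
    intro t ht
    rcases ht with ht | ht
    · rw [← hT]; exact Subgroup.subset_closure ht
    · have : t⁻¹ ∈ E := by rw [← hT]; exact Subgroup.subset_closure ht
      simpa using E.inv_mem this
  obtain ⟨M, hM⟩ := exists_uniform (s := (T : Set G) ∪ (T : Set G)⁻¹)
    (T.finite_toSet.union T.finite_toSet.inv)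
    (fun t m => ∃ a b, Q'.π a = t ∧ a.norm ≤ m ∧ b.norm ≤ m ∧
      Near (P.R : Set (FreeGroup (Fin P.n))) m (β * φ' a * β⁻¹) (φ b))
    (by
      rintro t m n hmn ⟨a, b, h1, h2, h3, h4⟩
      exact ⟨a, b, h1, h2.trans hmn, h3.trans hmn, h4.mono hmn⟩)
    (by
      intro t ht
      have htE := hTE t ht
      obtain ⟨a, ha⟩ := Q'.exists_word (hE1 htE)
      have hb1 : P.π β * t * (P.π β)⁻¹ ∈ H ⊓ stabilizer G o := by
        refine ⟨?_, hE2 t htE⟩
        exact H.mul_mem (H.mul_mem (P.π_mem β) (hE1 htE).1) (H.inv_mem (P.π_mem β))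
      obtain ⟨b, hb⟩ := Q.exists_word hb1
      have e : P.π (β * φ' a * β⁻¹) = P.π (φ b) := by
        rw [map_mul, map_mul, map_inv, hφ', hφ, ha, hb]
      obtain ⟨m, hm⟩ := P.near_of_eq e
      exact ⟨a.norm + b.norm + m, a, b, ha, by omega, by omega, hm.mono (by omega)⟩)
  have key : ∀ l : List G, (∀ s ∈ l, s ∈ T ∨ s⁻¹ ∈ T) →
      ∃ a b, Q'.π a = l.prod ∧ a.norm ≤ l.length * M ∧ b.norm ≤ l.length * M ∧
        Near (P.R : Set (FreeGroup (Fin P.n))) (l.length * M) (β * φ' a * β⁻¹) (φ b) := by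
    intro l
    induction l with
    | nil =>
      intro _
      refine ⟨1, 1, by simp, by simp, by simp, ?_⟩
      have : β * φ' 1 * β⁻¹ = φ 1 := by simp
      rw [this]
      exact (Near.refl _).mono (Nat.zero_le _)
    | cons t l ih =>
      intro hl
      obtain ⟨a, b, h1, h2, h3, h4⟩ := ih (fun s hs => hl s (by simp [hs]))
      have ht : t ∈ ((T : Set G) ∪ (T : Set G)⁻¹) := by
        rcases hl t (by simp) with h | h
        · left; exact h
        · right; exact h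
      obtain ⟨a', b', h1', h2', h3', h4'⟩ := hM t ht
      refine ⟨a' * a, b' * b, ?_, ?_, ?_, ?_⟩
      · rw [map_mul, h1, h1', List.prod_cons]
      · have := FreeGroup.norm_mul_le a' a
        rw [List.length_cons, add_mul, one_mul]; omega
      · have := FreeGroup.norm_mul_le b' b
        rw [List.length_cons, add_mul, one_mul]; omega
      · have h5 := h4'.mul h4
        have e1 : β * φ' a' * β⁻¹ * (β * φ' a * β⁻¹) = β * φ' (a' * a) * β⁻¹ := by
          rw [map_mul]; group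
        rw [e1, ← map_mul] at h5
        apply h5.mono
        rw [List.length_cons, add_mul, one_mul]; omega
  refine ⟨C * c * M, fun N f hf hfE => ?_⟩
  have h1 : InBall S (N * c) (P.π f) :=
    (inBall_word P.π hcS' f).mono (Nat.mul_le_mul_right _ hf)
  obtain ⟨l, hl1, hl2, hl3⟩ := hc _ _ hfE h1
  obtain ⟨a, b, h1, h2, h3, h4⟩ := key l hl2
  have hle : l.length * M ≤ C * c * M * N := by
    calc l.length * M ≤ C * (N * c) * M := Nat.mul_le_mul_right _ hl1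
      _ = C * c * M * N := by ring
  exact ⟨a, b, h1.trans hl3, h2.trans hle, h3.trans hle, h4.mono hle⟩

/-- Data of a finitely presented group acting on a tree. -/
structure TData (G V : Type*) [Group G] [MulAction G V] where
  H : Subgroup G
  P : SPres H
  Q : ∀ o : V, SPres (H ⊓ stabilizer G o)
  φ : ∀ o : V, FreeGroup (Fin (Q o).n) →* FreeGroup (Fin P.n)
  hφ : ∀ o z, P.π (φ o z) = (Q o).π z
  X : Set V
  Xfin : X.Finite
  sep : ∀ o ∈ X, ∀ o' ∈ X, ∀ h ∈ H, h • o = o' → o = o'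
  B : Set (FreeGroup (Fin P.n))
  Bfin : B.Finite
  T : SimpleGraph V
  adj : ∀ (g : G) (x y : V), T.Adj x y → T.Adj (g • x) (g • y)
  d : V → V → V
  d1 : ∀ x p, T.Adj x p → d x p = p
  d3 : ∀ x p q, p ≠ x → q ≠ x → T.Adj p q → d x p = d x q
  und : ∀ x y, T.Adj x y → Undistorted (H ⊓ stabilizer G x ⊓ stabilizer G y)

namespace TData

variable (A : TData G V)

/-- the relators as a set -/
abbrev R : Set (FreeGroup (Fin A.P.n)) := (A.P.R : Set (FreeGroup (Fin A.P.n)))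

/-- Uniform constants. -/
structure Consts (K : ℕ) : Prop where
  k1 : ∀ o ∈ A.X, ∀ r ∈ ((A.Q o).R : Set (FreeGroup (Fin (A.Q o).n))), AreaLE A.R K (A.φ o r)
  k2 : ∀ o ∈ A.X, ∀ β ∈ A.B, A.P.π β ∈ stabilizer G o →
    ∃ k, k.norm ≤ K ∧ Near A.R K β (A.φ o k)
  k3 : ∀ o ∈ A.X, ∀ o' ∈ A.X, ∀ β ∈ A.B, A.T.Adj o (A.P.π β • o') →
    ∀ N (f : FreeGroup (Fin A.P.n)), f.norm ≤ N → A.P.π f ∈ A.H ⊓ stabilizer G o' →
      A.P.π β * A.P.π f * (A.P.π β)⁻¹ ∈ stabilizer G o →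
      ∃ a b, (A.Q o').π a = A.P.π f ∧ a.norm ≤ K * N ∧ b.norm ≤ K * N ∧
        Near A.R (K * N) (β * A.φ o' a * β⁻¹) (A.φ o b)
  k4 : ∀ o ∈ A.X, ∀ o' ∈ A.X, ∀ β ∈ A.B, ∀ β' ∈ A.B, ∀ k ∈ A.H ⊓ stabilizer G o',
    A.P.π β * k * A.P.π β' ∈ stabilizer G o →
    ∃ k0 κ, k0.norm ≤ K ∧ (A.φ o' k0).norm ≤ K ∧ κ.norm ≤ K ∧
      Near A.R K (β * A.φ o' k0 * β') (A.φ o κ)
  kB : ∀ β ∈ A.B, β.norm ≤ K

theorem exists_consts : ∃ K, A.Consts K := by
  -- k1
  obtain ⟨K1, hK1⟩ := exists_uniform A.Xfin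
    (fun o K => ∀ r ∈ ((A.Q o).R : Set (FreeGroup (Fin (A.Q o).n))), AreaLE A.R K (A.φ o r))
    (fun o m n hmn h r hr => (h r hr).mono hmn)
    (by
      intro o _
      apply exists_uniform (A.Q o).R.finite_toSet (fun r K => AreaLE A.R K (A.φ o r))
        (fun r m n hmn h => h.mono hmn)
      intro r hr
      have h1 : (A.Q o).π r = 1 := by
        rw [← MonoidHom.mem_ker, (A.Q o).ker]
        exact Subgroup.subset_normalClosure hr
      have h2 : A.P.π (A.φ o r) = A.P.π 1 := by rw [A.hφ, h1, map_one]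
      obtain ⟨m, hm⟩ := A.P.near_of_eq h2
      refine ⟨m, ?_⟩
      simpa [Near] using hm)
  -- k2
  obtain ⟨K2, hK2⟩ := exists_uniform (A.Xfin.prod A.Bfin)
    (fun i K => A.P.π i.2 ∈ stabilizer G i.1 → ∃ k, k.norm ≤ K ∧ Near A.R K i.2 (A.φ i.1 k))
    (by
      rintro i m n hmn h hi
      obtain ⟨k, h1, h2⟩ := h hi
      exact ⟨k, h1.trans hmn, h2.mono hmn⟩)
    (by
      rintro ⟨o, β⟩ _
      by_cases h : A.P.π β ∈ stabilizer G o
      · obtain ⟨k, hk⟩ := (A.Q o).exists_word (h := A.P.π β) ⟨A.P.π_mem β, h⟩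
        have e : A.P.π β = A.P.π (A.φ o k) := by rw [A.hφ, hk]
        obtain ⟨m, hm⟩ := A.P.near_of_eq e
        exact ⟨k.norm + m, fun _ => ⟨k, by omega, hm.mono (by omega)⟩⟩
      · exact ⟨0, fun h' => absurd h' h⟩)
  -- k3
  obtain ⟨K3, hK3⟩ := exists_uniform (A.Xfin.prod (A.Xfin.prod A.Bfin))
    (fun i K => A.T.Adj i.1 (A.P.π i.2.2 • i.2.1) →
      ∀ N (f : FreeGroup (Fin A.P.n)), f.norm ≤ N → A.P.π f ∈ A.H ⊓ stabilizer G i.2.1 →
      A.P.π i.2.2 * A.P.π f * (A.P.π i.2.2)⁻¹ ∈ stabilizer G i.1 →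
      ∃ a b, (A.Q i.2.1).π a = A.P.π f ∧ a.norm ≤ K * N ∧ b.norm ≤ K * N ∧
        Near A.R (K * N) (i.2.2 * A.φ i.2.1 a * i.2.2⁻¹) (A.φ i.1 b))
    (by
      rintro i m n hmn h hi N f hf h1 h2
      obtain ⟨a, b, h3, h4, h5, h6⟩ := h hi N f hf h1 h2
      have := Nat.mul_le_mul_right N hmn
      exact ⟨a, b, h3, h4.trans this, h5.trans this, h6.mono this⟩)
    (by
      rintro ⟨o, o', β⟩ _
      by_cases h : A.T.Adj o (A.P.π β • o')
      · have hadj : A.T.Adj ((A.P.π β)⁻¹ • o) o' := by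
          have := A.adj (A.P.π β)⁻¹ _ _ h
          rwa [inv_smul_smul] at this
        obtain ⟨K, hK⟩ := const_edge A.P (A.Q o) (A.Q o') (A.φ o) (A.φ o') (A.hφ o) (A.hφ o') β
          (A.H ⊓ stabilizer G o' ⊓ stabilizer G ((A.P.π β)⁻¹ • o)) inf_le_left
          (by
            intro e he
            have h2 : e • ((A.P.π β)⁻¹ • o) = (A.P.π β)⁻¹ • o := he.2
            rw [mem_stabilizer_iff, mul_smul, mul_smul, h2, smul_inv_smul])
          (A.und _ _ hadj.symm)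
        refine ⟨K, fun _ N f hf h1 h2 => ?_⟩
        apply hK N f hf
        refine ⟨h1, ?_⟩
        change A.P.π f • ((A.P.π β)⁻¹ • o) = (A.P.π β)⁻¹ • o
        have h3 : (A.P.π β * A.P.π f * (A.P.π β)⁻¹) • o = o := h2
        rw [mul_smul, mul_smul] at h3
        rw [eq_inv_smul_iff]
        exact h3
      · exact ⟨0, fun h' => absurd h' h⟩)
  -- k4
  obtain ⟨K4, hK4⟩ := exists_uniform (A.Xfin.prod (A.Xfin.prod (A.Bfin.prod A.Bfin)))
    (fun i K => ∀ k ∈ A.H ⊓ stabilizer G i.2.1,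
      A.P.π i.2.2.1 * k * A.P.π i.2.2.2 ∈ stabilizer G i.1 →
      ∃ k0 κ, k0.norm ≤ K ∧ (A.φ i.2.1 k0).norm ≤ K ∧ κ.norm ≤ K ∧
        Near A.R K (i.2.2.1 * A.φ i.2.1 k0 * i.2.2.2) (A.φ i.1 κ))
    (by
      rintro i m n hmn h k hk h1
      obtain ⟨k0, κ, h2, h3, h4, h5⟩ := h k hk h1
      exact ⟨k0, κ, h2.trans hmn, h3.trans hmn, h4.trans hmn, h5.mono hmn⟩)
    (by
      rintro ⟨o, o', β, β'⟩ _
      by_cases h : ∃ k ∈ A.H ⊓ stabilizer G o', A.P.π β * k * A.P.π β' ∈ stabilizer G o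
      · obtain ⟨k, hk, h1⟩ := h
        obtain ⟨k0, hk0⟩ := (A.Q o').exists_word hk
        have h2 : A.P.π β * k * A.P.π β' ∈ A.H ⊓ stabilizer G o :=
          ⟨A.H.mul_mem (A.H.mul_mem (A.P.π_mem β) hk.1) (A.P.π_mem β'), h1⟩
        obtain ⟨κ, hκ⟩ := (A.Q o).exists_word h2
        have e : A.P.π (β * A.φ o' k0 * β') = A.P.π (A.φ o κ) := by
          rw [map_mul, map_mul, A.hφ, A.hφ, hk0, hκ]
        obtain ⟨m, hm⟩ := A.P.near_of_eq e
        exact ⟨k0.norm + (A.φ o' k0).norm + κ.norm + m, fun _ _ _ =>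
          ⟨k0, κ, by omega, by dsimp only; omega, by omega, hm.mono (by omega)⟩⟩
      · exact ⟨0, fun k hk h1 => absurd ⟨k, hk, h1⟩ h⟩)
  obtain ⟨K5, hK5⟩ := exists_uniform A.Bfin (fun β K => β.norm ≤ K)
    (fun β m n hmn h => h.trans hmn) (fun β _ => ⟨β.norm, le_rfl⟩)
  refine ⟨K1 + K2 + K3 + K4 + K5, ⟨?_, ?_, ?_, ?_, ?_⟩⟩
  · intro o ho r hr
    exact (hK1 o ho r hr).mono (by omega)
  · intro o ho β hβ h
    obtain ⟨k, h1, h2⟩ := hK2 (o, β) ⟨ho, hβ⟩ h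
    exact ⟨k, by omega, h2.mono (by omega)⟩
  · intro o ho o' ho' β hβ h N f hf h1 h2
    obtain ⟨a, b, h3, h4, h5, h6⟩ := hK3 (o, o', β) ⟨ho, ho', hβ⟩ h N f hf h1 h2
    have : K3 * N ≤ (K1 + K2 + K3 + K4 + K5) * N := Nat.mul_le_mul_right N (by omega)
    exact ⟨a, b, h3, h4.trans this, h5.trans this, h6.mono this⟩
  · intro o ho o' ho' β hβ β' hβ' k hk h1
    obtain ⟨k0, κ, h2, h3, h4, h5⟩ := hK4 (o, o', β, β') ⟨ho, ho', hβ, hβ'⟩ k hk h1
    exact ⟨k0, κ, by omega, by dsimp only at h3; omega, by omega, h5.mono (by omega)⟩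
  · intro β hβ
    have := hK5 β hβ
    omega

end TData

end Pda3a14
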