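import Pool.Agent.Lib.Pda3a14.Final
import Pool.Agent.Lib.Pda3a14.RDefs

/-!
# Groups acting on trees: finite presentations of subgroups seen in the ambient group
-/

namespace Pda3a14

/-- A finite presentation of a subgroup `H` of `G`, seen in `G`. -/
structure SPres {G : Type*} [Group G] (H : Subgroup G) where
  /-- number of generators -/
  n : ℕ
  /-- the generators -/
  π : FreeGroup (Fin n) →* G
  /-- the relators -/
  R : Finset (FreeGroup (Fin n))
  range_eq : π.range = H
  ker : π.ker = Subgroup.normalClosure (R : Set (FreeGroup (Fin n)))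

variable {G : Type*} [Group G]

/-- The presentation seen in the ambient group. -/
def FinPres.toSPres {H : Subgroup G} (P : FinPres H) : SPres H where
  n := P.n
  π := H.subtype.comp P.π
  R := P.R
  range_eq := P.range_eq
  ker := by
    rw [← P.ker, MonoidHom.ker_comp_of_injective _ _ H.subtype_injective]

/-- The abstract presentation. -/
def SPres.toFinPres {H : Subgroup G} (P : SPres H) : FinPres H where
  n := P.n
  π := P.π.codRestrict H fun x => by
    have h : P.π x ∈ P.π.range := ⟨x, rfl⟩
    rwa [P.range_eq] at h
  R := P.R
  surj := by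
    rintro ⟨h, hh⟩
    rw [← P.range_eq] at hh
    obtain ⟨x, hx⟩ := hh
    exact ⟨x, Subtype.ext hx⟩
  ker := by
    rw [← P.ker]
    ext x
    rw [MonoidHom.mem_ker, MonoidHom.mem_ker]
    exact Subtype.ext_iff

end Pda3a14
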