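import Pool.Agent.Lib.Pda3a14.SDefs

/-!
# Filling closed paths in a tree, excursion by excursion
-/

namespace Pda3a14

open MulAction

section basics

variable {α β : Type*}

theorem exists_uniform {ι : Type*} {s : Set ι} (hs : s.Finite) (q : ι → ℕ → Prop)
    (mono : ∀ i m n, m ≤ n → q i m → q i n) (h : ∀ i ∈ s, ∃ m, q i m) :
    ∃ M, ∀ i ∈ s, q i M := by
  have h2 : ∀ i, ∃ m, i ∈ s → q i m := by
    intro i
    by_cases hi : i ∈ s
    · obtain ⟨m, hm⟩ := h i hi
      exact ⟨m, fun _ => hm⟩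
    · exact ⟨0, fun h => absurd h hi⟩
  choose m hm using h2
  obtain ⟨M, hM⟩ := (hs.image m).bddAbove
  exact ⟨M, fun i hi => mono i _ _ (hM ⟨i, hi, rfl⟩) (hm i hi)⟩

theorem Near.map' {R : Set (FreeGroup α)} {R' : Set (FreeGroup β)} {K m : ℕ}
    {u v : FreeGroup α} (f : FreeGroup α →* FreeGroup β)
    (hf : ∀ r ∈ R, AreaLE R' K (f r)) (h : Near R m u v) : Near R' (m * K) (f u) (f v) := by
  unfold Near at *
  have := AreaLE.map f hf h
  rwa [map_mul, map_inv] at this

variable {G : Type*} [Group G]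

theorem SPres.areaLE_ker {H : Subgroup G} (P : SPres H) {m : ℕ} {u : FreeGroup (Fin P.n)}
    (h : AreaLE (P.R : Set (FreeGroup (Fin P.n))) m u) : P.π u = 1 := by
  obtain ⟨l, _, h2, rfl⟩ := h
  rw [map_list_prod, List.map_map]
  apply List.prod_eq_one
  intro x hx
  rw [List.mem_map] at hx
  obtain ⟨p, hp, rfl⟩ := hx
  have hR : ∀ r ∈ (P.R : Set (FreeGroup (Fin P.n))), P.π r = 1 := by
    intro r hr
    rw [← MonoidHom.mem_ker, P.ker]
    exact Subgroup.subset_normalClosure hr
  have : P.π p.2 = 1 := by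
    rcases h2 p hp with h | h
    · exact hR _ h
    · have := hR _ h
      rwa [map_inv, inv_eq_one] at this
  simp [this]

theorem SPres.near_π {H : Subgroup G} (P : SPres H) {m : ℕ} {u v : FreeGroup (Fin P.n)}
    (h : Near (P.R : Set (FreeGroup (Fin P.n))) m u v) : P.π u = P.π v := by
  have := P.areaLE_ker h
  rw [map_mul, map_inv, mul_inv_eq_one] at this
  exact this

theorem SPres.near_of_eq {H : Subgroup G} (P : SPres H) {u v : FreeGroup (Fin P.n)}
    (h : P.π u = P.π v) : ∃ m, Near (P.R : Set (FreeGroup (Fin P.n))) m u v := by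
  apply exists_areaLE
  rw [← P.ker, MonoidHom.mem_ker, map_mul, map_inv, h, mul_inv_cancel]

theorem SPres.exists_word {H : Subgroup G} (P : SPres H) {h : G} (hh : h ∈ H) :
    ∃ w, P.π w = h := by
  rw [← P.range_eq] at hh
  exact hh

theorem SPres.π_mem {H : Subgroup G} (P : SPres H) (w : FreeGroup (Fin P.n)) : P.π w ∈ H := by
  have : P.π w ∈ P.π.range := ⟨w, rfl⟩
  rwa [P.range_eq] at this

/-- Lift of a homomorphism. -/
theorem SPres.exists_lift {H K : Subgroup G} (P : SPres H) (Q : SPres K) (hK : K ≤ H) :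
    ∃ φ : FreeGroup (Fin Q.n) →* FreeGroup (Fin P.n), ∀ z, P.π (φ z) = Q.π z := by
  have h : ∀ i, ∃ w, P.π w = Q.π (FreeGroup.of i) := fun i => P.exists_word (hK (Q.π_mem _))
  choose f hf using h
  refine ⟨FreeGroup.lift f, fun z => ?_⟩
  have : P.π.comp (FreeGroup.lift f) = Q.π := by
    ext i
    simp [hf]
  exact DFunLike.congr_fun this z

end basics

/-- The area of null-homotopic words is bounded by the Dehn function. -/
theorem FinPres.areaLE_dehn {H : Type*} [Group H] (P : FinPres H) {w : FreeGroup (Fin P.n)}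
    {x : ℕ} (hw : w.norm ≤ x) (h1 : P.π w = 1) :
    AreaLE (P.R : Set (FreeGroup (Fin P.n))) (P.dehn x) w := by
  have hex : ∃ m, AreaLE (P.R : Set (FreeGroup (Fin P.n))) m w := by
    apply exists_areaLE
    rw [← P.ker, MonoidHom.mem_ker, h1]
  have h2 : AreaLE (P.R : Set (FreeGroup (Fin P.n))) (P.area w) w := Nat.sInf_mem hex
  apply h2.mono
  have hfin : {w : FreeGroup (Fin P.n) | w.norm ≤ x}.Finite := by
    have := List.finite_length_le (Fin P.n × Bool) x
    apply Set.Finite.of_finite_image (f := FreeGroup.toWord)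
    · apply this.subset
      rintro _ ⟨w, hw, rfl⟩
      exact hw
    · exact FreeGroup.toWord_injective.injOn
  unfold FinPres.dehn
  apply le_csSup
  · apply Set.Finite.bddAbove
    apply (hfin.image P.area).subset
    rintro m ⟨w, h1, _, rfl⟩
    exact ⟨w, h1, rfl⟩
  · exact ⟨w, hw, h1, rfl⟩

end Pda3a14
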