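import Pool.Agent.Lib.Pda3a14.Defs

/-!
# Groups with a finitely presented subgroup of finite index (module SFi)

## Paper proof

Letters: `x_j` (`j : Fin P.n`) and `r_q` (`q : K ⧸ A`, finite; transport to `Fin`), `r_q` mapped to a
representative of the left coset `q`, `q₀` = the coset `A`. Relators: (1) the relators of `A`
(words in the `x_j`); (2) for every letter `y` and every `q`: `y r_q = r_{q'} w_{y,q}(x)` with
`q' = π(y) q` and a word `w_{y,q}` in the `x_j`; (3) `r_{q₀} = w₀(x)`. Let `N` be the normal closure.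
From (2) also `y⁻¹ r_{q'} = r_q w_{y,q}⁻¹` modulo `N`, and `q ↦ q'` is a bijection. By induction
every word `v` is congruent modulo `N` to some `r_q w(x)` (start with `v = v r_{q₀} w₀⁻¹` modulo `N`
and move the letters through). If `π(v) = 1` then `π(r_q) ∈ A`, so `q = q₀`, and
`v = w₀(x) w(x)` modulo `N`, a word in the `x_j` which is trivial in `A`, hence in `N`.
(The relator (3) is not needed.)
-/

namespace Pda3a14

/-- Transport of a presentation to the letters `Fin n`. -/
theorem finPres_of_fintype {Λ : Type*} [Fintype Λ] {K : Type*} [Group K] (φ : FreeGroup Λ →* K)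
    (hs : Function.Surjective φ) (R : Set (FreeGroup Λ)) (hR : R.Finite)
    (hk : φ.ker = Subgroup.normalClosure R) : Nonempty (FinPres K) := by
  classical
  let E : FreeGroup Λ ≃* FreeGroup (Fin (Fintype.card Λ)) :=
    FreeGroup.freeGroupCongr (Fintype.equivFin Λ)
  refine ⟨⟨Fintype.card Λ, φ.comp E.symm.toMonoidHom, hR.toFinset.image E, ?_, ?_⟩⟩
  · intro k
    obtain ⟨v, hv⟩ := hs k
    exact ⟨E v, by simp [hv]⟩
  · have h1 : (φ.comp E.symm.toMonoidHom).ker = φ.ker.comap E.symm.toMonoidHom := rfl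
    rw [h1, hk]
    have h2 : ((hR.toFinset.image E : Finset _) : Set (FreeGroup (Fin (Fintype.card Λ)))) =
        E.toMonoidHom '' R := by
      rw [Finset.coe_image, Set.Finite.coe_toFinset]
      rfl
    rw [h2, ← Subgroup.map_normalClosure R E.toMonoidHom E.surjective]
    ext v
    rw [Subgroup.mem_comap, Subgroup.mem_map]
    constructor
    · intro h
      exact ⟨E.symm v, h, by simp⟩
    · rintro ⟨w, hw, rfl⟩
      simpa using hw

theorem finPres_of_finiteIndex {K : Type*} [Group K] (A : Subgroup K) (hA : A.FiniteIndex)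
    (P : FinPres A) : Nonempty (FinPres K) := by
  classical
  have hfin : Finite (K ⧸ A) := inferInstance
  have : Fintype (K ⧸ A) := Fintype.ofFinite _
  -- the letters
  let rep : K ⧸ A → K := Quotient.out
  have hrep : ∀ q : K ⧸ A, (QuotientGroup.mk (rep q) : K ⧸ A) = q := fun q => Quotient.out_eq q
  let φ : FreeGroup (Fin P.n ⊕ (K ⧸ A)) →* K :=
    FreeGroup.lift (Sum.elim (fun j => (P.π (FreeGroup.of j) : K)) rep)
  let ι : FreeGroup (Fin P.n) →* FreeGroup (Fin P.n ⊕ (K ⧸ A)) := FreeGroup.map Sum.inl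
  let r : K ⧸ A → FreeGroup (Fin P.n ⊕ (K ⧸ A)) := fun q => FreeGroup.of (Sum.inr q)
  have hφr : ∀ q, φ (r q) = rep q := fun q => by simp [φ, r]
  have hφι : ∀ w, φ (ι w) = (P.π w : K) := by
    intro w
    have : φ.comp ι = A.subtype.comp P.π := by
      apply FreeGroup.ext_hom
      intro j
      simp [φ, ι]
    exact DFunLike.congr_fun this w
  -- the words of the elements of `A`
  have hw : ∀ k : K, ∃ w : FreeGroup (Fin P.n), k = rep (QuotientGroup.mk k) * P.π w := by
    intro k
    have h1 : (rep (QuotientGroup.mk k))⁻¹ * k ∈ A := by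
      rw [← QuotientGroup.eq, hrep]
    obtain ⟨w, hw⟩ := P.surj ⟨_, h1⟩
    exact ⟨w, by rw [hw]; simp⟩
  choose wd hwd using hw
  -- the relators
  let rel : (Fin P.n ⊕ (K ⧸ A)) × (K ⧸ A) → FreeGroup (Fin P.n ⊕ (K ⧸ A)) := fun p =>
    FreeGroup.of p.1 * r p.2 * (r (QuotientGroup.mk (φ (FreeGroup.of p.1) * rep p.2)) *
      ι (wd (φ (FreeGroup.of p.1) * rep p.2)))⁻¹
  let R : Set (FreeGroup (Fin P.n ⊕ (K ⧸ A))) := ι '' (P.R : Set _) ∪ Set.range rel
  have hRfin : R.Finite := ((Finset.finite_toSet P.R).image ι).union (Set.finite_range rel)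
  set N := Subgroup.normalClosure R with hN
  have hNφ : N ≤ φ.ker := by
    apply Subgroup.normalClosure_le_normal
    rintro v (⟨w, hw, rfl⟩ | ⟨p, rfl⟩)
    · have : w ∈ P.π.ker := by
        rw [P.ker]
        exact Subgroup.subset_normalClosure hw
      show φ (ι w) = 1
      rw [hφι, MonoidHom.mem_ker.1 this]
      rfl
    · show φ (rel p) = 1
      simp only [rel]
      rw [map_mul, map_mul, map_inv, map_mul, hφr, hφr, hφι, ← hwd, mul_inv_cancel]
  have hιN : ∀ w, P.π w = 1 → ι w ∈ N := by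
    intro w hw
    have h1 : w ∈ P.π.ker := hw
    rw [P.ker] at h1
    have h2 : Subgroup.normalClosure (P.R : Set (FreeGroup (Fin P.n))) ≤ N.comap ι := by
      have : (N.comap ι).Normal := Subgroup.Normal.comap inferInstance ι
      apply Subgroup.normalClosure_le_normal
      intro v hv
      exact Subgroup.subset_normalClosure (Or.inl ⟨v, hv, rfl⟩)
    exact h2 h1
  -- every word can be moved through
  have key : ∀ v : FreeGroup (Fin P.n ⊕ (K ⧸ A)), ∀ q : K ⧸ A, ∃ (q' : K ⧸ A)
      (w : FreeGroup (Fin P.n)), (QuotientGroup.mk (v * r q) : _ ⧸ N) =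
        QuotientGroup.mk (r q' * ι w) := by
    have hlet : ∀ (y : Fin P.n ⊕ (K ⧸ A)) (q : K ⧸ A),
        (QuotientGroup.mk (FreeGroup.of y * r q) : _ ⧸ N) =
        QuotientGroup.mk (r (QuotientGroup.mk (φ (FreeGroup.of y) * rep q)) *
          ι (wd (φ (FreeGroup.of y) * rep q))) := by
      intro y q
      have h1 : rel (y, q) ∈ N := Subgroup.subset_normalClosure (Or.inr ⟨(y, q), rfl⟩)
      have h2 := (QuotientGroup.eq_one_iff (rel (y, q))).2 h1
      simp only [rel] at h2
      rw [QuotientGroup.mk_mul, QuotientGroup.mk_inv, mul_inv_eq_one] at h2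
      exact h2
    intro v
    induction v using FreeGroup.induction_on with
    | C1 => exact fun q => ⟨q, 1, by simp⟩
    | of y => exact fun q => ⟨_, _, hlet y q⟩
    | inv_of y ih =>
      intro q
      have h1 := hlet y (QuotientGroup.mk ((φ (FreeGroup.of y))⁻¹ * rep q))
      have h2 : (QuotientGroup.mk (φ (FreeGroup.of y) *
          rep (QuotientGroup.mk ((φ (FreeGroup.of y))⁻¹ * rep q))) : K ⧸ A) = q := by
        conv_rhs => rw [← hrep q]
        rw [QuotientGroup.eq]
        have h3 := hrep (QuotientGroup.mk ((φ (FreeGroup.of y))⁻¹ * rep q))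
        rw [QuotientGroup.eq] at h3
        simpa [mul_assoc] using h3
      rw [h2] at h1
      generalize (QuotientGroup.mk ((φ (FreeGroup.of y))⁻¹ * rep q) : K ⧸ A) = q₁ at h1
      generalize wd (φ (FreeGroup.of y) * rep q₁) = w₁ at h1
      refine ⟨q₁, w₁⁻¹, ?_⟩
      have h4 : (QuotientGroup.mk (FreeGroup.of y) : _ ⧸ N) * QuotientGroup.mk (r q₁) =
        QuotientGroup.mk (r q) * QuotientGroup.mk (ι w₁) := h1
      rw [map_inv]
      show (QuotientGroup.mk (FreeGroup.of y) : _ ⧸ N)⁻¹ * QuotientGroup.mk (r q) =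
        QuotientGroup.mk (r q₁) * (QuotientGroup.mk (ι w₁) : _ ⧸ N)⁻¹
      rw [inv_mul_eq_iff_eq_mul, ← mul_assoc, h4, mul_inv_cancel_right]
    | mul v1 v2 ih1 ih2 =>
      intro q
      obtain ⟨q2, w2, h2⟩ := ih2 q
      obtain ⟨q1, w1, h1⟩ := ih1 q2
      refine ⟨q1, w1 * w2, ?_⟩
      rw [mul_assoc, QuotientGroup.mk_mul, h2, ← QuotientGroup.mk_mul, ← mul_assoc,
        QuotientGroup.mk_mul, h1, ← QuotientGroup.mk_mul, map_mul, mul_assoc]
  refine finPres_of_fintype φ ?_ R hRfin (le_antisymm ?_ hNφ)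
  · intro k
    exact ⟨r (QuotientGroup.mk k) * ι (wd k), by rw [map_mul, hφr, hφι, ← hwd]⟩
  · intro v hv
    have hv1 : φ v = 1 := hv
    obtain ⟨q', w, h⟩ := key v (QuotientGroup.mk 1)
    have h1 : (v * r (QuotientGroup.mk 1))⁻¹ * (r q' * ι w) ∈ N := QuotientGroup.eq.1 h
    have h2 : φ ((v * r (QuotientGroup.mk 1))⁻¹ * (r q' * ι w)) = 1 := hNφ h1
    rw [map_mul, map_inv, map_mul, map_mul, hv1, hφr, hφr, hφι, one_mul, inv_mul_eq_one] at h2
    have h3 : (QuotientGroup.mk 1 : K ⧸ A) = q' := by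
      rw [← hrep (QuotientGroup.mk 1), ← hrep q', h2, QuotientGroup.eq]
      simp
    subst h3
    have h4 : P.π w = 1 := by
      have : (P.π w : K) = 1 := by
        rw [eq_comm] at h2
        exact mul_eq_left.1 h2
      exact_mod_cast this
    have h5 : (QuotientGroup.mk (ι w) : _ ⧸ N) = 1 := (QuotientGroup.eq_one_iff _).2 (hιN w h4)
    rw [QuotientGroup.mk_mul, QuotientGroup.mk_mul, h5, mul_one] at h
    exact (QuotientGroup.eq_one_iff v).1 (mul_eq_right.1 h)

end Pda3a14
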