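import Pool.Agent.Lib.Pda3a14.SConst

/-!
# Filling closed paths
-/

namespace Pda3a14

open MulAction

variable {G : Type*} [Group G] {V : Type*} [MulAction G V]

namespace TData

variable (A : TData G V)

/-- States. -/
abbrev St : Type _ := FreeGroup (Fin A.P.n) × V

/-- The position of a state. -/
def pos (a : A.St) : V := A.P.π a.1 • a.2

/-- Steps. -/
def Step (a b : A.St) : Prop :=
  a.2 ∈ A.X ∧ b.2 ∈ A.X ∧ a.1⁻¹ * b.1 ∈ A.B ∧ (A.pos a = A.pos b ∨ A.T.Adj (A.pos a) (A.pos b))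

theorem sep_pos {a b : A.St} (ha : a.2 ∈ A.X) (hb : b.2 ∈ A.X) (h : A.pos a = A.pos b) :
    a.2 = b.2 := by
  apply A.sep _ ha _ hb ((A.P.π b.1)⁻¹ * A.P.π a.1)
    (A.H.mul_mem (A.H.inv_mem (A.P.π_mem _)) (A.P.π_mem _))
  unfold pos at h
  rw [mul_smul, h, inv_smul_smul]

theorem norm_path {K : ℕ} (hK : A.Consts K) (u : ℕ → A.St) (N : ℕ)
    (hu : ∀ j < N, A.Step (u j) (u (j + 1))) (i : ℕ) :
    ∀ n, i + n ≤ N → ((u i).1⁻¹ * (u (i + n)).1).norm ≤ K * n := by
  intro n
  induction n with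
  | zero => intro _; simp
  | succ n ih =>
    intro h
    have h1 := ih (by omega)
    have h2 := hK.kB _ (hu (i + n) (by omega)).2.2.1
    have e : (u i).1⁻¹ * (u (i + (n + 1))).1 =
        ((u i).1⁻¹ * (u (i + n)).1) * ((u (i + n)).1⁻¹ * (u (i + n + 1)).1) := by
      rw [← add_assoc]; group
    rw [e]
    have := FreeGroup.norm_mul_le ((u i).1⁻¹ * (u (i + n)).1)
      ((u (i + n)).1⁻¹ * (u (i + n + 1)).1)
    rw [Nat.mul_succ]; omega

theorem exists_last {q : V} (f : ℕ → V) (i j : ℕ) (hij : i < j) (hi : f i = q) :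
    ∃ l, i ≤ l ∧ l < j ∧ f l = q ∧ ∀ m, l < m → m < j → f m ≠ q := by
  induction j with
  | zero => omega
  | succ j ih =>
    by_cases h : f j = q
    · exact ⟨j, by omega, by omega, h, fun m h1 h2 => by omega⟩
    · have hlt : i < j := by
        rcases Nat.lt_or_ge i j with h2 | h2
        · exact h2
        · have : i = j := by omega
          rw [this] at hi
          exact absurd hi h
      obtain ⟨l, h1, h2, h3, h4⟩ := ih hlt
      refine ⟨l, h1, by omega, h3, fun m hm1 hm2 => ?_⟩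
      by_cases hm : m = j
      · rw [hm]; exact h
      · exact h4 m hm1 (by omega)

theorem dir_const {q : V} (u : ℕ → A.St) (N : ℕ) (hu : ∀ j < N, A.Step (u j) (u (j + 1)))
    (l j : ℕ) (hj : j ≤ N) (hne : ∀ m, l < m → m < j → A.pos (u m) ≠ q) :
    ∀ n, l + 1 + n < j → A.d q (A.pos (u (l + 1))) = A.d q (A.pos (u (l + 1 + n))) := by
  intro n
  induction n with
  | zero => intro _; rfl
  | succ n ih =>
    intro h
    rw [ih (by omega)]
    rcases (hu (l + 1 + n) (by omega)).2.2.2 with h1 | h1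
    · rw [h1]; rfl
    · exact A.d3 q _ _ (hne _ (by omega) (by omega)) (hne _ (by omega) (by omega)) h1

/-- An excursion over an edge. -/
theorem excursion {K : ℕ} (hK : A.Consts K) (D : ℕ → ℕ)
    (hD : ∀ o ∈ A.X, ∀ (m : ℕ) (z : FreeGroup (Fin (A.Q o).n)), z.norm ≤ m → (A.Q o).π z = 1 →
      AreaLE ((A.Q o).R : Set (FreeGroup (Fin (A.Q o).n))) (D m) z)
    {o o' : V} (ho : o ∈ A.X) (ho' : o' ∈ A.X) {β β' w : FreeGroup (Fin A.P.n)} (hβ : β ∈ A.B)
    (hβ' : β' ∈ A.B) {v2 : FreeGroup (Fin (A.Q o').n)} {m2 : ℕ}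
    (hn2 : Near A.R m2 w (A.φ o' v2))
    (hfix : A.P.π β * A.P.π w * A.P.π β' ∈ stabilizer G o)
    (hadj : A.T.Adj o (A.P.π β • o')) {c b L : ℕ} (hwn : w.norm ≤ K * c) (hv2 : v2.norm ≤ b)
    (hL : b + (K * (K * c + K) + K) ≤ L) :
    ∃ z : FreeGroup (Fin (A.Q o).n), z.norm ≤ K * (K * c + K) + K ∧
      Near A.R (m2 + D L * K + (K * (K * c + K) + K)) (β * w * β') (A.φ o z) := by
  have hwπ : A.P.π w = (A.Q o').π v2 := by
    rw [A.P.near_π hn2, A.hφ]
  have hk : A.P.π w ∈ A.H ⊓ stabilizer G o' := by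
    rw [hwπ]; exact (A.Q o').π_mem v2
  obtain ⟨k0, κ, hk1, hk2, hk3, hk4⟩ := hK.k4 o ho o' ho' β hβ β' hβ' _ hk hfix
  have hκ : A.P.π β * (A.Q o').π k0 * A.P.π β' ∈ stabilizer G o := by
    have := A.P.near_π hk4
    rw [map_mul, map_mul, A.hφ, A.hφ] at this
    rw [this]
    exact ((A.Q o).π_mem κ).2
  -- the edge element
  set f := w * (A.φ o' k0)⁻¹ with hf
  have hfn : f.norm ≤ K * c + K := by
    have := FreeGroup.norm_mul_le w (A.φ o' k0)⁻¹
    rw [FreeGroup.norm_inv_eq, ← hf] at this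
    omega
  have hfπ : A.P.π f = A.P.π w * ((A.Q o').π k0)⁻¹ := by
    rw [hf, map_mul, map_inv, A.hφ]
  have hf1 : A.P.π f ∈ A.H ⊓ stabilizer G o' := by
    rw [hfπ]
    exact Subgroup.mul_mem _ hk (Subgroup.inv_mem _ ((A.Q o').π_mem k0))
  have hf2 : A.P.π β * A.P.π f * (A.P.π β)⁻¹ ∈ stabilizer G o := by
    have h1 := Subgroup.mul_mem _ hfix (Subgroup.inv_mem _ hκ)
    have e : A.P.π β * A.P.π w * A.P.π β' * (A.P.π β * (A.Q o').π k0 * A.P.π β')⁻¹ =
        A.P.π β * A.P.π f * (A.P.π β)⁻¹ := by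
      rw [hfπ]; group
    rwa [e] at h1
  obtain ⟨a', b', ha1, ha2, hb2, hab⟩ := hK.k3 o ho o' ho' β hβ hadj (K * c + K) f hfn hf1 hf2
  -- compare in the vertex group
  have hz1 : (A.Q o').π (v2 * (a' * k0)⁻¹) = 1 := by
    rw [map_mul, map_inv, map_mul, ha1, hfπ, ← hwπ]
    group
  have hzn : (v2 * (a' * k0)⁻¹).norm ≤ L := by
    have h1 := FreeGroup.norm_mul_le v2 (a' * k0)⁻¹
    have h2 := FreeGroup.norm_mul_le a' k0
    rw [FreeGroup.norm_inv_eq] at h1
    omega
  have hnear1 : Near A.R (D L * K) (A.φ o' v2) (A.φ o' (a' * k0)) :=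
    Near.map' (A.φ o') (hK.k1 o' ho') (hD o' ho' L _ hzn hz1)
  have s1 : Near A.R m2 (β * w * β') (β * A.φ o' v2 * β') :=
    (hn2.mul_left β).mul_right β'
  have s2 : Near A.R (D L * K) (β * A.φ o' v2 * β') (β * A.φ o' (a' * k0) * β') :=
    (hnear1.mul_left β).mul_right β'
  have s3 := hab.mul hk4
  have e : β * A.φ o' a' * β⁻¹ * (β * A.φ o' k0 * β') = β * A.φ o' (a' * k0) * β' := by
    rw [map_mul]; group
  rw [e, ← map_mul] at s3
  refine ⟨b' * κ, ?_, (s1.trans s2).trans s3⟩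
  have := FreeGroup.norm_mul_le b' κ
  omega

/-- Closed paths are near words in the generators of the vertex group. -/
theorem fill {K : ℕ} (hK : A.Consts K) (D : ℕ → ℕ)
    (hD : ∀ o ∈ A.X, ∀ (m : ℕ) (z : FreeGroup (Fin (A.Q o).n)), z.norm ≤ m → (A.Q o).π z = 1 →
      AreaLE ((A.Q o).R : Set (FreeGroup (Fin (A.Q o).n))) (D m) z)
    (u : ℕ → A.St) (N : ℕ) (hu : ∀ j < N, A.Step (u j) (u (j + 1)))
    (C L M : ℕ) (hC : C = K * (2 * K + 3)) (hL : L = C * N + K * (2 * K * N + K + 3))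
    (hM : M = D L * K + K * (2 * K * N + K + 3)) :
    ∀ n i, i + n ≤ N → A.pos (u i) = A.pos (u (i + n)) → (u i).2 ∈ A.X →
      ∃ v : FreeGroup (Fin (A.Q (u i).2).n), v.norm ≤ C * n ∧
        Near A.R (n * M) ((u i).1⁻¹ * (u (i + n)).1) (A.φ (u i).2 v) := by
  intro n
  induction n using Nat.strong_induction_on with
  | _ n ih =>
  intro i hin hpos hX
  obtain _ | n := n
  · refine ⟨1, by simp, ?_⟩
    have : (u i).1⁻¹ * (u (i + 0)).1 = A.φ (u i).2 1 := by simp
    rw [this]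
    exact (Near.refl _).mono (Nat.zero_le _)
  obtain ⟨hX1, hX2, hB, hstep⟩ := hu (i + n) (by omega)
  have hKC : K ≤ C := by rw [hC]; exact Nat.le_mul_of_pos_right _ (by omega)
  have hKM : K ≤ M := by
    rw [hM]
    have : K ≤ K * (2 * K * N + K + 3) := Nat.le_mul_of_pos_right _ (by omega)
    omega
  rcases hstep with hs | hs
  · -- the last step does not move
    obtain ⟨v', hv1, hv2⟩ := ih n (by omega) i (by omega) (by rw [hpos, hs]; rfl) hX
    have ho : (u i).2 = (u (i + n)).2 := A.sep_pos hX hX1 (by rw [hpos, hs]; rfl)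
    have ho' : (u i).2 = (u (i + n + 1)).2 := A.sep_pos hX hX2 (by rw [hpos]; rfl)
    obtain ⟨k, hk1, hk2⟩ := hK.k2 (u i).2 hX _ hB (by
      rw [mem_stabilizer_iff, map_mul, map_inv, mul_smul]
      unfold pos at hs
      rw [← ho, ← ho'] at hs
      rw [← hs, inv_smul_smul])
    refine ⟨v' * k, ?_, ?_⟩
    · have := FreeGroup.norm_mul_le v' k
      rw [Nat.mul_succ]; omega
    · have h := hv2.mul hk2
      have e : (u i).1⁻¹ * (u (i + n)).1 * ((u (i + n)).1⁻¹ * (u (i + n + 1)).1) =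
          (u i).1⁻¹ * (u (i + (n + 1))).1 := by rw [← add_assoc]; group
      rw [e, ← map_mul] at h
      apply h.mono
      rw [Nat.succ_mul]; omega
  · -- an excursion
    have hne1 : A.pos (u (i + n)) ≠ A.pos (u i) := by
      intro h
      rw [h, hpos] at hs
      exact hs.ne rfl
    obtain ⟨l, hl1, hl2, hl3, hl4⟩ := exists_last (q := A.pos (u i)) (fun m => A.pos (u m)) i
      (i + (n + 1)) (by omega) rfl
    obtain ⟨a, rfl⟩ := Nat.exists_eq_add_of_le hl1
    have hla : a < n := by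
      rcases Nat.lt_or_ge a n with h | h
      · exact h
      · have : a = n := by omega
        rw [this] at hl3
        exact absurd hl3 hne1
    obtain ⟨c, rfl⟩ : ∃ c, n = a + 1 + c := ⟨n - a - 1, by omega⟩
    obtain ⟨hY1, hY2, hB1, hstep1⟩ := hu (i + a) (by omega)
    have hadj1 : A.T.Adj (A.pos (u (i + a))) (A.pos (u (i + a + 1))) := by
      rcases hstep1 with h | h
      · exact absurd (h.symm.trans hl3) (hl4 (i + a + 1) (by omega) (by omega))
      · exact h
    have hend : A.pos (u (i + a + 1)) = A.pos (u (i + a + 1 + c)) := by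
      have h1 := A.dir_const (q := A.pos (u i)) u N hu (i + a) (i + (a + 1 + c + 1)) hin hl4 c
        (by omega)
      have h2 : A.d (A.pos (u i)) (A.pos (u (i + a + 1))) = A.pos (u (i + a + 1)) :=
        A.d1 _ _ (hl3 ▸ hadj1)
      have h3 : A.d (A.pos (u i)) (A.pos (u (i + a + 1 + c))) = A.pos (u (i + a + 1 + c)) := by
        apply A.d1
        rw [hpos]
        have e : i + (a + 1 + c) = i + a + 1 + c := by omega
        rw [e] at hs
        have e2 : i + (a + 1 + c + 1) = i + a + 1 + c + 1 := by omega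
        rw [e2]
        exact hs.symm
      rw [← h2, h1, h3]
    obtain ⟨v1, hv1, hn1⟩ := ih a (by omega) i (by omega) hl3.symm hX
    obtain ⟨v2, hv2, hn2⟩ := ih c (by omega) (i + a + 1) (by omega) hend hY2
    have e3 : i + (a + 1 + c) = i + a + 1 + c := by omega
    have e4 : i + (a + 1 + c + 1) = i + a + 1 + c + 1 := by omega
    rw [e3] at hX1 hX2 hB hs
    rw [e4] at hpos ⊢
    have ho1 : (u i).2 = (u (i + a)).2 := A.sep_pos hX hY1 hl3.symm
    have ho2 : (u i).2 = (u (i + a + 1 + c + 1)).2 := A.sep_pos hX hX2 hpos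
    have hfix : A.P.π ((u (i + a)).1⁻¹ * (u (i + a + 1)).1) *
        A.P.π ((u (i + a + 1)).1⁻¹ * (u (i + a + 1 + c)).1) *
        A.P.π ((u (i + a + 1 + c)).1⁻¹ * (u (i + a + 1 + c + 1)).1) ∈
        stabilizer G (u i).2 := by
      rw [mem_stabilizer_iff, ← map_mul, ← map_mul]
      have e : (u (i + a)).1⁻¹ * (u (i + a + 1)).1 * ((u (i + a + 1)).1⁻¹ *
          (u (i + a + 1 + c)).1) * ((u (i + a + 1 + c)).1⁻¹ * (u (i + a + 1 + c + 1)).1) =
          (u (i + a)).1⁻¹ * (u (i + a + 1 + c + 1)).1 := by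
        group
      rw [e, map_mul, map_inv, mul_smul, inv_smul_eq_iff]
      have h1 : A.pos (u (i + a + 1 + c + 1)) = A.pos (u (i + a)) := hpos.symm.trans hl3.symm
      unfold pos at h1
      rw [← ho1, ← ho2] at h1
      exact h1
    have hadj2 : A.T.Adj (u i).2
        (A.P.π ((u (i + a)).1⁻¹ * (u (i + a + 1)).1) • (u (i + a + 1)).2) := by
      have h1 := A.adj (A.P.π (u (i + a)).1)⁻¹ _ _ hadj1
      unfold pos at h1
      rw [inv_smul_smul, ← ho1] at h1
      rw [map_mul, map_inv, mul_smul]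
      exact h1
    have hwn := A.norm_path hK u N hu (i + a + 1) c (by omega)
    have hcN : c ≤ N := by omega
    have hc1 : K * (K * c + K) + K ≤ K * (2 * K * N + K + 3) := by
      have : K * c ≤ K * N := Nat.mul_le_mul_left _ hcN
      have h4 : K * (K * c) ≤ K * (K * N) := Nat.mul_le_mul_left _ this
      have h5 : K * (2 * K * N + K + 3) = K * (K * N) + K * (K * N) + K * K + 3 * K := by ring
      have h6 : K * (K * c + K) = K * (K * c) + K * K := by ring
      omega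
    have hCc : C * c ≤ C * N := Nat.mul_le_mul_left _ hcN
    obtain ⟨z, hz1, hz2⟩ := A.excursion hK D hD hX hY2 hB1 hB hn2 hfix hadj2 hwn hv2
      (L := L) (by omega)
    refine ⟨v1 * z, ?_, ?_⟩
    · have h1 := FreeGroup.norm_mul_le v1 z
      have h3 : C * (a + 1 + c + 1) = C * a + C * (c + 2) := by ring
      have h4 : K * (K * c + K) + K ≤ C * (c + 2) := by
        have h5 : C * (c + 2) = (K * (K * c + K) + K) +
          (K * K * c + 3 * K * K + 3 * K * c + 5 * K) := by rw [hC]; ring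
        omega
      omega
    · have h1 := hn1.mul hz2
      have e : (u i).1⁻¹ * (u (i + a)).1 * ((u (i + a)).1⁻¹ * (u (i + a + 1)).1 *
          ((u (i + a + 1)).1⁻¹ * (u (i + a + 1 + c)).1) *
          ((u (i + a + 1 + c)).1⁻¹ * (u (i + a + 1 + c + 1)).1)) =
          (u i).1⁻¹ * (u (i + a + 1 + c + 1)).1 := by
        group
      rw [e, ← map_mul] at h1
      apply h1.mono
      have h2 : (a + 1 + c + 1) * M = a * M + c * M + 2 * M := by ring
      omega

end TData

end Pda3a14
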