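import Pool.Agent.Lib.Pda3a14.SFpB

/-!
# Vertex stabilizers of finitely presented groups are finitely presented (module SFp)

## Paper proof of `fp_of_dir` from `ker_fn_of_states` (black box in SFpB)

Write `K = H ⊓ Stab x`.

(F0) `fp_ker`: if `H` is finitely presented and `f : FreeGroup (Fin m) →* G` has range `H`, then
`f.ker` is the normal closure of a finite set.  (Choose `a : F' → F`, `b : F → F'` over `H`; take
`b(R)` and the `x_i * b(a(x_i))⁻¹`.)

Choose finitely many `s_1..s_m ∈ 𝓢 ∪ 𝓢⁻¹`, closed under inverses, generating `H` (`hs` passes to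
inverses: put `g' = g s⁻¹`). Call `s` of type A if `s x = x` and of type B otherwise; for `s` of
type B let `d_s = d (s x)` and `K_s = K ⊓ Stab d_s` (finitely presented by `hE`).
Key fact: if `g_0, g_1, ..., g_r` is a path (`g_{i+1} = g_i s_i`) with `g_0, g_r ∈ Stab x` and
`g_i x ≠ x` for `0 < i < r`, `r ≥ 2`, then `d (g_1 x) = d (g_{r-1} x)`, `d (g_1 x) = g_0 d_{s_0}`,
`d (g_{r-1} x) = g_r d_{s'}` with `s' = s_{r-1}⁻¹` (by `hd1`), so `g_0⁻¹ g_r` maps `d_{s'}` to
`d_{s_0}`, i.e. lies in `K_{s_0} c_{s_0 s'}` with a fixed `c_{s s'} ∈ K` mapping `d_{s'}` to `d_s`.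

(F1) `K` is finitely generated: by the type A letters, generators of the `K_s` and the
`c_{s s'}`. Slick form: let `K'` be the subgroup generated by these; the set
`W = {g ∈ H | (g x = x → g ∈ K') ∧ (g x ≠ x → ∃ k ∈ K', ∃ i type B, d (g x) = k • d_i)}`
contains `1` and is closed under right multiplication by letters, so `W = H` and `K = K'`.

(F2) Let `f_K : F_K = FreeGroup (Fin m) → G` have range `K`, such that every `K_s` has a
presentation whose generators are among the letters of `F_K` (take the disjoint union of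
generators of `K` and generators of the presentations of the `K_s`), and let `N` be the normal
closure of the relators of the presentations of the `K_s`. `A = F_K / N`, `p : A → G`, `E_s` =
the subgroup generated by the letters of `K_s`; `p` is injective on `E_s`.

(F3) `ker_fn_of_states` gives `ker p = normal closure of a finite set M`, so the kernel of `f_K`
is the normal closure of the relators of `N` and lifts of `M`, and `K` is finitely presented.
-/

namespace Pda3a14

open MulAction

variable {G : Type*} [Group G] {V : Type*} [MulAction G V]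


theorem map_nc {F F' : Type*} [Group F] [Group F'] (b : F →* F') (R : Set F) (N : Subgroup F')
    [N.Normal] (h : ∀ r ∈ R, b r ∈ N) {w : F} (hw : w ∈ Subgroup.normalClosure R) : b w ∈ N := by
  have h1 : Subgroup.normalClosure R ≤ N.comap b :=
    Subgroup.normalClosure_le_normal fun r hr => h r hr
  exact h1 hw

theorem fp_ker {H : Subgroup G} (P : SPres H) {J : Type*} [Finite J] (f : FreeGroup J →* G)
    (hf : f.range = H) :
    ∃ R : Finset (FreeGroup J), f.ker = Subgroup.normalClosure (R : Set (FreeGroup J)) := by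
  classical
  have hb : ∀ i : Fin P.n, ∃ y : FreeGroup J, f y = P.π (FreeGroup.of i) := by
    intro i
    have h : P.π (FreeGroup.of i) ∈ P.π.range := ⟨_, rfl⟩
    have h2 : P.π (FreeGroup.of i) ∈ f.range := by
      rw [hf]
      rw [P.range_eq] at h
      exact h
    exact h2
  choose bb hbb using hb
  have ha : ∀ j : J, ∃ y : FreeGroup (Fin P.n), P.π y = f (FreeGroup.of j) := by
    intro j
    have h : f (FreeGroup.of j) ∈ f.range := ⟨_, rfl⟩
    have h2 : f (FreeGroup.of j) ∈ P.π.range := by
      rw [P.range_eq]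
      rw [hf] at h
      exact h
    exact h2
  choose aa haa using ha
  set b : FreeGroup (Fin P.n) →* FreeGroup J := FreeGroup.lift bb with hbdef
  set a : FreeGroup J →* FreeGroup (Fin P.n) := FreeGroup.lift aa with hadef
  have hfb : f.comp b = P.π := by
    refine FreeGroup.ext_hom _ _ fun i => ?_
    simp [hbdef, hbb]
  have hpa : P.π.comp a = f := by
    refine FreeGroup.ext_hom _ _ fun j => ?_
    simp [hadef, haa]
  have := Fintype.ofFinite J
  let R : Finset (FreeGroup J) := P.R.image b ∪
    Finset.univ.image (fun j : J => FreeGroup.of j * (b (a (FreeGroup.of j)))⁻¹)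
  refine ⟨R, le_antisymm ?_ ?_⟩
  · intro w hw
    set N : Subgroup (FreeGroup J) := Subgroup.normalClosure (R : Set (FreeGroup J)) with hN
    have key : (QuotientGroup.mk' N).comp (b.comp a) = QuotientGroup.mk' N := by
      refine FreeGroup.ext_hom _ _ fun j => ?_
      have h1 : FreeGroup.of j * (b (a (FreeGroup.of j)))⁻¹ ∈ N := by
        refine Subgroup.subset_normalClosure ?_
        simp only [R, Finset.coe_union, Finset.coe_image, Set.mem_union]
        right
        exact ⟨j, by simp, rfl⟩
      have h2 : QuotientGroup.mk' N (FreeGroup.of j * (b (a (FreeGroup.of j)))⁻¹) = 1 :=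
        (QuotientGroup.eq_one_iff _).2 h1
      rw [map_mul, map_inv, mul_inv_eq_one] at h2
      exact h2.symm
    have h3 : a w ∈ Subgroup.normalClosure (P.R : Set (FreeGroup (Fin P.n))) := by
      rw [← P.ker, MonoidHom.mem_ker]
      have := DFunLike.congr_fun hpa w
      rw [MonoidHom.comp_apply] at this
      rw [this]
      exact hw
    have h4 : b (a w) ∈ N := by
      refine map_nc b _ N ?_ h3
      intro r hr
      refine Subgroup.subset_normalClosure ?_
      simp only [R, Finset.coe_union, Finset.coe_image, Set.mem_union]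
      left
      exact ⟨r, hr, rfl⟩
    have h5 := DFunLike.congr_fun key w
    rw [MonoidHom.comp_apply, MonoidHom.comp_apply] at h5
    have h6 : QuotientGroup.mk' N (b (a w)) = 1 := (QuotientGroup.eq_one_iff _).2 h4
    rw [h6] at h5
    exact (QuotientGroup.eq_one_iff _).1 h5.symm
  · refine Subgroup.normalClosure_le_normal ?_
    intro r hr
    simp only [R, Finset.coe_union, Finset.coe_image, Set.mem_union] at hr
    rw [SetLike.mem_coe, MonoidHom.mem_ker]
    rcases hr with ⟨r', hr', rfl⟩ | ⟨j, -, rfl⟩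
    · have := DFunLike.congr_fun hfb r'
      rw [MonoidHom.comp_apply] at this
      rw [this]
      have h7 : r' ∈ P.π.ker := by
        rw [P.ker]
        exact Subgroup.subset_normalClosure hr'
      exact h7
    · have h8 := DFunLike.congr_fun hfb (a (FreeGroup.of j))
      have h9 := DFunLike.congr_fun hpa (FreeGroup.of j)
      rw [MonoidHom.comp_apply] at h8 h9
      rw [map_mul, map_inv, h8, h9, mul_inv_cancel]

theorem spres_of_finite {K : Subgroup G} {J : Type*} [Finite J] (f : FreeGroup J →* G)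
    (hf : f.range = K) (R : Finset (FreeGroup J))
    (hR : f.ker = Subgroup.normalClosure (R : Set (FreeGroup J))) : Nonempty (SPres K) := by
  classical
  obtain ⟨n, ⟨e⟩⟩ := Finite.exists_equiv_fin J
  let c : FreeGroup J ≃* FreeGroup (Fin n) := FreeGroup.freeGroupCongr e
  refine ⟨{ n := n, π := f.comp c.symm.toMonoidHom, R := R.image c, range_eq := ?_, ker := ?_ }⟩
  · rw [← hf]
    ext g
    constructor
    · rintro ⟨y, rfl⟩
      exact ⟨c.symm y, rfl⟩
    · rintro ⟨y, rfl⟩
      exact ⟨c y, by simp⟩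
  · apply le_antisymm
    · intro w hw
      have h1 : c.symm w ∈ f.ker := hw
      rw [hR] at h1
      have h2 := map_nc c.toMonoidHom (R : Set (FreeGroup J))
        (Subgroup.normalClosure ((R.image c : Finset _) : Set (FreeGroup (Fin n)))) (by
          intro r hr
          refine Subgroup.subset_normalClosure ?_
          rw [Finset.coe_image]
          exact ⟨r, hr, rfl⟩) h1
      simpa using h2
    · refine Subgroup.normalClosure_le_normal ?_
      intro r hr
      rw [Finset.coe_image] at hr
      obtain ⟨r', hr', rfl⟩ := hr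
      rw [SetLike.mem_coe, MonoidHom.mem_ker]
      have h3 : r' ∈ f.ker := by
        rw [hR]
        exact Subgroup.subset_normalClosure hr'
      simpa using h3

theorem spres_bot : Nonempty (SPres (⊥ : Subgroup G)) := by
  refine ⟨{ n := 0, π := 1, R := ∅, range_eq := ?_, ker := ?_ }⟩
  · ext g
    constructor
    · rintro ⟨y, rfl⟩
      exact Subgroup.one_mem _
    · intro h
      rw [Subgroup.mem_bot] at h
      exact ⟨1, by rw [h]; simp⟩
  · ext w
    have hw : w = 1 := Subsingleton.elim _ _
    rw [hw]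
    simp

theorem SPres.fg {H : Subgroup G} (P : SPres H) : H.FG := by
  rw [← P.range_eq]
  have h1 : P.π.range = Subgroup.closure (Set.range fun i => P.π (FreeGroup.of i)) := by
    rw [MonoidHom.range_eq_map, ← FreeGroup.closure_range_of, MonoidHom.map_closure]
    congr 1
    ext g
    simp
  rw [h1]
  exact (Subgroup.fg_iff _).2 ⟨_, rfl, Set.finite_range _⟩

/-- a finite subset of `S` generates a finitely generated `H = closure S` -/
theorem exists_finite_gen (H : Subgroup G) (hH : H.FG) (S : Set G) (hS : H ≤ Subgroup.closure S)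
    (hSH : ∀ s ∈ S, s ∈ H) : ∃ T : Set G, T ⊆ S ∧ T.Finite ∧ Subgroup.closure T = H := by
  classical
  have h1 : ∀ g ∈ Subgroup.closure S, ∃ T : Set G, T ⊆ S ∧ T.Finite ∧ g ∈ Subgroup.closure T := by
    intro g hg
    induction hg using Subgroup.closure_induction with
    | mem x hx =>
      exact ⟨{x}, by simpa using hx, Set.finite_singleton x, Subgroup.subset_closure rfl⟩
    | one => exact ⟨∅, by simp, Set.finite_empty, Subgroup.one_mem _⟩
    | mul x y _ _ hx hy =>
      obtain ⟨T1, a1, b1, c1⟩ := hx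
      obtain ⟨T2, a2, b2, c2⟩ := hy
      exact ⟨T1 ∪ T2, Set.union_subset a1 a2, b1.union b2,
        Subgroup.mul_mem _ (Subgroup.closure_mono Set.subset_union_left c1)
          (Subgroup.closure_mono Set.subset_union_right c2)⟩
    | inv x _ hx =>
      obtain ⟨T1, a1, b1, c1⟩ := hx
      exact ⟨T1, a1, b1, Subgroup.inv_mem _ c1⟩
  obtain ⟨U, hU, hUf⟩ := (Subgroup.fg_iff _).1 hH
  have h2 : ∀ u : G, u ∈ U → ∃ T : Set G, T ⊆ S ∧ T.Finite ∧ u ∈ Subgroup.closure T := by
    intro u hu
    apply h1
    apply hS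
    rw [← hU]
    exact Subgroup.subset_closure hu
  choose! T hT1 hT2 hT3 using h2
  refine ⟨⋃ u ∈ U, T u, ?_, ?_, le_antisymm ?_ ?_⟩
  · exact Set.iUnion₂_subset fun u hu => hT1 u hu
  · exact hUf.biUnion fun u hu => hT2 u hu
  · rw [Subgroup.closure_le]
    intro s hs
    rw [Set.mem_iUnion₂] at hs
    obtain ⟨u, hu, hs⟩ := hs
    exact hSH s (hT1 u hu hs)
  · rw [← hU, Subgroup.closure_le]
    intro u hu
    exact Subgroup.closure_mono (Set.subset_biUnion_of_mem (u := T) hu) (hT3 u hu)

section Main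

variable (H : Subgroup G) (x : V) (d : V → V)

/-- `F1`: the point stabilizer is generated by the letters of type A, the `K_i` and the `c i j` -/
theorem gen_stab
    (hd1 : ∀ k ∈ H, k • x = x → ∀ p, p ≠ x → d (k • p) = k • d p)
    {m : ℕ} (s : Fin m → G) (hgen : Subgroup.closure (Set.range s) = H)
    (hinv : ∀ i, ∃ j, s j = (s i)⁻¹)
    (hs : ∀ i, ∀ g ∈ H, g • x ≠ x → (g * s i) • x ≠ x → d (g • x) = d ((g * s i) • x))
    (K' : Subgroup G) (hK' : K' ≤ H ⊓ stabilizer G x)
    (hA : ∀ i, s i • x = x → s i ∈ K')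
    (hB : ∀ i, s i • x ≠ x → H ⊓ stabilizer G x ⊓ stabilizer G (d (s i • x)) ≤ K')
    (hC : ∀ i j, s i • x ≠ x → s j • x ≠ x →
      (∃ c ∈ H ⊓ stabilizer G x, c • d (s j • x) = d (s i • x)) →
      ∃ c ∈ K', c • d (s j • x) = d (s i • x)) :
    H ⊓ stabilizer G x ≤ K' := by
  have hsH : ∀ i, s i ∈ H := fun i => by
    rw [← hgen]
    exact Subgroup.subset_closure ⟨i, rfl⟩
  have step : ∀ g ∈ H, ∀ i,
      ((g • x = x → g ∈ K') ∧ (g • x ≠ x → ∃ k ∈ K', ∃ j, s j • x ≠ x ∧
        d (g • x) = k • d (s j • x))) →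
      (((g * s i) • x = x → g * s i ∈ K') ∧ ((g * s i) • x ≠ x → ∃ k ∈ K', ∃ j, s j • x ≠ x ∧
        d ((g * s i) • x) = k • d (s j • x))) := by
    intro g hg i hW
    by_cases h1 : g • x = x
    · have hgK := hW.1 h1
      constructor
      · intro h2
        have h3 : s i • x = x := by
          rw [mul_smul] at h2
          have h4 : g • (s i • x) = g • x := h2.trans h1.symm
          exact smul_left_cancel g h4
        exact Subgroup.mul_mem _ hgK (hA i h3)
      · intro h2
        have h3 : s i • x ≠ x := by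
          intro h3
          exact h2 (by rw [mul_smul, h3, h1])
        refine ⟨g, hgK, i, h3, ?_⟩
        rw [mul_smul]
        exact hd1 g hg h1 _ h3
    · obtain ⟨k, hk, j, hj, hd⟩ := hW.2 h1
      constructor
      · intro h2
        obtain ⟨j', hj'⟩ := hinv i
        have h3 : g = (g * s i) * s j' := by rw [hj', mul_inv_cancel_right]
        have h4 : s j' • x ≠ x := by
          intro h4
          apply h1
          rw [h3, mul_smul, h4, h2]
        have hgs : g * s i ∈ H := Subgroup.mul_mem _ hg (hsH i)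
        have h5 : d (g • x) = (g * s i) • d (s j' • x) := by
          conv_lhs => rw [h3, mul_smul]
          exact hd1 _ hgs h2 _ h4
        rw [hd] at h5
        have hkK := hK' hk
        have h6 : (k⁻¹ * (g * s i)) • d (s j' • x) = d (s j • x) := by
          rw [mul_smul, ← h5, inv_smul_smul]
        have h7 : k⁻¹ * (g * s i) ∈ H ⊓ stabilizer G x :=
          Subgroup.mul_mem _ (Subgroup.inv_mem _ hkK) ⟨hgs, h2⟩
        obtain ⟨c, hc, hc2⟩ := hC j j' hj h4 ⟨_, h7, h6⟩
        have h8 : c⁻¹ * (k⁻¹ * (g * s i)) ∈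
            H ⊓ stabilizer G x ⊓ stabilizer G (d (s j' • x)) := by
          refine ⟨Subgroup.mul_mem _ (Subgroup.inv_mem _ (hK' hc)) h7, ?_⟩
          change (c⁻¹ * (k⁻¹ * (g * s i))) • d (s j' • x) = d (s j' • x)
          rw [mul_smul, h6, ← hc2, inv_smul_smul]
        have h9 := hB j' h4 h8
        have h10 : g * s i = k * (c * (c⁻¹ * (k⁻¹ * (g * s i)))) := by group
        rw [h10]
        exact Subgroup.mul_mem _ hk (Subgroup.mul_mem _ hc h9)
      · intro h2
        exact ⟨k, hk, j, hj, by rw [← hs i g hg h1 h2]; exact hd⟩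
  have all : ∀ g ∈ H, ((g • x = x → g ∈ K') ∧ (g • x ≠ x → ∃ k ∈ K', ∃ j, s j • x ≠ x ∧
        d (g • x) = k • d (s j • x))) := by
    intro g hg
    rw [← hgen] at hg
    induction hg using Subgroup.closure_induction_right with
    | one => exact ⟨fun _ => Subgroup.one_mem _, fun h => absurd (one_smul G x) h⟩
    | mul_right y hy z hz ih =>
      obtain ⟨i, rfl⟩ := hz
      rw [hgen] at hy
      exact step y hy i ih
    | mul_inv_cancel y hy z hz ih =>
      obtain ⟨i, rfl⟩ := hz
      obtain ⟨j, hj⟩ := hinv i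
      rw [hgen] at hy
      rw [← hj]
      exact step y hy j ih
  intro g hg
  exact (all g hg.1).1 hg.2

end Main

theorem fp_of_dir (H : Subgroup G) (x : V) (d : V → V)
    (hd1 : ∀ k ∈ H, k • x = x → ∀ p, p ≠ x → d (k • p) = k • d p)
    (𝓢 : Set G) (h𝓢 : H ≤ Subgroup.closure 𝓢) (h𝓢H : ∀ s ∈ 𝓢, s ∈ H)
    (hs : ∀ s ∈ 𝓢, ∀ g ∈ H, g • x ≠ x → (g * s) • x ≠ x → d (g • x) = d ((g * s) • x))
    (hE : ∀ g ∈ H, g • x ≠ x →
      Nonempty (SPres (H ⊓ stabilizer G x ⊓ stabilizer G (d (g • x)))))
    (P : SPres H) : Nonempty (SPres (H ⊓ stabilizer G x)) := by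
  classical
  -- the letters
  obtain ⟨T, hT𝓢, hTf, hTH⟩ := exists_finite_gen H P.fg 𝓢 h𝓢 h𝓢H
  have hT' : (T ∪ T⁻¹).Finite := hTf.union hTf.inv
  obtain ⟨m, s, hsr⟩ : ∃ (m : ℕ) (s : Fin m → G), Set.range s = T ∪ T⁻¹ := by
    obtain ⟨m, ⟨e⟩⟩ := @Finite.exists_equiv_fin (T ∪ T⁻¹ : Set G) hT'
    refine ⟨m, fun i => (e.symm i : G), ?_⟩
    ext g
    constructor
    · rintro ⟨i, rfl⟩
      exact (e.symm i).2
    · intro hg
      exact ⟨e ⟨g, hg⟩, by simp⟩
  have hgen : Subgroup.closure (Set.range s) = H := by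
    rw [hsr]
    apply le_antisymm
    · rw [Subgroup.closure_le]
      rintro g (hg | hg)
      · rw [← hTH]
        exact Subgroup.subset_closure hg
      · rw [← hTH]
        have := Subgroup.subset_closure (k := T) hg
        simpa using Subgroup.inv_mem _ this
    · rw [← hTH]
      exact Subgroup.closure_mono Set.subset_union_left
  have hsH : ∀ i, s i ∈ H := fun i => by
    rw [← hgen]
    exact Subgroup.subset_closure ⟨i, rfl⟩
  have hinv : ∀ i, ∃ j, s j = (s i)⁻¹ := by
    intro i
    have h1 : s i ∈ T ∪ T⁻¹ := by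
      rw [← hsr]
      exact ⟨i, rfl⟩
    have h2 : (s i)⁻¹ ∈ Set.range s := by
      rw [hsr]
      rcases h1 with h1 | h1
      · right
        simpa using h1
      · left
        exact h1
    exact h2
  have hs' : ∀ i, ∀ g ∈ H, g • x ≠ x → (g * s i) • x ≠ x → d (g • x) = d ((g * s i) • x) := by
    intro i g hg h1 h2
    have h3 : s i ∈ T ∪ T⁻¹ := by
      rw [← hsr]
      exact ⟨i, rfl⟩
    rcases h3 with h3 | h3
    · exact hs _ (hT𝓢 h3) g hg h1 h2
    · have h4 := hs (s i)⁻¹ (hT𝓢 h3) (g * s i) (Subgroup.mul_mem _ hg (hsH i)) h2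
        (by rwa [mul_inv_cancel_right])
      rw [mul_inv_cancel_right] at h4
      exact h4.symm
  obtain ⟨R₀, hR₀⟩ := fp_ker P (FreeGroup.lift s) (by
    rw [← hgen]
    exact FreeGroup.range_lift_eq_closure)
  -- presentations of the K_i
  have hPi : ∀ i, ∃ Q : Subgroup G, Nonempty (SPres Q) ∧ Q ≤ H ⊓ stabilizer G x ∧
      (s i • x ≠ x → Q = H ⊓ stabilizer G x ⊓ stabilizer G (d (s i • x))) := by
    intro i
    by_cases h : s i • x = x
    · exact ⟨⊥, spres_bot, bot_le, fun h' => absurd h h'⟩
    · exact ⟨_, hE (s i) (hsH i) h, inf_le_left, fun _ => rfl⟩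
  choose Q hQ1 hQ2 hQ3 using hPi
  let Pi : ∀ i, SPres (Q i) := fun i => (hQ1 i).some
  -- the elements c i j
  have hc : ∀ i j, ∃ c ∈ H ⊓ stabilizer G x,
      ((∃ c ∈ H ⊓ stabilizer G x, c • d (s j • x) = d (s i • x)) → c • d (s j • x) = d (s i • x)) := by
    intro i j
    by_cases h : ∃ c ∈ H ⊓ stabilizer G x, c • d (s j • x) = d (s i • x)
    · obtain ⟨c, hc, hc2⟩ := h
      exact ⟨c, hc, fun _ => hc2⟩
    · exact ⟨1, Subgroup.one_mem _, fun h' => absurd h' h⟩
  choose c hc1 hc2 using hc
  -- generators of K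
  let J := Fin m ⊕ (Σ i, Fin (Pi i).n) ⊕ (Fin m × Fin m)
  let L : J → G := fun j => match j with
    | Sum.inl i => if s i • x = x then s i else 1
    | Sum.inr (Sum.inl y) => (Pi y.1).π (FreeGroup.of y.2)
    | Sum.inr (Sum.inr y) => c y.1 y.2
  let f : FreeGroup J →* G := FreeGroup.lift L
  let ι : ∀ i, FreeGroup (Fin (Pi i).n) →* FreeGroup J := fun i =>
    FreeGroup.lift fun a => FreeGroup.of (Sum.inr (Sum.inl ⟨i, a⟩))
  have hfι : ∀ i, f.comp (ι i) = (Pi i).π := by
    intro i
    refine FreeGroup.ext_hom _ _ fun a => ?_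
    simp [f, ι, L]
  have hfr : f.range = H ⊓ stabilizer G x := by
    have hle : f.range ≤ H ⊓ stabilizer G x := by
      rw [FreeGroup.range_lift_eq_closure, Subgroup.closure_le]
      rintro _ ⟨j, rfl⟩
      rcases j with i | y | y
      · by_cases h : s i • x = x
        · simp only [L, h, if_true]
          exact ⟨hsH i, h⟩
        · simp only [L, h, if_false]
          exact Subgroup.one_mem _
      · apply hQ2 y.1
        rw [← (Pi y.1).range_eq]
        exact ⟨_, rfl⟩
      · exact hc1 _ _
    refine le_antisymm hle ?_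
    refine gen_stab H x d hd1 s hgen hinv hs' f.range hle ?_ ?_ ?_
    · intro i hi
      refine ⟨FreeGroup.of (Sum.inl i), ?_⟩
      simp [f, L, hi]
    · intro i hi
      rw [← hQ3 i hi, ← (Pi i).range_eq, ← hfι i]
      rintro _ ⟨w, rfl⟩
      exact ⟨ι i w, rfl⟩
    · intro i j _ _ h
      exact ⟨c i j, ⟨FreeGroup.of (Sum.inr (Sum.inr (i, j))), by simp [f, L]⟩, hc2 i j h⟩
  -- the group A
  let Rel : Finset (FreeGroup J) := Finset.univ.biUnion fun i => (Pi i).R.image (ι i)
  let N : Subgroup (FreeGroup J) := Subgroup.normalClosure (Rel : Set (FreeGroup J))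
  have hRelmem : ∀ i, ∀ r ∈ (Pi i).R, ι i r ∈ N := by
    intro i r hr
    apply Subgroup.subset_normalClosure
    simp only [Rel, Finset.coe_biUnion, Set.mem_iUnion]
    exact ⟨i, by simp, by
      rw [Finset.mem_coe, Finset.mem_image]
      exact ⟨r, hr, rfl⟩⟩
  have hNker : N ≤ f.ker := by
    refine Subgroup.normalClosure_le_normal ?_
    intro w hw
    simp only [Rel, Finset.coe_biUnion, Set.mem_iUnion] at hw
    obtain ⟨i, -, hw⟩ := hw
    rw [Finset.mem_coe, Finset.mem_image] at hw
    obtain ⟨r, hr, rfl⟩ := hw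
    have h1 := DFunLike.congr_fun (hfι i) r
    rw [MonoidHom.comp_apply] at h1
    rw [SetLike.mem_coe, MonoidHom.mem_ker, h1]
    have h2 : r ∈ (Pi i).π.ker := by
      rw [(Pi i).ker]
      exact Subgroup.subset_normalClosure hr
    exact h2
  let A := FreeGroup J ⧸ N
  let p : A →* G := QuotientGroup.lift N f hNker
  have hpmk : ∀ w, p (QuotientGroup.mk' N w) = f w := fun w => rfl
  have hp : p.range = H ⊓ stabilizer G x := by
    rw [← hfr]
    ext g
    constructor
    · rintro ⟨a, rfl⟩
      obtain ⟨w, rfl⟩ := QuotientGroup.mk'_surjective N a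
      exact ⟨w, rfl⟩
    · rintro ⟨w, rfl⟩
      exact ⟨QuotientGroup.mk' N w, rfl⟩
  have hAfg : Group.FG A := by
    have h1 : Group.FG (FreeGroup J) := by
      rw [Group.fg_iff]
      exact ⟨Set.range FreeGroup.of, FreeGroup.closure_range_of J, Set.finite_range _⟩
    exact Group.fg_of_surjective (QuotientGroup.mk'_surjective N)
  let E : Fin m → Subgroup A := fun i => ((QuotientGroup.mk' N).comp (ι i)).range
  have hEmap : ∀ i, s i • x ≠ x → (E i).map p = H ⊓ stabilizer G x ⊓ stabilizer G (d (s i • x)) := by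
    intro i hi
    rw [← hQ3 i hi, ← (Pi i).range_eq, ← hfι i]
    ext g
    constructor
    · rintro ⟨_, ⟨w, rfl⟩, rfl⟩
      exact ⟨w, rfl⟩
    · rintro ⟨w, rfl⟩
      exact ⟨_, ⟨w, rfl⟩, rfl⟩
  have hEinj : ∀ i, s i • x ≠ x → ∀ a ∈ E i, p a = 1 → a = 1 := by
    rintro i - _ ⟨w, rfl⟩ h
    have h1 := DFunLike.congr_fun (hfι i) w
    rw [MonoidHom.comp_apply] at h1
    have h2 : w ∈ (Pi i).π.ker := by
      rw [MonoidHom.mem_ker, ← h1]
      exact h
    rw [(Pi i).ker] at h2
    exact (QuotientGroup.eq_one_iff _).2 (map_nc (ι i) _ N (hRelmem i) h2)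
  obtain ⟨M, hM⟩ := ker_fn_of_states H x d hd1 s hgen hinv hs' R₀ hR₀ hAfg p hp E hEmap hEinj
  -- back to the free group
  let σ : A → FreeGroup J := Function.surjInv (QuotientGroup.mk'_surjective N)
  have hσ : ∀ a, QuotientGroup.mk' N (σ a) = a :=
    Function.surjInv_eq (QuotientGroup.mk'_surjective N)
  refine spres_of_finite f hfr (Rel ∪ M.image σ) (le_antisymm ?_ ?_)
  · intro w hw
    set N' : Subgroup (FreeGroup J) := Subgroup.normalClosure ((Rel ∪ M.image σ : Finset _) :
      Set (FreeGroup J)) with hN'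
    have hNN' : N ≤ N' := Subgroup.normalClosure_mono (by
      rw [Finset.coe_union]
      exact Set.subset_union_left)
    have h1 : QuotientGroup.mk' N w ∈ p.ker := hw
    rw [hM] at h1
    have h2 : Subgroup.normalClosure (M : Set A) ≤ N'.map (QuotientGroup.mk' N) := by
      have : (N'.map (QuotientGroup.mk' N)).Normal :=
        Subgroup.Normal.map inferInstance _ (QuotientGroup.mk'_surjective N)
      refine Subgroup.normalClosure_le_normal ?_
      intro a ha
      refine ⟨σ a, ?_, hσ a⟩
      apply Subgroup.subset_normalClosure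
      rw [Finset.coe_union]
      right
      rw [Finset.coe_image]
      exact ⟨a, ha, rfl⟩
    obtain ⟨w', hw', hww'⟩ := h2 h1
    have h3 : w'⁻¹ * w ∈ N := QuotientGroup.eq.1 hww'
    have h4 : w = w' * (w'⁻¹ * w) := by group
    rw [h4]
    exact Subgroup.mul_mem _ hw' (hNN' h3)
  · refine Subgroup.normalClosure_le_normal ?_
    intro w hw
    rw [Finset.coe_union] at hw
    rcases hw with hw | hw
    · exact hNker (Subgroup.subset_normalClosure hw)
    · rw [Finset.coe_image] at hw
      obtain ⟨a, ha, rfl⟩ := hw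
      have h5 : a ∈ p.ker := by
        rw [hM]
        exact Subgroup.subset_normalClosure ha
      rw [← hσ a] at h5
      exact h5

end Pda3a14
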