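import Pool.Agent.Lib.Pda3a14.SDefs

/-!
# Directions in a tree
-/

namespace Pda3a14

open MulAction

/-- In a tree, `d x p` is the neighbour of `x` on the path from `x` to `p`. -/
theorem exists_dir {V : Type*} (T : SimpleGraph V) (hT : T.IsTree) :
    ∃ d : V → V → V,
      (∀ x p, T.Adj x p → d x p = p) ∧
      (∀ x p, p ≠ x → T.Adj x (d x p)) ∧
      (∀ x p q, p ≠ x → q ≠ x → T.Adj p q → d x p = d x q) := by
  classical
  choose P hP hPu using hT.existsUnique_path
  have hP' : ∀ v w, (P v w).IsPath := fun v w => hP v w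
  have hu : ∀ v w (p : T.Walk v w), p.IsPath → p = P v w := fun v w p hp => hPu v w p hp
  have key : ∀ x p q, p ≠ x → q ≠ x → T.Adj p q → (P x p).snd = (P x q).snd := by
    intro x p q hp hq hpq
    by_cases h : q ∈ (P x p).support
    · have h1 := hu x q ((P x p).takeUntil q h) ((hP' x p).takeUntil h)
      rw [← h1, SimpleGraph.Walk.snd_takeUntil hq]
    · have h1 := hu x q ((P x p).concat hpq) ((hP' x p).concat h hpq)
      rw [← h1]
      have h2 : ∀ (u v : V) (w : T.Walk u v) (t : V) (ht : T.Adj v t), v ≠ u →
          w.snd = (w.concat ht).snd := by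
        intro u v w t ht hne
        cases w with
        | nil => exact absurd rfl hne
        | cons a w' => simp [SimpleGraph.Walk.concat_cons]
      exact h2 x p (P x p) q hpq hp
  refine ⟨fun x p => (P x p).snd, ?_, ?_, key⟩
  · intro x p h
    have h1 := hu x p h.toWalk (by simp [SimpleGraph.Walk.isPath_def, h.ne])
    show (P x p).snd = p
    rw [← h1]
    simp
  · intro x p hp
    refine (P x p).adj_snd ?_
    intro hn
    exact hp hn.eq.symm

/-- Along a walk which avoids `x` the direction does not change. -/
theorem dir_walk {V : Type*} (T : SimpleGraph V) (d : V → V → V)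
    (h3 : ∀ x p q, p ≠ x → q ≠ x → T.Adj p q → d x p = d x q) (x : V) :
    ∀ (a b : V) (w : T.Walk a b), (∀ v ∈ w.support, v ≠ x) → d x a = d x b := by
  intro a b w
  induction w with
  | nil => intro _; rfl
  | @cons u v t h w' ih =>
    intro hv
    rw [← ih (fun z hz => hv z (by rw [SimpleGraph.Walk.support_cons]; exact List.mem_cons_of_mem _ hz))]
    refine h3 x u v (hv u ?_) (hv v ?_) h
    · exact SimpleGraph.Walk.start_mem_support _
    · rw [SimpleGraph.Walk.support_cons]
      exact List.mem_cons_of_mem _ (SimpleGraph.Walk.start_mem_support _)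

/-- The graph homomorphism given by a group element. -/
def smulHom {G : Type*} [Group G] {V : Type*} [MulAction G V] (T : SimpleGraph V)
    (hadj : ∀ (g : G) (x y : V), T.Adj x y → T.Adj (g • x) (g • y)) (g : G) : T →g T where
  toFun := fun v => g • v
  map_rel' := fun {a b} h => hadj g a b h

/-- The direction from `g • x` along the image of a walk which avoids `x`. -/
theorem dir_walk_smul {G : Type*} [Group G] {V : Type*} [MulAction G V] (T : SimpleGraph V)
    (hadj : ∀ (g : G) (x y : V), T.Adj x y → T.Adj (g • x) (g • y))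
    (d : V → V → V)
    (h3 : ∀ x p q, p ≠ x → q ≠ x → T.Adj p q → d x p = d x q) (g : G) (x : V)
    (a b : V) (w : T.Walk a b) (hw : ∀ v ∈ w.support, g • v ≠ x) :
    d x (g • a) = d x (g • b) := by
  have key : ∀ v ∈ (w.map (smulHom T hadj g)).support, v ≠ x := by
    intro v hv
    rw [SimpleGraph.Walk.support_map, List.mem_map] at hv
    obtain ⟨z, hz, rfl⟩ := hv
    exact hw z hz
  exact dir_walk T d h3 x _ _ (w.map (smulHom T hadj g)) key

/-- Such a function is equivariant. -/
theorem dir_equiv {G : Type*} [Group G] {V : Type*} [MulAction G V] (T : SimpleGraph V)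
    (hT : T.IsTree) (hadj : ∀ (g : G) (x y : V), T.Adj x y → T.Adj (g • x) (g • y))
    (d : V → V → V) (h1 : ∀ x p, T.Adj x p → d x p = p)
    (h3 : ∀ x p q, p ≠ x → q ≠ x → T.Adj p q → d x p = d x q)
    (g : G) (x p : V) (hp : p ≠ x) : d (g • x) (g • p) = g • d x p := by
  classical
  obtain ⟨P, hP, -⟩ := hT.existsUnique_path x p
  cases P with
  | nil => exact absurd rfl hp
  | @cons _ y _ h w =>
    have hw : x ∉ w.support := by
      have h5 : (SimpleGraph.Walk.cons h w).IsPath := hP
      rw [SimpleGraph.Walk.cons_isPath_iff] at h5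
      exact h5.2
    have e1 : d x y = d x p := dir_walk T d h3 x y p w (fun v hv hvx => hw (hvx ▸ hv))
    have e2 : d (g • x) (g • y) = d (g • x) (g • p) :=
      dir_walk_smul T hadj d h3 g (g • x) y p w (fun v hv hvx => hw ((smul_left_cancel g hvx) ▸ hv))
    rw [← e2, ← e1, h1 x y h, h1 _ _ (hadj g x y h)]

/-- Every element of `H` is a product of elements `s` whose path from `x` to `s x` has no interior
vertex in the orbit of `x`, so that right multiplication by `s` does not change the direction. -/
theorem closure_good {G : Type*} [Group G] {V : Type*} [MulAction G V] (T : SimpleGraph V)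
    (hT : T.IsTree) (hadj : ∀ (g : G) (x y : V), T.Adj x y → T.Adj (g • x) (g • y))
    (d : V → V → V) (h1 : ∀ x p, T.Adj x p → d x p = p)
    (h3 : ∀ x p q, p ≠ x → q ≠ x → T.Adj p q → d x p = d x q)
    (H : Subgroup G) (x : V) :
    H ≤ Subgroup.closure {s | s ∈ H ∧ ∀ g ∈ H, g • x ≠ x → (g * s) • x ≠ x →
      d x (g • x) = d x ((g * s) • x)} := by
  classical
  have hconn : T.Connected := hT.1
  have hdist : ∀ (g : G) (a b : V), T.dist (g • a) (g • b) ≤ T.dist a b := by
    intro g a b
    obtain ⟨w, hw⟩ := hconn.exists_walk_length_eq_dist a b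
    rw [← hw, ← SimpleGraph.Walk.length_map (smulHom T hadj g) w]
    exact SimpleGraph.dist_le _
  have main : ∀ (n : ℕ) (h : G), h ∈ H → T.dist x (h • x) = n →
      h ∈ Subgroup.closure {s | s ∈ H ∧ ∀ g ∈ H, g • x ≠ x → (g * s) • x ≠ x →
      d x (g • x) = d x ((g * s) • x)} := by
    intro n
    induction n using Nat.strong_induction_on with
    | _ n ih =>
      intro h hh hn
      obtain ⟨w, hw⟩ := hconn.exists_walk_length_eq_dist x (h • x)
      by_cases hint : ∃ k ∈ H, k • x ∈ w.support ∧ k • x ≠ x ∧ k • x ≠ h • x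
      · obtain ⟨k, hk, hks, hk1, hk2⟩ := hint
        have e1 : (w.takeUntil _ hks).length + (w.dropUntil _ hks).length = w.length := by
          rw [← SimpleGraph.Walk.length_append, SimpleGraph.Walk.take_spec]
        have e2 : T.dist x (k • x) ≤ (w.takeUntil _ hks).length := SimpleGraph.dist_le _
        have e3 : T.dist (k • x) (h • x) ≤ (w.dropUntil _ hks).length := SimpleGraph.dist_le _
        have e4 : 0 < T.dist x (k • x) := hconn.pos_dist_of_ne (Ne.symm hk1)
        have e5 : 0 < T.dist (k • x) (h • x) := hconn.pos_dist_of_ne hk2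
        have e6 : T.dist x ((k⁻¹ * h) • x) ≤ T.dist (k • x) (h • x) := by
          have e7 := hdist k⁻¹ (k • x) (h • x)
          rw [inv_smul_smul, ← mul_smul] at e7
          exact e7
        have m1 := ih _ (by omega) k hk rfl
        have m2 := ih _ (by omega) (k⁻¹ * h) (H.mul_mem (H.inv_mem hk) hh) rfl
        have m3 := Subgroup.mul_mem _ m1 m2
        rwa [mul_inv_cancel_left] at m3
      · refine Subgroup.subset_closure ⟨hh, ?_⟩
        intro g hg hg1 hg2
        rw [mul_smul]
        refine dir_walk_smul T hadj d h3 g x x (h • x) w ?_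
        intro v hv hgv
        refine hint ⟨g⁻¹, H.inv_mem hg, ?_, ?_, ?_⟩
        · have : g⁻¹ • x = v := by rw [← hgv, inv_smul_smul]
          rw [this]; exact hv
        · intro h5
          exact hg1 (by rw [← h5, smul_inv_smul, h5])
        · intro h5
          refine hg2 ?_
          rw [mul_smul, ← h5, smul_inv_smul]
  exact fun h hh => main _ h hh rfl

end Pda3a14
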