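import Pool.Agent.Lib.Pda3a14.SNum
import Pool.Agent.Lib.Pda3a14.SFp
import Pool.Agent.Lib.Pda3a14.STree

/-!
# Final form: groups acting on trees
-/

namespace Pda3a14

open MulAction

variable {G : Type*} [Group G] {V : Type*} [MulAction G V]

theorem FinPres.dehn_mono {H : Type*} [Group H] (P : FinPres H) : Monotone P.dehn := by
  intro x y hxy
  apply P.dehn_le
  intro w hw h1
  exact P.areaLE_dehn (hw.trans hxy) h1

/-- The restriction of an action on a tree to a finitely presented subgroup: the Dehn function of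
the subgroup is bounded in terms of the Dehn functions of finitely many of its vertex groups. -/
theorem dehn_tree (T : SimpleGraph V) (hT : T.IsTree)
    (hadj : ∀ (g : G) (x y : V), T.Adj x y → T.Adj (g • x) (g • y)) (H : Subgroup G)
    (hE : ∀ x y, T.Adj x y → Nonempty (FinPres (H ⊓ stabilizer G x ⊓ stabilizer G y : Subgroup G)) ∧
      Undistorted (H ⊓ stabilizer G x ⊓ stabilizer G y)) (P : FinPres H) :
    ∃ (Q : ∀ o : V, FinPres (H ⊓ stabilizer G o : Subgroup G)) (X : Finset V) (C : ℕ), ∀ x,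
      P.dehn x ≤ C * (x + 1) * ((∑ o ∈ X, (Q o).dehn (C * (x + 1))) + C * (x + 1)) := by
  classical
  obtain ⟨d, h1, h2, h3⟩ := exists_dir T hT
  have hfp : ∀ o : V, Nonempty (SPres (H ⊓ stabilizer G o)) := by
    intro o
    apply fp_of_dir H o (d o) ?_ _ (closure_good T hT hadj d h1 h3 H o) ?_ ?_ ?_ P.toSPres
    · intro k _ hk p hp
      have := dir_equiv T hT hadj d h1 h3 k o p hp
      rwa [hk] at this
    · intro s hs
      exact hs.1
    · intro s hs g hg h4 h5
      exact hs.2 g hg h4 h5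
    · intro g _ hgo
      obtain ⟨P'⟩ := (hE o (d o (g • o)) (h2 o _ hgo)).1
      exact ⟨P'.toSPres⟩
  let Q := fun o : V => (hfp o).some
  obtain ⟨X, hX, C, hC⟩ := tree_area T hT hadj d h1 h3 H (fun x y hxy => (hE x y hxy).2)
    P.toSPres Q
  refine ⟨fun o => (Q o).toFinPres, hX.toFinset, C, fun x => ?_⟩
  apply P.dehn_le
  intro w hw hw1
  apply hC (fun m => ∑ o ∈ hX.toFinset, ((Q o).toFinPres).dehn m)
  · intro a b hab
    apply Finset.sum_le_sum
    intro o _
    exact ((Q o).toFinPres).dehn_mono hab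
  · intro o ho m z hz hz1
    have h5 : AreaLE ((Q o).R : Set (FreeGroup (Fin (Q o).n))) (((Q o).toFinPres).dehn m) z := by
      apply ((Q o).toFinPres).areaLE_dehn hz
      exact Subtype.ext hz1
    apply h5.mono
    apply Finset.single_le_sum (f := fun o => ((Q o).toFinPres).dehn m)
      (fun _ _ => Nat.zero_le _)
    rw [Set.Finite.mem_toFinset]
    exact ho
  · exact hw
  · change ((P.π w : H) : G) = 1
    rw [hw1]; rfl

theorem exp_tree (T : SimpleGraph V) (hT : T.IsTree)
    (hadj : ∀ (g : G) (x y : V), T.Adj x y → T.Adj (g • x) (g • y)) (H : Subgroup G)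
    (hE : ∀ x y, T.Adj x y → Nonempty (FinPres (H ⊓ stabilizer G x ⊓ stabilizer G y : Subgroup G)) ∧
      Undistorted (H ⊓ stabilizer G x ⊓ stabilizer G y))
    (hV : ∀ x : V, ∀ P : FinPres (H ⊓ stabilizer G x : Subgroup G),
      Preceq (fun x => (P.dehn x : ℝ)) Real.exp) (P : FinPres H) : Preceq (fun x => (P.dehn x : ℝ)) Real.exp := by
  classical
  obtain ⟨Q, X, C, hQ⟩ := dehn_tree T hT hadj H hE P
  choose a ha using fun o : V => exp_nat_bound (hV o (Q o))
  have hD : ∀ m, (∑ o ∈ X, (Q o).dehn m) ≤ (X.card * (∑ o ∈ X, a o) + 1 + ∑ o ∈ X, a o) ^ (m + 1) := by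
    intro m
    have h1 : ∀ o ∈ X, (Q o).dehn m ≤ (∑ o ∈ X, a o) ^ (m + 1) := by
      intro o ho
      refine (ha o m).trans (Nat.pow_le_pow_left ?_ _)
      exact Finset.single_le_sum (f := a) (fun _ _ => Nat.zero_le _) ho
    have h2 := Finset.sum_le_card_nsmul X _ _ h1
    rw [smul_eq_mul] at h2
    refine h2.trans ?_
    set s := ∑ o ∈ X, a o
    have h3 : X.card * s ^ (m + 1) ≤ (X.card * s) * (s ^ m) := by
      rw [pow_succ']; exact (mul_assoc _ _ _).ge
    refine h3.trans ?_
    rw [pow_succ']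
    exact Nat.mul_le_mul (by omega) (Nat.pow_le_pow_left (by omega) _)
  obtain ⟨A', hA'⟩ := num_exp (C := C) hD
  exact exp_of_nat_bound (fun x => (hQ x).trans (hA' x))

theorem poly_tree (T : SimpleGraph V) (hT : T.IsTree)
    (hadj : ∀ (g : G) (x y : V), T.Adj x y → T.Adj (g • x) (g • y)) (H : Subgroup G)
    (hE : ∀ x y, T.Adj x y → Nonempty (FinPres (H ⊓ stabilizer G x ⊓ stabilizer G y : Subgroup G)) ∧
      Undistorted (H ⊓ stabilizer G x ⊓ stabilizer G y))
    (hV : ∀ x : V, ∀ P : FinPres (H ⊓ stabilizer G x : Subgroup G),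
      ∃ d : ℕ, Preceq (fun x => (P.dehn x : ℝ)) (fun x => x ^ d)) (P : FinPres H) :
    ∃ d : ℕ, Preceq (fun x => (P.dehn x : ℝ)) (fun x => x ^ d) := by
  classical
  obtain ⟨Q, X, C, hQ⟩ := dehn_tree T hT hadj H hE P
  choose d hd using fun o : V => hV o (Q o)
  choose a ha using fun o : V => poly_nat_bound (hd o)
  have hD : ∀ m, (∑ o ∈ X, (Q o).dehn m) ≤
      (∑ o ∈ X, a o) * (m + 1) ^ ((∑ o ∈ X, d o) + 1) := by
    intro m
    rw [Finset.sum_mul]
    apply Finset.sum_le_sum
    intro o ho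
    refine (ha o m).trans (Nat.mul_le_mul_left _ (Nat.pow_le_pow_right (by omega) ?_))
    have := Finset.single_le_sum (f := d) (fun _ _ => Nat.zero_le _) ho
    omega
  obtain ⟨E', hE'⟩ := num_poly (C := C) hD
  exact ⟨_, poly_of_nat_bound (fun x => (hQ x).trans (hE' x))⟩

end Pda3a14
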