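import Mathlib

/-!
# Seminorms on lattices which are bounded below (module SLat)

## Paper proof (Dirichlet)

Let `C = ∑ N e_i`, so `N b ≤ C ‖b‖` (sup norm) for all `b` (`N (n • a) ≤ |n| N a` by `hadd`,
`hneg`, `N 0 = 0` from `h2`). Choose `m ≥ 4` with `C / m ≤ c / 2`. Let `a ≠ 0`, `ℓ = ‖a‖`, and
`L = 2 ^ j` with `L < 2 ℓ`, `ℓ ≤ L`, (power of two). For `t = 0, ..., m ^ k` look at
the boxes of `(t * a i) mod L` (box number `⌊m * ((t * a i) mod L) / L⌋ < m`); by pigeonhole two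
values `t1 < t2` have the same boxes, so with `t = t2 - t1`, `1 ≤ t ≤ m ^ k`, there is `b` with
`|L * b i - t * a i| ≤ L / m` for all `i`. For `i` with `|a i| = ℓ`: `|t a i| ≥ ℓ > L / 2 ≥ L / m`,
so `b i ≠ 0`, `b ≠ 0`. Then `L c ≤ L N b = N (L b) ≤ N (t a) + N (L b - t a) ≤ t N a + C L / m
≤ m ^ k N a + L c / 2`, so `N a ≥ L c / (2 m ^ k) ≥ (c / (2 m ^ k)) ℓ`.
-/

namespace Pda3a14

theorem lattice_dirichlet {k : ℕ} (a : Fin k → ℤ) (m L : ℕ) (hm : 0 < m) (hL : 0 < L) :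
    ∃ (t : ℕ) (b : Fin k → ℤ), 0 < t ∧ t ≤ m ^ k ∧
      ∀ i, (m : ℤ) * |(t : ℤ) * a i - (L : ℤ) * b i| < L := by
  classical
  have hL' : (0 : ℤ) < L := by exact_mod_cast hL
  have hm' : (0 : ℤ) < m := by exact_mod_cast hm
  -- box number
  have hbox : ∀ x : ℤ, 0 ≤ ((m : ℤ) * (x % L)) / L ∧ ((m : ℤ) * (x % L)) / L < m := by
    intro x
    have h1 := Int.emod_nonneg x hL'.ne'
    have h2 := Int.emod_lt_of_pos x hL'
    constructor
    · exact Int.ediv_nonneg (mul_nonneg hm'.le h1) hL'.le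
    · rw [Int.ediv_lt_iff_lt_mul hL']
      exact mul_lt_mul_of_pos_left h2 hm'
  let f : Fin (m ^ k + 1) → (Fin k → Fin m) := fun t i =>
    ⟨(((m : ℤ) * ((((t : ℕ) : ℤ) * a i) % L)) / L).toNat, by
      have h := hbox (((t : ℕ) : ℤ) * a i)
      omega⟩
  obtain ⟨t1, t2, hne, hf⟩ : ∃ t1 t2, t1 ≠ t2 ∧ f t1 = f t2 := by
    apply Fintype.exists_ne_map_eq_of_card_lt
    simp
  have key : ∀ t1 t2 : Fin (m ^ k + 1), t1 < t2 → f t1 = f t2 →
      ∃ (t : ℕ) (b : Fin k → ℤ), 0 < t ∧ t ≤ m ^ k ∧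
        ∀ i, (m : ℤ) * |(t : ℤ) * a i - (L : ℤ) * b i| < L := by
    intro t1 t2 hlt hf
    have hlt' : (t1 : ℕ) < (t2 : ℕ) := hlt
    refine ⟨(t2 : ℕ) - (t1 : ℕ),
      fun i => (((t2 : ℕ) : ℤ) * a i) / L - (((t1 : ℕ) : ℤ) * a i) / L,
      by omega, by have := t2.2; omega, ?_⟩
    intro i
    have hfi := congrArg Fin.val (congrFun hf i)
    simp only [f] at hfi
    have h1 := hbox (((t1 : ℕ) : ℤ) * a i)
    have h2 := hbox (((t2 : ℕ) : ℤ) * a i)
    have hq : ((m : ℤ) * ((((t1 : ℕ) : ℤ) * a i) % L)) / L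
        = ((m : ℤ) * ((((t2 : ℕ) : ℤ) * a i) % L)) / L := by omega
    set x1 := (((t1 : ℕ) : ℤ) * a i) % L with hx1
    set x2 := (((t2 : ℕ) : ℤ) * a i) % L with hx2
    have e1 := Int.mul_ediv_add_emod (((t1 : ℕ) : ℤ) * a i) L
    have e2 := Int.mul_ediv_add_emod (((t2 : ℕ) : ℤ) * a i) L
    have g1 := Int.mul_ediv_add_emod ((m : ℤ) * x1) L
    have g2 := Int.mul_ediv_add_emod ((m : ℤ) * x2) L
    have n1 := Int.emod_nonneg ((m : ℤ) * x1) hL'.ne'
    have n2 := Int.emod_nonneg ((m : ℤ) * x2) hL'.ne'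
    have l1 := Int.emod_lt_of_pos ((m : ℤ) * x1) hL'
    have l2 := Int.emod_lt_of_pos ((m : ℤ) * x2) hL'
    have hcast : (((t2 : ℕ) - (t1 : ℕ) : ℕ) : ℤ) = ((t2 : ℕ) : ℤ) - ((t1 : ℕ) : ℤ) := by
      push_cast [Nat.cast_sub hlt'.le]; ring
    have hd : (((t2 : ℕ) - (t1 : ℕ) : ℕ) : ℤ) * a i
        - (L : ℤ) * ((((t2 : ℕ) : ℤ) * a i) / L - (((t1 : ℕ) : ℤ) * a i) / L) = x2 - x1 := by
      rw [hcast, hx1, hx2]
      linear_combination (-1 : ℤ) * e2 + e1
    show (m : ℤ) * |(((t2 : ℕ) - (t1 : ℕ) : ℕ) : ℤ) * a i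
        - (L : ℤ) * ((((t2 : ℕ) : ℤ) * a i) / L - (((t1 : ℕ) : ℤ) * a i) / L)| < L
    rw [hd]
    have habs : (m : ℤ) * |x2 - x1| = |(m : ℤ) * x2 - (m : ℤ) * x1| := by
      rw [← mul_sub, abs_mul, abs_of_pos hm']
    rw [habs, abs_lt]
    rw [hq] at g1
    constructor <;> linarith
  rcases lt_or_gt_of_ne hne with h | h
  · exact key t1 t2 h hf
  · exact key t2 t1 h hf.symm

theorem lattice_bound {k : ℕ} (N : (Fin k → ℤ) → ℝ) (hadd : ∀ a b, N (a + b) ≤ N a + N b)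
    (hneg : ∀ a, N (-a) = N a) (h2 : ∀ a, N (2 • a) = 2 * N a) {c : ℝ} (hc : 0 < c)
    (hcN : ∀ a, a ≠ 0 → c ≤ N a) :
    ∃ c' : ℝ, 0 < c' ∧ ∀ a i, c' * |(a i : ℝ)| ≤ N a := by
  classical
  have h0 : N 0 = 0 := by
    have := h2 0
    rw [smul_zero] at this
    linarith
  have hnn : ∀ a, 0 ≤ N a := by
    intro a
    have := hadd a (-a)
    rw [add_neg_cancel, h0, hneg] at this
    linarith
  have hns : ∀ (n : ℕ) a, N (n • a) ≤ n * N a := by
    intro n a
    induction n with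
    | zero => simp [h0]
    | succ n ih =>
      rw [succ_nsmul]
      refine (hadd _ _).trans ?_
      push_cast
      linarith
  have hpow : ∀ (j : ℕ) a, N ((2 ^ j) • a) = 2 ^ j * N a := by
    intro j a
    induction j with
    | zero => simp
    | succ j ih =>
      rw [pow_succ', mul_smul, h2, ih]
      ring
  have hz : ∀ (z : ℤ) a, N (z • a) ≤ |(z : ℝ)| * N a := by
    intro z a
    obtain ⟨n, rfl | rfl⟩ := z.eq_nat_or_neg
    · have := hns n a
      rw [natCast_zsmul]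
      simpa using this
    · have := hns n a
      rw [neg_smul, natCast_zsmul, hneg]
      simpa using this
  set C : ℝ := ∑ i, N (Pi.single i 1) with hC
  have hC0 : 0 ≤ C := Finset.sum_nonneg fun i _ => hnn _
  have hsum : ∀ (s : Finset (Fin k)) (g : Fin k → (Fin k → ℤ)),
      N (∑ i ∈ s, g i) ≤ ∑ i ∈ s, N (g i) := by
    intro s g
    induction s using Finset.induction_on with
    | empty => simp [h0]
    | insert x s hx ih =>
      rw [Finset.sum_insert hx, Finset.sum_insert hx]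
      exact (hadd _ _).trans (by linarith)
  have hbd : ∀ (b : Fin k → ℤ) (B : ℝ), (∀ i, |(b i : ℝ)| ≤ B) → N b ≤ C * B := by
    intro b B hB
    have e : b = ∑ i, b i • (Pi.single i 1 : Fin k → ℤ) := by
      ext j
      simp [Finset.sum_apply, Pi.single_apply]
    calc N b = N (∑ i, b i • (Pi.single i 1 : Fin k → ℤ)) := by rw [← e]
      _ ≤ ∑ i, N (b i • (Pi.single i 1 : Fin k → ℤ)) := hsum _ _
      _ ≤ ∑ i, N (Pi.single i 1) * B := by
          apply Finset.sum_le_sum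
          intro i _
          calc N (b i • (Pi.single i 1 : Fin k → ℤ)) ≤ |(b i : ℝ)| * N (Pi.single i 1) := hz _ _
            _ ≤ B * N (Pi.single i 1) := mul_le_mul_of_nonneg_right (hB i) (hnn _)
            _ = _ := mul_comm _ _
      _ = C * B := by rw [hC, Finset.sum_mul]
  -- choice of m
  obtain ⟨m0, hm0⟩ := exists_nat_ge (2 * C / c)
  set m : ℕ := max 4 m0 with hm
  have hm4 : 4 ≤ m := le_max_left _ _
  have hmc : 2 * C ≤ c * m := by
    have h1 : (m0 : ℝ) ≤ m := by exact_mod_cast le_max_right 4 m0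
    have h2 : 2 * C / c ≤ m := hm0.trans h1
    rw [div_le_iff₀ hc] at h2
    linarith
  have hmpos : (0 : ℝ) < m := by
    have : 0 < m := by omega
    exact_mod_cast this
  have hmk : (0 : ℝ) < (m : ℝ) ^ k := pow_pos hmpos k
  refine ⟨c / (2 * (m : ℝ) ^ k), by positivity, ?_⟩
  intro a i
  by_cases hai : a i = 0
  · rw [hai]; simpa using hnn a
  -- the maximal coordinate
  have : Nonempty (Fin k) := ⟨i⟩
  obtain ⟨i0, hi0⟩ := Finite.exists_max (fun i => (a i).natAbs)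
  set l : ℕ := (a i0).natAbs with hl
  have hl1 : 1 ≤ l := by
    have := hi0 i
    omega
  set L : ℕ := 2 ^ Nat.clog 2 l with hLdef
  have hlL : l ≤ L := Nat.le_pow_clog (by norm_num) l
  have hL2 : L < 2 * l := by
    rcases Nat.eq_or_lt_of_le hl1 with h | h
    · rw [hLdef, ← h]; simp
    · have h3 : 2 ^ (Nat.clog 2 l).pred < l := Nat.pow_pred_clog_lt_self (by norm_num) h
      have h4 : 0 < Nat.clog 2 l := Nat.clog_pos (by norm_num) h
      have h5 : L = 2 * 2 ^ (Nat.clog 2 l).pred := by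
        rw [hLdef, ← pow_succ', Nat.pred_eq_sub_one, Nat.sub_add_cancel h4]
      omega
  have hLpos : 0 < L := by omega
  obtain ⟨t, b, ht0, htm, hb⟩ := lattice_dirichlet a m L (by omega) hLpos
  have hb0 : b ≠ 0 := by
    intro h
    have h1 := hb i0
    rw [h] at h1
    simp only [Pi.zero_apply, mul_zero, sub_zero] at h1
    rw [abs_mul, Int.abs_eq_natAbs (a i0), ← hl, abs_of_nonneg (by positivity)] at h1
    have h5 : m * (t * l) < L := by exact_mod_cast h1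
    have h6 : 4 * (1 * l) ≤ m * (t * l) :=
      Nat.mul_le_mul hm4 (Nat.mul_le_mul_right l ht0)
    omega
  have hcb := hcN b hb0
  have hN1 : N (L • b) = L * N b := by
    have := hpow (Nat.clog 2 l) b
    rw [hLdef]
    push_cast
    exact this
  have hN2 : N (t • a) ≤ t * N a := hns t a
  have hN3 : N (L • b - t • a) ≤ C * ((L : ℝ) / m) := by
    apply hbd
    intro j
    have h1 := hb j
    have h3 : (m : ℝ) * |(t : ℝ) * (a j : ℝ) - (L : ℝ) * (b j : ℝ)| < L := by exact_mod_cast h1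
    rw [le_div_iff₀ hmpos]
    have e : (((L • b - t • a) j : ℤ) : ℝ) = -((t : ℝ) * (a j : ℝ) - (L : ℝ) * (b j : ℝ)) := by
      simp [nsmul_eq_mul]
    rw [e, abs_neg, mul_comm]
    exact h3.le
  have hN4 : N (L • b) ≤ N (t • a) + N (L • b - t • a) := by
    have := hadd (t • a) (L • b - t • a)
    rwa [add_sub_cancel] at this
  have hCL : C * ((L : ℝ) / m) ≤ c / 2 * L := by
    have hLnn : (0 : ℝ) ≤ L := by positivity
    rw [mul_div_assoc', div_le_iff₀ hmpos]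
    nlinarith
  have htN : (t : ℝ) * N a ≤ (m : ℝ) ^ k * N a := by
    apply mul_le_mul_of_nonneg_right _ (hnn a)
    exact_mod_cast htm
  have hfin : c / 2 * (L : ℝ) ≤ (m : ℝ) ^ k * N a := by
    have h7 : c * (L : ℝ) ≤ L * N b := by
      rw [mul_comm]
      exact mul_le_mul_of_nonneg_left hcb (by positivity)
    linarith
  have hai' : |(a i : ℝ)| ≤ (L : ℝ) := by
    have h8 : (a i).natAbs ≤ L := (hi0 i).trans hlL
    have h9 : |(a i : ℝ)| = ((a i).natAbs : ℝ) := by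
      rw [Nat.cast_natAbs, Int.cast_abs]
    rw [h9]
    exact_mod_cast h8
  calc c / (2 * (m : ℝ) ^ k) * |(a i : ℝ)| ≤ c / (2 * (m : ℝ) ^ k) * (L : ℝ) :=
        mul_le_mul_of_nonneg_left hai' (by positivity)
    _ = (c / 2 * (L : ℝ)) / (m : ℝ) ^ k := by field_simp
    _ ≤ N a := by
        rw [div_le_iff₀ hmk, mul_comm (N a)]
        exact hfin

end Pda3a14
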