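import Pool.Agent.Lib.Pda3a14.SCat
import Pool.Agent.Lib.Pda3a14.SLat
import Pool.Agent.Lib.Pda3a14.SAb
import Pool.Agent.Lib.Pda3a14.Ball
import Pool.Agent.Lib.Pda3a14.RDefs

/-!
# Finitely generated abelian subgroups of CAT(0) groups are undistorted
-/

namespace Pda3a14

open Filter Topology

section nu

variable {G : Type*} [Group G] {X : Type} [MetricSpace X] [MulAction G X]

/-- The normalised displacement of `2 ^ j`-th powers. -/
noncomputable def pj (x0 : X) (g : G) (j : ℕ) : ℝ := dist x0 (g ^ 2 ^ j • x0) / 2 ^ j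

/-- The stable translation length. -/
noncomputable def nu (x0 : X) (g : G) : ℝ := ⨅ j, pj x0 g j

variable (hiso : ∀ (g : G) (x y : X), dist (g • x) (g • y) = dist x y) (x0 : X)

include hiso

theorem dist_mul_le (g h : G) : dist x0 ((g * h) • x0) ≤ dist x0 (g • x0) + dist x0 (h • x0) := by
  have h1 := dist_triangle x0 (g • x0) ((g * h) • x0)
  rw [mul_smul, hiso] at h1
  rw [mul_smul]
  exact h1

theorem dist_inv_eq (g : G) : dist x0 (g⁻¹ • x0) = dist x0 (g • x0) := by
  have h1 := hiso g x0 (g⁻¹ • x0)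
  rw [smul_inv_smul, dist_comm] at h1
  exact h1.symm

omit hiso in
theorem pj_nonneg (g : G) (j : ℕ) : 0 ≤ pj x0 g j := by unfold pj; positivity

omit hiso in
theorem pj_bdd (g : G) : BddBelow (Set.range (pj x0 g)) :=
  ⟨0, by rintro _ ⟨j, rfl⟩; exact pj_nonneg x0 g j⟩

theorem pj_anti (g : G) : Antitone (pj x0 g) := by
  apply antitone_nat_of_succ_le
  intro j
  unfold pj
  have h1 := dist_mul_le hiso x0 (g ^ 2 ^ j) (g ^ 2 ^ j)
  have e : g ^ 2 ^ (j + 1) = g ^ 2 ^ j * g ^ 2 ^ j := by rw [← pow_add]; congr 1; ring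
  rw [e, pow_succ (2 : ℝ) j]
  rw [div_le_div_iff₀ (by positivity) (by positivity)]
  have : (0 : ℝ) < 2 ^ j := by positivity
  nlinarith

theorem pj_tendsto (g : G) : Tendsto (pj x0 g) atTop (𝓝 (nu x0 g)) :=
  tendsto_atTop_ciInf (pj_anti hiso x0 g) (pj_bdd x0 g)

theorem nu_mul {g h : G} (hgh : Commute g h) : nu x0 (g * h) ≤ nu x0 g + nu x0 h := by
  apply le_of_tendsto_of_tendsto' (pj_tendsto hiso x0 (g * h))
    ((pj_tendsto hiso x0 g).add (pj_tendsto hiso x0 h))
  intro j
  unfold pj
  rw [hgh.mul_pow, ← add_div]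
  exact div_le_div_of_nonneg_right (dist_mul_le hiso x0 _ _) (by positivity)

theorem nu_inv (g : G) : nu x0 g⁻¹ = nu x0 g := by
  unfold nu
  congr 1
  ext j
  unfold pj
  rw [inv_pow, dist_inv_eq hiso]

theorem nu_sq (g : G) : nu x0 (g ^ 2) = 2 * nu x0 g := by
  have h1 := pj_tendsto hiso x0 (g ^ 2)
  have h2 : Tendsto (fun j => 2 * pj x0 g (j + 1)) atTop (𝓝 (2 * nu x0 g)) :=
    ((tendsto_add_atTop_iff_nat 1).2 (pj_tendsto hiso x0 g)).const_mul 2
  have e : pj x0 (g ^ 2) = fun j => 2 * pj x0 g (j + 1) := by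
    ext j
    unfold pj
    have e : (g ^ 2) ^ 2 ^ j = g ^ 2 ^ (j + 1) := by rw [← pow_mul]; congr 1; ring
    rw [e, pow_succ (2 : ℝ) j]
    field_simp
  rw [e] at h1
  exact tendsto_nhds_unique h1 h2

omit hiso in
theorem nu_le (g : G) : nu x0 g ≤ dist x0 (g • x0) := by
  have := ciInf_le (pj_bdd x0 g) 0
  unfold nu
  refine this.trans ?_
  unfold pj
  simp

omit hiso in
theorem le_nu {c : ℝ} {g : G} (h : ∀ k : ℕ, c * 2 ^ k ≤ dist x0 (g ^ 2 ^ k • x0)) :
    c ≤ nu x0 g := by
  apply le_ciInf
  intro k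
  unfold pj
  rw [le_div_iff₀ (by positivity)]
  exact h k

theorem dist_inBall {S : Finset G} {C : ℝ} (hC0 : 0 ≤ C) (hC : ∀ s ∈ S, dist x0 (s • x0) ≤ C)
    {n : ℕ} {g : G} (hg : InBall S n g) : dist x0 (g • x0) ≤ C * n := by
  obtain ⟨l, h1, h2, h3⟩ := hg
  subst h3
  have key : ∀ l : List G, (∀ s ∈ l, s ∈ S ∨ s⁻¹ ∈ S) →
      dist x0 (l.prod • x0) ≤ C * l.length := by
    intro l
    induction l with
    | nil => intro _; simp
    | cons a l ih =>
      intro hl
      have h4 := ih (fun s hs => hl s (by simp [hs]))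
      have h5 : dist x0 (a • x0) ≤ C := by
        rcases hl a (by simp) with h | h
        · exact hC a h
        · rw [← dist_inv_eq hiso]; exact hC _ h
      have h6 := dist_mul_le hiso x0 a l.prod
      rw [List.prod_cons, List.length_cons]
      push_cast
      linarith
  refine (key l h2).trans ?_
  have : (l.length : ℝ) ≤ n := by exact_mod_cast h1
  exact mul_le_mul_of_nonneg_left this hC0

end nu

theorem inBall_zpow {G : Type*} [Group G] {T : Finset G} {g : G} (hg : g ∈ T) (n : ℤ) :
    InBall T n.natAbs (g ^ n) := by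
  have hn : ∀ m : ℕ, InBall T m (g ^ m) := by
    intro m
    induction m with
    | zero => simpa using (InBall.one (S := T))
    | succ m ih =>
      rw [pow_succ]
      exact ih.mul (InBall.of_mem hg)
  rcases Int.natAbs_eq n with h | h
  · conv_rhs => rw [h]
    rw [zpow_natCast]
    exact hn _
  · conv_rhs => rw [h]
    rw [zpow_neg, zpow_natCast]
    exact (hn _).inv

theorem undistorted_of_comm {G : Type*} [Group G] (h : CATZeroGroup G) (K : Subgroup G)
    (hfg : K.FG) (hc : ∀ a ∈ K, ∀ b ∈ K, a * b = b * a) : Undistorted K := by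
  classical
  obtain ⟨X, _, _, x0, c, hc0, hiso, htr⟩ := cat_translation h
  obtain ⟨S, hS⟩ := (cat_fg h).out
  letI : CommGroup K := { (inferInstance : Group K) with
    mul_comm := fun a b => Subtype.ext (hc a a.2 b b.2) }
  have hKfg : Group.FG K := (Group.fg_iff_subgroup_fg K).2 hfg
  obtain ⟨k, e, F, hF, hind, hdec⟩ := exists_lattice hKfg
  let E : (Fin k → ℤ) → K := fun a => ∏ i, e i ^ a i
  have hEadd : ∀ a b, E (a + b) = E a * E b := by
    intro a b
    simp only [E, Pi.add_apply, zpow_add, Finset.prod_mul_distrib]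
  have hEneg : ∀ a, E (-a) = (E a)⁻¹ := by
    intro a
    simp only [E, Pi.neg_apply, zpow_neg, Finset.prod_inv_distrib]
  have hE2 : ∀ a, E (2 • a) = E a ^ 2 := by
    intro a
    rw [two_nsmul, hEadd, pow_two]
  obtain ⟨c', hc', hb⟩ := lattice_bound (fun a => nu x0 ((E a : K) : G))
    (by
      intro a b
      rw [hEadd, Subgroup.coe_mul]
      exact nu_mul hiso x0 (hc _ (E a).2 _ (E b).2))
    (by
      intro a
      rw [hEneg, Subgroup.coe_inv]
      exact nu_inv hiso x0 _)
    (by
      intro a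
      rw [hE2, Subgroup.coe_pow]
      exact nu_sq hiso x0 _) hc0
    (by
      intro a ha
      apply le_nu
      apply htr
      intro n hn h1
      apply hind a ha n hn
      exact Subtype.ext h1)
  let T : Finset G := (Finset.univ.image fun i => ((e i : K) : G)) ∪
    (F.image fun t : K => (t : G))
  have heT : ∀ i, ((e i : K) : G) ∈ T := by
    intro i
    apply Finset.mem_union_left
    exact Finset.mem_image_of_mem _ (Finset.mem_univ i)
  have hFT : ∀ t ∈ F, ((t : K) : G) ∈ T := by
    intro t ht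
    apply Finset.mem_union_right
    exact Finset.mem_image_of_mem _ ht
  have hTK : ∀ t ∈ T, t ∈ K := by
    intro t ht
    rcases Finset.mem_union.1 ht with h | h
    · obtain ⟨i, _, rfl⟩ := Finset.mem_image.1 h
      exact (e i).2
    · obtain ⟨t', _, rfl⟩ := Finset.mem_image.1 h
      exact t'.2
  have hEball : ∀ a, InBall T (∑ i, (a i).natAbs) ((E a : K) : G) := by
    intro a
    have key : ∀ s : Finset (Fin k), InBall T (∑ i ∈ s, (a i).natAbs)
        ((∏ i ∈ s, e i ^ a i : K) : G) := by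
      intro s
      induction s using Finset.induction_on with
      | empty => simpa using (InBall.one (S := T))
      | insert i s his ih =>
        rw [Finset.sum_insert his, Finset.prod_insert his, Subgroup.coe_mul]
        refine InBall.mul ?_ ih
        rw [Subgroup.coe_zpow]
        exact inBall_zpow (heT i) _
    exact key Finset.univ
  obtain ⟨CS, hCS0, hCS⟩ : ∃ C : ℝ, 0 ≤ C ∧ ∀ s ∈ S, dist x0 (s • x0) ≤ C :=
    ⟨∑ s ∈ S, dist x0 (s • x0), Finset.sum_nonneg fun _ _ => dist_nonneg, fun s hs =>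
      Finset.single_le_sum (f := fun s => dist x0 (s • x0)) (fun _ _ => dist_nonneg) hs⟩
  obtain ⟨CF, hCF0, hCF⟩ : ∃ C : ℝ, 0 ≤ C ∧ ∀ t ∈ F, dist x0 (((t : K) : G) • x0) ≤ C :=
    ⟨∑ t ∈ F, dist x0 (((t : K) : G) • x0), Finset.sum_nonneg fun _ _ => dist_nonneg,
      fun s hs => Finset.single_le_sum (f := fun t : K => dist x0 ((t : G) • x0))
        (fun _ _ => dist_nonneg) hs⟩
  obtain ⟨M, hM⟩ := exists_nat_ge ((CS + CF) / c')
  refine ⟨T, S, k * M + 1, ?_, hS, ?_⟩
  · apply le_antisymm
    · rw [Subgroup.closure_le]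
      exact hTK
    · intro x hx
      obtain ⟨a, t, ht, hxa⟩ := hdec ⟨x, hx⟩
      have hx2 : x = ((E a : K) : G) * ((t : K) : G) := congrArg (fun y : K => (y : G)) hxa
      rw [hx2]
      apply Subgroup.mul_mem
      · obtain ⟨l, _, h2, h3⟩ := hEball a
        rw [← h3]
        apply Subgroup.list_prod_mem
        intro y hy
        rcases h2 y hy with h | h
        · exact Subgroup.subset_closure h
        · have := Subgroup.inv_mem _ (Subgroup.subset_closure (k := (T : Set G)) h)
          rwa [inv_inv] at this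
      · exact Subgroup.subset_closure (hFT t ht)
  · intro n x hx hxn
    rcases Nat.eq_zero_or_pos n with hn | hn
    · subst hn
      obtain ⟨l, h1, h2, h3⟩ := hxn
      have : l = [] := List.eq_nil_of_length_eq_zero (by omega)
      subst this
      exact ⟨[], by simp, by simp, h3⟩
    obtain ⟨a, t, ht, hxa⟩ := hdec ⟨x, hx⟩
    have hx2 : x = ((E a : K) : G) * ((t : K) : G) := congrArg (fun y : K => (y : G)) hxa
    have hEx : ((E a : K) : G) = x * ((t : K) : G)⁻¹ := by rw [hx2]; group
    have hn1 : (1 : ℝ) ≤ n := by exact_mod_cast hn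
    have hnu : nu x0 ((E a : K) : G) ≤ (CS + CF) * n := by
      rw [hEx]
      have h1 := nu_mul hiso x0 (g := x) (h := ((t : K) : G)⁻¹)
        (hc _ hx _ (K.inv_mem t.2))
      have h2 := nu_inv hiso x0 ((t : K) : G)
      have h3 := nu_le x0 x
      have h4 := nu_le x0 ((t : K) : G)
      have h5 := dist_inBall hiso x0 hCS0 hCS hxn
      have h6 := hCF t ht
      have h7 : CF ≤ CF * n := by nlinarith
      nlinarith
    have hai : ∀ i, (a i).natAbs ≤ M * n := by
      intro i
      have h1 := hb a i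
      have h2 : |(a i : ℝ)| ≤ M * n := by
        have h3 : c' * |(a i : ℝ)| ≤ (CS + CF) * n := h1.trans hnu
        have h4 : (CS + CF) ≤ M * c' := by rwa [div_le_iff₀ hc'] at hM
        have h5 : (CS + CF) * n ≤ M * c' * n := mul_le_mul_of_nonneg_right h4 (by positivity)
        have h6 : c' * |(a i : ℝ)| ≤ c' * (M * n) := by linarith
        exact le_of_mul_le_mul_left h6 hc'
      have h3 : (((a i).natAbs : ℕ) : ℝ) = |(a i : ℝ)| := by
        rw [← Int.cast_abs, Int.abs_eq_natAbs]; simp
      rw [← h3] at h2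
      exact_mod_cast h2
    have h1 := (hEball a).mul (InBall.of_mem (hFT t ht))
    rw [← hx2] at h1
    apply h1.mono
    have h2 : (∑ i, (a i).natAbs) ≤ k * (M * n) := by
      have := Finset.sum_le_card_nsmul Finset.univ (fun i => (a i).natAbs) (M * n)
        (fun i _ => hai i)
      simpa using this
    have h3 : (k * M + 1) * n = k * (M * n) + n := by ring
    omega

end Pda3a14
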