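import Pool.Agent.Lib.Pda3a14.SDefs

/-!
# The unfolding argument (module SFpB)

`H` is generated by the letters `s i` (closed under inverses), with relators `R`; `K = H ⊓ Stab x`.
Letter `i` is of type A if `s i • x = x` and of type B otherwise; for type B let `d_i = d (s i • x)`
and `K_i = K ⊓ Stab d_i`. `A` is a finitely generated group with `p : A → G` of range `K` and
subgroups `E i` mapped isomorphically onto `K_i`.

## Paper proof of `ker_fn_of_states`

Note `d (k • s i • x) = k • d_i` for `k ∈ K`. Choose representatives `r : B → B` of the `K`-orbits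
of the `d_i` (`r i = r j` if `d_i`, `d_j` are in the same `K`-orbit) and `γ_i ∈ A` with
`d_i = p(γ_i) • d_{r i}`. States: `Ω` = all triples `(g, C, o)` in `G × Set A × Option (Fin m)` with
`g ∈ H` and
* `g x = x`, `C = {α}`, `p α = g`, `o = none`, or
* `g x ≠ x`, `C = α E_j` (a left coset), `o = some j`, `j` a representative, `d (g x) = p(α) d_j`.
`A` acts on the left: `α (g, C, o) = (p(α) g, α C, o)`. Facts: (1) over a fixed `g` any two
states differ by an element of `ker p` (if `d(g x) = p α d_j = p α' d_j'` then `j = j'`, and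
`p(α⁻¹ α') ∈ K_j = p(E_j)`). (2) Every `g ∈ H` carries a state: it suffices that `d (g x)` is in
the `K`-orbit of some `d_i` (last exit from `K` of a path in the letters from `1` to `g`; or use
(3): the states over `1` exist and letters move states).
(3) Every letter `i` acts on the right over `g ↦ g s_i`, commuting with the action of `A`:
* `g x = x`, `s_i x = x`: `{α} ↦ {α σ_i}` with a fixed `σ_i ∈ A`, `p σ_i = s_i`;
* `g x = x`, `s_i x ≠ x`: `{α} ↦ α γ_i E_{r i}`;
* `g x ≠ x`, `g s_i x ≠ x`: `C` unchanged (`hs`);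
* `g x ≠ x`, `g s_i x = x`: let `s_j = s_i⁻¹`; the unique `{α}` with `p α = g s_i` and
  `α γ_j E_{r j} = C` (exists since `d (g x) = g s_i d_j`; unique since `p` is injective on
  `E_{r j}`).
These are permutations of `Ω` (inverse: if `s_j = s_i⁻¹` the letter `j` is the inverse of the
letter `i` except possibly in the first case, which is a bijection anyway), so `FreeGroup (Fin m)`
acts on `Ω` on the right, over right multiplication of `H`, commuting with `A`.

A relator `ρ ∈ R` maps every state to a state over the same `g`. If no prefix `ρ'` of `ρ` has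
`g ρ' x = x` then it fixes the state. Otherwise `g = k ρ'⁻¹` with `k ∈ K`; choose one state
`ω_{ρ'}` over `ρ'⁻¹` for every prefix; every state over `g` is `α ω_{ρ'}` with `p α = k`; and
`ω_{ρ'} ρ = κ_{ρ'} ω_{ρ'}` with `κ_{ρ'} ∈ ker p`. Let `M` be the normal closure in `A` of these
finitely many `κ_{ρ'}` and, for `a` in a finite generating set of `A`, of elements `κ_a ∈ ker p`
with `ω₀ φ(a) = κ_a a ω₀`, where `ω₀ = (1, {1}, none)` and `φ(a)` is a word in the letters for
`p a` (also for inverses of generators, or use the list induction on `α = a_1^± ... a_k^±`).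
The words `f` with `∀ ω, ∃ μ ∈ M, ω f = μ ω` form a normal subgroup of the free group which
contains `R`, hence the kernel `(FreeGroup.lift s).ker`. Let `p α = 1` and write `α` as a product
of generators `a_1 ... a_k`; then `f = φ(a_1) ... φ(a_k)` is in the kernel and
`ω₀ f ∈ M α ω₀`, so `μ ω₀ = μ' α ω₀` and `α ∈ M`. Hence `ker p = M`.
-/

namespace Pda3a14

open MulAction

namespace SFpBAux

open scoped Pointwise

/-- All the data. -/
structure Dat (G : Type*) [Group G] (V : Type*) [MulAction G V] (A : Type*) [Group A] where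
  H : Subgroup G
  x : V
  d : V → V
  hd1 : ∀ k ∈ H, k • x = x → ∀ q, q ≠ x → d (k • q) = k • d q
  m : ℕ
  s : Fin m → G
  hgen : Subgroup.closure (Set.range s) = H
  hinv : ∀ i, ∃ j, s j = (s i)⁻¹
  hs : ∀ i, ∀ g ∈ H, g • x ≠ x → (g * s i) • x ≠ x → d (g • x) = d ((g * s i) • x)
  p : A →* G
  hp : p.range = H ⊓ stabilizer G x
  E : Fin m → Subgroup A
  hE : ∀ i, s i • x ≠ x → (E i).map p = H ⊓ stabilizer G x ⊓ stabilizer G (d (s i • x))
  hEinj : ∀ i, s i • x ≠ x → ∀ a ∈ E i, p a = 1 → a = 1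

variable {G : Type*} [Group G] {V : Type*} [MulAction G V] {A : Type*} [Group A]
variable (D : Dat G V A)

theorem p_mem (a : A) : D.p a ∈ D.H ∧ D.p a • D.x = D.x := by
  have h : D.p a ∈ D.p.range := ⟨a, rfl⟩
  rw [D.hp] at h
  exact ⟨h.1, h.2⟩

theorem exists_p {g : G} (hg : g ∈ D.H) (hx : g • D.x = D.x) : ∃ a, D.p a = g := by
  have h : g ∈ D.p.range := by
    rw [D.hp]
    exact ⟨hg, hx⟩
  exact h

theorem s_mem (i : Fin D.m) : D.s i ∈ D.H := by
  rw [← D.hgen]
  exact Subgroup.subset_closure ⟨i, rfl⟩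

/-- `j` is the representative for the direction `v`. -/
def IsRep (v : V) (j : Fin D.m) : Prop :=
  IsLeast {i | D.s i • D.x ≠ D.x ∧ ∃ a : A, v = D.p a • D.d (D.s i • D.x)} j

theorem isRep_smul {v : V} {j : Fin D.m} (h : IsRep D v j) (b : A) :
    IsRep D (D.p b • v) j := by
  have hset : {i | D.s i • D.x ≠ D.x ∧ ∃ a : A, D.p b • v = D.p a • D.d (D.s i • D.x)} =
      {i | D.s i • D.x ≠ D.x ∧ ∃ a : A, v = D.p a • D.d (D.s i • D.x)} := by
    ext i
    constructor
    · rintro ⟨h1, a, ha⟩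
      refine ⟨h1, b⁻¹ * a, ?_⟩
      rw [map_mul, mul_smul, ← ha, map_inv, inv_smul_smul]
    · rintro ⟨h1, a, ha⟩
      refine ⟨h1, b * a, ?_⟩
      rw [map_mul, mul_smul, ← ha]
  unfold IsRep
  rw [hset]
  exact h

/-- The states. -/
def Valid (g : G) (C : Set A) : Prop :=
  g ∈ D.H ∧ ((g • D.x = D.x ∧ ∃ a, D.p a = g ∧ C = {a}) ∨
    (g • D.x ≠ D.x ∧ ∃ j, IsRep D (D.d (g • D.x)) j ∧
      ∃ a, D.d (g • D.x) = D.p a • D.d (D.s j • D.x) ∧ C = a • (D.E j : Set A)))

theorem valid_smul {g : G} {C : Set A} (h : Valid D g C) (b : A) :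
    Valid D (D.p b * g) (b • C) := by
  obtain ⟨hg, h⟩ := h
  obtain ⟨hb, hbx⟩ := p_mem D b
  refine ⟨D.H.mul_mem hb hg, ?_⟩
  rcases h with ⟨hx, a, ha, hC⟩ | ⟨hx, j, hj, a, ha, hC⟩
  · left
    refine ⟨by rw [mul_smul, hx, hbx], b * a, by rw [map_mul, ha], ?_⟩
    rw [hC, Set.smul_set_singleton, smul_eq_mul]
  · right
    have hd : D.d ((D.p b * g) • D.x) = D.p b • D.d (g • D.x) := by
      rw [mul_smul]
      exact D.hd1 _ hb hbx _ hx
    refine ⟨?_, j, ?_, b * a, ?_, ?_⟩
    · intro h1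
      apply hx
      rw [mul_smul] at h1
      have h2 : D.p b • (g • D.x) = D.p b • D.x := by rw [h1, hbx]
      exact (smul_left_cancel_iff _).1 h2
    · rw [hd]
      exact isRep_smul D hj b
    · rw [hd, ha, map_mul, mul_smul]
    · rw [hC, mul_smul]

/-- The set of states. -/
def Om : Type _ := {q : G × Set A // Valid D q.1 q.2}

namespace Om

variable {D}

/-- The element under a state. -/
def pr (w : Om D) : G := w.1.1

/-- The coset of a state. -/
def co (w : Om D) : Set A := w.1.2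

theorem valid (w : Om D) : Valid D w.pr w.co := w.2

theorem ext' {w v : Om D} (h1 : w.pr = v.pr) (h2 : w.co = v.co) : w = v :=
  Subtype.ext (Prod.ext h1 h2)

instance : MulAction A (Om D) where
  smul b w := ⟨(D.p b * w.pr, b • w.co), valid_smul D w.valid b⟩
  one_smul w := ext' (by
    change D.p 1 * w.pr = w.pr
    rw [map_one, one_mul]) (one_smul A w.co)
  mul_smul a b w := ext' (by
    change D.p (a * b) * w.pr = D.p a * (D.p b * w.pr)
    rw [map_mul, mul_assoc]) (mul_smul a b w.co)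

theorem pr_smul (b : A) (w : Om D) : (b • w).pr = D.p b * w.pr := rfl

theorem co_smul (b : A) (w : Om D) : (b • w).co = b • w.co := rfl

theorem pr_mem (w : Om D) : w.pr ∈ D.H := w.valid.1

end Om

open Om

variable {D}

/-- The kernel of `p` is transitive on the fibres. -/
theorem fib {w v : Om D} (h : w.pr = v.pr) : ∃ k, D.p k = 1 ∧ v = k • w := by
  obtain ⟨-, hw⟩ := w.valid
  obtain ⟨-, hv⟩ := v.valid
  rw [← h] at hv
  rcases hw with ⟨hx, a, ha, hC⟩ | ⟨hx, j, hj, a, ha, hC⟩
  · rcases hv with ⟨-, b, hb, hC'⟩ | ⟨hx', -⟩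
    · refine ⟨b * a⁻¹, by rw [map_mul, map_inv, ha, hb, mul_inv_cancel], ?_⟩
      apply ext'
      · rw [pr_smul, map_mul, map_inv, ha, hb, mul_inv_cancel, one_mul, h]
      · rw [co_smul, hC, hC', Set.smul_set_singleton, smul_eq_mul, inv_mul_cancel_right]
    · exact absurd hx hx'
  · rcases hv with ⟨hx', -⟩ | ⟨-, j', hj', b, hb, hC'⟩
    · exact absurd hx' hx
    · have hjj : j' = j := IsLeast.unique hj' hj
      subst hjj
      have hjx := hj.1.1
      have hmem : D.p (a⁻¹ * b) ∈ (D.E j').map D.p := by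
        rw [D.hE j' hjx]
        refine ⟨⟨(p_mem D _).1, (p_mem D _).2⟩, ?_⟩
        change D.p (a⁻¹ * b) • D.d (D.s j' • D.x) = D.d (D.s j' • D.x)
        rw [map_mul, mul_smul, ← hb, ha, map_inv, inv_smul_smul]
      obtain ⟨e, he, hpe⟩ := hmem
      have hk : D.p (b * e⁻¹ * a⁻¹) = 1 := by
        have hpe' : D.p e = (D.p a)⁻¹ * D.p b := by
          rw [hpe, map_mul, map_inv]
        rw [map_mul, map_mul, map_inv, map_inv, hpe']
        group
      refine ⟨b * e⁻¹ * a⁻¹, hk, ?_⟩
      apply ext'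
      · rw [pr_smul, hk, one_mul, h]
      · rw [co_smul, hC, hC', smul_smul, inv_mul_cancel_right, mul_smul]
        congr 1
        have := (D.E j').inv_mem he
        exact (smul_coe_set this).symm

/-- The kernel of `p` is free on the states. -/
theorem free {k : A} {w : Om D} (hk : D.p k = 1) (h : k • w = w) : k = 1 := by
  have hco : k • w.co = w.co := by
    rw [← co_smul, h]
  obtain ⟨-, hw⟩ := w.valid
  rcases hw with ⟨hx, a, ha, hC⟩ | ⟨hx, j, hj, a, ha, hC⟩
  · rw [hC, Set.smul_set_singleton, Set.singleton_eq_singleton_iff, smul_eq_mul] at hco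
    exact mul_eq_right.1 hco
  · rw [hC, smul_smul] at hco
    have h1 : k * a ∈ a • (D.E j : Set A) := by
      rw [← hco]
      exact ⟨1, (D.E j).one_mem, by simp⟩
    obtain ⟨e, he, hea⟩ := h1
    have he' : e = a⁻¹ * k * a := by
      simp only [smul_eq_mul] at hea
      rw [mul_assoc, ← hea, inv_mul_cancel_left]
    have h2 : D.p e = 1 := by
      rw [he', map_mul, map_mul, hk, map_inv, mul_one, inv_mul_cancel]
    have h3 := D.hEinj j hj.1.1 e he h2
    rw [he'] at h3
    have h4 : k = a * (a⁻¹ * k * a) * a⁻¹ := by group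
    rw [h4, h3]
    group

/-- The base state. -/
def w0 (D : Dat G V A) : Om D :=
  ⟨(1, {1}), D.H.one_mem, Or.inl ⟨one_smul _ _, 1, map_one _, rfl⟩⟩

theorem pr_w0 : (w0 D).pr = 1 := rfl

theorem co_w0 : (w0 D).co = {1} := rfl

theorem smul_w0_inj {a b : A} (h : a • w0 D = b • w0 D) : a = b := by
  have h1 : (a • w0 D).co = (b • w0 D).co := by rw [h]
  rw [co_smul, co_smul, co_w0, Set.smul_set_singleton, Set.smul_set_singleton,
    Set.singleton_eq_singleton_iff] at h1
  simpa using h1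

theorem eq_smul_w0 {w : Om D} (h : w.pr • D.x = D.x) : ∃ a : A, w = a • w0 D := by
  obtain ⟨-, hw⟩ := w.valid
  rcases hw with ⟨hx, a, ha, hC⟩ | ⟨hx, -⟩
  · refine ⟨a, ext' ?_ ?_⟩
    · rw [pr_smul, pr_w0, mul_one, ha]
    · rw [co_smul, co_w0, hC, Set.smul_set_singleton, smul_eq_mul, mul_one]
  · exact absurd h hx

theorem exists_letter (i : Fin D.m) : ∃ w : Om D, w.pr = D.s i := by
  by_cases hx : D.s i • D.x = D.x
  · obtain ⟨a, ha⟩ := exists_p D (s_mem D i) hx
    exact ⟨⟨(D.s i, {a}), s_mem D i, Or.inl ⟨hx, a, ha, rfl⟩⟩, rfl⟩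
  · have hne : ∃ j, j ∈ {j | D.s j • D.x ≠ D.x ∧
        ∃ a : A, D.d (D.s i • D.x) = D.p a • D.d (D.s j • D.x)} :=
      ⟨i, hx, 1, by rw [map_one, one_smul]⟩
    obtain ⟨j, hj⟩ : ∃ j, IsRep D (D.d (D.s i • D.x)) j := by
      classical
      obtain ⟨j, hj1, hj2⟩ := WellFounded.has_min (wellFounded_lt (α := Fin D.m)) _ hne
      exact ⟨j, hj1, fun b hb => not_lt.1 (hj2 b hb)⟩
    obtain ⟨-, a, ha⟩ := hj.1
    exact ⟨⟨(D.s i, a • (D.E j : Set A)), s_mem D i, Or.inr ⟨hx, j, hj, a, ha, rfl⟩⟩, rfl⟩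

theorem exists_letter_inv (i : Fin D.m) : ∃ w : Om D, w.pr = (D.s i)⁻¹ := by
  obtain ⟨j, hj⟩ := D.hinv i
  rw [← hj]
  exact exists_letter j

/-- A state over the letter `i`. -/
noncomputable def st (D : Dat G V A) (i : Fin D.m) : Om D := (exists_letter i).choose

theorem pr_st (i : Fin D.m) : (st D i).pr = D.s i := (exists_letter i).choose_spec

/-- A state over the inverse of the letter `i`. -/
noncomputable def st' (D : Dat G V A) (i : Fin D.m) : Om D := (exists_letter_inv i).choose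

theorem pr_st' (i : Fin D.m) : (st' D i).pr = (D.s i)⁻¹ := (exists_letter_inv i).choose_spec

/-- The action of the letter `i`, as a relation. -/
def Rel (i : Fin D.m) (w v : Om D) : Prop :=
  (w.pr • D.x = D.x ∧ ∃ a : A, w = a • w0 D ∧ v = a • st D i) ∨
  (w.pr • D.x ≠ D.x ∧ (w.pr * D.s i) • D.x = D.x ∧ ∃ a : A, v = a • w0 D ∧ w = a • st' D i) ∨
  (w.pr • D.x ≠ D.x ∧ (w.pr * D.s i) • D.x ≠ D.x ∧ v.pr = w.pr * D.s i ∧ v.co = w.co)

theorem rel_pr {i : Fin D.m} {w v : Om D} (h : Rel i w v) : v.pr = w.pr * D.s i := by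
  rcases h with ⟨-, a, hw, hv⟩ | ⟨-, -, a, hv, hw⟩ | ⟨-, -, h, -⟩
  · rw [hw, hv, pr_smul, pr_smul, pr_st, pr_w0, mul_one]
  · rw [hw, hv, pr_smul, pr_smul, pr_st', pr_w0, mul_one, inv_mul_cancel_right]
  · exact h

theorem fix_iff (a : A) (g : G) : (D.p a * g) • D.x = D.x ↔ g • D.x = D.x := by
  have h := (p_mem D a).2
  rw [mul_smul]
  constructor
  · intro h1
    have h2 : D.p a • (g • D.x) = D.p a • D.x := by rw [h1, h]
    exact (smul_left_cancel_iff _).1 h2
  · intro h1
    rw [h1, h]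

theorem rel_smul {i : Fin D.m} {w v : Om D} (h : Rel i w v) (b : A) : Rel i (b • w) (b • v) := by
  rcases h with ⟨hx, a, hw, hv⟩ | ⟨hx, hx', a, hv, hw⟩ | ⟨hx, hx', h1, h2⟩
  · left
    refine ⟨?_, b * a, ?_, ?_⟩
    · rw [pr_smul, fix_iff]
      exact hx
    · rw [mul_smul, ← hw]
    · rw [mul_smul, ← hv]
  · right; left
    refine ⟨?_, ?_, b * a, ?_, ?_⟩
    · rw [pr_smul, Ne, fix_iff]
      exact hx
    · rw [pr_smul, mul_assoc, fix_iff]
      exact hx'
    · rw [mul_smul, ← hv]
    · rw [mul_smul, ← hw]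
  · right; right
    refine ⟨?_, ?_, ?_, ?_⟩
    · rw [pr_smul, Ne, fix_iff]
      exact hx
    · rw [pr_smul, mul_assoc, Ne, fix_iff]
      exact hx'
    · rw [pr_smul, pr_smul, h1, mul_assoc]
    · rw [co_smul, co_smul, h2]

theorem rel_unique {i : Fin D.m} {w v v' : Om D} (h : Rel i w v) (h' : Rel i w v') : v = v' := by
  rcases h with ⟨hx, a, hw, hv⟩ | ⟨hx, hx', a, hv, hw⟩ | ⟨hx, hx', h1, h2⟩
  · rcases h' with ⟨-, b, hw', hv'⟩ | ⟨hy, -⟩ | ⟨hy, -⟩
    · have : a = b := smul_w0_inj (hw.symm.trans hw')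
      rw [hv, hv', this]
    · exact absurd hx hy
    · exact absurd hx hy
  · rcases h' with ⟨hy, -⟩ | ⟨-, -, b, hv', hw'⟩ | ⟨-, hy, -⟩
    · exact absurd hy hx
    · have hab : a • st' D i = b • st' D i := hw.symm.trans hw'
      have hp1 : D.p (b⁻¹ * a) = 1 := by
        have h1 : (a • st' D i).pr = (b • st' D i).pr := by rw [hab]
        rw [pr_smul, pr_smul] at h1
        rw [map_mul, map_inv, mul_right_cancel h1, inv_mul_cancel]
      have h2 : (b⁻¹ * a) • st' D i = st' D i := by
        rw [mul_smul, hab, inv_smul_smul]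
      have h3 := free hp1 h2
      have : a = b := by
        rw [inv_mul_eq_one] at h3
        exact h3.symm
      rw [hv, hv', this]
    · exact absurd hx' hy
  · rcases h' with ⟨hy, -⟩ | ⟨-, hy, -⟩ | ⟨-, -, h3, h4⟩
    · exact absurd hy hx
    · exact absurd hy hx'
    · exact ext' (h1.trans h3.symm) (h2.trans h4.symm)

theorem rel_exists (i : Fin D.m) (w : Om D) : ∃ v, Rel i w v := by
  by_cases hx : w.pr • D.x = D.x
  · obtain ⟨a, ha⟩ := eq_smul_w0 hx
    exact ⟨a • st D i, Or.inl ⟨hx, a, ha, rfl⟩⟩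
  · by_cases hx' : (w.pr * D.s i) • D.x = D.x
    · obtain ⟨a, ha⟩ := exists_p D (D.H.mul_mem w.pr_mem (s_mem D i)) hx'
      have h1 : (a • st' D i).pr = w.pr := by
        rw [pr_smul, pr_st', ha, mul_inv_cancel_right]
      obtain ⟨k, -, hk⟩ := fib h1
      refine ⟨(k * a) • w0 D, Or.inr (Or.inl ⟨hx, hx', k * a, rfl, ?_⟩)⟩
      rw [mul_smul, ← hk]
    · have hv : Valid D (w.pr * D.s i) w.co := by
        obtain ⟨hg, hw⟩ := w.valid
        refine ⟨D.H.mul_mem hg (s_mem D i), Or.inr ⟨hx', ?_⟩⟩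
        rcases hw with ⟨hy, -⟩ | ⟨-, j, hj, a, ha, hC⟩
        · exact absurd hy hx
        · rw [← D.hs i w.pr hg hx hx']
          exact ⟨j, hj, a, ha, hC⟩
      exact ⟨⟨(w.pr * D.s i, w.co), hv⟩, Or.inr (Or.inr ⟨hx, hx', rfl, rfl⟩)⟩

/-- The action of the letter `i`. -/
noncomputable def step (i : Fin D.m) (w : Om D) : Om D := (rel_exists i w).choose

theorem rel_step (i : Fin D.m) (w : Om D) : Rel i w (step i w) := (rel_exists i w).choose_spec

theorem pr_step (i : Fin D.m) (w : Om D) : (step i w).pr = w.pr * D.s i := rel_pr (rel_step i w)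

theorem step_smul (i : Fin D.m) (b : A) (w : Om D) : step i (b • w) = b • step i w :=
  rel_unique (rel_step i (b • w)) (rel_smul (rel_step i w) b)

theorem step_eq {i : Fin D.m} {w v : Om D} (hx : w.pr • D.x ≠ D.x)
    (hx' : (w.pr * D.s i) • D.x ≠ D.x) (h1 : v.pr = w.pr * D.s i) (h2 : v.co = w.co) :
    step i w = v :=
  rel_unique (rel_step i w) (Or.inr (Or.inr ⟨hx, hx', h1, h2⟩))

theorem exists_over {g : G} (hg : g ∈ D.H) : ∃ w : Om D, w.pr = g := by
  rw [← D.hgen] at hg
  induction hg using Subgroup.closure_induction_right with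
  | one => exact ⟨w0 D, rfl⟩
  | mul_right y _ z hz ih =>
    obtain ⟨w, hw⟩ := ih
    obtain ⟨i, rfl⟩ := hz
    exact ⟨step i w, by rw [pr_step, hw]⟩
  | mul_inv_cancel y _ z hz ih =>
    obtain ⟨w, hw⟩ := ih
    obtain ⟨i, rfl⟩ := hz
    obtain ⟨j, hj⟩ := D.hinv i
    exact ⟨step j w, by rw [pr_step, hw, hj]⟩

theorem step_bij (i : Fin D.m) : Function.Bijective (step i : Om D → Om D) := by
  constructor
  · intro w v h
    have h1 : w.pr = v.pr := by
      have : (step i w).pr = (step i v).pr := by rw [h]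
      rw [pr_step, pr_step] at this
      exact mul_right_cancel this
    obtain ⟨k, hk, hkv⟩ := fib h1
    have h2 : k • step i w = step i w := by
      rw [← step_smul, ← hkv, h]
    rw [hkv, free hk h2, one_smul]
  · intro v
    obtain ⟨w, hw⟩ := exists_over (D := D)
      (D.H.mul_mem v.pr_mem (D.H.inv_mem (s_mem D i)))
    have h1 : (step i w).pr = v.pr := by
      rw [pr_step, hw, inv_mul_cancel_right]
    obtain ⟨k, -, hk⟩ := fib h1
    exact ⟨k • w, by rw [step_smul, ← hk]⟩

/-- The action of the letter `i`, as a permutation. -/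
noncomputable def perm (i : Fin D.m) : Equiv.Perm (Om D) := Equiv.ofBijective _ (step_bij i)

theorem perm_apply (i : Fin D.m) (w : Om D) : perm i w = step i w := rfl

/-- The right action of the free group. -/
noncomputable def Phi (D : Dat G V A) : FreeGroup (Fin D.m) →* (Equiv.Perm (Om D))ᵐᵒᵖ :=
  FreeGroup.lift fun i => MulOpposite.op (perm i)

/-- The right action of the free group. -/
noncomputable def ac (w : Om D) (f : FreeGroup (Fin D.m)) : Om D := (Phi D f).unop w

theorem ac_one (w : Om D) : ac w 1 = w := by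
  simp [ac]

theorem ac_mul (w : Om D) (f g : FreeGroup (Fin D.m)) : ac w (f * g) = ac (ac w f) g := by
  simp [ac]

theorem ac_of (w : Om D) (i : Fin D.m) : ac w (FreeGroup.of i) = step i w := by
  simp [ac, Phi, perm_apply]

theorem ac_mul_inv (w : Om D) (f : FreeGroup (Fin D.m)) : ac (ac w f) f⁻¹ = w := by
  rw [← ac_mul, mul_inv_cancel, ac_one]

theorem ac_inv_mul (w : Om D) (f : FreeGroup (Fin D.m)) : ac (ac w f⁻¹) f = w := by
  rw [← ac_mul, inv_mul_cancel, ac_one]

theorem ac_smul (b : A) (w : Om D) (f : FreeGroup (Fin D.m)) : ac (b • w) f = b • ac w f := by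
  induction f using FreeGroup.induction_on generalizing w with
  | C1 => rw [ac_one, ac_one]
  | of i => rw [ac_of, ac_of, step_smul]
  | inv_of i ih =>
    have h1 : ac (ac (b • w) (FreeGroup.of i)⁻¹) (FreeGroup.of i) =
        ac (b • ac w (FreeGroup.of i)⁻¹) (FreeGroup.of i) := by
      rw [ac_inv_mul, ih, ac_inv_mul]
    rw [ac_of, ac_of] at h1
    exact (step_bij i).1 h1
  | mul f g hf hg => rw [ac_mul, ac_mul, hf, hg]

theorem pr_ac (w : Om D) (f : FreeGroup (Fin D.m)) :
    (ac w f).pr = w.pr * FreeGroup.lift D.s f := by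
  induction f using FreeGroup.induction_on generalizing w with
  | C1 => rw [ac_one, map_one, mul_one]
  | of i => rw [ac_of, pr_step, FreeGroup.lift_apply_of]
  | inv_of i ih =>
    have h1 := ih (ac w (FreeGroup.of i)⁻¹)
    rw [ac_inv_mul] at h1
    rw [h1, map_inv, mul_inv_cancel_right]
  | mul f g hf hg => rw [ac_mul, hg, hf, map_mul, mul_assoc]

/-- A path which does not meet the stabilizer does not change the coset. -/
theorem ac_mk (L : List (Fin D.m × Bool)) (w : Om D)
    (h : ∀ n ≤ L.length, (w.pr * FreeGroup.lift D.s (FreeGroup.mk (L.take n))) • D.x ≠ D.x) :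
    (ac w (FreeGroup.mk L)).co = w.co := by
  induction L generalizing w with
  | nil =>
    have : (FreeGroup.mk [] : FreeGroup (Fin D.m)) = 1 := rfl
    rw [this, ac_one]
  | cons l L ih =>
    obtain ⟨i, b⟩ := l
    have hmk : (FreeGroup.mk ((i, b) :: L) : FreeGroup (Fin D.m)) =
        FreeGroup.mk [(i, b)] * FreeGroup.mk L := by
      rw [FreeGroup.mul_mk]
      rfl
    rw [hmk, ac_mul]
    have h0 := h 0 (Nat.zero_le _)
    have h1 := h 1 (by simp)
    rw [List.take_zero] at h0
    have e0 : (FreeGroup.mk [] : FreeGroup (Fin D.m)) = 1 := rfl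
    rw [e0, map_one, mul_one] at h0
    rw [List.take_succ_cons, List.take_zero] at h1
    have hco : (ac w (FreeGroup.mk [(i, b)])).co = w.co := by
      cases b with
      | true =>
        have e1 : (FreeGroup.mk [(i, true)] : FreeGroup (Fin D.m)) = FreeGroup.of i := rfl
        rw [e1, FreeGroup.lift_apply_of] at h1
        rw [e1, ac_of]
        rcases rel_step i w with ⟨hx, -⟩ | ⟨-, hx, -⟩ | ⟨-, -, -, h2⟩
        · exact absurd hx h0
        · exact absurd hx h1
        · exact h2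
      | false =>
        have e1 : (FreeGroup.mk [(i, false)] : FreeGroup (Fin D.m)) = (FreeGroup.of i)⁻¹ := rfl
        rw [e1]
        rw [e1, map_inv, FreeGroup.lift_apply_of] at h1
        set v := ac w (FreeGroup.of i)⁻¹ with hv
        have hvw : step i v = w := by
          rw [← ac_of, hv, ac_inv_mul]
        have hvp : v.pr = w.pr * (D.s i)⁻¹ := by
          rw [hv, pr_ac, map_inv, FreeGroup.lift_apply_of]
        rcases rel_step i v with ⟨hx, -⟩ | ⟨-, hx, -⟩ | ⟨-, -, -, h2⟩
        · rw [hvp] at hx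
          exact absurd hx h1
        · rw [hvp, inv_mul_cancel_right] at hx
          exact absurd hx h0
        · rw [hvw] at h2
          exact h2.symm
    rw [ih, hco]
    intro n hn
    have h2 := h (n + 1) (by simpa using hn)
    rw [List.take_succ_cons] at h2
    have hmk' : (FreeGroup.mk ((i, b) :: L.take n) : FreeGroup (Fin D.m)) =
        FreeGroup.mk [(i, b)] * FreeGroup.mk (L.take n) := by
      rw [FreeGroup.mul_mk]
      rfl
    rw [hmk', map_mul, ← mul_assoc] at h2
    rw [pr_ac]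
    exact h2

/-- The words which act as elements of `N`. -/
def Lk (D : Dat G V A) (N : Subgroup A) : Subgroup (FreeGroup (Fin D.m)) where
  carrier := {f | ∀ w : Om D, ∃ k ∈ N, ac w f = k • w}
  one_mem' := fun w => ⟨1, N.one_mem, by rw [ac_one, one_smul]⟩
  mul_mem' := by
    intro f g hf hg w
    obtain ⟨k, hk, h1⟩ := hf w
    obtain ⟨l, hl, h2⟩ := hg w
    exact ⟨k * l, N.mul_mem hk hl, by rw [ac_mul, h1, ac_smul, h2, mul_smul]⟩
  inv_mem' := by
    intro f hf w
    obtain ⟨k, hk, h1⟩ := hf w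
    refine ⟨k⁻¹, N.inv_mem hk, ?_⟩
    have h2 : ac (ac w f) f⁻¹ = k • ac w f⁻¹ := by rw [h1, ac_smul]
    rw [ac_mul_inv] at h2
    rw [eq_inv_smul_iff, ← h2]

theorem Lk_normal (N : Subgroup A) : (Lk D N).Normal := by
  constructor
  intro f hf g w
  obtain ⟨k, hk, h1⟩ := hf (ac w g)
  refine ⟨k, hk, ?_⟩
  rw [ac_mul, ac_mul, h1, ac_smul, ac_mul_inv]

theorem main (hA : Group.FG A) (R : Finset (FreeGroup (Fin D.m)))
    (hR : (FreeGroup.lift D.s).ker = Subgroup.normalClosure (R : Set (FreeGroup (Fin D.m)))) :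
    ∃ M : Finset A, D.p.ker = Subgroup.normalClosure (M : Set A) := by
  classical
  -- relators
  have hRker : ∀ r ∈ R, FreeGroup.lift D.s r = 1 := by
    intro r hr
    have : r ∈ (FreeGroup.lift D.s).ker := by
      rw [hR]
      exact Subgroup.subset_normalClosure hr
    exact this
  have hlift : ∀ f : FreeGroup (Fin D.m), FreeGroup.lift D.s f ∈ D.H := by
    intro f
    have : FreeGroup.lift D.s f ∈ (FreeGroup.lift D.s).range := ⟨f, rfl⟩
    rw [FreeGroup.range_lift_eq_closure, D.hgen] at this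
    exact this
  have hex1 : ∀ (r : FreeGroup (Fin D.m)) (n : ℕ), ∃ (w : Om D) (k : A),
      w.pr = (FreeGroup.lift D.s (FreeGroup.mk (r.toWord.take n)))⁻¹ ∧ D.p k = 1 ∧
      (FreeGroup.lift D.s r = 1 → ac w r = k • w) := by
    intro r n
    obtain ⟨w, hw⟩ := exists_over (D := D)
      (D.H.inv_mem (hlift (FreeGroup.mk (r.toWord.take n))))
    by_cases hr : FreeGroup.lift D.s r = 1
    · have h1 : w.pr = (ac w r).pr := by rw [pr_ac, hr, mul_one]
      obtain ⟨k, hk, hkw⟩ := fib h1
      exact ⟨w, k, hw, hk, fun _ => hkw⟩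
    · exact ⟨w, 1, hw, map_one _, fun h => absurd h hr⟩
  choose wb κ hwb hκ hκ' using hex1
  have hex2 : ∀ a : A, ∃ (f : FreeGroup (Fin D.m)) (k : A), D.p k = 1 ∧
      ac (w0 D) f = k • a • w0 D := by
    intro a
    have h1 : D.p a ∈ (FreeGroup.lift D.s).range := by
      rw [FreeGroup.range_lift_eq_closure, D.hgen]
      exact (p_mem D a).1
    obtain ⟨f, hf⟩ := h1
    have h2 : (a • w0 D).pr = (ac (w0 D) f).pr := by
      rw [pr_ac, pr_smul, pr_w0, hf, mul_one, one_mul]
    obtain ⟨k, hk, hkw⟩ := fib h2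
    exact ⟨f, k, hk, hkw⟩
  choose φ τ hτ hτ' using hex2
  obtain ⟨S, hS⟩ := hA.out
  set M : Finset A := (R.biUnion fun r => (Finset.range (r.toWord.length + 1)).image (κ r)) ∪
    S.image τ with hM
  have hMker : ∀ k ∈ M, D.p k = 1 := by
    intro k hk
    rw [hM, Finset.mem_union, Finset.mem_biUnion, Finset.mem_image] at hk
    rcases hk with ⟨r, -, hk⟩ | ⟨a, -, rfl⟩
    · rw [Finset.mem_image] at hk
      obtain ⟨n, -, rfl⟩ := hk
      exact hκ r n
    · exact hτ a
  set N : Subgroup A := Subgroup.normalClosure (M : Set A) with hN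
  have hNn : N.Normal := Subgroup.normalClosure_normal
  have hNker : N ≤ D.p.ker := Subgroup.normalClosure_le_normal fun k hk => hMker k hk
  -- the relators act as elements of `N`
  have hRL : (FreeGroup.lift D.s).ker ≤ Lk D N := by
    rw [hR]
    have := Lk_normal (D := D) N
    apply Subgroup.normalClosure_le_normal
    intro r hr w
    by_cases hpre : ∀ n ≤ r.toWord.length,
        (w.pr * FreeGroup.lift D.s (FreeGroup.mk (r.toWord.take n))) • D.x ≠ D.x
    · refine ⟨1, N.one_mem, ?_⟩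
      rw [one_smul]
      apply ext'
      · rw [pr_ac, hRker r hr, mul_one]
      · have := ac_mk r.toWord w hpre
        rwa [FreeGroup.mk_toWord] at this
    · push Not at hpre
      obtain ⟨n, hn, hx⟩ := hpre
      obtain ⟨a, ha⟩ := exists_p D (D.H.mul_mem w.pr_mem (hlift _)) hx
      have h1 : (a • wb r n).pr = w.pr := by
        rw [pr_smul, hwb, ha, mul_inv_cancel_right]
      obtain ⟨k, -, hk⟩ := fib h1
      have hw : w = (k * a) • wb r n := by rw [mul_smul, ← hk]
      refine ⟨(k * a) * κ r n * (k * a)⁻¹, ?_, ?_⟩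
      · apply hNn.conj_mem
        apply Subgroup.subset_normalClosure
        rw [hM]
        apply Finset.mem_coe.2
        rw [Finset.mem_union, Finset.mem_biUnion]
        left
        exact ⟨r, hr, Finset.mem_image.2 ⟨n, Finset.mem_range.2 (by omega), rfl⟩⟩
      · rw [hw, ac_smul, hκ' r n (hRker r hr), smul_smul, smul_smul]
        congr 1
        group
  refine ⟨M, le_antisymm ?_ hNker⟩
  -- the elements reached from the base state
  let T : Subgroup A :=
    { carrier := {a | ∃ f, ∃ k ∈ N, ac (w0 D) f = k • a • w0 D}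
      one_mem' := ⟨1, 1, N.one_mem, by rw [ac_one, one_smul, one_smul]⟩
      mul_mem' := by
        rintro a b ⟨f, k, hk, h1⟩ ⟨g, l, hl, h2⟩
        refine ⟨f * g, k * (a * l * a⁻¹), N.mul_mem hk (hNn.conj_mem l hl a), ?_⟩
        rw [ac_mul, h1, ac_smul, ac_smul, h2]
        simp only [smul_smul]
        congr 1
        group
      inv_mem' := by
        rintro a ⟨f, k, hk, h1⟩
        refine ⟨f⁻¹, a⁻¹ * k⁻¹ * a, ?_, ?_⟩
        · have := hNn.conj_mem k⁻¹ (N.inv_mem hk) a⁻¹
          rwa [inv_inv] at this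
        · have h2 : ac (ac (w0 D) f) f⁻¹ = k • a • ac (w0 D) f⁻¹ := by
            rw [h1, ac_smul, ac_smul]
          rw [ac_mul_inv, smul_smul] at h2
          have h3 : ac (w0 D) f⁻¹ = (k * a)⁻¹ • w0 D := by
            rw [eq_inv_smul_iff]
            exact h2.symm
          rw [h3, smul_smul]
          congr 1
          group }
  have hT : T = ⊤ := by
    rw [eq_top_iff, ← hS, Subgroup.closure_le]
    intro a ha
    refine ⟨φ a, τ a, ?_, hτ' a⟩
    apply Subgroup.subset_normalClosure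
    rw [hM]
    apply Finset.mem_coe.2
    rw [Finset.mem_union]
    right
    exact Finset.mem_image.2 ⟨a, ha, rfl⟩
  intro a ha
  have haT : a ∈ T := by rw [hT]; trivial
  obtain ⟨f, k, hk, h1⟩ := haT
  have hf : f ∈ (FreeGroup.lift D.s).ker := by
    have h2 : (ac (w0 D) f).pr = (k • a • w0 D).pr := by rw [h1]
    rw [pr_ac, pr_smul, pr_smul, pr_w0, one_mul, mul_one] at h2
    rw [MonoidHom.mem_ker, h2, show D.p k = 1 from hNker hk, show D.p a = 1 from ha, one_mul]
  obtain ⟨l, hl, h3⟩ := hRL hf (w0 D)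
  rw [h3, smul_smul] at h1
  have h4 := smul_w0_inj h1
  have h5 : a = k⁻¹ * l := by rw [h4, inv_mul_cancel_left]
  rw [h5]
  exact N.mul_mem (N.inv_mem hk) hl

end SFpBAux

variable {G : Type*} [Group G] {V : Type*} [MulAction G V]

theorem ker_fn_of_states (H : Subgroup G) (x : V) (d : V → V)
    (hd1 : ∀ k ∈ H, k • x = x → ∀ p, p ≠ x → d (k • p) = k • d p)
    {m : ℕ} (s : Fin m → G) (hgen : Subgroup.closure (Set.range s) = H)
    (hinv : ∀ i, ∃ j, s j = (s i)⁻¹)
    (hs : ∀ i, ∀ g ∈ H, g • x ≠ x → (g * s i) • x ≠ x → d (g • x) = d ((g * s i) • x))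
    (R : Finset (FreeGroup (Fin m)))
    (hR : (FreeGroup.lift s).ker = Subgroup.normalClosure (R : Set (FreeGroup (Fin m))))
    {A : Type*} [Group A] (hA : Group.FG A) (p : A →* G) (hp : p.range = H ⊓ stabilizer G x)
    (E : Fin m → Subgroup A)
    (hE : ∀ i, s i • x ≠ x → (E i).map p = H ⊓ stabilizer G x ⊓ stabilizer G (d (s i • x)))
    (hEinj : ∀ i, s i • x ≠ x → ∀ a ∈ E i, p a = 1 → a = 1) :
    ∃ M : Finset A, p.ker = Subgroup.normalClosure (M : Set A) := by
  exact SFpBAux.main (D := ⟨H, x, d, hd1, m, s, hgen, hinv, hs, p, hp, E, hE, hEinj⟩) hA R hR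

end Pda3a14
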