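import Pool.Agent.Lib.Pda3a14.Defs

/-!
# Stabilizers of classes of finitely generated equivariant relations (module SGpd)

## Paper proof of `fg_stab_class`

`y = (g, c)`. Call `c'` reachable if some `(k, c')` is equivalent to `y`; choose `k_{c'}` with
`(k_{c'}, c') ≈ y`, `k_c = g`. Let `D` be generated by the finitely many elements
`k_{c₁} a₁⁻¹ a₂ k_{c₂}⁻¹` for `((a₁, c₁), (a₂, c₂)) ∈ Π` with `c₁` (equivalently `c₂`) reachable;
they stabilize the class (`≈` is invariant under left multiplication). Conversely the set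
`W = {(k, c') | c' reachable, k ∈ D k_{c'}}` contains `y` and is closed under the relation and its
inverse, so it contains the class of `y`; if `(h g, c) ≈ (g, c)` then `h g ∈ D g`, `h ∈ D`.

## Paper proof of `exists_cocycle`

Let `F = FreeGroup (Fin P.n)`. The letter `s` acts on `H × M` by the permutation
`(h, m) ↦ (h π(s), m + σ s h)`; these give a homomorphism `Ψ` from `F` to the opposite group of
`Equiv.Perm (H × M)` (or use `s⁻¹` and a left action), and `Ψ(w) (h, m) = (h π(w), m + tot h w)`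
for words `w` (induction on the list). The relators act trivially, so the kernel of `P.π` acts
trivially. Put `f h = (Ψ(w) (1, 0)).2` for any `w` with `P.π w = h`; then
`f (h π(s)) = f h + σ s h`.
-/

namespace Pda3a14

/-- The relation on `H × C` generated by the translates of the pairs in `Π`. -/
def GRel {H C : Type*} [Group H] (P : List ((H × C) × (H × C))) (a b : H × C) : Prop :=
  ∃ (h : H) (p : (H × C) × (H × C)), p ∈ P ∧ a = (h * p.1.1, p.1.2) ∧ b = (h * p.2.1, p.2.2)

theorem GRel.mul {H C : Type*} [Group H] {P : List ((H × C) × (H × C))} {a b : H × C}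
    (hab : GRel P a b) (g : H) : GRel P (g * a.1, a.2) (g * b.1, b.2) := by
  obtain ⟨h, p, hp, rfl, rfl⟩ := hab
  exact ⟨g * h, p, hp, by simp [mul_assoc], by simp [mul_assoc]⟩

theorem GRel.eqvGen_mul {H C : Type*} [Group H] {P : List ((H × C) × (H × C))} {a b : H × C}
    (hab : Relation.EqvGen (GRel P) a b) (g : H) :
    Relation.EqvGen (GRel P) (g * a.1, a.2) (g * b.1, b.2) := by
  induction hab with
  | rel a b h => exact Relation.EqvGen.rel _ _ (h.mul g)
  | refl a => exact Relation.EqvGen.refl _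
  | symm a b _ ih => exact Relation.EqvGen.symm _ _ ih
  | trans a b c _ _ ih1 ih2 => exact Relation.EqvGen.trans _ _ _ ih1 ih2

theorem fg_stab_class {H C : Type*} [Group H] [Finite C] (P : List ((H × C) × (H × C)))
    (y : H × C) :
    ∃ D : Subgroup H, D.FG ∧ ∀ h, h ∈ D ↔ Relation.EqvGen (GRel P) (h * y.1, y.2) y := by
  classical
  -- the reachable elements and the chosen elements
  have hk : ∃ k : C → H, k y.2 = y.1 ∧ ∀ c', (∃ x, Relation.EqvGen (GRel P) (x, c') y) →
      Relation.EqvGen (GRel P) (k c', c') y := by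
    refine ⟨fun c' => if c' = y.2 then y.1 else
      if h : ∃ x, Relation.EqvGen (GRel P) (x, c') y then h.choose else 1, by simp, ?_⟩
    intro c' h
    by_cases hc : c' = y.2
    · subst hc
      simp only [if_true]
      exact Relation.EqvGen.refl _
    · simp only [hc, if_false, dif_pos h]
      exact h.choose_spec
  obtain ⟨k, hk0, hk1⟩ := hk
  let reach : C → Prop := fun c' => ∃ x, Relation.EqvGen (GRel P) (x, c') y
  let t : (H × C) × (H × C) → H := fun p => k p.1.2 * (p.1.1)⁻¹ * p.2.1 * (k p.2.2)⁻¹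
  let T : Set H := t '' {p | p ∈ P ∧ reach p.1.2}
  have hTfin : T.Finite := (((List.finite_toSet P).subset (fun p hp => hp.1))).image t
  -- the first element of a pair is reachable if and only if the second is
  have hE : ∀ p ∈ P, Relation.EqvGen (GRel P) p.1 p.2 := fun p hp =>
    Relation.EqvGen.rel _ _ ⟨1, p, hp, by simp, by simp⟩
  have r12 : ∀ p ∈ P, reach p.1.2 →
      Relation.EqvGen (GRel P) (k p.1.2 * (p.1.1)⁻¹ * p.2.1, p.2.2) y := by
    intro p hp hr
    have h1 := hk1 _ hr
    have h2 := GRel.eqvGen_mul (hE p hp) (k p.1.2 * (p.1.1)⁻¹)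
    rw [inv_mul_cancel_right] at h2
    exact Relation.EqvGen.trans _ _ _ (Relation.EqvGen.symm _ _ h2) h1
  have r21 : ∀ p ∈ P, reach p.2.2 → reach p.1.2 := by
    intro p hp hr
    have h1 := hk1 _ hr
    have h2 := GRel.eqvGen_mul (hE p hp) (k p.2.2 * (p.2.1)⁻¹)
    rw [inv_mul_cancel_right] at h2
    exact ⟨_, Relation.EqvGen.trans _ _ _ h2 h1⟩
  -- the stabilizer of the class
  let St : Subgroup H :=
    { carrier := {h | Relation.EqvGen (GRel P) (h * y.1, y.2) y}
      one_mem' := by
        change Relation.EqvGen (GRel P) (1 * y.1, y.2) y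
        rw [one_mul]
        exact Relation.EqvGen.refl _
      mul_mem' := by
        intro a b ha hb
        change Relation.EqvGen (GRel P) (a * b * y.1, y.2) y
        have h := GRel.eqvGen_mul (a := (b * y.1, y.2)) (b := y) hb a
        rw [← mul_assoc] at h
        exact Relation.EqvGen.trans _ _ _ h ha
      inv_mem' := by
        intro a ha
        change Relation.EqvGen (GRel P) (a⁻¹ * y.1, y.2) y
        have h := GRel.eqvGen_mul (a := (a * y.1, y.2)) (b := y) ha a⁻¹
        rw [inv_mul_cancel_left] at h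
        exact Relation.EqvGen.symm _ _ h }
  have hTS : T ⊆ (St : Set H) := by
    rintro x ⟨p, ⟨hp, hr⟩, rfl⟩
    change Relation.EqvGen (GRel P)
      (k p.1.2 * (p.1.1)⁻¹ * p.2.1 * (k p.2.2)⁻¹ * y.1, y.2) y
    have h1 := r12 p hp hr
    have h2 := hk1 p.2.2 ⟨_, h1⟩
    have h3 := GRel.eqvGen_mul (a := (k p.2.2, p.2.2)) (b := y) h2
      (k p.1.2 * (p.1.1)⁻¹ * p.2.1 * (k p.2.2)⁻¹)
    rw [inv_mul_cancel_right] at h3
    exact Relation.EqvGen.trans _ _ _ (Relation.EqvGen.symm _ _ h3) h1
  -- the class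
  have hW : ∀ a b : H × C, Relation.EqvGen (GRel P) a b →
      ((reach a.2 ∧ ∃ d ∈ Subgroup.closure T, a.1 = d * k a.2) ↔
        (reach b.2 ∧ ∃ d ∈ Subgroup.closure T, b.1 = d * k b.2)) := by
    intro a b hab
    induction hab with
    | rel a b h =>
      obtain ⟨g, p, hp, rfl, rfl⟩ := h
      constructor
      · rintro ⟨hr, d, hd, e⟩
        change reach p.1.2 at hr
        change g * p.1.1 = d * k p.1.2 at e
        have hx : t p ∈ Subgroup.closure T := Subgroup.subset_closure ⟨p, ⟨hp, hr⟩, rfl⟩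
        refine ⟨⟨_, r12 p hp hr⟩, d * t p, mul_mem hd hx, ?_⟩
        change g * p.2.1 = d * (k p.1.2 * (p.1.1)⁻¹ * p.2.1 * (k p.2.2)⁻¹) * k p.2.2
        have e' : g = d * k p.1.2 * (p.1.1)⁻¹ := eq_mul_inv_of_mul_eq e
        rw [e']
        group
      · rintro ⟨hr, d, hd, e⟩
        change reach p.2.2 at hr
        change g * p.2.1 = d * k p.2.2 at e
        have hr1 : reach p.1.2 := r21 p hp hr
        have hx : t p ∈ Subgroup.closure T := Subgroup.subset_closure ⟨p, ⟨hp, hr1⟩, rfl⟩
        refine ⟨hr1, d * (t p)⁻¹, mul_mem hd (inv_mem hx), ?_⟩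
        change g * p.1.1 = d * (k p.1.2 * (p.1.1)⁻¹ * p.2.1 * (k p.2.2)⁻¹)⁻¹ * k p.1.2
        have e' : g = d * k p.2.2 * (p.2.1)⁻¹ := eq_mul_inv_of_mul_eq e
        rw [e']
        group
    | refl a => exact Iff.rfl
    | symm a b _ ih => exact ih.symm
    | trans a b c _ _ ih1 ih2 => exact ih1.trans ih2
  refine ⟨Subgroup.closure T, (Subgroup.fg_iff _).mpr ⟨T, rfl, hTfin⟩, fun h => ⟨?_, ?_⟩⟩
  · intro hh
    exact (Subgroup.closure_le St).mpr hTS hh
  · intro hh
    have h1 := (hW _ _ hh).mpr ⟨⟨y.1, Relation.EqvGen.refl _⟩, 1, one_mem _, by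
      rw [hk0, one_mul]⟩
    obtain ⟨-, d, hd, e⟩ := h1
    change h * y.1 = d * k y.2 at e
    rw [hk0] at e
    rw [mul_right_cancel e]
    exact hd

/-- the permutation of `H × M` given by a letter -/
def stepPerm {H : Type*} [Group H] {M : Type*} [AddCommGroup M] (x : H) (τ : H → M) :
    Equiv.Perm (H × M) where
  toFun p := (p.1 * x, p.2 + τ p.1)
  invFun p := (p.1 * x⁻¹, p.2 - τ (p.1 * x⁻¹))
  left_inv p := by simp
  right_inv p := by simp

theorem exists_cocycle {H : Type*} [Group H] (P : FinPres H) {M : Type*} [AddCommGroup M]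
    (σ : Fin P.n → H → M) (tot : H → List (Fin P.n × Bool) → M) (h0 : ∀ h, tot h [] = 0)
    (h1 : ∀ h s w, tot h ((s, true) :: w) = σ s h + tot (h * P.π (FreeGroup.of s)) w)
    (h2 : ∀ h s w, tot h ((s, false) :: w) =
      -σ s (h * (P.π (FreeGroup.of s))⁻¹) + tot (h * (P.π (FreeGroup.of s))⁻¹) w)
    (hR : ∀ r ∈ P.R, ∀ h, tot h r.toWord = 0) :
    ∃ f : H → M, ∀ h s, f (h * P.π (FreeGroup.of s)) = f h + σ s h := by
  classical
  let e : Fin P.n → Equiv.Perm (H × M) := fun s => stepPerm (P.π (FreeGroup.of s)) (σ s)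
  let Ψ : FreeGroup (Fin P.n) →* (Equiv.Perm (H × M))ᵐᵒᵖ :=
    FreeGroup.lift (fun s => MulOpposite.op (e s))
  have hof : ∀ s, Ψ (FreeGroup.of s) = MulOpposite.op (e s) := fun s => by
    simp [Ψ]
  have hact : ∀ (u v : FreeGroup (Fin P.n)) (q : H × M),
      (Ψ (u * v)).unop q = (Ψ v).unop ((Ψ u).unop q) := by
    intro u v q
    rw [map_mul, MulOpposite.unop_mul, Equiv.Perm.mul_apply]
  -- the letters
  have hpos : ∀ (s : Fin P.n) (w : List (Fin P.n × Bool)),
      FreeGroup.mk ((s, true) :: w) = FreeGroup.of s * FreeGroup.mk w := by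
    intro s w
    rfl
  have hneg : ∀ (s : Fin P.n) (w : List (Fin P.n × Bool)),
      FreeGroup.mk ((s, false) :: w) = (FreeGroup.of s)⁻¹ * FreeGroup.mk w := by
    intro s w
    rfl
  have key : ∀ (w : List (Fin P.n × Bool)) (h : H) (m : M),
      (Ψ (FreeGroup.mk w)).unop (h, m) = (h * P.π (FreeGroup.mk w), m + tot h w) := by
    intro w
    induction w with
    | nil =>
      intro h m
      rw [← FreeGroup.one_eq_mk, map_one, map_one, h0, mul_one, add_zero]
      rfl
    | cons a w ih =>
      intro h m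
      obtain ⟨s, b⟩ := a
      cases b
      · rw [hneg, hact, map_inv, hof, map_mul, map_inv, h2]
        have e1 : (MulOpposite.unop (MulOpposite.op (e s))⁻¹) (h, m) =
            (h * (P.π (FreeGroup.of s))⁻¹, m - σ s (h * (P.π (FreeGroup.of s))⁻¹)) := rfl
        rw [e1, ih, mul_assoc]
        congr 1
        abel
      · rw [hpos, hact, hof, map_mul, h1]
        have e1 : (MulOpposite.unop (MulOpposite.op (e s))) (h, m) =
            (h * P.π (FreeGroup.of s), m + σ s h) := rfl
        rw [e1, ih, mul_assoc]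
        congr 1
        abel
  have hrel : ∀ r ∈ P.R, Ψ r = 1 := by
    intro r hr
    have hπ : P.π r = 1 := by
      have : r ∈ P.π.ker := by
        rw [P.ker]
        exact Subgroup.subset_normalClosure hr
      exact this
    apply MulOpposite.unop_injective
    ext1 q
    obtain ⟨h, m⟩ := q
    have := key r.toWord h m
    rw [FreeGroup.mk_toWord, hR r hr h, hπ, mul_one, add_zero] at this
    rw [this]
    rfl
  have hker : P.π.ker ≤ Ψ.ker := by
    rw [P.ker]
    exact Subgroup.normalClosure_le_normal (fun r hr => hrel r hr)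
  have heq : ∀ u v : FreeGroup (Fin P.n), P.π u = P.π v → Ψ u = Ψ v := by
    intro u v huv
    have : u⁻¹ * v ∈ P.π.ker := by
      rw [MonoidHom.mem_ker, map_mul, map_inv, huv, inv_mul_cancel]
    have h3 := hker this
    rw [MonoidHom.mem_ker, map_mul, map_inv] at h3
    exact inv_mul_eq_one.mp h3
  choose wd hwd using P.surj
  have hfst : ∀ u : FreeGroup (Fin P.n), ((Ψ u).unop (1, 0)).1 = P.π u := by
    intro u
    have := key u.toWord 1 0
    rw [FreeGroup.mk_toWord, one_mul] at this
    rw [this]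
  refine ⟨fun h => ((Ψ (wd h)).unop (1, 0)).2, fun h s => ?_⟩
  have e2 : Ψ (wd (h * P.π (FreeGroup.of s))) = Ψ (wd h * FreeGroup.of s) := by
    apply heq
    rw [hwd, map_mul, hwd]
  have e3 : (Ψ (wd h)).unop (1, 0) = (h, ((Ψ (wd h)).unop (1, 0)).2) :=
    Prod.ext (by rw [hfst, hwd]) rfl
  change ((Ψ (wd (h * P.π (FreeGroup.of s)))).unop (1, 0)).2 = _
  rw [e2, hact, hof]
  rw [e3]
  rfl

end Pda3a14
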