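import Pool.Agent.Lib.Pda3a14.SBuild

/-!
# From natural number bounds to `Preceq` and back
-/

namespace Pda3a14

theorem exp_nat_bound {f : ℕ → ℕ} (h : Preceq (fun x => (f x : ℝ)) Real.exp) :
    ∃ A : ℕ, ∀ x, f x ≤ A ^ (x + 1) := by
  obtain ⟨C, hC, h⟩ := h
  obtain ⟨N, hN⟩ := exists_nat_ge C
  have hN0 : 0 < N := by
    have : (0 : ℝ) < N := lt_of_lt_of_le hC hN
    exact_mod_cast this
  -- everything is at most (N+1) * 3^{N x + N} + N x + N
  refine ⟨(N + 1) * 3 ^ N * (2 * N + 2), fun x => ?_⟩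
  have h1 := h x
  have hx : (0 : ℝ) ≤ x := Nat.cast_nonneg x
  have e1 : C * x + C ≤ N * x + N := by nlinarith
  have e2 : Real.exp (C * x + C) ≤ 3 ^ (N * x + N) := by
    have h3 : Real.exp 1 ≤ 3 := by
      have := Real.exp_one_lt_d9
      linarith
    calc Real.exp (C * x + C) ≤ Real.exp ((N * x + N : ℕ) : ℝ) := by
          apply Real.exp_le_exp.2
          push_cast
          exact e1
      _ = Real.exp 1 ^ (N * x + N) := by rw [← Real.exp_nat_mul, mul_one]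
      _ ≤ 3 ^ (N * x + N) := pow_le_pow_left₀ (Real.exp_pos 1).le h3 _
  have e3 : ((f x : ℕ) : ℝ) ≤ N * 3 ^ (N * x + N) + (N * x + N) := by
    have : C * Real.exp (C * x + C) ≤ N * 3 ^ (N * x + N) := by
      apply mul_le_mul hN e2 (Real.exp_pos _).le (by positivity)
    simp only at h1
    linarith
  have e4 : f x ≤ N * 3 ^ (N * x + N) + (N * x + N) := by exact_mod_cast e3
  have e5 : N * x + N ≤ (2 * N + 2) ^ (x + 1) := by
    have i1 : N * (x + 1) ≤ N * 2 ^ (x + 1) :=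
      Nat.mul_le_mul_left _ (Nat.lt_two_pow_self).le
    have i2 : N * 2 ^ (x + 1) ≤ (N + 1) ^ (x + 1) * 2 ^ (x + 1) := by
      apply Nat.mul_le_mul_right
      calc N ≤ N + 1 := by omega
        _ = (N + 1) ^ 1 := (pow_one _).symm
        _ ≤ (N + 1) ^ (x + 1) := Nat.pow_le_pow_right (by omega) (by omega)
    have i3 : (N + 1) ^ (x + 1) * 2 ^ (x + 1) = (2 * N + 2) ^ (x + 1) := by
      rw [← mul_pow]; congr 1; ring
    have i4 : N * x + N = N * (x + 1) := by ring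
    omega
  have e6 : N * 3 ^ (N * x + N) + (N * x + N) ≤ (N + (2 * N + 2) ^ (x + 1)) *
      3 ^ (N * x + N) := by
    have : 1 ≤ 3 ^ (N * x + N) := Nat.one_le_pow _ _ (by omega)
    have i1 : (2 * N + 2) ^ (x + 1) * 1 ≤ (2 * N + 2) ^ (x + 1) * 3 ^ (N * x + N) :=
      Nat.mul_le_mul_left _ this
    rw [add_mul]
    omega
  have e7 : N + (2 * N + 2) ^ (x + 1) ≤ (N + 1) ^ (x + 1) * (2 * N + 2) ^ (x + 1) := by
    have i1 : N + 1 ≤ (N + 1) ^ (x + 1) := by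
      calc N + 1 = (N + 1) ^ 1 := (pow_one _).symm
        _ ≤ (N + 1) ^ (x + 1) := Nat.pow_le_pow_right (by omega) (by omega)
    have i2 : 1 ≤ (2 * N + 2) ^ (x + 1) := Nat.one_le_pow _ _ (by omega)
    calc N + (2 * N + 2) ^ (x + 1) ≤ (N + 1) * (2 * N + 2) ^ (x + 1) := by nlinarith
      _ ≤ _ := Nat.mul_le_mul_right _ i1
  calc f x ≤ (N + (2 * N + 2) ^ (x + 1)) * 3 ^ (N * x + N) := e4.trans e6
    _ ≤ ((N + 1) ^ (x + 1) * (2 * N + 2) ^ (x + 1)) * 3 ^ (N * x + N) :=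
        Nat.mul_le_mul_right _ e7
    _ = ((N + 1) * 3 ^ N * (2 * N + 2)) ^ (x + 1) := by
        have : 3 ^ (N * x + N) = (3 ^ N) ^ (x + 1) := by rw [← pow_mul]; congr 1
        rw [this, mul_pow, mul_pow]; ring

theorem exp_of_nat_bound {f : ℕ → ℕ} {A : ℕ} (hd : ∀ x, f x ≤ A ^ (x + 1)) :
    Preceq (fun x => (f x : ℝ)) Real.exp := by
  refine ⟨max 1 (Real.log (A + 1)), by positivity, fun x => ?_⟩
  set C := max 1 (Real.log (A + 1)) with hC
  have hC1 : 1 ≤ C := le_max_left _ _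
  have hC2 : Real.log (A + 1) ≤ C := le_max_right _ _
  have hx : (0 : ℝ) ≤ x := Nat.cast_nonneg x
  have h1 : ((f x : ℕ) : ℝ) ≤ ((A : ℝ) + 1) ^ (x + 1) := by
    have : f x ≤ (A + 1) ^ (x + 1) := (hd x).trans (Nat.pow_le_pow_left (by omega) _)
    exact_mod_cast this
  have h2 : ((A : ℝ) + 1) ^ (x + 1) ≤ Real.exp (C * x + C) := by
    have hpos : (0 : ℝ) < (A : ℝ) + 1 := by positivity
    rw [← Real.exp_log hpos, ← Real.exp_nat_mul]
    apply Real.exp_le_exp.2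
    push_cast
    nlinarith
  have h3 : Real.exp (C * x + C) ≤ C * Real.exp (C * x + C) := by
    have := Real.exp_pos (C * x + C)
    nlinarith
  have h4 : 0 ≤ C * (x : ℝ) := by positivity
  simp only
  linarith

theorem poly_nat_bound {f : ℕ → ℕ} {d : ℕ}
    (h : Preceq (fun x => (f x : ℝ)) (fun x => x ^ d)) :
    ∃ E : ℕ, ∀ x, f x ≤ E * (x + 1) ^ (d + 1) := by
  obtain ⟨C, hC, h⟩ := h
  obtain ⟨N, hN⟩ := exists_nat_ge C
  refine ⟨N * N ^ d + N, fun x => ?_⟩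
  have h1 := h x
  have hx : (0 : ℝ) ≤ x := Nat.cast_nonneg x
  have e1 : C * x + C ≤ N * (x + 1) := by nlinarith
  have e0 : 0 ≤ C * x + C := by positivity
  have e2 : (C * x + C) ^ d ≤ (N * (x + 1)) ^ d := pow_le_pow_left₀ e0 e1 _
  have e3 : ((f x : ℕ) : ℝ) ≤ N * (N * (x + 1)) ^ d + N * (x + 1) := by
    have : C * (C * x + C) ^ d ≤ N * (N * (x + 1)) ^ d :=
      mul_le_mul hN e2 (by positivity) (by positivity)
    simp only at h1
    linarith
  have e4 : f x ≤ N * (N * (x + 1)) ^ d + N * (x + 1) := by exact_mod_cast e3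
  refine e4.trans ?_
  have i1 : (x + 1) ^ d ≤ (x + 1) ^ (d + 1) := Nat.pow_le_pow_right (by omega) (by omega)
  have i2 : x + 1 ≤ (x + 1) ^ (d + 1) := by
    calc x + 1 = (x + 1) ^ 1 := (pow_one _).symm
      _ ≤ (x + 1) ^ (d + 1) := Nat.pow_le_pow_right (by omega) (by omega)
  calc N * (N * (x + 1)) ^ d + N * (x + 1) = N * N ^ d * (x + 1) ^ d + N * (x + 1) := by
        rw [mul_pow]; ring
    _ ≤ N * N ^ d * (x + 1) ^ (d + 1) + N * (x + 1) ^ (d + 1) :=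
        Nat.add_le_add (Nat.mul_le_mul_left _ i1) (Nat.mul_le_mul_left _ i2)
    _ = _ := by ring

theorem poly_of_nat_bound {f : ℕ → ℕ} {E e : ℕ} (hd : ∀ x, f x ≤ E * (x + 1) ^ e) :
    Preceq (fun x => (f x : ℝ)) (fun x => x ^ e) := by
  refine ⟨(E : ℝ) + 1, by positivity, fun x => ?_⟩
  have h1 : ((f x : ℕ) : ℝ) ≤ (E : ℝ) * ((x : ℝ) + 1) ^ e := by exact_mod_cast hd x
  have hx : (0 : ℝ) ≤ x := Nat.cast_nonneg x
  have hE0 : (0 : ℝ) ≤ E := Nat.cast_nonneg E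
  have h2 : ((x : ℝ) + 1) ^ e ≤ (((E : ℝ) + 1) * x + ((E : ℝ) + 1)) ^ e := by
    apply pow_le_pow_left₀ (by positivity)
    nlinarith
  have h3 : (0 : ℝ) ≤ (((E : ℝ) + 1) * x + ((E : ℝ) + 1)) ^ e := by positivity
  have h4 : (0 : ℝ) ≤ ((E : ℝ) + 1) * x + ((E : ℝ) + 1) := by positivity
  simp only
  calc ((f x : ℕ) : ℝ) ≤ (E : ℝ) * ((x : ℝ) + 1) ^ e := h1
    _ ≤ (E : ℝ) * (((E : ℝ) + 1) * x + ((E : ℝ) + 1)) ^ e := mul_le_mul_of_nonneg_left h2 hE0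
    _ ≤ ((E : ℝ) + 1) * (((E : ℝ) + 1) * x + ((E : ℝ) + 1)) ^ e := by nlinarith
    _ ≤ _ := by linarith

theorem num_exp {C A : ℕ} {D : ℕ → ℕ} (hD : ∀ m, D m ≤ A ^ (m + 1)) :
    ∃ A' : ℕ, ∀ x, C * (x + 1) * (D (C * (x + 1)) + C * (x + 1)) ≤ A' ^ (x + 1) := by
  refine ⟨(2 * (A + 2)) ^ (2 * C + 1), fun x => ?_⟩
  set y := C * (x + 1) with hy
  have h1 : y ≤ (2 * (A + 2)) ^ y :=
    (Nat.lt_two_pow_self).le.trans (Nat.pow_le_pow_left (by omega) _)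
  have h2 : D y + y ≤ (2 * (A + 2)) ^ (y + 1) := by
    have i1 : D y ≤ (A + 2) ^ (y + 1) := (hD y).trans (Nat.pow_le_pow_left (by omega) _)
    have i2 : y ≤ (A + 2) ^ (y + 1) :=
      (Nat.lt_two_pow_self (n := y)).le.trans ((Nat.pow_le_pow_left (by omega) _).trans
        (Nat.pow_le_pow_right (by omega) (by omega)))
    have i3 : 2 * (A + 2) ^ (y + 1) ≤ 2 ^ (y + 1) * (A + 2) ^ (y + 1) := by
      apply Nat.mul_le_mul_right
      calc 2 = 2 ^ 1 := rfl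
        _ ≤ 2 ^ (y + 1) := Nat.pow_le_pow_right (by omega) (by omega)
    rw [mul_pow]
    omega
  calc y * (D y + y) ≤ (2 * (A + 2)) ^ y * (2 * (A + 2)) ^ (y + 1) := Nat.mul_le_mul h1 h2
    _ = (2 * (A + 2)) ^ (2 * y + 1) := by rw [← pow_add]; congr 1; ring
    _ ≤ (2 * (A + 2)) ^ ((2 * C + 1) * (x + 1)) := by
        apply Nat.pow_le_pow_right (by omega)
        rw [hy]
        have : (2 * C + 1) * (x + 1) = 2 * (C * (x + 1)) + 1 + x := by ring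
        omega
    _ = _ := by rw [pow_mul]

theorem num_poly {C E e : ℕ} {D : ℕ → ℕ} (hD : ∀ m, D m ≤ E * (m + 1) ^ e) :
    ∃ E' : ℕ, ∀ x, C * (x + 1) * (D (C * (x + 1)) + C * (x + 1)) ≤ E' * (x + 1) ^ (e + 2) := by
  refine ⟨C * (E * (C + 1) ^ e + C), fun x => ?_⟩
  have h1 : D (C * (x + 1)) ≤ E * (C + 1) ^ e * (x + 1) ^ (e + 1) := by
    calc D (C * (x + 1)) ≤ E * (C * (x + 1) + 1) ^ e := hD _
      _ ≤ E * ((C + 1) * (x + 1)) ^ e := by
          apply Nat.mul_le_mul_left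
          apply Nat.pow_le_pow_left
          have : (C + 1) * (x + 1) = C * (x + 1) + 1 + x := by ring
          omega
      _ = E * (C + 1) ^ e * (x + 1) ^ e := by rw [mul_pow]; ring
      _ ≤ E * (C + 1) ^ e * (x + 1) ^ (e + 1) :=
          Nat.mul_le_mul_left _ (Nat.pow_le_pow_right (by omega) (by omega))
  have h2 : C * (x + 1) ≤ C * (x + 1) ^ (e + 1) := by
    apply Nat.mul_le_mul_left
    calc x + 1 = (x + 1) ^ 1 := (pow_one _).symm
      _ ≤ (x + 1) ^ (e + 1) := Nat.pow_le_pow_right (by omega) (by omega)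
  calc C * (x + 1) * (D (C * (x + 1)) + C * (x + 1))
      ≤ C * (x + 1) * (E * (C + 1) ^ e * (x + 1) ^ (e + 1) + C * (x + 1) ^ (e + 1)) :=
        Nat.mul_le_mul_left _ (Nat.add_le_add h1 h2)
    _ = _ := by ring

end Pda3a14
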