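import Pool.Agent.Lib.Pda3a14.SFill

/-!
# Words give paths in the tree; the Dehn function of a group acting on a tree
-/

namespace Pda3a14

open MulAction

variable {G : Type*} [Group G] {V : Type*} [MulAction G V]

namespace TData

variable (A : TData G V)

/-- Paths of states. -/
inductive PRel : ℕ → A.St → A.St → Prop
  | refl (a : A.St) : PRel 0 a a
  | snoc {n : ℕ} {a b c : A.St} : PRel n a b → A.Step b c → PRel (n + 1) a c

variable {A}

theorem PRel.trans {m n : ℕ} {a b c : A.St} (h : A.PRel m a b) (h' : A.PRel n b c) :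
    A.PRel (m + n) a c := by
  induction h' with
  | refl b => exact h
  | snoc _ hs ih => exact (ih h).snoc hs

theorem PRel.symm (hB : ∀ β ∈ A.B, β⁻¹ ∈ A.B) {n : ℕ} {a b : A.St} (h : A.PRel n a b) :
    A.PRel n b a := by
  induction h with
  | refl a => exact PRel.refl a
  | @snoc n a b c _ hs ih =>
    have h1 : A.PRel 1 c b := by
      refine (PRel.refl c).snoc ⟨hs.2.1, hs.1, ?_, ?_⟩
      · have := hB _ hs.2.2.1
        rwa [mul_inv_rev, inv_inv] at this
      · rcases hs.2.2.2 with h | h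
        · left; exact h.symm
        · right; exact h.symm
    have := h1.trans ih
    rwa [add_comm] at this

theorem PRel.exists_fun {n : ℕ} {a b : A.St} (h : A.PRel n a b) :
    ∃ u : ℕ → A.St, u 0 = a ∧ u n = b ∧ ∀ j < n, A.Step (u j) (u (j + 1)) := by
  induction h with
  | refl a => exact ⟨fun _ => a, rfl, rfl, fun j hj => by omega⟩
  | @snoc n a b c _ hs ih =>
    obtain ⟨u, h0, h1, h2⟩ := ih
    refine ⟨fun j => if j ≤ n then u j else c, ?_, ?_, ?_⟩
    · simp [h0]
    · simp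
    · intro j hj
      by_cases hjn : j = n
      · subst hjn
        simp only [le_refl, if_true]
        have : ¬ (j + 1 ≤ j) := by omega
        simp only [this, if_false]
        rw [h1]; exact hs
      · have h3 : j ≤ n := by omega
        have h4 : j + 1 ≤ n := by omega
        simp only [h3, h4, if_true]
        exact h2 j (by omega)

variable (A)

/-- Words in a data set which is adapted to the base vertex. -/
theorem area_of_paths {Λ : ℕ} (hB : ∀ β ∈ A.B, β⁻¹ ∈ A.B) (v0 : V) (τ : FreeGroup (Fin A.P.n))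
    (hv0 : v0 ∈ A.X)
    (hpath : ∀ (i : Fin A.P.n) (f : FreeGroup (Fin A.P.n)), ∃ n ≤ Λ,
      A.PRel n (f * τ, v0) (f * FreeGroup.of i * τ, v0)) :
    ∃ C' : ℕ, ∀ D : ℕ → ℕ, Monotone D →
      (∀ o ∈ A.X, ∀ (m : ℕ) (z : FreeGroup (Fin (A.Q o).n)), z.norm ≤ m → (A.Q o).π z = 1 →
        AreaLE ((A.Q o).R : Set (FreeGroup (Fin (A.Q o).n))) (D m) z) →
      ∀ (x : ℕ) (w : FreeGroup (Fin A.P.n)), w.norm ≤ x → A.P.π w = 1 →
        AreaLE A.R (C' * (x + 1) * (D (C' * (x + 1)) + C' * (x + 1))) w := by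
  obtain ⟨K, hK⟩ := A.exists_consts
  set c1 := K * (2 * K + 3) with hc1
  set c2 := c1 * Λ + K * (2 * K * Λ + K + 3) with hc2
  refine ⟨(c2 + 1) * (Λ + 1) * (K + 1), fun D hmono hD x w hw h1 => ?_⟩
  -- the path of the word
  have key : ∀ L : List (Fin A.P.n × Bool), ∀ f : FreeGroup (Fin A.P.n), ∃ n ≤ Λ * L.length,
      A.PRel n (f * τ, v0) (f * FreeGroup.mk L * τ, v0) := by
    intro L
    induction L with
    | nil =>
      intro f
      refine ⟨0, by simp, ?_⟩
      have e : (FreeGroup.mk [] : FreeGroup (Fin A.P.n)) = 1 := rfl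
      rw [e, mul_one]
      exact PRel.refl _
    | cons a L ih =>
      intro f
      have e : (FreeGroup.mk (a :: L) : FreeGroup (Fin A.P.n)) =
          FreeGroup.mk [a] * FreeGroup.mk L := by
        rw [FreeGroup.mul_mk]; rfl
      obtain ⟨n2, hn2, hp2⟩ := ih (f * FreeGroup.mk [a])
      have h1 : ∃ n ≤ Λ, A.PRel n (f * τ, v0) (f * FreeGroup.mk [a] * τ, v0) := by
        obtain ⟨a, b⟩ := a
        cases b
        · have e2 : (FreeGroup.mk [(a, false)] : FreeGroup (Fin A.P.n)) =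
              (FreeGroup.of a)⁻¹ := by
            simp [FreeGroup.of, FreeGroup.inv_mk, FreeGroup.invRev]
          obtain ⟨n, hn, hp⟩ := hpath a (f * (FreeGroup.of a)⁻¹)
          rw [inv_mul_cancel_right] at hp
          rw [e2]
          exact ⟨n, hn, hp.symm hB⟩
        · exact hpath a f
      obtain ⟨n1, hn1, hp1⟩ := h1
      refine ⟨n1 + n2, ?_, ?_⟩
      · rw [List.length_cons, Nat.mul_succ]; omega
      · rw [e, ← mul_assoc f]
        exact hp1.trans hp2
  obtain ⟨N, hN, hp⟩ := key w.toWord 1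
  rw [FreeGroup.mk_toWord, one_mul, one_mul] at hp
  obtain ⟨u, hu0, huN, hu⟩ := hp.exists_fun
  have hNx : N ≤ Λ * x := hN.trans (Nat.mul_le_mul_left _ hw)
  set L := c1 * N + K * (2 * K * N + K + 3) with hL
  set M := D L * K + K * (2 * K * N + K + 3) with hM
  have hpos : A.pos (u 0) = A.pos (u (0 + N)) := by
    rw [zero_add, hu0, huN]
    unfold pos
    simp [h1]
  have hX0 : (u 0).2 ∈ A.X := by rw [hu0]; exact hv0
  obtain ⟨v, hv1, hv2⟩ := A.fill hK D hD u N hu c1 L M hc1 hL hM N 0 (by omega) hpos hX0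
  rw [zero_add] at hv2
  have hπ : (A.Q (u 0).2).π v = 1 := by
    rw [← A.hφ, ← A.P.near_π hv2, hu0, huN]
    simp [h1]
  have hvL : v.norm ≤ L := hv1.trans (by omega)
  have ha1 : AreaLE A.R (D L * K) (A.φ (u 0).2 v) :=
    AreaLE.map _ (hK.k1 _ hX0) (hD _ hX0 L v hvL hπ)
  have ha2 := hv2.area_left ha1
  rw [hu0, huN] at ha2
  have ha3 := ha2.conj τ
  have e : τ * (((τ, v0) : A.St).1⁻¹ * ((w * τ, v0) : A.St).1) * τ⁻¹ = w := by
    change τ * (τ⁻¹ * (w * τ)) * τ⁻¹ = w
    group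
  rw [e] at ha3
  apply ha3.mono
  -- arithmetic
  have hLx : L ≤ c2 * (x + 1) := by
    have i1 : c1 * N ≤ c1 * (Λ * x) := Nat.mul_le_mul_left _ hNx
    have i2 : 2 * K * N ≤ 2 * K * (Λ * x) := Nat.mul_le_mul_left _ hNx
    have i3 : K * (2 * K * N + K + 3) ≤ K * (2 * K * (Λ * x) + K + 3) :=
      Nat.mul_le_mul_left _ (by omega)
    have i4 : c2 * (x + 1) = c1 * (Λ * x) + K * (2 * K * (Λ * x) + K + 3) +
        (c1 * Λ + K * (2 * K * Λ) + K * (K + 3) * x) := by rw [hc2]; ring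
    omega
  set Y := (c2 + 1) * (Λ + 1) * (K + 1) * (x + 1) with hY
  have hone : 1 ≤ (Λ + 1) * (K + 1) := Nat.one_le_iff_ne_zero.2 (by positivity)
  have hLY : L ≤ Y := by
    have i1 : (c2 + 1) * (x + 1) * 1 ≤ (c2 + 1) * (x + 1) * ((Λ + 1) * (K + 1)) :=
      Nat.mul_le_mul_left _ hone
    have i2 : Y = (c2 + 1) * (x + 1) * ((Λ + 1) * (K + 1)) := by rw [hY]; ring
    have i3 : c2 * (x + 1) ≤ (c2 + 1) * (x + 1) := Nat.mul_le_mul_right _ (by omega)
    omega
  have hDL : D L ≤ D Y := hmono hLY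
  have hMY : M ≤ K * (D Y) + Y := by
    have i1 : D L * K ≤ K * D Y := by rw [mul_comm]; exact Nat.mul_le_mul_left _ hDL
    have i2 : K * (2 * K * N + K + 3) ≤ L := by omega
    omega
  have hNY : N + 1 ≤ (Λ + 1) * (x + 1) := by
    have : (Λ + 1) * (x + 1) = Λ * x + Λ + x + 1 := by ring
    omega
  have hMM : D L * K ≤ M := by omega
  calc N * M + D L * K ≤ N * M + M := by omega
    _ = (N + 1) * M := by ring
    _ ≤ ((Λ + 1) * (x + 1)) * (K * (D Y) + Y) := Nat.mul_le_mul hNY hMY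
    _ ≤ ((Λ + 1) * (x + 1)) * ((K + 1) * (D Y + Y)) := by
        apply Nat.mul_le_mul_left
        have : (K + 1) * (D Y + Y) = K * D Y + Y + (D Y + K * Y) := by ring
        omega
    _ = (Λ + 1) * (K + 1) * (x + 1) * (D Y + Y) := by ring
    _ ≤ Y * (D Y + Y) := by
        apply Nat.mul_le_mul_right
        have : Y = (Λ + 1) * (K + 1) * (x + 1) + c2 * ((Λ + 1) * (K + 1) * (x + 1)) := by
          rw [hY]; ring
        omega

end TData

end Pda3a14
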