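import Pool.Agent.Lib.Pda3a14.Defs

/-!
# Resolutions of actions of finitely presented groups on trees: black boxes
-/

namespace Pda3a14

open MulAction

/-- Balanced lists; the second list collects the pairs `(a, rev b)` of matched entries. -/
inductive Bal {Y : Type*} (rev : Y → Y) : List Y → List (Y × Y) → Prop
  | nil : Bal rev [] []
  | node {a b : Y} {L1 L2 : List Y} {P1 P2 : List (Y × Y)} : Bal rev L1 P1 → Bal rev L2 P2 →
      Bal rev (a :: (L1 ++ b :: L2)) ((a, rev b) :: (P1 ++ P2))

/-- Walks from `q` to `q'` written with letters `y` going from `tl y` to `hd y`. -/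
def IsW {V Y : Type*} (T : SimpleGraph V) (tl hd : Y → V) : V → List Y → V → Prop
  | q, [], q' => q = q'
  | q, y :: L, q' => tl y = q ∧ T.Adj q (hd y) ∧ IsW T tl hd (hd y) L q'

end Pda3a14
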