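import Pool.Agent.Lib.Pda3a14.SResD

/-!
# Existence of tracks and heights (module SResA)

## Paper proof of `exists_resData`

`π = P.π`, base vertex `v0`; for every letter `s` a walk `W s` in `T` from `v0` to `π(s) v0` of
length `ℓ s`, `z s i = (W s).getVert i`. `tl y = pos (src y)`, `hd y = pos (tgt y)`.
* The path of a word `w` (list of letters) from `h`: `LW h [] = []`;
  `LW h ((s, true) :: w) = [(h, (s, 0), true), ..., (h, (s, ℓ s - 1), true)] ++ LW (h π(s)) w`;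
  `LW h ((s, false) :: w) = [(g, (s, ℓ s - 1), false), ..., (g, (s, 0), false)] ++ LW g w` with
  `g = h π(s)⁻¹`. It is a walk `IsW T tl hd (h v0) (LW h w) ((h π(w)) v0)`, and
  `LW (k h) w = (LW h w).map (lmul k)`.
* For every relator `r` the walk `LW 1 r.toWord` is closed; `exists_bal` (with `exists_dir`) gives
  `Bal Cr.rev (LW 1 r.toWord) P_r`. Let `Π` = all pairs of all `P_r`, together with the pairs
  `(rev a, rev b)`; `E` = the equivalence relation generated by the translates (`GRel Π`,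
  `Relation.EqvGen`). It is invariant under `lmul` and `rev`, and equivalent crossings have the same
  positions of `src` and `tgt`. `Efg` is `fg_stab_class`.
* `ε = eps E`: `ε (rev y) = - ε y`, `ε y` depends on the class of `y` only.
  If `Bal rev L P` and all pairs of `P` are equivalent, then `∑ ε = 0` over `L` (induction:
  `ε a + ε b = 0` as `a ≈ rev b`).
* `exists_cocycle` with `M = Quotient E → ℤ`, `σ s h = ∑_{i < ℓ s} ε (h, (s, i), true)`, `tot h w` =
  sum of `ε` over `LW h w`: `f : H → M` with `f (h π(s)) = f h + σ s h`. Extend to points: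
  `f (h, none) = f h`, `f (h, some (s, i)) = f h + ∑_{j < i} ε (h, (s, j), true)` (sum over
  `j < min i (ℓ s)`). Then `fstep`, `f0`, `fl` hold.
* Chain lemma: along `LW h w` the current value starts at `f (h, none)`, each crossing `y` has
  `f (src y)` = the current value, and the next current value is `f (tgt y) = f (src y) + ε y`.
  Hence, if `Bal rev L P`, `L` a chain in this sense and all pairs of `P` are equivalent, then
  `f (src a) = f (src (rev b))` and `f (tgt a) = f (tgt (rev b))` for every pair `(a, rev b)` of `P`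
  (induction along `Bal`: the sum over `L1` is `0`, so `f (tgt a) = f (src b)`, and
  `f (tgt b) = f (src b) + ε b = f (src a)`). By translation (`LW h r = (LW 1 r).map (lmul h)`,
  `Bal` is preserved by `map (lmul h)`) the same holds for the translated pairs, for the reversed
  pairs too, hence for all equivalent `a, b`: `fE`.
-/

namespace Pda3a14

open MulAction

namespace SResAAux

section generic

variable {Y X : Type*}

/-- chains of letters -/
def Ch (tl hd : Y → X) : X → List Y → X → Prop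
  | q, [], q' => q = q'
  | q, y :: L, q' => tl y = q ∧ Ch tl hd (hd y) L q'

theorem ch_append (tl hd : Y → X) : ∀ (L1 L2 : List Y) (q q' : X),
    Ch tl hd q (L1 ++ L2) q' ↔ ∃ d, Ch tl hd q L1 d ∧ Ch tl hd d L2 q'
  | [], L2, q, q' => by
    constructor
    · intro h
      exact ⟨q, rfl, h⟩
    · rintro ⟨d, h1, h2⟩
      have h1' : q = d := h1
      subst h1'
      exact h2
  | y :: L1, L2, q, q' => by
    constructor
    · rintro ⟨h1, h2⟩
      obtain ⟨d, h3, h4⟩ := (ch_append tl hd L1 L2 _ _).1 h2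
      exact ⟨d, ⟨h1, h3⟩, h4⟩
    · rintro ⟨d, ⟨h1, h3⟩, h4⟩
      exact ⟨h1, (ch_append tl hd L1 L2 _ _).2 ⟨d, h3, h4⟩⟩

theorem ch_ofFn (tl hd : Y → X) : ∀ (k : ℕ) (y : Fin k → Y) (q : ℕ → X),
    (∀ i : Fin k, tl (y i) = q i) → (∀ i : Fin k, hd (y i) = q (i + 1)) →
    Ch tl hd (q 0) (List.ofFn y) (q k)
  | 0, y, q, h1, h2 => by
    rw [List.ofFn_zero]
    exact rfl
  | k + 1, y, q, h1, h2 => by
    rw [List.ofFn_succ]
    refine ⟨h1 0, ?_⟩
    have h3 := ch_ofFn tl hd k (fun i => y i.succ) (fun i => q (i + 1))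
      (fun i => h1 i.succ) (fun i => h2 i.succ)
    have h4 : hd (y 0) = q (0 + 1) := h2 0
    rw [h4]
    exact h3

theorem isW_of_ch {V : Type*} (T : SimpleGraph V) (tl hd : Y → V) (had : ∀ y, T.Adj (tl y) (hd y)) :
    ∀ (L : List Y) (q q' : V), Ch tl hd q L q' → IsW T tl hd q L q'
  | [], q, q', h => h
  | y :: L, q, q', h => by
    obtain ⟨h1, h2⟩ := h
    refine ⟨h1, ?_, isW_of_ch T tl hd had L _ _ h2⟩
    rw [← h1]
    exact had y

theorem bal_map {rev : Y → Y} (φ : Y → Y) (hφ : ∀ y, φ (rev y) = rev (φ y)) {L : List Y}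
    {Q : List (Y × Y)} (h : Bal rev L Q) :
    Bal rev (L.map φ) (Q.map fun p => (φ p.1, φ p.2)) := by
  induction h with
  | nil => exact Bal.nil
  | @node a b L1 L2 P1 P2 h1 h2 ih1 ih2 =>
    have := Bal.node (a := φ a) (b := φ b) ih1 ih2
    simpa [hφ] using this

theorem bal_sum {M : Type*} [AddCommGroup M] {rev : Y → Y} {r : Y → Y → Prop} (ε : Y → M)
    (h1 : ∀ y, ε (rev y) = -ε y) (h2 : ∀ a b, r a b → ε a = ε b) {L : List Y}
    {Q : List (Y × Y)} (h : Bal rev L Q) (hQ : ∀ p ∈ Q, r p.1 p.2) : (L.map ε).sum = 0 := by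
  induction h with
  | nil => rfl
  | @node a b L1 L2 P1 P2 hb1 hb2 ih1 ih2 =>
    have e1 := ih1 (fun p hp => hQ p (by simp [hp]))
    have e2 := ih2 (fun p hp => hQ p (by simp [hp]))
    have e3 : ε a = ε (rev b) := h2 _ _ (hQ (a, rev b) (by simp))
    rw [h1] at e3
    rw [List.map_cons, List.sum_cons, List.map_append, List.sum_append, List.map_cons,
      List.sum_cons, e1, e2, e3]
    abel

theorem bal_ch {M : Type*} [AddCommGroup M] {rev : Y → Y} {r : Y → Y → Prop} (ε : Y → M)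
    (h1 : ∀ y, ε (rev y) = -ε y) (h2 : ∀ a b, r a b → ε a = ε b) (fs ft : Y → M)
    (hs : ∀ y, fs (rev y) = ft y) (ht : ∀ y, ft (rev y) = fs y) (hst : ∀ y, ft y = fs y + ε y)
    {L : List Y} {Q : List (Y × Y)} (h : Bal rev L Q) (hQ : ∀ p ∈ Q, r p.1 p.2) :
    ∀ c c', Ch fs ft c L c' → c' = c ∧ ∀ p ∈ Q, fs p.1 = fs p.2 ∧ ft p.1 = ft p.2 := by
  induction h with
  | nil =>
    intro c c' hc
    have hc' : c = c' := hc
    exact ⟨hc'.symm, fun p hp => by simp at hp⟩
  | @node a b L1 L2 P1 P2 hb1 hb2 ih1 ih2 =>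
    intro c c' hc
    obtain ⟨ha, hc2⟩ := hc
    obtain ⟨d, hd1, hd2⟩ := (ch_append fs ft L1 (b :: L2) _ _).1 hc2
    obtain ⟨hb, hc3⟩ := hd2
    obtain ⟨e1, i1⟩ := ih1 (fun p hp => hQ p (by simp [hp])) _ _ hd1
    obtain ⟨e2, i2⟩ := ih2 (fun p hp => hQ p (by simp [hp])) _ _ hc3
    have e3 : ε a = ε (rev b) := h2 _ _ (hQ (a, rev b) (by simp))
    rw [h1] at e3
    have e4 : ft b = fs a := by
      rw [hst b, hb, e1, hst a, e3]
      abel
    refine ⟨by rw [e2, e4, ha], ?_⟩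
    intro p hp
    rw [List.mem_cons, List.mem_append] at hp
    rcases hp with hp | hp | hp
    · subst hp
      refine ⟨?_, ?_⟩
      · show fs a = fs (rev b)
        rw [hs, e4]
      · show ft a = ft (rev b)
        rw [ht, hb, e1]
    · exact i1 p hp
    · exact i2 p hp

end generic

section

variable {H : Type} [Group H] {n : ℕ} {ℓ : Fin n → ℕ}

/-- the crossing number `i` of the path of `s` -/
def cr (ℓ : Fin n → ℕ) (h : H) (s : Fin n) (i : Fin (ℓ s)) : Cr H ℓ :=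
  (h, (⟨(s, (i : ℕ)), i.2⟩, true))

omit [Group H] in
theorem rev_rev (y : Cr H ℓ) : y.rev.rev = y := by
  rcases y with ⟨h, c, b⟩
  simp [Cr.rev]

omit [Group H] in
theorem src_rev (y : Cr H ℓ) : y.rev.src = y.tgt := by
  rcases y with ⟨h, c, b⟩
  cases b <;> rfl

omit [Group H] in
theorem tgt_rev (y : Cr H ℓ) : y.rev.tgt = y.src := by
  rcases y with ⟨h, c, b⟩
  cases b <;> rfl

theorem rev_lmul (k : H) (y : Cr H ℓ) : Cr.rev (lmul k y) = lmul k y.rev := rfl

theorem lmul_lmul (k k' : H) (y : Cr H ℓ) : (lmul k (lmul k' y) : Cr H ℓ) = lmul (k * k') y := by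
  rcases y with ⟨h, c⟩
  simp [lmul, mul_assoc]

/-- forward path of the letter `s` -/
def seg (ℓ : Fin n → ℕ) (h : H) (s : Fin n) : List (Cr H ℓ) := List.ofFn fun i => cr ℓ h s i

/-- backward path of the letter `s` -/
def segr (ℓ : Fin n → ℕ) (h : H) (s : Fin n) : List (Cr H ℓ) :=
  List.ofFn fun i => (cr ℓ h s (Fin.rev i)).rev

/-- the path of a word -/
def LW (ℓ : Fin n → ℕ) (g : Fin n → H) : H → List (Fin n × Bool) → List (Cr H ℓ)
  | _, [] => []
  | h, (s, true) :: w => seg ℓ h s ++ LW ℓ g (h * g s) w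
  | h, (s, false) :: w => segr ℓ (h * (g s)⁻¹) s ++ LW ℓ g (h * (g s)⁻¹) w

theorem LW_lmul (g : Fin n → H) (k : H) : ∀ (w : List (Fin n × Bool)) (h : H),
    LW ℓ g (k * h) w = (LW ℓ g h w).map (lmul k)
  | [], h => rfl
  | (s, true) :: w, h => by
    show seg ℓ (k * h) s ++ LW ℓ g (k * h * g s) w = _
    rw [mul_assoc, LW_lmul g k w (h * g s)]
    show _ = (seg ℓ h s ++ LW ℓ g (h * g s) w).map (lmul k)
    rw [List.map_append]
    congr 1
    unfold seg
    rw [List.map_ofFn]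
    rfl
  | (s, false) :: w, h => by
    show segr ℓ (k * h * (g s)⁻¹) s ++ LW ℓ g (k * h * (g s)⁻¹) w = _
    rw [mul_assoc, LW_lmul g k w (h * (g s)⁻¹)]
    show _ = (segr ℓ (h * (g s)⁻¹) s ++ LW ℓ g (h * (g s)⁻¹) w).map (lmul k)
    rw [List.map_append]
    congr 1
    unfold segr
    rw [List.map_ofFn]
    rfl

theorem ch_seg {X : Type*} (g : Fin n → H) (F : Pt H n → X)
    (F0 : ∀ h s, F (h, some (s, 0)) = F (h, none))
    (Fl : ∀ h s, F (h, some (s, ℓ s)) = F (h * g s, none)) (h : H) (s : Fin n) :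
    Ch (fun y : Cr H ℓ => F y.src) (fun y : Cr H ℓ => F y.tgt) (F (h, none)) (seg ℓ h s)
      (F (h * g s, none)) := by
  rw [← F0 h s, ← Fl h s]
  unfold seg
  refine ch_ofFn _ _ (ℓ s) (fun i => cr ℓ h s i) (fun i => F (h, some (s, i))) ?_ ?_
  · intro i
    rfl
  · intro i
    rfl

theorem ch_segr {X : Type*} (g : Fin n → H) (F : Pt H n → X)
    (F0 : ∀ h s, F (h, some (s, 0)) = F (h, none))
    (Fl : ∀ h s, F (h, some (s, ℓ s)) = F (h * g s, none)) (h : H) (s : Fin n) :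
    Ch (fun y : Cr H ℓ => F y.src) (fun y : Cr H ℓ => F y.tgt) (F (h * g s, none)) (segr ℓ h s)
      (F (h, none)) := by
  have key := ch_ofFn (fun y : Cr H ℓ => F y.src) (fun y : Cr H ℓ => F y.tgt) (ℓ s)
    (fun i => (cr ℓ h s (Fin.rev i)).rev) (fun i => F (h, some (s, ℓ s - i))) ?_ ?_
  · simp only [Nat.sub_zero, Nat.sub_self] at key
    rw [F0 h s, Fl h s] at key
    exact key
  · intro i
    show F (cr ℓ h s (Fin.rev i)).rev.src = F (h, some (s, ℓ s - i))
    rw [src_rev]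
    show F (h, some (s, ((Fin.rev i : Fin (ℓ s)) : ℕ) + 1)) = F (h, some (s, ℓ s - i))
    rw [Fin.val_rev]
    have e : ℓ s - (↑i + 1) + 1 = ℓ s - ↑i := by have := i.2; omega
    rw [e]
  · intro i
    show F (cr ℓ h s (Fin.rev i)).rev.tgt = F (h, some (s, ℓ s - (i + 1)))
    rw [tgt_rev]
    show F (h, some (s, ((Fin.rev i : Fin (ℓ s)) : ℕ))) = F (h, some (s, ℓ s - (i + 1)))
    rw [Fin.val_rev]

end

section

variable {H : Type} [Group H] (P : FinPres H) {ℓ : Fin P.n → ℕ}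

theorem ch_LW {X : Type*} (F : Pt H P.n → X)
    (F0 : ∀ h s, F (h, some (s, 0)) = F (h, none))
    (Fl : ∀ h s, F (h, some (s, ℓ s)) = F (h * P.π (FreeGroup.of s), none)) :
    ∀ (w : List (Fin P.n × Bool)) (h : H),
    Ch (fun y : Cr H ℓ => F y.src) (fun y : Cr H ℓ => F y.tgt) (F (h, none))
      (LW ℓ (fun s => P.π (FreeGroup.of s)) h w) (F (h * P.π (FreeGroup.mk w), none))
  | [], h => by
    show F (h, none) = F (h * P.π (FreeGroup.mk []), none)
    rw [← FreeGroup.one_eq_mk, map_one, mul_one]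
  | (s, true) :: w, h => by
    have h1 := ch_LW F F0 Fl w (h * P.π (FreeGroup.of s))
    have e : FreeGroup.mk ((s, true) :: w) = FreeGroup.of s * FreeGroup.mk w := rfl
    rw [e, map_mul, ← mul_assoc]
    exact (ch_append _ _ _ _ _ _).2 ⟨_, ch_seg _ F F0 Fl h s, h1⟩
  | (s, false) :: w, h => by
    have h1 := ch_LW F F0 Fl w (h * (P.π (FreeGroup.of s))⁻¹)
    have e : FreeGroup.mk ((s, false) :: w) = (FreeGroup.of s)⁻¹ * FreeGroup.mk w := rfl
    rw [e, map_mul, map_inv, ← mul_assoc]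
    have h2 := ch_segr (fun s => P.π (FreeGroup.of s)) F F0 Fl (h * (P.π (FreeGroup.of s))⁻¹) s
    simp only [inv_mul_cancel_right] at h2
    exact (ch_append _ _ _ _ _ _).2 ⟨_, h2, h1⟩

end

section

variable {H : Type} [Group H] {V : Type} [MulAction H V] {n : ℕ} {ℓ : Fin n → ℕ}

theorem pos_smul (v0 : V) (z : Fin n → ℕ → V) (k : H) (p : Pt H n) :
    Pt.pos v0 z (lmul k p) = k • Pt.pos v0 z p := by
  rcases p with ⟨h, _ | ⟨s, i⟩⟩
  · exact mul_smul k h v0
  · exact mul_smul k h (z s i)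

theorem src_lmul (k : H) (y : Cr H ℓ) : Cr.src (lmul k y) = lmul k y.src := rfl

theorem tgt_lmul (k : H) (y : Cr H ℓ) : Cr.tgt (lmul k y) = lmul k y.tgt := rfl

theorem finite_C (ℓ : Fin n → ℕ) : Finite ({c : Fin n × ℕ // c.2 < ℓ c.1} × Bool) := by
  have : Finite {c : Fin n × ℕ // c.2 < ℓ c.1} := by
    refine Finite.of_injective
      (fun c => (⟨c.1.1, ⟨c.1.2, c.2⟩⟩ : Σ s : Fin n, Fin (ℓ s))) ?_
    rintro ⟨⟨s, i⟩, hi⟩ ⟨⟨s', i'⟩, hi'⟩ h
    simp only [Sigma.mk.injEq] at h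
    obtain ⟨h1, h2⟩ := h
    subst h1
    simp only [heq_eq_eq, Fin.mk.injEq] at h2
    subst h2
    rfl
  infer_instance

end

theorem eqv_le {α : Type*} {r s : α → α → Prop} (hrefl : ∀ a, s a a)
    (hsymm : ∀ a b, s a b → s b a) (htrans : ∀ a b c, s a b → s b c → s a c)
    (h : ∀ a b, r a b → s a b) {a b : α} (hab : Relation.EqvGen r a b) : s a b := by
  induction hab with
  | rel x y hxy => exact h _ _ hxy
  | refl x => exact hrefl x
  | symm x y _ ih => exact hsymm _ _ ih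
  | trans x y w _ _ ih1 ih2 => exact htrans _ _ _ ih1 ih2

end SResAAux

open SResAAux

theorem exists_resData {H : Type} [Group H] {V : Type} [MulAction H V] (P : FinPres H)
    (T : SimpleGraph V) (hT : T.IsTree)
    (hadj : ∀ (h : H) (x y : V), T.Adj x y → T.Adj (h • x) (h • y)) :
    Nonempty (ResData (V := V) (fun s : Fin P.n => P.π (FreeGroup.of s)) T) := by
  classical
  obtain ⟨v0⟩ := hT.1.nonempty
  obtain ⟨ℓ, z, z0, zl, zadj⟩ : ∃ (ℓ : Fin P.n → ℕ) (z : Fin P.n → ℕ → V),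
      (∀ s, z s 0 = v0) ∧ (∀ s, z s (ℓ s) = P.π (FreeGroup.of s) • v0) ∧
      ∀ s i, i < ℓ s → T.Adj (z s i) (z s (i + 1)) := by
    have hw : ∀ s : Fin P.n, Nonempty (T.Walk v0 (P.π (FreeGroup.of s) • v0)) :=
      fun s => hT.1.preconnected v0 _
    refine ⟨fun s => (hw s).some.length, fun s i => (hw s).some.getVert i, ?_, ?_, ?_⟩
    · intro s
      exact (hw s).some.getVert_zero
    · intro s
      exact (hw s).some.getVert_length
    · intro s i hi
      exact (hw s).some.adj_getVert_succ hi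
  have pos0 : ∀ (h : H) (s : Fin P.n),
      Pt.pos v0 z (h, some (s, 0)) = Pt.pos v0 z (h, none) := by
    intro h s
    show h • z s 0 = h • v0
    rw [z0]
  have posl : ∀ (h : H) (s : Fin P.n), Pt.pos v0 z (h, some (s, ℓ s)) =
      Pt.pos v0 z (h * P.π (FreeGroup.of s), none) := by
    intro h s
    show h • z s (ℓ s) = (h * P.π (FreeGroup.of s)) • v0
    rw [zl, mul_smul]
  have had : ∀ y : Cr H ℓ, T.Adj (Pt.pos v0 z y.src) (Pt.pos v0 z y.tgt) := by
    rintro ⟨h, ⟨⟨s, i⟩, hi⟩, b⟩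
    cases b with
    | true => exact hadj h _ _ (zadj s i hi)
    | false => exact (hadj h _ _ (zadj s i hi)).symm
  have hrel : ∀ r ∈ P.R, P.π r = 1 := by
    intro r hr
    have h1 : r ∈ P.π.ker := by
      rw [P.ker]
      exact Subgroup.subset_normalClosure hr
    exact h1
  obtain ⟨d, hd1, -, hd3⟩ := exists_dir T hT
  have hB : ∀ r : FreeGroup (Fin P.n), ∃ Q : List (Cr H ℓ × Cr H ℓ),
      (r ∈ P.R → Bal Cr.rev (LW ℓ (fun s => P.π (FreeGroup.of s)) 1 r.toWord) Q) ∧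
      ∀ p ∈ Q, Pt.pos v0 z p.1.src = Pt.pos v0 z p.2.src ∧
        Pt.pos v0 z p.1.tgt = Pt.pos v0 z p.2.tgt := by
    intro r
    by_cases hr : r ∈ P.R
    · have h1 := ch_LW P (Pt.pos v0 z) pos0 posl r.toWord 1
      rw [FreeGroup.mk_toWord, hrel r hr, mul_one] at h1
      have h2 := isW_of_ch T _ _ had _ _ _ h1
      obtain ⟨Q, hQ1, hQ2⟩ := exists_bal T d hd1 hd3 (fun y : Cr H ℓ => Pt.pos v0 z y.src)
        (fun y : Cr H ℓ => Pt.pos v0 z y.tgt) Cr.rev (fun y => by rw [src_rev])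
        (fun y => by rw [tgt_rev]) _ _ h2
      exact ⟨Q, fun _ => hQ1, hQ2⟩
    · exact ⟨[], fun h => (hr h).elim, fun p hp => by simp at hp⟩
  choose Qf hQ1 hQ2 using hB
  obtain ⟨Q0, hQ0⟩ : ∃ Q0 : List (Cr H ℓ × Cr H ℓ), ∀ p, p ∈ Q0 ↔ ∃ r ∈ P.R, p ∈ Qf r :=
    ⟨P.R.toList.flatMap Qf, fun p => by simp⟩
  obtain ⟨Q, hQ⟩ : ∃ Q : List (Cr H ℓ × Cr H ℓ), ∀ p, p ∈ Q ↔ p ∈ Q0 ∨
      ∃ q ∈ Q0, p = (q.1.rev, q.2.rev) :=
    ⟨Q0 ++ Q0.map (fun q => (q.1.rev, q.2.rev)), fun p => by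
      rw [List.mem_append, List.mem_map]
      constructor
      · rintro (h | ⟨q, hq, h⟩)
        · exact Or.inl h
        · exact Or.inr ⟨q, hq, h.symm⟩
      · rintro (h | ⟨q, hq, h⟩)
        · exact Or.inl h
        · exact Or.inr ⟨q, hq, h.symm⟩⟩
  obtain ⟨E, hE⟩ : ∃ E : Setoid (Cr H ℓ), ∀ a b, E a b ↔ Relation.EqvGen (GRel Q) a b :=
    ⟨Relation.EqvGen.setoid (GRel Q), fun _ _ => Iff.rfl⟩
  have hErel : ∀ (h : H) (p : Cr H ℓ × Cr H ℓ), p ∈ Q → E (lmul h p.1) (lmul h p.2) := by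
    intro h p hp
    exact (hE _ _).2 (Relation.EqvGen.rel _ _ ⟨h, p, hp, rfl, rfl⟩)
  have hErefl : ∀ a, E a a := fun a => (hE _ _).2 (Relation.EqvGen.refl a)
  have hEsymm : ∀ a b, E a b → E b a := fun a b h =>
    (hE _ _).2 (Relation.EqvGen.symm _ _ ((hE _ _).1 h))
  have hEtrans : ∀ a b c, E a b → E b c → E a c := fun a b c h h' =>
    (hE _ _).2 (Relation.EqvGen.trans _ _ _ ((hE _ _).1 h) ((hE _ _).1 h'))
  have hEle : ∀ s : Cr H ℓ → Cr H ℓ → Prop, (∀ a, s a a) → (∀ a b, s a b → s b a) →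
      (∀ a b c, s a b → s b c → s a c) →
      (∀ (h : H) (p : Cr H ℓ × Cr H ℓ), p ∈ Q → s (lmul h p.1) (lmul h p.2)) →
      ∀ a b, E a b → s a b := by
    intro s h1 h2 h3 h4 a b hab
    refine eqv_le h1 h2 h3 ?_ ((hE a b).1 hab)
    rintro a' b' ⟨h, p, hp, rfl, rfl⟩
    exact h4 h p hp
  have hmul : ∀ (h : H) (a b : Cr H ℓ), E a b → E (lmul h a) (lmul h b) := by
    intro h
    refine hEle (fun a b => E (lmul h a) (lmul h b)) (fun a => hErefl _)
      (fun a b => hEsymm _ _) (fun a b c => hEtrans _ _ _) ?_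
    intro k p hp
    show E (lmul h (lmul k p.1)) (lmul h (lmul k p.2))
    rw [lmul_lmul, lmul_lmul]
    exact hErel _ _ hp
  have hrev : ∀ a b : Cr H ℓ, E a b → E a.rev b.rev := by
    refine hEle (fun a b => E a.rev b.rev) (fun a => hErefl _)
      (fun a b => hEsymm _ _) (fun a b c => hEtrans _ _ _) ?_
    intro k p hp
    show E (Cr.rev (lmul k p.1)) (Cr.rev (lmul k p.2))
    rw [rev_lmul, rev_lmul]
    refine hErel k (p.1.rev, p.2.rev) ((hQ _).2 ?_)
    rcases (hQ p).1 hp with h | ⟨q, hq, h⟩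
    · exact Or.inr ⟨p, h, rfl⟩
    · left
      rw [h]
      simp only [rev_rev]
      exact hq
  have hposQ : ∀ p ∈ Q, Pt.pos v0 z p.1.src = Pt.pos v0 z p.2.src ∧
      Pt.pos v0 z p.1.tgt = Pt.pos v0 z p.2.tgt := by
    intro p hp
    rcases (hQ p).1 hp with h | ⟨q, hq, h⟩
    · obtain ⟨r, -, hr⟩ := (hQ0 p).1 h
      exact hQ2 r p hr
    · obtain ⟨r, -, hr⟩ := (hQ0 q).1 hq
      have h2 := hQ2 r q hr
      rw [h]
      simp only [src_rev, tgt_rev]
      exact ⟨h2.2, h2.1⟩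
  have hpos : ∀ a b : Cr H ℓ, E a b → Pt.pos v0 z a.src = Pt.pos v0 z b.src ∧
      Pt.pos v0 z a.tgt = Pt.pos v0 z b.tgt := by
    refine hEle (fun a b => Pt.pos v0 z a.src = Pt.pos v0 z b.src ∧
      Pt.pos v0 z a.tgt = Pt.pos v0 z b.tgt) (fun a => ⟨rfl, rfl⟩)
      (fun a b h => ⟨h.1.symm, h.2.symm⟩)
      (fun a b c h h' => ⟨h.1.trans h'.1, h.2.trans h'.2⟩) ?_
    intro k p hp
    have h1 := hposQ p hp
    simp only [src_lmul, tgt_lmul, pos_smul]
    exact ⟨by rw [h1.1], by rw [h1.2]⟩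
  have hfg : ∀ y : Cr H ℓ, ∃ D : Subgroup H, D.FG ∧ ∀ h, h ∈ D ↔ E (lmul h y) y := by
    intro y
    have := finite_C ℓ
    obtain ⟨D, hD, hD'⟩ := fg_stab_class Q y
    exact ⟨D, hD, fun h => (hD' h).trans (hE _ _).symm⟩
  -- heights
  have e1 : ∀ y : Cr H ℓ, eps E y.rev = -eps E y := by
    intro y
    unfold eps
    rw [rev_rev, neg_sub]
  have e2 : ∀ a b : Cr H ℓ, E a b → eps E a = eps E b := by
    intro a b hab
    unfold eps
    have h1 : Quotient.mk E a = Quotient.mk E b := @Quotient.sound _ E a b hab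
    have h2 : Quotient.mk E a.rev = Quotient.mk E b.rev := @Quotient.sound _ E _ _ (hrev a b hab)
    rw [h1, h2]
  have hseg : ∀ (h : H) (s : Fin P.n), ((seg ℓ h s).map (eps E)).sum =
      ∑ i : Fin (ℓ s), eps E (cr ℓ h s i) := by
    intro h s
    unfold seg
    rw [List.map_ofFn, List.sum_ofFn]
    rfl
  have hsegr : ∀ (h : H) (s : Fin P.n), ((segr ℓ h s).map (eps E)).sum =
      -∑ i : Fin (ℓ s), eps E (cr ℓ h s i) := by
    intro h s
    unfold segr
    rw [List.map_ofFn, List.sum_ofFn, ← Finset.sum_neg_distrib]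
    refine Fintype.sum_equiv Fin.revPerm _ _ ?_
    intro i
    show eps E (cr ℓ h s (Fin.rev i)).rev = -eps E (cr ℓ h s (Fin.rev i))
    rw [e1]
  have hbalh : ∀ r ∈ P.R, ∀ h : H,
      Bal Cr.rev (LW ℓ (fun s => P.π (FreeGroup.of s)) h r.toWord)
        ((Qf r).map fun p => (lmul h p.1, lmul h p.2)) := by
    intro r hr h
    have h1 := bal_map (rev := Cr.rev) (lmul h) (fun y => (rev_lmul h y).symm) (hQ1 r hr)
    rw [← LW_lmul, mul_one] at h1
    exact h1
  have hballE : ∀ r ∈ P.R, ∀ h : H, ∀ p ∈ (Qf r).map fun p => (lmul h p.1, lmul h p.2),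
      E p.1 p.2 := by
    intro r hr h p hp
    rw [List.mem_map] at hp
    obtain ⟨q, hq, rfl⟩ := hp
    exact hErel h q ((hQ q).2 (Or.inl ((hQ0 q).2 ⟨r, hr, hq⟩)))
  obtain ⟨f0, hf0⟩ := exists_cocycle P (M := Quotient E → ℤ)
    (fun s h => ∑ i : Fin (ℓ s), eps E (cr ℓ h s i))
    (fun h w => ((LW ℓ (fun s => P.π (FreeGroup.of s)) h w).map (eps E)).sum)
    (fun h => rfl)
    (fun h s w => by
      show ((seg ℓ h s ++ LW ℓ (fun s => P.π (FreeGroup.of s))
        (h * P.π (FreeGroup.of s)) w).map (eps E)).sum = _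
      rw [List.map_append, List.sum_append, hseg])
    (fun h s w => by
      show ((segr ℓ (h * (P.π (FreeGroup.of s))⁻¹) s ++ LW ℓ (fun s => P.π (FreeGroup.of s))
        (h * (P.π (FreeGroup.of s))⁻¹) w).map (eps E)).sum = _
      rw [List.map_append, List.sum_append, hsegr])
    (fun r hr h => bal_sum (r := fun a b => E a b) (eps E) e1 e2 (hbalh r hr h)
      (hballE r hr h))
  obtain ⟨f, hfn, hfs⟩ : ∃ f : Pt H P.n → Quotient E → ℤ, (∀ h, f (h, none) = f0 h) ∧
      ∀ h s i, f (h, some (s, i)) = f0 h + ∑ j ∈ Finset.range i,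
        if hj : j < ℓ s then eps E (cr ℓ h s ⟨j, hj⟩) else 0 :=
    ⟨fun p => match p with
      | (h, none) => f0 h
      | (h, some (s, i)) => f0 h + ∑ j ∈ Finset.range i,
          if hj : j < ℓ s then eps E (cr ℓ h s ⟨j, hj⟩) else 0,
      fun h => rfl, fun h s i => rfl⟩
  have fstep : ∀ y : Cr H ℓ, f y.tgt = f y.src + eps E y := by
    rintro ⟨h, ⟨⟨s, i⟩, hi⟩, b⟩
    cases b with
    | true =>
      show f (h, some (s, i + 1)) = f (h, some (s, i)) + eps E (cr ℓ h s ⟨i, hi⟩)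
      have hi' : i < ℓ s := hi
      rw [hfs, hfs, Finset.sum_range_succ, dif_pos hi', add_assoc]
    | false =>
      show f (h, some (s, i)) = f (h, some (s, i + 1)) + eps E (cr ℓ h s ⟨i, hi⟩).rev
      have hi' : i < ℓ s := hi
      rw [hfs, hfs, Finset.sum_range_succ, dif_pos hi', e1]
      abel
  have fz : ∀ h s, f (h, some (s, 0)) = f (h, none) := by
    intro h s
    rw [hfs, hfn, Finset.sum_range_zero, add_zero]
  have fl : ∀ h s, f (h, some (s, ℓ s)) = f (h * P.π (FreeGroup.of s), none) := by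
    intro h s
    rw [hfs, hfn, hf0, Finset.sum_range]
    congr 1
    refine Finset.sum_congr rfl ?_
    intro i _
    rw [dif_pos i.2]
  have hfE : ∀ a b : Cr H ℓ, E a b → f a.src = f b.src ∧ f a.tgt = f b.tgt := by
    refine hEle (fun a b => f a.src = f b.src ∧ f a.tgt = f b.tgt) (fun a => ⟨rfl, rfl⟩)
      (fun a b h => ⟨h.1.symm, h.2.symm⟩)
      (fun a b c h h' => ⟨h.1.trans h'.1, h.2.trans h'.2⟩) ?_
    have key : ∀ (k : H) (q : Cr H ℓ × Cr H ℓ), q ∈ Q0 →
        f (Cr.src (lmul k q.1)) = f (Cr.src (lmul k q.2)) ∧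
        f (Cr.tgt (lmul k q.1)) = f (Cr.tgt (lmul k q.2)) := by
      intro k q hq
      obtain ⟨r, hr, hqr⟩ := (hQ0 q).1 hq
      have h1 := ch_LW P f fz fl r.toWord k
      have h2 := (bal_ch (r := fun a b => E a b) (eps E) e1 e2 (fun y : Cr H ℓ => f y.src)
        (fun y : Cr H ℓ => f y.tgt) (fun y => by simp only [src_rev])
        (fun y => by simp only [tgt_rev]) fstep (hbalh r hr k) (hballE r hr k) _ _ h1).2
      exact h2 (lmul k q.1, lmul k q.2) (List.mem_map.2 ⟨q, hqr, rfl⟩)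
    intro k p hp
    rcases (hQ p).1 hp with h | ⟨q, hq, h⟩
    · exact key k p h
    · have h2 := key k q hq
      rw [h]
      show f (Cr.src (lmul k q.1.rev)) = f (Cr.src (lmul k q.2.rev)) ∧
        f (Cr.tgt (lmul k q.1.rev)) = f (Cr.tgt (lmul k q.2.rev))
      rw [← rev_lmul, ← rev_lmul, src_rev, src_rev, tgt_rev, tgt_rev]
      exact ⟨h2.2, h2.1⟩
  exact ⟨{
    v0 := v0
    ℓ := ℓ
    z := z
    z0 := z0
    zl := zl
    zadj := zadj
    E := E
    Emul := hmul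
    Erev := hrev
    Esrc := fun a b h => (hpos a b h).1
    Etgt := fun a b h => (hpos a b h).2
    Efg := hfg
    f := f
    fstep := fstep
    f0 := fz
    fl := fl
    fE := fun a b h => (hfE a b h).1 }⟩

end Pda3a14
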