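import Pool.Agent.Lib.Pda3a14.SResD

/-!
# The tree of tracks (module SResB)

## Paper proof of `resolution_of_data`

* Facts: `ε (rev y) = - ε y`; `ε y` depends on the class of `y` only; `y ≉ rev y` (the positions of
  `src y` and `src (rev y) = tgt y` are adjacent in `T`, so different), so `ε y ≠ 0` and
  `ε y = ε y'` implies `y ≈ y'` (evaluate at the class of `y`: the value is `1`, and the value of
  `ε y'` is `1` only at the class of `y'`).
* `V'` = quotient of `Pt H n` by the equivalence relation `∼` generated by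
  `(h, none) ∼ (h, some (s, 0))`, `(h, some (s, i)) ∼ (h g_s, none)` for `ℓ s ≤ i`... (better: let
  `V'` be a quotient of the points which are `none` or have `i ≤ ℓ s`; or replace `z s i`, `f` at
  `i > ℓ s` by their values at `ℓ s`), and, for `a ≈ b`, `src a ∼ src b` and `tgt a ∼ tgt b`.
  It is invariant under `H` (`lmul`); `pos` and `f` are constant on classes (`f (tgt a) = f (tgt b)`
  by `fstep`): `ϕ [p] = pos p`.
* `T'`: adjacency `[src y] - [tgt y]` for crossings `y` (symmetric by `rev`, irreflexive as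
  `f (tgt y) - f (src y) = ε y ≠ 0`). Connected: `[(h, none)]` and `[(h g_s, none)]` are joined by
  the path of the letter (and every point is on such a path), and the `g_s` generate `H`. Every edge
  `[src x] - [tgt x]` is a bridge: along an edge `[src y] - [tgt y]` different from it `y ≉ x` and
  `y ≉ rev x` (otherwise the endpoints agree), so the coordinate `[x]` of `f` does not change; but
  it changes by `1` along `x`. So `T'` is acyclic (`SimpleGraph.isAcyclic_iff_forall_edge_isBridge`
  or `..._adj_isBridge`), a tree.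
* Edge stabilizers: if `h` fixes `[src y]` and `[tgt y]` then `h y ≈ y`: `f (tgt (h y)) -
  f (src (h y)) = ε (h y)` equals `f (tgt y) - f (src y) = ε y`. Conversely `h y ≈ y` implies that
  `h` fixes both. So the edge stabilizer is `{h | h y ≈ y}`, finitely generated by `Efg`.
-/

namespace Pda3a14

open MulAction

namespace ResB

variable {H : Type} [Group H] {V : Type} [MulAction H V] {n : ℕ} {g : Fin n → H}
  {T : SimpleGraph V}

omit [Group H] in
theorem src_rev {ℓ : Fin n → ℕ} (y : Cr H ℓ) : Cr.src y.rev = Cr.tgt y := by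
  obtain ⟨h, ⟨⟨s, i⟩, hi⟩, b⟩ := y
  cases b <;> rfl

omit [Group H] in
theorem tgt_rev {ℓ : Fin n → ℕ} (y : Cr H ℓ) : Cr.tgt y.rev = Cr.src y := by
  obtain ⟨h, ⟨⟨s, i⟩, hi⟩, b⟩ := y
  cases b <;> rfl

omit [Group H] in
theorem rev_rev {ℓ : Fin n → ℕ} (y : Cr H ℓ) : y.rev.rev = y := by
  obtain ⟨h, ⟨⟨s, i⟩, hi⟩, b⟩ := y
  cases b <;> rfl

/-- The generating relation. -/
inductive Step (D : ResData (V := V) g T) : Pt H n → Pt H n → Prop
  | zero (h : H) (s : Fin n) : Step D (h, none) (h, some (s, 0))
  | last (h : H) (s : Fin n) (i : ℕ) (hi : D.ℓ s ≤ i) : Step D (h, some (s, i)) (h * g s, none)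
  | src (a b : Cr H D.ℓ) (hab : D.E a b) : Step D a.src b.src

/-- The vertices. -/
def Vt (D : ResData (V := V) g T) : Type := Quot (Step D)

/-- The class of a point. -/
def mk (D : ResData (V := V) g T) (p : Pt H n) : Vt D := Quot.mk _ p

theorem mk_src {D : ResData (V := V) g T} {a b : Cr H D.ℓ} (h : D.E a b) :
    mk D a.src = mk D b.src := Quot.sound (Step.src a b h)

theorem mk_tgt {D : ResData (V := V) g T} {a b : Cr H D.ℓ} (h : D.E a b) :
    mk D a.tgt = mk D b.tgt := by
  rw [← src_rev, ← src_rev]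
  exact mk_src (D.Erev a b h)

theorem step_lmul {D : ResData (V := V) g T} (k : H) {p q : Pt H n} (h : Step D p q) :
    Step D (lmul k p) (lmul k q) := by
  cases h with
  | zero h s => exact Step.zero (k * h) s
  | last h s i hi =>
    have := Step.last (D := D) (k * h) s i hi
    rw [mul_assoc] at this
    exact this
  | src a b hab => exact Step.src (lmul k a) (lmul k b) (D.Emul k a b hab)

instance (D : ResData (V := V) g T) : MulAction H (Vt D) where
  smul k v := Quot.map (lmul k) (fun _ _ h => step_lmul k h) v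
  one_smul v := by
    induction v using Quot.ind with
    | mk p =>
      show mk D (lmul 1 p) = mk D p
      unfold lmul
      rw [one_mul]
  mul_smul k l v := by
    induction v using Quot.ind with
    | mk p =>
      show mk D (lmul (k * l) p) = mk D (lmul k (lmul l p))
      unfold lmul
      rw [mul_assoc]

theorem smul_mk (D : ResData (V := V) g T) (k : H) (p : Pt H n) :
    k • mk D p = mk D (lmul k p) := rfl

/-- The index cut off at the length. -/
def cut (D : ResData (V := V) g T) (p : Pt H n) : Pt H n :=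
  match p with
  | (h, none) => (h, none)
  | (h, some (s, i)) => (h, some (s, min i (D.ℓ s)))

theorem cut_src {D : ResData (V := V) g T} (y : Cr H D.ℓ) : cut D y.src = y.src := by
  obtain ⟨h, ⟨⟨s, i⟩, hi⟩, b⟩ := y
  have hi' : i < D.ℓ s := hi
  cases b
  · show ((h, some (s, min (i + 1) (D.ℓ s))) : Pt H n) = (h, some (s, i + 1))
    rw [min_eq_left (by omega)]
  · show ((h, some (s, min i (D.ℓ s))) : Pt H n) = (h, some (s, i))
    rw [min_eq_left (by omega)]

theorem cut_tgt {D : ResData (V := V) g T} (y : Cr H D.ℓ) : cut D y.tgt = y.tgt := by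
  rw [← src_rev]
  exact cut_src _

/-- The map to the tree. -/
def phi (D : ResData (V := V) g T) : Vt D → V :=
  Quot.lift (fun p => Pt.pos D.v0 D.z (cut D p)) (by
    intro p q h
    cases h with
    | zero h s =>
      show h • D.v0 = h • D.z s (min 0 (D.ℓ s))
      rw [Nat.zero_min, D.z0]
    | last h s i hi =>
      show h • D.z s (min i (D.ℓ s)) = (h * g s) • D.v0
      rw [min_eq_right hi, D.zl, mul_smul]
    | src a b hab =>
      show Pt.pos D.v0 D.z (cut D a.src) = Pt.pos D.v0 D.z (cut D b.src)
      rw [cut_src, cut_src]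
      exact D.Esrc a b hab)

/-- The height. -/
def ht (D : ResData (V := V) g T) : Vt D → Quotient D.E → ℤ :=
  Quot.lift (fun p => D.f (cut D p)) (by
    intro p q h
    cases h with
    | zero h s =>
      show D.f (h, none) = D.f (h, some (s, min 0 (D.ℓ s)))
      rw [Nat.zero_min, D.f0]
    | last h s i hi =>
      show D.f (h, some (s, min i (D.ℓ s))) = D.f (h * g s, none)
      rw [min_eq_right hi, D.fl]
    | src a b hab =>
      show D.f (cut D a.src) = D.f (cut D b.src)
      rw [cut_src, cut_src]
      exact D.fE a b hab)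

theorem phi_src {D : ResData (V := V) g T} (y : Cr H D.ℓ) :
    phi D (mk D y.src) = Pt.pos D.v0 D.z y.src := by
  show Pt.pos D.v0 D.z (cut D y.src) = _
  rw [cut_src]

theorem phi_tgt {D : ResData (V := V) g T} (y : Cr H D.ℓ) :
    phi D (mk D y.tgt) = Pt.pos D.v0 D.z y.tgt := by
  show Pt.pos D.v0 D.z (cut D y.tgt) = _
  rw [cut_tgt]

theorem ht_step {D : ResData (V := V) g T} (y : Cr H D.ℓ) :
    ht D (mk D y.tgt) = ht D (mk D y.src) + eps D.E y := by
  show D.f (cut D y.tgt) = D.f (cut D y.src) + eps D.E y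
  rw [cut_tgt, cut_src]
  exact D.fstep y

theorem pos_adj {D : ResData (V := V) g T}
    (hadj : ∀ (h : H) (x y : V), T.Adj x y → T.Adj (h • x) (h • y)) (y : Cr H D.ℓ) :
    T.Adj (Pt.pos D.v0 D.z y.src) (Pt.pos D.v0 D.z y.tgt) := by
  obtain ⟨h, ⟨⟨s, i⟩, hi⟩, b⟩ := y
  have h1 := hadj h _ _ (D.zadj s i hi)
  cases b
  · exact h1.symm
  · exact h1

theorem not_rev {D : ResData (V := V) g T}
    (hadj : ∀ (h : H) (x y : V), T.Adj x y → T.Adj (h • x) (h • y)) (y : Cr H D.ℓ) :
    ¬ D.E y y.rev := by
  intro h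
  have h1 := D.Esrc _ _ h
  rw [src_rev] at h1
  have h2 := pos_adj hadj y
  rw [h1] at h2
  exact T.loopless.irrefl _ h2

omit [Group H] in
open Classical in
theorem eps_apply {ℓ : Fin n → ℕ} (E : Setoid (Cr H ℓ)) (y x : Cr H ℓ) :
    eps E y (Quotient.mk E x) = (if E x y then 1 else 0) - (if E x y.rev then 1 else 0) := by
  unfold eps
  rw [Pi.sub_apply, Pi.single_apply, Pi.single_apply]
  congr 1
  · congr 1
    exact propext Quotient.eq
  · congr 1
    exact propext Quotient.eq

theorem eps_self {D : ResData (V := V) g T}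
    (hadj : ∀ (h : H) (x y : V), T.Adj x y → T.Adj (h • x) (h • y)) (y : Cr H D.ℓ) :
    eps D.E y (Quotient.mk D.E y) = 1 := by
  classical
  rw [eps_apply, if_pos (D.E.refl y), if_neg (not_rev hadj y)]
  rfl

theorem eps_inj {D : ResData (V := V) g T}
    (hadj : ∀ (h : H) (x y : V), T.Adj x y → T.Adj (h • x) (h • y)) {y y' : Cr H D.ℓ}
    (h : eps D.E y = eps D.E y') : D.E y y' := by
  classical
  have h1 := eps_self hadj y
  rw [h, eps_apply] at h1
  by_contra h2
  rw [if_neg h2] at h1
  split_ifs at h1 <;> omega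

/-- The tree of tracks. -/
def graph (D : ResData (V := V) g T)
    (hadj : ∀ (h : H) (x y : V), T.Adj x y → T.Adj (h • x) (h • y)) : SimpleGraph (Vt D) where
  Adj u v := ∃ y : Cr H D.ℓ, u = mk D y.src ∧ v = mk D y.tgt
  symm := ⟨by
    rintro u v ⟨y, rfl, rfl⟩
    exact ⟨y.rev, by rw [src_rev], by rw [tgt_rev]⟩⟩
  loopless := ⟨by
    rintro u ⟨y, h1, h2⟩
    have h3 := ht_step y
    rw [← h1, ← h2] at h3
    have h4 : eps D.E y = 0 := by simpa using h3
    have h5 := eps_self hadj y
    rw [h4] at h5
    simp at h5⟩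

section

variable (D : ResData (V := V) g T)
  (hadj : ∀ (h : H) (x y : V), T.Adj x y → T.Adj (h • x) (h • y))

theorem reach_path (k : H) (s : Fin n) : ∀ i ≤ D.ℓ s,
    (graph D hadj).Reachable (mk D (k, none)) (mk D (k, some (s, i))) := by
  intro i
  induction i with
  | zero =>
    intro _
    have : mk D (k, none) = mk D (k, some (s, 0)) := Quot.sound (Step.zero k s)
    rw [this]
  | succ i ih =>
    intro hi
    refine (ih (by omega)).trans (SimpleGraph.Adj.reachable ?_)
    exact ⟨(k, ⟨(s, i), by show i < D.ℓ s; omega⟩, true), rfl, rfl⟩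

theorem reach_letter (k : H) (s : Fin n) :
    (graph D hadj).Reachable (mk D (k, none)) (mk D (k * g s, none)) := by
  have h1 := reach_path D hadj k s (D.ℓ s) le_rfl
  have : mk D (k, some (s, D.ℓ s)) = mk D (k * g s, none) := Quot.sound (Step.last k s _ le_rfl)
  rwa [this] at h1

theorem reach_all (hg : Subgroup.closure (Set.range g) = ⊤) (h : H) :
    ∀ k : H, (graph D hadj).Reachable (mk D (k, none)) (mk D (k * h, none)) := by
  have hh : h ∈ Subgroup.closure (Set.range g) := by rw [hg]; trivial
  induction hh using Subgroup.closure_induction with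
  | mem x hx =>
    obtain ⟨s, rfl⟩ := hx
    exact fun k => reach_letter D hadj k s
  | one => intro k; rw [mul_one]
  | mul x y _ _ ihx ihy =>
    intro k
    have h1 := (ihx k).trans (ihy (k * x))
    rwa [mul_assoc] at h1
  | inv x _ ih =>
    intro k
    have h1 := ih (k * x⁻¹)
    rw [inv_mul_cancel_right] at h1
    exact h1.symm

theorem connected (hg : Subgroup.closure (Set.range g) = ⊤) : (graph D hadj).Connected := by
  have key : ∀ v : Vt D, (graph D hadj).Reachable (mk D (1, none)) v := by
    intro v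
    induction v using Quot.ind with
    | mk p =>
      obtain ⟨k, _ | ⟨s, i⟩⟩ := p
      · have h1 := reach_all D hadj hg k 1
        rw [one_mul] at h1
        exact h1
      · have h1 := reach_all D hadj hg k 1
        rw [one_mul] at h1
        rcases le_or_gt i (D.ℓ s) with hi | hi
        · exact h1.trans (reach_path D hadj k s i hi)
        · have h2 : mk D (k, some (s, i)) = mk D (k * g s, none) :=
            Quot.sound (Step.last k s i hi.le)
          have h3 := h1.trans (reach_letter D hadj k s)
          rw [← h2] at h3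
          exact h3
  have : Nonempty (Vt D) := ⟨mk D (1, none)⟩
  exact ⟨fun u v => (key u).symm.trans (key v)⟩

theorem acyclic : (graph D hadj).IsAcyclic := by
  classical
  rw [SimpleGraph.isAcyclic_iff_forall_adj_isBridge]
  rintro u v ⟨x, rfl, rfl⟩
  rw [SimpleGraph.isBridge_iff]
  intro hr
  have hconst : ∀ a b : Vt D, ((graph D hadj) \ SimpleGraph.fromEdgeSet
      {s(mk D x.src, mk D x.tgt)}).Reachable a b →
      ht D a (Quotient.mk D.E x) = ht D b (Quotient.mk D.E x) := by
    intro a b hab
    obtain ⟨w⟩ := hab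
    induction w with
    | nil => rfl
    | @cons p q r hpq _ ih =>
      rw [← ih]
      rw [SimpleGraph.sdiff_adj, SimpleGraph.fromEdgeSet_adj] at hpq
      obtain ⟨⟨y, rfl, rfl⟩, h2⟩ := hpq
      rw [ht_step y, Pi.add_apply, eps_apply]
      have h3 : ¬ D.E x y := by
        intro h
        apply h2
        refine ⟨?_, ?_⟩
        · rw [Set.mem_singleton_iff, mk_src h, mk_tgt h]
        · intro h4
          have h5 : (graph D hadj).Adj (mk D y.src) (mk D y.tgt) := ⟨y, rfl, rfl⟩
          exact h5.ne h4
      have h3' : ¬ D.E x y.rev := by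
        intro h
        apply h2
        refine ⟨?_, ?_⟩
        · rw [Set.mem_singleton_iff, mk_src h, mk_tgt h, src_rev, tgt_rev, Sym2.eq_swap]
        · intro h4
          have h5 : (graph D hadj).Adj (mk D y.src) (mk D y.tgt) := ⟨y, rfl, rfl⟩
          exact h5.ne h4
      rw [if_neg h3, if_neg h3']
      simp
  have h1 := hconst _ _ hr
  rw [ht_step x, Pi.add_apply, eps_self hadj x] at h1
  omega

end

end ResB

theorem resolution_of_data {H : Type} [Group H] {V : Type} [MulAction H V] {n : ℕ}
    (g : Fin n → H) (hg : Subgroup.closure (Set.range g) = ⊤)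
    (T : SimpleGraph V)
    (hadj : ∀ (h : H) (x y : V), T.Adj x y → T.Adj (h • x) (h • y))
    (D : ResData (V := V) g T) :
    ∃ (V' : Type) (_ : MulAction H V') (T' : SimpleGraph V') (ϕ : V' → V), T'.IsTree ∧
      (∀ (h : H) (x y : V'), T'.Adj x y → T'.Adj (h • x) (h • y)) ∧
      (∀ (h : H) (x : V'), ϕ (h • x) = h • ϕ x) ∧
      (∀ x y : V', T'.Adj x y → T.Adj (ϕ x) (ϕ y)) ∧
      ∀ x y : V', T'.Adj x y → (stabilizer H x ⊓ stabilizer H y).FG := by
  refine ⟨ResB.Vt D, inferInstance, ResB.graph D hadj, ResB.phi D,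
    ⟨ResB.connected D hadj hg, ResB.acyclic D hadj⟩, ?_, ?_, ?_, ?_⟩
  · rintro h x y ⟨c, rfl, rfl⟩
    exact ⟨lmul h c, rfl, rfl⟩
  · intro h x
    induction x using Quot.ind with
    | mk p =>
      obtain ⟨k, _ | ⟨s, i⟩⟩ := p
      · show (h * k) • D.v0 = h • k • D.v0
        rw [mul_smul]
      · show (h * k) • D.z s (min i (D.ℓ s)) = h • k • D.z s (min i (D.ℓ s))
        rw [mul_smul]
  · rintro x y ⟨c, rfl, rfl⟩
    rw [ResB.phi_src, ResB.phi_tgt]
    exact ResB.pos_adj hadj c
  · rintro x y ⟨c, rfl, rfl⟩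
    obtain ⟨K, hK, hKm⟩ := D.Efg c
    have : stabilizer H (ResB.mk D c.src) ⊓ stabilizer H (ResB.mk D c.tgt) = K := by
      ext h
      rw [Subgroup.mem_inf, mem_stabilizer_iff, mem_stabilizer_iff, hKm]
      constructor
      · rintro ⟨h1, h2⟩
        have h1' : ResB.mk D (Cr.src (lmul h c)) = ResB.mk D c.src := h1
        have h2' : ResB.mk D (Cr.tgt (lmul h c)) = ResB.mk D c.tgt := h2
        have e1 := ResB.ht_step (D := D) (lmul h c)
        have e2 := ResB.ht_step (D := D) c
        rw [h1', h2', e2] at e1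
        exact (ResB.eps_inj hadj (add_left_cancel e1).symm)
      · intro h1
        exact ⟨ResB.mk_src h1, ResB.mk_tgt h1⟩
    rw [this]
    exact hK

end Pda3a14
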