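import Pool.Agent.Lib.Pda3a14.SBal
import Pool.Agent.Lib.Pda3a14.SGpd
import Pool.Agent.Lib.Pda3a14.STree

/-!
# Resolutions: data (tracks and heights)

`g s` (`s : Fin n`) are generators of `H`; for every `s` there is a path `z s 0 = v0, z s 1, ...,
z s (ℓ s) = g s • v0` in the tree `T`.
-/

namespace Pda3a14

open MulAction

section

variable {H : Type} [Group H] {V : Type} [MulAction H V] {n : ℕ}

/-- Crossings: `(h, (s, i), b)` with `i < ℓ s` is the `i`-th edge of the path of `s` translated by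
`h`, forwards for `b = true` and backwards for `b = false`. -/
abbrev Cr (H : Type) {n : ℕ} (ℓ : Fin n → ℕ) : Type :=
  H × ({c : Fin n × ℕ // c.2 < ℓ c.1} × Bool)

/-- Points: `(h, none)` is `h v0`, `(h, some (s, i))` is `h (z s i)`. -/
abbrev Pt (H : Type) (n : ℕ) : Type := H × Option (Fin n × ℕ)

/-- The reversed crossing. -/
def Cr.rev {ℓ : Fin n → ℕ} (y : Cr H ℓ) : Cr H ℓ := (y.1, y.2.1, !y.2.2)

/-- The start of a crossing. -/
def Cr.src {ℓ : Fin n → ℕ} (y : Cr H ℓ) : Pt H n :=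
  (y.1, some (y.2.1.1.1, if y.2.2 then y.2.1.1.2 else y.2.1.1.2 + 1))

/-- The end of a crossing. -/
def Cr.tgt {ℓ : Fin n → ℕ} (y : Cr H ℓ) : Pt H n :=
  (y.1, some (y.2.1.1.1, if y.2.2 then y.2.1.1.2 + 1 else y.2.1.1.2))

/-- Left translation. -/
def lmul {C : Type*} (h : H) (y : H × C) : H × C := (h * y.1, y.2)

/-- The position of a point in the tree. -/
def Pt.pos (v0 : V) (z : Fin n → ℕ → V) (p : Pt H n) : V :=
  match p with
  | (h, none) => h • v0
  | (h, some (s, i)) => h • z s i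

open Classical in
/-- The jump of the height across a crossing. -/
noncomputable def eps {ℓ : Fin n → ℕ} (E : Setoid (Cr H ℓ)) (y : Cr H ℓ) : Quotient E → ℤ :=
  Pi.single (Quotient.mk E y) 1 - Pi.single (Quotient.mk E y.rev) 1

/-- Tracks (classes of crossings) and heights. -/
structure ResData (g : Fin n → H) (T : SimpleGraph V) where
  v0 : V
  ℓ : Fin n → ℕ
  z : Fin n → ℕ → V
  z0 : ∀ s, z s 0 = v0
  zl : ∀ s, z s (ℓ s) = g s • v0
  zadj : ∀ s i, i < ℓ s → T.Adj (z s i) (z s (i + 1))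
  E : Setoid (Cr H ℓ)
  Emul : ∀ (h : H) (a b : Cr H ℓ), E a b → E (lmul h a) (lmul h b)
  Erev : ∀ a b : Cr H ℓ, E a b → E a.rev b.rev
  Esrc : ∀ a b : Cr H ℓ, E a b → Pt.pos v0 z a.src = Pt.pos v0 z b.src
  Etgt : ∀ a b : Cr H ℓ, E a b → Pt.pos v0 z a.tgt = Pt.pos v0 z b.tgt
  Efg : ∀ y : Cr H ℓ, ∃ D : Subgroup H, D.FG ∧ ∀ h, h ∈ D ↔ E (lmul h y) y
  f : Pt H n → Quotient E → ℤ
  fstep : ∀ y : Cr H ℓ, f y.tgt = f y.src + eps E y
  f0 : ∀ h s, f (h, some (s, 0)) = f (h, none)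
  fl : ∀ h s, f (h, some (s, ℓ s)) = f (h * g s, none)
  fE : ∀ a b : Cr H ℓ, E a b → f a.src = f b.src

end

end Pda3a14
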