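import Pool.Agent.Lib.Pda3a14.SResA
import Pool.Agent.Lib.Pda3a14.SResB

/-!
# Resolutions of actions of finitely presented groups on trees
-/

namespace Pda3a14

open MulAction

/-- A finitely presented group acting on a tree `T` acts on a tree `T'` with finitely generated
edge stabilizers, with an equivariant map `T' → T`. -/
theorem exists_resolution {H : Type} [Group H] {V : Type} [MulAction H V] (P : FinPres H)
    (T : SimpleGraph V) (hT : T.IsTree)
    (hadj : ∀ (h : H) (x y : V), T.Adj x y → T.Adj (h • x) (h • y)) :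
    ∃ (V' : Type) (_ : MulAction H V') (T' : SimpleGraph V') (ϕ : V' → V), T'.IsTree ∧
      (∀ (h : H) (x y : V'), T'.Adj x y → T'.Adj (h • x) (h • y)) ∧
      (∀ (h : H) (x : V'), ϕ (h • x) = h • ϕ x) ∧
      (∀ x y : V', T'.Adj x y → T.Adj (ϕ x) (ϕ y)) ∧
      ∀ x y : V', T'.Adj x y → (stabilizer H x ⊓ stabilizer H y).FG := by
  obtain ⟨D⟩ := exists_resData P T hT hadj
  refine resolution_of_data _ ?_ T hadj D
  rw [← MonoidHom.range_eq_top.2 P.surj, ← FreeGroup.range_lift_eq_closure]
  congr 1
  ext i
  simp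

end Pda3a14
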