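import Pool.Agent.Lib.Pda3a14.SFlat
import Pool.Agent.Lib.Pda3a14.SFi

/-!
# Virtually abelian subgroups of CAT(0) groups
-/

namespace Pda3a14

variable {G : Type*} [Group G]

/-- `E` has a finitely generated abelian subgroup of finite index. -/
def VAb (E : Subgroup G) : Prop :=
  ∃ B ≤ E, B.relIndex E ≠ 0 ∧ B.FG ∧ ∀ a ∈ B, ∀ b ∈ B, a * b = b * a

theorem VAb.mono {E K : Subgroup G} (h : VAb E) (hK : K ≤ E) : VAb K := by
  obtain ⟨B, _, h2, h3, h4⟩ := h
  refine ⟨B ⊓ K, inf_le_right, ?_, fg_of_le_comm h3 h4 inf_le_left, ?_⟩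
  · rw [Subgroup.inf_relIndex_right]
    exact mt (Subgroup.relIndex_eq_zero_of_le_right hK) h2
  · intro a ha b hb
    exact h4 a ha.1 b hb.1

theorem VAb.finPres {K : Subgroup G} (h : VAb K) : Nonempty (FinPres K) := by
  obtain ⟨B, h1, h2, h3, h4⟩ := h
  have hcomm : ∀ a b : B.subgroupOf K, a * b = b * a := by
    rintro ⟨⟨a, ha⟩, ha'⟩ ⟨⟨b, hb⟩, hb'⟩
    apply Subtype.ext
    apply Subtype.ext
    exact h4 a ha' b hb'
  have hfg : Group.FG (B.subgroupOf K) := by
    have h5 : Group.FG B := (Group.fg_iff_subgroup_fg B).2 h3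
    exact Group.fg_of_surjective (f := (Subgroup.subgroupOfEquivOfLe h1).symm.toMonoidHom)
      (Subgroup.subgroupOfEquivOfLe h1).symm.surjective
  obtain ⟨P⟩ := finPres_of_comm hfg hcomm
  exact finPres_of_finiteIndex (B.subgroupOf K) ⟨h2⟩ P

theorem undistorted_of_finiteIndex {B K : Subgroup G} (hBK : B ≤ K) (hfi : B.relIndex K ≠ 0)
    (hB : Undistorted B) : Undistorted K := by
  classical
  obtain ⟨T, S, C, hT, hS, hC⟩ := hB
  have hfin : Finite (K ⧸ B.subgroupOf K) := by
    apply Nat.finite_of_card_ne_zero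
    exact hfi
  let R : Set G := Set.range fun q : K ⧸ B.subgroupOf K => ((q.out⁻¹ : K) : G)
  have hR : R.Finite := Set.finite_range _
  have hRK : ∀ r ∈ R, r ∈ K := by
    rintro _ ⟨q, rfl⟩
    exact (q.out⁻¹).2
  have hdec : ∀ x ∈ K, ∃ b ∈ B, ∃ r ∈ R, x = b * r := by
    intro x hx
    let q : K ⧸ B.subgroupOf K := QuotientGroup.mk (⟨x, hx⟩ : K)⁻¹
    have h1 : (QuotientGroup.mk q.out : K ⧸ B.subgroupOf K) = QuotientGroup.mk (⟨x, hx⟩ : K)⁻¹ :=
      Quotient.out_eq' q
    have h2 : (q.out)⁻¹ * (⟨x, hx⟩ : K)⁻¹ ∈ B.subgroupOf K := QuotientGroup.eq.1 h1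
    have h3 : (⟨x, hx⟩ : K) * q.out ∈ B.subgroupOf K := by
      have := (B.subgroupOf K).inv_mem h2
      rwa [mul_inv_rev, inv_inv, inv_inv] at this
    refine ⟨(((⟨x, hx⟩ : K) * q.out : K) : G), h3, ((q.out⁻¹ : K) : G), ⟨q, rfl⟩, ?_⟩
    rw [← Subgroup.coe_mul, mul_inv_cancel_right]
  obtain ⟨c, hc⟩ := exists_inBall_finite hS R hR
  let T' : Finset G := T ∪ hR.toFinset
  have hTT : ∀ n g, InBall T n g → InBall T' n g := by
    rintro n g ⟨l, h1, h2, h3⟩
    refine ⟨l, h1, fun s hs => ?_, h3⟩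
    rcases h2 s hs with h | h
    · left; exact Finset.mem_union_left _ h
    · right; exact Finset.mem_union_left _ h
  have hRT : ∀ r ∈ R, r ∈ T' := fun r hr =>
    Finset.mem_union_right _ (hR.mem_toFinset.2 hr)
  refine ⟨T', S, C * (1 + c) + 1, ?_, hS, ?_⟩
  · apply le_antisymm
    · rw [Subgroup.closure_le]
      intro t ht
      rcases Finset.mem_union.1 ht with h | h
      · apply hBK
        rw [← hT]
        exact Subgroup.subset_closure h
      · exact hRK _ (hR.mem_toFinset.1 h)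
    · intro x hx
      obtain ⟨b, hb, r, hr, rfl⟩ := hdec x hx
      apply Subgroup.mul_mem
      · rw [← hT] at hb
        exact Subgroup.closure_mono (fun t ht => Finset.mem_union_left _ ht) hb
      · exact Subgroup.subset_closure (hRT r hr)
  · intro n x hx hxn
    rcases Nat.eq_zero_or_pos n with hn | hn
    · subst hn
      obtain ⟨l, h1, h2, h3⟩ := hxn
      have : l = [] := List.eq_nil_of_length_eq_zero (by omega)
      subst this
      exact ⟨[], by simp, by simp, h3⟩
    obtain ⟨b, hb, r, hr, hbr⟩ := hdec x hx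
    have h1 : InBall S (n + c) b := by
      have := hxn.mul (hc r hr).inv
      rwa [hbr, mul_inv_cancel_right] at this
    have h2 := (hTT _ _ (hC _ b hb h1)).mul (InBall.of_mem (hRT r hr))
    rw [← hbr] at h2
    apply h2.mono
    have h3 : (C * (1 + c) + 1) * n = C * n + C * (c * n) + n := by ring
    have h4 : C * (n + c) = C * n + C * c := by ring
    have h5 : C * c ≤ C * (c * n) := Nat.mul_le_mul_left _ (Nat.le_mul_of_pos_right _ hn)
    omega

theorem VAb.undistorted {K : Subgroup G} (hG : CATZeroGroup G) (h : VAb K) : Undistorted K := by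
  obtain ⟨B, h1, h2, h3, h4⟩ := h
  exact undistorted_of_finiteIndex h1 h2 (undistorted_of_comm hG B h3 h4)

end Pda3a14
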