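import Pool.Agent.Lib.Pda3a14.STrans
import Pool.Agent.Lib.Pda3a14.SResM
import Pool.Agent.Lib.Pda3a14.SVirt

/-!
# All finitely presented subgroups of a group acting on a tree
-/

namespace Pda3a14

open MulAction

variable {G : Type} [Group G] {V : Type} [MulAction G V]

/-- The data of the resolution of a finitely presented subgroup. -/
theorem resolve (T : SimpleGraph V) (hT : T.IsTree)
    (hadj : ∀ (g : G) (x y : V), T.Adj x y → T.Adj (g • x) (g • y))
    (hE : ∀ x y : V, T.Adj x y → ∀ K ≤ stabilizer G x ⊓ stabilizer G y, K.FG →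
      Nonempty (FinPres K) ∧ Undistorted K)
    (H : Subgroup G) (P : FinPres H) :
    ∃ (V' : Type) (_ : MulAction H V') (T' : SimpleGraph V'), T'.IsTree ∧
      (∀ (h : H) (x y : V'), T'.Adj x y → T'.Adj (h • x) (h • y)) ∧
      (∀ x y : V', T'.Adj x y →
        Nonempty (FinPres (⊤ ⊓ stabilizer H x ⊓ stabilizer H y : Subgroup H)) ∧
        Undistorted (⊤ ⊓ stabilizer H x ⊓ stabilizer H y : Subgroup H)) ∧
      ∀ x : V', ∃ y : V, (⊤ ⊓ stabilizer H x : Subgroup H).map H.subtype ≤ stabilizer G y := by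
  obtain ⟨V', inst, T', ϕ, hT', hadj', hϕ, hϕadj, hfg⟩ := exists_resolution P T hT
    (fun h x y hxy => hadj (h : G) x y hxy)
  have hst : ∀ x : V', ∀ h ∈ stabilizer H x, (h : G) • ϕ x = ϕ x := by
    intro x h hh
    have h1 := hϕ h x
    have h2 : h • x = x := hh
    rw [h2] at h1
    exact h1.symm
  refine ⟨V', inst, T', hT', hadj', ?_, ?_⟩
  · intro x y hxy
    rw [top_inf_eq]
    set E := stabilizer H x ⊓ stabilizer H y with hEdef
    have hK : E.map H.subtype ≤ stabilizer G (ϕ x) ⊓ stabilizer G (ϕ y) := by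
      rintro _ ⟨e, he, rfl⟩
      exact ⟨hst x e he.1, hst y e he.2⟩
    have hKfg : (E.map H.subtype).FG := by
      classical
      obtain ⟨S, hS⟩ := hfg x y hxy
      exact ⟨S.image H.subtype, by rw [Finset.coe_image, ← MonoidHom.map_closure, hS]⟩
    obtain ⟨⟨P'⟩, hU⟩ := hE _ _ (hϕadj x y hxy) _ hK hKfg
    exact ⟨⟨P'.ofEquiv (Subgroup.equivMapOfInjective E H.subtype H.subtype_injective).symm⟩,
      undistorted_of_map H P.fg E hU⟩
  · intro x
    refine ⟨ϕ x, ?_⟩
    rw [top_inf_eq]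
    rintro _ ⟨e, he, rfl⟩
    exact hst x e he

theorem exp_strong (T : SimpleGraph V) (hT : T.IsTree)
    (hadj : ∀ (g : G) (x y : V), T.Adj x y → T.Adj (g • x) (g • y))
    (hE : ∀ x y : V, T.Adj x y → ∀ K ≤ stabilizer G x ⊓ stabilizer G y, K.FG →
      Nonempty (FinPres K) ∧ Undistorted K)
    (hV : ∀ x : V, ∀ K ≤ stabilizer G x, ∀ P : FinPres K,
      Preceq (fun x => (P.dehn x : ℝ)) Real.exp)
    (H : Subgroup G) (P : FinPres H) : Preceq (fun x => (P.dehn x : ℝ)) Real.exp := by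
  obtain ⟨V', inst, T', hT', hadj', hE', hV'⟩ := resolve T hT hadj hE H P
  have h := exp_tree T' hT' hadj' ⊤ hE' (fun x Q => by
    obtain ⟨y, hy⟩ := hV' x
    have h1 := hV y _ hy (Q.ofEquiv (Subgroup.equivMapOfInjective _ H.subtype
      H.subtype_injective))
    rwa [FinPres.ofEquiv_dehn] at h1) (P.ofEquiv Subgroup.topEquiv.symm)
  rwa [FinPres.ofEquiv_dehn] at h

theorem poly_strong (T : SimpleGraph V) (hT : T.IsTree)
    (hadj : ∀ (g : G) (x y : V), T.Adj x y → T.Adj (g • x) (g • y))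
    (hE : ∀ x y : V, T.Adj x y → ∀ K ≤ stabilizer G x ⊓ stabilizer G y, K.FG →
      Nonempty (FinPres K) ∧ Undistorted K)
    (hV : ∀ x : V, ∀ K ≤ stabilizer G x, ∀ P : FinPres K,
      ∃ d : ℕ, Preceq (fun x => (P.dehn x : ℝ)) (fun x => x ^ d))
    (H : Subgroup G) (P : FinPres H) :
    ∃ d : ℕ, Preceq (fun x => (P.dehn x : ℝ)) (fun x => x ^ d) := by
  obtain ⟨V', inst, T', hT', hadj', hE', hV'⟩ := resolve T hT hadj hE H P
  have h := poly_tree T' hT' hadj' ⊤ hE' (fun x Q => by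
    obtain ⟨y, hy⟩ := hV' x
    have h1 := hV y _ hy (Q.ofEquiv (Subgroup.equivMapOfInjective _ H.subtype
      H.subtype_injective))
    rwa [FinPres.ofEquiv_dehn] at h1) (P.ofEquiv Subgroup.topEquiv.symm)
  rwa [FinPres.ofEquiv_dehn] at h

/-- In a CAT(0) group the condition on the edge groups holds if they are virtually abelian. -/
theorem edges_of_cat (hG : CATZeroGroup G) (T : SimpleGraph V)
    (hA : ∀ x y : V, T.Adj x y → VAb (stabilizer G x ⊓ stabilizer G y)) :
    ∀ x y : V, T.Adj x y → ∀ K ≤ stabilizer G x ⊓ stabilizer G y, K.FG →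
      Nonempty (FinPres K) ∧ Undistorted K := by
  intro x y hxy K hK _
  have h := (hA x y hxy).mono hK
  exact ⟨h.finPres, h.undistorted hG⟩

end Pda3a14
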