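import Pool.Agent.Lib.Pda3a14.SFinal

/-!
# Transfer between a subgroup and the ambient group
-/

namespace Pda3a14

open MulAction

/-- Transport of a presentation. -/
def FinPres.ofEquiv {H K : Type*} [Group H] [Group K] (e : H ≃* K) (P : FinPres H) : FinPres K where
  n := P.n
  π := e.toMonoidHom.comp P.π
  R := P.R
  surj := e.surjective.comp P.surj
  ker := by
    rw [← P.ker, MonoidHom.ker_comp_of_injective]
    exact e.injective

theorem FinPres.ofEquiv_dehn {H K : Type*} [Group H] [Group K] (e : H ≃* K) (P : FinPres H) :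
    (P.ofEquiv e).dehn = P.dehn := by
  ext x
  have h : ∀ w : FreeGroup (Fin P.n), (P.ofEquiv e).π w = 1 ↔ P.π w = 1 := by
    intro w
    change e (P.π w) = 1 ↔ _
    exact e.map_eq_one_iff
  unfold FinPres.dehn
  apply congrArg sSup
  ext m
  constructor
  · rintro ⟨w, h1, h2, h3⟩
    exact ⟨w, h1, (h w).1 h2, h3⟩
  · rintro ⟨w, h1, h2, h3⟩
    exact ⟨w, h1, (h w).2 h2, h3⟩

theorem FinPres.fg {H : Type*} [Group H] (P : FinPres H) : Group.FG H :=
  Group.fg_of_surjective (f := P.π) P.surj

theorem undistorted_of_map {G : Type*} [Group G] (H : Subgroup G) (hfg : Group.FG H)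
    (E : Subgroup H) (h : Undistorted (E.map H.subtype)) : Undistorted E := by
  classical
  obtain ⟨T, S, C, hT, hS, hC⟩ := h
  obtain ⟨S', hS'⟩ := hfg.out
  have hTH : ∀ t ∈ T, t ∈ H := by
    intro t ht
    have : t ∈ E.map H.subtype := by rw [← hT]; exact Subgroup.subset_closure ht
    obtain ⟨e, _, rfl⟩ := this
    exact e.2
  let T' : Finset H := T.subtype (· ∈ H)
  have hT' : ∀ t : H, t ∈ T' ↔ (t : G) ∈ T := fun t => Finset.mem_subtype
  obtain ⟨c, hc⟩ := exists_inBall_finite hS ((fun s : H => (s : G)) '' (S' : Set H))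
    (S'.finite_toSet.image _)
  refine ⟨T', S', C * c, ?_, hS', ?_⟩
  · have h1 : (Subgroup.closure (T' : Set H)).map H.subtype = E.map H.subtype := by
      rw [MonoidHom.map_closure, ← hT]
      congr 1
      ext t
      constructor
      · rintro ⟨t', ht', rfl⟩
        exact (hT' t').1 ht'
      · intro ht
        exact ⟨⟨t, hTH t ht⟩, (hT' _).2 ht, rfl⟩
    exact Subgroup.map_injective H.subtype_injective h1
  · intro n d hd hn
    have h1 : InBall S (n * c) (d : G) := by
      obtain ⟨l, h1, h2, h3⟩ := hn
      have h4 : InBall S ((l.map fun s : H => (s : G)).length * c)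
          (l.map fun s : H => (s : G)).prod := by
        apply InBall.list
        intro s hs
        rw [List.mem_map] at hs
        obtain ⟨s', hs', rfl⟩ := hs
        rcases h2 s' hs' with h | h
        · exact hc _ ⟨s', h, rfl⟩
        · have := (hc _ ⟨s'⁻¹, h, rfl⟩).inv
          simpa using this
      have h5 : (l.map fun s : H => (s : G)).prod = (d : G) := by
        rw [← h3]
        exact (map_list_prod H.subtype l).symm
      rw [h5, List.length_map] at h4
      exact h4.mono (Nat.mul_le_mul_right _ h1)
    have h2 := hC _ (d : G) ⟨d, hd, rfl⟩ h1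
    obtain ⟨l, h3, h4, h5⟩ := h2
    have key : ∀ l : List G, (∀ s ∈ l, s ∈ T ∨ s⁻¹ ∈ T) → ∃ l' : List H, l'.length = l.length ∧
        (∀ s ∈ l', s ∈ T' ∨ s⁻¹ ∈ T') ∧ ((l'.prod : H) : G) = l.prod := by
      intro l
      induction l with
      | nil => intro _; exact ⟨[], rfl, by simp, by simp⟩
      | cons a l ih =>
        intro hl
        obtain ⟨l', k1, k2, k3⟩ := ih (fun s hs => hl s (by simp [hs]))
        have ha : a ∈ H := by
          rcases hl a (by simp) with h | h
          · exact hTH _ h
          · have := H.inv_mem (hTH _ h)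
            rwa [inv_inv] at this
        refine ⟨⟨a, ha⟩ :: l', by simp [k1], ?_, ?_⟩
        · intro s hs
          rcases List.mem_cons.1 hs with rfl | h
          · rcases hl a (by simp) with h | h
            · left; exact (hT' _).2 h
            · right; exact (hT' _).2 h
          · exact k2 s h
        · rw [List.prod_cons, List.prod_cons, Subgroup.coe_mul, k3]
    obtain ⟨l', k1, k2, k3⟩ := key l h4
    refine ⟨l', ?_, k2, Subtype.ext (k3.trans h5)⟩
    have : C * c * n = C * (n * c) := by ring
    omega

end Pda3a14
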